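import Mathlib

namespace Pool.Agent.H34.TreeAlphaDefs

/-- `(T, X)` is a tree decomposition of `G`. -/
structure IsTreeDecomp {V N : Type} (G : SimpleGraph V) (T : SimpleGraph N) (X : N → Set V) :
    Prop where
  tree : T.IsTree
  cover : ∀ v, ∃ t, v ∈ X t
  edge : ∀ u v, G.Adj u v → ∃ t, u ∈ X t ∧ v ∈ X t
  conn : ∀ v, (T.induce {t | v ∈ X t}).Connected

/-- The tree-independence number: the least `k` such that some tree decomposition (over a finite
tree) has `α(G[X_t]) ≤ k` for every bag. -/
noncomputable def treeAlpha {V : Type} (G : SimpleGraph V) : ℕ :=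
  sInf {k : ℕ | ∃ (N : Type) (_ : Finite N) (T : SimpleGraph N) (X : N → Set V),
    IsTreeDecomp G T X ∧ ∀ t, (G.induce (X t)).indepNum ≤ k}

end Pool.Agent.H34.TreeAlphaDefs
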