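import Mathlib
import Pool.Agent.H34.TreeAlphaDefs

namespace Pool.Agent.H34.TreeRoot
open Pool.Agent.H34.TreeAlphaDefs SimpleGraph

variable {N : Type} {T : SimpleGraph N}

theorem parent_unique (hT : T.IsTree) (r : N) {s a b : N} (ha : T.Adj s a) (hb : T.Adj s b)
    (da : T.dist r a < T.dist r s) (db : T.dist r b < T.dist r s) : a = b := by
  obtain ⟨p, hp, hl⟩ := hT.connected.exists_path_of_dist r s
  have key : ∀ c, T.Adj s c → T.dist r c < T.dist r s → c = p.penultimate := by
    intro c hc dc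
    apply hT.isAcyclic.eq_penultimate_of_adj_end hp hc
    obtain ⟨q, hq, hql⟩ := hT.connected.exists_path_of_dist r c
    apply hT.isAcyclic.mem_support_of_ne_mem_support_of_adj_of_isPath hp hq hc
    intro hs
    have := hT.isAcyclic.path_concat hp hq hc hs
    rw [this, Walk.length_concat] at hql
    omega
  rw [key a ha da, key b hb db]

/-- one step towards the root inside `S` -/
def Up (T : SimpleGraph N) (r : N) (S : Set N) (a b : N) : Prop :=
  b ∈ S ∧ T.Adj a b ∧ T.dist r b < T.dist r a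

theorem reach_top (hT : T.IsTree) (r : N) {S : Set N} (hS : (T.induce S).Preconnected) {t : N}
    (ht : t ∈ S) (hmin : ∀ s ∈ S, T.dist r t ≤ T.dist r s) {s : N} (hs : s ∈ S) :
    Relation.ReflTransGen (Up T r S) s t := by
  have key : ∀ (x y : S) (w : (T.induce S).Walk x y), Relation.ReflTransGen (Up T r S) y.1 t →
      Relation.ReflTransGen (Up T r S) x.1 t := by
    intro x y w
    induction w with
    | nil => exact id
    | @cons u v _ h _ ih =>
      intro hy
      have hv := ih hy
      have huv : T.Adj u.1 v.1 := h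
      rcases hT.dist_eq_dist_add_one_of_adj r huv with hd | hd
      · exact .head ⟨v.2, huv, by omega⟩ hv
      · rcases hv.cases_head with h1 | ⟨c, h1, h2⟩
        · have := hmin u.1 u.2
          rw [← h1] at this
          omega
        · rwa [parent_unique hT r huv.symm h1.2.1 (by omega) h1.2.2]
  obtain ⟨w⟩ := hS ⟨s, hs⟩ ⟨t, ht⟩
  exact key _ _ w .refl

theorem top_mem (hT : T.IsTree) (r : N) {S1 S2 : Set N} (h1 : (T.induce S1).Preconnected)
    (h2 : (T.induce S2).Preconnected) {t1 t2 : N} (ht1 : t1 ∈ S1) (ht2 : t2 ∈ S2)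
    (m1 : ∀ s ∈ S1, T.dist r t1 ≤ T.dist r s) (m2 : ∀ s ∈ S2, T.dist r t2 ≤ T.dist r s)
    (hd : T.dist r t2 ≤ T.dist r t1) {s : N} (hs1 : s ∈ S1) (hs2 : s ∈ S2) : t1 ∈ S2 := by
  have := reach_top hT r h1 ht1 m1 hs1
  clear hs1
  induction this using Relation.ReflTransGen.head_induction_on with
  | refl => exact hs2
  | @head a c hac _ ih =>
    apply ih
    rcases (reach_top hT r h2 ht2 m2 hs2).cases_head with h | ⟨e, h, -⟩
    · have := m1 c hac.1
      have := hac.2.2
      rw [h] at this
      omega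
    · rw [parent_unique hT r hac.2.1 h.2.1 hac.2.2 h.2.2]
      exact h.1

theorem exists_closed_nbhd {V : Type} [Finite V] [Nonempty V] {G : SimpleGraph V}
    {X : N → Set V} (h : IsTreeDecomp G T X) : ∃ v t, v ∈ X t ∧ ∀ u, G.Adj v u → u ∈ X t := by
  obtain ⟨r⟩ := h.tree.connected.nonempty
  have : ∀ v, ∃ t, v ∈ X t ∧ ∀ s, v ∈ X s → T.dist r t ≤ T.dist r s := by
    intro v
    obtain ⟨t, ht, hm⟩ := (measure (T.dist r)).wf.has_min {t | v ∈ X t} (h.cover v)
    exact ⟨t, ht, fun s hs => not_lt.1 (hm s hs)⟩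
  choose top h1 h2 using this
  obtain ⟨v, hv⟩ := Finite.exists_max fun v => T.dist r (top v)
  refine ⟨v, top v, h1 v, fun u huv => ?_⟩
  obtain ⟨s, hs1, hs2⟩ := h.edge v u huv
  exact top_mem (S1 := {t | v ∈ X t}) (S2 := {t | u ∈ X t}) h.tree r (h.conn v).preconnected
    (h.conn u).preconnected (h1 v) (h1 u) (h2 v) (h2 u) (hv u) hs1 hs2

theorem indepNum_induce_le_iff {V : Type} [Finite V] (G : SimpleGraph V) (S : Set V) (k : ℕ) :
    (G.induce S).indepNum ≤ k ↔ ∀ s : Finset V, (↑s : Set V) ⊆ S → G.IsIndepSet s → s.card ≤ k := by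
  classical
  constructor
  · intro h s hs hi
    have h1 : (G.induce S).IsIndepSet (s.subtype (· ∈ S) : Finset S) := by
      intro a ha b hb hab
      simp only [Finset.mem_coe, Finset.mem_subtype] at ha hb
      exact hi ha hb fun e => hab (Subtype.ext e)
    have h2 := h1.card_le_indepNum
    rw [Finset.card_subtype, Finset.filter_true_of_mem fun x hx => hs hx] at h2
    omega
  · intro h
    obtain ⟨s, hs⟩ := (G.induce S).exists_isNIndepSet_indepNum
    rw [← hs.card_eq, ← Finset.card_map (Function.Embedding.subtype _)]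
    apply h
    · intro x hx
      simp only [Finset.coe_map, Set.mem_image] at hx
      obtain ⟨y, -, rfl⟩ := hx
      exact y.2
    · intro a ha b hb hab
      simp only [Finset.coe_map, Set.mem_image] at ha hb
      obtain ⟨x, hx, rfl⟩ := ha
      obtain ⟨y, hy, rfl⟩ := hb
      exact hs.isIndepSet hx hy fun e => hab (by rw [e])

theorem trivial_decomp {V : Type} (G : SimpleGraph V) :
    IsTreeDecomp G (⊥ : SimpleGraph Unit) fun _ => Set.univ where
  tree := IsTree.of_subsingleton
  cover := fun _ => ⟨(), trivial⟩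
  edge := fun _ _ _ => ⟨(), trivial, trivial⟩
  conn := fun _ => @Connected.mk _ _ (fun a b => by rw [Subsingleton.elim a b]) ⟨⟨(), trivial⟩⟩

theorem le_treeAlpha {V : Type} (G : SimpleGraph V) (k : ℕ)
    (h : ∀ (N : Type) (T : SimpleGraph N) (X : N → Set V), IsTreeDecomp G T X →
      ∃ t, k ≤ (G.induce (X t)).indepNum) : k ≤ treeAlpha G := by
  apply le_csInf
  · exact ⟨_, Unit, inferInstance, ⊥, _, trivial_decomp G, fun _ => le_rfl⟩
  · rintro j ⟨N, _, T, X, hX, hj⟩
    obtain ⟨t, ht⟩ := h N T X hX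
    exact ht.trans (hj t)

end Pool.Agent.H34.TreeRoot
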