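import Mathlib

set_option autoImplicit false
set_option linter.unusedVariables false

namespace Pool.Agent.H34.BM

structure Base (a b A1 A2 T1 T2 : ℤ) : Prop where
  h_a : 0 ≤ a
  h_b : 0 ≤ b
  h_A1 : 0 ≤ A1
  h_A2 : 0 ≤ A2
  h_T1 : 0 ≤ T1
  h_T2 : 0 ≤ T2
  hPa : 0 ≤ a^2 - A1 - a
  hP2 : 0 ≤ 0 - a^2 + A1 + 2*a
  hQb : 0 ≤ b^2 - A2 - b
  hQ2 : 0 ≤ 0 - b^2 + A2 + 2*b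
  hT : 0 ≤ a*b - T1 - T2
  h1a : 0 ≤ 0 - T1 + 2*a
  h1b : 0 ≤ 0 - T1 + 2*b
  h2a : 0 ≤ 0 - T2 + 2*a
  h2b : 0 ≤ 0 - T2 + 2*b
  hD1 : 0 ≤ 2*a^2*b^2 - A1*b^2 - A2*a^2 - 2*T1*a*b
  hD2 : 0 ≤ 2*a^2*b^2 - A1*b^2 - A2*a^2 - 2*T2*a*b
  hK1 : 0 ≤ 2*a*b^2 + 2*a^2*b - A1*b - A2*a - 2*T1*a - 2*T1*b
  hK2 : 0 ≤ 2*a*b^2 + 2*a^2*b - A1*b - A2*a - 2*T2*a - 2*T2*b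

structure Pair (y1 y2 b A : ℤ) : Prop where
  h1 : 0 ≤ y1
  u1 : 0 ≤ 0 - y1 + 2
  q1 : 0 ≤ y1^2 - y1
  h2 : 0 ≤ y2
  u2 : 0 ≤ 0 - y2 + 2
  q2 : 0 ≤ y2^2 - y2
  pb : 0 ≤ b - y1 - y2
  pc : 0 ≤ 0 - 2*b*y1 - 2*b*y2 + 2*y1*y2 + 2*y1^2 + 2*y2^2 + A
  pq : 0 ≤ b^2 - y1^2 - y2^2 - A - b + y1 + y2

structure LocX (a b A1 A2 T v : ℤ) : Prop where
  hL : 0 ≤ a*b - a*v - T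
  hM : 0 ≤ 0 - T + 2*b - 2*v
  hE : 0 ≤ 0 - 2*a^2*b*v + 2*a^2*b^2 + 2*A1*b*v - A1*b^2 - A1*v^2 - A2*a^2 - 2*T*a*b + 2*T*a*v

end Pool.Agent.H34.BM
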