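import Pool.Agent.H34.BM0

set_option autoImplicit false
set_option linter.unusedVariables false
set_option linter.unusedSectionVars false

namespace Pool.Agent.H34.BM
open Finset

def F2 (t c z w a b A1 A2 T1 T2 : ℤ) : ℤ :=
  2*t*(a*b*(c+z+w)+(a+b)*(c*z+c*w+z*w)+c*z*w)+(A1*b+A2*a)*(c+z+w)+(A1+A2+2*a*b)*(c*z+c*w+z*w)
    -2*c*z*T1-2*c*w*T2+2*(a+b)*(c*z*w)

abbrev Pt (V : Type) := Fin 4 ⊕ V ⊕ V

variable {V : Type} [Fintype V] [DecidableEq V]

def pS (k : Fin 4) : Pt V := Sum.inl k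
def pX (x : V) : Pt V := Sum.inr (Sum.inl x)
def pY (x : V) : Pt V := Sum.inr (Sum.inr x)

def sa (W : Pt V → ℤ) : ℤ := ∑ x, W (pX x)
def sb (W : Pt V → ℤ) : ℤ := ∑ x, W (pY x)
def sA1 (W : Pt V → ℤ) : ℤ := sa W * sa W - ∑ x, W (pX x) * W (pX x)
def sA2 (W : Pt V → ℤ) : ℤ := sb W * sb W - ∑ x, W (pY x) * W (pY x)
def sT (σ : Equiv.Perm V) (W : Pt V → ℤ) : ℤ := ∑ x, W (pX x) * W (pY (σ x))

def Phi (σ τ : Equiv.Perm V) (W : Pt V → ℤ) : ℤ :=
  F2 (W (pS 0)) (W (pS 1)) (W (pS 2)) (W (pS 3)) (sa W) (sb W) (sA1 W) (sA2 W) (sT σ W) (sT τ W)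

def ins (W : Pt V → ℤ) (p : Pt V) (s : ℤ) : Pt V → ℤ := fun q => W q + if q = p then s else 0

lemma ins_SS (W : Pt V → ℤ) (k j : Fin 4) (s : ℤ) :
    ins W (pS k) s (pS j) = W (pS j) + if j = k then s else 0 := by simp [ins, pS]
lemma ins_SX (W : Pt V → ℤ) (k : Fin 4) (x : V) (s : ℤ) : ins W (pS k) s (pX x) = W (pX x) := by
  simp [ins, pS, pX]
lemma ins_SY (W : Pt V → ℤ) (k : Fin 4) (x : V) (s : ℤ) : ins W (pS k) s (pY x) = W (pY x) := by
  simp [ins, pS, pY]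
lemma ins_XS (W : Pt V → ℤ) (k : Fin 4) (x : V) (s : ℤ) : ins W (pX x) s (pS k) = W (pS k) := by
  simp [ins, pS, pX]
lemma ins_YS (W : Pt V → ℤ) (k : Fin 4) (x : V) (s : ℤ) : ins W (pY x) s (pS k) = W (pS k) := by
  simp [ins, pS, pY]
lemma ins_XY (W : Pt V → ℤ) (x y : V) (s : ℤ) : ins W (pX x) s (pY y) = W (pY y) := by
  simp [ins, pX, pY]
lemma ins_YX (W : Pt V → ℤ) (x y : V) (s : ℤ) : ins W (pY x) s (pX y) = W (pX y) := by
  simp [ins, pX, pY]
lemma ins_XX (W : Pt V → ℤ) (x y : V) (s : ℤ) :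
    ins W (pX x) s (pX y) = W (pX y) + if y = x then s else 0 := by simp [ins, pX]
lemma ins_YY (W : Pt V → ℤ) (x y : V) (s : ℤ) :
    ins W (pY x) s (pY y) = W (pY y) + if y = x then s else 0 := by simp [ins, pY]

lemma sa_S (W : Pt V → ℤ) (k : Fin 4) (s : ℤ) : sa (ins W (pS k) s) = sa W := by simp [sa, ins_SX]
lemma sb_S (W : Pt V → ℤ) (k : Fin 4) (s : ℤ) : sb (ins W (pS k) s) = sb W := by simp [sb, ins_SY]
lemma sA1_S (W : Pt V → ℤ) (k : Fin 4) (s : ℤ) : sA1 (ins W (pS k) s) = sA1 W := by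
  simp [sA1, sa_S, ins_SX]
lemma sA2_S (W : Pt V → ℤ) (k : Fin 4) (s : ℤ) : sA2 (ins W (pS k) s) = sA2 W := by
  simp [sA2, sb_S, ins_SY]
lemma sT_S (σ : Equiv.Perm V) (W : Pt V → ℤ) (k : Fin 4) (s : ℤ) :
    sT σ (ins W (pS k) s) = sT σ W := by simp [sT, ins_SX, ins_SY]
lemma sa_X (W : Pt V → ℤ) (x : V) (s : ℤ) : sa (ins W (pX x) s) = sa W + s := by
  simp [sa, ins_XX, sum_add_distrib]
lemma sb_X (W : Pt V → ℤ) (x : V) (s : ℤ) : sb (ins W (pX x) s) = sb W := by simp [sb, ins_XY]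
lemma sa_Y (W : Pt V → ℤ) (x : V) (s : ℤ) : sa (ins W (pY x) s) = sa W := by simp [sa, ins_YX]
lemma sb_Y (W : Pt V → ℤ) (x : V) (s : ℤ) : sb (ins W (pY x) s) = sb W + s := by
  simp [sb, ins_YY, sum_add_distrib]

lemma sq_upd (u : V → ℤ) (x : V) (s : ℤ) :
    ∑ y, (u y + if y = x then s else 0) * (u y + if y = x then s else 0)
      = ∑ y, u y * u y + (2 * s * u x + s * s) := by
  have : ∀ y, (u y + if y = x then s else 0) * (u y + if y = x then s else 0)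
      = u y * u y + if y = x then 2 * s * u x + s * s else 0 := by
    intro y; split_ifs with h
    · subst h; ring
    · ring
  simp only [this, sum_add_distrib, sum_ite_eq', mem_univ, if_true]

lemma sA1_X (W : Pt V → ℤ) (x : V) (s : ℤ) :
    sA1 (ins W (pX x) s) = sA1 W + 2 * s * (sa W - W (pX x)) := by
  simp only [sA1, sa_X, ins_XX]; rw [sq_upd (fun y => W (pX y))]; ring
lemma sA2_Y (W : Pt V → ℤ) (x : V) (s : ℤ) :
    sA2 (ins W (pY x) s) = sA2 W + 2 * s * (sb W - W (pY x)) := by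
  simp only [sA2, sb_Y, ins_YY]; rw [sq_upd (fun y => W (pY y))]; ring
lemma sA2_X (W : Pt V → ℤ) (x : V) (s : ℤ) : sA2 (ins W (pX x) s) = sA2 W := by
  simp only [sA2, sb_X, ins_XY]
lemma sA1_Y (W : Pt V → ℤ) (x : V) (s : ℤ) : sA1 (ins W (pY x) s) = sA1 W := by
  simp only [sA1, sa_Y, ins_YX]
lemma sT_X (σ : Equiv.Perm V) (W : Pt V → ℤ) (x : V) (s : ℤ) :
    sT σ (ins W (pX x) s) = sT σ W + s * W (pY (σ x)) := by
  simp [sT, ins_XX, ins_XY, add_mul, sum_add_distrib]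
lemma sT_Y (σ : Equiv.Perm V) (W : Pt V → ℤ) (y : V) (s : ℤ) :
    sT σ (ins W (pY y) s) = sT σ W + s * W (pX (σ.symm y)) := by
  have : ∀ x, (σ x = y) = (x = σ.symm y) := fun x => by
    rw [Equiv.eq_symm_apply]
  simp [sT, ins_YX, ins_YY, mul_add, sum_add_distrib, this, mul_comm]

/-- admissible weights -/
structure Box (W : Pt V → ℤ) : Prop where
  s : ∀ k, W (pS k) = 0 ∨ W (pS k) = 1
  x : ∀ x, W (pX x) = 0 ∨ W (pX x) = 1 ∨ W (pX x) = 2
  y : ∀ x, W (pY x) = 0 ∨ W (pY x) = 1 ∨ W (pY x) = 2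

lemma pt_cases (p : Pt V) : (∃ k, p = pS k) ∨ (∃ x, p = pX x) ∨ ∃ y, p = pY y := by
  rcases p with k | x | y
  · exact Or.inl ⟨k, rfl⟩
  · exact Or.inr (Or.inl ⟨x, rfl⟩)
  · exact Or.inr (Or.inr ⟨y, rfl⟩)

lemma ins_zero_apply (W : Pt V → ℤ) (p q : Pt V) :
    ins W p (-W p) q = if q = p then 0 else W q := by
  unfold ins; split_ifs with h
  · subst h; ring
  · ring

lemma Box.zero {W : Pt V → ℤ} (h : Box W) (p : Pt V) : Box (ins W p (-W p)) := by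
  refine ⟨fun k => ?_, fun k => ?_, fun k => ?_⟩ <;> rw [ins_zero_apply] <;> split_ifs
  · simp
  · exact h.s k
  · simp
  · exact h.x k
  · simp
  · exact h.y k

section gen
variable (u v : V → ℤ)

lemma sq_le_sq_sum (hu : ∀ x, 0 ≤ u x) : ∑ x, u x * u x ≤ (∑ x, u x) * ∑ x, u x := by
  rw [sum_mul]
  exact sum_le_sum fun x _ => mul_le_mul_of_nonneg_left
    (single_le_sum (f := u) (fun y _ => hu y) (mem_univ x)) (hu x)

lemma quad (σ : Equiv.Perm V) (l m : ℤ) :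
    2 * l * m * ∑ x, u x * v (σ x) ≤ m * m * ∑ x, u x * u x + l * l * ∑ x, v x * v x := by
  rw [← Equiv.sum_comp σ (fun x => v x * v x), mul_sum, mul_sum, mul_sum, ← sum_add_distrib]
  exact sum_le_sum fun x _ => by nlinarith [mul_self_nonneg (m * u x - l * v (σ x))]
end gen

lemma Kfact (a b P Q T : ℤ) (ha : 0 ≤ a) (hb : 0 ≤ b) (hP0 : 0 ≤ P) (hQ0 : 0 ≤ Q) (hP : P ≤ a * a)
    (hQ : Q ≤ b * b) (hT : 0 ≤ T) (h1 : T ≤ 2 * a) (h2 : T ≤ 2 * b)
    (hD : 2 * a * b * T ≤ b * b * P + a * a * Q) :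
    0 ≤ a * b * (a + b) + P * b + Q * a - 2 * T * (a + b) := by
  rcases ha.eq_or_lt with rfl | ha'
  · have : T = 0 := by omega
    subst this; have := mul_nonneg hP0 hb; linarith
  rcases hb.eq_or_lt with rfl | hb'
  · have : T = 0 := by omega
    subst this; have := mul_nonneg hQ0 ha; linarith
  have hab := mul_pos ha' hb'
  refine le_of_mul_le_mul_left ?_ hab
  have e1 := mul_nonneg (mul_nonneg (mul_nonneg hb hb) hb) (sub_nonneg.2 hP)
  have e2 := mul_nonneg (mul_nonneg (mul_nonneg ha ha) ha) (sub_nonneg.2 hQ)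
  have e3 := mul_nonneg (add_nonneg ha hb) (sub_nonneg.2 hD)
  linarith only [e1, e2, e3]

lemma Box.x0 {W : Pt V → ℤ} (h : Box W) (x : V) : 0 ≤ W (pX x) := by
  rcases h.x x with e | e | e <;> omega
lemma Box.y0 {W : Pt V → ℤ} (h : Box W) (x : V) : 0 ≤ W (pY x) := by
  rcases h.y x with e | e | e <;> omega

lemma sT_le_a {W : Pt V → ℤ} (h : Box W) (σ : Equiv.Perm V) : sT σ W ≤ 2 * sa W := by
  unfold sT sa; rw [mul_sum]
  exact sum_le_sum fun x _ => by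
    have := h.x0 x
    rcases h.y (σ x) with e | e | e <;> rw [e] <;> omega
lemma sT_le_b {W : Pt V → ℤ} (h : Box W) (σ : Equiv.Perm V) : sT σ W ≤ 2 * sb W := by
  unfold sT sb; rw [← Equiv.sum_comp σ (fun x => W (pY x)), mul_sum]
  exact sum_le_sum fun x _ => by
    have := h.y0 (σ x)
    rcases h.x x with e | e | e <;> rw [e] <;> omega
lemma sT_nonneg {W : Pt V → ℤ} (h : Box W) (σ : Equiv.Perm V) : 0 ≤ sT σ W :=
  sum_nonneg fun x _ => mul_nonneg (h.x0 x) (h.y0 _)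

lemma two_le_sum (v : V → ℤ) (hv : ∀ x, 0 ≤ v x) {x y : V} (hxy : x ≠ y) :
    v x + v y ≤ ∑ z, v z := by
  rw [← sum_pair hxy]
  exact sum_le_sum_of_subset_of_nonneg (subset_univ _) fun z _ _ => hv z

theorem base_of {W : Pt V → ℤ} (h : Box W) {σ τ : Equiv.Perm V} (hστ : ∀ x, σ x ≠ τ x) :
    Base (sa W) (sb W) (sA1 W) (sA2 W) (sT σ W) (sT τ W) := by
  have ha : 0 ≤ sa W := sum_nonneg fun x _ => h.x0 x
  have hb : 0 ≤ sb W := sum_nonneg fun x _ => h.y0 x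
  have hP := sq_le_sq_sum (fun x => W (pX x)) h.x0
  have hQ := sq_le_sq_sum (fun x => W (pY x)) h.y0
  have hP0 : 0 ≤ ∑ x, W (pX x) * W (pX x) := sum_nonneg fun x _ => mul_self_nonneg _
  have hQ0 : 0 ≤ ∑ x, W (pY x) * W (pY x) := sum_nonneg fun x _ => mul_self_nonneg _
  have hP1 : sa W ≤ ∑ x, W (pX x) * W (pX x) :=
    sum_le_sum fun x _ => by rcases h.x x with e | e | e <;> rw [e] <;> norm_num
  have hQ1 : sb W ≤ ∑ x, W (pY x) * W (pY x) :=
    sum_le_sum fun x _ => by rcases h.y x with e | e | e <;> rw [e] <;> norm_num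
  have hP2 : ∑ x, W (pX x) * W (pX x) ≤ 2 * sa W := by
    unfold sa; rw [mul_sum]
    exact sum_le_sum fun x _ => by rcases h.x x with e | e | e <;> rw [e] <;> norm_num
  have hQ2 : ∑ x, W (pY x) * W (pY x) ≤ 2 * sb W := by
    unfold sb; rw [mul_sum]
    exact sum_le_sum fun x _ => by rcases h.y x with e | e | e <;> rw [e] <;> norm_num
  have hT : sT σ W + sT τ W ≤ sa W * sb W := by
    unfold sT sa; rw [← sum_add_distrib, sum_mul]
    refine sum_le_sum fun x _ => ?_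
    rw [← mul_add]
    exact mul_le_mul_of_nonneg_left (two_le_sum (fun y => W (pY y)) h.y0 (hστ x)) (h.x0 x)
  have d1 := quad (fun x => W (pX x)) (fun x => W (pY x)) σ (sa W) (sb W)
  have d2 := quad (fun x => W (pX x)) (fun x => W (pY x)) τ (sa W) (sb W)
  have n1 := sT_nonneg h σ
  have n2 := sT_nonneg h τ
  have a1 := sT_le_a h σ
  have a2 := sT_le_a h τ
  have b1 := sT_le_b h σ
  have b2 := sT_le_b h τ
  change _ ≤ sa W * sa W at hP
  change _ ≤ sb W * sb W at hQ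
  change 2 * sa W * sb W * sT σ W ≤ _ at d1
  change 2 * sa W * sb W * sT τ W ≤ _ at d2
  have k1 := Kfact _ _ _ _ _ ha hb hP0 hQ0 hP hQ n1 a1 b1 d1
  have k2 := Kfact _ _ _ _ _ ha hb hP0 hQ0 hP hQ n2 a2 b2 d2
  unfold sA1 sA2
  constructor <;> linarith

theorem Base.swapXY {a b A1 A2 T1 T2 : ℤ} (B : Base a b A1 A2 T1 T2) : Base b a A2 A1 T1 T2 := by
  obtain ⟨h1, h2, h3, h4, h5, h6, h7, h8, h9, h10, h11, h12, h13, h14, h15, h16, h17, h18, h19⟩ := B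
  constructor <;> linarith

theorem Base.swapT' {a b A1 A2 T1 T2 : ℤ} (B : Base a b A1 A2 T1 T2) : Base a b A1 A2 T2 T1 := by
  obtain ⟨h1, h2, h3, h4, h5, h6, h7, h8, h9, h10, h11, h12, h13, h14, h15, h16, h17, h18, h19⟩ := B
  constructor <;> linarith

theorem Base.drop {a b A1 A2 T1 T2 : ℤ} (B : Base a b A1 A2 T1 T2) : Base a b A1 A2 T1 0 := by
  obtain ⟨h1, h2, h3, h4, h5, h6, h7, h8, h9, h10, h11, h12, h13, h14, h15, h16, h17, h18, h19⟩ := B
  have e1 := mul_nonneg (mul_nonneg h6 h1) h2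
  have e2 := mul_nonneg h6 h1
  have e3 := mul_nonneg h6 h2
  constructor <;> linarith

theorem Base.loc0 {a b A1 A2 T1 T2 : ℤ} (B : Base a b A1 A2 T1 T2) : LocX a b A1 A2 0 0 := by
  obtain ⟨h1, h2, h3, h4, h5, h6, h7, h8, h9, h10, h11, h12, h13, h14, h15, h16, h17, h18, h19⟩ := B
  have e1 := mul_nonneg (mul_nonneg h6 h1) h2
  have e2 := mul_nonneg h1 h2
  constructor <;> linarith

theorem Pair.symm {y1 y2 b A : ℤ} (h : Pair y1 y2 b A) : Pair y2 y1 b A := by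
  obtain ⟨h1, h2, h3, h4, h5, h6, h7, h8, h9⟩ := h
  constructor <;> linarith

theorem Pair.drop {y1 y2 b A : ℤ} (h : Pair y1 y2 b A) : Pair y1 0 b A := by
  obtain ⟨h1, h2, h3, h4, h5, h6, h7, h8, h9⟩ := h
  have e1 := mul_nonneg h4 h7
  constructor <;> linarith

theorem pair_Y {W : Pt V → ℤ} (h : Box W) {σ τ : Equiv.Perm V} (hστ : ∀ x, σ x ≠ τ x)
    {y1 y2 : V} (hy : y1 ≠ y2) : Pair (W (pY y1)) (W (pY y2)) (sb W) (sA2 W) := by
  have B := base_of ((h.zero (pY y1)).zero (pY y2)) hστ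
  simp only [sb_Y, sA2_Y, ins_YY, if_neg hy.symm, add_zero] at B
  have e1 := B.h_b
  have e2 := B.h_A2
  have e3 := B.hQb
  refine ⟨h.y0 _, ?_, ?_, h.y0 _, ?_, ?_, by linarith, by linarith, by linarith⟩
  · rcases h.y y1 with e | e | e <;> rw [e] <;> norm_num
  · rcases h.y y1 with e | e | e <;> rw [e] <;> norm_num
  · rcases h.y y2 with e | e | e <;> rw [e] <;> norm_num
  · rcases h.y y2 with e | e | e <;> rw [e] <;> norm_num

theorem pair_X {W : Pt V → ℤ} (h : Box W) {σ τ : Equiv.Perm V} (hστ : ∀ x, σ x ≠ τ x)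
    {y1 y2 : V} (hy : y1 ≠ y2) : Pair (W (pX y1)) (W (pX y2)) (sa W) (sA1 W) := by
  have B := base_of ((h.zero (pX y1)).zero (pX y2)) hστ
  simp only [sa_X, sA1_X, ins_XX, if_neg hy.symm, add_zero] at B
  have e1 := B.h_a
  have e2 := B.h_A1
  have e3 := B.hPa
  refine ⟨h.x0 _, ?_, ?_, h.x0 _, ?_, ?_, by linarith, by linarith, by linarith⟩
  · rcases h.x y1 with e | e | e <;> rw [e] <;> norm_num
  · rcases h.x y1 with e | e | e <;> rw [e] <;> norm_num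
  · rcases h.x y2 with e | e | e <;> rw [e] <;> norm_num
  · rcases h.x y2 with e | e | e <;> rw [e] <;> norm_num

theorem loc_X {W : Pt V → ℤ} (h : Box W) {σ τ : Equiv.Perm V} (hστ : ∀ x, σ x ≠ τ x)
    {x : V} (hx : W (pX x) = 0) :
    LocX (sa W) (sb W) (sA1 W) (sA2 W) (sT σ W) (W (pY (σ x))) := by
  have B := base_of (h.zero (pY (σ x))) hστ
  have e0 := B.h_T2
  have e1 := B.hT
  have e2 := B.h1b
  have e3 := B.hD1
  generalize sT τ (ins W (pY (σ x)) (-W (pY (σ x)))) = T at e0 e1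
  simp only [sb_Y, sA2_Y, sa_Y, sA1_Y, sT_Y, Equiv.symm_apply_apply, hx, mul_zero, add_zero]
    at e1 e2 e3
  constructor <;> linarith

theorem loc_Y {W : Pt V → ℤ} (h : Box W) {σ τ : Equiv.Perm V} (hστ : ∀ x, σ x ≠ τ x)
    {y : V} (hy : W (pY y) = 0) :
    LocX (sb W) (sa W) (sA2 W) (sA1 W) (sT σ W) (W (pX (σ.symm y))) := by
  have B := base_of (h.zero (pX (σ.symm y))) hστ
  have e0 := B.h_T2
  have e1 := B.hT
  have e2 := B.h1a
  have e3 := B.hD1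
  generalize sT τ (ins W (pX (σ.symm y)) (-W (pX (σ.symm y)))) = T at e0 e1
  simp only [sb_X, sA2_X, sa_X, sA1_X, sT_X, Equiv.apply_symm_apply, hy, mul_zero, add_zero]
    at e1 e2 e3
  constructor <;> linarith

lemma symm_ne {σ τ : Equiv.Perm V} (hστ : ∀ x, σ x ≠ τ x) (y : V) : σ.symm y ≠ τ.symm y := by
  intro e
  apply hστ (σ.symm y)
  rw [Equiv.apply_symm_apply, e, Equiv.apply_symm_apply]

/-- the total variation around the cycles -/
def Om (σ τ : Equiv.Perm V) (W : Pt V → ℤ) : ℤ :=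
  ∑ x, ((W (pX x) - W (pY (σ x))) ^ 2 + (W (pX x) - W (pY (τ x))) ^ 2)

lemma Om_eq (σ τ : Equiv.Perm V) (W : Pt V → ℤ) : Om σ τ W =
    2 * (sa W * sa W - sA1 W) + 2 * (sb W * sb W - sA2 W) - 2 * sT σ W - 2 * sT τ W := by
  have e1 := Equiv.sum_comp σ (fun x => W (pY x) * W (pY x))
  have e2 := Equiv.sum_comp τ (fun x => W (pY x) * W (pY x))
  have : Om σ τ W = 2 * ∑ x, W (pX x) * W (pX x) + ∑ x, W (pY (σ x)) * W (pY (σ x))
      + ∑ x, W (pY (τ x)) * W (pY (τ x)) - 2 * sT σ W - 2 * sT τ W := by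
    unfold Om sT
    simp only [mul_sum, ← sum_add_distrib, ← sum_sub_distrib]
    exact sum_congr rfl fun x _ => by ring
  rw [this, e1, e2]; unfold sA1 sA2; ring

lemma Om_ge (σ τ : Equiv.Perm V) (W : Pt V → ℤ) (ε : ℤ) (hε : ε = 1 ∨ ε = -1) :
    2 * ε * (sa W - sb W) ≤ Om σ τ W := by
  have e1 := Equiv.sum_comp σ (fun x => W (pY x))
  have e2 := Equiv.sum_comp τ (fun x => W (pY x))
  have : 2 * ε * (sa W - sb W) =
      ∑ x, (ε * (W (pX x) - W (pY (σ x))) + ε * (W (pX x) - W (pY (τ x)))) := by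
    simp only [sum_add_distrib, ← mul_sum, sum_sub_distrib, e1, e2]
    unfold sa sb; ring
  rw [this]
  refine sum_le_sum fun x _ => add_le_add ?_ ?_
  · generalize W (pX x) - W (pY (σ x)) = d
    rcases hε with rfl | rfl <;> nlinarith [Int.le_self_sq d, Int.le_self_sq (-d)]
  · generalize W (pX x) - W (pY (τ x)) = d
    rcases hε with rfl | rfl <;> nlinarith [Int.le_self_sq d, Int.le_self_sq (-d)]

end Pool.Agent.H34.BM
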