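import Pool.Agent.H34.BM1

set_option autoImplicit false
set_option linter.unusedVariables false
set_option linter.unusedSectionVars false

namespace Pool.Agent.H34.BM
open Finset

variable {V : Type} [Fintype V] [DecidableEq V]

def DD (G : (Pt V → ℤ) → ℤ) (W : Pt V → ℤ) (p q : Pt V) : ℤ :=
  G (ins W p 1) * G (ins W q 1) - G W * G (ins (ins W p 1) q 1)

def Psi (σ τ : Equiv.Perm V) (g : Pt V) (W : Pt V → ℤ) : ℤ := Phi σ τ (ins W g 1) - Phi σ τ W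

def Aff (G : (Pt V → ℤ) → ℤ) : Prop :=
  ∀ W p s, G (ins W p s) = G W + s * (G (ins W p 1) - G W)

lemma ins_comm (W : Pt V → ℤ) (p q : Pt V) (s r : ℤ) :
    ins (ins W p s) q r = ins (ins W q r) p s := by
  funext x; unfold ins; ring
lemma ins_ins (W : Pt V → ℤ) (p : Pt V) (s r : ℤ) : ins (ins W p s) p r = ins W p (s + r) := by
  funext x; unfold ins; split_ifs <;> ring
lemma ins_0 (W : Pt V → ℤ) (p : Pt V) : ins W p 0 = W := by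
  funext x; unfold ins; simp

lemma aff_Phi (σ τ : Equiv.Perm V) : Aff (Phi σ τ) := by
  intro W p s
  rcases pt_cases p with ⟨k, rfl⟩ | ⟨x, rfl⟩ | ⟨x, rfl⟩
  · simp only [Phi, ins_SS, sa_S, sb_S, sA1_S, sA2_S, sT_S]
    fin_cases k <;> simp [F2] <;> ring
  · simp only [Phi, ins_XS, sa_X, sb_X, sA1_X, sA2_X, sT_X, F2]; ring
  · simp only [Phi, ins_YS, sa_Y, sb_Y, sA1_Y, sA2_Y, sT_Y, F2]; ring

lemma aff_Psi (σ τ : Equiv.Perm V) (g : Pt V) : Aff (Psi σ τ g) := by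
  intro W p s
  unfold Psi
  rw [ins_comm W p g s, ins_comm W p g 1, aff_Phi σ τ (ins W g 1) p s, aff_Phi σ τ W p s]; ring

lemma Psi_g (σ τ : Equiv.Perm V) (g : Pt V) (W : Pt V → ℤ) (s : ℤ) :
    Psi σ τ g (ins W g s) = Psi σ τ g W := by
  unfold Psi
  rw [ins_ins, aff_Phi σ τ W g (s + 1), aff_Phi σ τ W g s]; ring

lemma DD_symm (G : (Pt V → ℤ) → ℤ) (W : Pt V → ℤ) (p q : Pt V) : DD G W p q = DD G W q p := by
  unfold DD; rw [ins_comm W p q]; ring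

lemma DD_ins {G : (Pt V → ℤ) → ℤ} (hG : Aff G) (W : Pt V → ℤ) (p q : Pt V) (s : ℤ) :
    DD G (ins W p s) p q = DD G W p q := by
  unfold DD
  rw [ins_ins, ins_comm W p q s, ins_comm W p q (s + 1), ins_comm W p q 1, hG W p (s + 1),
    hG W p s, hG (ins W q 1) p (s + 1), hG (ins W q 1) p s]; ring

lemma DD_self {G : (Pt V → ℤ) → ℤ} (hG : Aff G) (W : Pt V → ℤ) (p : Pt V) : 0 ≤ DD G W p p := by
  unfold DD
  rw [ins_ins, hG W p (1 + 1)]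
  nlinarith [mul_self_nonneg (G (ins W p 1) - G W)]

lemma DD_Psi_g (σ τ : Equiv.Perm V) (g : Pt V) (W : Pt V → ℤ) (p q : Pt V) (s : ℤ) :
    DD (Psi σ τ g) (ins W g s) p q = DD (Psi σ τ g) W p q := by
  unfold DD
  rw [ins_comm W g p, ins_comm W g q, ins_comm (ins W p 1) g q, Psi_g, Psi_g, Psi_g, Psi_g]

lemma DD_Psi_gp (σ τ : Equiv.Perm V) (g : Pt V) (W : Pt V → ℤ) (q : Pt V) :
    DD (Psi σ τ g) W g q = 0 := by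
  unfold DD
  rw [ins_comm W g q, Psi_g, Psi_g]; ring

lemma hsym (ρ : Equiv.Perm V) (x y : V) : (ρ.symm y = x) = (ρ x = y) := by
  rw [Equiv.symm_apply_eq]; exact propext eq_comm

lemma hdy (a1 a2 : Prop) [Decidable a1] [Decidable a2] (v1 v2 : ℤ) (h12 : a1 → a2 → False)
    (h1 : a1 → v1 = 0) (h2 : a2 → v2 = 0) :
    ((if a1 then (1:ℤ) else 0) = 0 ∧ (if a2 then (1:ℤ) else 0) = 0) ∨
    ((if a1 then (1:ℤ) else 0) = 1 ∧ (if a2 then (1:ℤ) else 0) = 0 ∧ v1 = 0) ∨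
    ((if a1 then (1:ℤ) else 0) = 0 ∧ (if a2 then (1:ℤ) else 0) = 1 ∧ v2 = 0) := by
  by_cases e1 : a1 <;> by_cases e2 : a2 <;> simp_all

lemma hdxy (a1 a2 : Prop) [Decidable a1] [Decidable a2] (r1 r2 v1 v2 : ℤ) (h12 : a1 → a2 → False)
    (h1 : a1 → v1 = 0) (h2 : a2 → v2 = 0) (h3 : a1 → r1 = 0) (h4 : a2 → r2 = 0) :
    ((if a1 then (1:ℤ) else 0) = 0 ∧ (if a2 then (1:ℤ) else 0) = 0) ∨
    ((if a1 then (1:ℤ) else 0) = 1 ∧ (if a2 then (1:ℤ) else 0) = 0 ∧ r1 = 0 ∧ v1 = 0) ∨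
    ((if a1 then (1:ℤ) else 0) = 0 ∧ (if a2 then (1:ℤ) else 0) = 1 ∧ r2 = 0 ∧ v2 = 0) := by
  by_cases e1 : a1 <;> by_cases e2 : a2 <;> simp_all

lemma hdxy0 (a1 : Prop) [Decidable a1] (r1 v1 : ℤ) (h1 : a1 → v1 = 0) (h3 : a1 → r1 = 0) :
    ((if a1 then (1:ℤ) else 0) = 0 ∧ (0:ℤ) = 0) ∨
    ((if a1 then (1:ℤ) else 0) = 1 ∧ (0:ℤ) = 0 ∧ r1 = 0 ∧ v1 = 0) ∨
    ((if a1 then (1:ℤ) else 0) = 0 ∧ (0:ℤ) = 1 ∧ (0:ℤ) = 0 ∧ (0:ℤ) = 0) := by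
  by_cases e1 : a1 <;> simp_all

lemma hdyy (a1 a2 b1 b2 : Prop) [Decidable a1] [Decidable a2] [Decidable b1] [Decidable b2]
    (v1 v2 : ℤ) (h12 : a1 → a2 → False) (h12' : b1 → b2 → False) (h11 : a1 → b1 → False)
    (h22 : a2 → b2 → False)
    (h1 : a1 → v1 = 0) (h2 : a2 → v2 = 0) (h3 : b1 → v1 = 0) (h4 : b2 → v2 = 0) :
    ((if a1 then (1:ℤ) else 0) = 0 ∧ (if a2 then (1:ℤ) else 0) = 0 ∧
      (if b1 then (1:ℤ) else 0) = 0 ∧ (if b2 then (1:ℤ) else 0) = 0) ∨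
    ((if a1 then (1:ℤ) else 0) = 0 ∧ (if a2 then (1:ℤ) else 0) = 0 ∧
      (if b1 then (1:ℤ) else 0) = 1 ∧ (if b2 then (1:ℤ) else 0) = 0 ∧ v1 = 0) ∨
    ((if a1 then (1:ℤ) else 0) = 0 ∧ (if a2 then (1:ℤ) else 0) = 0 ∧
      (if b1 then (1:ℤ) else 0) = 0 ∧ (if b2 then (1:ℤ) else 0) = 1 ∧ v2 = 0) ∨
    ((if a1 then (1:ℤ) else 0) = 1 ∧ (if a2 then (1:ℤ) else 0) = 0 ∧
      (if b1 then (1:ℤ) else 0) = 0 ∧ (if b2 then (1:ℤ) else 0) = 0 ∧ v1 = 0) ∨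
    ((if a1 then (1:ℤ) else 0) = 1 ∧ (if a2 then (1:ℤ) else 0) = 0 ∧
      (if b1 then (1:ℤ) else 0) = 0 ∧ (if b2 then (1:ℤ) else 0) = 1 ∧ v1 = 0 ∧ v2 = 0) ∨
    ((if a1 then (1:ℤ) else 0) = 0 ∧ (if a2 then (1:ℤ) else 0) = 1 ∧
      (if b1 then (1:ℤ) else 0) = 0 ∧ (if b2 then (1:ℤ) else 0) = 0 ∧ v2 = 0) ∨
    ((if a1 then (1:ℤ) else 0) = 0 ∧ (if a2 then (1:ℤ) else 0) = 1 ∧
      (if b1 then (1:ℤ) else 0) = 1 ∧ (if b2 then (1:ℤ) else 0) = 0 ∧ v1 = 0 ∧ v2 = 0) := by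
  by_cases e1 : a1 <;> by_cases e2 : a2 <;> by_cases e3 : b1 <;> by_cases e4 : b2 <;> simp_all

lemma Box.s0 {W : Pt V → ℤ} (h : Box W) (k : Fin 4) : 0 ≤ W (pS k) := by
  rcases h.s k with e | e <;> omega

end Pool.Agent.H34.BM
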