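import Pool.Agent.H34.BM2

set_option autoImplicit false
set_option linter.unusedVariables false
set_option linter.unusedSectionVars false

namespace Pool.Agent.H34.BM
open Finset

abbrev El (V : Type) := Fin 4 ⊕ (V × Bool) ⊕ (V × Bool)

variable {V : Type} [Fintype V] [DecidableEq V]

def tau (K : Finset (Fin 4)) : ℕ := if (0 : Fin 4) ∈ K then 1 else 0

def gen (K : Finset (Fin 4)) (i j : ℕ) : Prop :=
  #K + i + j = 4 ∧ i + tau K ≤ 2 ∧ j + tau K ≤ 2 ∧ i + j + tau K ≤ 3

instance (K : Finset (Fin 4)) (i j : ℕ) : Decidable (gen K i j) := by unfold gen; infer_instance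

def inj (X : Finset (V × Bool)) : Prop := ∀ a ∈ X, ∀ b ∈ X, a.1 = b.1 → a = b

instance (X : Finset (V × Bool)) : Decidable (inj X) := by unfold inj; infer_instance

def mat (ρ : Equiv.Perm V) (X Y : Finset (V × Bool)) : Prop := ∃ x ∈ X, ∃ y ∈ Y, ρ x.1 = y.1

instance (ρ : Equiv.Perm V) (X Y : Finset (V × Bool)) : Decidable (mat ρ X Y) := by
  unfold mat; infer_instance

def bas3 (σ τ : Equiv.Perm V) (K : Finset (Fin 4)) (X Y : Finset (V × Bool)) : Prop :=
  gen K #X #Y ∧ inj X ∧ inj Y ∧ ¬ (K = {1, 2} ∧ mat σ X Y) ∧ ¬ (K = {1, 3} ∧ mat τ X Y)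

instance (σ τ : Equiv.Perm V) (K : Finset (Fin 4)) (X Y : Finset (V × Bool)) :
    Decidable (bas3 σ τ K X Y) := by unfold bas3; infer_instance

def bas (σ τ : Equiv.Perm V) (B : Finset (El V)) : Prop :=
  bas3 σ τ B.toLeft B.toRight.toLeft B.toRight.toRight

instance (σ τ : Equiv.Perm V) (B : Finset (El V)) : Decidable (bas σ τ B) := by
  unfold bas; infer_instance

def pt : El V → Pt V := Sum.map id (Sum.map Prod.fst Prod.fst)

def wt (S : Finset (El V)) (p : Pt V) : ℤ := ∑ e ∈ S, if p = pt e then 1 else 0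

lemma wt_insert (S : Finset (El V)) (e : El V) (he : e ∉ S) :
    wt (insert e S) = ins (wt S) (pt e) 1 := by
  funext p; unfold wt ins; rw [sum_insert he]; ring

lemma sum_El (S : Finset (El V)) (h : El V → ℤ) :
    ∑ e ∈ S, h e = ∑ k ∈ S.toLeft, h (.inl k) + (∑ x ∈ S.toRight.toLeft, h (.inr (.inl x))
      + ∑ y ∈ S.toRight.toRight, h (.inr (.inr y))) := by
  conv_lhs => rw [← toLeft_disjSum_toRight (u := S), ← toLeft_disjSum_toRight (u := S.toRight)]
  rw [sum_disjSum, sum_disjSum]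

lemma wt_S (S : Finset (El V)) (k : Fin 4) : wt S (pS k) = if k ∈ S.toLeft then 1 else 0 := by
  unfold wt; rw [sum_El]; simp [pt, pS]
lemma wt_X (S : Finset (El V)) (v : V) :
    wt S (pX v) = ∑ x ∈ S.toRight.toLeft, if v = x.1 then 1 else 0 := by
  unfold wt; rw [sum_El]; simp only [pt, pX, Sum.map_inl, Sum.map_inr, reduceCtorEq, if_false,
    sum_const_zero, Sum.inr.injEq, Sum.inl.injEq, zero_add, add_zero]
lemma wt_Y (S : Finset (El V)) (v : V) :
    wt S (pY v) = ∑ x ∈ S.toRight.toRight, if v = x.1 then 1 else 0 := by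
  unfold wt; rw [sum_El]; simp only [pt, pY, Sum.map_inl, Sum.map_inr, reduceCtorEq, if_false,
    sum_const_zero, Sum.inr.injEq, Sum.inl.injEq, zero_add, add_zero]

lemma fib_box (X : Finset (V × Bool)) (v : V) :
    (∑ x ∈ X, if v = x.1 then (1:ℤ) else 0) = 0 ∨ (∑ x ∈ X, if v = x.1 then (1:ℤ) else 0) = 1 ∨
      (∑ x ∈ X, if v = x.1 then (1:ℤ) else 0) = 2 := by
  rw [sum_boole]
  have : #(X.filter fun x => v = x.1) ≤ 2 := by
    calc _ ≤ #({(v, true), (v, false)} : Finset (V × Bool)) := by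
          refine card_le_card fun x hx => ?_
          rcases x with ⟨x, b⟩
          have := (mem_filter.1 hx).2
          cases b <;> simp_all
      _ ≤ 2 := card_le_two
  omega

lemma box_wt (S : Finset (El V)) : Box (wt S) := by
  refine ⟨fun k => ?_, fun v => ?_, fun v => ?_⟩
  · rw [wt_S]; split_ifs <;> simp
  · rw [wt_X]; exact fib_box _ _
  · rw [wt_Y]; exact fib_box _ _

lemma fib_sum (X : Finset (V × Bool)) :
    ∑ v, (∑ x ∈ X, if v = x.1 then (1:ℤ) else 0) = #X := by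
  rw [sum_comm]; simp

lemma fib_mul (ρ : V → V) (X Y : Finset (V × Bool)) :
    ∑ v, (∑ x ∈ X, if v = x.1 then (1:ℤ) else 0) * (∑ y ∈ Y, if ρ v = y.1 then (1:ℤ) else 0)
      = ∑ x ∈ X, ∑ y ∈ Y, if ρ x.1 = y.1 then (1:ℤ) else 0 := by
  simp only [sum_mul]
  rw [sum_comm]
  refine sum_congr rfl fun x _ => ?_
  simp only [ite_mul, one_mul, zero_mul, sum_ite_eq', mem_univ, if_true]

def cA (X : Finset (V × Bool)) : ℤ :=
  (#X : ℤ) * #X - ∑ x ∈ X, ∑ y ∈ X, if x.1 = y.1 then (1:ℤ) else 0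

def cT (ρ : Equiv.Perm V) (X Y : Finset (V × Bool)) : ℤ :=
  ∑ x ∈ X, ∑ y ∈ Y, if ρ x.1 = y.1 then (1:ℤ) else 0

lemma Phi_wt (σ τ : Equiv.Perm V) (S : Finset (El V)) : Phi σ τ (wt S) =
    F2 (if 0 ∈ S.toLeft then 1 else 0) (if 1 ∈ S.toLeft then 1 else 0)
      (if 2 ∈ S.toLeft then 1 else 0) (if 3 ∈ S.toLeft then 1 else 0)
      #S.toRight.toLeft #S.toRight.toRight (cA S.toRight.toLeft) (cA S.toRight.toRight)
      (cT σ S.toRight.toLeft S.toRight.toRight) (cT τ S.toRight.toLeft S.toRight.toRight) := by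
  have e1 := fib_mul (fun v => v) S.toRight.toLeft S.toRight.toLeft
  have e2 := fib_mul (fun v => v) S.toRight.toRight S.toRight.toRight
  have e3 := fib_mul σ S.toRight.toLeft S.toRight.toRight
  have e4 := fib_mul τ S.toRight.toLeft S.toRight.toRight
  simp only [Phi, sA1, sA2, sa, sb, sT, wt_S, wt_X, wt_Y, fib_sum, cA, cT]
  rw [e1, e2, e3, e4]

lemma inj_insert (X : Finset (V × Bool)) (e : V × Bool) (he : e ∉ X) :
    inj (insert e X) ↔ inj X ∧ ∀ x ∈ X, x.1 ≠ e.1 := by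
  unfold inj
  simp only [mem_insert, forall_eq_or_imp]
  constructor
  · rintro ⟨⟨-, h1⟩, h2⟩
    exact ⟨fun a ha b hb => (h2 a ha).2 b hb, fun x hx h => he ((h2 x hx).1 h ▸ hx)⟩
  · rintro ⟨h1, h2⟩
    exact ⟨⟨fun _ => trivial, fun a ha h => absurd h.symm (h2 a ha)⟩,
      fun a ha => ⟨fun h => absurd h (h2 a ha), h1 a ha⟩⟩

lemma sum_inj (n : ℕ) : ∀ (S : Finset (V × Bool)) (φ : ℕ → ℤ), #S ≤ n → (∀ i, 3 ≤ i → φ i = 0) →
    2 * ∑ X ∈ S.powerset, (if inj X then φ #X else 0) = 2 * φ 0 + 2 * φ 1 * #S + φ 2 * cA S := by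
  induction n with
  | zero =>
    intro S φ hS _
    obtain rfl : S = ∅ := card_eq_zero.1 (by omega)
    simp [inj, cA]
  | succ n ih =>
    intro S φ hS hφ
    rcases S.eq_empty_or_nonempty with rfl | ⟨e, he⟩
    · simp [inj, cA]
    obtain ⟨R, heR, rfl⟩ : ∃ R, e ∉ R ∧ S = insert e R :=
      ⟨S.erase e, notMem_erase _ _, (insert_erase he).symm⟩
    rw [card_insert_of_notMem heR] at hS
    have i1 := ih R φ (by omega) hφ
    have i2 := ih (R.filter fun x => x.1 ≠ e.1) (fun i => φ (i + 1))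
      ((card_filter_le _ _).trans (by omega)) (fun i hi => hφ _ (by omega))
    have e1 : ∑ X ∈ R.powerset, (if inj (insert e X) then φ #(insert e X) else 0) =
        ∑ X ∈ (R.filter fun x => x.1 ≠ e.1).powerset, (if inj X then φ (#X + 1) else 0) := by
      have hf : (R.filter fun x => x.1 ≠ e.1).powerset
          = R.powerset.filter fun X => ∀ x ∈ X, x.1 ≠ e.1 := by
        ext X; simp only [mem_powerset, mem_filter, subset_iff]
        exact ⟨fun h => ⟨fun x hx => (h hx).1, fun x hx => (h hx).2⟩,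
          fun h x hx => ⟨h.1 hx, h.2 x hx⟩⟩
      rw [hf, sum_filter]
      refine sum_congr rfl fun X hX => ?_
      have heX : e ∉ X := fun h => heR (mem_powerset.1 hX h)
      rw [card_insert_of_notMem heX]
      by_cases h1 : inj X <;> by_cases h2 : ∀ x ∈ X, x.1 ≠ e.1
      · rw [if_pos ((inj_insert X e heX).2 ⟨h1, h2⟩), if_pos h2, if_pos h1]
      · rw [if_neg fun h => h2 ((inj_insert X e heX).1 h).2, if_neg h2]
      · rw [if_neg fun h => h1 ((inj_insert X e heX).1 h).1, if_pos h2, if_neg h1]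
      · rw [if_neg fun h => h1 ((inj_insert X e heX).1 h).1, if_neg h2]
    have e2 : cA (insert e R) = cA R + 2 * #(R.filter fun x => x.1 ≠ e.1) := by
      have c1 : (#(R.filter fun x => x.1 ≠ e.1) : ℤ) = #R - ∑ x ∈ R, if x.1 = e.1 then 1 else 0 := by
        rw [sum_boole]
        have := card_filter_add_card_filter_not (s := R) (fun x => x.1 = e.1)
        simp only [ne_eq]; omega
      have c2 : (∑ x ∈ R, if e.1 = x.1 then (1:ℤ) else 0) = ∑ x ∈ R, if x.1 = e.1 then 1 else 0 :=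
        sum_congr rfl fun x _ => by simp only [eq_comm]
      unfold cA
      rw [c1, sum_insert heR, sum_insert heR, card_insert_of_notMem heR, c2]
      simp only [sum_insert heR, sum_add_distrib, if_true]
      push_cast; ring
    rw [sum_powerset_insert heR, e1, e2, card_insert_of_notMem heR]
    have := hφ 3 le_rfl
    simp only [this] at i2
    push_cast; linarith

lemma sum_pow_sum {α β : Type} [DecidableEq α] [DecidableEq β] (S : Finset (α ⊕ β))
    (h : Finset α → Finset β → ℤ) :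
    ∑ B ∈ S.powerset, h B.toLeft B.toRight =
      ∑ K ∈ S.toLeft.powerset, ∑ R ∈ S.toRight.powerset, h K R := by
  rw [← sum_product']
  refine sum_nbij' (fun B => (B.toLeft, B.toRight)) (fun P => P.1.disjSum P.2) ?_ ?_ ?_ ?_ ?_
  · intro B hB
    simp only [mem_product, mem_powerset] at hB ⊢
    exact ⟨toLeft_subset_toLeft hB, toRight_subset_toRight hB⟩
  · intro P hP
    simp only [mem_product, mem_powerset] at hP ⊢
    exact disjSum_subset.2 hP
  · intro B _; exact toLeft_disjSum_toRight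
  · intro P _; simp
  · intro B _; rfl

lemma sum_one {α : Type} [DecidableEq α] (S : Finset α) (h : Finset α → ℤ) :
    ∑ X ∈ S.powerset, (if #X = 1 then h X else 0) = ∑ x ∈ S, h {x} := by
  rw [← sum_filter, ← powersetCard_eq_filter, powersetCard_one, sum_map]; rfl

def cK (S0 : Finset (Fin 4)) (i j : ℕ) : ℤ := ∑ K ∈ S0.powerset, if gen K i j then 1 else 0

def ind (S0 : Finset (Fin 4)) (k : Fin 4) : ℤ := if k ∈ S0 then 1 else 0

lemma cK_big (S0 : Finset (Fin 4)) (i j : ℕ) (h : 3 ≤ i ∨ 3 ≤ j) : cK S0 i j = 0 :=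
  sum_eq_zero fun K _ => if_neg fun hg => by unfold gen at hg; omega

lemma cK_vals : ∀ S0 : Finset (Fin 4),
    cK S0 0 0 = ind S0 0 * (ind S0 1 * ind S0 2 * ind S0 3) ∧
    cK S0 1 0 = ind S0 0 * (ind S0 1 * ind S0 2 + ind S0 1 * ind S0 3 + ind S0 2 * ind S0 3)
      + ind S0 1 * ind S0 2 * ind S0 3 ∧
    cK S0 0 1 = ind S0 0 * (ind S0 1 * ind S0 2 + ind S0 1 * ind S0 3 + ind S0 2 * ind S0 3)
      + ind S0 1 * ind S0 2 * ind S0 3 ∧
    cK S0 1 1 = ind S0 0 * (ind S0 1 + ind S0 2 + ind S0 3)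
      + (ind S0 1 * ind S0 2 + ind S0 1 * ind S0 3 + ind S0 2 * ind S0 3) ∧
    cK S0 2 0 = ind S0 1 * ind S0 2 + ind S0 1 * ind S0 3 + ind S0 2 * ind S0 3 ∧
    cK S0 0 2 = ind S0 1 * ind S0 2 + ind S0 1 * ind S0 3 + ind S0 2 * ind S0 3 ∧
    cK S0 2 1 = ind S0 1 + ind S0 2 + ind S0 3 ∧
    cK S0 1 2 = ind S0 1 + ind S0 2 + ind S0 3 ∧ cK S0 2 2 = 0 ∧
    (∑ K ∈ S0.powerset, if K = {1, 2} then (1:ℤ) else 0) = ind S0 1 * ind S0 2 ∧
    (∑ K ∈ S0.powerset, if K = {1, 3} then (1:ℤ) else 0) = ind S0 1 * ind S0 3 := by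
  decide +kernel

def mm (ρ : Equiv.Perm V) (X Y : Finset (V × Bool)) : ℤ :=
  if #X = 1 then (if #Y = 1 then (if mat ρ X Y then 1 else 0) else 0) else 0

lemma inj_one {X : Finset (V × Bool)} (h : #X = 1) : inj X := by
  obtain ⟨x, rfl⟩ := card_eq_one.1 h
  simp [inj]

lemma mat_pos {ρ : Equiv.Perm V} {X Y : Finset (V × Bool)} (h : mat ρ X Y) : 1 ≤ #X ∧ 1 ≤ #Y := by
  obtain ⟨x, hx, y, hy, -⟩ := h
  exact ⟨card_pos.2 ⟨x, hx⟩, card_pos.2 ⟨y, hy⟩⟩

lemma bas3_ind (σ τ : Equiv.Perm V) (K : Finset (Fin 4)) (X Y : Finset (V × Bool)) :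
    (if bas3 σ τ K X Y then (1:ℤ) else 0) =
      (if inj X then (if inj Y then (if gen K #X #Y then 1 else 0) else 0) else 0)
        - (if K = {1, 2} then 1 else 0) * mm σ X Y - (if K = {1, 3} then 1 else 0) * mm τ X Y := by
  have g2 : ∀ i j, gen {1, 2} i j ↔ i + j = 2 := fun i j => by
    have : #({1, 2} : Finset (Fin 4)) = 2 := by decide
    have h2 : tau {1, 2} = 0 := by decide
    unfold gen; omega
  have g3 : ∀ i j, gen {1, 3} i j ↔ i + j = 2 := fun i j => by
    have : #({1, 3} : Finset (Fin 4)) = 2 := by decide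
    have h2 : tau {1, 3} = 0 := by decide
    unfold gen; omega
  have n23 : ({1, 2} : Finset (Fin 4)) ≠ {1, 3} := by decide
  have key : ∀ ρ : Equiv.Perm V, (if (#X + #Y = 2 ∧ inj X ∧ inj Y ∧ ¬ mat ρ X Y) then (1:ℤ) else 0)
      = (if inj X then (if inj Y then (if #X + #Y = 2 then 1 else 0) else 0) else 0) - mm ρ X Y := by
    intro ρ
    unfold mm
    by_cases hm : mat ρ X Y
    · have := mat_pos hm
      by_cases h1 : #X = 1 <;> by_cases h2 : #Y = 1
      · simp [hm, h1, h2, inj_one h1, inj_one h2]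
      · have : ¬ (#X + #Y = 2) := by omega
        simp [hm, h2, this]
      · have : ¬ (#X + #Y = 2) := by omega
        simp [hm, h1, this]
      · have : ¬ (#X + #Y = 2) := by omega
        simp [hm, h1, this]
    · by_cases h1 : inj X <;> by_cases h2 : inj Y <;> simp [hm, h1, h2]
  by_cases k2 : K = {1, 2}
  · subst k2
    have := key σ
    simp only [bas3, g2, n23, false_and, not_false_eq_true, and_true, true_and, if_true, if_false,
      one_mul, zero_mul, sub_zero]
    exact this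
  · by_cases k3 : K = {1, 3}
    · subst k3
      have := key τ
      simp only [bas3, g3, n23.symm, false_and, not_false_eq_true, and_true, true_and, if_true,
        if_false, one_mul, zero_mul, sub_zero]
      exact this
    · by_cases h1 : inj X <;> by_cases h2 : inj Y <;> simp [bas3, k2, k3, h1, h2]

lemma sum_mm (ρ : Equiv.Perm V) (S1 S2 : Finset (V × Bool)) :
    ∑ X ∈ S1.powerset, ∑ Y ∈ S2.powerset, mm ρ X Y = cT ρ S1 S2 := by
  have : ∀ X : Finset (V × Bool), ∑ Y ∈ S2.powerset, mm ρ X Y = if #X = 1 then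
      (∑ Y ∈ S2.powerset, if #Y = 1 then (if mat ρ X Y then (1:ℤ) else 0) else 0) else 0 := by
    intro X; unfold mm; split_ifs <;> simp
  simp only [this, sum_one]
  unfold cT
  refine sum_congr rfl fun x _ => sum_congr rfl fun y _ => ?_
  simp [mat]

def cnt (σ τ : Equiv.Perm V) (S : Finset (El V)) : ℤ :=
  ∑ B ∈ S.powerset, if bas σ τ B then 1 else 0

theorem cnt_eq (σ τ : Equiv.Perm V) (S : Finset (El V)) : 2 * cnt σ τ S = Phi σ τ (wt S) := by
  rw [Phi_wt]
  have e0 : cnt σ τ S = ∑ K ∈ S.toLeft.powerset, ∑ X ∈ S.toRight.toLeft.powerset,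
      ∑ Y ∈ S.toRight.toRight.powerset, if bas3 σ τ K X Y then (1:ℤ) else 0 := by
    unfold cnt bas
    rw [sum_pow_sum S fun K R => if bas3 σ τ K R.toLeft R.toRight then (1:ℤ) else 0]
    exact sum_congr rfl fun K _ =>
      sum_pow_sum S.toRight fun X Y => if bas3 σ τ K X Y then (1:ℤ) else 0
  generalize S.toLeft = S0 at e0 ⊢
  generalize S.toRight.toLeft = S1 at e0 ⊢
  generalize S.toRight.toRight = S2 at e0 ⊢
  have e1 : ∑ K ∈ S0.powerset, ∑ X ∈ S1.powerset, ∑ Y ∈ S2.powerset,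
      (if inj X then (if inj Y then (if gen K #X #Y then (1:ℤ) else 0) else 0) else 0) =
      ∑ X ∈ S1.powerset, if inj X then
        (∑ Y ∈ S2.powerset, if inj Y then cK S0 #X #Y else 0) else 0 := by
    rw [sum_comm]
    refine sum_congr rfl fun X _ => ?_
    rw [sum_comm]
    by_cases h1 : inj X
    · simp only [h1, if_true]
      refine sum_congr rfl fun Y _ => ?_
      by_cases h2 : inj Y
      · simp only [h2, if_true, cK]
      · simp only [h2, if_false, sum_const_zero]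
    · simp only [h1, if_false, sum_const_zero]
  have e2 := sum_inj _ S1 (fun i => ∑ Y ∈ S2.powerset, if inj Y then cK S0 i #Y else 0) le_rfl
    (fun i hi => sum_eq_zero fun Y _ => by rw [cK_big S0 i _ (Or.inl hi)]; simp)
  have e3 := fun i => sum_inj _ S2 (fun j => cK S0 i j) le_rfl
    (fun j hj => cK_big S0 i j (Or.inr hj))
  obtain ⟨k1, k2, k3, k4, k5, k6, k7, k8, k9, k10, k11⟩ := cK_vals S0
  have f0 := e3 0
  have f1 := e3 1
  have f2 := e3 2
  simp only [bas3_ind, sum_sub_distrib, ← mul_sum, sum_mm, ← sum_mul, e1, k10, k11] at e0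
  simp only [k1, k2, k3, k4, k5, k6, k7, k8, k9] at f0 f1 f2
  change 2 * cnt σ τ S = F2 (ind S0 0) (ind S0 1) (ind S0 2) (ind S0 3) _ _ _ _ _ _
  unfold F2
  have g1 := congrArg (fun t : ℤ => t * (#S1 : ℤ)) f1
  have g2 := congrArg (fun t : ℤ => t * cA S1) f2
  beta_reduce at g1 g2 e2
  linarith

end Pool.Agent.H34.BM
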