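import Pool.Agent.H34.BM5

set_option autoImplicit false
set_option linter.unusedVariables false
set_option linter.unusedSectionVars false

namespace Pool.Agent.H34.BM
open Finset

variable {V : Type} [Fintype V] [DecidableEq V]

def H1 (K : Finset (Fin 4)) (i j i2 : ℕ) : Prop :=
  gen K (i + 1) j → i2 ≤ i ∨ (i = 0 ∧ j = 1 ∧ (K = {1, 2} ∨ K = {1, 3}) ∧ i2 ≤ 1)
instance (K : Finset (Fin 4)) (i j i2 : ℕ) : Decidable (H1 K i j i2) := by
  unfold H1; infer_instance
def H2 (K : Finset (Fin 4)) (i j j2 : ℕ) : Prop :=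
  gen K i (j + 1) → j2 ≤ j ∨ (j = 0 ∧ i = 1 ∧ (K = {1, 2} ∨ K = {1, 3}) ∧ j2 ≤ 1)
instance (K : Finset (Fin 4)) (i j i2 : ℕ) : Decidable (H2 K i j i2) := by
  unfold H2; infer_instance
def H3 (K K2 : Finset (Fin 4)) (i j : ℕ) (ms mt : Bool) : Prop :=
  ∀ k ∈ K2, k ∈ K ∨ ¬ gen (insert k K) i j ∨ (insert k K = {1, 2} ∧ ms = true) ∨
      (insert k K = {1, 3} ∧ mt = true)
instance (K K2 : Finset (Fin 4)) (i j : ℕ) (ms mt : Bool) : Decidable (H3 K K2 i j ms mt) := by
  unfold H3; infer_instance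
def H4 (i j : ℕ) (ms mt : Bool) : Prop := (i = 1 → j = 1 → ms = true → mt = true → False) ∧
  (ms = true → 1 ≤ i ∧ 1 ≤ j) ∧ (mt = true → 1 ≤ i ∧ 1 ≤ j)
instance (i j : ℕ) (ms mt : Bool) : Decidable (H4 i j ms mt) := by
  unfold H4; infer_instance
def H5 (K K2 : Finset (Fin 4)) (i j i2 j2 : ℕ) (ms mt : Bool) : Prop :=
  i = 1 ∧ j = 1 ∧ i2 = 1 ∧ j2 = 1 ∧ gen K (i + 1) j ∧ gen K i (j + 1) ∧ #K = 1 ∧
        ((K2 = {1, 2} ∧ ms = true) ∨ (K2 = {1, 3} ∧ mt = true))
instance (K K2 : Finset (Fin 4)) (i j i2 j2 : ℕ) (ms mt : Bool) :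
    Decidable (H5 K K2 i j i2 j2 ms mt) := by unfold H5; infer_instance
def H6 (K K2 : Finset (Fin 4)) (i j i2 j2 : ℕ) : Prop :=
  i + j = 1 ∧ i2 = 1 ∧ j2 = 1 ∧ gen K (i + 1) j ∧ gen K i (j + 1) ∧ K2 = K ∧
        (K = {1, 2} ∨ K = {1, 3})
instance (K K2 : Finset (Fin 4)) (i j i2 j2 : ℕ) :
    Decidable (H6 K K2 i j i2 j2) := by unfold H6; infer_instance
def H8 (K K2 : Finset (Fin 4)) (i j i2 j2 : ℕ) (ms mt : Bool) : Prop :=
  H1 K i j i2 → H2 K i j j2 →
    H3 K K2 i j ms mt → H4 i j ms mt → H5 K K2 i j i2 j2 ms mt ∨ H6 K K2 i j i2 j2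
instance (K K2 : Finset (Fin 4)) (i j i2 j2 : ℕ) (ms mt : Bool) :
    Decidable (H8 K K2 i j i2 j2 ms mt) := by unfold H8; infer_instance
def H9 (K K2 : Finset (Fin 4)) (i j i2 j2 : ℕ) : Prop :=
  gen K2 i2 j2 → ∀ ms mt : Bool, H8 K K2 i j i2 j2 ms mt
instance (K K2 : Finset (Fin 4)) (i j i2 j2 : ℕ) :
    Decidable (H9 K K2 i j i2 j2) := by unfold H9; infer_instance
def H7 (K K2 : Finset (Fin 4)) (i j : ℕ) : Prop :=
  ∀ i2 < 3, ∀ j2 < 3, H9 K K2 i j i2 j2
instance (K K2 : Finset (Fin 4)) (i j : ℕ) : Decidable (H7 K K2 i j) := by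
  unfold H7; infer_instance

theorem fincheck : ∀ K K2 : Finset (Fin 4), ∀ i < 3, ∀ j < 3, #K + i + j = 3 → i + tau K ≤ 2 →
    j + tau K ≤ 2 → H7 K K2 i j := by
  decide +kernel

lemma card_le_of_pts {X X2 : Finset (V × Bool)} (h2 : inj X2)
    (h : ∀ x ∈ X2, ∃ x' ∈ X, x'.1 = x.1) : #X2 ≤ #X := by
  calc #X2 = #(X2.image Prod.fst) :=
        (card_image_of_injOn fun a ha b hb e => h2 a ha b hb e).symm
    _ ≤ #(X.image Prod.fst) := card_le_card fun v hv => by
        obtain ⟨x, hx, rfl⟩ := mem_image.1 hv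
        obtain ⟨x', hx', e⟩ := h x hx
        exact mem_image.2 ⟨x', hx', e⟩
    _ ≤ #X := card_image_le

lemma card_le_one_of {X2 : Finset (V × Bool)} (h2 : inj X2) (v : V) (h : ∀ x ∈ X2, x.1 = v) :
    #X2 ≤ 1 :=
  card_le_one.2 fun a ha b hb => h2 a ha b hb ((h a ha).trans (h b hb).symm)

theorem exch3 {σ τ : Equiv.Perm V} (hστ : ∀ x, σ x ≠ τ x) (K K2 : Finset (Fin 4))
    (X Y X2 Y2 : Finset (V × Bool)) (h3 : #K + #X + #Y = 3) (hi : #X + tau K ≤ 2)
    (hj : #Y + tau K ≤ 2) (iX : inj X) (iY : inj Y) (hB : bas3 σ τ K2 X2 Y2)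
    (hK : ∀ k ∈ K2, k ∉ K → ¬ bas3 σ τ (insert k K) X Y)
    (hX : ∀ x ∈ X2, x ∉ X → ¬ bas3 σ τ K (insert x X) Y)
    (hY : ∀ y ∈ Y2, y ∉ Y → ¬ bas3 σ τ K X (insert y Y)) : False := by
  obtain ⟨g2, iX2, iY2, s2, s3⟩ := hB
  have c2 : #({1, 2} : Finset (Fin 4)) = 2 := by decide
  have c3 : #({1, 3} : Finset (Fin 4)) = 2 := by decide
  have n23 : ({1, 2} : Finset (Fin 4)) ≠ {1, 3} := by decide
  have FX : gen K (#X + 1) #Y → ∀ x ∈ X2, (∃ x' ∈ X, x'.1 = x.1) ∨
      (K = {1, 2} ∧ mat σ (insert x X) Y) ∨ (K = {1, 3} ∧ mat τ (insert x X) Y) := by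
    intro g x hx
    by_contra hc
    simp only [not_or] at hc
    obtain ⟨a1, a2, a3⟩ := hc
    have hxX : x ∉ X := fun h => a1 ⟨x, h, rfl⟩
    exact hX x hx hxX ⟨by rwa [card_insert_of_notMem hxX],
      (inj_insert X x hxX).2 ⟨iX, fun y hy e => a1 ⟨y, hy, e⟩⟩, iY, a2, a3⟩
  have FY : gen K #X (#Y + 1) → ∀ x ∈ Y2, (∃ x' ∈ Y, x'.1 = x.1) ∨
      (K = {1, 2} ∧ mat σ X (insert x Y)) ∨ (K = {1, 3} ∧ mat τ X (insert x Y)) := by
    intro g x hx
    by_contra hc
    simp only [not_or] at hc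
    obtain ⟨a1, a2, a3⟩ := hc
    have hxX : x ∉ Y := fun h => a1 ⟨x, h, rfl⟩
    exact hY x hx hxX ⟨by rwa [card_insert_of_notMem hxX], iX,
      (inj_insert Y x hxX).2 ⟨iY, fun y hy e => a1 ⟨y, hy, e⟩⟩, a2, a3⟩
  have g2' := g2
  unfold gen at g2'
  have R := fincheck K K2 #X (by omega) #Y (by omega) h3 hi hj #X2 (by omega) #Y2 (by omega) g2
    (decide (mat σ X Y)) (decide (mat τ X Y)) ?_ ?_ ?_ ?_
  · simp only [H5, H6, decide_eq_true_eq] at R
    rcases R with ⟨e1, e2, e3, e4, ga, gb, k1, hm⟩ | ⟨e0, e3, e4, ga, gb, rfl, hm⟩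
    · obtain ⟨x, rfl⟩ := card_eq_one.1 e1
      obtain ⟨y, rfl⟩ := card_eq_one.1 e2
      obtain ⟨x2, rfl⟩ := card_eq_one.1 e3
      obtain ⟨y2, rfl⟩ := card_eq_one.1 e4
      have n2 : K ≠ {1, 2} := fun e => by rw [e] at k1; omega
      have n3 : K ≠ {1, 3} := fun e => by rw [e] at k1; omega
      have a := FX ga x2 (mem_singleton_self _)
      have b := FY gb y2 (mem_singleton_self _)
      simp only [n2, n3, false_and, or_false, mem_singleton, exists_eq_left] at a b
      simp only [mat, mem_singleton, exists_eq_left] at hm s2 s3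
      rw [a, b] at hm
      exact hm.elim s2 s3
    · obtain ⟨x2, rfl⟩ := card_eq_one.1 e3
      obtain ⟨y2, rfl⟩ := card_eq_one.1 e4
      have a := FX ga x2 (mem_singleton_self _)
      have b := FY gb y2 (mem_singleton_self _)
      have : (#X = 1 ∧ #Y = 0) ∨ (#X = 0 ∧ #Y = 1) := by omega
      rcases this with ⟨e1, e2⟩ | ⟨e1, e2⟩
      · obtain ⟨x, rfl⟩ := card_eq_one.1 e1
        obtain rfl := card_eq_zero.1 e2
        simp only [mat, mem_singleton, exists_eq_left, notMem_empty, false_and, exists_false,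
          and_false, or_false, false_or, insert_empty_eq] at a b s2 s3
        rw [a] at b
        exact b.elim s2 s3
      · obtain ⟨y, rfl⟩ := card_eq_one.1 e2
        obtain rfl := card_eq_zero.1 e1
        simp only [mat, mem_singleton, exists_eq_left, notMem_empty, false_and, exists_false,
          and_false, or_false, false_or, insert_empty_eq] at a b s2 s3
        rw [b] at a
        exact a.elim s2 s3
  · intro g
    by_cases hall : ∀ x ∈ X2, ∃ x' ∈ X, x'.1 = x.1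
    · exact Or.inl (card_le_of_pts iX2 hall)
    right
    simp only [not_forall] at hall
    obtain ⟨x0, hx0, hn⟩ := hall
    have hKs : (K = {1, 2} ∨ K = {1, 3}) ∧ 1 ≤ #Y := by
      rcases FX g x0 hx0 with h | h | h
      · exact absurd h hn
      · exact ⟨Or.inl h.1, (mat_pos h.2).2⟩
      · exact ⟨Or.inr h.1, (mat_pos h.2).2⟩
    have hk : #K = 2 := by rcases hKs.1 with e | e <;> rw [e] <;> assumption
    have e1 : #X = 0 := by omega
    have e2 : #Y = 1 := by omega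
    refine ⟨e1, e2, hKs.1, ?_⟩
    obtain ⟨y, rfl⟩ := card_eq_one.1 e2
    obtain rfl := card_eq_zero.1 e1
    have F := FX g
    simp only [mat, mem_singleton, exists_eq_left, notMem_empty, false_and, exists_false,
      false_or, insert_empty_eq] at F
    rcases hKs.1 with rfl | rfl
    · refine card_le_one_of iX2 (σ.symm y.1) fun x hx => ?_
      rcases F x hx with h | h
      · rw [← h.2, Equiv.symm_apply_apply]
      · exact absurd h.1 n23
    · refine card_le_one_of iX2 (τ.symm y.1) fun x hx => ?_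
      rcases F x hx with h | h
      · exact absurd h.1.symm n23
      · rw [← h.2, Equiv.symm_apply_apply]
  · intro g
    by_cases hall : ∀ x ∈ Y2, ∃ x' ∈ Y, x'.1 = x.1
    · exact Or.inl (card_le_of_pts iY2 hall)
    right
    simp only [not_forall] at hall
    obtain ⟨x0, hx0, hn⟩ := hall
    have hKs : (K = {1, 2} ∨ K = {1, 3}) ∧ 1 ≤ #X := by
      rcases FY g x0 hx0 with h | h | h
      · exact absurd h hn
      · exact ⟨Or.inl h.1, (mat_pos h.2).1⟩
      · exact ⟨Or.inr h.1, (mat_pos h.2).1⟩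
    have hk : #K = 2 := by rcases hKs.1 with e | e <;> rw [e] <;> assumption
    have e1 : #Y = 0 := by omega
    have e2 : #X = 1 := by omega
    refine ⟨e1, e2, hKs.1, ?_⟩
    obtain ⟨y, rfl⟩ := card_eq_one.1 e2
    obtain rfl := card_eq_zero.1 e1
    have F := FY g
    simp only [mat, mem_singleton, exists_eq_left, notMem_empty, false_and, exists_false,
      false_or, insert_empty_eq] at F
    rcases hKs.1 with rfl | rfl
    · refine card_le_one_of iY2 (σ y.1) fun x hx => ?_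
      rcases F x hx with h | h
      · exact h.2.symm
      · exact absurd h.1 n23
    · refine card_le_one_of iY2 (τ y.1) fun x hx => ?_
      rcases F x hx with h | h
      · exact absurd h.1.symm n23
      · exact h.2.symm
  · intro k hk
    by_contra hc
    simp only [not_or, not_not, decide_eq_true_eq] at hc
    obtain ⟨a1, a2, a3, a4⟩ := hc
    exact hK k hk a1 ⟨a2, iX, iY, a3, a4⟩
  · refine ⟨?_, fun h => mat_pos (of_decide_eq_true h), fun h => mat_pos (of_decide_eq_true h)⟩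
    intro e1 e2 m1 m2
    obtain ⟨x, rfl⟩ := card_eq_one.1 e1
    obtain ⟨y, rfl⟩ := card_eq_one.1 e2
    simp only [mat, mem_singleton, exists_eq_left, decide_eq_true_eq] at m1 m2
    exact hστ _ (m1.trans m2.symm)

lemma tau_mono {K K' : Finset (Fin 4)} (h : K ⊆ K') : tau K ≤ tau K' := by
  unfold tau; split_ifs with a b
  · rfl
  · exact absurd (h a) b
  · omega
  · rfl

lemma card_El (B : Finset (El V)) :
    #B = #B.toLeft + #B.toRight.toLeft + #B.toRight.toRight := by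
  have := card_toLeft_add_card_toRight (u := B)
  have := card_toLeft_add_card_toRight (u := B.toRight)
  omega

lemma bas_card {σ τ : Equiv.Perm V} {B : Finset (El V)} (h : bas σ τ B) : #B = 4 := by
  rw [card_El]; exact h.1.1

theorem exch {σ τ : Equiv.Perm V} (hστ : ∀ x, σ x ≠ τ x) {B1 B2 : Finset (El V)}
    (h1 : bas σ τ B1) (h2 : bas σ τ B2) {e : El V} (he : e ∈ B1) :
    ∃ f ∈ B2, f ∉ B1.erase e ∧ bas σ τ (insert f (B1.erase e)) := by
  by_contra hc
  simp only [not_exists, not_and] at hc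
  have hs : B1.erase e ⊆ B1 := erase_subset _ _
  have c1 := bas_card h1
  have c2 := card_erase_of_mem he
  have c3 := card_El (B1.erase e)
  generalize B1.erase e = I at hc hs c2 c3
  have sK := toLeft_subset_toLeft hs
  have sX := toLeft_subset_toLeft (toRight_subset_toRight hs)
  have sY := toRight_subset_toRight (toRight_subset_toRight hs)
  obtain ⟨⟨-, g1, g2, -⟩, iX, iY, -, -⟩ := h1
  have t1 := tau_mono sK
  have t2 := card_le_card sX
  have t3 := card_le_card sY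
  refine exch3 hστ I.toLeft B2.toLeft I.toRight.toLeft I.toRight.toRight _ _ (by omega) (by omega)
    (by omega) (fun a ha b hb => iX a (sX ha) b (sX hb)) (fun a ha b hb => iY a (sY ha) b (sY hb))
    h2 ?_ ?_ ?_
  · intro k hk hn hb
    refine hc (.inl k) (mem_toLeft.1 hk) (fun h => hn (mem_toLeft.2 h)) ?_
    unfold bas; rwa [toLeft_insert_inl, toRight_insert_inl]
  · intro k hk hn hb
    refine hc (.inr (.inl k)) (mem_toRight.1 (mem_toLeft.1 hk))
      (fun h => hn (mem_toLeft.2 (mem_toRight.2 h))) ?_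
    unfold bas; rwa [toLeft_insert_inr, toRight_insert_inr, toLeft_insert_inl, toRight_insert_inl]
  · intro k hk hn hb
    refine hc (.inr (.inr k)) (mem_toRight.1 (mem_toRight.1 hk))
      (fun h => hn (mem_toRight.2 (mem_toRight.2 h))) ?_
    unfold bas; rwa [toLeft_insert_inr, toRight_insert_inr, toLeft_insert_inr, toRight_insert_inr]

end Pool.Agent.H34.BM
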