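import Pool.Agent.H34.BN1

set_option autoImplicit false
set_option linter.unusedVariables false
set_option linter.unusedSimpArgs false

namespace Pool.Agent.H34.BM

theorem NR4tz (c w a b A1 A2 T1 T2 : ℤ) (Hc : c = 0 ∨ c = 1) (Hw : w = 0 ∨ w = 1) (B : Base a b A1 A2 T1 T2) :
    0 ≤ (((F2 1 c 0 w a b A1 A2 T1 T2) * (F2 0 c 1 w a b A1 A2 T1 T2)) - ((F2 0 c 0 w a b A1 A2 T1 T2) * (F2 1 c 1 w a b A1 A2 T1 T2))) := by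
  obtain ⟨μ, hμ, rfl, rfl, rfl, rfl, rfl, rfl, rfl, rfl, -, -, -, -, -, -, -, -, -, -, -, -⟩ := exmu c w a b A1 A2 T1 T2 0 0 0 0 0 0 0 0 0 0 0 0 (nn01 Hc) (nn01 Hw) B.h_a B.h_b B.h_A1 B.h_A2 B.h_T1 B.h_T2 le_rfl le_rfl le_rfl le_rfl le_rfl le_rfl le_rfl le_rfl le_rfl le_rfl le_rfl le_rfl
  suffices h : 0 ≤ E.ev μ (.s (.m (F2E (.c 1) (.v 2) (.c 0) (.v 3) (.v 5) (.v 7) (.v 11) (.v 13) (.v 17) (.v 19)) (F2E (.c 0) (.v 2) (.c 1) (.v 3) (.v 5) (.v 7) (.v 11) (.v 13) (.v 17) (.v 19))) (.m (F2E (.c 0) (.v 2) (.c 0) (.v 3) (.v 5) (.v 7) (.v 11) (.v 13) (.v 17) (.v 19)) (F2E (.c 1) (.v 2) (.c 1) (.v 3) (.v 5) (.v 7) (.v 11) (.v 13) (.v 17) (.v 19)))) by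
    simpa only [E.ev, F2E_ev, FcE_ev, GxE_ev] using h
  have h1 : Ok μ [] := trivial
  have hF : NN μ (baseF 5 7 11 13 17 19) := B.nn
  rcases Hc with Hc | Hc <;> rcases Hw with Hw | Hw
  · exact sound hμ (L0 := [(2, .c 0), (3, .c 0)]) ⟨Hc, Hw, trivial⟩ h1 hF 0 [] (by decide +kernel)
  · exact sound hμ (L0 := [(2, .c 0), (3, .c 1)]) ⟨Hc, Hw, trivial⟩ h1 hF 0 [(49, 2, [0]), (25, 2, [2])] (by decide +kernel)
  · exact sound hμ (L0 := [(2, .c 1), (3, .c 0)]) ⟨Hc, Hw, trivial⟩ h1 hF 0 [(1, 2, [9])] (by decide +kernel)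
  · exact sound hμ (L0 := [(2, .c 1), (3, .c 1)]) ⟨Hc, Hw, trivial⟩ h1 hF 0 [(1, 4, [9]), (1, 2, [11]), (1, 2, [0]), (1, 2, [2]), (1, 2, [10]), (1, 2, [12])] (by decide +kernel)

theorem NR4cz (t w a b A1 A2 T1 T2 : ℤ) (Ht : t = 0 ∨ t = 1) (Hw : w = 0 ∨ w = 1) (B : Base a b A1 A2 T1 T2) :
    0 ≤ (((F2 t 1 0 w a b A1 A2 T1 T2) * (F2 t 0 1 w a b A1 A2 T1 T2)) - ((F2 t 0 0 w a b A1 A2 T1 T2) * (F2 t 1 1 w a b A1 A2 T1 T2))) := by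
  obtain ⟨μ, hμ, rfl, rfl, rfl, rfl, rfl, rfl, rfl, rfl, -, -, -, -, -, -, -, -, -, -, -, -⟩ := exmu t w a b A1 A2 T1 T2 0 0 0 0 0 0 0 0 0 0 0 0 (nn01 Ht) (nn01 Hw) B.h_a B.h_b B.h_A1 B.h_A2 B.h_T1 B.h_T2 le_rfl le_rfl le_rfl le_rfl le_rfl le_rfl le_rfl le_rfl le_rfl le_rfl le_rfl le_rfl
  suffices h : 0 ≤ E.ev μ (.s (.m (F2E (.v 2) (.c 1) (.c 0) (.v 3) (.v 5) (.v 7) (.v 11) (.v 13) (.v 17) (.v 19)) (F2E (.v 2) (.c 0) (.c 1) (.v 3) (.v 5) (.v 7) (.v 11) (.v 13) (.v 17) (.v 19))) (.m (F2E (.v 2) (.c 0) (.c 0) (.v 3) (.v 5) (.v 7) (.v 11) (.v 13) (.v 17) (.v 19)) (F2E (.v 2) (.c 1) (.c 1) (.v 3) (.v 5) (.v 7) (.v 11) (.v 13) (.v 17) (.v 19)))) by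
    simpa only [E.ev, F2E_ev, FcE_ev, GxE_ev] using h
  have h1 : Ok μ [] := trivial
  have hF : NN μ (baseF 5 7 11 13 17 19) := B.nn
  rcases Ht with Ht | Ht <;> rcases Hw with Hw | Hw
  · exact sound hμ (L0 := [(2, .c 0), (3, .c 0)]) ⟨Ht, Hw, trivial⟩ h1 hF 0 [] (by decide +kernel)
  · exact sound hμ (L0 := [(2, .c 0), (3, .c 1)]) ⟨Ht, Hw, trivial⟩ h1 hF 0 [(1, 2, [10]), (77, 2, [4]), (65, 2, [4]), (11, 2, [4]), (13, 2, [4])] (by decide +kernel)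
  · exact sound hμ (L0 := [(2, .c 1), (3, .c 0)]) ⟨Ht, Hw, trivial⟩ h1 hF 0 [] (by decide +kernel)
  · exact sound hμ (L0 := [(2, .c 1), (3, .c 1)]) ⟨Ht, Hw, trivial⟩ h1 hF 0 [(77, 1, [8]), (35, 2, [7]), (1, 2, [12]), (65, 1, [8]), (65, 1, [7]), (1, 2, [10]), (77, 1, [7]), (35, 2, [8]), (11, 2, [7]), (13, 2, [7])] (by decide +kernel)

theorem NR3c_tz (w a b A1 A2 T1 T2 : ℤ) (Hw : w = 0 ∨ w = 1) (B : Base a b A1 A2 T1 T2) :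
    0 ≤ (((Fc 1 0 w a b A1 A2 T1 T2) * (Fc 0 1 w a b A1 A2 T1 T2)) - ((Fc 0 0 w a b A1 A2 T1 T2) * (Fc 1 1 w a b A1 A2 T1 T2))) := by
  obtain ⟨μ, hμ, rfl, rfl, rfl, rfl, rfl, rfl, rfl, -, -, -, -, -, -, -, -, -, -, -, -, -⟩ := exmu w a b A1 A2 T1 T2 0 0 0 0 0 0 0 0 0 0 0 0 0 (nn01 Hw) B.h_a B.h_b B.h_A1 B.h_A2 B.h_T1 B.h_T2 le_rfl le_rfl le_rfl le_rfl le_rfl le_rfl le_rfl le_rfl le_rfl le_rfl le_rfl le_rfl le_rfl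
  suffices h : 0 ≤ E.ev μ (.s (.m (FcE (.c 1) (.c 0) (.v 2) (.v 3) (.v 5) (.v 7) (.v 11) (.v 13) (.v 17)) (FcE (.c 0) (.c 1) (.v 2) (.v 3) (.v 5) (.v 7) (.v 11) (.v 13) (.v 17))) (.m (FcE (.c 0) (.c 0) (.v 2) (.v 3) (.v 5) (.v 7) (.v 11) (.v 13) (.v 17)) (FcE (.c 1) (.c 1) (.v 2) (.v 3) (.v 5) (.v 7) (.v 11) (.v 13) (.v 17)))) by
    simpa only [E.ev, F2E_ev, FcE_ev, GxE_ev] using h
  have h1 : Ok μ [] := trivial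
  have hF : NN μ (baseF 3 5 7 11 13 17) := B.nn
  rcases Hw with Hw | Hw
  · exact sound hμ (L0 := [(2, .c 0)]) ⟨Hw, trivial⟩ h1 hF 0 [(1, 2, [9])] (by decide +kernel)
  · exact sound hμ (L0 := [(2, .c 1)]) ⟨Hw, trivial⟩ h1 hF 0 [(1, 2, [11]), (1, 2, [9]), (1, 2, [0]), (1, 2, [2])] (by decide +kernel)

theorem NR4tx (c z w a b A1 A2 T1 T2 v1 v2 : ℤ) (Hc : c = 0 ∨ c = 1) (Hz : z = 0 ∨ z = 1) (Hw : w = 0 ∨ w = 1) (B : Base a b A1 A2 T1 T2) (Pv : Pair v1 v2 b A2) (L1 : LocX a b A1 A2 T1 v1) (L2 : LocX a b A1 A2 T2 v2) :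
    0 ≤ (((F2 1 c z w a b A1 A2 T1 T2) * (F2 0 c z w (a + 1) b (A1 + (2 * a)) A2 (T1 + v1) (T2 + v2))) - ((F2 0 c z w a b A1 A2 T1 T2) * (F2 1 c z w (a + 1) b (A1 + (2 * a)) A2 (T1 + v1) (T2 + v2)))) := by
  obtain ⟨μ, hμ, rfl, rfl, rfl, rfl, rfl, rfl, rfl, rfl, rfl, rfl, rfl, ebe, eA4, -, -, -, -, -, -, -⟩ := exmu c z w a b A1 A2 T1 T2 v1 v2 (b - v1 - v2) (A2 - 2*(v1+v2)*(b - v1 - v2) - 2*v1*v2) 0 0 0 0 0 0 0 (nn01 Hc) (nn01 Hz) (nn01 Hw) B.h_a B.h_b B.h_A1 B.h_A2 B.h_T1 B.h_T2 Pv.h1 Pv.h2 Pv.pb Pv.hc le_rfl le_rfl le_rfl le_rfl le_rfl le_rfl le_rfl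
  suffices h : 0 ≤ E.ev μ (.s (.m (F2E (.c 1) (.v 2) (.v 3) (.v 5) (.v 7) (.v 11) (.v 13) (.v 17) (.v 19) (.v 23)) (F2E (.c 0) (.v 2) (.v 3) (.v 5) (.a (.v 7) (.c 1)) (.v 11) (.a (.v 13) (.m (.c 2) (.v 7))) (.v 17) (.a (.v 19) (.v 29)) (.a (.v 23) (.v 31)))) (.m (F2E (.c 0) (.v 2) (.v 3) (.v 5) (.v 7) (.v 11) (.v 13) (.v 17) (.v 19) (.v 23)) (F2E (.c 1) (.v 2) (.v 3) (.v 5) (.a (.v 7) (.c 1)) (.v 11) (.a (.v 13) (.m (.c 2) (.v 7))) (.v 17) (.a (.v 19) (.v 29)) (.a (.v 23) (.v 31))))) by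
    simpa only [E.ev, F2E_ev, FcE_ev, GxE_ev] using h
  have h1 : Ok μ [(11, .a (.a (.v 37) (.v 29)) (.v 31)), (17, .a (.a (.v 41) (.m (.m (.c 2) (.a (.v 29) (.v 31))) (.v 37))) (.m (.m (.c 2) (.v 29)) (.v 31)))] := ⟨by simp only [E.ev]; rw [ebe]; ring, by simp only [E.ev]; rw [eA4, ebe]; ring, trivial⟩
  have hF : NN μ (baseF 7 11 13 17 19 23 ++ (pairF 29 31 11 17 ++ (locF 7 11 13 17 19 29 ++ (locF 7 11 13 17 23 31 ++ ([.m (.s (.v 29) (.v 31)) (.s (.v 29) (.v 31))]))))) := NN.app B.nn (NN.app Pv.nn (NN.app L1.nn (NN.app L2.nn (⟨mul_self_nonneg _, trivial⟩))))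
  rcases Hc with Hc | Hc <;> rcases Hz with Hz | Hz <;> rcases Hw with Hw | Hw
  · exact sound hμ (L0 := [(2, .c 0), (3, .c 0), (5, .c 0)]) ⟨Hc, Hz, Hw, trivial⟩ h1 hF 0 [] (by decide +kernel)
  · exact sound hμ (L0 := [(2, .c 0), (3, .c 0), (5, .c 1)]) ⟨Hc, Hz, Hw, trivial⟩ h1 hF 0 [(841, 2, [0]), (961, 2, [0]), (1073, 4, [0]), (1147, 4, [0]), (899, 4, [0]), (1369, 2, [0])] (by decide +kernel)
  · exact sound hμ (L0 := [(2, .c 0), (3, .c 1), (5, .c 0)]) ⟨Hc, Hz, Hw, trivial⟩ h1 hF 0 [(841, 2, [0]), (961, 2, [0]), (1073, 4, [0]), (1147, 4, [0]), (899, 4, [0]), (1369, 2, [0])] (by decide +kernel)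
  · exact sound hμ (L0 := [(2, .c 0), (3, .c 1), (5, .c 1)]) ⟨Hc, Hz, Hw, trivial⟩ h1 hF 0 [(899, 16, [0]), (1073, 16, [0]), (961, 8, [0]), (29, 8, [0]), (1147, 16, [0]), (37, 8, [0]), (1, 2, [0]), (31, 8, [0]), (1369, 8, [0]), (841, 8, [0]), (1, 2, [2])] (by decide +kernel)
  · exact sound hμ (L0 := [(2, .c 1), (3, .c 0), (5, .c 0)]) ⟨Hc, Hz, Hw, trivial⟩ h1 hF 0 [(841, 2, [0]), (961, 2, [0]), (1073, 4, [0]), (1147, 4, [0]), (899, 4, [0]), (1369, 2, [0])] (by decide +kernel)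
  · exact sound hμ (L0 := [(2, .c 1), (3, .c 0), (5, .c 1)]) ⟨Hc, Hz, Hw, trivial⟩ h1 hF 17 [(961, 62, [0]), (37, 62, [0]), (259, 21, [8]), (203, 21, [8]), (1, 144, [10]), (1, 31, [25]), (1, 51, [12]), (1, 36, [0]), (23, 123, [8]), (7, 18, [15]), (29, 62, [0]), (7, 40, [3]), (31, 62, [0]), (49, 62, [3]), (1, 36, [19]), (13, 31, [2])] (by decide +kernel)
  · exact sound hμ (L0 := [(2, .c 1), (3, .c 1), (5, .c 0)]) ⟨Hc, Hz, Hw, trivial⟩ h1 hF 17 [(1, 51, [11]), (841, 62, [0]), (217, 21, [6]), (1, 36, [19]), (259, 21, [6]), (1, 36, [0]), (37, 62, [0]), (29, 62, [0]), (7, 18, [13]), (1, 144, [9]), (19, 123, [6]), (31, 62, [0]), (7, 40, [3]), (1, 31, [22]), (13, 31, [2]), (49, 62, [3])] (by decide +kernel)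
  · exact sound hμ (L0 := [(2, .c 1), (3, .c 1), (5, .c 1)]) ⟨Hc, Hz, Hw, trivial⟩ h1 hF 0 [(19, 6, [6]), (49, 6, [8]), (31, 12, [0]), (1, 10, [8]), (1, 18, [0]), (1, 18, [9]), (29, 12, [0]), (259, 6, [8]), (7, 24, [3]), (23, 30, [6]), (1, 12, [2]), (1, 24, [12]), (37, 6, [8]), (37, 12, [0])] (by decide +kernel)

theorem NR4cx (t z w a b A1 A2 T1 T2 v1 v2 : ℤ) (Ht : t = 0 ∨ t = 1) (Hz : z = 0 ∨ z = 1) (Hw : w = 0 ∨ w = 1) (B : Base a b A1 A2 T1 T2) (Pv : Pair v1 v2 b A2) (L1 : LocX a b A1 A2 T1 v1) (L2 : LocX a b A1 A2 T2 v2) :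
    0 ≤ (((F2 t 1 z w a b A1 A2 T1 T2) * (F2 t 0 z w (a + 1) b (A1 + (2 * a)) A2 (T1 + v1) (T2 + v2))) - ((F2 t 0 z w a b A1 A2 T1 T2) * (F2 t 1 z w (a + 1) b (A1 + (2 * a)) A2 (T1 + v1) (T2 + v2)))) := by
  obtain ⟨μ, hμ, rfl, rfl, rfl, rfl, rfl, rfl, rfl, rfl, rfl, rfl, rfl, ebe, eA4, -, -, -, -, -, -, -⟩ := exmu t z w a b A1 A2 T1 T2 v1 v2 (b - v1 - v2) (A2 - 2*(v1+v2)*(b - v1 - v2) - 2*v1*v2) 0 0 0 0 0 0 0 (nn01 Ht) (nn01 Hz) (nn01 Hw) B.h_a B.h_b B.h_A1 B.h_A2 B.h_T1 B.h_T2 Pv.h1 Pv.h2 Pv.pb Pv.hc le_rfl le_rfl le_rfl le_rfl le_rfl le_rfl le_rfl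
  suffices h : 0 ≤ E.ev μ (.s (.m (F2E (.v 2) (.c 1) (.v 3) (.v 5) (.v 7) (.v 11) (.v 13) (.v 17) (.v 19) (.v 23)) (F2E (.v 2) (.c 0) (.v 3) (.v 5) (.a (.v 7) (.c 1)) (.v 11) (.a (.v 13) (.m (.c 2) (.v 7))) (.v 17) (.a (.v 19) (.v 29)) (.a (.v 23) (.v 31)))) (.m (F2E (.v 2) (.c 0) (.v 3) (.v 5) (.v 7) (.v 11) (.v 13) (.v 17) (.v 19) (.v 23)) (F2E (.v 2) (.c 1) (.v 3) (.v 5) (.a (.v 7) (.c 1)) (.v 11) (.a (.v 13) (.m (.c 2) (.v 7))) (.v 17) (.a (.v 19) (.v 29)) (.a (.v 23) (.v 31))))) by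
    simpa only [E.ev, F2E_ev, FcE_ev, GxE_ev] using h
  have h1 : Ok μ [(11, .a (.a (.v 37) (.v 29)) (.v 31)), (17, .a (.a (.v 41) (.m (.m (.c 2) (.a (.v 29) (.v 31))) (.v 37))) (.m (.m (.c 2) (.v 29)) (.v 31)))] := ⟨by simp only [E.ev]; rw [ebe]; ring, by simp only [E.ev]; rw [eA4, ebe]; ring, trivial⟩
  have hF : NN μ (baseF 7 11 13 17 19 23 ++ (pairF 29 31 11 17 ++ (locF 7 11 13 17 19 29 ++ (locF 7 11 13 17 23 31 ++ ([.m (.s (.v 29) (.v 31)) (.s (.v 29) (.v 31))]))))) := NN.app B.nn (NN.app Pv.nn (NN.app L1.nn (NN.app L2.nn (⟨mul_self_nonneg _, trivial⟩))))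
  rcases Ht with Ht | Ht <;> rcases Hz with Hz | Hz <;> rcases Hw with Hw | Hw
  · exact sound hμ (L0 := [(2, .c 0), (3, .c 0), (5, .c 0)]) ⟨Ht, Hz, Hw, trivial⟩ h1 hF 0 [] (by decide +kernel)
  · exact sound hμ (L0 := [(2, .c 0), (3, .c 0), (5, .c 1)]) ⟨Ht, Hz, Hw, trivial⟩ h1 hF 0 [(41, 2, [23]), (1073, 4, [23]), (1, 2, [10]), (1147, 4, [23]), (899, 4, [23])] (by decide +kernel)
  · exact sound hμ (L0 := [(2, .c 0), (3, .c 1), (5, .c 0)]) ⟨Ht, Hz, Hw, trivial⟩ h1 hF 0 [(899, 4, [20]), (1, 2, [9]), (41, 2, [20]), (1073, 4, [20]), (1147, 4, [20])] (by decide +kernel)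
  · exact sound hμ (L0 := [(2, .c 0), (3, .c 1), (5, .c 1)]) ⟨Ht, Hz, Hw, trivial⟩ h1 hF 11 [(1147, 50, [4]), (7, 8, [2]), (203, 2, [21]), (899, 16, [4]), (41, 12, [8]), (1147, 16, [1]), (29, 22, [11]), (1, 24, [2]), (1147, 36, [6]), (31, 36, [4]), (49, 12, [3]), (37, 36, [4]), (37, 8, [8]), (259, 30, [4]), (13, 36, [16]), (217, 30, [7]), (1147, 12, [8]), (1, 2, [12]), (1073, 2, [6]), (7, 28, [19]), (29, 36, [4]), (41, 12, [6]), (37, 4, [6]), (41, 21, [1]), (29, 4, [6]), (1073, 26, [1]), (7, 44, [24]), (1073, 46, [8]), (203, 44, [3]), (13, 9, [3]), (217, 44, [3]), (1, 30, [25]), (37, 60, [0]), (1073, 50, [4]), (259, 6, [8]), (1, 4, [11]), (29, 8, [8]), (203, 14, [5]), (1, 12, [8]), (899, 26, [6]), (7, 28, [21]), (29, 32, [0]), (217, 20, [4]), (31, 17, [12]), (217, 12, [24]), (1, 33, [22]), (203, 36, [4]), (899,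 46, [8]), (41, 36, [4]), (31, 8, [8]), (31, 4, [6]), (7, 12, [5]), (31, 5, [11]), (1, 24, [0]), (13, 4, [14])] (by decide +kernel)
  · exact sound hμ (L0 := [(2, .c 1), (3, .c 0), (5, .c 0)]) ⟨Ht, Hz, Hw, trivial⟩ h1 hF 0 [] (by decide +kernel)
  · exact sound hμ (L0 := [(2, .c 1), (3, .c 0), (5, .c 1)]) ⟨Ht, Hz, Hw, trivial⟩ h1 hF 6 [(1, 1, [10]), (41, 14, [8]), (899, 28, [8]), (1147, 28, [8]), (203, 6, [8]), (31, 6, [23]), (49, 4, [2]), (29, 14, [8]), (217, 4, [8]), (259, 4, [3]), (37, 6, [23]), (31, 14, [8]), (1073, 28, [8]), (1, 8, [25]), (37, 2, [12]), (13, 1, [3]), (41, 1, [1]), (203, 4, [3]), (29, 2, [12]), (31, 11, [12]), (37, 14, [8]), (29, 6, [23]), (841, 2, [0]), (1369, 2, [0]), (23, 4, [2]), (217, 22, [3]), (1, 2, [12]), (259, 6, [8])] (by decide +kernel)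
  · exact sound hμ (L0 := [(2, .c 1), (3, .c 1), (5, .c 0)]) ⟨Ht, Hz, Hw, trivial⟩ h1 hF 6 [(203, 4, [6]), (41, 14, [6]), (1073, 28, [6]), (31, 14, [6]), (31, 6, [20]), (29, 6, [20]), (899, 28, [6]), (259, 6, [6]), (41, 1, [1]), (1, 8, [22]), (37, 14, [6]), (1, 2, [11]), (1, 1, [9]), (37, 6, [20]), (1369, 2, [0]), (203, 22, [3]), (259, 4, [3]), (1147, 28, [6]), (13, 1, [3]), (217, 6, [6]), (37, 2, [11]), (217, 4, [3]), (49, 4, [2]), (29, 11, [11]), (19, 4, [2]), (961, 2, [0]), (31, 2, [11]), (29, 14, [6])] (by decide +kernel)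
  · exact sound hμ (L0 := [(2, .c 1), (3, .c 1), (5, .c 1)]) ⟨Ht, Hz, Hw, trivial⟩ h1 hF 7 [(217, 44, [8]), (41, 32, [8]), (7, 12, [8]), (13, 2, [3]), (29, 17, [11]), (1, 16, [3]), (1, 16, [6]), (37, 36, [6]), (1, 25, [25]), (41, 32, [6]), (899, 144, [8]), (37, 8, [4]), (1, 11, [22]), (31, 10, [12]), (1073, 64, [8]), (259, 12, [3]), (1147, 10, [6]), (31, 44, [6]), (1, 16, [8]), (1, 26, [11]), (203, 42, [8]), (49, 8, [2]), (1369, 4, [0]), (259, 30, [6]), (1, 16, [4]), (41, 4, [1]), (37, 68, [8]), (37, 6, [11]), (29, 76, [8]), (31, 21, [11]), (259, 14, [8]), (1, 16, [0]), (31, 76, [8]), (29, 44, [6]), (203, 34, [3]), (217, 62, [3]), (1073, 64, [6]), (7, 28, [3]), (203, 30, [6]), (1, 10, [12]), (1147, 118, [8])] (by decide +kernel)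

theorem NR4zx (t c w a b A1 A2 T1 T2 v1 v2 : ℤ) (Ht : t = 0 ∨ t = 1) (Hc : c = 0 ∨ c = 1) (Hw : w = 0 ∨ w = 1) (B : Base a b A1 A2 T1 T2) (Pv : Pair v1 v2 b A2) (L1 : LocX a b A1 A2 T1 v1) (L2 : LocX a b A1 A2 T2 v2) :
    0 ≤ (((F2 t c 1 w a b A1 A2 T1 T2) * (F2 t c 0 w (a + 1) b (A1 + (2 * a)) A2 (T1 + v1) (T2 + v2))) - ((F2 t c 0 w a b A1 A2 T1 T2) * (F2 t c 1 w (a + 1) b (A1 + (2 * a)) A2 (T1 + v1) (T2 + v2)))) := by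
  obtain ⟨μ, hμ, rfl, rfl, rfl, rfl, rfl, rfl, rfl, rfl, rfl, rfl, rfl, ebe, eA4, -, -, -, -, -, -, -⟩ := exmu t c w a b A1 A2 T1 T2 v1 v2 (b - v1 - v2) (A2 - 2*(v1+v2)*(b - v1 - v2) - 2*v1*v2) 0 0 0 0 0 0 0 (nn01 Ht) (nn01 Hc) (nn01 Hw) B.h_a B.h_b B.h_A1 B.h_A2 B.h_T1 B.h_T2 Pv.h1 Pv.h2 Pv.pb Pv.hc le_rfl le_rfl le_rfl le_rfl le_rfl le_rfl le_rfl
  suffices h : 0 ≤ E.ev μ (.s (.m (F2E (.v 2) (.v 3) (.c 1) (.v 5) (.v 7) (.v 11) (.v 13) (.v 17) (.v 19) (.v 23)) (F2E (.v 2) (.v 3) (.c 0) (.v 5) (.a (.v 7) (.c 1)) (.v 11) (.a (.v 13) (.m (.c 2) (.v 7))) (.v 17) (.a (.v 19) (.v 29)) (.a (.v 23) (.v 31)))) (.m (F2E (.v 2) (.v 3) (.c 0) (.v 5) (.v 7) (.v 11) (.v 13) (.v 17) (.v 19) (.v 23)) (F2E (.v 2) (.v 3) (.c 1) (.v 5) (.a (.v 7) (.c 1)) (.v 11) (.a (.v 13) (.m (.c 2) (.v 7))) (.v 17) (.a (.v 19) (.v 29)) (.a (.v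 23) (.v 31))))) by
    simpa only [E.ev, F2E_ev, FcE_ev, GxE_ev] using h
  have h1 : Ok μ [(11, .a (.a (.v 37) (.v 29)) (.v 31)), (17, .a (.a (.v 41) (.m (.m (.c 2) (.a (.v 29) (.v 31))) (.v 37))) (.m (.m (.c 2) (.v 29)) (.v 31)))] := ⟨by simp only [E.ev]; rw [ebe]; ring, by simp only [E.ev]; rw [eA4, ebe]; ring, trivial⟩
  have hF : NN μ (baseF 7 11 13 17 19 23 ++ (pairF 29 31 11 17 ++ (locF 7 11 13 17 19 29 ++ (locF 7 11 13 17 23 31 ++ ([.m (.s (.v 29) (.v 31)) (.s (.v 29) (.v 31))]))))) := NN.app B.nn (NN.app Pv.nn (NN.app L1.nn (NN.app L2.nn (⟨mul_self_nonneg _, trivial⟩))))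
  rcases Ht with Ht | Ht <;> rcases Hc with Hc | Hc <;> rcases Hw with Hw | Hw
  · exact sound hμ (L0 := [(2, .c 0), (3, .c 0), (5, .c 0)]) ⟨Ht, Hc, Hw, trivial⟩ h1 hF 0 [] (by decide +kernel)
  · exact sound hμ (L0 := [(2, .c 0), (3, .c 0), (5, .c 1)]) ⟨Ht, Hc, Hw, trivial⟩ h1 hF 1 [(841, 4, [0]), (899, 4, [0]), (1073, 4, [0]), (259, 1, [3]), (203, 1, [3]), (217, 1, [3]), (961, 4, [0]), (49, 4, [2]), (1147, 4, [0]), (1369, 4, [0])] (by decide +kernel)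
  · exact sound hμ (L0 := [(2, .c 0), (3, .c 1), (5, .c 0)]) ⟨Ht, Hc, Hw, trivial⟩ h1 hF 0 [(899, 4, [20]), (1, 2, [9]), (41, 2, [20]), (1073, 4, [20]), (1147, 4, [20])] (by decide +kernel)
  · exact sound hμ (L0 := [(2, .c 0), (3, .c 1), (5, .c 1)]) ⟨Ht, Hc, Hw, trivial⟩ h1 hF 85 [(899, 226, [4]), (7, 172, [6]), (1, 147, [9]), (259, 212, [3]), (1, 127, [22]), (31, 34, [11]), (49, 36, [2]), (961, 380, [0]), (19, 100, [2]), (217, 10, [3]), (1147, 408, [4]), (133, 72, [15]), (37, 106, [11]), (31, 566, [0]), (49, 34, [19]), (37, 222, [0]), (41, 244, [4]), (1369, 70, [0]), (1, 172, [19]), (1, 172, [0]), (589, 32, [15]), (5887, 10, [13]), (49, 86, [15]), (6727, 58, [15]), (41, 106, [1]), (7, 90, [19]), (7, 72, [21]), (1, 66, [25]), (1, 122, [11]), (29, 197, [11]), (23, 172, [8]), (203, 384, [3]), (1073, 344, [6]),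 (13, 50, [14])] (by decide +kernel)
  · exact sound hμ (L0 := [(2, .c 1), (3, .c 0), (5, .c 0)]) ⟨Ht, Hc, Hw, trivial⟩ h1 hF 0 [] (by decide +kernel)
  · exact sound hμ (L0 := [(2, .c 1), (3, .c 0), (5, .c 1)]) ⟨Ht, Hc, Hw, trivial⟩ h1 hF 0 [(37, 2, [3]), (29, 2, [3]), (1073, 2, [0]), (1147, 2, [0]), (1147, 4, [3]), (41, 1, [3]), (31, 2, [3]), (259, 2, [3]), (203, 2, [3]), (217, 2, [3]), (1073, 4, [3]), (841, 2, [0]), (961, 2, [0]), (1369, 2, [0]), (49, 2, [2]), (841, 1, [3]), (1369, 1, [3]), (899, 2, [0]), (961, 1, [3]), (899, 4, [3])] (by decide +kernel)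
  · exact sound hμ (L0 := [(2, .c 1), (3, .c 1), (5, .c 0)]) ⟨Ht, Hc, Hw, trivial⟩ h1 hF 6 [(203, 4, [6]), (41, 14, [6]), (1073, 28, [6]), (31, 14, [6]), (31, 6, [20]), (29, 6, [20]), (899, 28, [6]), (259, 6, [6]), (41, 1, [1]), (1, 8, [22]), (37, 14, [6]), (1, 2, [11]), (1, 1, [9]), (37, 6, [20]), (1369, 2, [0]), (203, 22, [3]), (259, 4, [3]), (1147, 28, [6]), (13, 1, [3]), (217, 6, [6]), (37, 2, [11]), (217, 4, [3]), (49, 4, [2]), (29, 11, [11]), (19, 4, [2]), (961, 2, [0]), (31, 2, [11]), (29, 14, [6])] (by decide +kernel)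
  · exact sound hμ (L0 := [(2, .c 1), (3, .c 1), (5, .c 1)]) ⟨Ht, Hc, Hw, trivial⟩ h1 hF 1 [(217, 8, [6]), (203, 16, [3]), (29, 16, [6]), (31, 12, [0]), (1, 8, [6]), (841, 2, [6]), (1147, 24, [6]), (37, 16, [6]), (7, 6, [8]), (1369, 2, [0]), (961, 10, [0]), (31, 12, [6]), (29, 8, [8]), (37, 8, [8]), (899, 26, [6]), (1073, 34, [6]), (1, 4, [11]), (1, 2, [25]), (29, 4, [3]), (41, 8, [6]), (1, 4, [0]), (37, 4, [0]), (23, 12, [6]), (37, 2, [12]), (1, 6, [22]), (259, 13, [6]), (49, 2, [15]), (41, 2, [1]), (41, 4, [8]), (259, 4, [3]), (1147, 2, [0]), (29, 8, [11]), (203, 12, [6]), (49, 2, [2])] (by decide +kernel)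

theorem NR3c_tx (z w a b A1 A2 T1 T2 v1 v2 : ℤ) (Hz : z = 0 ∨ z = 1) (Hw : w = 0 ∨ w = 1) (B : Base a b A1 A2 T1 T2) (Pv : Pair v1 v2 b A2) (L1 : LocX a b A1 A2 T1 v1) (L2 : LocX a b A1 A2 T2 v2) :
    0 ≤ (((Fc 1 z w a b A1 A2 T1 T2) * (Fc 0 z w (a + 1) b (A1 + (2 * a)) A2 (T1 + v1) (T2 + v2))) - ((Fc 0 z w a b A1 A2 T1 T2) * (Fc 1 z w (a + 1) b (A1 + (2 * a)) A2 (T1 + v1) (T2 + v2)))) := by
  obtain ⟨μ, hμ, rfl, rfl, rfl, rfl, rfl, rfl, rfl, rfl, rfl, rfl, ebe, eA4, -, -, -, -, -, -, -, -⟩ := exmu z w a b A1 A2 T1 T2 v1 v2 (b - v1 - v2) (A2 - 2*(v1+v2)*(b - v1 - v2) - 2*v1*v2) 0 0 0 0 0 0 0 0 (nn01 Hz) (nn01 Hw) B.h_a B.h_b B.h_A1 B.h_A2 B.h_T1 B.h_T2 Pv.h1 Pv.h2 Pv.pb Pv.hc le_rfl le_rfl le_rfl le_rfl le_rfl le_rfl le_rfl le_rfl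
  suffices h : 0 ≤ E.ev μ (.s (.m (FcE (.c 1) (.v 2) (.v 3) (.v 5) (.v 7) (.v 11) (.v 13) (.v 17) (.v 19)) (FcE (.c 0) (.v 2) (.v 3) (.a (.v 5) (.c 1)) (.v 7) (.a (.v 11) (.m (.c 2) (.v 5))) (.v 13) (.a (.v 17) (.v 23)) (.a (.v 19) (.v 29)))) (.m (FcE (.c 0) (.v 2) (.v 3) (.v 5) (.v 7) (.v 11) (.v 13) (.v 17) (.v 19)) (FcE (.c 1) (.v 2) (.v 3) (.a (.v 5) (.c 1)) (.v 7) (.a (.v 11) (.m (.c 2) (.v 5))) (.v 13) (.a (.v 17) (.v 23)) (.a (.v 19) (.v 29))))) by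
    simpa only [E.ev, F2E_ev, FcE_ev, GxE_ev] using h
  have h1 : Ok μ [(7, .a (.a (.v 31) (.v 23)) (.v 29)), (13, .a (.a (.v 37) (.m (.m (.c 2) (.a (.v 23) (.v 29))) (.v 31))) (.m (.m (.c 2) (.v 23)) (.v 29)))] := ⟨by simp only [E.ev]; rw [ebe]; ring, by simp only [E.ev]; rw [eA4, ebe]; ring, trivial⟩
  have hF : NN μ (baseF 5 7 11 13 17 19 ++ (pairF 23 29 7 13 ++ (locF 5 7 11 13 17 23 ++ (locF 5 7 11 13 19 29 ++ ([.m (.s (.v 23) (.v 29)) (.s (.v 23) (.v 29))]))))) := NN.app B.nn (NN.app Pv.nn (NN.app L1.nn (NN.app L2.nn (⟨mul_self_nonneg _, trivial⟩))))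
  rcases Hz with Hz | Hz <;> rcases Hw with Hw | Hw
  · exact sound hμ (L0 := [(2, .c 0), (3, .c 0)]) ⟨Hz, Hw, trivial⟩ h1 hF 0 [(529, 2, [0]), (841, 2, [0]), (713, 4, [0]), (899, 4, [0]), (667, 4, [0]), (961, 2, [0])] (by decide +kernel)
  · exact sound hμ (L0 := [(2, .c 0), (3, .c 1)]) ⟨Hz, Hw, trivial⟩ h1 hF 5 [(23, 10, [0]), (155, 3, [8]), (29, 10, [0]), (1, 12, [19]), (1, 12, [10]), (1, 12, [0]), (19, 21, [8]), (115, 3, [8]), (1, 9, [12]), (5, 6, [15]), (25, 10, [3]), (5, 8, [3]), (1, 5, [25]), (31, 10, [0]), (11, 5, [2]), (841, 10, [0])] (by decide +kernel)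
  · exact sound hμ (L0 := [(2, .c 1), (3, .c 0)]) ⟨Hz, Hw, trivial⟩ h1 hF 5 [(1, 5, [22]), (29, 10, [0]), (1, 12, [19]), (23, 10, [0]), (145, 3, [6]), (1, 9, [11]), (31, 10, [0]), (5, 6, [13]), (529, 10, [0]), (1, 12, [9]), (17, 21, [6]), (1, 12, [0]), (5, 8, [3]), (155, 3, [6]), (11, 5, [2]), (25, 10, [3])] (by decide +kernel)
  · exact sound hμ (L0 := [(2, .c 1), (3, .c 1)]) ⟨Hz, Hw, trivial⟩ h1 hF 2 [(1, 12, [19]), (1, 24, [0]), (31, 4, [0]), (115, 4, [15]), (1, 6, [26]), (29, 4, [0]), (1, 9, [8]), (31, 6, [6]), (19, 22, [6]), (145, 4, [13]), (961, 4, [0]), (841, 4, [0]), (5, 16, [3]), (529, 4, [0]), (1, 6, [2]), (155, 2, [8]), (25, 2, [6]), (23, 4, [0]), (11, 4, [2]), (17, 6, [6]), (1, 16, [12]), (1, 6, [9]), (25, 4, [3])] (by decide +kernel)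

theorem NR3c_zx (t w a b A1 A2 T1 T2 v1 v2 : ℤ) (Ht : t = 0 ∨ t = 1) (Hw : w = 0 ∨ w = 1) (B : Base a b A1 A2 T1 T2) (Pv : Pair v1 v2 b A2) (L1 : LocX a b A1 A2 T1 v1) (L2 : LocX a b A1 A2 T2 v2) :
    0 ≤ (((Fc t 1 w a b A1 A2 T1 T2) * (Fc t 0 w (a + 1) b (A1 + (2 * a)) A2 (T1 + v1) (T2 + v2))) - ((Fc t 0 w a b A1 A2 T1 T2) * (Fc t 1 w (a + 1) b (A1 + (2 * a)) A2 (T1 + v1) (T2 + v2)))) := by
  obtain ⟨μ, hμ, rfl, rfl, rfl, rfl, rfl, rfl, rfl, rfl, rfl, rfl, ebe, eA4, -, -, -, -, -, -, -, -⟩ := exmu t w a b A1 A2 T1 T2 v1 v2 (b - v1 - v2) (A2 - 2*(v1+v2)*(b - v1 - v2) - 2*v1*v2) 0 0 0 0 0 0 0 0 (nn01 Ht) (nn01 Hw) B.h_a B.h_b B.h_A1 B.h_A2 B.h_T1 B.h_T2 Pv.h1 Pv.h2 Pv.pb Pv.hc le_rfl le_rfl le_rfl le_rfl le_rfl le_rfl le_rfl le_rfl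
  suffices h : 0 ≤ E.ev μ (.s (.m (FcE (.v 2) (.c 1) (.v 3) (.v 5) (.v 7) (.v 11) (.v 13) (.v 17) (.v 19)) (FcE (.v 2) (.c 0) (.v 3) (.a (.v 5) (.c 1)) (.v 7) (.a (.v 11) (.m (.c 2) (.v 5))) (.v 13) (.a (.v 17) (.v 23)) (.a (.v 19) (.v 29)))) (.m (FcE (.v 2) (.c 0) (.v 3) (.v 5) (.v 7) (.v 11) (.v 13) (.v 17) (.v 19)) (FcE (.v 2) (.c 1) (.v 3) (.a (.v 5) (.c 1)) (.v 7) (.a (.v 11) (.m (.c 2) (.v 5))) (.v 13) (.a (.v 17) (.v 23)) (.a (.v 19) (.v 29))))) by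
    simpa only [E.ev, F2E_ev, FcE_ev, GxE_ev] using h
  have h1 : Ok μ [(7, .a (.a (.v 31) (.v 23)) (.v 29)), (13, .a (.a (.v 37) (.m (.m (.c 2) (.a (.v 23) (.v 29))) (.v 31))) (.m (.m (.c 2) (.v 23)) (.v 29)))] := ⟨by simp only [E.ev]; rw [ebe]; ring, by simp only [E.ev]; rw [eA4, ebe]; ring, trivial⟩
  have hF : NN μ (baseF 5 7 11 13 17 19 ++ (pairF 23 29 7 13 ++ (locF 5 7 11 13 17 23 ++ (locF 5 7 11 13 19 29 ++ ([.m (.s (.v 23) (.v 29)) (.s (.v 23) (.v 29))]))))) := NN.app B.nn (NN.app Pv.nn (NN.app L1.nn (NN.app L2.nn (⟨mul_self_nonneg _, trivial⟩))))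
  rcases Ht with Ht | Ht <;> rcases Hw with Hw | Hw
  · exact sound hμ (L0 := [(2, .c 0), (3, .c 0)]) ⟨Ht, Hw, trivial⟩ h1 hF 0 [(667, 4, [20]), (1, 2, [9]), (37, 2, [20]), (713, 4, [20]), (899, 4, [20])] (by decide +kernel)
  · exact sound hμ (L0 := [(2, .c 0), (3, .c 1)]) ⟨Ht, Hw, trivial⟩ h1 hF 7 [(5, 4, [5, 15]), (667, 2, [4]), (37, 4, [1]), (5, 4, [15, 15]), (23, 15, [11]), (29, 6, [0, 13]), (19, 4, [0]), (899, 8, [1]), (37, 4, [6]), (1, 8, [19, 13]), (899, 32, [4]), (1, 2, [5, 6]), (37, 12, [4]), (713, 20, [6]), (1, 2, [5, 24]), (1, 19, [22]), (1, 6, [0, 8]), (1, 8, [0, 13]), (1, 2, [24, 24]), (17, 2, [21]), (5, 6, [21]), (29, 4, [19, 13]), (5, 2, [19, 13]), (19, 2, [6]), (25, 4, [3]), (2645, 9, [13]), (1, 4, [0, 3]), (1, 12, [20, 24]), (11, 2, [24]), (19, 2, [8]), (5, 4, [6, 15]), (5, 6, [6]), (1, 1, [9]),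 (115, 21, [3]), (19, 12, [21]), (31, 4, [6])] (by decide +kernel)
  · exact sound hμ (L0 := [(2, .c 1), (3, .c 0)]) ⟨Ht, Hw, trivial⟩ h1 hF 6 [(115, 4, [6]), (37, 14, [6]), (713, 28, [6]), (29, 14, [6]), (29, 6, [20]), (23, 6, [20]), (667, 28, [6]), (155, 6, [6]), (37, 1, [1]), (1, 8, [22]), (31, 14, [6]), (1, 2, [11]), (1, 1, [9]), (31, 6, [20]), (961, 2, [0]), (115, 22, [3]), (155, 4, [3]), (899, 28, [6]), (11, 1, [3]), (145, 6, [6]), (31, 2, [11]), (145, 4, [3]), (25, 4, [2]), (23, 11, [11]), (17, 4, [2]), (841, 2, [0]), (29, 2, [11]), (23, 14, [6])] (by decide +kernel)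
  · exact sound hμ (L0 := [(2, .c 1), (3, .c 1)]) ⟨Ht, Hw, trivial⟩ h1 hF 1 [(31, 1, [11]), (713, 14, [6]), (1, 4, [6]), (23, 4, [3]), (667, 8, [8]), (155, 3, [6]), (11, 1, [16]), (667, 2, [6]), (23, 2, [8]), (37, 1, [1]), (23, 10, [6]), (1, 3, [11]), (145, 2, [6]), (1, 4, [5]), (115, 5, [8]), (899, 8, [6]), (29, 4, [0]), (25, 2, [15]), (31, 1, [0]), (37, 4, [6]), (1, 3, [22]), (115, 2, [6]), (23, 3, [11]), (529, 2, [6]), (29, 4, [6]), (841, 2, [0]), (1, 4, [0]), (155, 2, [3]), (31, 12, [6]), (115, 6, [3]), (5, 2, [6]), (19, 1, [6])] (by decide +kernel)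

theorem NR4xx (t c z w a b A1 A2 T1 T2 v1 v2 v3 v4 : ℤ) (Ht : t = 0 ∨ t = 1) (Hc : c = 0 ∨ c = 1) (Hz : z = 0 ∨ z = 1) (Hw : w = 0 ∨ w = 1) (B : Base a b A1 A2 T1 T2) (P12 : Pair v1 v2 b A2) (P13 : Pair v1 v3 b A2) (P24 : Pair v2 v4 b A2) (P34 : Pair v3 v4 b A2) :
    0 ≤ (((F2 t c z w (a + 1) b (A1 + (2 * a)) A2 (T1 + v1) (T2 + v2)) * (F2 t c z w (a + 1) b (A1 + (2 * a)) A2 (T1 + v3) (T2 + v4))) - ((F2 t c z w a b A1 A2 T1 T2) * (F2 t c z w ((a + 1) + 1) b ((A1 + (2 * a)) + (2 * (a + 1))) A2 ((T1 + v1) + v3) ((T2 + v2) + v4)))) := by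
  obtain ⟨μ, hμ, rfl, rfl, rfl, rfl, rfl, rfl, rfl, rfl, rfl, rfl, rfl, rfl, rfl, rfl, -, -, -, -, -, -⟩ := exmu t c z w a b A1 A2 T1 T2 v1 v2 v3 v4 0 0 0 0 0 0 (nn01 Ht) (nn01 Hc) (nn01 Hz) (nn01 Hw) B.h_a B.h_b B.h_A1 B.h_A2 B.h_T1 B.h_T2 P13.h1 P24.h1 P34.h1 P34.h2 le_rfl le_rfl le_rfl le_rfl le_rfl le_rfl
  suffices h : 0 ≤ E.ev μ (.s (.m (F2E (.v 2) (.v 3) (.v 5) (.v 7) (.a (.v 11) (.c 1)) (.v 13) (.a (.v 17) (.m (.c 2) (.v 11))) (.v 19) (.a (.v 23) (.v 31)) (.a (.v 29) (.v 37))) (F2E (.v 2) (.v 3) (.v 5) (.v 7) (.a (.v 11) (.c 1)) (.v 13) (.a (.v 17) (.m (.c 2) (.v 11))) (.v 19) (.a (.v 23) (.v 41)) (.a (.v 29) (.v 43)))) (.m (F2E (.v 2) (.v 3) (.v 5) (.v 7) (.v 11) (.v 13) (.v 17) (.v 19) (.v 23) (.v 29)) (F2E (.v 2) (.v 3) (.v 5) (.v 7) (.a (.a (.v 11) (.c 1)) (.c 1)) (.v 13) (.a (.a (.v 17) (.m (.c 2)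 (.v 11))) (.m (.c 2) (.a (.v 11) (.c 1)))) (.v 19) (.a (.a (.v 23) (.v 31)) (.v 41)) (.a (.a (.v 29) (.v 37)) (.v 43))))) by
    simpa only [E.ev, F2E_ev, FcE_ev, GxE_ev] using h
  have h1 : Ok μ [] := trivial
  have hF : NN μ (baseF 11 13 17 19 23 29 ++ (pairF 31 37 13 19 ++ (pairF 31 41 13 19 ++ (pairF 37 43 13 19 ++ (pairF 41 43 13 19 ++ ([.m (.s (.v 19) (.c 2)) (.s (.v 19) (.c 2)), .m (.s (.v 31) (.v 37)) (.s (.v 31) (.v 37)), .m (.s (.v 31) (.v 41)) (.s (.v 31) (.v 41)), .m (.s (.v 31) (.v 43)) (.s (.v 31) (.v 43)), .m (.s (.v 37) (.v 41)) (.s (.v 37) (.v 41)), .m (.s (.v 37) (.v 43)) (.s (.v 37) (.v 43)), .m (.s (.v 41) (.v 43)) (.s (.v 41) (.v 43))])))))) := NN.app B.nn (NN.app P12.nn (NN.app P13.nn (NN.app P24.nn (NN.app P34.nn (⟨mul_self_nonneg _, mul_self_nonneg _, mul_self_nonneg _, mul_self_nonneg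 _, mul_self_nonneg _, mul_self_nonneg _, mul_self_nonneg _, trivial⟩)))))
  rcases Ht with Ht | Ht <;> rcases Hc with Hc | Hc <;> rcases Hz with Hz | Hz <;> rcases Hw with Hw | Hw
  · exact sound hμ (L0 := [(2, .c 0), (3, .c 0), (5, .c 0), (7, .c 0)]) ⟨Ht, Hc, Hz, Hw, trivial⟩ h1 hF 0 [] (by decide +kernel)
  · exact sound hμ (L0 := [(2, .c 0), (3, .c 0), (5, .c 0), (7, .c 1)]) ⟨Ht, Hc, Hz, Hw, trivial⟩ h1 hF 0 [(169, 2, [0])] (by decide +kernel)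
  · exact sound hμ (L0 := [(2, .c 0), (3, .c 0), (5, .c 1), (7, .c 0)]) ⟨Ht, Hc, Hz, Hw, trivial⟩ h1 hF 0 [(169, 2, [0])] (by decide +kernel)
  · exact sound hμ (L0 := [(2, .c 0), (3, .c 0), (5, .c 1), (7, .c 1)]) ⟨Ht, Hc, Hz, Hw, trivial⟩ h1 hF 0 [(169, 8, [0]), (13, 8, [0]), (1, 2, [0]), (1, 2, [2])] (by decide +kernel)
  · exact sound hμ (L0 := [(2, .c 0), (3, .c 1), (5, .c 0), (7, .c 0)]) ⟨Ht, Hc, Hz, Hw, trivial⟩ h1 hF 0 [(169, 2, [0])] (by decide +kernel)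
  · exact sound hμ (L0 := [(2, .c 0), (3, .c 1), (5, .c 0), (7, .c 1)]) ⟨Ht, Hc, Hz, Hw, trivial⟩ h1 hF 0 [(13, 8, [0]), (1, 2, [32]), (11, 4, [31]), (169, 8, [0]), (1, 2, [0]), (143, 8, [31]), (1, 4, [31]), (1, 4, [33]), (19, 4, [31])] (by decide +kernel)
  · exact sound hμ (L0 := [(2, .c 0), (3, .c 1), (5, .c 1), (7, .c 0)]) ⟨Ht, Hc, Hz, Hw, trivial⟩ h1 hF 0 [(13, 8, [0]), (1, 2, [25]), (11, 4, [24]), (169, 8, [0]), (1, 2, [0]), (143, 8, [24]), (1, 4, [24]), (1, 4, [26]), (19, 4, [24])] (by decide +kernel)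
  · exact sound hμ (L0 := [(2, .c 0), (3, .c 1), (5, .c 1), (7, .c 1)]) ⟨Ht, Hc, Hz, Hw, trivial⟩ h1 hF 2 [(11, 36, [17]), (1, 4, [2]), (1, 1, [25]), (1, 3, [41]), (11, 36, [38]), (13, 108, [0]), (143, 36, [17]), (1, 54, [0]), (169, 54, [0]), (143, 36, [38]), (1, 14, [17]), (1, 1, [32]), (19, 18, [24]), (1, 2, [40]), (13, 4, [22]), (13, 30, [38]), (1, 14, [38]), (19, 18, [31]), (13, 34, [17]), (1, 2, [19]), (13, 4, [29])] (by decide +kernel)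
  · exact sound hμ (L0 := [(2, .c 1), (3, .c 0), (5, .c 0), (7, .c 0)]) ⟨Ht, Hc, Hz, Hw, trivial⟩ h1 hF 0 [] (by decide +kernel)
  · exact sound hμ (L0 := [(2, .c 1), (3, .c 0), (5, .c 0), (7, .c 1)]) ⟨Ht, Hc, Hz, Hw, trivial⟩ h1 hF 0 [(169, 2, [0])] (by decide +kernel)
  · exact sound hμ (L0 := [(2, .c 1), (3, .c 0), (5, .c 1), (7, .c 0)]) ⟨Ht, Hc, Hz, Hw, trivial⟩ h1 hF 0 [(169, 2, [0])] (by decide +kernel)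
  · exact sound hμ (L0 := [(2, .c 1), (3, .c 0), (5, .c 1), (7, .c 1)]) ⟨Ht, Hc, Hz, Hw, trivial⟩ h1 hF 0 [(169, 8, [0]), (13, 8, [0]), (1, 2, [0])] (by decide +kernel)
  · exact sound hμ (L0 := [(2, .c 1), (3, .c 1), (5, .c 0), (7, .c 0)]) ⟨Ht, Hc, Hz, Hw, trivial⟩ h1 hF 0 [(169, 2, [0])] (by decide +kernel)
  · exact sound hμ (L0 := [(2, .c 1), (3, .c 1), (5, .c 0), (7, .c 1)]) ⟨Ht, Hc, Hz, Hw, trivial⟩ h1 hF 0 [(13, 12, [31]), (13, 8, [0]), (19, 4, [31]), (1, 4, [31]), (169, 8, [0]), (11, 4, [31]), (1, 2, [0]), (143, 8, [31])] (by decide +kernel)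
  · exact sound hμ (L0 := [(2, .c 1), (3, .c 1), (5, .c 1), (7, .c 0)]) ⟨Ht, Hc, Hz, Hw, trivial⟩ h1 hF 0 [(13, 12, [24]), (13, 8, [0]), (19, 4, [24]), (1, 4, [24]), (169, 8, [0]), (11, 4, [24]), (1, 2, [0]), (143, 8, [24])] (by decide +kernel)
  · exact sound hμ (L0 := [(2, .c 1), (3, .c 1), (5, .c 1), (7, .c 1)]) ⟨Ht, Hc, Hz, Hw, trivial⟩ h1 hF 0 [(13, 24, [38]), (13, 24, [17]), (169, 18, [0]), (1, 18, [0]), (13, 36, [0]), (143, 12, [31]), (143, 12, [24]), (1, 16, [24]), (19, 6, [31]), (11, 12, [17]), (19, 6, [24]), (1, 16, [31]), (11, 12, [38])] (by decide +kernel)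

theorem NR3c_xx (t z w a b A1 A2 T1 T2 v1 v2 v3 v4 : ℤ) (Ht : t = 0 ∨ t = 1) (Hz : z = 0 ∨ z = 1) (Hw : w = 0 ∨ w = 1) (B : Base a b A1 A2 T1 T2) (P12 : Pair v1 v2 b A2) (P13 : Pair v1 v3 b A2) (P24 : Pair v2 v4 b A2) (P34 : Pair v3 v4 b A2) :
    0 ≤ (((Fc t z w (a + 1) b (A1 + (2 * a)) A2 (T1 + v1) (T2 + v2)) * (Fc t z w (a + 1) b (A1 + (2 * a)) A2 (T1 + v3) (T2 + v4))) - ((Fc t z w a b A1 A2 T1 T2) * (Fc t z w ((a + 1) + 1) b ((A1 + (2 * a)) + (2 * (a + 1))) A2 ((T1 + v1) + v3) ((T2 + v2) + v4)))) := by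
  obtain ⟨μ, hμ, rfl, rfl, rfl, rfl, rfl, rfl, rfl, rfl, rfl, rfl, rfl, rfl, rfl, -, -, -, -, -, -, -⟩ := exmu t z w a b A1 A2 T1 T2 v1 v2 v3 v4 0 0 0 0 0 0 0 (nn01 Ht) (nn01 Hz) (nn01 Hw) B.h_a B.h_b B.h_A1 B.h_A2 B.h_T1 B.h_T2 P13.h1 P24.h1 P34.h1 P34.h2 le_rfl le_rfl le_rfl le_rfl le_rfl le_rfl le_rfl
  suffices h : 0 ≤ E.ev μ (.s (.m (FcE (.v 2) (.v 3) (.v 5) (.a (.v 7) (.c 1)) (.v 11) (.a (.v 13) (.m (.c 2) (.v 7))) (.v 17) (.a (.v 19) (.v 29)) (.a (.v 23) (.v 31))) (FcE (.v 2) (.v 3) (.v 5) (.a (.v 7) (.c 1)) (.v 11) (.a (.v 13) (.m (.c 2) (.v 7))) (.v 17) (.a (.v 19) (.v 37)) (.a (.v 23) (.v 41)))) (.m (FcE (.v 2) (.v 3) (.v 5) (.v 7) (.v 11) (.v 13) (.v 17) (.v 19) (.v 23)) (FcE (.v 2) (.v 3) (.v 5) (.a (.a (.v 7) (.c 1)) (.c 1)) (.v 11) (.a (.a (.v 13) (.m (.c 2) (.v 7))) (.m (.c 2) (.a (.v 7) (.c 1))))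 (.v 17) (.a (.a (.v 19) (.v 29)) (.v 37)) (.a (.a (.v 23) (.v 31)) (.v 41))))) by
    simpa only [E.ev, F2E_ev, FcE_ev, GxE_ev] using h
  have h1 : Ok μ [] := trivial
  have hF : NN μ (baseF 7 11 13 17 19 23 ++ (pairF 29 31 11 17 ++ (pairF 29 37 11 17 ++ (pairF 31 41 11 17 ++ (pairF 37 41 11 17 ++ ([.m (.s (.v 17) (.c 2)) (.s (.v 17) (.c 2)), .m (.s (.v 29) (.v 31)) (.s (.v 29) (.v 31)), .m (.s (.v 29) (.v 37)) (.s (.v 29) (.v 37)), .m (.s (.v 29) (.v 41)) (.s (.v 29) (.v 41)), .m (.s (.v 31) (.v 37)) (.s (.v 31) (.v 37)), .m (.s (.v 31) (.v 41)) (.s (.v 31) (.v 41)), .m (.s (.v 37) (.v 41)) (.s (.v 37) (.v 41))])))))) := NN.app B.nn (NN.app P12.nn (NN.app P13.nn (NN.app P24.nn (NN.app P34.nn (⟨mul_self_nonneg _, mul_self_nonneg _, mul_self_nonneg _, mul_self_nonneg _, mul_self_nonneg _, mul_self_nonneg _, mul_self_nonneg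 _, trivial⟩)))))
  rcases Ht with Ht | Ht <;> rcases Hz with Hz | Hz <;> rcases Hw with Hw | Hw
  · exact sound hμ (L0 := [(2, .c 0), (3, .c 0), (5, .c 0)]) ⟨Ht, Hz, Hw, trivial⟩ h1 hF 0 [(121, 2, [0])] (by decide +kernel)
  · exact sound hμ (L0 := [(2, .c 0), (3, .c 0), (5, .c 1)]) ⟨Ht, Hz, Hw, trivial⟩ h1 hF 0 [(11, 4, [0]), (17, 2, [31]), (7, 4, [31]), (121, 2, [0]), (1, 2, [0]), (77, 4, [31]), (1, 4, [31]), (1, 2, [32]), (1, 4, [33])] (by decide +kernel)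
  · exact sound hμ (L0 := [(2, .c 0), (3, .c 1), (5, .c 0)]) ⟨Ht, Hz, Hw, trivial⟩ h1 hF 0 [(11, 4, [0]), (17, 2, [24]), (7, 4, [24]), (121, 2, [0]), (1, 2, [0]), (77, 4, [24]), (1, 4, [24]), (1, 2, [25]), (1, 4, [26])] (by decide +kernel)
  · exact sound hμ (L0 := [(2, .c 0), (3, .c 1), (5, .c 1)]) ⟨Ht, Hz, Hw, trivial⟩ h1 hF 11 [(259, 1, [29, 38]), (1, 12, [41]), (1, 24, [3, 38]), (1, 24, [3, 17]), (119, 4, [29]), (7, 72, [24]), (1, 24, [0, 15]), (217, 8, [31]), (121, 4, [29, 38]), (1, 24, [1, 17]), (77, 5, [29, 29]), (7, 4, [22, 22]), (847, 13, [29]), (847, 8, [22]), (259, 1, [15, 38]), (7, 4, [22, 29]), (77, 16, [15, 29]), (2387, 11, [38]), (7, 4, [3, 24]), (77, 3, [22, 22]), (287, 12, [31]), (10619, 1, [31]), (7, 20, [15, 29]), (2849, 4, [38]), (847, 24, [13]), (9583, 1, [31]), (539, 48, [15]), (77, 4, [22,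 29]), (7, 20, [3, 13]), (3751, 4, [38]), (4477, 4, [17]), (3509, 4, [17]), (121, 24, [0]), (11, 120, [0]), (11, 12, [31]), (121, 4, [22, 31]), (1, 12, [22, 17]), (1, 24, [17, 38]), (77, 12, [15, 22]), (77, 20, [3]), (7, 12, [29, 29]), (7, 8, [15, 15]), (847, 11, [15]), (1, 24, [0, 13]), (3157, 5, [31]), (253, 24, [13]), (3509, 4, [31]), (209, 24, [29]), (1, 12, [13, 38]), (11, 12, [24]), (121, 4, [13, 24]), (121, 4, [15, 24]), (1, 12, [29, 17]), (1, 12, [15, 38]), (121, 4, [29, 17]), (4961, 4, [24]), (4961, 4, [38]), (121, 4, [13, 31])] (by decide +kernel)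
  · exact sound hμ (L0 := [(2, .c 1), (3, .c 0), (5, .c 0)]) ⟨Ht, Hz, Hw, trivial⟩ h1 hF 0 [(121, 2, [0])] (by decide +kernel)
  · exact sound hμ (L0 := [(2, .c 1), (3, .c 0), (5, .c 1)]) ⟨Ht, Hz, Hw, trivial⟩ h1 hF 0 [(1, 4, [31]), (11, 8, [31]), (77, 4, [31]), (7, 4, [31]), (121, 2, [0]), (11, 4, [0]), (1, 2, [0]), (17, 2, [31])] (by decide +kernel)
  · exact sound hμ (L0 := [(2, .c 1), (3, .c 1), (5, .c 0)]) ⟨Ht, Hz, Hw, trivial⟩ h1 hF 0 [(1, 4, [24]), (11, 8, [24]), (77, 4, [24]), (7, 4, [24]), (121, 2, [0]), (11, 4, [0]), (1, 2, [0]), (17, 2, [24])] (by decide +kernel)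
  · exact sound hμ (L0 := [(2, .c 1), (3, .c 1), (5, .c 1)]) ⟨Ht, Hz, Hw, trivial⟩ h1 hF 0 [(121, 2, [0]), (7, 8, [31]), (77, 4, [24]), (77, 4, [31]), (7, 8, [24]), (11, 8, [0]), (1, 8, [0]), (17, 2, [31]), (11, 12, [24]), (1, 12, [31]), (17, 2, [24]), (11, 12, [31]), (1, 12, [24])] (by decide +kernel)

end Pool.Agent.H34.BM
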