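import Pool.Agent.H34.BN1

set_option autoImplicit false
set_option linter.unusedVariables false
set_option linter.unusedSimpArgs false

namespace Pool.Agent.H34.BM

theorem NR3x_tc (z w th b A2 v1 v2 : ℤ) (Hz : z = 0 ∨ z = 1) (Hw : w = 0 ∨ w = 1) (h_th : 0 ≤ th) (Pv : Pair v1 v2 b A2) :
    0 ≤ (((Gx (th + 1) 0 z w b A2 v1 v2) * (Gx th 1 z w b A2 v1 v2)) - ((Gx th 0 z w b A2 v1 v2) * (Gx (th + 1) 1 z w b A2 v1 v2))) := by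
  obtain ⟨μ, hμ, rfl, rfl, rfl, rfl, rfl, rfl, rfl, ebe, eA4, -, -, -, -, -, -, -, -, -, -, -⟩ := exmu z w th b A2 v1 v2 (b - v1 - v2) (A2 - 2*(v1+v2)*(b - v1 - v2) - 2*v1*v2) 0 0 0 0 0 0 0 0 0 0 0 (nn01 Hz) (nn01 Hw) h_th Pv.hb Pv.hA Pv.h1 Pv.h2 Pv.pb Pv.hc le_rfl le_rfl le_rfl le_rfl le_rfl le_rfl le_rfl le_rfl le_rfl le_rfl le_rfl
  suffices h : 0 ≤ E.ev μ (.s (.m (GxE (.a (.v 5) (.c 1)) (.c 0) (.v 2) (.v 3) (.v 7) (.v 11) (.v 13) (.v 17)) (GxE (.v 5) (.c 1) (.v 2) (.v 3) (.v 7) (.v 11) (.v 13) (.v 17))) (.m (GxE (.v 5) (.c 0) (.v 2) (.v 3) (.v 7) (.v 11) (.v 13) (.v 17)) (GxE (.a (.v 5) (.c 1)) (.c 1) (.v 2) (.v 3) (.v 7) (.v 11) (.v 13) (.v 17)))) by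
    simpa only [E.ev, F2E_ev, FcE_ev, GxE_ev] using h
  have h1 : Ok μ [(7, .a (.a (.v 19) (.v 13)) (.v 17)), (11, .a (.a (.v 23) (.m (.m (.c 2) (.a (.v 13) (.v 17))) (.v 19))) (.m (.m (.c 2) (.v 13)) (.v 17)))] := ⟨by simp only [E.ev]; rw [ebe]; ring, by simp only [E.ev]; rw [eA4, ebe]; ring, trivial⟩
  have hF : NN μ (pairF 13 17 7 11 ++ ([.m (.s (.v 13) (.v 17)) (.s (.v 13) (.v 17))])) := NN.app Pv.nn (⟨mul_self_nonneg _, trivial⟩)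
  rcases Hz with Hz | Hz <;> rcases Hw with Hw | Hw
  · exact sound hμ (L0 := [(2, .c 0), (3, .c 0)]) ⟨Hz, Hw, trivial⟩ h1 hF 0 [] (by decide +kernel)
  · exact sound hμ (L0 := [(2, .c 0), (3, .c 1)]) ⟨Hz, Hw, trivial⟩ h1 hF 0 [(1, 2, [6])] (by decide +kernel)
  · exact sound hμ (L0 := [(2, .c 1), (3, .c 0)]) ⟨Hz, Hw, trivial⟩ h1 hF 0 [(1, 2, [6])] (by decide +kernel)
  · exact sound hμ (L0 := [(2, .c 1), (3, .c 1)]) ⟨Hz, Hw, trivial⟩ h1 hF 0 [(1, 2, [7]), (1, 6, [6])] (by decide +kernel)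

theorem NR3x_tz (c w th b A2 v1 v2 : ℤ) (Hc : c = 0 ∨ c = 1) (Hw : w = 0 ∨ w = 1) (h_th : 0 ≤ th) (Pv : Pair v1 v2 b A2) :
    0 ≤ (((Gx (th + 1) c 0 w b A2 v1 v2) * (Gx th c 1 w b A2 v1 v2)) - ((Gx th c 0 w b A2 v1 v2) * (Gx (th + 1) c 1 w b A2 v1 v2))) := by
  obtain ⟨μ, hμ, rfl, rfl, rfl, rfl, rfl, rfl, rfl, ebe, eA4, -, -, -, -, -, -, -, -, -, -, -⟩ := exmu c w th b A2 v1 v2 (b - v1 - v2) (A2 - 2*(v1+v2)*(b - v1 - v2) - 2*v1*v2) 0 0 0 0 0 0 0 0 0 0 0 (nn01 Hc) (nn01 Hw) h_th Pv.hb Pv.hA Pv.h1 Pv.h2 Pv.pb Pv.hc le_rfl le_rfl le_rfl le_rfl le_rfl le_rfl le_rfl le_rfl le_rfl le_rfl le_rfl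
  suffices h : 0 ≤ E.ev μ (.s (.m (GxE (.a (.v 5) (.c 1)) (.v 2) (.c 0) (.v 3) (.v 7) (.v 11) (.v 13) (.v 17)) (GxE (.v 5) (.v 2) (.c 1) (.v 3) (.v 7) (.v 11) (.v 13) (.v 17))) (.m (GxE (.v 5) (.v 2) (.c 0) (.v 3) (.v 7) (.v 11) (.v 13) (.v 17)) (GxE (.a (.v 5) (.c 1)) (.v 2) (.c 1) (.v 3) (.v 7) (.v 11) (.v 13) (.v 17)))) by
    simpa only [E.ev, F2E_ev, FcE_ev, GxE_ev] using h
  have h1 : Ok μ [(7, .a (.a (.v 19) (.v 13)) (.v 17)), (11, .a (.a (.v 23) (.m (.m (.c 2) (.a (.v 13) (.v 17))) (.v 19))) (.m (.m (.c 2) (.v 13)) (.v 17)))] := ⟨by simp only [E.ev]; rw [ebe]; ring, by simp only [E.ev]; rw [eA4, ebe]; ring, trivial⟩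
  have hF : NN μ (pairF 13 17 7 11 ++ ([.m (.s (.v 13) (.v 17)) (.s (.v 13) (.v 17))])) := NN.app Pv.nn (⟨mul_self_nonneg _, trivial⟩)
  rcases Hc with Hc | Hc <;> rcases Hw with Hw | Hw
  · exact sound hμ (L0 := [(2, .c 0), (3, .c 0)]) ⟨Hc, Hw, trivial⟩ h1 hF 0 [] (by decide +kernel)
  · exact sound hμ (L0 := [(2, .c 0), (3, .c 1)]) ⟨Hc, Hw, trivial⟩ h1 hF 0 [(1, 2, [6])] (by decide +kernel)
  · exact sound hμ (L0 := [(2, .c 1), (3, .c 0)]) ⟨Hc, Hw, trivial⟩ h1 hF 0 [(1, 2, [6])] (by decide +kernel)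
  · exact sound hμ (L0 := [(2, .c 1), (3, .c 1)]) ⟨Hc, Hw, trivial⟩ h1 hF 0 [(1, 6, [6])] (by decide +kernel)

theorem NR3x_cz (w th b A2 v1 v2 : ℤ) (Hw : w = 0 ∨ w = 1) (h_th : 0 ≤ th) (Pv : Pair v1 v2 b A2) :
    0 ≤ (((Gx th 1 0 w b A2 v1 v2) * (Gx th 0 1 w b A2 v1 v2)) - ((Gx th 0 0 w b A2 v1 v2) * (Gx th 1 1 w b A2 v1 v2))) := by
  obtain ⟨μ, hμ, rfl, rfl, rfl, rfl, rfl, rfl, ebe, eA4, -, -, -, -, -, -, -, -, -, -, -, -⟩ := exmu w th b A2 v1 v2 (b - v1 - v2) (A2 - 2*(v1+v2)*(b - v1 - v2) - 2*v1*v2) 0 0 0 0 0 0 0 0 0 0 0 0 (nn01 Hw) h_th Pv.hb Pv.hA Pv.h1 Pv.h2 Pv.pb Pv.hc le_rfl le_rfl le_rfl le_rfl le_rfl le_rfl le_rfl le_rfl le_rfl le_rfl le_rfl le_rfl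
  suffices h : 0 ≤ E.ev μ (.s (.m (GxE (.v 3) (.c 1) (.c 0) (.v 2) (.v 5) (.v 7) (.v 11) (.v 13)) (GxE (.v 3) (.c 0) (.c 1) (.v 2) (.v 5) (.v 7) (.v 11) (.v 13))) (.m (GxE (.v 3) (.c 0) (.c 0) (.v 2) (.v 5) (.v 7) (.v 11) (.v 13)) (GxE (.v 3) (.c 1) (.c 1) (.v 2) (.v 5) (.v 7) (.v 11) (.v 13)))) by
    simpa only [E.ev, F2E_ev, FcE_ev, GxE_ev] using h
  have h1 : Ok μ [(5, .a (.a (.v 17) (.v 11)) (.v 13)), (7, .a (.a (.v 19) (.m (.m (.c 2) (.a (.v 11) (.v 13))) (.v 17))) (.m (.m (.c 2) (.v 11)) (.v 13)))] := ⟨by simp only [E.ev]; rw [ebe]; ring, by simp only [E.ev]; rw [eA4, ebe]; ring, trivial⟩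
  have hF : NN μ (pairF 11 13 5 7 ++ ([.m (.s (.v 11) (.v 13)) (.s (.v 11) (.v 13))])) := NN.app Pv.nn (⟨mul_self_nonneg _, trivial⟩)
  rcases Hw with Hw | Hw
  · exact sound hμ (L0 := [(2, .c 0)]) ⟨Hw, trivial⟩ h1 hF 0 [] (by decide +kernel)
  · exact sound hμ (L0 := [(2, .c 1)]) ⟨Hw, trivial⟩ h1 hF 0 [(1, 2, [6])] (by decide +kernel)

theorem NR3x_zw (c th b A2 v1 v2 : ℤ) (Hc : c = 0 ∨ c = 1) (h_th : 0 ≤ th) (Pv : Pair v1 v2 b A2) :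
    0 ≤ (((Gx th c 1 0 b A2 v1 v2) * (Gx th c 0 1 b A2 v1 v2)) - ((Gx th c 0 0 b A2 v1 v2) * (Gx th c 1 1 b A2 v1 v2))) := by
  obtain ⟨μ, hμ, rfl, rfl, rfl, rfl, rfl, rfl, ebe, eA4, -, -, -, -, -, -, -, -, -, -, -, -⟩ := exmu c th b A2 v1 v2 (b - v1 - v2) (A2 - 2*(v1+v2)*(b - v1 - v2) - 2*v1*v2) 0 0 0 0 0 0 0 0 0 0 0 0 (nn01 Hc) h_th Pv.hb Pv.hA Pv.h1 Pv.h2 Pv.pb Pv.hc le_rfl le_rfl le_rfl le_rfl le_rfl le_rfl le_rfl le_rfl le_rfl le_rfl le_rfl le_rfl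
  suffices h : 0 ≤ E.ev μ (.s (.m (GxE (.v 3) (.v 2) (.c 1) (.c 0) (.v 5) (.v 7) (.v 11) (.v 13)) (GxE (.v 3) (.v 2) (.c 0) (.c 1) (.v 5) (.v 7) (.v 11) (.v 13))) (.m (GxE (.v 3) (.v 2) (.c 0) (.c 0) (.v 5) (.v 7) (.v 11) (.v 13)) (GxE (.v 3) (.v 2) (.c 1) (.c 1) (.v 5) (.v 7) (.v 11) (.v 13)))) by
    simpa only [E.ev, F2E_ev, FcE_ev, GxE_ev] using h
  have h1 : Ok μ [(5, .a (.a (.v 17) (.v 11)) (.v 13)), (7, .a (.a (.v 19) (.m (.m (.c 2) (.a (.v 11) (.v 13))) (.v 17))) (.m (.m (.c 2) (.v 11)) (.v 13)))] := ⟨by simp only [E.ev]; rw [ebe]; ring, by simp only [E.ev]; rw [eA4, ebe]; ring, trivial⟩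
  have hF : NN μ (pairF 11 13 5 7 ++ ([.m (.s (.v 11) (.v 13)) (.s (.v 11) (.v 13))])) := NN.app Pv.nn (⟨mul_self_nonneg _, trivial⟩)
  rcases Hc with Hc | Hc
  · exact sound hμ (L0 := [(2, .c 0)]) ⟨Hc, trivial⟩ h1 hF 0 [] (by decide +kernel)
  · exact sound hμ (L0 := [(2, .c 1)]) ⟨Hc, trivial⟩ h1 hF 0 [(1, 2, [6])] (by decide +kernel)

theorem NR3x_ty (c z w th b A2 v1 v2 d1 d2 : ℤ) (Hc : c = 0 ∨ c = 1) (Hz : z = 0 ∨ z = 1) (Hw : w = 0 ∨ w = 1) (h_th : 0 ≤ th) (Pv : Pair v1 v2 b A2) (Hd : (d1 = 0 ∧ d2 = 0) ∨ (d1 = 1 ∧ d2 = 0 ∧ v1 = 0) ∨ (d1 = 0 ∧ d2 = 1 ∧ v2 = 0)) :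
    0 ≤ (((Gx (th + 1) c z w b A2 v1 v2) * (Gx th c z w (b + 1) (A2 + (2 * b)) (v1 + d1) (v2 + d2))) - ((Gx th c z w b A2 v1 v2) * (Gx (th + 1) c z w (b + 1) (A2 + (2 * b)) (v1 + d1) (v2 + d2)))) := by
  obtain ⟨μ, hμ, rfl, rfl, rfl, rfl, rfl, rfl, rfl, rfl, rfl, rfl, ebe, eA4, -, -, -, -, -, -, -, -⟩ := exmu c z w th b A2 v1 v2 d1 d2 (b - v1 - v2) (A2 - 2*(v1+v2)*(b - v1 - v2) - 2*v1*v2) 0 0 0 0 0 0 0 0 (nn01 Hc) (nn01 Hz) (nn01 Hw) h_th Pv.hb Pv.hA Pv.h1 Pv.h2 (by omega) (by omega) Pv.pb Pv.hc le_rfl le_rfl le_rfl le_rfl le_rfl le_rfl le_rfl le_rfl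
  suffices h : 0 ≤ E.ev μ (.s (.m (GxE (.a (.v 7) (.c 1)) (.v 2) (.v 3) (.v 5) (.v 11) (.v 13) (.v 17) (.v 19)) (GxE (.v 7) (.v 2) (.v 3) (.v 5) (.a (.v 11) (.c 1)) (.a (.v 13) (.m (.c 2) (.v 11))) (.a (.v 17) (.v 23)) (.a (.v 19) (.v 29)))) (.m (GxE (.v 7) (.v 2) (.v 3) (.v 5) (.v 11) (.v 13) (.v 17) (.v 19)) (GxE (.a (.v 7) (.c 1)) (.v 2) (.v 3) (.v 5) (.a (.v 11) (.c 1)) (.a (.v 13) (.m (.c 2) (.v 11))) (.a (.v 17) (.v 23)) (.a (.v 19) (.v 29))))) by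
    simpa only [E.ev, F2E_ev, FcE_ev, GxE_ev] using h
  have h1 : Ok μ [(11, .a (.a (.v 31) (.v 17)) (.v 19)), (13, .a (.a (.v 37) (.m (.m (.c 2) (.a (.v 17) (.v 19))) (.v 31))) (.m (.m (.c 2) (.v 17)) (.v 19)))] := ⟨by simp only [E.ev]; rw [ebe]; ring, by simp only [E.ev]; rw [eA4, ebe]; ring, trivial⟩
  have hF : NN μ (pairF 17 19 11 13 ++ ([.m (.s (.v 17) (.v 19)) (.s (.v 17) (.v 19))])) := NN.app Pv.nn (⟨mul_self_nonneg _, trivial⟩)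
  rcases Hd with ⟨Hd1, Hd2⟩ | ⟨Hd1, Hd2, Hv1⟩ | ⟨Hd1, Hd2, Hv2⟩ <;> rcases Hc with Hc | Hc <;> rcases Hz with Hz | Hz <;> rcases Hw with Hw | Hw
  · exact sound hμ (L0 := [(2, .c 0), (3, .c 0), (5, .c 0), (23, .c 0), (29, .c 0)]) ⟨Hc, Hz, Hw, Hd1, Hd2, trivial⟩ h1 hF 0 [] (by decide +kernel)
  · exact sound hμ (L0 := [(2, .c 0), (3, .c 0), (5, .c 1), (23, .c 0), (29, .c 0)]) ⟨Hc, Hz, Hw, Hd1, Hd2, trivial⟩ h1 hF 0 [(1, 2, [6])] (by decide +kernel)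
  · exact sound hμ (L0 := [(2, .c 0), (3, .c 1), (5, .c 0), (23, .c 0), (29, .c 0)]) ⟨Hc, Hz, Hw, Hd1, Hd2, trivial⟩ h1 hF 0 [(1, 2, [6])] (by decide +kernel)
  · exact sound hμ (L0 := [(2, .c 0), (3, .c 1), (5, .c 1), (23, .c 0), (29, .c 0)]) ⟨Hc, Hz, Hw, Hd1, Hd2, trivial⟩ h1 hF 0 [(1, 8, [6])] (by decide +kernel)
  · exact sound hμ (L0 := [(2, .c 1), (3, .c 0), (5, .c 0), (23, .c 0), (29, .c 0)]) ⟨Hc, Hz, Hw, Hd1, Hd2, trivial⟩ h1 hF 0 [(1, 2, [6])] (by decide +kernel)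
  · exact sound hμ (L0 := [(2, .c 1), (3, .c 0), (5, .c 1), (23, .c 0), (29, .c 0)]) ⟨Hc, Hz, Hw, Hd1, Hd2, trivial⟩ h1 hF 0 [(1, 8, [6])] (by decide +kernel)
  · exact sound hμ (L0 := [(2, .c 1), (3, .c 1), (5, .c 0), (23, .c 0), (29, .c 0)]) ⟨Hc, Hz, Hw, Hd1, Hd2, trivial⟩ h1 hF 0 [(1, 8, [6])] (by decide +kernel)
  · exact sound hμ (L0 := [(2, .c 1), (3, .c 1), (5, .c 1), (23, .c 0), (29, .c 0)]) ⟨Hc, Hz, Hw, Hd1, Hd2, trivial⟩ h1 hF 0 [(1, 18, [6])] (by decide +kernel)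
  · exact sound hμ (L0 := [(2, .c 0), (3, .c 0), (5, .c 0), (23, .c 1), (29, .c 0), (17, .c 0)]) ⟨Hc, Hz, Hw, Hd1, Hd2, Hv1, trivial⟩ h1 hF 0 [] (by decide +kernel)
  · exact sound hμ (L0 := [(2, .c 0), (3, .c 0), (5, .c 1), (23, .c 1), (29, .c 0), (17, .c 0)]) ⟨Hc, Hz, Hw, Hd1, Hd2, Hv1, trivial⟩ h1 hF 0 [(1, 2, [6])] (by decide +kernel)
  · exact sound hμ (L0 := [(2, .c 0), (3, .c 1), (5, .c 0), (23, .c 1), (29, .c 0), (17, .c 0)]) ⟨Hc, Hz, Hw, Hd1, Hd2, Hv1, trivial⟩ h1 hF 0 [(1, 2, [6])] (by decide +kernel)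
  · exact sound hμ (L0 := [(2, .c 0), (3, .c 1), (5, .c 1), (23, .c 1), (29, .c 0), (17, .c 0)]) ⟨Hc, Hz, Hw, Hd1, Hd2, Hv1, trivial⟩ h1 hF 0 [(1, 8, [6])] (by decide +kernel)
  · exact sound hμ (L0 := [(2, .c 1), (3, .c 0), (5, .c 0), (23, .c 1), (29, .c 0), (17, .c 0)]) ⟨Hc, Hz, Hw, Hd1, Hd2, Hv1, trivial⟩ h1 hF 0 [(1, 2, [6])] (by decide +kernel)
  · exact sound hμ (L0 := [(2, .c 1), (3, .c 0), (5, .c 1), (23, .c 1), (29, .c 0), (17, .c 0)]) ⟨Hc, Hz, Hw, Hd1, Hd2, Hv1, trivial⟩ h1 hF 0 [(1, 8, [6])] (by decide +kernel)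
  · exact sound hμ (L0 := [(2, .c 1), (3, .c 1), (5, .c 0), (23, .c 1), (29, .c 0), (17, .c 0)]) ⟨Hc, Hz, Hw, Hd1, Hd2, Hv1, trivial⟩ h1 hF 0 [(1, 8, [6])] (by decide +kernel)
  · exact sound hμ (L0 := [(2, .c 1), (3, .c 1), (5, .c 1), (23, .c 1), (29, .c 0), (17, .c 0)]) ⟨Hc, Hz, Hw, Hd1, Hd2, Hv1, trivial⟩ h1 hF 0 [(1, 18, [6])] (by decide +kernel)
  · exact sound hμ (L0 := [(2, .c 0), (3, .c 0), (5, .c 0), (23, .c 0), (29, .c 1), (19, .c 0)]) ⟨Hc, Hz, Hw, Hd1, Hd2, Hv2, trivial⟩ h1 hF 0 [] (by decide +kernel)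
  · exact sound hμ (L0 := [(2, .c 0), (3, .c 0), (5, .c 1), (23, .c 0), (29, .c 1), (19, .c 0)]) ⟨Hc, Hz, Hw, Hd1, Hd2, Hv2, trivial⟩ h1 hF 0 [(1, 2, [6])] (by decide +kernel)
  · exact sound hμ (L0 := [(2, .c 0), (3, .c 1), (5, .c 0), (23, .c 0), (29, .c 1), (19, .c 0)]) ⟨Hc, Hz, Hw, Hd1, Hd2, Hv2, trivial⟩ h1 hF 0 [(1, 2, [6])] (by decide +kernel)
  · exact sound hμ (L0 := [(2, .c 0), (3, .c 1), (5, .c 1), (23, .c 0), (29, .c 1), (19, .c 0)]) ⟨Hc, Hz, Hw, Hd1, Hd2, Hv2, trivial⟩ h1 hF 0 [(1, 8, [6])] (by decide +kernel)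
  · exact sound hμ (L0 := [(2, .c 1), (3, .c 0), (5, .c 0), (23, .c 0), (29, .c 1), (19, .c 0)]) ⟨Hc, Hz, Hw, Hd1, Hd2, Hv2, trivial⟩ h1 hF 0 [(1, 2, [6])] (by decide +kernel)
  · exact sound hμ (L0 := [(2, .c 1), (3, .c 0), (5, .c 1), (23, .c 0), (29, .c 1), (19, .c 0)]) ⟨Hc, Hz, Hw, Hd1, Hd2, Hv2, trivial⟩ h1 hF 0 [(1, 8, [6])] (by decide +kernel)
  · exact sound hμ (L0 := [(2, .c 1), (3, .c 1), (5, .c 0), (23, .c 0), (29, .c 1), (19, .c 0)]) ⟨Hc, Hz, Hw, Hd1, Hd2, Hv2, trivial⟩ h1 hF 0 [(1, 8, [6])] (by decide +kernel)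
  · exact sound hμ (L0 := [(2, .c 1), (3, .c 1), (5, .c 1), (23, .c 0), (29, .c 1), (19, .c 0)]) ⟨Hc, Hz, Hw, Hd1, Hd2, Hv2, trivial⟩ h1 hF 0 [(1, 18, [6])] (by decide +kernel)

theorem NR3x_cy (z w th b A2 v1 v2 d1 d2 : ℤ) (Hz : z = 0 ∨ z = 1) (Hw : w = 0 ∨ w = 1) (h_th : 0 ≤ th) (Pv : Pair v1 v2 b A2) (Hd : (d1 = 0 ∧ d2 = 0) ∨ (d1 = 1 ∧ d2 = 0 ∧ v1 = 0) ∨ (d1 = 0 ∧ d2 = 1 ∧ v2 = 0)) :
    0 ≤ (((Gx th 1 z w b A2 v1 v2) * (Gx th 0 z w (b + 1) (A2 + (2 * b)) (v1 + d1) (v2 + d2))) - ((Gx th 0 z w b A2 v1 v2) * (Gx th 1 z w (b + 1) (A2 + (2 * b)) (v1 + d1) (v2 + d2)))) := by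
  obtain ⟨μ, hμ, rfl, rfl, rfl, rfl, rfl, rfl, rfl, rfl, rfl, ebe, eA4, -, -, -, -, -, -, -, -, -⟩ := exmu z w th b A2 v1 v2 d1 d2 (b - v1 - v2) (A2 - 2*(v1+v2)*(b - v1 - v2) - 2*v1*v2) 0 0 0 0 0 0 0 0 0 (nn01 Hz) (nn01 Hw) h_th Pv.hb Pv.hA Pv.h1 Pv.h2 (by omega) (by omega) Pv.pb Pv.hc le_rfl le_rfl le_rfl le_rfl le_rfl le_rfl le_rfl le_rfl le_rfl
  suffices h : 0 ≤ E.ev μ (.s (.m (GxE (.v 5) (.c 1) (.v 2) (.v 3) (.v 7) (.v 11) (.v 13) (.v 17)) (GxE (.v 5) (.c 0) (.v 2) (.v 3) (.a (.v 7) (.c 1)) (.a (.v 11) (.m (.c 2) (.v 7))) (.a (.v 13) (.v 19)) (.a (.v 17) (.v 23)))) (.m (GxE (.v 5) (.c 0) (.v 2) (.v 3) (.v 7) (.v 11) (.v 13) (.v 17)) (GxE (.v 5) (.c 1) (.v 2) (.v 3) (.a (.v 7) (.c 1)) (.a (.v 11) (.m (.c 2) (.v 7))) (.a (.v 13) (.v 19)) (.a (.v 17) (.v 23))))) by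
    simpa only [E.ev, F2E_ev, FcE_ev, GxE_ev] using h
  have h1 : Ok μ [(7, .a (.a (.v 29) (.v 13)) (.v 17)), (11, .a (.a (.v 31) (.m (.m (.c 2) (.a (.v 13) (.v 17))) (.v 29))) (.m (.m (.c 2) (.v 13)) (.v 17)))] := ⟨by simp only [E.ev]; rw [ebe]; ring, by simp only [E.ev]; rw [eA4, ebe]; ring, trivial⟩
  have hF : NN μ (pairF 13 17 7 11 ++ ([.m (.s (.v 13) (.v 17)) (.s (.v 13) (.v 17))])) := NN.app Pv.nn (⟨mul_self_nonneg _, trivial⟩)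
  rcases Hd with ⟨Hd1, Hd2⟩ | ⟨Hd1, Hd2, Hv1⟩ | ⟨Hd1, Hd2, Hv2⟩ <;> rcases Hz with Hz | Hz <;> rcases Hw with Hw | Hw
  · exact sound hμ (L0 := [(2, .c 0), (3, .c 0), (19, .c 0), (23, .c 0)]) ⟨Hz, Hw, Hd1, Hd2, trivial⟩ h1 hF 0 [] (by decide +kernel)
  · exact sound hμ (L0 := [(2, .c 0), (3, .c 1), (19, .c 0), (23, .c 0)]) ⟨Hz, Hw, Hd1, Hd2, trivial⟩ h1 hF 0 [(1, 2, [6])] (by decide +kernel)
  · exact sound hμ (L0 := [(2, .c 1), (3, .c 0), (19, .c 0), (23, .c 0)]) ⟨Hz, Hw, Hd1, Hd2, trivial⟩ h1 hF 0 [(1, 2, [6])] (by decide +kernel)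
  · exact sound hμ (L0 := [(2, .c 1), (3, .c 1), (19, .c 0), (23, .c 0)]) ⟨Hz, Hw, Hd1, Hd2, trivial⟩ h1 hF 0 [(1, 6, [6]), (1, 2, [7])] (by decide +kernel)
  · exact sound hμ (L0 := [(2, .c 0), (3, .c 0), (19, .c 1), (23, .c 0), (13, .c 0)]) ⟨Hz, Hw, Hd1, Hd2, Hv1, trivial⟩ h1 hF 0 [] (by decide +kernel)
  · exact sound hμ (L0 := [(2, .c 0), (3, .c 1), (19, .c 1), (23, .c 0), (13, .c 0)]) ⟨Hz, Hw, Hd1, Hd2, Hv1, trivial⟩ h1 hF 0 [(1, 2, [6])] (by decide +kernel)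
  · exact sound hμ (L0 := [(2, .c 1), (3, .c 0), (19, .c 1), (23, .c 0), (13, .c 0)]) ⟨Hz, Hw, Hd1, Hd2, Hv1, trivial⟩ h1 hF 0 [] (by decide +kernel)
  · exact sound hμ (L0 := [(2, .c 1), (3, .c 1), (19, .c 1), (23, .c 0), (13, .c 0)]) ⟨Hz, Hw, Hd1, Hd2, Hv1, trivial⟩ h1 hF 0 [(1, 2, [6])] (by decide +kernel)
  · exact sound hμ (L0 := [(2, .c 0), (3, .c 0), (19, .c 0), (23, .c 1), (17, .c 0)]) ⟨Hz, Hw, Hd1, Hd2, Hv2, trivial⟩ h1 hF 0 [] (by decide +kernel)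
  · exact sound hμ (L0 := [(2, .c 0), (3, .c 1), (19, .c 0), (23, .c 1), (17, .c 0)]) ⟨Hz, Hw, Hd1, Hd2, Hv2, trivial⟩ h1 hF 0 [] (by decide +kernel)
  · exact sound hμ (L0 := [(2, .c 1), (3, .c 0), (19, .c 0), (23, .c 1), (17, .c 0)]) ⟨Hz, Hw, Hd1, Hd2, Hv2, trivial⟩ h1 hF 0 [(1, 2, [6])] (by decide +kernel)
  · exact sound hμ (L0 := [(2, .c 1), (3, .c 1), (19, .c 0), (23, .c 1), (17, .c 0)]) ⟨Hz, Hw, Hd1, Hd2, Hv2, trivial⟩ h1 hF 0 [(1, 2, [6])] (by decide +kernel)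

theorem NR3x_zy (c w th b A2 v1 v2 d1 d2 : ℤ) (Hc : c = 0 ∨ c = 1) (Hw : w = 0 ∨ w = 1) (h_th : 0 ≤ th) (Pv : Pair v1 v2 b A2) (Hd : (d1 = 0 ∧ d2 = 0) ∨ (d1 = 1 ∧ d2 = 0 ∧ v1 = 0) ∨ (d1 = 0 ∧ d2 = 1 ∧ v2 = 0)) :
    0 ≤ (((Gx th c 1 w b A2 v1 v2) * (Gx th c 0 w (b + 1) (A2 + (2 * b)) (v1 + d1) (v2 + d2))) - ((Gx th c 0 w b A2 v1 v2) * (Gx th c 1 w (b + 1) (A2 + (2 * b)) (v1 + d1) (v2 + d2)))) := by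
  obtain ⟨μ, hμ, rfl, rfl, rfl, rfl, rfl, rfl, rfl, rfl, rfl, ebe, eA4, -, -, -, -, -, -, -, -, -⟩ := exmu c w th b A2 v1 v2 d1 d2 (b - v1 - v2) (A2 - 2*(v1+v2)*(b - v1 - v2) - 2*v1*v2) 0 0 0 0 0 0 0 0 0 (nn01 Hc) (nn01 Hw) h_th Pv.hb Pv.hA Pv.h1 Pv.h2 (by omega) (by omega) Pv.pb Pv.hc le_rfl le_rfl le_rfl le_rfl le_rfl le_rfl le_rfl le_rfl le_rfl
  suffices h : 0 ≤ E.ev μ (.s (.m (GxE (.v 5) (.v 2) (.c 1) (.v 3) (.v 7) (.v 11) (.v 13) (.v 17)) (GxE (.v 5) (.v 2) (.c 0) (.v 3) (.a (.v 7) (.c 1)) (.a (.v 11) (.m (.c 2) (.v 7))) (.a (.v 13) (.v 19)) (.a (.v 17) (.v 23)))) (.m (GxE (.v 5) (.v 2) (.c 0) (.v 3) (.v 7) (.v 11) (.v 13) (.v 17)) (GxE (.v 5) (.v 2) (.c 1) (.v 3) (.a (.v 7) (.c 1)) (.a (.v 11) (.m (.c 2) (.v 7))) (.a (.v 13) (.v 19)) (.a (.v 17) (.v 23))))) by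
    simpa only [E.ev, F2E_ev, FcE_ev, GxE_ev] using h
  have h1 : Ok μ [(7, .a (.a (.v 29) (.v 13)) (.v 17)), (11, .a (.a (.v 31) (.m (.m (.c 2) (.a (.v 13) (.v 17))) (.v 29))) (.m (.m (.c 2) (.v 13)) (.v 17)))] := ⟨by simp only [E.ev]; rw [ebe]; ring, by simp only [E.ev]; rw [eA4, ebe]; ring, trivial⟩
  have hF : NN μ (pairF 13 17 7 11 ++ ([.m (.s (.v 13) (.v 17)) (.s (.v 13) (.v 17))])) := NN.app Pv.nn (⟨mul_self_nonneg _, trivial⟩)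
  rcases Hd with ⟨Hd1, Hd2⟩ | ⟨Hd1, Hd2, Hv1⟩ | ⟨Hd1, Hd2, Hv2⟩ <;> rcases Hc with Hc | Hc <;> rcases Hw with Hw | Hw
  · exact sound hμ (L0 := [(2, .c 0), (3, .c 0), (19, .c 0), (23, .c 0)]) ⟨Hc, Hw, Hd1, Hd2, trivial⟩ h1 hF 0 [] (by decide +kernel)
  · exact sound hμ (L0 := [(2, .c 0), (3, .c 1), (19, .c 0), (23, .c 0)]) ⟨Hc, Hw, Hd1, Hd2, trivial⟩ h1 hF 0 [(1, 2, [6])] (by decide +kernel)
  · exact sound hμ (L0 := [(2, .c 1), (3, .c 0), (19, .c 0), (23, .c 0)]) ⟨Hc, Hw, Hd1, Hd2, trivial⟩ h1 hF 0 [(1, 2, [6])] (by decide +kernel)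
  · exact sound hμ (L0 := [(2, .c 1), (3, .c 1), (19, .c 0), (23, .c 0)]) ⟨Hc, Hw, Hd1, Hd2, trivial⟩ h1 hF 0 [(1, 6, [6])] (by decide +kernel)
  · exact sound hμ (L0 := [(2, .c 0), (3, .c 0), (19, .c 1), (23, .c 0), (13, .c 0)]) ⟨Hc, Hw, Hd1, Hd2, Hv1, trivial⟩ h1 hF 0 [] (by decide +kernel)
  · exact sound hμ (L0 := [(2, .c 0), (3, .c 1), (19, .c 1), (23, .c 0), (13, .c 0)]) ⟨Hc, Hw, Hd1, Hd2, Hv1, trivial⟩ h1 hF 0 [(1, 2, [6])] (by decide +kernel)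
  · exact sound hμ (L0 := [(2, .c 1), (3, .c 0), (19, .c 1), (23, .c 0), (13, .c 0)]) ⟨Hc, Hw, Hd1, Hd2, Hv1, trivial⟩ h1 hF 0 [] (by decide +kernel)
  · exact sound hμ (L0 := [(2, .c 1), (3, .c 1), (19, .c 1), (23, .c 0), (13, .c 0)]) ⟨Hc, Hw, Hd1, Hd2, Hv1, trivial⟩ h1 hF 0 [(1, 2, [6])] (by decide +kernel)
  · exact sound hμ (L0 := [(2, .c 0), (3, .c 0), (19, .c 0), (23, .c 1), (17, .c 0)]) ⟨Hc, Hw, Hd1, Hd2, Hv2, trivial⟩ h1 hF 0 [] (by decide +kernel)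
  · exact sound hμ (L0 := [(2, .c 0), (3, .c 1), (19, .c 0), (23, .c 1), (17, .c 0)]) ⟨Hc, Hw, Hd1, Hd2, Hv2, trivial⟩ h1 hF 0 [(1, 2, [6])] (by decide +kernel)
  · exact sound hμ (L0 := [(2, .c 1), (3, .c 0), (19, .c 0), (23, .c 1), (17, .c 0)]) ⟨Hc, Hw, Hd1, Hd2, Hv2, trivial⟩ h1 hF 0 [(1, 2, [6])] (by decide +kernel)
  · exact sound hμ (L0 := [(2, .c 1), (3, .c 1), (19, .c 0), (23, .c 1), (17, .c 0)]) ⟨Hc, Hw, Hd1, Hd2, Hv2, trivial⟩ h1 hF 0 [(1, 8, [6])] (by decide +kernel)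

theorem NR3x_yy (c z w th b A2 v1 v2 d1 d2 e1 e2 : ℤ) (Hc : c = 0 ∨ c = 1) (Hz : z = 0 ∨ z = 1) (Hw : w = 0 ∨ w = 1) (h_th : 0 ≤ th) (Pv : Pair v1 v2 b A2) (Hd : (d1 = 0 ∧ d2 = 0 ∧ e1 = 0 ∧ e2 = 0) ∨ (d1 = 0 ∧ d2 = 0 ∧ e1 = 1 ∧ e2 = 0 ∧ v1 = 0) ∨ (d1 = 0 ∧ d2 = 0 ∧ e1 = 0 ∧ e2 = 1 ∧ v2 = 0) ∨ (d1 = 1 ∧ d2 = 0 ∧ e1 = 0 ∧ e2 = 0 ∧ v1 = 0) ∨ (d1 = 1 ∧ d2 = 0 ∧ e1 = 0 ∧ e2 = 1 ∧ v1 = 0 ∧ v2 = 0) ∨ (d1 = 0 ∧ d2 = 1 ∧ e1 = 0 ∧ e2 = 0 ∧ v2 = 0) ∨ (d1 = 0 ∧ d2 = 1 ∧ e1 = 1 ∧ e2 = 0 ∧ v1 = 0 ∧ v2 = 0)) :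
    0 ≤ (((Gx th c z w (b + 1) (A2 + (2 * b)) (v1 + d1) (v2 + d2)) * (Gx th c z w (b + 1) (A2 + (2 * b)) (v1 + e1) (v2 + e2))) - ((Gx th c z w b A2 v1 v2) * (Gx th c z w ((b + 1) + 1) ((A2 + (2 * b)) + (2 * (b + 1))) ((v1 + d1) + e1) ((v2 + d2) + e2)))) := by
  obtain ⟨μ, hμ, rfl, rfl, rfl, rfl, rfl, rfl, rfl, rfl, rfl, rfl, rfl, rfl, ebe, eA4, -, -, -, -, -, -⟩ := exmu c z w th b A2 v1 v2 d1 d2 e1 e2 (b - v1 - v2) (A2 - 2*(v1+v2)*(b - v1 - v2) - 2*v1*v2) 0 0 0 0 0 0 (nn01 Hc) (nn01 Hz) (nn01 Hw) h_th Pv.hb Pv.hA Pv.h1 Pv.h2 (by omega) (by omega) (by omega) (by omega) Pv.pb Pv.hc le_rfl le_rfl le_rfl le_rfl le_rfl le_rfl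
  suffices h : 0 ≤ E.ev μ (.s (.m (GxE (.v 7) (.v 2) (.v 3) (.v 5) (.a (.v 11) (.c 1)) (.a (.v 13) (.m (.c 2) (.v 11))) (.a (.v 17) (.v 23)) (.a (.v 19) (.v 29))) (GxE (.v 7) (.v 2) (.v 3) (.v 5) (.a (.v 11) (.c 1)) (.a (.v 13) (.m (.c 2) (.v 11))) (.a (.v 17) (.v 31)) (.a (.v 19) (.v 37)))) (.m (GxE (.v 7) (.v 2) (.v 3) (.v 5) (.v 11) (.v 13) (.v 17) (.v 19)) (GxE (.v 7) (.v 2) (.v 3) (.v 5) (.a (.a (.v 11) (.c 1)) (.c 1)) (.a (.a (.v 13) (.m (.c 2) (.v 11))) (.m (.c 2) (.a (.v 11) (.c 1)))) (.a (.a (.v 17) (.v 23)) (.v 31)) (.a (.a (.v 19) (.v 29)) (.v 37))))) by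
    simpa only [E.ev, F2E_ev, FcE_ev, GxE_ev] using h
  have h1 : Ok μ [(11, .a (.a (.v 41) (.v 17)) (.v 19)), (13, .a (.a (.v 43) (.m (.m (.c 2) (.a (.v 17) (.v 19))) (.v 41))) (.m (.m (.c 2) (.v 17)) (.v 19)))] := ⟨by simp only [E.ev]; rw [ebe]; ring, by simp only [E.ev]; rw [eA4, ebe]; ring, trivial⟩
  have hF : NN μ (pairF 17 19 11 13 ++ ([.m (.s (.v 17) (.v 19)) (.s (.v 17) (.v 19))])) := NN.app Pv.nn (⟨mul_self_nonneg _, trivial⟩)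
  rcases Hd with ⟨Hd1, Hd2, He1, He2⟩ | ⟨Hd1, Hd2, He1, He2, Hv1⟩ | ⟨Hd1, Hd2, He1, He2, Hv2⟩ | ⟨Hd1, Hd2, He1, He2, Hv1⟩ | ⟨Hd1, Hd2, He1, He2, Hv1, Hv2⟩ | ⟨Hd1, Hd2, He1, He2, Hv2⟩ | ⟨Hd1, Hd2, He1, He2, Hv1, Hv2⟩ <;> rcases Hc with Hc | Hc <;> rcases Hz with Hz | Hz <;> rcases Hw with Hw | Hw
  · exact sound hμ (L0 := [(2, .c 0), (3, .c 0), (5, .c 0), (23, .c 0), (29, .c 0), (31, .c 0), (37, .c 0)]) ⟨Hc, Hz, Hw, Hd1, Hd2, He1, He2, trivial⟩ h1 hF 0 [] (by decide +kernel)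
  · exact sound hμ (L0 := [(2, .c 0), (3, .c 0), (5, .c 1), (23, .c 0), (29, .c 0), (31, .c 0), (37, .c 0)]) ⟨Hc, Hz, Hw, Hd1, Hd2, He1, He2, trivial⟩ h1 hF 0 [(1, 2, [6])] (by decide +kernel)
  · exact sound hμ (L0 := [(2, .c 0), (3, .c 1), (5, .c 0), (23, .c 0), (29, .c 0), (31, .c 0), (37, .c 0)]) ⟨Hc, Hz, Hw, Hd1, Hd2, He1, He2, trivial⟩ h1 hF 0 [(1, 2, [6])] (by decide +kernel)
  · exact sound hμ (L0 := [(2, .c 0), (3, .c 1), (5, .c 1), (23, .c 0), (29, .c 0), (31, .c 0), (37, .c 0)]) ⟨Hc, Hz, Hw, Hd1, Hd2, He1, He2, trivial⟩ h1 hF 0 [(1, 8, [6])] (by decide +kernel)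
  · exact sound hμ (L0 := [(2, .c 1), (3, .c 0), (5, .c 0), (23, .c 0), (29, .c 0), (31, .c 0), (37, .c 0)]) ⟨Hc, Hz, Hw, Hd1, Hd2, He1, He2, trivial⟩ h1 hF 0 [(1, 2, [6])] (by decide +kernel)
  · exact sound hμ (L0 := [(2, .c 1), (3, .c 0), (5, .c 1), (23, .c 0), (29, .c 0), (31, .c 0), (37, .c 0)]) ⟨Hc, Hz, Hw, Hd1, Hd2, He1, He2, trivial⟩ h1 hF 0 [(1, 8, [6])] (by decide +kernel)
  · exact sound hμ (L0 := [(2, .c 1), (3, .c 1), (5, .c 0), (23, .c 0), (29, .c 0), (31, .c 0), (37, .c 0)]) ⟨Hc, Hz, Hw, Hd1, Hd2, He1, He2, trivial⟩ h1 hF 0 [(1, 8, [6])] (by decide +kernel)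
  · exact sound hμ (L0 := [(2, .c 1), (3, .c 1), (5, .c 1), (23, .c 0), (29, .c 0), (31, .c 0), (37, .c 0)]) ⟨Hc, Hz, Hw, Hd1, Hd2, He1, He2, trivial⟩ h1 hF 0 [(1, 18, [6])] (by decide +kernel)
  · exact sound hμ (L0 := [(2, .c 0), (3, .c 0), (5, .c 0), (23, .c 0), (29, .c 0), (31, .c 1), (37, .c 0), (17, .c 0)]) ⟨Hc, Hz, Hw, Hd1, Hd2, He1, He2, Hv1, trivial⟩ h1 hF 0 [] (by decide +kernel)
  · exact sound hμ (L0 := [(2, .c 0), (3, .c 0), (5, .c 1), (23, .c 0), (29, .c 0), (31, .c 1), (37, .c 0), (17, .c 0)]) ⟨Hc, Hz, Hw, Hd1, Hd2, He1, He2, Hv1, trivial⟩ h1 hF 0 [(1, 2, [6])] (by decide +kernel)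
  · exact sound hμ (L0 := [(2, .c 0), (3, .c 1), (5, .c 0), (23, .c 0), (29, .c 0), (31, .c 1), (37, .c 0), (17, .c 0)]) ⟨Hc, Hz, Hw, Hd1, Hd2, He1, He2, Hv1, trivial⟩ h1 hF 0 [(1, 2, [6])] (by decide +kernel)
  · exact sound hμ (L0 := [(2, .c 0), (3, .c 1), (5, .c 1), (23, .c 0), (29, .c 0), (31, .c 1), (37, .c 0), (17, .c 0)]) ⟨Hc, Hz, Hw, Hd1, Hd2, He1, He2, Hv1, trivial⟩ h1 hF 0 [(1, 8, [6])] (by decide +kernel)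
  · exact sound hμ (L0 := [(2, .c 1), (3, .c 0), (5, .c 0), (23, .c 0), (29, .c 0), (31, .c 1), (37, .c 0), (17, .c 0)]) ⟨Hc, Hz, Hw, Hd1, Hd2, He1, He2, Hv1, trivial⟩ h1 hF 0 [(1, 2, [6])] (by decide +kernel)
  · exact sound hμ (L0 := [(2, .c 1), (3, .c 0), (5, .c 1), (23, .c 0), (29, .c 0), (31, .c 1), (37, .c 0), (17, .c 0)]) ⟨Hc, Hz, Hw, Hd1, Hd2, He1, He2, Hv1, trivial⟩ h1 hF 0 [(1, 8, [6])] (by decide +kernel)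
  · exact sound hμ (L0 := [(2, .c 1), (3, .c 1), (5, .c 0), (23, .c 0), (29, .c 0), (31, .c 1), (37, .c 0), (17, .c 0)]) ⟨Hc, Hz, Hw, Hd1, Hd2, He1, He2, Hv1, trivial⟩ h1 hF 0 [(1, 8, [6])] (by decide +kernel)
  · exact sound hμ (L0 := [(2, .c 1), (3, .c 1), (5, .c 1), (23, .c 0), (29, .c 0), (31, .c 1), (37, .c 0), (17, .c 0)]) ⟨Hc, Hz, Hw, Hd1, Hd2, He1, He2, Hv1, trivial⟩ h1 hF 0 [(1, 18, [6])] (by decide +kernel)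
  · exact sound hμ (L0 := [(2, .c 0), (3, .c 0), (5, .c 0), (23, .c 0), (29, .c 0), (31, .c 0), (37, .c 1), (19, .c 0)]) ⟨Hc, Hz, Hw, Hd1, Hd2, He1, He2, Hv2, trivial⟩ h1 hF 0 [] (by decide +kernel)
  · exact sound hμ (L0 := [(2, .c 0), (3, .c 0), (5, .c 1), (23, .c 0), (29, .c 0), (31, .c 0), (37, .c 1), (19, .c 0)]) ⟨Hc, Hz, Hw, Hd1, Hd2, He1, He2, Hv2, trivial⟩ h1 hF 0 [(1, 2, [6])] (by decide +kernel)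
  · exact sound hμ (L0 := [(2, .c 0), (3, .c 1), (5, .c 0), (23, .c 0), (29, .c 0), (31, .c 0), (37, .c 1), (19, .c 0)]) ⟨Hc, Hz, Hw, Hd1, Hd2, He1, He2, Hv2, trivial⟩ h1 hF 0 [(1, 2, [6])] (by decide +kernel)
  · exact sound hμ (L0 := [(2, .c 0), (3, .c 1), (5, .c 1), (23, .c 0), (29, .c 0), (31, .c 0), (37, .c 1), (19, .c 0)]) ⟨Hc, Hz, Hw, Hd1, Hd2, He1, He2, Hv2, trivial⟩ h1 hF 0 [(1, 8, [6])] (by decide +kernel)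
  · exact sound hμ (L0 := [(2, .c 1), (3, .c 0), (5, .c 0), (23, .c 0), (29, .c 0), (31, .c 0), (37, .c 1), (19, .c 0)]) ⟨Hc, Hz, Hw, Hd1, Hd2, He1, He2, Hv2, trivial⟩ h1 hF 0 [(1, 2, [6])] (by decide +kernel)
  · exact sound hμ (L0 := [(2, .c 1), (3, .c 0), (5, .c 1), (23, .c 0), (29, .c 0), (31, .c 0), (37, .c 1), (19, .c 0)]) ⟨Hc, Hz, Hw, Hd1, Hd2, He1, He2, Hv2, trivial⟩ h1 hF 0 [(1, 8, [6])] (by decide +kernel)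
  · exact sound hμ (L0 := [(2, .c 1), (3, .c 1), (5, .c 0), (23, .c 0), (29, .c 0), (31, .c 0), (37, .c 1), (19, .c 0)]) ⟨Hc, Hz, Hw, Hd1, Hd2, He1, He2, Hv2, trivial⟩ h1 hF 0 [(1, 8, [6])] (by decide +kernel)
  · exact sound hμ (L0 := [(2, .c 1), (3, .c 1), (5, .c 1), (23, .c 0), (29, .c 0), (31, .c 0), (37, .c 1), (19, .c 0)]) ⟨Hc, Hz, Hw, Hd1, Hd2, He1, He2, Hv2, trivial⟩ h1 hF 0 [(1, 18, [6])] (by decide +kernel)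
  · exact sound hμ (L0 := [(2, .c 0), (3, .c 0), (5, .c 0), (23, .c 1), (29, .c 0), (31, .c 0), (37, .c 0), (17, .c 0)]) ⟨Hc, Hz, Hw, Hd1, Hd2, He1, He2, Hv1, trivial⟩ h1 hF 0 [] (by decide +kernel)
  · exact sound hμ (L0 := [(2, .c 0), (3, .c 0), (5, .c 1), (23, .c 1), (29, .c 0), (31, .c 0), (37, .c 0), (17, .c 0)]) ⟨Hc, Hz, Hw, Hd1, Hd2, He1, He2, Hv1, trivial⟩ h1 hF 0 [(1, 2, [6])] (by decide +kernel)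
  · exact sound hμ (L0 := [(2, .c 0), (3, .c 1), (5, .c 0), (23, .c 1), (29, .c 0), (31, .c 0), (37, .c 0), (17, .c 0)]) ⟨Hc, Hz, Hw, Hd1, Hd2, He1, He2, Hv1, trivial⟩ h1 hF 0 [(1, 2, [6])] (by decide +kernel)
  · exact sound hμ (L0 := [(2, .c 0), (3, .c 1), (5, .c 1), (23, .c 1), (29, .c 0), (31, .c 0), (37, .c 0), (17, .c 0)]) ⟨Hc, Hz, Hw, Hd1, Hd2, He1, He2, Hv1, trivial⟩ h1 hF 0 [(1, 8, [6])] (by decide +kernel)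
  · exact sound hμ (L0 := [(2, .c 1), (3, .c 0), (5, .c 0), (23, .c 1), (29, .c 0), (31, .c 0), (37, .c 0), (17, .c 0)]) ⟨Hc, Hz, Hw, Hd1, Hd2, He1, He2, Hv1, trivial⟩ h1 hF 0 [(1, 2, [6])] (by decide +kernel)
  · exact sound hμ (L0 := [(2, .c 1), (3, .c 0), (5, .c 1), (23, .c 1), (29, .c 0), (31, .c 0), (37, .c 0), (17, .c 0)]) ⟨Hc, Hz, Hw, Hd1, Hd2, He1, He2, Hv1, trivial⟩ h1 hF 0 [(1, 8, [6])] (by decide +kernel)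
  · exact sound hμ (L0 := [(2, .c 1), (3, .c 1), (5, .c 0), (23, .c 1), (29, .c 0), (31, .c 0), (37, .c 0), (17, .c 0)]) ⟨Hc, Hz, Hw, Hd1, Hd2, He1, He2, Hv1, trivial⟩ h1 hF 0 [(1, 8, [6])] (by decide +kernel)
  · exact sound hμ (L0 := [(2, .c 1), (3, .c 1), (5, .c 1), (23, .c 1), (29, .c 0), (31, .c 0), (37, .c 0), (17, .c 0)]) ⟨Hc, Hz, Hw, Hd1, Hd2, He1, He2, Hv1, trivial⟩ h1 hF 0 [(1, 18, [6])] (by decide +kernel)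
  · exact sound hμ (L0 := [(2, .c 0), (3, .c 0), (5, .c 0), (23, .c 1), (29, .c 0), (31, .c 0), (37, .c 1), (17, .c 0), (19, .c 0)]) ⟨Hc, Hz, Hw, Hd1, Hd2, He1, He2, Hv1, Hv2, trivial⟩ h1 hF 0 [] (by decide +kernel)
  · exact sound hμ (L0 := [(2, .c 0), (3, .c 0), (5, .c 1), (23, .c 1), (29, .c 0), (31, .c 0), (37, .c 1), (17, .c 0), (19, .c 0)]) ⟨Hc, Hz, Hw, Hd1, Hd2, He1, He2, Hv1, Hv2, trivial⟩ h1 hF 0 [(1, 2, [6])] (by decide +kernel)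
  · exact sound hμ (L0 := [(2, .c 0), (3, .c 1), (5, .c 0), (23, .c 1), (29, .c 0), (31, .c 0), (37, .c 1), (17, .c 0), (19, .c 0)]) ⟨Hc, Hz, Hw, Hd1, Hd2, He1, He2, Hv1, Hv2, trivial⟩ h1 hF 0 [(1, 2, [6])] (by decide +kernel)
  · exact sound hμ (L0 := [(2, .c 0), (3, .c 1), (5, .c 1), (23, .c 1), (29, .c 0), (31, .c 0), (37, .c 1), (17, .c 0), (19, .c 0)]) ⟨Hc, Hz, Hw, Hd1, Hd2, He1, He2, Hv1, Hv2, trivial⟩ h1 hF 0 [(1, 8, [6])] (by decide +kernel)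
  · exact sound hμ (L0 := [(2, .c 1), (3, .c 0), (5, .c 0), (23, .c 1), (29, .c 0), (31, .c 0), (37, .c 1), (17, .c 0), (19, .c 0)]) ⟨Hc, Hz, Hw, Hd1, Hd2, He1, He2, Hv1, Hv2, trivial⟩ h1 hF 0 [(1, 2, [6])] (by decide +kernel)
  · exact sound hμ (L0 := [(2, .c 1), (3, .c 0), (5, .c 1), (23, .c 1), (29, .c 0), (31, .c 0), (37, .c 1), (17, .c 0), (19, .c 0)]) ⟨Hc, Hz, Hw, Hd1, Hd2, He1, He2, Hv1, Hv2, trivial⟩ h1 hF 0 [(1, 8, [6])] (by decide +kernel)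
  · exact sound hμ (L0 := [(2, .c 1), (3, .c 1), (5, .c 0), (23, .c 1), (29, .c 0), (31, .c 0), (37, .c 1), (17, .c 0), (19, .c 0)]) ⟨Hc, Hz, Hw, Hd1, Hd2, He1, He2, Hv1, Hv2, trivial⟩ h1 hF 0 [(1, 8, [6])] (by decide +kernel)
  · exact sound hμ (L0 := [(2, .c 1), (3, .c 1), (5, .c 1), (23, .c 1), (29, .c 0), (31, .c 0), (37, .c 1), (17, .c 0), (19, .c 0)]) ⟨Hc, Hz, Hw, Hd1, Hd2, He1, He2, Hv1, Hv2, trivial⟩ h1 hF 0 [(1, 18, [6])] (by decide +kernel)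
  · exact sound hμ (L0 := [(2, .c 0), (3, .c 0), (5, .c 0), (23, .c 0), (29, .c 1), (31, .c 0), (37, .c 0), (19, .c 0)]) ⟨Hc, Hz, Hw, Hd1, Hd2, He1, He2, Hv2, trivial⟩ h1 hF 0 [] (by decide +kernel)
  · exact sound hμ (L0 := [(2, .c 0), (3, .c 0), (5, .c 1), (23, .c 0), (29, .c 1), (31, .c 0), (37, .c 0), (19, .c 0)]) ⟨Hc, Hz, Hw, Hd1, Hd2, He1, He2, Hv2, trivial⟩ h1 hF 0 [(1, 2, [6])] (by decide +kernel)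
  · exact sound hμ (L0 := [(2, .c 0), (3, .c 1), (5, .c 0), (23, .c 0), (29, .c 1), (31, .c 0), (37, .c 0), (19, .c 0)]) ⟨Hc, Hz, Hw, Hd1, Hd2, He1, He2, Hv2, trivial⟩ h1 hF 0 [(1, 2, [6])] (by decide +kernel)
  · exact sound hμ (L0 := [(2, .c 0), (3, .c 1), (5, .c 1), (23, .c 0), (29, .c 1), (31, .c 0), (37, .c 0), (19, .c 0)]) ⟨Hc, Hz, Hw, Hd1, Hd2, He1, He2, Hv2, trivial⟩ h1 hF 0 [(1, 8, [6])] (by decide +kernel)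
  · exact sound hμ (L0 := [(2, .c 1), (3, .c 0), (5, .c 0), (23, .c 0), (29, .c 1), (31, .c 0), (37, .c 0), (19, .c 0)]) ⟨Hc, Hz, Hw, Hd1, Hd2, He1, He2, Hv2, trivial⟩ h1 hF 0 [(1, 2, [6])] (by decide +kernel)
  · exact sound hμ (L0 := [(2, .c 1), (3, .c 0), (5, .c 1), (23, .c 0), (29, .c 1), (31, .c 0), (37, .c 0), (19, .c 0)]) ⟨Hc, Hz, Hw, Hd1, Hd2, He1, He2, Hv2, trivial⟩ h1 hF 0 [(1, 8, [6])] (by decide +kernel)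
  · exact sound hμ (L0 := [(2, .c 1), (3, .c 1), (5, .c 0), (23, .c 0), (29, .c 1), (31, .c 0), (37, .c 0), (19, .c 0)]) ⟨Hc, Hz, Hw, Hd1, Hd2, He1, He2, Hv2, trivial⟩ h1 hF 0 [(1, 8, [6])] (by decide +kernel)
  · exact sound hμ (L0 := [(2, .c 1), (3, .c 1), (5, .c 1), (23, .c 0), (29, .c 1), (31, .c 0), (37, .c 0), (19, .c 0)]) ⟨Hc, Hz, Hw, Hd1, Hd2, He1, He2, Hv2, trivial⟩ h1 hF 0 [(1, 18, [6])] (by decide +kernel)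
  · exact sound hμ (L0 := [(2, .c 0), (3, .c 0), (5, .c 0), (23, .c 0), (29, .c 1), (31, .c 1), (37, .c 0), (17, .c 0), (19, .c 0)]) ⟨Hc, Hz, Hw, Hd1, Hd2, He1, He2, Hv1, Hv2, trivial⟩ h1 hF 0 [] (by decide +kernel)
  · exact sound hμ (L0 := [(2, .c 0), (3, .c 0), (5, .c 1), (23, .c 0), (29, .c 1), (31, .c 1), (37, .c 0), (17, .c 0), (19, .c 0)]) ⟨Hc, Hz, Hw, Hd1, Hd2, He1, He2, Hv1, Hv2, trivial⟩ h1 hF 0 [(1, 2, [6])] (by decide +kernel)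
  · exact sound hμ (L0 := [(2, .c 0), (3, .c 1), (5, .c 0), (23, .c 0), (29, .c 1), (31, .c 1), (37, .c 0), (17, .c 0), (19, .c 0)]) ⟨Hc, Hz, Hw, Hd1, Hd2, He1, He2, Hv1, Hv2, trivial⟩ h1 hF 0 [(1, 2, [6])] (by decide +kernel)
  · exact sound hμ (L0 := [(2, .c 0), (3, .c 1), (5, .c 1), (23, .c 0), (29, .c 1), (31, .c 1), (37, .c 0), (17, .c 0), (19, .c 0)]) ⟨Hc, Hz, Hw, Hd1, Hd2, He1, He2, Hv1, Hv2, trivial⟩ h1 hF 0 [(1, 8, [6])] (by decide +kernel)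
  · exact sound hμ (L0 := [(2, .c 1), (3, .c 0), (5, .c 0), (23, .c 0), (29, .c 1), (31, .c 1), (37, .c 0), (17, .c 0), (19, .c 0)]) ⟨Hc, Hz, Hw, Hd1, Hd2, He1, He2, Hv1, Hv2, trivial⟩ h1 hF 0 [(1, 2, [6])] (by decide +kernel)
  · exact sound hμ (L0 := [(2, .c 1), (3, .c 0), (5, .c 1), (23, .c 0), (29, .c 1), (31, .c 1), (37, .c 0), (17, .c 0), (19, .c 0)]) ⟨Hc, Hz, Hw, Hd1, Hd2, He1, He2, Hv1, Hv2, trivial⟩ h1 hF 0 [(1, 8, [6])] (by decide +kernel)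
  · exact sound hμ (L0 := [(2, .c 1), (3, .c 1), (5, .c 0), (23, .c 0), (29, .c 1), (31, .c 1), (37, .c 0), (17, .c 0), (19, .c 0)]) ⟨Hc, Hz, Hw, Hd1, Hd2, He1, He2, Hv1, Hv2, trivial⟩ h1 hF 0 [(1, 8, [6])] (by decide +kernel)
  · exact sound hμ (L0 := [(2, .c 1), (3, .c 1), (5, .c 1), (23, .c 0), (29, .c 1), (31, .c 1), (37, .c 0), (17, .c 0), (19, .c 0)]) ⟨Hc, Hz, Hw, Hd1, Hd2, He1, He2, Hv1, Hv2, trivial⟩ h1 hF 0 [(1, 18, [6])] (by decide +kernel)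

theorem NR3c_xy (t z w a b A1 A2 T1 T2 v1 v2 r1 r2 d1 d2 : ℤ) (Ht : t = 0 ∨ t = 1) (Hz : z = 0 ∨ z = 1) (Hw : w = 0 ∨ w = 1) (B : Base a b A1 A2 T1 T2) (Pv : Pair v1 v2 b A2) (Pr : Pair r1 r2 a A1) (Hd : (d1 = 0 ∧ d2 = 0) ∨ (d1 = 1 ∧ d2 = 0 ∧ r1 = 0 ∧ v1 = 0) ∨ (d1 = 0 ∧ d2 = 1 ∧ r2 = 0 ∧ v2 = 0)) :
    0 ≤ (((Fc t z w (a + 1) b (A1 + (2 * a)) A2 (T1 + v1) (T2 + v2)) * (Fc t z w a (b + 1) A1 (A2 + (2 * b)) (T1 + r1) (T2 + r2))) - ((Fc t z w a b A1 A2 T1 T2) * (Fc t z w (a + 1) (b + 1) (A1 + (2 * a)) (A2 + (2 * b)) (((T1 + v1) + r1) + d1) (((T2 + v2) + r2) + d2)))) := by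
  obtain ⟨μ, hμ, rfl, rfl, rfl, rfl, rfl, rfl, rfl, rfl, rfl, rfl, rfl, rfl, rfl, rfl, rfl, ebe, eA4, eal, eA3, -⟩ := exmu t z w a b A1 A2 T1 T2 v1 v2 r1 r2 d1 d2 (b - v1 - v2) (A2 - 2*(v1+v2)*(b - v1 - v2) - 2*v1*v2) (a - r1 - r2) (A1 - 2*(r1+r2)*(a - r1 - r2) - 2*r1*r2) 0 (nn01 Ht) (nn01 Hz) (nn01 Hw) B.h_a B.h_b B.h_A1 B.h_A2 B.h_T1 B.h_T2 Pv.h1 Pv.h2 Pr.h1 Pr.h2 (by omega) (by omega) Pv.pb Pv.hc Pr.pb Pr.hc le_rfl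
  suffices h : 0 ≤ E.ev μ (.s (.m (FcE (.v 2) (.v 3) (.v 5) (.a (.v 7) (.c 1)) (.v 11) (.a (.v 13) (.m (.c 2) (.v 7))) (.v 17) (.a (.v 19) (.v 29)) (.a (.v 23) (.v 31))) (FcE (.v 2) (.v 3) (.v 5) (.v 7) (.a (.v 11) (.c 1)) (.v 13) (.a (.v 17) (.m (.c 2) (.v 11))) (.a (.v 19) (.v 37)) (.a (.v 23) (.v 41)))) (.m (FcE (.v 2) (.v 3) (.v 5) (.v 7) (.v 11) (.v 13) (.v 17) (.v 19) (.v 23)) (FcE (.v 2) (.v 3) (.v 5) (.a (.v 7) (.c 1)) (.a (.v 11) (.c 1)) (.a (.v 13) (.m (.c 2) (.v 7))) (.a (.v 17) (.m (.c 2) (.v 11))) (.a (.a (.a (.v 19) (.v 29)) (.v 37)) (.v 43)) (.a (.a (.a (.v 23) (.v 31)) (.v 41)) (.v 47))))) by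
    simpa only [E.ev, F2E_ev, FcE_ev, GxE_ev] using h
  have h1 : Ok μ [(11, .a (.a (.v 53) (.v 29)) (.v 31)), (17, .a (.a (.v 59) (.m (.m (.c 2) (.a (.v 29) (.v 31))) (.v 53))) (.m (.m (.c 2) (.v 29)) (.v 31))), (7, .a (.a (.v 61) (.v 37)) (.v 41)), (13, .a (.a (.v 67) (.m (.m (.c 2) (.a (.v 37) (.v 41))) (.v 61))) (.m (.m (.c 2) (.v 37)) (.v 41)))] := ⟨by simp only [E.ev]; rw [ebe]; ring, by simp only [E.ev]; rw [eA4, ebe]; ring, by simp only [E.ev]; rw [eal]; ring, by simp only [E.ev]; rw [eA3, eal]; ring, trivial⟩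
  have hF : NN μ (baseF 7 11 13 17 19 23 ++ (pairF 29 31 11 17 ++ (pairF 37 41 7 13 ++ ([.m (.s (.v 29) (.v 31)) (.s (.v 29) (.v 31)), .m (.s (.v 37) (.v 41)) (.s (.v 37) (.v 41)), .m (.s (.m (.v 37) (.v 29)) (.c 1)) (.s (.m (.v 37) (.v 29)) (.c 1)), .m (.s (.m (.v 41) (.v 31)) (.c 1)) (.s (.m (.v 41) (.v 31)) (.c 1)), .m (.s (.m (.v 37) (.v 29)) (.m (.v 41) (.v 31))) (.s (.m (.v 37) (.v 29)) (.m (.v 41) (.v 31))), .m (.s (.a (.m (.v 37) (.v 29)) (.m (.v 41) (.v 31))) (.c 1)) (.s (.a (.m (.v 37) (.v 29)) (.m (.v 41) (.v 31))) (.c 1))])))) := NN.app B.nn (NN.app Pv.nn (NN.app Pr.nn (⟨mul_self_nonneg _, mul_self_nonneg _, mul_self_nonneg _, mul_self_nonneg _, mul_self_nonneg _, mul_self_nonneg _, trivial⟩)))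
  rcases Hd with ⟨Hd1, Hd2⟩ | ⟨Hd1, Hd2, Hr1, Hv1⟩ | ⟨Hd1, Hd2, Hr2, Hv2⟩ <;> rcases Ht with Ht | Ht <;> rcases Hz with Hz | Hz <;> rcases Hw with Hw | Hw
  · exact sound hμ (L0 := [(2, .c 0), (3, .c 0), (5, .c 0), (43, .c 0), (47, .c 0)]) ⟨Ht, Hz, Hw, Hd1, Hd2, trivial⟩ h1 hF 0 [(1537, 2, [26]), (1643, 2, [26]), (2257, 2, [19]), (2501, 2, [19]), (1517, 2, [19]), (2809, 2, [26]), (841, 2, [26]), (961, 2, [26]), (3721, 2, [19]), (1369, 2, [19]), (1681, 2, [19]), (899, 2, [26])] (by decide +kernel)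
  · exact sound hμ (L0 := [(2, .c 0), (3, .c 0), (5, .c 1), (43, .c 0), (47, .c 0)]) ⟨Ht, Hz, Hw, Hd1, Hd2, trivial⟩ h1 hF 0 [(899, 2, [26]), (37, 2, [19]), (29, 2, [26]), (1537, 2, [26]), (2809, 2, [26]), (2257, 2, [19]), (1517, 2, [19]), (61, 2, [19]), (41, 4, [19]), (53, 2, [26]), (2501, 2, [16]), (1681, 2, [16]), (1643, 2, [23]), (961, 2, [23]), (2501, 2, [19]), (841, 2, [26]), (961, 2, [26]), (3721, 2, [19]), (1369, 2, [19]), (1681, 2, [19]), (1, 2, [26]), (1, 2, [19]), (1643, 2, [26]), (31, 4, [26]), (1891, 2, [22]), (2173, 2, [15]), (41, 2, [27]), (31, 2, [28])] (by decide +kernel)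
  · exact sound hμ (L0 := [(2, .c 0), (3, .c 1), (5, .c 0), (43, .c 0), (47, .c 0)]) ⟨Ht, Hz, Hw, Hd1, Hd2, trivial⟩ h1 hF 0 [(31, 2, [26]), (1517, 2, [19]), (1537, 2, [26]), (1643, 2, [26]), (2809, 2, [26]), (2257, 2, [19]), (37, 4, [19]), (61, 2, [19]), (53, 2, [26]), (29, 4, [26]), (2257, 2, [14]), (1369, 2, [14]), (1537, 2, [21]), (841, 2, [21]), (2501, 2, [19]), (841, 2, [26]), (961, 2, [26]), (3721, 2, [19]), (1369, 2, [19]), (1681, 2, [19]), (1, 2, [26]), (1, 2, [19]), (1769, 2, [20]), (899, 2, [26]), (1961, 2, [13]), (41, 2, [19]), (37, 2, [27]), (29, 2, [28])] (by decide +kernel)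
  · exact sound hμ (L0 := [(2, .c 0), (3, .c 1), (5, .c 1), (43, .c 0), (47, .c 0)]) ⟨Ht, Hz, Hw, Hd1, Hd2, trivial⟩ h1 hF 0 [(3721, 2, [19]), (1643, 2, [26]), (2809, 2, [26]), (31, 2, [28]), (1369, 2, [19]), (53, 4, [26]), (899, 2, [26]), (1271, 2, [4]), (2257, 2, [19]), (41, 2, [27]), (37, 6, [19]), (29, 6, [26]), (31, 6, [26]), (41, 6, [19]), (1, 6, [19]), (1, 6, [26]), (2501, 2, [19]), (1073, 2, [4]), (1681, 2, [19]), (1517, 2, [19]), (1, 2, [28]), (961, 2, [26]), (37, 2, [27]), (1, 4, [4]), (61, 4, [19]), (1891, 2, [4]), (841, 2, [26]), (1, 2, [27]), (1961, 2, [4]), (29, 2, [28]), (1537, 2, [26])] (by decide +kernel)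
  · exact sound hμ (L0 := [(2, .c 1), (3, .c 0), (5, .c 0), (43, .c 0), (47, .c 0)]) ⟨Ht, Hz, Hw, Hd1, Hd2, trivial⟩ h1 hF 0 [(1537, 2, [26]), (1643, 2, [26]), (2257, 2, [19]), (2501, 2, [19]), (1517, 2, [19]), (2809, 2, [26]), (841, 2, [26]), (961, 2, [26]), (3721, 2, [19]), (1369, 2, [19]), (1681, 2, [19]), (899, 2, [26])] (by decide +kernel)
  · exact sound hμ (L0 := [(2, .c 1), (3, .c 0), (5, .c 1), (43, .c 0), (47, .c 0)]) ⟨Ht, Hz, Hw, Hd1, Hd2, trivial⟩ h1 hF 0 [(41, 2, [14]), (29, 2, [22]), (37, 2, [15]), (899, 2, [26]), (1, 2, [26]), (1, 2, [32]), (1517, 4, [16]), (37, 2, [19]), (1537, 2, [26]), (2809, 2, [26]), (2257, 2, [19]), (1517, 2, [19]), (61, 2, [19]), (41, 4, [19]), (31, 2, [21]), (53, 2, [26]), (31, 4, [26]), (2501, 4, [16]), (1, 2, [30]), (1643, 4, [23]), (899, 4, [23]), (2501,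 2, [19]), (841, 2, [26]), (961, 2, [26]), (3721, 2, [19]), (1369, 2, [19]), (1681, 2, [19]), (29, 2, [26]), (1, 2, [19]), (1643, 2, [26])] (by decide +kernel)
  · exact sound hμ (L0 := [(2, .c 1), (3, .c 1), (5, .c 0), (43, .c 0), (47, .c 0)]) ⟨Ht, Hz, Hw, Hd1, Hd2, trivial⟩ h1 hF 0 [(37, 2, [16]), (31, 2, [20]), (41, 2, [13]), (2257, 4, [14]), (1, 2, [32]), (1517, 2, [19]), (1, 2, [29]), (1537, 2, [26]), (1643, 2, [26]), (2809, 2, [26]), (2257, 2, [19]), (37, 4, [19]), (61, 2, [19]), (41, 2, [19]), (841, 2, [26]), (29, 2, [23]), (53, 2, [26]), (29, 4, [26]), (1517, 4, [14]), (1537, 4, [21]), (899, 4, [21]), (2501, 2, [19]), (31, 2, [26]), (961, 2, [26]), (3721, 2, [19]), (1369, 2, [19]), (1681, 2, [19]), (1, 2, [26]), (1, 2, [19]), (899, 2, [26])] (by decide +kernel)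
  · exact sound hμ (L0 := [(2, .c 1), (3, .c 1), (5, .c 1), (43, .c 0), (47, .c 0)]) ⟨Ht, Hz, Hw, Hd1, Hd2, trivial⟩ h1 hF 0 [(1, 2, [31]), (29, 2, [28]), (31, 4, [20]), (2809, 2, [26]), (2257, 2, [19]), (3721, 2, [19]), (1369, 2, [19]), (1681, 2, [19]), (1, 2, [27]), (37, 2, [27]), (37, 6, [19]), (841, 2, [26]), (53, 4, [26]), (41, 6, [19]), (1, 2, [32]), (1189, 2, [4]), (2501, 2, [19]), (899, 2, [26]), (1643, 2, [26]), (1, 2, [28]), (31, 6, [26]), (31, 2, [28]), (41, 2, [27]), (29, 6, [26]), (61, 4, [19]), (1537, 2, [26]), (1517, 2, [19]), (1, 6, [26]), (1961, 2, [4]), (1, 6, [19]), (1769, 2, [4]), (41, 4, [13]), (1147, 2, [4]), (961, 2, [26])] (by decide +kernel)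
  · exact sound hμ (L0 := [(2, .c 0), (3, .c 0), (5, .c 0), (43, .c 1), (47, .c 0), (37, .c 0), (29, .c 0)]) ⟨Ht, Hz, Hw, Hd1, Hd2, Hr1, Hv1, trivial⟩ h1 hF 0 [(1643, 2, [26]), (2501, 2, [19]), (2809, 2, [26]), (961, 2, [26]), (3721, 2, [19]), (1681, 2, [19])] (by decide +kernel)
  · exact sound hμ (L0 := [(2, .c 0), (3, .c 0), (5, .c 1), (43, .c 1), (47, .c 0), (37, .c 0), (29, .c 0)]) ⟨Ht, Hz, Hw, Hd1, Hd2, Hr1, Hv1, trivial⟩ h1 hF 0 [(2501, 2, [19]), (1643, 2, [26]), (2809, 2, [26]), (61, 2, [19]), (41, 4, [19]), (53, 2, [26]), (31, 4, [26]), (2501, 2, [16]), (1643, 2, [23]), (961, 2, [26]), (3721, 2, [19]), (1681, 2, [19]), (1, 2, [26]), (1, 2, [19]), (1891, 2, [22]), (2173, 2, [15])] (by decide +kernel)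
  · exact sound hμ (L0 := [(2, .c 0), (3, .c 1), (5, .c 0), (43, .c 1), (47, .c 0), (37, .c 0), (29, .c 0)]) ⟨Ht, Hz, Hw, Hd1, Hd2, Hr1, Hv1, trivial⟩ h1 hF 0 [(1643, 2, [26]), (2501, 2, [19]), (2809, 2, [26]), (961, 2, [26]), (3721, 2, [19]), (1681, 2, [19])] (by decide +kernel)
  · exact sound hμ (L0 := [(2, .c 0), (3, .c 1), (5, .c 1), (43, .c 1), (47, .c 0), (37, .c 0), (29, .c 0)]) ⟨Ht, Hz, Hw, Hd1, Hd2, Hr1, Hv1, trivial⟩ h1 hF 0 [(2501, 2, [19]), (1643, 2, [26]), (1, 2, [19]), (1, 2, [26]), (3721, 2, [19]), (2809, 2, [26]), (53, 2, [26]), (31, 4, [26]), (1681, 2, [19]), (61, 2, [19]), (41, 4, [19]), (961, 2, [26])] (by decide +kernel)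
  · exact sound hμ (L0 := [(2, .c 1), (3, .c 0), (5, .c 0), (43, .c 1), (47, .c 0), (37, .c 0), (29, .c 0)]) ⟨Ht, Hz, Hw, Hd1, Hd2, Hr1, Hv1, trivial⟩ h1 hF 0 [(1643, 2, [26]), (2501, 2, [19]), (2809, 2, [26]), (961, 2, [26]), (3721, 2, [19]), (1681, 2, [19])] (by decide +kernel)
  · exact sound hμ (L0 := [(2, .c 1), (3, .c 0), (5, .c 1), (43, .c 1), (47, .c 0), (37, .c 0), (29, .c 0)]) ⟨Ht, Hz, Hw, Hd1, Hd2, Hr1, Hv1, trivial⟩ h1 hF 0 [(41, 4, [19]), (1, 4, [30]), (2501, 2, [19]), (1643, 2, [26]), (2809, 2, [26]), (61, 2, [19]), (53, 2, [26]), (31, 4, [26]), (2501, 4, [16]), (1643, 4, [23]), (961, 2, [26]), (3721, 2, [19]), (1681, 2, [19]), (1, 2, [26]), (1, 2, [19])] (by decide +kernel)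
  · exact sound hμ (L0 := [(2, .c 1), (3, .c 1), (5, .c 0), (43, .c 1), (47, .c 0), (37, .c 0), (29, .c 0)]) ⟨Ht, Hz, Hw, Hd1, Hd2, Hr1, Hv1, trivial⟩ h1 hF 0 [(1643, 2, [26]), (2501, 2, [19]), (2809, 2, [26]), (961, 2, [26]), (3721, 2, [19]), (1681, 2, [19])] (by decide +kernel)
  · exact sound hμ (L0 := [(2, .c 1), (3, .c 1), (5, .c 1), (43, .c 1), (47, .c 0), (37, .c 0), (29, .c 0)]) ⟨Ht, Hz, Hw, Hd1, Hd2, Hr1, Hv1, trivial⟩ h1 hF 0 [(2809, 2, [26]), (2501, 2, [19]), (1643, 2, [26]), (1681, 2, [19]), (53, 2, [26]), (61, 2, [19]), (41, 4, [19]), (1, 2, [19]), (31, 4, [26]), (1, 2, [26]), (3721, 2, [19]), (961, 2, [26])] (by decide +kernel)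
  · exact sound hμ (L0 := [(2, .c 0), (3, .c 0), (5, .c 0), (43, .c 0), (47, .c 1), (41, .c 0), (31, .c 0)]) ⟨Ht, Hz, Hw, Hd1, Hd2, Hr2, Hv2, trivial⟩ h1 hF 0 [(1537, 2, [26]), (2257, 2, [19]), (2809, 2, [26]), (841, 2, [26]), (3721, 2, [19]), (1369, 2, [19])] (by decide +kernel)
  · exact sound hμ (L0 := [(2, .c 0), (3, .c 0), (5, .c 1), (43, .c 0), (47, .c 1), (41, .c 0), (31, .c 0)]) ⟨Ht, Hz, Hw, Hd1, Hd2, Hr2, Hv2, trivial⟩ h1 hF 0 [(1537, 2, [26]), (2257, 2, [19]), (2809, 2, [26]), (841, 2, [26]), (3721, 2, [19]), (1369, 2, [19])] (by decide +kernel)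
  · exact sound hμ (L0 := [(2, .c 0), (3, .c 1), (5, .c 0), (43, .c 0), (47, .c 1), (41, .c 0), (31, .c 0)]) ⟨Ht, Hz, Hw, Hd1, Hd2, Hr2, Hv2, trivial⟩ h1 hF 0 [(2257, 2, [19]), (1537, 2, [26]), (2809, 2, [26]), (61, 2, [19]), (37, 4, [19]), (53, 2, [26]), (29, 4, [26]), (2257, 2, [14]), (1537, 2, [21]), (841, 2, [26]), (3721, 2, [19]), (1369, 2, [19]), (1, 2, [26]), (1, 2, [19]), (1769, 2, [20]), (1961, 2, [13])] (by decide +kernel)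
  · exact sound hμ (L0 := [(2, .c 0), (3, .c 1), (5, .c 1), (43, .c 0), (47, .c 1), (41, .c 0), (31, .c 0)]) ⟨Ht, Hz, Hw, Hd1, Hd2, Hr2, Hv2, trivial⟩ h1 hF 0 [(2257, 2, [19]), (1537, 2, [26]), (1, 2, [19]), (1, 2, [26]), (3721, 2, [19]), (2809, 2, [26]), (53, 2, [26]), (29, 4, [26]), (1369, 2, [19]), (61, 2, [19]), (37, 4, [19]), (841, 2, [26])] (by decide +kernel)
  · exact sound hμ (L0 := [(2, .c 1), (3, .c 0), (5, .c 0), (43, .c 0), (47, .c 1), (41, .c 0), (31, .c 0)]) ⟨Ht, Hz, Hw, Hd1, Hd2, Hr2, Hv2, trivial⟩ h1 hF 0 [(1537, 2, [26]), (2257, 2, [19]), (2809, 2, [26]), (841, 2, [26]), (3721, 2, [19]), (1369, 2, [19])] (by decide +kernel)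
  · exact sound hμ (L0 := [(2, .c 1), (3, .c 0), (5, .c 1), (43, .c 0), (47, .c 1), (41, .c 0), (31, .c 0)]) ⟨Ht, Hz, Hw, Hd1, Hd2, Hr2, Hv2, trivial⟩ h1 hF 0 [(1537, 2, [26]), (2257, 2, [19]), (2809, 2, [26]), (841, 2, [26]), (3721, 2, [19]), (1369, 2, [19])] (by decide +kernel)
  · exact sound hμ (L0 := [(2, .c 1), (3, .c 1), (5, .c 0), (43, .c 0), (47, .c 1), (41, .c 0), (31, .c 0)]) ⟨Ht, Hz, Hw, Hd1, Hd2, Hr2, Hv2, trivial⟩ h1 hF 0 [(37, 4, [19]), (1, 4, [29]), (2257, 2, [19]), (1537, 2, [26]), (2809, 2, [26]), (61, 2, [19]), (53, 2, [26]), (29, 4, [26]), (2257, 4, [14]), (1537, 4, [21]), (841, 2, [26]), (3721, 2, [19]), (1369, 2, [19]), (1, 2, [26]), (1, 2, [19])] (by decide +kernel)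
  · exact sound hμ (L0 := [(2, .c 1), (3, .c 1), (5, .c 1), (43, .c 0), (47, .c 1), (41, .c 0), (31, .c 0)]) ⟨Ht, Hz, Hw, Hd1, Hd2, Hr2, Hv2, trivial⟩ h1 hF 0 [(2809, 2, [26]), (2257, 2, [19]), (1537, 2, [26]), (1369, 2, [19]), (53, 2, [26]), (61, 2, [19]), (37, 4, [19]), (1, 2, [19]), (29, 4, [26]), (1, 2, [26]), (3721, 2, [19]), (841, 2, [26])] (by decide +kernel)

end Pool.Agent.H34.BM
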