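import Pool.Agent.H34.BN1

set_option autoImplicit false
set_option linter.unusedVariables false
set_option linter.unusedSimpArgs false

namespace Pool.Agent.H34.BM

theorem NR4xy (t c z w a b A1 A2 T1 T2 v1 v2 r1 r2 d1 d2 : ℤ) (Ht : t = 0 ∨ t = 1) (Hc : c = 0 ∨ c = 1) (Hz : z = 0 ∨ z = 1) (Hw : w = 0 ∨ w = 1) (B : Base a b A1 A2 T1 T2) (Pv : Pair v1 v2 b A2) (Pr : Pair r1 r2 a A1) (Hd : (d1 = 0 ∧ d2 = 0) ∨ (d1 = 1 ∧ d2 = 0 ∧ r1 = 0 ∧ v1 = 0) ∨ (d1 = 0 ∧ d2 = 1 ∧ r2 = 0 ∧ v2 = 0)) :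
    0 ≤ (((F2 t c z w (a + 1) b (A1 + (2 * a)) A2 (T1 + v1) (T2 + v2)) * (F2 t c z w a (b + 1) A1 (A2 + (2 * b)) (T1 + r1) (T2 + r2))) - ((F2 t c z w a b A1 A2 T1 T2) * (F2 t c z w (a + 1) (b + 1) (A1 + (2 * a)) (A2 + (2 * b)) (((T1 + v1) + r1) + d1) (((T2 + v2) + r2) + d2)))) := by
  obtain ⟨μ, hμ, rfl, rfl, rfl, rfl, rfl, rfl, rfl, rfl, rfl, rfl, rfl, rfl, rfl, rfl, rfl, rfl, ebe, eA4, eal, eA3⟩ := exmu t c z w a b A1 A2 T1 T2 v1 v2 r1 r2 d1 d2 (b - v1 - v2) (A2 - 2*(v1+v2)*(b - v1 - v2) - 2*v1*v2) (a - r1 - r2) (A1 - 2*(r1+r2)*(a - r1 - r2) - 2*r1*r2) (nn01 Ht) (nn01 Hc) (nn01 Hz) (nn01 Hw) B.h_a B.h_b B.h_A1 B.h_A2 B.h_T1 B.h_T2 Pv.h1 Pv.h2 Pr.h1 Pr.h2 (by omega) (by omega) Pv.pb Pv.hc Pr.pb Pr.hc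
  suffices h : 0 ≤ E.ev μ (.s (.m (F2E (.v 2) (.v 3) (.v 5) (.v 7) (.a (.v 11) (.c 1)) (.v 13) (.a (.v 17) (.m (.c 2) (.v 11))) (.v 19) (.a (.v 23) (.v 31)) (.a (.v 29) (.v 37))) (F2E (.v 2) (.v 3) (.v 5) (.v 7) (.v 11) (.a (.v 13) (.c 1)) (.v 17) (.a (.v 19) (.m (.c 2) (.v 13))) (.a (.v 23) (.v 41)) (.a (.v 29) (.v 43)))) (.m (F2E (.v 2) (.v 3) (.v 5) (.v 7) (.v 11) (.v 13) (.v 17) (.v 19) (.v 23) (.v 29)) (F2E (.v 2) (.v 3) (.v 5) (.v 7) (.a (.v 11) (.c 1)) (.a (.v 13) (.c 1)) (.a (.v 17) (.m (.c 2) (.v 11))) (.a (.v 19) (.m (.c 2) (.v 13))) (.a (.a (.a (.v 23) (.v 31)) (.v 41)) (.v 47)) (.a (.a (.a (.v 29) (.v 37)) (.v 43)) (.v 53))))) by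
    simpa only [E.ev, F2E_ev, FcE_ev, GxE_ev] using h
  have h1 : Ok μ [(13, .a (.a (.v 59) (.v 31)) (.v 37)), (19, .a (.a (.v 61) (.m (.m (.c 2) (.a (.v 31) (.v 37))) (.v 59))) (.m (.m (.c 2) (.v 31)) (.v 37))), (11, .a (.a (.v 67) (.v 41)) (.v 43)), (17, .a (.a (.v 71) (.m (.m (.c 2) (.a (.v 41) (.v 43))) (.v 67))) (.m (.m (.c 2) (.v 41)) (.v 43)))] := ⟨by simp only [E.ev]; rw [ebe]; ring, by simp only [E.ev]; rw [eA4, ebe]; ring, by simp only [E.ev]; rw [eal]; ring, by simp only [E.ev]; rw [eA3, eal]; ring, trivial⟩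
  have hF : NN μ (baseF 11 13 17 19 23 29 ++ (pairF 31 37 13 19 ++ (pairF 41 43 11 17 ++ ([.m (.s (.v 31) (.v 37)) (.s (.v 31) (.v 37)), .m (.s (.v 41) (.v 43)) (.s (.v 41) (.v 43)), .m (.s (.m (.v 41) (.v 31)) (.c 1)) (.s (.m (.v 41) (.v 31)) (.c 1)), .m (.s (.m (.v 43) (.v 37)) (.c 1)) (.s (.m (.v 43) (.v 37)) (.c 1)), .m (.s (.m (.v 41) (.v 31)) (.m (.v 43) (.v 37))) (.s (.m (.v 41) (.v 31)) (.m (.v 43) (.v 37))), .m (.s (.a (.m (.v 41) (.v 31)) (.m (.v 43) (.v 37))) (.c 1)) (.s (.a (.m (.v 41) (.v 31)) (.m (.v 43) (.v 37))) (.c 1))])))) := NN.app B.nn (NN.app Pv.nn (NN.app Pr.nn (⟨mul_self_nonneg _, mul_self_nonneg _, mul_self_nonneg _, mul_self_nonneg _, mul_self_nonneg _, mul_self_nonneg _, trivial⟩)))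
  rcases Hd with ⟨Hd1, Hd2⟩ | ⟨Hd1, Hd2, Hr1, Hv1⟩ | ⟨Hd1, Hd2, Hr2, Hv2⟩ <;> rcases Ht with Ht | Ht <;> rcases Hc with Hc | Hc <;> rcases Hz with Hz | Hz <;> rcases Hw with Hw | Hw
  · exact sound hμ (L0 := [(2, .c 0), (3, .c 0), (5, .c 0), (7, .c 0), (47, .c 0), (53, .c 0)]) ⟨Ht, Hc, Hz, Hw, Hd1, Hd2, trivial⟩ h1 hF 0 [] (by decide +kernel)
  · exact sound hμ (L0 := [(2, .c 0), (3, .c 0), (5, .c 0), (7, .c 1), (47, .c 0), (53, .c 0)]) ⟨Ht, Hc, Hz, Hw, Hd1, Hd2, trivial⟩ h1 hF 0 [(1829, 2, [26]), (2183, 2, [26]), (2747, 2, [19]), (2881, 2, [19]), (1763, 2, [19]), (3481, 2, [26]), (961, 2, [26]), (1369, 2, [26]), (4489, 2, [19]), (1681, 2, [19]), (1849, 2, [19]), (1147, 2, [26])] (by decide +kernel)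
  · exact sound hμ (L0 := [(2, .c 0), (3, .c 0), (5, .c 1), (7, .c 0), (47, .c 0), (53, .c 0)]) ⟨Ht, Hc, Hz, Hw, Hd1, Hd2, trivial⟩ h1 hF 0 [(1829, 2, [26]), (2183, 2, [26]), (2747, 2, [19]), (2881, 2, [19]), (1763, 2, [19]), (3481, 2, [26]), (961, 2, [26]), (1369, 2, [26]), (4489, 2, [19]), (1681, 2, [19]), (1849, 2, [19]), (1147, 2, [26])] (by decide +kernel)
  · exact sound hμ (L0 := [(2, .c 0), (3, .c 0), (5, .c 1), (7, .c 1), (47, .c 0), (53, .c 0)]) ⟨Ht, Hc, Hz, Hw, Hd1, Hd2, trivial⟩ h1 hF 0 [(1829, 8, [26]), (2183, 8, [26]), (1147, 8, [26]), (2747, 8, [19]), (2881, 8, [19]), (1763, 8, [19]), (67, 4, [19]), (41, 4, [19]), (59, 4, [26]), (31, 4, [26]), (37, 4, [26]), (3481, 8, [26]), (961, 8, [26]), (1369, 8, [26]), (4489, 8, [19]), (1681, 8, [19]), (1849, 8, [19]), (1, 2, [26]), (1, 2, [19]), (43, 4, [19])] (by decide +kernel)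
  · exact sound hμ (L0 := [(2, .c 0), (3, .c 1), (5, .c 0), (7, .c 0), (47, .c 0), (53, .c 0)]) ⟨Ht, Hc, Hz, Hw, Hd1, Hd2, trivial⟩ h1 hF 0 [(1829, 2, [26]), (2183, 2, [26]), (2747, 2, [19]), (2881, 2, [19]), (1763, 2, [19]), (3481, 2, [26]), (961, 2, [26]), (1369, 2, [26]), (4489, 2, [19]), (1681, 2, [19]), (1849, 2, [19]), (1147, 2, [26])] (by decide +kernel)
  · exact sound hμ (L0 := [(2, .c 0), (3, .c 1), (5, .c 0), (7, .c 1), (47, .c 0), (53, .c 0)]) ⟨Ht, Hc, Hz, Hw, Hd1, Hd2, trivial⟩ h1 hF 0 [(1147, 8, [26]), (43, 8, [19]), (1829, 8, [26]), (2747, 8, [19]), (2881, 8, [19]), (1763, 8, [19]), (67, 4, [19]), (41, 4, [19]), (59, 4, [26]), (31, 4, [26]), (2881, 4, [16]), (1849, 4, [16]), (2183, 4, [23]), (1369, 4, [23]), (3481, 8, [26]), (961, 8, [26]), (1369, 8, [26]), (4489, 8, [19]), (1681, 8, [19]), (1849, 8, [19]), (1, 2, [26]),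 (1, 2, [19]), (2183, 8, [26]), (37, 8, [26]), (2479, 4, [22]), (2537, 4, [15]), (43, 4, [27]), (37, 4, [28])] (by decide +kernel)
  · exact sound hμ (L0 := [(2, .c 0), (3, .c 1), (5, .c 1), (7, .c 0), (47, .c 0), (53, .c 0)]) ⟨Ht, Hc, Hz, Hw, Hd1, Hd2, trivial⟩ h1 hF 0 [(37, 4, [26]), (31, 8, [26]), (1763, 8, [19]), (1829, 8, [26]), (2183, 8, [26]), (2747, 8, [19]), (2881, 8, [19]), (41, 8, [19]), (67, 4, [19]), (43, 4, [19]), (59, 4, [26]), (2747, 4, [14]), (1681, 4, [14]), (1829, 4, [21]), (961, 4, [21]), (3481, 8, [26]), (961, 8, [26]), (1369, 8, [26]), (4489, 8, [19]), (1681, 8, [19]), (1849, 8, [19]), (1, 2, [26]), (1, 2, [19]), (2077, 4, [20]), (1147, 8, [26]), (2419, 4, [13]), (41, 4, [27]), (31, 4, [28])] (by decide +kernel)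
  · exact sound hμ (L0 := [(2, .c 0), (3, .c 1), (5, .c 1), (7, .c 1), (47, .c 0), (53, .c 0)]) ⟨Ht, Hc, Hz, Hw, Hd1, Hd2, trivial⟩ h1 hF 0 [(4489, 18, [19]), (1, 12, [26]), (961, 18, [26]), (43, 24, [19]), (67, 12, [4]), (67, 18, [19]), (2747, 18, [19]), (41, 24, [19]), (31, 24, [26]), (37, 24, [26]), (1763, 18, [19]), (2881, 18, [19]), (1849, 18, [19]), (59, 18, [26]), (1, 12, [19]), (2479, 18, [4]), (1369, 18, [26]), (2419, 18, [4]), (1681, 18, [19]), (2183, 18, [26]), (1829, 18, [26]), (1147, 18, [26]), (1591, 18, [4]), (3481, 18, [26]), (1271, 18, [4]), (59, 12, [4]), (1, 16, [4])] (by decide +kernel)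
  · exact sound hμ (L0 := [(2, .c 1), (3, .c 0), (5, .c 0), (7, .c 0), (47, .c 0), (53, .c 0)]) ⟨Ht, Hc, Hz, Hw, Hd1, Hd2, trivial⟩ h1 hF 0 [] (by decide +kernel)
  · exact sound hμ (L0 := [(2, .c 1), (3, .c 0), (5, .c 0), (7, .c 1), (47, .c 0), (53, .c 0)]) ⟨Ht, Hc, Hz, Hw, Hd1, Hd2, trivial⟩ h1 hF 0 [(1829, 2, [26]), (2183, 2, [26]), (2747, 2, [19]), (2881, 2, [19]), (1763, 2, [19]), (3481, 2, [26]), (961, 2, [26]), (1369, 2, [26]), (4489, 2, [19]), (1681, 2, [19]), (1849, 2, [19]), (1147, 2, [26])] (by decide +kernel)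
  · exact sound hμ (L0 := [(2, .c 1), (3, .c 0), (5, .c 1), (7, .c 0), (47, .c 0), (53, .c 0)]) ⟨Ht, Hc, Hz, Hw, Hd1, Hd2, trivial⟩ h1 hF 0 [(1829, 2, [26]), (2183, 2, [26]), (2747, 2, [19]), (2881, 2, [19]), (1763, 2, [19]), (3481, 2, [26]), (961, 2, [26]), (1369, 2, [26]), (4489, 2, [19]), (1681, 2, [19]), (1849, 2, [19]), (1147, 2, [26])] (by decide +kernel)
  · exact sound hμ (L0 := [(2, .c 1), (3, .c 0), (5, .c 1), (7, .c 1), (47, .c 0), (53, .c 0)]) ⟨Ht, Hc, Hz, Hw, Hd1, Hd2, trivial⟩ h1 hF 0 [(1829, 8, [26]), (2183, 8, [26]), (1147, 8, [26]), (2747, 8, [19]), (2881, 8, [19]), (1763, 8, [19]), (67, 4, [19]), (41, 4, [19]), (59, 4, [26]), (31, 4, [26]), (37, 4, [26]), (3481, 8, [26]), (961, 8, [26]), (1369, 8, [26]), (4489, 8, [19]), (1681, 8, [19]), (1849, 8, [19]), (1, 2, [26]), (1, 2, [19]), (43, 4, [19])] (by decide +kernel)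
  · exact sound hμ (L0 := [(2, .c 1), (3, .c 1), (5, .c 0), (7, .c 0), (47, .c 0), (53, .c 0)]) ⟨Ht, Hc, Hz, Hw, Hd1, Hd2, trivial⟩ h1 hF 0 [(1829, 2, [26]), (2183, 2, [26]), (2747, 2, [19]), (2881, 2, [19]), (1763, 2, [19]), (3481, 2, [26]), (961, 2, [26]), (1369, 2, [26]), (4489, 2, [19]), (1681, 2, [19]), (1849, 2, [19]), (1147, 2, [26])] (by decide +kernel)
  · exact sound hμ (L0 := [(2, .c 1), (3, .c 1), (5, .c 0), (7, .c 1), (47, .c 0), (53, .c 0)]) ⟨Ht, Hc, Hz, Hw, Hd1, Hd2, trivial⟩ h1 hF 0 [(1849, 8, [19]), (43, 8, [16]), (1147, 4, [23]), (1, 4, [32]), (31, 2, [22]), (41, 2, [15]), (43, 8, [19]), (37, 6, [21]), (1829, 8, [26]), (2747, 8, [19]), (2881, 8, [19]), (1763, 8, [19]), (67, 4, [19]), (59, 4, [26]), (31, 4, [26]), (37, 8, [26]), (2183, 8, [23]), (43, 6, [14]), (2881, 8, [16]), (1849, 2, [16]), (41, 4, [19]), (1369, 10,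 [23]), (3481, 8, [26]), (961, 8, [26]), (1369, 8, [26]), (4489, 8, [19]), (1681, 8, [19]), (1, 2, [26]), (1, 2, [19]), (2183, 8, [26]), (1147, 8, [26]), (1763, 4, [16]), (43, 2, [27]), (37, 2, [28])] (by decide +kernel)
  · exact sound hμ (L0 := [(2, .c 1), (3, .c 1), (5, .c 1), (7, .c 0), (47, .c 0), (53, .c 0)]) ⟨Ht, Hc, Hz, Hw, Hd1, Hd2, trivial⟩ h1 hF 0 [(1681, 8, [19]), (1763, 4, [14]), (41, 6, [16]), (1, 4, [32]), (37, 2, [20]), (43, 2, [13]), (2747, 8, [14]), (41, 8, [19]), (41, 8, [14]), (31, 6, [23]), (1829, 8, [21]), (1147, 4, [21]), (1829, 8, [26]), (2183, 8, [26]), (2747, 8, [19]), (2881, 8, [19]), (1763, 8, [19]), (67, 4, [19]), (43, 4, [19]), (59, 4, [26]), (31, 8, [26]), (37, 4, [26]), (1681, 2, [14]), (961, 10, [21]), (3481, 8, [26]), (961, 8, [26]), (1369, 8, [26]), (4489, 8, [19]), (1849, 8, [19]), (1, 2, [26]), (1, 2,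 [19]), (1147, 8, [26]), (41, 2, [27]), (31, 2, [28])] (by decide +kernel)
  · exact sound hμ (L0 := [(2, .c 1), (3, .c 1), (5, .c 1), (7, .c 1), (47, .c 0), (53, .c 0)]) ⟨Ht, Hc, Hz, Hw, Hd1, Hd2, trivial⟩ h1 hF 0 [(37, 24, [26]), (41, 8, [15]), (4489, 18, [19]), (2183, 18, [26]), (961, 18, [26]), (1829, 18, [26]), (2881, 18, [19]), (1763, 18, [19]), (31, 8, [22]), (1, 4, [31]), (1, 4, [32]), (67, 12, [4]), (43, 24, [19]), (31, 24, [26]), (1147, 18, [26]), (67, 18, [19]), (41, 24, [19]), (1, 12, [19]), (3481, 18, [26]), (59, 18, [26]), (2747, 18, [19]), (1849, 18, [19]), (2077, 18, [4]), (59, 12, [4]), (1681, 18, [19]), (1369, 18, [26]), (1, 12, [26]), (1591, 18, [4]), (2537, 18, [4]), (1271, 18, [4])] (by decide +kernel)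
  · exact sound hμ (L0 := [(2, .c 0), (3, .c 0), (5, .c 0), (7, .c 0), (47, .c 1), (53, .c 0), (41, .c 0), (31, .c 0)]) ⟨Ht, Hc, Hz, Hw, Hd1, Hd2, Hr1, Hv1, trivial⟩ h1 hF 0 [] (by decide +kernel)
  · exact sound hμ (L0 := [(2, .c 0), (3, .c 0), (5, .c 0), (7, .c 1), (47, .c 1), (53, .c 0), (41, .c 0), (31, .c 0)]) ⟨Ht, Hc, Hz, Hw, Hd1, Hd2, Hr1, Hv1, trivial⟩ h1 hF 0 [(2183, 2, [26]), (2881, 2, [19]), (3481, 2, [26]), (1369, 2, [26]), (4489, 2, [19]), (1849, 2, [19])] (by decide +kernel)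
  · exact sound hμ (L0 := [(2, .c 0), (3, .c 0), (5, .c 1), (7, .c 0), (47, .c 1), (53, .c 0), (41, .c 0), (31, .c 0)]) ⟨Ht, Hc, Hz, Hw, Hd1, Hd2, Hr1, Hv1, trivial⟩ h1 hF 0 [(2183, 2, [26]), (2881, 2, [19]), (3481, 2, [26]), (1369, 2, [26]), (4489, 2, [19]), (1849, 2, [19])] (by decide +kernel)
  · exact sound hμ (L0 := [(2, .c 0), (3, .c 0), (5, .c 1), (7, .c 1), (47, .c 1), (53, .c 0), (41, .c 0), (31, .c 0)]) ⟨Ht, Hc, Hz, Hw, Hd1, Hd2, Hr1, Hv1, trivial⟩ h1 hF 0 [(2183, 8, [26]), (2881, 8, [19]), (67, 4, [19]), (43, 4, [19]), (59, 4, [26]), (37, 4, [26]), (3481, 8, [26]), (1369, 8, [26]), (4489, 8, [19]), (1849, 8, [19]), (1, 2, [26]), (1, 2, [19])] (by decide +kernel)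
  · exact sound hμ (L0 := [(2, .c 0), (3, .c 1), (5, .c 0), (7, .c 0), (47, .c 1), (53, .c 0), (41, .c 0), (31, .c 0)]) ⟨Ht, Hc, Hz, Hw, Hd1, Hd2, Hr1, Hv1, trivial⟩ h1 hF 0 [(2183, 2, [26]), (2881, 2, [19]), (3481, 2, [26]), (1369, 2, [26]), (4489, 2, [19]), (1849, 2, [19])] (by decide +kernel)
  · exact sound hμ (L0 := [(2, .c 0), (3, .c 1), (5, .c 0), (7, .c 1), (47, .c 1), (53, .c 0), (41, .c 0), (31, .c 0)]) ⟨Ht, Hc, Hz, Hw, Hd1, Hd2, Hr1, Hv1, trivial⟩ h1 hF 0 [(2183, 8, [26]), (2881, 8, [19]), (67, 4, [19]), (43, 8, [19]), (59, 4, [26]), (37, 8, [26]), (2881, 4, [16]), (2183, 4, [23]), (3481, 8, [26]), (1369, 8, [26]), (4489, 8, [19]), (1849, 8, [19]), (1, 2, [26]), (1, 2, [19]), (2479, 4, [22]), (2537, 4, [15])] (by decide +kernel)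
  · exact sound hμ (L0 := [(2, .c 0), (3, .c 1), (5, .c 1), (7, .c 0), (47, .c 1), (53, .c 0), (41, .c 0), (31, .c 0)]) ⟨Ht, Hc, Hz, Hw, Hd1, Hd2, Hr1, Hv1, trivial⟩ h1 hF 0 [(2881, 8, [19]), (2183, 8, [26]), (3481, 8, [26]), (1369, 8, [26]), (4489, 8, [19]), (1849, 8, [19])] (by decide +kernel)
  · exact sound hμ (L0 := [(2, .c 0), (3, .c 1), (5, .c 1), (7, .c 1), (47, .c 1), (53, .c 0), (41, .c 0), (31, .c 0)]) ⟨Ht, Hc, Hz, Hw, Hd1, Hd2, Hr1, Hv1, trivial⟩ h1 hF 0 [(2881, 18, [19]), (3481, 18, [26]), (2183, 18, [26]), (67, 12, [19]), (1, 6, [19]), (1849, 18, [19]), (59, 12, [26]), (1, 6, [26]), (4489, 18, [19]), (37, 18, [26]), (1369, 18, [26]), (43, 18, [19])] (by decide +kernel)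
  · exact sound hμ (L0 := [(2, .c 1), (3, .c 0), (5, .c 0), (7, .c 0), (47, .c 1), (53, .c 0), (41, .c 0), (31, .c 0)]) ⟨Ht, Hc, Hz, Hw, Hd1, Hd2, Hr1, Hv1, trivial⟩ h1 hF 0 [] (by decide +kernel)
  · exact sound hμ (L0 := [(2, .c 1), (3, .c 0), (5, .c 0), (7, .c 1), (47, .c 1), (53, .c 0), (41, .c 0), (31, .c 0)]) ⟨Ht, Hc, Hz, Hw, Hd1, Hd2, Hr1, Hv1, trivial⟩ h1 hF 0 [(2183, 2, [26]), (2881, 2, [19]), (3481, 2, [26]), (1369, 2, [26]), (4489, 2, [19]), (1849, 2, [19])] (by decide +kernel)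
  · exact sound hμ (L0 := [(2, .c 1), (3, .c 0), (5, .c 1), (7, .c 0), (47, .c 1), (53, .c 0), (41, .c 0), (31, .c 0)]) ⟨Ht, Hc, Hz, Hw, Hd1, Hd2, Hr1, Hv1, trivial⟩ h1 hF 0 [(2183, 2, [26]), (2881, 2, [19]), (3481, 2, [26]), (1369, 2, [26]), (4489, 2, [19]), (1849, 2, [19])] (by decide +kernel)
  · exact sound hμ (L0 := [(2, .c 1), (3, .c 0), (5, .c 1), (7, .c 1), (47, .c 1), (53, .c 0), (41, .c 0), (31, .c 0)]) ⟨Ht, Hc, Hz, Hw, Hd1, Hd2, Hr1, Hv1, trivial⟩ h1 hF 0 [(2183, 8, [26]), (2881, 8, [19]), (67, 4, [19]), (43, 4, [19]), (59, 4, [26]), (37, 4, [26]), (3481, 8, [26]), (1369, 8, [26]), (4489, 8, [19]), (1849, 8, [19]), (1, 2, [26]), (1, 2, [19])] (by decide +kernel)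
  · exact sound hμ (L0 := [(2, .c 1), (3, .c 1), (5, .c 0), (7, .c 0), (47, .c 1), (53, .c 0), (41, .c 0), (31, .c 0)]) ⟨Ht, Hc, Hz, Hw, Hd1, Hd2, Hr1, Hv1, trivial⟩ h1 hF 0 [(2183, 2, [26]), (2881, 2, [19]), (3481, 2, [26]), (1369, 2, [26]), (4489, 2, [19]), (1849, 2, [19])] (by decide +kernel)
  · exact sound hμ (L0 := [(2, .c 1), (3, .c 1), (5, .c 0), (7, .c 1), (47, .c 1), (53, .c 0), (41, .c 0), (31, .c 0)]) ⟨Ht, Hc, Hz, Hw, Hd1, Hd2, Hr1, Hv1, trivial⟩ h1 hF 0 [(43, 8, [19]), (1849, 8, [16]), (1, 4, [30]), (2183, 8, [26]), (2881, 8, [19]), (67, 4, [19]), (59, 4, [26]), (37, 8, [26]), (2881, 8, [16]), (2183, 8, [23]), (3481, 8, [26]), (1369, 8, [26]), (4489, 8, [19]), (1849, 8, [19]), (1, 2, [26]), (1, 2, [19]), (37, 8, [23])] (by decide +kernel)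
  · exact sound hμ (L0 := [(2, .c 1), (3, .c 1), (5, .c 1), (7, .c 0), (47, .c 1), (53, .c 0), (41, .c 0), (31, .c 0)]) ⟨Ht, Hc, Hz, Hw, Hd1, Hd2, Hr1, Hv1, trivial⟩ h1 hF 0 [(2881, 8, [19]), (2183, 8, [26]), (3481, 8, [26]), (1369, 8, [26]), (4489, 8, [19]), (1849, 8, [19])] (by decide +kernel)
  · exact sound hμ (L0 := [(2, .c 1), (3, .c 1), (5, .c 1), (7, .c 1), (47, .c 1), (53, .c 0), (41, .c 0), (31, .c 0)]) ⟨Ht, Hc, Hz, Hw, Hd1, Hd2, Hr1, Hv1, trivial⟩ h1 hF 0 [(1849, 18, [19]), (2881, 18, [19]), (59, 12, [26]), (67, 12, [19]), (1, 6, [19]), (2183, 18, [26]), (37, 18, [26]), (3481, 18, [26]), (1, 6, [26]), (4489, 18, [19]), (43, 18, [19]), (1369, 18, [26])] (by decide +kernel)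
  · exact sound hμ (L0 := [(2, .c 0), (3, .c 0), (5, .c 0), (7, .c 0), (47, .c 0), (53, .c 1), (43, .c 0), (37, .c 0)]) ⟨Ht, Hc, Hz, Hw, Hd1, Hd2, Hr2, Hv2, trivial⟩ h1 hF 0 [] (by decide +kernel)
  · exact sound hμ (L0 := [(2, .c 0), (3, .c 0), (5, .c 0), (7, .c 1), (47, .c 0), (53, .c 1), (43, .c 0), (37, .c 0)]) ⟨Ht, Hc, Hz, Hw, Hd1, Hd2, Hr2, Hv2, trivial⟩ h1 hF 0 [(1829, 2, [26]), (2747, 2, [19]), (3481, 2, [26]), (961, 2, [26]), (4489, 2, [19]), (1681, 2, [19])] (by decide +kernel)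
  · exact sound hμ (L0 := [(2, .c 0), (3, .c 0), (5, .c 1), (7, .c 0), (47, .c 0), (53, .c 1), (43, .c 0), (37, .c 0)]) ⟨Ht, Hc, Hz, Hw, Hd1, Hd2, Hr2, Hv2, trivial⟩ h1 hF 0 [(1829, 2, [26]), (2747, 2, [19]), (3481, 2, [26]), (961, 2, [26]), (4489, 2, [19]), (1681, 2, [19])] (by decide +kernel)
  · exact sound hμ (L0 := [(2, .c 0), (3, .c 0), (5, .c 1), (7, .c 1), (47, .c 0), (53, .c 1), (43, .c 0), (37, .c 0)]) ⟨Ht, Hc, Hz, Hw, Hd1, Hd2, Hr2, Hv2, trivial⟩ h1 hF 0 [(1829, 8, [26]), (2747, 8, [19]), (67, 4, [19]), (41, 4, [19]), (59, 4, [26]), (31, 4, [26]), (3481, 8, [26]), (961, 8, [26]), (4489, 8, [19]), (1681, 8, [19]), (1, 2, [26]), (1, 2, [19])] (by decide +kernel)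
  · exact sound hμ (L0 := [(2, .c 0), (3, .c 1), (5, .c 0), (7, .c 0), (47, .c 0), (53, .c 1), (43, .c 0), (37, .c 0)]) ⟨Ht, Hc, Hz, Hw, Hd1, Hd2, Hr2, Hv2, trivial⟩ h1 hF 0 [(1829, 2, [26]), (2747, 2, [19]), (3481, 2, [26]), (961, 2, [26]), (4489, 2, [19]), (1681, 2, [19])] (by decide +kernel)
  · exact sound hμ (L0 := [(2, .c 0), (3, .c 1), (5, .c 0), (7, .c 1), (47, .c 0), (53, .c 1), (43, .c 0), (37, .c 0)]) ⟨Ht, Hc, Hz, Hw, Hd1, Hd2, Hr2, Hv2, trivial⟩ h1 hF 0 [(2747, 8, [19]), (1829, 8, [26]), (3481, 8, [26]), (961, 8, [26]), (4489, 8, [19]), (1681, 8, [19])] (by decide +kernel)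
  · exact sound hμ (L0 := [(2, .c 0), (3, .c 1), (5, .c 1), (7, .c 0), (47, .c 0), (53, .c 1), (43, .c 0), (37, .c 0)]) ⟨Ht, Hc, Hz, Hw, Hd1, Hd2, Hr2, Hv2, trivial⟩ h1 hF 0 [(1829, 8, [26]), (2747, 8, [19]), (67, 4, [19]), (41, 8, [19]), (59, 4, [26]), (31, 8, [26]), (2747, 4, [14]), (1829, 4, [21]), (3481, 8, [26]), (961, 8, [26]), (4489, 8, [19]), (1681, 8, [19]), (1, 2, [26]), (1, 2, [19]), (2077, 4, [20]), (2419, 4, [13])] (by decide +kernel)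
  · exact sound hμ (L0 := [(2, .c 0), (3, .c 1), (5, .c 1), (7, .c 1), (47, .c 0), (53, .c 1), (43, .c 0), (37, .c 0)]) ⟨Ht, Hc, Hz, Hw, Hd1, Hd2, Hr2, Hv2, trivial⟩ h1 hF 0 [(2747, 18, [19]), (3481, 18, [26]), (1829, 18, [26]), (67, 12, [19]), (1, 6, [19]), (1681, 18, [19]), (59, 12, [26]), (1, 6, [26]), (4489, 18, [19]), (31, 18, [26]), (961, 18, [26]), (41, 18, [19])] (by decide +kernel)
  · exact sound hμ (L0 := [(2, .c 1), (3, .c 0), (5, .c 0), (7, .c 0), (47, .c 0), (53, .c 1), (43, .c 0), (37, .c 0)]) ⟨Ht, Hc, Hz, Hw, Hd1, Hd2, Hr2, Hv2, trivial⟩ h1 hF 0 [] (by decide +kernel)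
  · exact sound hμ (L0 := [(2, .c 1), (3, .c 0), (5, .c 0), (7, .c 1), (47, .c 0), (53, .c 1), (43, .c 0), (37, .c 0)]) ⟨Ht, Hc, Hz, Hw, Hd1, Hd2, Hr2, Hv2, trivial⟩ h1 hF 0 [(1829, 2, [26]), (2747, 2, [19]), (3481, 2, [26]), (961, 2, [26]), (4489, 2, [19]), (1681, 2, [19])] (by decide +kernel)
  · exact sound hμ (L0 := [(2, .c 1), (3, .c 0), (5, .c 1), (7, .c 0), (47, .c 0), (53, .c 1), (43, .c 0), (37, .c 0)]) ⟨Ht, Hc, Hz, Hw, Hd1, Hd2, Hr2, Hv2, trivial⟩ h1 hF 0 [(1829, 2, [26]), (2747, 2, [19]), (3481, 2, [26]), (961, 2, [26]), (4489, 2, [19]), (1681, 2, [19])] (by decide +kernel)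
  · exact sound hμ (L0 := [(2, .c 1), (3, .c 0), (5, .c 1), (7, .c 1), (47, .c 0), (53, .c 1), (43, .c 0), (37, .c 0)]) ⟨Ht, Hc, Hz, Hw, Hd1, Hd2, Hr2, Hv2, trivial⟩ h1 hF 0 [(1829, 8, [26]), (2747, 8, [19]), (67, 4, [19]), (41, 4, [19]), (59, 4, [26]), (31, 4, [26]), (3481, 8, [26]), (961, 8, [26]), (4489, 8, [19]), (1681, 8, [19]), (1, 2, [26]), (1, 2, [19])] (by decide +kernel)
  · exact sound hμ (L0 := [(2, .c 1), (3, .c 1), (5, .c 0), (7, .c 0), (47, .c 0), (53, .c 1), (43, .c 0), (37, .c 0)]) ⟨Ht, Hc, Hz, Hw, Hd1, Hd2, Hr2, Hv2, trivial⟩ h1 hF 0 [(1829, 2, [26]), (2747, 2, [19]), (3481, 2, [26]), (961, 2, [26]), (4489, 2, [19]), (1681, 2, [19])] (by decide +kernel)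
  · exact sound hμ (L0 := [(2, .c 1), (3, .c 1), (5, .c 0), (7, .c 1), (47, .c 0), (53, .c 1), (43, .c 0), (37, .c 0)]) ⟨Ht, Hc, Hz, Hw, Hd1, Hd2, Hr2, Hv2, trivial⟩ h1 hF 0 [(2747, 8, [19]), (1829, 8, [26]), (3481, 8, [26]), (961, 8, [26]), (4489, 8, [19]), (1681, 8, [19])] (by decide +kernel)
  · exact sound hμ (L0 := [(2, .c 1), (3, .c 1), (5, .c 1), (7, .c 0), (47, .c 0), (53, .c 1), (43, .c 0), (37, .c 0)]) ⟨Ht, Hc, Hz, Hw, Hd1, Hd2, Hr2, Hv2, trivial⟩ h1 hF 0 [(41, 8, [19]), (1681, 8, [14]), (1, 4, [29]), (1829, 8, [26]), (2747, 8, [19]), (67, 4, [19]), (59, 4, [26]), (31, 8, [26]), (2747, 8, [14]), (1829, 8, [21]), (3481, 8, [26]), (961, 8, [26]), (4489, 8, [19]), (1681, 8, [19]), (1, 2, [26]), (1, 2, [19]), (31, 8, [21])] (by decide +kernel)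
  · exact sound hμ (L0 := [(2, .c 1), (3, .c 1), (5, .c 1), (7, .c 1), (47, .c 0), (53, .c 1), (43, .c 0), (37, .c 0)]) ⟨Ht, Hc, Hz, Hw, Hd1, Hd2, Hr2, Hv2, trivial⟩ h1 hF 0 [(1681, 18, [19]), (2747, 18, [19]), (59, 12, [26]), (67, 12, [19]), (1, 6, [19]), (1829, 18, [26]), (31, 18, [26]), (3481, 18, [26]), (1, 6, [26]), (4489, 18, [19]), (41, 18, [19]), (961, 18, [26])] (by decide +kernel)

end Pool.Agent.H34.BM
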