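import Pool.Agent.H34.BMa
import Pool.Agent.H34.BNb
import Pool.Agent.H34.BNc
import Pool.Agent.H34.BNd

set_option autoImplicit false
set_option linter.unusedVariables false
set_option linter.unusedSimpArgs false
set_option linter.unusedSectionVars false

namespace Pool.Agent.H34.BM

variable {V : Type} [Fintype V] [DecidableEq V]

theorem c_S2_S0_S1 {W : Pt V → ℤ} (h : Box W) {σ τ : Equiv.Perm V} (hστ : ∀ x, σ x ≠ τ x) (zS2 : W (pS 2) = 0) (zS0 : W (pS 0) = 0) (zS1 : W (pS 1) = 0) :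
    0 ≤ DD (Psi σ τ (pS 2)) W (pS 0) (pS 1) := by
  have B := base_of h hστ
  have hτσ : ∀ x, τ x ≠ σ x := fun x => (hστ x).symm
  have K := NR3c_tz ((W (pS 3))) ((sa W)) ((sb W)) ((sA1 W)) ((sA2 W)) ((sT σ W)) 0 (h.s _) B.drop
  refine dd4 K ?_ ?_ ?_ ?_ <;> simp only [Psi_S2, ins_SS, ins_SX, ins_SY, ins_XS, ins_YS, ins_XY, ins_YX, ins_XX, ins_YY, sa_S, sb_S, sA1_S, sA2_S, sT_S, sa_X, sb_X, sa_Y, sb_Y, sA1_X, sA2_X, sA1_Y, sA2_Y, sT_X, sT_Y, hsym, Fin.reduceEq, if_true, if_false, zS2, zS0, zS1, Fc] <;> ring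

theorem c_S2_S0_S3 {W : Pt V → ℤ} (h : Box W) {σ τ : Equiv.Perm V} (hστ : ∀ x, σ x ≠ τ x) (zS2 : W (pS 2) = 0) (zS0 : W (pS 0) = 0) (zS3 : W (pS 3) = 0) :
    0 ≤ DD (Psi σ τ (pS 2)) W (pS 0) (pS 3) := by
  have B := base_of h hστ
  have hτσ : ∀ x, τ x ≠ σ x := fun x => (hστ x).symm
  have K := NR3c_tz ((W (pS 1))) ((sa W)) ((sb W)) ((sA1 W)) ((sA2 W)) 0 ((sT σ W)) (h.s _) B.drop.swapT'
  refine dd4 K ?_ ?_ ?_ ?_ <;> simp only [Psi_S2, ins_SS, ins_SX, ins_SY, ins_XS, ins_YS, ins_XY, ins_YX, ins_XX, ins_YY, sa_S, sb_S, sA1_S, sA2_S, sT_S, sa_X, sb_X, sa_Y, sb_Y, sA1_X, sA2_X, sA1_Y, sA2_Y, sT_X, sT_Y, hsym, Fin.reduceEq, if_true, if_false, zS2, zS0, zS3, Fc] <;> ring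

theorem c_S2_S1_S3 {W : Pt V → ℤ} (h : Box W) {σ τ : Equiv.Perm V} (hστ : ∀ x, σ x ≠ τ x) (zS2 : W (pS 2) = 0) (zS1 : W (pS 1) = 0) (zS3 : W (pS 3) = 0) :
    0 ≤ DD (Psi σ τ (pS 2)) W (pS 1) (pS 3) := by
  have B := base_of h hστ
  have hτσ : ∀ x, τ x ≠ σ x := fun x => (hστ x).symm
  have K := R3c_zw ((W (pS 0))) ((sa W)) ((sb W)) ((sA1 W)) ((sA2 W)) ((sT σ W)) 0 (h.s _) B.drop
  simp only [DD, Psi_S2, ins_SS, ins_SX, ins_SY, ins_XS, ins_YS, ins_XY, ins_YX, ins_XX, ins_YY, sa_S, sb_S, sA1_S, sA2_S, sT_S, sa_X, sb_X, sa_Y, sb_Y, sA1_X, sA2_X, sA1_Y, sA2_Y, sT_X, sT_Y, hsym, Fin.reduceEq, if_true, if_false, zS2, zS1, zS3, Fc]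
  linarith only [K]

theorem c_S2_S0_X1 {W : Pt V → ℤ} (h : Box W) {σ τ : Equiv.Perm V} (hστ : ∀ x, σ x ≠ τ x) {x1 : V} (zS2 : W (pS 2) = 0) (zS0 : W (pS 0) = 0) (zX1 : W (pX x1) = 0) :
    0 ≤ DD (Psi σ τ (pS 2)) W (pS 0) (pX x1) := by
  have B := base_of h hστ
  have hτσ : ∀ x, τ x ≠ σ x := fun x => (hστ x).symm
  have K := NR3c_tx ((W (pS 1))) ((W (pS 3))) ((sa W)) ((sb W)) ((sA1 W)) ((sA2 W)) ((sT σ W)) 0 ((W (pY (σ x1)))) 0 (h.s _) (h.s _) B.drop ((pair_Y h hστ (hστ x1)).drop) (loc_X h hστ zX1) (B.drop.loc0)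
  refine dd4 K ?_ ?_ ?_ ?_ <;> simp only [Psi_S2, ins_SS, ins_SX, ins_SY, ins_XS, ins_YS, ins_XY, ins_YX, ins_XX, ins_YY, sa_S, sb_S, sA1_S, sA2_S, sT_S, sa_X, sb_X, sa_Y, sb_Y, sA1_X, sA2_X, sA1_Y, sA2_Y, sT_X, sT_Y, hsym, Fin.reduceEq, if_true, if_false, zS2, zS0, zX1, Fc] <;> ring

theorem c_S2_S1_X1 {W : Pt V → ℤ} (h : Box W) {σ τ : Equiv.Perm V} (hστ : ∀ x, σ x ≠ τ x) {x1 : V} (zS2 : W (pS 2) = 0) (zS1 : W (pS 1) = 0) (zX1 : W (pX x1) = 0) :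
    0 ≤ DD (Psi σ τ (pS 2)) W (pS 1) (pX x1) := by
  have B := base_of h hστ
  have hτσ : ∀ x, τ x ≠ σ x := fun x => (hστ x).symm
  have K := NR3c_zx ((W (pS 0))) ((W (pS 3))) ((sa W)) ((sb W)) ((sA1 W)) ((sA2 W)) ((sT σ W)) 0 ((W (pY (σ x1)))) 0 (h.s _) (h.s _) B.drop ((pair_Y h hστ (hστ x1)).drop) (loc_X h hστ zX1) (B.drop.loc0)
  refine dd4 K ?_ ?_ ?_ ?_ <;> simp only [Psi_S2, ins_SS, ins_SX, ins_SY, ins_XS, ins_YS, ins_XY, ins_YX, ins_XX, ins_YY, sa_S, sb_S, sA1_S, sA2_S, sT_S, sa_X, sb_X, sa_Y, sb_Y, sA1_X, sA2_X, sA1_Y, sA2_Y, sT_X, sT_Y, hsym, Fin.reduceEq, if_true, if_false, zS2, zS1, zX1, Fc] <;> ring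

theorem c_S2_S3_X1 {W : Pt V → ℤ} (h : Box W) {σ τ : Equiv.Perm V} (hστ : ∀ x, σ x ≠ τ x) {x1 : V} (zS2 : W (pS 2) = 0) (zS3 : W (pS 3) = 0) (zX1 : W (pX x1) = 0) :
    0 ≤ DD (Psi σ τ (pS 2)) W (pS 3) (pX x1) := by
  have B := base_of h hστ
  have hτσ : ∀ x, τ x ≠ σ x := fun x => (hστ x).symm
  have K := NR3c_zx ((W (pS 0))) ((W (pS 1))) ((sa W)) ((sb W)) ((sA1 W)) ((sA2 W)) 0 ((sT σ W)) 0 ((W (pY (σ x1)))) (h.s _) (h.s _) B.drop.swapT' ((pair_Y h hστ (hστ x1)).drop.symm) (B.drop.swapT'.loc0) (loc_X h hστ zX1)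
  refine dd4 K ?_ ?_ ?_ ?_ <;> simp only [Psi_S2, ins_SS, ins_SX, ins_SY, ins_XS, ins_YS, ins_XY, ins_YX, ins_XX, ins_YY, sa_S, sb_S, sA1_S, sA2_S, sT_S, sa_X, sb_X, sa_Y, sb_Y, sA1_X, sA2_X, sA1_Y, sA2_Y, sT_X, sT_Y, hsym, Fin.reduceEq, if_true, if_false, zS2, zS3, zX1, Fc] <;> ring

theorem c_S2_S0_Y1 {W : Pt V → ℤ} (h : Box W) {σ τ : Equiv.Perm V} (hστ : ∀ x, σ x ≠ τ x) {y1 : V} (zS2 : W (pS 2) = 0) (zS0 : W (pS 0) = 0) (zY1 : W (pY y1) = 0) :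
    0 ≤ DD (Psi σ τ (pS 2)) W (pS 0) (pY y1) := by
  have B := base_of h hστ
  have hτσ : ∀ x, τ x ≠ σ x := fun x => (hστ x).symm
  have K := NR3c_tx ((W (pS 1))) ((W (pS 3))) ((sb W)) ((sa W)) ((sA2 W)) ((sA1 W)) ((sT σ W)) 0 ((W (pX (σ.symm y1)))) 0 (h.s _) (h.s _) B.drop.swapXY ((pair_X h hστ (symm_ne hστ y1)).drop) (loc_Y h hστ zY1) (B.drop.swapXY.loc0)
  refine dd4 K ?_ ?_ ?_ ?_ <;> simp only [Psi_S2, ins_SS, ins_SX, ins_SY, ins_XS, ins_YS, ins_XY, ins_YX, ins_XX, ins_YY, sa_S, sb_S, sA1_S, sA2_S, sT_S, sa_X, sb_X, sa_Y, sb_Y, sA1_X, sA2_X, sA1_Y, sA2_Y, sT_X, sT_Y, hsym, Fin.reduceEq, if_true, if_false, zS2, zS0, zY1, Fc] <;> ring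

theorem c_S2_S1_Y1 {W : Pt V → ℤ} (h : Box W) {σ τ : Equiv.Perm V} (hστ : ∀ x, σ x ≠ τ x) {y1 : V} (zS2 : W (pS 2) = 0) (zS1 : W (pS 1) = 0) (zY1 : W (pY y1) = 0) :
    0 ≤ DD (Psi σ τ (pS 2)) W (pS 1) (pY y1) := by
  have B := base_of h hστ
  have hτσ : ∀ x, τ x ≠ σ x := fun x => (hστ x).symm
  have K := NR3c_zx ((W (pS 0))) ((W (pS 3))) ((sb W)) ((sa W)) ((sA2 W)) ((sA1 W)) ((sT σ W)) 0 ((W (pX (σ.symm y1)))) 0 (h.s _) (h.s _) B.drop.swapXY ((pair_X h hστ (symm_ne hστ y1)).drop) (loc_Y h hστ zY1) (B.drop.swapXY.loc0)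
  refine dd4 K ?_ ?_ ?_ ?_ <;> simp only [Psi_S2, ins_SS, ins_SX, ins_SY, ins_XS, ins_YS, ins_XY, ins_YX, ins_XX, ins_YY, sa_S, sb_S, sA1_S, sA2_S, sT_S, sa_X, sb_X, sa_Y, sb_Y, sA1_X, sA2_X, sA1_Y, sA2_Y, sT_X, sT_Y, hsym, Fin.reduceEq, if_true, if_false, zS2, zS1, zY1, Fc] <;> ring

theorem c_S2_S3_Y1 {W : Pt V → ℤ} (h : Box W) {σ τ : Equiv.Perm V} (hστ : ∀ x, σ x ≠ τ x) {y1 : V} (zS2 : W (pS 2) = 0) (zS3 : W (pS 3) = 0) (zY1 : W (pY y1) = 0) :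
    0 ≤ DD (Psi σ τ (pS 2)) W (pS 3) (pY y1) := by
  have B := base_of h hστ
  have hτσ : ∀ x, τ x ≠ σ x := fun x => (hστ x).symm
  have K := NR3c_zx ((W (pS 0))) ((W (pS 1))) ((sb W)) ((sa W)) ((sA2 W)) ((sA1 W)) 0 ((sT σ W)) 0 ((W (pX (σ.symm y1)))) (h.s _) (h.s _) B.drop.swapT'.swapXY ((pair_X h hστ (symm_ne hστ y1)).drop.symm) (B.drop.swapT'.swapXY.loc0) (loc_Y h hστ zY1)
  refine dd4 K ?_ ?_ ?_ ?_ <;> simp only [Psi_S2, ins_SS, ins_SX, ins_SY, ins_XS, ins_YS, ins_XY, ins_YX, ins_XX, ins_YY, sa_S, sb_S, sA1_S, sA2_S, sT_S, sa_X, sb_X, sa_Y, sb_Y, sA1_X, sA2_X, sA1_Y, sA2_Y, sT_X, sT_Y, hsym, Fin.reduceEq, if_true, if_false, zS2, zS3, zY1, Fc] <;> ring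

theorem c_S2_X1_X2 {W : Pt V → ℤ} (h : Box W) {σ τ : Equiv.Perm V} (hστ : ∀ x, σ x ≠ τ x) {x1 x2 : V} (nx12 : x1 ≠ x2) (zS2 : W (pS 2) = 0) (zX1 : W (pX x1) = 0) (zX2 : W (pX x2) = 0) :
    0 ≤ DD (Psi σ τ (pS 2)) W (pX x1) (pX x2) := by
  have B := base_of h hστ
  have hτσ : ∀ x, τ x ≠ σ x := fun x => (hστ x).symm
  have K := NR3c_xx ((W (pS 0))) ((W (pS 1))) ((W (pS 3))) ((sa W)) ((sb W)) ((sA1 W)) ((sA2 W)) ((sT σ W)) 0 ((W (pY (σ x1)))) 0 ((W (pY (σ x2)))) 0 (h.s _) (h.s _) (h.s _) B.drop ((pair_Y h hστ (hστ x1)).drop) (pair_Y h hστ (σ.injective.ne nx12)) ((pair_Y h hστ (hστ x1)).drop.symm.drop) ((pair_Y h hστ (hστ x2)).drop)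
  refine dd4 K ?_ ?_ ?_ ?_ <;> simp only [Psi_S2, ins_SS, ins_SX, ins_SY, ins_XS, ins_YS, ins_XY, ins_YX, ins_XX, ins_YY, sa_S, sb_S, sA1_S, sA2_S, sT_S, sa_X, sb_X, sa_Y, sb_Y, sA1_X, sA2_X, sA1_Y, sA2_Y, sT_X, sT_Y, hsym, Fin.reduceEq, if_true, if_false, zS2, zX1, zX2, if_neg nx12, if_neg nx12.symm, Fc] <;> ring

theorem c_S2_Y1_Y2 {W : Pt V → ℤ} (h : Box W) {σ τ : Equiv.Perm V} (hστ : ∀ x, σ x ≠ τ x) {y1 y2 : V} (ny12 : y1 ≠ y2) (zS2 : W (pS 2) = 0) (zY1 : W (pY y1) = 0) (zY2 : W (pY y2) = 0) :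
    0 ≤ DD (Psi σ τ (pS 2)) W (pY y1) (pY y2) := by
  have B := base_of h hστ
  have hτσ : ∀ x, τ x ≠ σ x := fun x => (hστ x).symm
  have K := NR3c_xx ((W (pS 0))) ((W (pS 1))) ((W (pS 3))) ((sb W)) ((sa W)) ((sA2 W)) ((sA1 W)) ((sT σ W)) 0 ((W (pX (σ.symm y1)))) 0 ((W (pX (σ.symm y2)))) 0 (h.s _) (h.s _) (h.s _) B.drop.swapXY ((pair_X h hστ (symm_ne hστ y1)).drop) (pair_X h hστ (σ.symm.injective.ne ny12)) ((pair_X h hστ (symm_ne hστ y1)).drop.symm.drop) ((pair_X h hστ (symm_ne hστ y2)).drop)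
  refine dd4 K ?_ ?_ ?_ ?_ <;> simp only [Psi_S2, ins_SS, ins_SX, ins_SY, ins_XS, ins_YS, ins_XY, ins_YX, ins_XX, ins_YY, sa_S, sb_S, sA1_S, sA2_S, sT_S, sa_X, sb_X, sa_Y, sb_Y, sA1_X, sA2_X, sA1_Y, sA2_Y, sT_X, sT_Y, hsym, Fin.reduceEq, if_true, if_false, zS2, zY1, zY2, if_neg ny12, if_neg ny12.symm, Fc] <;> ring

theorem c_S2_X1_Y1 {W : Pt V → ℤ} (h : Box W) {σ τ : Equiv.Perm V} (hστ : ∀ x, σ x ≠ τ x) {x1 y1 : V} (zS2 : W (pS 2) = 0) (zX1 : W (pX x1) = 0) (zY1 : W (pY y1) = 0) :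
    0 ≤ DD (Psi σ τ (pS 2)) W (pX x1) (pY y1) := by
  have B := base_of h hστ
  have hτσ : ∀ x, τ x ≠ σ x := fun x => (hστ x).symm
  have K := NR3c_xy ((W (pS 0))) ((W (pS 1))) ((W (pS 3))) ((sa W)) ((sb W)) ((sA1 W)) ((sA2 W)) ((sT σ W)) 0 ((W (pY (σ x1)))) 0 ((W (pX (σ.symm y1)))) 0 (((if σ x1 = y1 then (1:ℤ) else 0))) 0 (h.s _) (h.s _) (h.s _) B.drop ((pair_Y h hστ (hστ x1)).drop) ((pair_X h hστ (symm_ne hστ y1)).drop) (hdxy0 _ _ _ (fun e => by rw [e]; exact zY1) (fun e => by rw [← e, Equiv.symm_apply_apply]; exact zX1))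
  refine dd4 K ?_ ?_ ?_ ?_ <;> simp only [Psi_S2, ins_SS, ins_SX, ins_SY, ins_XS, ins_YS, ins_XY, ins_YX, ins_XX, ins_YY, sa_S, sb_S, sA1_S, sA2_S, sT_S, sa_X, sb_X, sa_Y, sb_Y, sA1_X, sA2_X, sA1_Y, sA2_Y, sT_X, sT_Y, hsym, Fin.reduceEq, if_true, if_false, zS2, zX1, zY1, Fc] <;> ring

theorem c_S3_S0_S1 {W : Pt V → ℤ} (h : Box W) {σ τ : Equiv.Perm V} (hστ : ∀ x, σ x ≠ τ x) (zS3 : W (pS 3) = 0) (zS0 : W (pS 0) = 0) (zS1 : W (pS 1) = 0) :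
    0 ≤ DD (Psi σ τ (pS 3)) W (pS 0) (pS 1) := by
  have B := base_of h hστ
  have hτσ : ∀ x, τ x ≠ σ x := fun x => (hστ x).symm
  have K := NR3c_tz ((W (pS 2))) ((sa W)) ((sb W)) ((sA1 W)) ((sA2 W)) ((sT τ W)) 0 (h.s _) B.swapT'.drop
  refine dd4 K ?_ ?_ ?_ ?_ <;> simp only [Psi_S3, ins_SS, ins_SX, ins_SY, ins_XS, ins_YS, ins_XY, ins_YX, ins_XX, ins_YY, sa_S, sb_S, sA1_S, sA2_S, sT_S, sa_X, sb_X, sa_Y, sb_Y, sA1_X, sA2_X, sA1_Y, sA2_Y, sT_X, sT_Y, hsym, Fin.reduceEq, if_true, if_false, zS3, zS0, zS1, Fc] <;> ring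

theorem c_S3_S0_S2 {W : Pt V → ℤ} (h : Box W) {σ τ : Equiv.Perm V} (hστ : ∀ x, σ x ≠ τ x) (zS3 : W (pS 3) = 0) (zS0 : W (pS 0) = 0) (zS2 : W (pS 2) = 0) :
    0 ≤ DD (Psi σ τ (pS 3)) W (pS 0) (pS 2) := by
  have B := base_of h hστ
  have hτσ : ∀ x, τ x ≠ σ x := fun x => (hστ x).symm
  have K := NR3c_tz ((W (pS 1))) ((sa W)) ((sb W)) ((sA1 W)) ((sA2 W)) 0 ((sT τ W)) (h.s _) B.swapT'.drop.swapT'
  refine dd4 K ?_ ?_ ?_ ?_ <;> simp only [Psi_S3, ins_SS, ins_SX, ins_SY, ins_XS, ins_YS, ins_XY, ins_YX, ins_XX, ins_YY, sa_S, sb_S, sA1_S, sA2_S, sT_S, sa_X, sb_X, sa_Y, sb_Y, sA1_X, sA2_X, sA1_Y, sA2_Y, sT_X, sT_Y, hsym, Fin.reduceEq, if_true, if_false, zS3, zS0, zS2, Fc] <;> ring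

theorem c_S3_S1_S2 {W : Pt V → ℤ} (h : Box W) {σ τ : Equiv.Perm V} (hστ : ∀ x, σ x ≠ τ x) (zS3 : W (pS 3) = 0) (zS1 : W (pS 1) = 0) (zS2 : W (pS 2) = 0) :
    0 ≤ DD (Psi σ τ (pS 3)) W (pS 1) (pS 2) := by
  have B := base_of h hστ
  have hτσ : ∀ x, τ x ≠ σ x := fun x => (hστ x).symm
  have K := R3c_zw ((W (pS 0))) ((sa W)) ((sb W)) ((sA1 W)) ((sA2 W)) ((sT τ W)) 0 (h.s _) B.swapT'.drop
  simp only [DD, Psi_S3, ins_SS, ins_SX, ins_SY, ins_XS, ins_YS, ins_XY, ins_YX, ins_XX, ins_YY, sa_S, sb_S, sA1_S, sA2_S, sT_S, sa_X, sb_X, sa_Y, sb_Y, sA1_X, sA2_X, sA1_Y, sA2_Y, sT_X, sT_Y, hsym, Fin.reduceEq, if_true, if_false, zS3, zS1, zS2, Fc]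
  linarith only [K]

theorem c_S3_S0_X1 {W : Pt V → ℤ} (h : Box W) {σ τ : Equiv.Perm V} (hστ : ∀ x, σ x ≠ τ x) {x1 : V} (zS3 : W (pS 3) = 0) (zS0 : W (pS 0) = 0) (zX1 : W (pX x1) = 0) :
    0 ≤ DD (Psi σ τ (pS 3)) W (pS 0) (pX x1) := by
  have B := base_of h hστ
  have hτσ : ∀ x, τ x ≠ σ x := fun x => (hστ x).symm
  have K := NR3c_tx ((W (pS 1))) ((W (pS 2))) ((sa W)) ((sb W)) ((sA1 W)) ((sA2 W)) ((sT τ W)) 0 ((W (pY (τ x1)))) 0 (h.s _) (h.s _) B.swapT'.drop ((pair_Y h hστ (hτσ x1)).drop) (loc_X h hτσ zX1) (B.swapT'.drop.loc0)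
  refine dd4 K ?_ ?_ ?_ ?_ <;> simp only [Psi_S3, ins_SS, ins_SX, ins_SY, ins_XS, ins_YS, ins_XY, ins_YX, ins_XX, ins_YY, sa_S, sb_S, sA1_S, sA2_S, sT_S, sa_X, sb_X, sa_Y, sb_Y, sA1_X, sA2_X, sA1_Y, sA2_Y, sT_X, sT_Y, hsym, Fin.reduceEq, if_true, if_false, zS3, zS0, zX1, Fc] <;> ring

theorem c_S3_S1_X1 {W : Pt V → ℤ} (h : Box W) {σ τ : Equiv.Perm V} (hστ : ∀ x, σ x ≠ τ x) {x1 : V} (zS3 : W (pS 3) = 0) (zS1 : W (pS 1) = 0) (zX1 : W (pX x1) = 0) :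
    0 ≤ DD (Psi σ τ (pS 3)) W (pS 1) (pX x1) := by
  have B := base_of h hστ
  have hτσ : ∀ x, τ x ≠ σ x := fun x => (hστ x).symm
  have K := NR3c_zx ((W (pS 0))) ((W (pS 2))) ((sa W)) ((sb W)) ((sA1 W)) ((sA2 W)) ((sT τ W)) 0 ((W (pY (τ x1)))) 0 (h.s _) (h.s _) B.swapT'.drop ((pair_Y h hστ (hτσ x1)).drop) (loc_X h hτσ zX1) (B.swapT'.drop.loc0)
  refine dd4 K ?_ ?_ ?_ ?_ <;> simp only [Psi_S3, ins_SS, ins_SX, ins_SY, ins_XS, ins_YS, ins_XY, ins_YX, ins_XX, ins_YY, sa_S, sb_S, sA1_S, sA2_S, sT_S, sa_X, sb_X, sa_Y, sb_Y, sA1_X, sA2_X, sA1_Y, sA2_Y, sT_X, sT_Y, hsym, Fin.reduceEq, if_true, if_false, zS3, zS1, zX1, Fc] <;> ring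

theorem c_S3_S2_X1 {W : Pt V → ℤ} (h : Box W) {σ τ : Equiv.Perm V} (hστ : ∀ x, σ x ≠ τ x) {x1 : V} (zS3 : W (pS 3) = 0) (zS2 : W (pS 2) = 0) (zX1 : W (pX x1) = 0) :
    0 ≤ DD (Psi σ τ (pS 3)) W (pS 2) (pX x1) := by
  have B := base_of h hστ
  have hτσ : ∀ x, τ x ≠ σ x := fun x => (hστ x).symm
  have K := NR3c_zx ((W (pS 0))) ((W (pS 1))) ((sa W)) ((sb W)) ((sA1 W)) ((sA2 W)) 0 ((sT τ W)) 0 ((W (pY (τ x1)))) (h.s _) (h.s _) B.swapT'.drop.swapT' ((pair_Y h hστ (hτσ x1)).drop.symm) (B.swapT'.drop.swapT'.loc0) (loc_X h hτσ zX1)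
  refine dd4 K ?_ ?_ ?_ ?_ <;> simp only [Psi_S3, ins_SS, ins_SX, ins_SY, ins_XS, ins_YS, ins_XY, ins_YX, ins_XX, ins_YY, sa_S, sb_S, sA1_S, sA2_S, sT_S, sa_X, sb_X, sa_Y, sb_Y, sA1_X, sA2_X, sA1_Y, sA2_Y, sT_X, sT_Y, hsym, Fin.reduceEq, if_true, if_false, zS3, zS2, zX1, Fc] <;> ring

theorem c_S3_S0_Y1 {W : Pt V → ℤ} (h : Box W) {σ τ : Equiv.Perm V} (hστ : ∀ x, σ x ≠ τ x) {y1 : V} (zS3 : W (pS 3) = 0) (zS0 : W (pS 0) = 0) (zY1 : W (pY y1) = 0) :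
    0 ≤ DD (Psi σ τ (pS 3)) W (pS 0) (pY y1) := by
  have B := base_of h hστ
  have hτσ : ∀ x, τ x ≠ σ x := fun x => (hστ x).symm
  have K := NR3c_tx ((W (pS 1))) ((W (pS 2))) ((sb W)) ((sa W)) ((sA2 W)) ((sA1 W)) ((sT τ W)) 0 ((W (pX (τ.symm y1)))) 0 (h.s _) (h.s _) B.swapT'.drop.swapXY ((pair_X h hστ (symm_ne hτσ y1)).drop) (loc_Y h hτσ zY1) (B.swapT'.drop.swapXY.loc0)
  refine dd4 K ?_ ?_ ?_ ?_ <;> simp only [Psi_S3, ins_SS, ins_SX, ins_SY, ins_XS, ins_YS, ins_XY, ins_YX, ins_XX, ins_YY, sa_S, sb_S, sA1_S, sA2_S, sT_S, sa_X, sb_X, sa_Y, sb_Y, sA1_X, sA2_X, sA1_Y, sA2_Y, sT_X, sT_Y, hsym, Fin.reduceEq, if_true, if_false, zS3, zS0, zY1, Fc] <;> ring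

theorem c_S3_S1_Y1 {W : Pt V → ℤ} (h : Box W) {σ τ : Equiv.Perm V} (hστ : ∀ x, σ x ≠ τ x) {y1 : V} (zS3 : W (pS 3) = 0) (zS1 : W (pS 1) = 0) (zY1 : W (pY y1) = 0) :
    0 ≤ DD (Psi σ τ (pS 3)) W (pS 1) (pY y1) := by
  have B := base_of h hστ
  have hτσ : ∀ x, τ x ≠ σ x := fun x => (hστ x).symm
  have K := NR3c_zx ((W (pS 0))) ((W (pS 2))) ((sb W)) ((sa W)) ((sA2 W)) ((sA1 W)) ((sT τ W)) 0 ((W (pX (τ.symm y1)))) 0 (h.s _) (h.s _) B.swapT'.drop.swapXY ((pair_X h hστ (symm_ne hτσ y1)).drop) (loc_Y h hτσ zY1) (B.swapT'.drop.swapXY.loc0)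
  refine dd4 K ?_ ?_ ?_ ?_ <;> simp only [Psi_S3, ins_SS, ins_SX, ins_SY, ins_XS, ins_YS, ins_XY, ins_YX, ins_XX, ins_YY, sa_S, sb_S, sA1_S, sA2_S, sT_S, sa_X, sb_X, sa_Y, sb_Y, sA1_X, sA2_X, sA1_Y, sA2_Y, sT_X, sT_Y, hsym, Fin.reduceEq, if_true, if_false, zS3, zS1, zY1, Fc] <;> ring

theorem c_S3_S2_Y1 {W : Pt V → ℤ} (h : Box W) {σ τ : Equiv.Perm V} (hστ : ∀ x, σ x ≠ τ x) {y1 : V} (zS3 : W (pS 3) = 0) (zS2 : W (pS 2) = 0) (zY1 : W (pY y1) = 0) :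
    0 ≤ DD (Psi σ τ (pS 3)) W (pS 2) (pY y1) := by
  have B := base_of h hστ
  have hτσ : ∀ x, τ x ≠ σ x := fun x => (hστ x).symm
  have K := NR3c_zx ((W (pS 0))) ((W (pS 1))) ((sb W)) ((sa W)) ((sA2 W)) ((sA1 W)) 0 ((sT τ W)) 0 ((W (pX (τ.symm y1)))) (h.s _) (h.s _) B.swapT'.drop.swapT'.swapXY ((pair_X h hστ (symm_ne hτσ y1)).drop.symm) (B.swapT'.drop.swapT'.swapXY.loc0) (loc_Y h hτσ zY1)
  refine dd4 K ?_ ?_ ?_ ?_ <;> simp only [Psi_S3, ins_SS, ins_SX, ins_SY, ins_XS, ins_YS, ins_XY, ins_YX, ins_XX, ins_YY, sa_S, sb_S, sA1_S, sA2_S, sT_S, sa_X, sb_X, sa_Y, sb_Y, sA1_X, sA2_X, sA1_Y, sA2_Y, sT_X, sT_Y, hsym, Fin.reduceEq, if_true, if_false, zS3, zS2, zY1, Fc] <;> ring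

theorem c_S3_X1_X2 {W : Pt V → ℤ} (h : Box W) {σ τ : Equiv.Perm V} (hστ : ∀ x, σ x ≠ τ x) {x1 x2 : V} (nx12 : x1 ≠ x2) (zS3 : W (pS 3) = 0) (zX1 : W (pX x1) = 0) (zX2 : W (pX x2) = 0) :
    0 ≤ DD (Psi σ τ (pS 3)) W (pX x1) (pX x2) := by
  have B := base_of h hστ
  have hτσ : ∀ x, τ x ≠ σ x := fun x => (hστ x).symm
  have K := NR3c_xx ((W (pS 0))) ((W (pS 1))) ((W (pS 2))) ((sa W)) ((sb W)) ((sA1 W)) ((sA2 W)) ((sT τ W)) 0 ((W (pY (τ x1)))) 0 ((W (pY (τ x2)))) 0 (h.s _) (h.s _) (h.s _) B.swapT'.drop ((pair_Y h hστ (hτσ x1)).drop) (pair_Y h hστ (τ.injective.ne nx12)) ((pair_Y h hστ (hστ x1)).drop.symm.drop) ((pair_Y h hστ (hτσ x2)).drop)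
  refine dd4 K ?_ ?_ ?_ ?_ <;> simp only [Psi_S3, ins_SS, ins_SX, ins_SY, ins_XS, ins_YS, ins_XY, ins_YX, ins_XX, ins_YY, sa_S, sb_S, sA1_S, sA2_S, sT_S, sa_X, sb_X, sa_Y, sb_Y, sA1_X, sA2_X, sA1_Y, sA2_Y, sT_X, sT_Y, hsym, Fin.reduceEq, if_true, if_false, zS3, zX1, zX2, if_neg nx12, if_neg nx12.symm, Fc] <;> ring

theorem c_S3_Y1_Y2 {W : Pt V → ℤ} (h : Box W) {σ τ : Equiv.Perm V} (hστ : ∀ x, σ x ≠ τ x) {y1 y2 : V} (ny12 : y1 ≠ y2) (zS3 : W (pS 3) = 0) (zY1 : W (pY y1) = 0) (zY2 : W (pY y2) = 0) :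
    0 ≤ DD (Psi σ τ (pS 3)) W (pY y1) (pY y2) := by
  have B := base_of h hστ
  have hτσ : ∀ x, τ x ≠ σ x := fun x => (hστ x).symm
  have K := NR3c_xx ((W (pS 0))) ((W (pS 1))) ((W (pS 2))) ((sb W)) ((sa W)) ((sA2 W)) ((sA1 W)) ((sT τ W)) 0 ((W (pX (τ.symm y1)))) 0 ((W (pX (τ.symm y2)))) 0 (h.s _) (h.s _) (h.s _) B.swapT'.drop.swapXY ((pair_X h hστ (symm_ne hτσ y1)).drop) (pair_X h hστ (τ.symm.injective.ne ny12)) ((pair_X h hστ (symm_ne hστ y1)).drop.symm.drop) ((pair_X h hστ (symm_ne hτσ y2)).drop)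
  refine dd4 K ?_ ?_ ?_ ?_ <;> simp only [Psi_S3, ins_SS, ins_SX, ins_SY, ins_XS, ins_YS, ins_XY, ins_YX, ins_XX, ins_YY, sa_S, sb_S, sA1_S, sA2_S, sT_S, sa_X, sb_X, sa_Y, sb_Y, sA1_X, sA2_X, sA1_Y, sA2_Y, sT_X, sT_Y, hsym, Fin.reduceEq, if_true, if_false, zS3, zY1, zY2, if_neg ny12, if_neg ny12.symm, Fc] <;> ring

theorem c_S3_X1_Y1 {W : Pt V → ℤ} (h : Box W) {σ τ : Equiv.Perm V} (hστ : ∀ x, σ x ≠ τ x) {x1 y1 : V} (zS3 : W (pS 3) = 0) (zX1 : W (pX x1) = 0) (zY1 : W (pY y1) = 0) :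
    0 ≤ DD (Psi σ τ (pS 3)) W (pX x1) (pY y1) := by
  have B := base_of h hστ
  have hτσ : ∀ x, τ x ≠ σ x := fun x => (hστ x).symm
  have K := NR3c_xy ((W (pS 0))) ((W (pS 1))) ((W (pS 2))) ((sa W)) ((sb W)) ((sA1 W)) ((sA2 W)) ((sT τ W)) 0 ((W (pY (τ x1)))) 0 ((W (pX (τ.symm y1)))) 0 (((if τ x1 = y1 then (1:ℤ) else 0))) 0 (h.s _) (h.s _) (h.s _) B.swapT'.drop ((pair_Y h hστ (hτσ x1)).drop) ((pair_X h hστ (symm_ne hτσ y1)).drop) (hdxy0 _ _ _ (fun e => by rw [e]; exact zY1) (fun e => by rw [← e, Equiv.symm_apply_apply]; exact zX1))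
  refine dd4 K ?_ ?_ ?_ ?_ <;> simp only [Psi_S3, ins_SS, ins_SX, ins_SY, ins_XS, ins_YS, ins_XY, ins_YX, ins_XX, ins_YY, sa_S, sb_S, sA1_S, sA2_S, sT_S, sa_X, sb_X, sa_Y, sb_Y, sA1_X, sA2_X, sA1_Y, sA2_Y, sT_X, sT_Y, hsym, Fin.reduceEq, if_true, if_false, zS3, zX1, zY1, Fc] <;> ring

end Pool.Agent.H34.BM
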