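import Pool.Agent.H34.BMa
import Pool.Agent.H34.BNb
import Pool.Agent.H34.BNc
import Pool.Agent.H34.BNd

set_option autoImplicit false
set_option linter.unusedVariables false
set_option linter.unusedSimpArgs false
set_option linter.unusedSectionVars false

namespace Pool.Agent.H34.BM

variable {V : Type} [Fintype V] [DecidableEq V]

theorem c_X0_S0_S1 {W : Pt V → ℤ} (h : Box W) {σ τ : Equiv.Perm V} (hστ : ∀ x, σ x ≠ τ x) {x0 : V} (zX0 : W (pX x0) = 0) (zS0 : W (pS 0) = 0) (zS1 : W (pS 1) = 0) :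
    0 ≤ DD (Psi σ τ (pX x0)) W (pS 0) (pS 1) := by
  have B := base_of h hστ
  have hτσ : ∀ x, τ x ≠ σ x := fun x => (hστ x).symm
  have K := NR3x_tc ((W (pS 2))) ((W (pS 3))) ((sa W)) ((sb W)) ((sA2 W)) ((W (pY (σ x0)))) ((W (pY (τ x0)))) (h.s _) (h.s _) B.h_a (pair_Y h hστ (hστ x0))
  refine dd4 K ?_ ?_ ?_ ?_ <;> simp only [Psi_X, ins_SS, ins_SX, ins_SY, ins_XS, ins_YS, ins_XY, ins_YX, ins_XX, ins_YY, sa_S, sb_S, sA1_S, sA2_S, sT_S, sa_X, sb_X, sa_Y, sb_Y, sA1_X, sA2_X, sA1_Y, sA2_Y, sT_X, sT_Y, hsym, Fin.reduceEq, if_true, if_false, zX0, zS0, zS1, Gx] <;> ring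

theorem c_X0_S0_S2 {W : Pt V → ℤ} (h : Box W) {σ τ : Equiv.Perm V} (hστ : ∀ x, σ x ≠ τ x) {x0 : V} (zX0 : W (pX x0) = 0) (zS0 : W (pS 0) = 0) (zS2 : W (pS 2) = 0) :
    0 ≤ DD (Psi σ τ (pX x0)) W (pS 0) (pS 2) := by
  have B := base_of h hστ
  have hτσ : ∀ x, τ x ≠ σ x := fun x => (hστ x).symm
  have K := NR3x_tz ((W (pS 1))) ((W (pS 3))) ((sa W)) ((sb W)) ((sA2 W)) ((W (pY (σ x0)))) ((W (pY (τ x0)))) (h.s _) (h.s _) B.h_a (pair_Y h hστ (hστ x0))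
  refine dd4 K ?_ ?_ ?_ ?_ <;> simp only [Psi_X, ins_SS, ins_SX, ins_SY, ins_XS, ins_YS, ins_XY, ins_YX, ins_XX, ins_YY, sa_S, sb_S, sA1_S, sA2_S, sT_S, sa_X, sb_X, sa_Y, sb_Y, sA1_X, sA2_X, sA1_Y, sA2_Y, sT_X, sT_Y, hsym, Fin.reduceEq, if_true, if_false, zX0, zS0, zS2, Gx] <;> ring

theorem c_X0_S0_S3 {W : Pt V → ℤ} (h : Box W) {σ τ : Equiv.Perm V} (hστ : ∀ x, σ x ≠ τ x) {x0 : V} (zX0 : W (pX x0) = 0) (zS0 : W (pS 0) = 0) (zS3 : W (pS 3) = 0) :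
    0 ≤ DD (Psi σ τ (pX x0)) W (pS 0) (pS 3) := by
  have B := base_of h hστ
  have hτσ : ∀ x, τ x ≠ σ x := fun x => (hστ x).symm
  have K := NR3x_tz ((W (pS 1))) ((W (pS 2))) ((sa W)) ((sb W)) ((sA2 W)) ((W (pY (τ x0)))) ((W (pY (σ x0)))) (h.s _) (h.s _) B.h_a (pair_Y h hστ (hτσ x0))
  refine dd4 K ?_ ?_ ?_ ?_ <;> simp only [Psi_X, ins_SS, ins_SX, ins_SY, ins_XS, ins_YS, ins_XY, ins_YX, ins_XX, ins_YY, sa_S, sb_S, sA1_S, sA2_S, sT_S, sa_X, sb_X, sa_Y, sb_Y, sA1_X, sA2_X, sA1_Y, sA2_Y, sT_X, sT_Y, hsym, Fin.reduceEq, if_true, if_false, zX0, zS0, zS3, Gx] <;> ring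

theorem c_X0_S1_S2 {W : Pt V → ℤ} (h : Box W) {σ τ : Equiv.Perm V} (hστ : ∀ x, σ x ≠ τ x) {x0 : V} (zX0 : W (pX x0) = 0) (zS1 : W (pS 1) = 0) (zS2 : W (pS 2) = 0) :
    0 ≤ DD (Psi σ τ (pX x0)) W (pS 1) (pS 2) := by
  have B := base_of h hστ
  have hτσ : ∀ x, τ x ≠ σ x := fun x => (hστ x).symm
  have K := NR3x_cz ((W (pS 3))) ((sa W) + (W (pS 0))) ((sb W)) ((sA2 W)) ((W (pY (σ x0)))) ((W (pY (τ x0)))) (h.s _) (by have := h.s0 0; have := B.h_a; linarith) (pair_Y h hστ (hστ x0))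
  refine dd4 K ?_ ?_ ?_ ?_ <;> simp only [Psi_X, ins_SS, ins_SX, ins_SY, ins_XS, ins_YS, ins_XY, ins_YX, ins_XX, ins_YY, sa_S, sb_S, sA1_S, sA2_S, sT_S, sa_X, sb_X, sa_Y, sb_Y, sA1_X, sA2_X, sA1_Y, sA2_Y, sT_X, sT_Y, hsym, Fin.reduceEq, if_true, if_false, zX0, zS1, zS2, Gx] <;> ring

theorem c_X0_S1_S3 {W : Pt V → ℤ} (h : Box W) {σ τ : Equiv.Perm V} (hστ : ∀ x, σ x ≠ τ x) {x0 : V} (zX0 : W (pX x0) = 0) (zS1 : W (pS 1) = 0) (zS3 : W (pS 3) = 0) :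
    0 ≤ DD (Psi σ τ (pX x0)) W (pS 1) (pS 3) := by
  have B := base_of h hστ
  have hτσ : ∀ x, τ x ≠ σ x := fun x => (hστ x).symm
  have K := NR3x_cz ((W (pS 2))) ((sa W) + (W (pS 0))) ((sb W)) ((sA2 W)) ((W (pY (τ x0)))) ((W (pY (σ x0)))) (h.s _) (by have := h.s0 0; have := B.h_a; linarith) (pair_Y h hστ (hτσ x0))
  refine dd4 K ?_ ?_ ?_ ?_ <;> simp only [Psi_X, ins_SS, ins_SX, ins_SY, ins_XS, ins_YS, ins_XY, ins_YX, ins_XX, ins_YY, sa_S, sb_S, sA1_S, sA2_S, sT_S, sa_X, sb_X, sa_Y, sb_Y, sA1_X, sA2_X, sA1_Y, sA2_Y, sT_X, sT_Y, hsym, Fin.reduceEq, if_true, if_false, zX0, zS1, zS3, Gx] <;> ring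

theorem c_X0_S2_S3 {W : Pt V → ℤ} (h : Box W) {σ τ : Equiv.Perm V} (hστ : ∀ x, σ x ≠ τ x) {x0 : V} (zX0 : W (pX x0) = 0) (zS2 : W (pS 2) = 0) (zS3 : W (pS 3) = 0) :
    0 ≤ DD (Psi σ τ (pX x0)) W (pS 2) (pS 3) := by
  have B := base_of h hστ
  have hτσ : ∀ x, τ x ≠ σ x := fun x => (hστ x).symm
  have K := NR3x_zw ((W (pS 1))) ((sa W) + (W (pS 0))) ((sb W)) ((sA2 W)) ((W (pY (σ x0)))) ((W (pY (τ x0)))) (h.s _) (by have := h.s0 0; have := B.h_a; linarith) (pair_Y h hστ (hστ x0))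
  refine dd4 K ?_ ?_ ?_ ?_ <;> simp only [Psi_X, ins_SS, ins_SX, ins_SY, ins_XS, ins_YS, ins_XY, ins_YX, ins_XX, ins_YY, sa_S, sb_S, sA1_S, sA2_S, sT_S, sa_X, sb_X, sa_Y, sb_Y, sA1_X, sA2_X, sA1_Y, sA2_Y, sT_X, sT_Y, hsym, Fin.reduceEq, if_true, if_false, zX0, zS2, zS3, Gx] <;> ring

theorem c_X0_S0_X1 {W : Pt V → ℤ} (h : Box W) {σ τ : Equiv.Perm V} (hστ : ∀ x, σ x ≠ τ x) {x0 x1 : V} (nx01 : x0 ≠ x1) (zX0 : W (pX x0) = 0) (zS0 : W (pS 0) = 0) (zX1 : W (pX x1) = 0) :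
    0 ≤ DD (Psi σ τ (pX x0)) W (pS 0) (pX x1) := by
  have B := base_of h hστ
  have hτσ : ∀ x, τ x ≠ σ x := fun x => (hστ x).symm
  have K := mul_self_nonneg (2 * (sb W) * (W (pS 1)) + 2 * (sb W) * (W (pS 3)) + 2 * (sb W) * (W (pS 2)) + 2 * (W (pS 1)) * (W (pS 3)) + 2 * (W (pS 1)) * (W (pS 2)) + 2 * (W (pS 3)) * (W (pS 2)))
  simp only [DD, Psi_X, ins_SS, ins_SX, ins_SY, ins_XS, ins_YS, ins_XY, ins_YX, ins_XX, ins_YY, sa_S, sb_S, sA1_S, sA2_S, sT_S, sa_X, sb_X, sa_Y, sb_Y, sA1_X, sA2_X, sA1_Y, sA2_Y, sT_X, sT_Y, hsym, Fin.reduceEq, if_true, if_false, zX0, zS0, zX1, if_neg nx01, if_neg nx01.symm, Gx]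
  linarith only [K]

theorem c_X0_S1_X1 {W : Pt V → ℤ} (h : Box W) {σ τ : Equiv.Perm V} (hστ : ∀ x, σ x ≠ τ x) {x0 x1 : V} (nx01 : x0 ≠ x1) (zX0 : W (pX x0) = 0) (zS1 : W (pS 1) = 0) (zX1 : W (pX x1) = 0) :
    0 ≤ DD (Psi σ τ (pX x0)) W (pS 1) (pX x1) := by
  have B := base_of h hστ
  have hτσ : ∀ x, τ x ≠ σ x := fun x => (hστ x).symm
  have K := NR3x_tc ((W (pS 2))) ((W (pS 3))) ((sa W) + (W (pS 0))) ((sb W)) ((sA2 W)) ((W (pY (σ x0)))) ((W (pY (τ x0)))) (h.s _) (h.s _) (by have := h.s0 0; have := B.h_a; linarith) (pair_Y h hστ (hστ x0))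
  refine dd4' K ?_ ?_ ?_ ?_ <;> simp only [Psi_X, ins_SS, ins_SX, ins_SY, ins_XS, ins_YS, ins_XY, ins_YX, ins_XX, ins_YY, sa_S, sb_S, sA1_S, sA2_S, sT_S, sa_X, sb_X, sa_Y, sb_Y, sA1_X, sA2_X, sA1_Y, sA2_Y, sT_X, sT_Y, hsym, Fin.reduceEq, if_true, if_false, zX0, zS1, zX1, if_neg nx01, if_neg nx01.symm, Gx] <;> ring

theorem c_X0_S2_X1 {W : Pt V → ℤ} (h : Box W) {σ τ : Equiv.Perm V} (hστ : ∀ x, σ x ≠ τ x) {x0 x1 : V} (nx01 : x0 ≠ x1) (zX0 : W (pX x0) = 0) (zS2 : W (pS 2) = 0) (zX1 : W (pX x1) = 0) :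
    0 ≤ DD (Psi σ τ (pX x0)) W (pS 2) (pX x1) := by
  have B := base_of h hστ
  have hτσ : ∀ x, τ x ≠ σ x := fun x => (hστ x).symm
  have K := NR3x_tz ((W (pS 1))) ((W (pS 3))) ((sa W) + (W (pS 0))) ((sb W)) ((sA2 W)) ((W (pY (σ x0)))) ((W (pY (τ x0)))) (h.s _) (h.s _) (by have := h.s0 0; have := B.h_a; linarith) (pair_Y h hστ (hστ x0))
  refine dd4' K ?_ ?_ ?_ ?_ <;> simp only [Psi_X, ins_SS, ins_SX, ins_SY, ins_XS, ins_YS, ins_XY, ins_YX, ins_XX, ins_YY, sa_S, sb_S, sA1_S, sA2_S, sT_S, sa_X, sb_X, sa_Y, sb_Y, sA1_X, sA2_X, sA1_Y, sA2_Y, sT_X, sT_Y, hsym, Fin.reduceEq, if_true, if_false, zX0, zS2, zX1, if_neg nx01, if_neg nx01.symm, Gx] <;> ring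

theorem c_X0_S3_X1 {W : Pt V → ℤ} (h : Box W) {σ τ : Equiv.Perm V} (hστ : ∀ x, σ x ≠ τ x) {x0 x1 : V} (nx01 : x0 ≠ x1) (zX0 : W (pX x0) = 0) (zS3 : W (pS 3) = 0) (zX1 : W (pX x1) = 0) :
    0 ≤ DD (Psi σ τ (pX x0)) W (pS 3) (pX x1) := by
  have B := base_of h hστ
  have hτσ : ∀ x, τ x ≠ σ x := fun x => (hστ x).symm
  have K := NR3x_tz ((W (pS 1))) ((W (pS 2))) ((sa W) + (W (pS 0))) ((sb W)) ((sA2 W)) ((W (pY (τ x0)))) ((W (pY (σ x0)))) (h.s _) (h.s _) (by have := h.s0 0; have := B.h_a; linarith) (pair_Y h hστ (hτσ x0))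
  refine dd4' K ?_ ?_ ?_ ?_ <;> simp only [Psi_X, ins_SS, ins_SX, ins_SY, ins_XS, ins_YS, ins_XY, ins_YX, ins_XX, ins_YY, sa_S, sb_S, sA1_S, sA2_S, sT_S, sa_X, sb_X, sa_Y, sb_Y, sA1_X, sA2_X, sA1_Y, sA2_Y, sT_X, sT_Y, hsym, Fin.reduceEq, if_true, if_false, zX0, zS3, zX1, if_neg nx01, if_neg nx01.symm, Gx] <;> ring

theorem c_X0_S0_Y1 {W : Pt V → ℤ} (h : Box W) {σ τ : Equiv.Perm V} (hστ : ∀ x, σ x ≠ τ x) {x0 y1 : V} (zX0 : W (pX x0) = 0) (zS0 : W (pS 0) = 0) (zY1 : W (pY y1) = 0) :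
    0 ≤ DD (Psi σ τ (pX x0)) W (pS 0) (pY y1) := by
  have B := base_of h hστ
  have hτσ : ∀ x, τ x ≠ σ x := fun x => (hστ x).symm
  have K := NR3x_ty ((W (pS 1))) ((W (pS 2))) ((W (pS 3))) ((sa W)) ((sb W)) ((sA2 W)) ((W (pY (σ x0)))) ((W (pY (τ x0)))) (((if σ x0 = y1 then (1:ℤ) else 0))) (((if τ x0 = y1 then (1:ℤ) else 0))) (h.s _) (h.s _) (h.s _) B.h_a (pair_Y h hστ (hστ x0)) (hdy _ _ _ _ (fun e1 e2 => hστ _ (e1.trans e2.symm)) (fun e => by rw [e]; exact zY1) (fun e => by rw [e]; exact zY1))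
  refine dd4 K ?_ ?_ ?_ ?_ <;> simp only [Psi_X, ins_SS, ins_SX, ins_SY, ins_XS, ins_YS, ins_XY, ins_YX, ins_XX, ins_YY, sa_S, sb_S, sA1_S, sA2_S, sT_S, sa_X, sb_X, sa_Y, sb_Y, sA1_X, sA2_X, sA1_Y, sA2_Y, sT_X, sT_Y, hsym, Fin.reduceEq, if_true, if_false, zX0, zS0, zY1, Gx] <;> ring

theorem c_X0_S1_Y1 {W : Pt V → ℤ} (h : Box W) {σ τ : Equiv.Perm V} (hστ : ∀ x, σ x ≠ τ x) {x0 y1 : V} (zX0 : W (pX x0) = 0) (zS1 : W (pS 1) = 0) (zY1 : W (pY y1) = 0) :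
    0 ≤ DD (Psi σ τ (pX x0)) W (pS 1) (pY y1) := by
  have B := base_of h hστ
  have hτσ : ∀ x, τ x ≠ σ x := fun x => (hστ x).symm
  have K := NR3x_cy ((W (pS 2))) ((W (pS 3))) ((sa W) + (W (pS 0))) ((sb W)) ((sA2 W)) ((W (pY (σ x0)))) ((W (pY (τ x0)))) (((if σ x0 = y1 then (1:ℤ) else 0))) (((if τ x0 = y1 then (1:ℤ) else 0))) (h.s _) (h.s _) (by have := h.s0 0; have := B.h_a; linarith) (pair_Y h hστ (hστ x0)) (hdy _ _ _ _ (fun e1 e2 => hστ _ (e1.trans e2.symm)) (fun e => by rw [e]; exact zY1) (fun e => by rw [e]; exact zY1))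
  refine dd4 K ?_ ?_ ?_ ?_ <;> simp only [Psi_X, ins_SS, ins_SX, ins_SY, ins_XS, ins_YS, ins_XY, ins_YX, ins_XX, ins_YY, sa_S, sb_S, sA1_S, sA2_S, sT_S, sa_X, sb_X, sa_Y, sb_Y, sA1_X, sA2_X, sA1_Y, sA2_Y, sT_X, sT_Y, hsym, Fin.reduceEq, if_true, if_false, zX0, zS1, zY1, Gx] <;> ring

theorem c_X0_S2_Y1 {W : Pt V → ℤ} (h : Box W) {σ τ : Equiv.Perm V} (hστ : ∀ x, σ x ≠ τ x) {x0 y1 : V} (zX0 : W (pX x0) = 0) (zS2 : W (pS 2) = 0) (zY1 : W (pY y1) = 0) :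
    0 ≤ DD (Psi σ τ (pX x0)) W (pS 2) (pY y1) := by
  have B := base_of h hστ
  have hτσ : ∀ x, τ x ≠ σ x := fun x => (hστ x).symm
  have K := NR3x_zy ((W (pS 1))) ((W (pS 3))) ((sa W) + (W (pS 0))) ((sb W)) ((sA2 W)) ((W (pY (σ x0)))) ((W (pY (τ x0)))) (((if σ x0 = y1 then (1:ℤ) else 0))) (((if τ x0 = y1 then (1:ℤ) else 0))) (h.s _) (h.s _) (by have := h.s0 0; have := B.h_a; linarith) (pair_Y h hστ (hστ x0)) (hdy _ _ _ _ (fun e1 e2 => hστ _ (e1.trans e2.symm)) (fun e => by rw [e]; exact zY1) (fun e => by rw [e]; exact zY1))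
  refine dd4 K ?_ ?_ ?_ ?_ <;> simp only [Psi_X, ins_SS, ins_SX, ins_SY, ins_XS, ins_YS, ins_XY, ins_YX, ins_XX, ins_YY, sa_S, sb_S, sA1_S, sA2_S, sT_S, sa_X, sb_X, sa_Y, sb_Y, sA1_X, sA2_X, sA1_Y, sA2_Y, sT_X, sT_Y, hsym, Fin.reduceEq, if_true, if_false, zX0, zS2, zY1, Gx] <;> ring

theorem c_X0_S3_Y1 {W : Pt V → ℤ} (h : Box W) {σ τ : Equiv.Perm V} (hστ : ∀ x, σ x ≠ τ x) {x0 y1 : V} (zX0 : W (pX x0) = 0) (zS3 : W (pS 3) = 0) (zY1 : W (pY y1) = 0) :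
    0 ≤ DD (Psi σ τ (pX x0)) W (pS 3) (pY y1) := by
  have B := base_of h hστ
  have hτσ : ∀ x, τ x ≠ σ x := fun x => (hστ x).symm
  have K := NR3x_zy ((W (pS 1))) ((W (pS 2))) ((sa W) + (W (pS 0))) ((sb W)) ((sA2 W)) ((W (pY (τ x0)))) ((W (pY (σ x0)))) (((if τ x0 = y1 then (1:ℤ) else 0))) (((if σ x0 = y1 then (1:ℤ) else 0))) (h.s _) (h.s _) (by have := h.s0 0; have := B.h_a; linarith) (pair_Y h hστ (hτσ x0)) (hdy _ _ _ _ (fun e1 e2 => hτσ _ (e1.trans e2.symm)) (fun e => by rw [e]; exact zY1) (fun e => by rw [e]; exact zY1))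
  refine dd4 K ?_ ?_ ?_ ?_ <;> simp only [Psi_X, ins_SS, ins_SX, ins_SY, ins_XS, ins_YS, ins_XY, ins_YX, ins_XX, ins_YY, sa_S, sb_S, sA1_S, sA2_S, sT_S, sa_X, sb_X, sa_Y, sb_Y, sA1_X, sA2_X, sA1_Y, sA2_Y, sT_X, sT_Y, hsym, Fin.reduceEq, if_true, if_false, zX0, zS3, zY1, Gx] <;> ring

theorem c_X0_X1_X2 {W : Pt V → ℤ} (h : Box W) {σ τ : Equiv.Perm V} (hστ : ∀ x, σ x ≠ τ x) {x0 x1 x2 : V} (nx01 : x0 ≠ x1) (nx02 : x0 ≠ x2) (nx12 : x1 ≠ x2) (zX0 : W (pX x0) = 0) (zX1 : W (pX x1) = 0) (zX2 : W (pX x2) = 0) :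
    0 ≤ DD (Psi σ τ (pX x0)) W (pX x1) (pX x2) := by
  have B := base_of h hστ
  have hτσ : ∀ x, τ x ≠ σ x := fun x => (hστ x).symm
  have K := mul_self_nonneg (2 * (sb W) * (W (pS 1)) + 2 * (sb W) * (W (pS 3)) + 2 * (sb W) * (W (pS 2)) + 2 * (W (pS 1)) * (W (pS 3)) + 2 * (W (pS 1)) * (W (pS 2)) + 2 * (W (pS 3)) * (W (pS 2)))
  simp only [DD, Psi_X, ins_SS, ins_SX, ins_SY, ins_XS, ins_YS, ins_XY, ins_YX, ins_XX, ins_YY, sa_S, sb_S, sA1_S, sA2_S, sT_S, sa_X, sb_X, sa_Y, sb_Y, sA1_X, sA2_X, sA1_Y, sA2_Y, sT_X, sT_Y, hsym, Fin.reduceEq, if_true, if_false, zX0, zX1, zX2, if_neg nx01, if_neg nx01.symm, if_neg nx02, if_neg nx02.symm, if_neg nx12, if_neg nx12.symm, Gx]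
  linarith only [K]

theorem c_X0_Y1_Y2 {W : Pt V → ℤ} (h : Box W) {σ τ : Equiv.Perm V} (hστ : ∀ x, σ x ≠ τ x) {x0 y1 y2 : V} (ny12 : y1 ≠ y2) (zX0 : W (pX x0) = 0) (zY1 : W (pY y1) = 0) (zY2 : W (pY y2) = 0) :
    0 ≤ DD (Psi σ τ (pX x0)) W (pY y1) (pY y2) := by
  have B := base_of h hστ
  have hτσ : ∀ x, τ x ≠ σ x := fun x => (hστ x).symm
  have K := NR3x_yy ((W (pS 1))) ((W (pS 2))) ((W (pS 3))) ((sa W) + (W (pS 0))) ((sb W)) ((sA2 W)) ((W (pY (σ x0)))) ((W (pY (τ x0)))) (((if σ x0 = y1 then (1:ℤ) else 0))) (((if τ x0 = y1 then (1:ℤ) else 0))) (((if σ x0 = y2 then (1:ℤ) else 0))) (((if τ x0 = y2 then (1:ℤ) else 0))) (h.s _) (h.s _) (h.s _) (by have := h.s0 0; have := B.h_a; linarith) (pair_Y h hστ (hστ x0)) (hdyy _ _ _ _ _ _ (fun e1 e2 => hστ _ (e1.trans e2.symm)) (fun e1 e2 => hστ _ (e1.trans e2.symm))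 (fun e1 e2 => ny12 (e1.symm.trans e2)) (fun e1 e2 => ny12 (e1.symm.trans e2)) (fun e => by rw [e]; exact zY1) (fun e => by rw [e]; exact zY1) (fun e => by rw [e]; exact zY2) (fun e => by rw [e]; exact zY2))
  refine dd4 K ?_ ?_ ?_ ?_ <;> simp only [Psi_X, ins_SS, ins_SX, ins_SY, ins_XS, ins_YS, ins_XY, ins_YX, ins_XX, ins_YY, sa_S, sb_S, sA1_S, sA2_S, sT_S, sa_X, sb_X, sa_Y, sb_Y, sA1_X, sA2_X, sA1_Y, sA2_Y, sT_X, sT_Y, hsym, Fin.reduceEq, if_true, if_false, zX0, zY1, zY2, if_neg ny12, if_neg ny12.symm, Gx] <;> ring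

theorem c_X0_X1_Y1 {W : Pt V → ℤ} (h : Box W) {σ τ : Equiv.Perm V} (hστ : ∀ x, σ x ≠ τ x) {x0 x1 y1 : V} (nx01 : x0 ≠ x1) (zX0 : W (pX x0) = 0) (zX1 : W (pX x1) = 0) (zY1 : W (pY y1) = 0) :
    0 ≤ DD (Psi σ τ (pX x0)) W (pX x1) (pY y1) := by
  have B := base_of h hστ
  have hτσ : ∀ x, τ x ≠ σ x := fun x => (hστ x).symm
  have K := NR3x_ty ((W (pS 1))) ((W (pS 2))) ((W (pS 3))) ((sa W) + (W (pS 0))) ((sb W)) ((sA2 W)) ((W (pY (σ x0)))) ((W (pY (τ x0)))) (((if σ x0 = y1 then (1:ℤ) else 0))) (((if τ x0 = y1 then (1:ℤ) else 0))) (h.s _) (h.s _) (h.s _) (by have := h.s0 0; have := B.h_a; linarith) (pair_Y h hστ (hστ x0)) (hdy _ _ _ _ (fun e1 e2 => hστ _ (e1.trans e2.symm)) (fun e => by rw [e]; exact zY1) (fun e => by rw [e]; exact zY1))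
  refine dd4 K ?_ ?_ ?_ ?_ <;> simp only [Psi_X, ins_SS, ins_SX, ins_SY, ins_XS, ins_YS, ins_XY, ins_YX, ins_XX, ins_YY, sa_S, sb_S, sA1_S, sA2_S, sT_S, sa_X, sb_X, sa_Y, sb_Y, sA1_X, sA2_X, sA1_Y, sA2_Y, sT_X, sT_Y, hsym, Fin.reduceEq, if_true, if_false, zX0, zX1, zY1, if_neg nx01, if_neg nx01.symm, Gx] <;> ring

theorem c_Y0_S0_S1 {W : Pt V → ℤ} (h : Box W) {σ τ : Equiv.Perm V} (hστ : ∀ x, σ x ≠ τ x) {y0 : V} (zY0 : W (pY y0) = 0) (zS0 : W (pS 0) = 0) (zS1 : W (pS 1) = 0) :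
    0 ≤ DD (Psi σ τ (pY y0)) W (pS 0) (pS 1) := by
  have B := base_of h hστ
  have hτσ : ∀ x, τ x ≠ σ x := fun x => (hστ x).symm
  have K := NR3x_tc ((W (pS 2))) ((W (pS 3))) ((sb W)) ((sa W)) ((sA1 W)) ((W (pX (σ.symm y0)))) ((W (pX (τ.symm y0)))) (h.s _) (h.s _) B.h_b (pair_X h hστ (symm_ne hστ y0))
  refine dd4 K ?_ ?_ ?_ ?_ <;> simp only [Psi_Y, ins_SS, ins_SX, ins_SY, ins_XS, ins_YS, ins_XY, ins_YX, ins_XX, ins_YY, sa_S, sb_S, sA1_S, sA2_S, sT_S, sa_X, sb_X, sa_Y, sb_Y, sA1_X, sA2_X, sA1_Y, sA2_Y, sT_X, sT_Y, hsym, Fin.reduceEq, if_true, if_false, zY0, zS0, zS1, Gx] <;> ring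

theorem c_Y0_S0_S2 {W : Pt V → ℤ} (h : Box W) {σ τ : Equiv.Perm V} (hστ : ∀ x, σ x ≠ τ x) {y0 : V} (zY0 : W (pY y0) = 0) (zS0 : W (pS 0) = 0) (zS2 : W (pS 2) = 0) :
    0 ≤ DD (Psi σ τ (pY y0)) W (pS 0) (pS 2) := by
  have B := base_of h hστ
  have hτσ : ∀ x, τ x ≠ σ x := fun x => (hστ x).symm
  have K := NR3x_tz ((W (pS 1))) ((W (pS 3))) ((sb W)) ((sa W)) ((sA1 W)) ((W (pX (σ.symm y0)))) ((W (pX (τ.symm y0)))) (h.s _) (h.s _) B.h_b (pair_X h hστ (symm_ne hστ y0))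
  refine dd4 K ?_ ?_ ?_ ?_ <;> simp only [Psi_Y, ins_SS, ins_SX, ins_SY, ins_XS, ins_YS, ins_XY, ins_YX, ins_XX, ins_YY, sa_S, sb_S, sA1_S, sA2_S, sT_S, sa_X, sb_X, sa_Y, sb_Y, sA1_X, sA2_X, sA1_Y, sA2_Y, sT_X, sT_Y, hsym, Fin.reduceEq, if_true, if_false, zY0, zS0, zS2, Gx] <;> ring

theorem c_Y0_S0_S3 {W : Pt V → ℤ} (h : Box W) {σ τ : Equiv.Perm V} (hστ : ∀ x, σ x ≠ τ x) {y0 : V} (zY0 : W (pY y0) = 0) (zS0 : W (pS 0) = 0) (zS3 : W (pS 3) = 0) :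
    0 ≤ DD (Psi σ τ (pY y0)) W (pS 0) (pS 3) := by
  have B := base_of h hστ
  have hτσ : ∀ x, τ x ≠ σ x := fun x => (hστ x).symm
  have K := NR3x_tz ((W (pS 1))) ((W (pS 2))) ((sb W)) ((sa W)) ((sA1 W)) ((W (pX (τ.symm y0)))) ((W (pX (σ.symm y0)))) (h.s _) (h.s _) B.h_b (pair_X h hστ (symm_ne hτσ y0))
  refine dd4 K ?_ ?_ ?_ ?_ <;> simp only [Psi_Y, ins_SS, ins_SX, ins_SY, ins_XS, ins_YS, ins_XY, ins_YX, ins_XX, ins_YY, sa_S, sb_S, sA1_S, sA2_S, sT_S, sa_X, sb_X, sa_Y, sb_Y, sA1_X, sA2_X, sA1_Y, sA2_Y, sT_X, sT_Y, hsym, Fin.reduceEq, if_true, if_false, zY0, zS0, zS3, Gx] <;> ring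

theorem c_Y0_S1_S2 {W : Pt V → ℤ} (h : Box W) {σ τ : Equiv.Perm V} (hστ : ∀ x, σ x ≠ τ x) {y0 : V} (zY0 : W (pY y0) = 0) (zS1 : W (pS 1) = 0) (zS2 : W (pS 2) = 0) :
    0 ≤ DD (Psi σ τ (pY y0)) W (pS 1) (pS 2) := by
  have B := base_of h hστ
  have hτσ : ∀ x, τ x ≠ σ x := fun x => (hστ x).symm
  have K := NR3x_cz ((W (pS 3))) ((sb W) + (W (pS 0))) ((sa W)) ((sA1 W)) ((W (pX (σ.symm y0)))) ((W (pX (τ.symm y0)))) (h.s _) (by have := h.s0 0; have := B.h_b; linarith) (pair_X h hστ (symm_ne hστ y0))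
  refine dd4 K ?_ ?_ ?_ ?_ <;> simp only [Psi_Y, ins_SS, ins_SX, ins_SY, ins_XS, ins_YS, ins_XY, ins_YX, ins_XX, ins_YY, sa_S, sb_S, sA1_S, sA2_S, sT_S, sa_X, sb_X, sa_Y, sb_Y, sA1_X, sA2_X, sA1_Y, sA2_Y, sT_X, sT_Y, hsym, Fin.reduceEq, if_true, if_false, zY0, zS1, zS2, Gx] <;> ring

theorem c_Y0_S1_S3 {W : Pt V → ℤ} (h : Box W) {σ τ : Equiv.Perm V} (hστ : ∀ x, σ x ≠ τ x) {y0 : V} (zY0 : W (pY y0) = 0) (zS1 : W (pS 1) = 0) (zS3 : W (pS 3) = 0) :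
    0 ≤ DD (Psi σ τ (pY y0)) W (pS 1) (pS 3) := by
  have B := base_of h hστ
  have hτσ : ∀ x, τ x ≠ σ x := fun x => (hστ x).symm
  have K := NR3x_cz ((W (pS 2))) ((sb W) + (W (pS 0))) ((sa W)) ((sA1 W)) ((W (pX (τ.symm y0)))) ((W (pX (σ.symm y0)))) (h.s _) (by have := h.s0 0; have := B.h_b; linarith) (pair_X h hστ (symm_ne hτσ y0))
  refine dd4 K ?_ ?_ ?_ ?_ <;> simp only [Psi_Y, ins_SS, ins_SX, ins_SY, ins_XS, ins_YS, ins_XY, ins_YX, ins_XX, ins_YY, sa_S, sb_S, sA1_S, sA2_S, sT_S, sa_X, sb_X, sa_Y, sb_Y, sA1_X, sA2_X, sA1_Y, sA2_Y, sT_X, sT_Y, hsym, Fin.reduceEq, if_true, if_false, zY0, zS1, zS3, Gx] <;> ring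

theorem c_Y0_S2_S3 {W : Pt V → ℤ} (h : Box W) {σ τ : Equiv.Perm V} (hστ : ∀ x, σ x ≠ τ x) {y0 : V} (zY0 : W (pY y0) = 0) (zS2 : W (pS 2) = 0) (zS3 : W (pS 3) = 0) :
    0 ≤ DD (Psi σ τ (pY y0)) W (pS 2) (pS 3) := by
  have B := base_of h hστ
  have hτσ : ∀ x, τ x ≠ σ x := fun x => (hστ x).symm
  have K := NR3x_zw ((W (pS 1))) ((sb W) + (W (pS 0))) ((sa W)) ((sA1 W)) ((W (pX (σ.symm y0)))) ((W (pX (τ.symm y0)))) (h.s _) (by have := h.s0 0; have := B.h_b; linarith) (pair_X h hστ (symm_ne hστ y0))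
  refine dd4 K ?_ ?_ ?_ ?_ <;> simp only [Psi_Y, ins_SS, ins_SX, ins_SY, ins_XS, ins_YS, ins_XY, ins_YX, ins_XX, ins_YY, sa_S, sb_S, sA1_S, sA2_S, sT_S, sa_X, sb_X, sa_Y, sb_Y, sA1_X, sA2_X, sA1_Y, sA2_Y, sT_X, sT_Y, hsym, Fin.reduceEq, if_true, if_false, zY0, zS2, zS3, Gx] <;> ring

theorem c_Y0_S0_X1 {W : Pt V → ℤ} (h : Box W) {σ τ : Equiv.Perm V} (hστ : ∀ x, σ x ≠ τ x) {x1 y0 : V} (zY0 : W (pY y0) = 0) (zS0 : W (pS 0) = 0) (zX1 : W (pX x1) = 0) :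
    0 ≤ DD (Psi σ τ (pY y0)) W (pS 0) (pX x1) := by
  have B := base_of h hστ
  have hτσ : ∀ x, τ x ≠ σ x := fun x => (hστ x).symm
  have K := NR3x_ty ((W (pS 1))) ((W (pS 2))) ((W (pS 3))) ((sb W)) ((sa W)) ((sA1 W)) ((W (pX (σ.symm y0)))) ((W (pX (τ.symm y0)))) (((if σ x1 = y0 then (1:ℤ) else 0))) (((if τ x1 = y0 then (1:ℤ) else 0))) (h.s _) (h.s _) (h.s _) B.h_b (pair_X h hστ (symm_ne hστ y0)) (hdy _ _ _ _ (fun e1 e2 => hστ _ (e1.trans e2.symm)) (fun e => by rw [← e, Equiv.symm_apply_apply]; exact zX1) (fun e => by rw [← e, Equiv.symm_apply_apply]; exact zX1))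
  refine dd4 K ?_ ?_ ?_ ?_ <;> simp only [Psi_Y, ins_SS, ins_SX, ins_SY, ins_XS, ins_YS, ins_XY, ins_YX, ins_XX, ins_YY, sa_S, sb_S, sA1_S, sA2_S, sT_S, sa_X, sb_X, sa_Y, sb_Y, sA1_X, sA2_X, sA1_Y, sA2_Y, sT_X, sT_Y, hsym, Fin.reduceEq, if_true, if_false, zY0, zS0, zX1, Gx] <;> ring

theorem c_Y0_S1_X1 {W : Pt V → ℤ} (h : Box W) {σ τ : Equiv.Perm V} (hστ : ∀ x, σ x ≠ τ x) {x1 y0 : V} (zY0 : W (pY y0) = 0) (zS1 : W (pS 1) = 0) (zX1 : W (pX x1) = 0) :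
    0 ≤ DD (Psi σ τ (pY y0)) W (pS 1) (pX x1) := by
  have B := base_of h hστ
  have hτσ : ∀ x, τ x ≠ σ x := fun x => (hστ x).symm
  have K := NR3x_cy ((W (pS 2))) ((W (pS 3))) ((sb W) + (W (pS 0))) ((sa W)) ((sA1 W)) ((W (pX (σ.symm y0)))) ((W (pX (τ.symm y0)))) (((if σ x1 = y0 then (1:ℤ) else 0))) (((if τ x1 = y0 then (1:ℤ) else 0))) (h.s _) (h.s _) (by have := h.s0 0; have := B.h_b; linarith) (pair_X h hστ (symm_ne hστ y0)) (hdy _ _ _ _ (fun e1 e2 => hστ _ (e1.trans e2.symm)) (fun e => by rw [← e, Equiv.symm_apply_apply]; exact zX1) (fun e => by rw [← e, Equiv.symm_apply_apply]; exact zX1))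
  refine dd4 K ?_ ?_ ?_ ?_ <;> simp only [Psi_Y, ins_SS, ins_SX, ins_SY, ins_XS, ins_YS, ins_XY, ins_YX, ins_XX, ins_YY, sa_S, sb_S, sA1_S, sA2_S, sT_S, sa_X, sb_X, sa_Y, sb_Y, sA1_X, sA2_X, sA1_Y, sA2_Y, sT_X, sT_Y, hsym, Fin.reduceEq, if_true, if_false, zY0, zS1, zX1, Gx] <;> ring

theorem c_Y0_S2_X1 {W : Pt V → ℤ} (h : Box W) {σ τ : Equiv.Perm V} (hστ : ∀ x, σ x ≠ τ x) {x1 y0 : V} (zY0 : W (pY y0) = 0) (zS2 : W (pS 2) = 0) (zX1 : W (pX x1) = 0) :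
    0 ≤ DD (Psi σ τ (pY y0)) W (pS 2) (pX x1) := by
  have B := base_of h hστ
  have hτσ : ∀ x, τ x ≠ σ x := fun x => (hστ x).symm
  have K := NR3x_zy ((W (pS 1))) ((W (pS 3))) ((sb W) + (W (pS 0))) ((sa W)) ((sA1 W)) ((W (pX (σ.symm y0)))) ((W (pX (τ.symm y0)))) (((if σ x1 = y0 then (1:ℤ) else 0))) (((if τ x1 = y0 then (1:ℤ) else 0))) (h.s _) (h.s _) (by have := h.s0 0; have := B.h_b; linarith) (pair_X h hστ (symm_ne hστ y0)) (hdy _ _ _ _ (fun e1 e2 => hστ _ (e1.trans e2.symm)) (fun e => by rw [← e, Equiv.symm_apply_apply]; exact zX1) (fun e => by rw [← e, Equiv.symm_apply_apply]; exact zX1))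
  refine dd4 K ?_ ?_ ?_ ?_ <;> simp only [Psi_Y, ins_SS, ins_SX, ins_SY, ins_XS, ins_YS, ins_XY, ins_YX, ins_XX, ins_YY, sa_S, sb_S, sA1_S, sA2_S, sT_S, sa_X, sb_X, sa_Y, sb_Y, sA1_X, sA2_X, sA1_Y, sA2_Y, sT_X, sT_Y, hsym, Fin.reduceEq, if_true, if_false, zY0, zS2, zX1, Gx] <;> ring

theorem c_Y0_S3_X1 {W : Pt V → ℤ} (h : Box W) {σ τ : Equiv.Perm V} (hστ : ∀ x, σ x ≠ τ x) {x1 y0 : V} (zY0 : W (pY y0) = 0) (zS3 : W (pS 3) = 0) (zX1 : W (pX x1) = 0) :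
    0 ≤ DD (Psi σ τ (pY y0)) W (pS 3) (pX x1) := by
  have B := base_of h hστ
  have hτσ : ∀ x, τ x ≠ σ x := fun x => (hστ x).symm
  have K := NR3x_zy ((W (pS 1))) ((W (pS 2))) ((sb W) + (W (pS 0))) ((sa W)) ((sA1 W)) ((W (pX (τ.symm y0)))) ((W (pX (σ.symm y0)))) (((if τ x1 = y0 then (1:ℤ) else 0))) (((if σ x1 = y0 then (1:ℤ) else 0))) (h.s _) (h.s _) (by have := h.s0 0; have := B.h_b; linarith) (pair_X h hστ (symm_ne hτσ y0)) (hdy _ _ _ _ (fun e1 e2 => hτσ _ (e1.trans e2.symm)) (fun e => by rw [← e, Equiv.symm_apply_apply]; exact zX1) (fun e => by rw [← e, Equiv.symm_apply_apply]; exact zX1))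
  refine dd4 K ?_ ?_ ?_ ?_ <;> simp only [Psi_Y, ins_SS, ins_SX, ins_SY, ins_XS, ins_YS, ins_XY, ins_YX, ins_XX, ins_YY, sa_S, sb_S, sA1_S, sA2_S, sT_S, sa_X, sb_X, sa_Y, sb_Y, sA1_X, sA2_X, sA1_Y, sA2_Y, sT_X, sT_Y, hsym, Fin.reduceEq, if_true, if_false, zY0, zS3, zX1, Gx] <;> ring

theorem c_Y0_S0_Y1 {W : Pt V → ℤ} (h : Box W) {σ τ : Equiv.Perm V} (hστ : ∀ x, σ x ≠ τ x) {y0 y1 : V} (ny01 : y0 ≠ y1) (zY0 : W (pY y0) = 0) (zS0 : W (pS 0) = 0) (zY1 : W (pY y1) = 0) :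
    0 ≤ DD (Psi σ τ (pY y0)) W (pS 0) (pY y1) := by
  have B := base_of h hστ
  have hτσ : ∀ x, τ x ≠ σ x := fun x => (hστ x).symm
  have K := mul_self_nonneg (2 * (sa W) * (W (pS 1)) + 2 * (sa W) * (W (pS 3)) + 2 * (sa W) * (W (pS 2)) + 2 * (W (pS 1)) * (W (pS 3)) + 2 * (W (pS 1)) * (W (pS 2)) + 2 * (W (pS 3)) * (W (pS 2)))
  simp only [DD, Psi_Y, ins_SS, ins_SX, ins_SY, ins_XS, ins_YS, ins_XY, ins_YX, ins_XX, ins_YY, sa_S, sb_S, sA1_S, sA2_S, sT_S, sa_X, sb_X, sa_Y, sb_Y, sA1_X, sA2_X, sA1_Y, sA2_Y, sT_X, sT_Y, hsym, Fin.reduceEq, if_true, if_false, zY0, zS0, zY1, if_neg ny01, if_neg ny01.symm, Gx]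
  linarith only [K]

theorem c_Y0_S1_Y1 {W : Pt V → ℤ} (h : Box W) {σ τ : Equiv.Perm V} (hστ : ∀ x, σ x ≠ τ x) {y0 y1 : V} (ny01 : y0 ≠ y1) (zY0 : W (pY y0) = 0) (zS1 : W (pS 1) = 0) (zY1 : W (pY y1) = 0) :
    0 ≤ DD (Psi σ τ (pY y0)) W (pS 1) (pY y1) := by
  have B := base_of h hστ
  have hτσ : ∀ x, τ x ≠ σ x := fun x => (hστ x).symm
  have K := NR3x_tc ((W (pS 2))) ((W (pS 3))) ((sb W) + (W (pS 0))) ((sa W)) ((sA1 W)) ((W (pX (σ.symm y0)))) ((W (pX (τ.symm y0)))) (h.s _) (h.s _) (by have := h.s0 0; have := B.h_b; linarith) (pair_X h hστ (symm_ne hστ y0))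
  refine dd4' K ?_ ?_ ?_ ?_ <;> simp only [Psi_Y, ins_SS, ins_SX, ins_SY, ins_XS, ins_YS, ins_XY, ins_YX, ins_XX, ins_YY, sa_S, sb_S, sA1_S, sA2_S, sT_S, sa_X, sb_X, sa_Y, sb_Y, sA1_X, sA2_X, sA1_Y, sA2_Y, sT_X, sT_Y, hsym, Fin.reduceEq, if_true, if_false, zY0, zS1, zY1, if_neg ny01, if_neg ny01.symm, Gx] <;> ring

theorem c_Y0_S2_Y1 {W : Pt V → ℤ} (h : Box W) {σ τ : Equiv.Perm V} (hστ : ∀ x, σ x ≠ τ x) {y0 y1 : V} (ny01 : y0 ≠ y1) (zY0 : W (pY y0) = 0) (zS2 : W (pS 2) = 0) (zY1 : W (pY y1) = 0) :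
    0 ≤ DD (Psi σ τ (pY y0)) W (pS 2) (pY y1) := by
  have B := base_of h hστ
  have hτσ : ∀ x, τ x ≠ σ x := fun x => (hστ x).symm
  have K := NR3x_tz ((W (pS 1))) ((W (pS 3))) ((sb W) + (W (pS 0))) ((sa W)) ((sA1 W)) ((W (pX (σ.symm y0)))) ((W (pX (τ.symm y0)))) (h.s _) (h.s _) (by have := h.s0 0; have := B.h_b; linarith) (pair_X h hστ (symm_ne hστ y0))
  refine dd4' K ?_ ?_ ?_ ?_ <;> simp only [Psi_Y, ins_SS, ins_SX, ins_SY, ins_XS, ins_YS, ins_XY, ins_YX, ins_XX, ins_YY, sa_S, sb_S, sA1_S, sA2_S, sT_S, sa_X, sb_X, sa_Y, sb_Y, sA1_X, sA2_X, sA1_Y, sA2_Y, sT_X, sT_Y, hsym, Fin.reduceEq, if_true, if_false, zY0, zS2, zY1, if_neg ny01, if_neg ny01.symm, Gx] <;> ring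

theorem c_Y0_S3_Y1 {W : Pt V → ℤ} (h : Box W) {σ τ : Equiv.Perm V} (hστ : ∀ x, σ x ≠ τ x) {y0 y1 : V} (ny01 : y0 ≠ y1) (zY0 : W (pY y0) = 0) (zS3 : W (pS 3) = 0) (zY1 : W (pY y1) = 0) :
    0 ≤ DD (Psi σ τ (pY y0)) W (pS 3) (pY y1) := by
  have B := base_of h hστ
  have hτσ : ∀ x, τ x ≠ σ x := fun x => (hστ x).symm
  have K := NR3x_tz ((W (pS 1))) ((W (pS 2))) ((sb W) + (W (pS 0))) ((sa W)) ((sA1 W)) ((W (pX (τ.symm y0)))) ((W (pX (σ.symm y0)))) (h.s _) (h.s _) (by have := h.s0 0; have := B.h_b; linarith) (pair_X h hστ (symm_ne hτσ y0))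
  refine dd4' K ?_ ?_ ?_ ?_ <;> simp only [Psi_Y, ins_SS, ins_SX, ins_SY, ins_XS, ins_YS, ins_XY, ins_YX, ins_XX, ins_YY, sa_S, sb_S, sA1_S, sA2_S, sT_S, sa_X, sb_X, sa_Y, sb_Y, sA1_X, sA2_X, sA1_Y, sA2_Y, sT_X, sT_Y, hsym, Fin.reduceEq, if_true, if_false, zY0, zS3, zY1, if_neg ny01, if_neg ny01.symm, Gx] <;> ring

theorem c_Y0_X1_X2 {W : Pt V → ℤ} (h : Box W) {σ τ : Equiv.Perm V} (hστ : ∀ x, σ x ≠ τ x) {x1 x2 y0 : V} (nx12 : x1 ≠ x2) (zY0 : W (pY y0) = 0) (zX1 : W (pX x1) = 0) (zX2 : W (pX x2) = 0) :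
    0 ≤ DD (Psi σ τ (pY y0)) W (pX x1) (pX x2) := by
  have B := base_of h hστ
  have hτσ : ∀ x, τ x ≠ σ x := fun x => (hστ x).symm
  have K := NR3x_yy ((W (pS 1))) ((W (pS 2))) ((W (pS 3))) ((sb W) + (W (pS 0))) ((sa W)) ((sA1 W)) ((W (pX (σ.symm y0)))) ((W (pX (τ.symm y0)))) (((if σ x1 = y0 then (1:ℤ) else 0))) (((if τ x1 = y0 then (1:ℤ) else 0))) (((if σ x2 = y0 then (1:ℤ) else 0))) (((if τ x2 = y0 then (1:ℤ) else 0))) (h.s _) (h.s _) (h.s _) (by have := h.s0 0; have := B.h_b; linarith) (pair_X h hστ (symm_ne hστ y0)) (hdyy _ _ _ _ _ _ (fun e1 e2 => hστ _ (e1.trans e2.symm)) (fun e1 e2 => hστ _ (e1.trans e2.symm)) (fun e1 e2 => nx12 (σ.injective (e1.trans e2.symm))) (fun e1 e2 => nx12 (τ.injective (e1.trans e2.symm))) (fun e => by rw [← e, Equiv.symm_apply_apply]; exact zX1) (fun e => by rw [← e, Equiv.symm_apply_apply];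 exact zX1) (fun e => by rw [← e, Equiv.symm_apply_apply]; exact zX2) (fun e => by rw [← e, Equiv.symm_apply_apply]; exact zX2))
  refine dd4 K ?_ ?_ ?_ ?_ <;> simp only [Psi_Y, ins_SS, ins_SX, ins_SY, ins_XS, ins_YS, ins_XY, ins_YX, ins_XX, ins_YY, sa_S, sb_S, sA1_S, sA2_S, sT_S, sa_X, sb_X, sa_Y, sb_Y, sA1_X, sA2_X, sA1_Y, sA2_Y, sT_X, sT_Y, hsym, Fin.reduceEq, if_true, if_false, zY0, zX1, zX2, if_neg nx12, if_neg nx12.symm, Gx] <;> ring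

theorem c_Y0_Y1_Y2 {W : Pt V → ℤ} (h : Box W) {σ τ : Equiv.Perm V} (hστ : ∀ x, σ x ≠ τ x) {y0 y1 y2 : V} (ny01 : y0 ≠ y1) (ny02 : y0 ≠ y2) (ny12 : y1 ≠ y2) (zY0 : W (pY y0) = 0) (zY1 : W (pY y1) = 0) (zY2 : W (pY y2) = 0) :
    0 ≤ DD (Psi σ τ (pY y0)) W (pY y1) (pY y2) := by
  have B := base_of h hστ
  have hτσ : ∀ x, τ x ≠ σ x := fun x => (hστ x).symm
  have K := mul_self_nonneg (2 * (sa W) * (W (pS 1)) + 2 * (sa W) * (W (pS 3)) + 2 * (sa W) * (W (pS 2)) + 2 * (W (pS 1)) * (W (pS 3)) + 2 * (W (pS 1)) * (W (pS 2)) + 2 * (W (pS 3)) * (W (pS 2)))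
  simp only [DD, Psi_Y, ins_SS, ins_SX, ins_SY, ins_XS, ins_YS, ins_XY, ins_YX, ins_XX, ins_YY, sa_S, sb_S, sA1_S, sA2_S, sT_S, sa_X, sb_X, sa_Y, sb_Y, sA1_X, sA2_X, sA1_Y, sA2_Y, sT_X, sT_Y, hsym, Fin.reduceEq, if_true, if_false, zY0, zY1, zY2, if_neg ny01, if_neg ny01.symm, if_neg ny02, if_neg ny02.symm, if_neg ny12, if_neg ny12.symm, Gx]
  linarith only [K]

theorem c_Y0_X1_Y1 {W : Pt V → ℤ} (h : Box W) {σ τ : Equiv.Perm V} (hστ : ∀ x, σ x ≠ τ x) {x1 y0 y1 : V} (ny01 : y0 ≠ y1) (zY0 : W (pY y0) = 0) (zX1 : W (pX x1) = 0) (zY1 : W (pY y1) = 0) :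
    0 ≤ DD (Psi σ τ (pY y0)) W (pX x1) (pY y1) := by
  have B := base_of h hστ
  have hτσ : ∀ x, τ x ≠ σ x := fun x => (hστ x).symm
  have K := NR3x_ty ((W (pS 1))) ((W (pS 2))) ((W (pS 3))) ((sb W) + (W (pS 0))) ((sa W)) ((sA1 W)) ((W (pX (σ.symm y0)))) ((W (pX (τ.symm y0)))) (((if σ x1 = y0 then (1:ℤ) else 0))) (((if τ x1 = y0 then (1:ℤ) else 0))) (h.s _) (h.s _) (h.s _) (by have := h.s0 0; have := B.h_b; linarith) (pair_X h hστ (symm_ne hστ y0)) (hdy _ _ _ _ (fun e1 e2 => hστ _ (e1.trans e2.symm)) (fun e => by rw [← e, Equiv.symm_apply_apply]; exact zX1) (fun e => by rw [← e, Equiv.symm_apply_apply]; exact zX1))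
  refine dd4' K ?_ ?_ ?_ ?_ <;> simp only [Psi_Y, ins_SS, ins_SX, ins_SY, ins_XS, ins_YS, ins_XY, ins_YX, ins_XX, ins_YY, sa_S, sb_S, sA1_S, sA2_S, sT_S, sa_X, sb_X, sa_Y, sb_Y, sA1_X, sA2_X, sA1_Y, sA2_Y, sT_X, sT_Y, hsym, Fin.reduceEq, if_true, if_false, zY0, zX1, zY1, if_neg ny01, if_neg ny01.symm, Gx] <;> ring

end Pool.Agent.H34.BM
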