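import Pool.Agent.H34.BNp
import Pool.Agent.H34.BNq
import Pool.Agent.H34.BNr
import Pool.Agent.H34.BNs

set_option autoImplicit false
set_option linter.unusedVariables false
set_option linter.unusedSectionVars false

namespace Pool.Agent.H34.BM
open Finset

variable {V : Type} [Fintype V] [DecidableEq V]

lemma pt_cases' (p : Pt V) : p = pS 0 ∨ p = pS 1 ∨ p = pS 2 ∨ p = pS 3 ∨ (∃ x, p = pX x) ∨
    ∃ y, p = pY y := by
  rcases pt_cases p with ⟨k, rfl⟩ | h | h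
  · fin_cases k <;> simp
  · simp [h]
  · simp [h]

theorem core0z {W : Pt V → ℤ} (h : Box W) {σ τ : Equiv.Perm V} (hστ : ∀ x, σ x ≠ τ x)
    (hc : sa W = 0 ∨ 2 ≤ Om σ τ W) (p q : Pt V) (hpq : p ≠ q) (zp : W p = 0) (zq : W q = 0) :
    0 ≤ DD (Phi σ τ) W p q := by
  rcases pt_cases' p with rfl | rfl | rfl | rfl | ⟨u, rfl⟩ | ⟨u, rfl⟩ <;>
    rcases pt_cases' q with rfl | rfl | rfl | rfl | ⟨v, rfl⟩ | ⟨v, rfl⟩
  · exact absurd rfl hpq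
  · exact c_n_S0_S1 h hστ  zp zq hc
  · exact c_n_S0_S2 h hστ  zp zq
  · exact c_n_S0_S3 h hστ  zp zq
  · exact c_n_S0_X1 h hστ  zp zq
  · exact c_n_S0_Y1 h hστ  zp zq
  · rw [DD_symm]; exact c_n_S0_S1 h hστ  zq zp hc
  · exact absurd rfl hpq
  · exact c_n_S1_S2 h hστ  zp zq
  · exact c_n_S1_S3 h hστ  zp zq
  · exact c_n_S1_X1 h hστ  zp zq
  · exact c_n_S1_Y1 h hστ  zp zq
  · rw [DD_symm]; exact c_n_S0_S2 h hστ  zq zp
  · rw [DD_symm]; exact c_n_S1_S2 h hστ  zq zp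
  · exact absurd rfl hpq
  · exact c_n_S2_S3 h hστ  zp zq
  · exact c_n_S2_X1 h hστ  zp zq
  · exact c_n_S2_Y1 h hστ  zp zq
  · rw [DD_symm]; exact c_n_S0_S3 h hστ  zq zp
  · rw [DD_symm]; exact c_n_S1_S3 h hστ  zq zp
  · rw [DD_symm]; exact c_n_S2_S3 h hστ  zq zp
  · exact absurd rfl hpq
  · exact c_n_S3_X1 h hστ  zp zq
  · exact c_n_S3_Y1 h hστ  zp zq
  · rw [DD_symm]; exact c_n_S0_X1 h hστ  zq zp
  · rw [DD_symm]; exact c_n_S1_X1 h hστ  zq zp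
  · rw [DD_symm]; exact c_n_S2_X1 h hστ  zq zp
  · rw [DD_symm]; exact c_n_S3_X1 h hστ  zq zp
  · exact c_n_X1_X2 h hστ (fun e => hpq (by rw [e])) zp zq
  · exact c_n_X1_Y1 h hστ  zp zq
  · rw [DD_symm]; exact c_n_S0_Y1 h hστ  zq zp
  · rw [DD_symm]; exact c_n_S1_Y1 h hστ  zq zp
  · rw [DD_symm]; exact c_n_S2_Y1 h hστ  zq zp
  · rw [DD_symm]; exact c_n_S3_Y1 h hστ  zq zp
  · rw [DD_symm]; exact c_n_X1_Y1 h hστ  zq zp
  · exact c_n_Y1_Y2 h hστ (fun e => hpq (by rw [e])) zp zq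

theorem core1z_S0 {W : Pt V → ℤ} (h : Box W) {σ τ : Equiv.Perm V} (hστ : ∀ x, σ x ≠ τ x)
    (p q : Pt V) (hpq : p ≠ q) (hgp : (pS 0) ≠ p) (hgq : (pS 0) ≠ q)
    (zg : W (pS 0) = 0) (zp : W p = 0) (zq : W q = 0) :
    0 ≤ DD (Psi σ τ (pS 0)) W p q := by
  rcases pt_cases' p with rfl | rfl | rfl | rfl | ⟨u, rfl⟩ | ⟨u, rfl⟩ <;>
    rcases pt_cases' q with rfl | rfl | rfl | rfl | ⟨v, rfl⟩ | ⟨v, rfl⟩
  · exact absurd rfl hpq
  · exact absurd rfl hgp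
  · exact absurd rfl hgp
  · exact absurd rfl hgp
  · exact absurd rfl hgp
  · exact absurd rfl hgp
  · exact absurd rfl hgq
  · exact absurd rfl hpq
  · exact c_S0_S1_S2 h hστ  zg zp zq
  · exact c_S0_S1_S3 h hστ  zg zp zq
  · exact c_S0_S1_X1 h hστ  zg zp zq
  · exact c_S0_S1_Y1 h hστ  zg zp zq
  · exact absurd rfl hgq
  · rw [DD_symm]; exact c_S0_S1_S2 h hστ  zg zq zp
  · exact absurd rfl hpq
  · exact c_S0_S2_S3 h hστ  zg zp zq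
  · exact c_S0_S2_X1 h hστ  zg zp zq
  · exact c_S0_S2_Y1 h hστ  zg zp zq
  · exact absurd rfl hgq
  · rw [DD_symm]; exact c_S0_S1_S3 h hστ  zg zq zp
  · rw [DD_symm]; exact c_S0_S2_S3 h hστ  zg zq zp
  · exact absurd rfl hpq
  · exact c_S0_S3_X1 h hστ  zg zp zq
  · exact c_S0_S3_Y1 h hστ  zg zp zq
  · exact absurd rfl hgq
  · rw [DD_symm]; exact c_S0_S1_X1 h hστ  zg zq zp
  · rw [DD_symm]; exact c_S0_S2_X1 h hστ  zg zq zp
  · rw [DD_symm]; exact c_S0_S3_X1 h hστ  zg zq zp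
  · exact c_S0_X1_X2 h hστ (fun e => hpq (by rw [e])) zg zp zq
  · exact c_S0_X1_Y1 h hστ  zg zp zq
  · exact absurd rfl hgq
  · rw [DD_symm]; exact c_S0_S1_Y1 h hστ  zg zq zp
  · rw [DD_symm]; exact c_S0_S2_Y1 h hστ  zg zq zp
  · rw [DD_symm]; exact c_S0_S3_Y1 h hστ  zg zq zp
  · rw [DD_symm]; exact c_S0_X1_Y1 h hστ  zg zq zp
  · exact c_S0_Y1_Y2 h hστ (fun e => hpq (by rw [e])) zg zp zq

theorem core1z_S1 {W : Pt V → ℤ} (h : Box W) {σ τ : Equiv.Perm V} (hστ : ∀ x, σ x ≠ τ x)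
    (p q : Pt V) (hpq : p ≠ q) (hgp : (pS 1) ≠ p) (hgq : (pS 1) ≠ q)
    (zg : W (pS 1) = 0) (zp : W p = 0) (zq : W q = 0) :
    0 ≤ DD (Psi σ τ (pS 1)) W p q := by
  rcases pt_cases' p with rfl | rfl | rfl | rfl | ⟨u, rfl⟩ | ⟨u, rfl⟩ <;>
    rcases pt_cases' q with rfl | rfl | rfl | rfl | ⟨v, rfl⟩ | ⟨v, rfl⟩
  · exact absurd rfl hpq
  · exact absurd rfl hgq
  · exact c_S1_S0_S2 h hστ  zg zp zq
  · exact c_S1_S0_S3 h hστ  zg zp zq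
  · exact c_S1_S0_X1 h hστ  zg zp zq
  · exact c_S1_S0_Y1 h hστ  zg zp zq
  · exact absurd rfl hgp
  · exact absurd rfl hpq
  · exact absurd rfl hgp
  · exact absurd rfl hgp
  · exact absurd rfl hgp
  · exact absurd rfl hgp
  · rw [DD_symm]; exact c_S1_S0_S2 h hστ  zg zq zp
  · exact absurd rfl hgq
  · exact absurd rfl hpq
  · exact c_S1_S2_S3 h hστ  zg zp zq
  · exact c_S1_S2_X1 h hστ  zg zp zq
  · exact c_S1_S2_Y1 h hστ  zg zp zq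
  · rw [DD_symm]; exact c_S1_S0_S3 h hστ  zg zq zp
  · exact absurd rfl hgq
  · rw [DD_symm]; exact c_S1_S2_S3 h hστ  zg zq zp
  · exact absurd rfl hpq
  · exact c_S1_S3_X1 h hστ  zg zp zq
  · exact c_S1_S3_Y1 h hστ  zg zp zq
  · rw [DD_symm]; exact c_S1_S0_X1 h hστ  zg zq zp
  · exact absurd rfl hgq
  · rw [DD_symm]; exact c_S1_S2_X1 h hστ  zg zq zp
  · rw [DD_symm]; exact c_S1_S3_X1 h hστ  zg zq zp
  · exact c_S1_X1_X2 h hστ (fun e => hpq (by rw [e])) zg zp zq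
  · exact c_S1_X1_Y1 h hστ  zg zp zq
  · rw [DD_symm]; exact c_S1_S0_Y1 h hστ  zg zq zp
  · exact absurd rfl hgq
  · rw [DD_symm]; exact c_S1_S2_Y1 h hστ  zg zq zp
  · rw [DD_symm]; exact c_S1_S3_Y1 h hστ  zg zq zp
  · rw [DD_symm]; exact c_S1_X1_Y1 h hστ  zg zq zp
  · exact c_S1_Y1_Y2 h hστ (fun e => hpq (by rw [e])) zg zp zq

theorem core1z_S2 {W : Pt V → ℤ} (h : Box W) {σ τ : Equiv.Perm V} (hστ : ∀ x, σ x ≠ τ x)
    (p q : Pt V) (hpq : p ≠ q) (hgp : (pS 2) ≠ p) (hgq : (pS 2) ≠ q)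
    (zg : W (pS 2) = 0) (zp : W p = 0) (zq : W q = 0) :
    0 ≤ DD (Psi σ τ (pS 2)) W p q := by
  rcases pt_cases' p with rfl | rfl | rfl | rfl | ⟨u, rfl⟩ | ⟨u, rfl⟩ <;>
    rcases pt_cases' q with rfl | rfl | rfl | rfl | ⟨v, rfl⟩ | ⟨v, rfl⟩
  · exact absurd rfl hpq
  · exact c_S2_S0_S1 h hστ  zg zp zq
  · exact absurd rfl hgq
  · exact c_S2_S0_S3 h hστ  zg zp zq
  · exact c_S2_S0_X1 h hστ  zg zp zq
  · exact c_S2_S0_Y1 h hστ  zg zp zq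
  · rw [DD_symm]; exact c_S2_S0_S1 h hστ  zg zq zp
  · exact absurd rfl hpq
  · exact absurd rfl hgq
  · exact c_S2_S1_S3 h hστ  zg zp zq
  · exact c_S2_S1_X1 h hστ  zg zp zq
  · exact c_S2_S1_Y1 h hστ  zg zp zq
  · exact absurd rfl hgp
  · exact absurd rfl hgp
  · exact absurd rfl hpq
  · exact absurd rfl hgp
  · exact absurd rfl hgp
  · exact absurd rfl hgp
  · rw [DD_symm]; exact c_S2_S0_S3 h hστ  zg zq zp
  · rw [DD_symm]; exact c_S2_S1_S3 h hστ  zg zq zp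
  · exact absurd rfl hgq
  · exact absurd rfl hpq
  · exact c_S2_S3_X1 h hστ  zg zp zq
  · exact c_S2_S3_Y1 h hστ  zg zp zq
  · rw [DD_symm]; exact c_S2_S0_X1 h hστ  zg zq zp
  · rw [DD_symm]; exact c_S2_S1_X1 h hστ  zg zq zp
  · exact absurd rfl hgq
  · rw [DD_symm]; exact c_S2_S3_X1 h hστ  zg zq zp
  · exact c_S2_X1_X2 h hστ (fun e => hpq (by rw [e])) zg zp zq
  · exact c_S2_X1_Y1 h hστ  zg zp zq
  · rw [DD_symm]; exact c_S2_S0_Y1 h hστ  zg zq zp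
  · rw [DD_symm]; exact c_S2_S1_Y1 h hστ  zg zq zp
  · exact absurd rfl hgq
  · rw [DD_symm]; exact c_S2_S3_Y1 h hστ  zg zq zp
  · rw [DD_symm]; exact c_S2_X1_Y1 h hστ  zg zq zp
  · exact c_S2_Y1_Y2 h hστ (fun e => hpq (by rw [e])) zg zp zq

theorem core1z_S3 {W : Pt V → ℤ} (h : Box W) {σ τ : Equiv.Perm V} (hστ : ∀ x, σ x ≠ τ x)
    (p q : Pt V) (hpq : p ≠ q) (hgp : (pS 3) ≠ p) (hgq : (pS 3) ≠ q)
    (zg : W (pS 3) = 0) (zp : W p = 0) (zq : W q = 0) :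
    0 ≤ DD (Psi σ τ (pS 3)) W p q := by
  rcases pt_cases' p with rfl | rfl | rfl | rfl | ⟨u, rfl⟩ | ⟨u, rfl⟩ <;>
    rcases pt_cases' q with rfl | rfl | rfl | rfl | ⟨v, rfl⟩ | ⟨v, rfl⟩
  · exact absurd rfl hpq
  · exact c_S3_S0_S1 h hστ  zg zp zq
  · exact c_S3_S0_S2 h hστ  zg zp zq
  · exact absurd rfl hgq
  · exact c_S3_S0_X1 h hστ  zg zp zq
  · exact c_S3_S0_Y1 h hστ  zg zp zq
  · rw [DD_symm]; exact c_S3_S0_S1 h hστ  zg zq zp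
  · exact absurd rfl hpq
  · exact c_S3_S1_S2 h hστ  zg zp zq
  · exact absurd rfl hgq
  · exact c_S3_S1_X1 h hστ  zg zp zq
  · exact c_S3_S1_Y1 h hστ  zg zp zq
  · rw [DD_symm]; exact c_S3_S0_S2 h hστ  zg zq zp
  · rw [DD_symm]; exact c_S3_S1_S2 h hστ  zg zq zp
  · exact absurd rfl hpq
  · exact absurd rfl hgq
  · exact c_S3_S2_X1 h hστ  zg zp zq
  · exact c_S3_S2_Y1 h hστ  zg zp zq
  · exact absurd rfl hgp
  · exact absurd rfl hgp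
  · exact absurd rfl hgp
  · exact absurd rfl hpq
  · exact absurd rfl hgp
  · exact absurd rfl hgp
  · rw [DD_symm]; exact c_S3_S0_X1 h hστ  zg zq zp
  · rw [DD_symm]; exact c_S3_S1_X1 h hστ  zg zq zp
  · rw [DD_symm]; exact c_S3_S2_X1 h hστ  zg zq zp
  · exact absurd rfl hgq
  · exact c_S3_X1_X2 h hστ (fun e => hpq (by rw [e])) zg zp zq
  · exact c_S3_X1_Y1 h hστ  zg zp zq
  · rw [DD_symm]; exact c_S3_S0_Y1 h hστ  zg zq zp
  · rw [DD_symm]; exact c_S3_S1_Y1 h hστ  zg zq zp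
  · rw [DD_symm]; exact c_S3_S2_Y1 h hστ  zg zq zp
  · exact absurd rfl hgq
  · rw [DD_symm]; exact c_S3_X1_Y1 h hστ  zg zq zp
  · exact c_S3_Y1_Y2 h hστ (fun e => hpq (by rw [e])) zg zp zq

theorem core1z_X {W : Pt V → ℤ} (h : Box W) {σ τ : Equiv.Perm V} (hστ : ∀ x, σ x ≠ τ x)
    (g : V) (p q : Pt V) (hpq : p ≠ q) (hgp : (pX g) ≠ p) (hgq : (pX g) ≠ q)
    (zg : W (pX g) = 0) (zp : W p = 0) (zq : W q = 0) :
    0 ≤ DD (Psi σ τ (pX g)) W p q := by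
  rcases pt_cases' p with rfl | rfl | rfl | rfl | ⟨u, rfl⟩ | ⟨u, rfl⟩ <;>
    rcases pt_cases' q with rfl | rfl | rfl | rfl | ⟨v, rfl⟩ | ⟨v, rfl⟩
  · exact absurd rfl hpq
  · exact c_X0_S0_S1 h hστ  zg zp zq
  · exact c_X0_S0_S2 h hστ  zg zp zq
  · exact c_X0_S0_S3 h hστ  zg zp zq
  · exact c_X0_S0_X1 h hστ (fun e => hgq (by rw [e])) zg zp zq
  · exact c_X0_S0_Y1 h hστ  zg zp zq
  · rw [DD_symm]; exact c_X0_S0_S1 h hστ  zg zq zp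
  · exact absurd rfl hpq
  · exact c_X0_S1_S2 h hστ  zg zp zq
  · exact c_X0_S1_S3 h hστ  zg zp zq
  · exact c_X0_S1_X1 h hστ (fun e => hgq (by rw [e])) zg zp zq
  · exact c_X0_S1_Y1 h hστ  zg zp zq
  · rw [DD_symm]; exact c_X0_S0_S2 h hστ  zg zq zp
  · rw [DD_symm]; exact c_X0_S1_S2 h hστ  zg zq zp
  · exact absurd rfl hpq
  · exact c_X0_S2_S3 h hστ  zg zp zq
  · exact c_X0_S2_X1 h hστ (fun e => hgq (by rw [e])) zg zp zq
  · exact c_X0_S2_Y1 h hστ  zg zp zq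
  · rw [DD_symm]; exact c_X0_S0_S3 h hστ  zg zq zp
  · rw [DD_symm]; exact c_X0_S1_S3 h hστ  zg zq zp
  · rw [DD_symm]; exact c_X0_S2_S3 h hστ  zg zq zp
  · exact absurd rfl hpq
  · exact c_X0_S3_X1 h hστ (fun e => hgq (by rw [e])) zg zp zq
  · exact c_X0_S3_Y1 h hστ  zg zp zq
  · rw [DD_symm]; exact c_X0_S0_X1 h hστ (fun e => hgp (by rw [e])) zg zq zp
  · rw [DD_symm]; exact c_X0_S1_X1 h hστ (fun e => hgp (by rw [e])) zg zq zp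
  · rw [DD_symm]; exact c_X0_S2_X1 h hστ (fun e => hgp (by rw [e])) zg zq zp
  · rw [DD_symm]; exact c_X0_S3_X1 h hστ (fun e => hgp (by rw [e])) zg zq zp
  · exact c_X0_X1_X2 h hστ (fun e => hgp (by rw [e])) (fun e => hgq (by rw [e])) (fun e => hpq (by rw [e])) zg zp zq
  · exact c_X0_X1_Y1 h hστ (fun e => hgp (by rw [e])) zg zp zq
  · rw [DD_symm]; exact c_X0_S0_Y1 h hστ  zg zq zp
  · rw [DD_symm]; exact c_X0_S1_Y1 h hστ  zg zq zp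
  · rw [DD_symm]; exact c_X0_S2_Y1 h hστ  zg zq zp
  · rw [DD_symm]; exact c_X0_S3_Y1 h hστ  zg zq zp
  · rw [DD_symm]; exact c_X0_X1_Y1 h hστ (fun e => hgq (by rw [e])) zg zq zp
  · exact c_X0_Y1_Y2 h hστ (fun e => hpq (by rw [e])) zg zp zq

theorem core1z_Y {W : Pt V → ℤ} (h : Box W) {σ τ : Equiv.Perm V} (hστ : ∀ x, σ x ≠ τ x)
    (g : V) (p q : Pt V) (hpq : p ≠ q) (hgp : (pY g) ≠ p) (hgq : (pY g) ≠ q)
    (zg : W (pY g) = 0) (zp : W p = 0) (zq : W q = 0) :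
    0 ≤ DD (Psi σ τ (pY g)) W p q := by
  rcases pt_cases' p with rfl | rfl | rfl | rfl | ⟨u, rfl⟩ | ⟨u, rfl⟩ <;>
    rcases pt_cases' q with rfl | rfl | rfl | rfl | ⟨v, rfl⟩ | ⟨v, rfl⟩
  · exact absurd rfl hpq
  · exact c_Y0_S0_S1 h hστ  zg zp zq
  · exact c_Y0_S0_S2 h hστ  zg zp zq
  · exact c_Y0_S0_S3 h hστ  zg zp zq
  · exact c_Y0_S0_X1 h hστ  zg zp zq
  · exact c_Y0_S0_Y1 h hστ (fun e => hgq (by rw [e])) zg zp zq
  · rw [DD_symm]; exact c_Y0_S0_S1 h hστ  zg zq zp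
  · exact absurd rfl hpq
  · exact c_Y0_S1_S2 h hστ  zg zp zq
  · exact c_Y0_S1_S3 h hστ  zg zp zq
  · exact c_Y0_S1_X1 h hστ  zg zp zq
  · exact c_Y0_S1_Y1 h hστ (fun e => hgq (by rw [e])) zg zp zq
  · rw [DD_symm]; exact c_Y0_S0_S2 h hστ  zg zq zp
  · rw [DD_symm]; exact c_Y0_S1_S2 h hστ  zg zq zp
  · exact absurd rfl hpq
  · exact c_Y0_S2_S3 h hστ  zg zp zq
  · exact c_Y0_S2_X1 h hστ  zg zp zq
  · exact c_Y0_S2_Y1 h hστ (fun e => hgq (by rw [e])) zg zp zq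
  · rw [DD_symm]; exact c_Y0_S0_S3 h hστ  zg zq zp
  · rw [DD_symm]; exact c_Y0_S1_S3 h hστ  zg zq zp
  · rw [DD_symm]; exact c_Y0_S2_S3 h hστ  zg zq zp
  · exact absurd rfl hpq
  · exact c_Y0_S3_X1 h hστ  zg zp zq
  · exact c_Y0_S3_Y1 h hστ (fun e => hgq (by rw [e])) zg zp zq
  · rw [DD_symm]; exact c_Y0_S0_X1 h hστ  zg zq zp
  · rw [DD_symm]; exact c_Y0_S1_X1 h hστ  zg zq zp
  · rw [DD_symm]; exact c_Y0_S2_X1 h hστ  zg zq zp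
  · rw [DD_symm]; exact c_Y0_S3_X1 h hστ  zg zq zp
  · exact c_Y0_X1_X2 h hστ (fun e => hpq (by rw [e])) zg zp zq
  · exact c_Y0_X1_Y1 h hστ (fun e => hgq (by rw [e])) zg zp zq
  · rw [DD_symm]; exact c_Y0_S0_Y1 h hστ (fun e => hgp (by rw [e])) zg zq zp
  · rw [DD_symm]; exact c_Y0_S1_Y1 h hστ (fun e => hgp (by rw [e])) zg zq zp
  · rw [DD_symm]; exact c_Y0_S2_Y1 h hστ (fun e => hgp (by rw [e])) zg zq zp
  · rw [DD_symm]; exact c_Y0_S3_Y1 h hστ (fun e => hgp (by rw [e])) zg zq zp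
  · rw [DD_symm]; exact c_Y0_X1_Y1 h hστ (fun e => hgp (by rw [e])) zg zq zp
  · exact c_Y0_Y1_Y2 h hστ (fun e => hgp (by rw [e])) (fun e => hgq (by rw [e])) (fun e => hpq (by rw [e])) zg zp zq

theorem core1z {W : Pt V → ℤ} (h : Box W) {σ τ : Equiv.Perm V} (hστ : ∀ x, σ x ≠ τ x)
    (g p q : Pt V) (hpq : p ≠ q) (hgp : g ≠ p) (hgq : g ≠ q)
    (zg : W g = 0) (zp : W p = 0) (zq : W q = 0) : 0 ≤ DD (Psi σ τ g) W p q := by
  rcases pt_cases' g with rfl | rfl | rfl | rfl | ⟨u, rfl⟩ | ⟨u, rfl⟩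
  · exact core1z_S0 h hστ p q hpq hgp hgq zg zp zq
  · exact core1z_S1 h hστ p q hpq hgp hgq zg zp zq
  · exact core1z_S2 h hστ p q hpq hgp hgq zg zp zq
  · exact core1z_S3 h hστ p q hpq hgp hgq zg zp zq
  · exact core1z_X h hστ u p q hpq hgp hgq zg zp zq
  · exact core1z_Y h hστ u p q hpq hgp hgq zg zp zq

def Tr (σ τ : Equiv.Perm V) : Prop :=
  ∀ u : V → ℤ, (∀ x, u (τ.symm (σ x)) = u x) → ∀ x y, u x = u y

lemma crit_of {W : Pt V → ℤ} {σ τ : Equiv.Perm V} (ht : Tr σ τ) (hx : ∃ x, W (pX x) = 0) :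
    sa W = 0 ∨ 2 ≤ Om σ τ W := by
  have e := Om_eq σ τ W
  have nn : ∀ x ∈ (univ : Finset V),
      0 ≤ (W (pX x) - W (pY (σ x))) ^ 2 + (W (pX x) - W (pY (τ x))) ^ 2 := fun x _ => by positivity
  have h0 : 0 ≤ Om σ τ W := sum_nonneg nn
  by_cases hz : Om σ τ W = 0
  · left
    have hz' := (sum_eq_zero_iff_of_nonneg nn).1 hz
    have a1 : ∀ x, W (pX x) = W (pY (σ x)) := fun x => by
      have := hz' x (mem_univ x)
      nlinarith [sq_nonneg (W (pX x) - W (pY (σ x))), sq_nonneg (W (pX x) - W (pY (τ x)))]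
    have a2 : ∀ x, W (pX x) = W (pY (τ x)) := fun x => by
      have := hz' x (mem_univ x)
      nlinarith [sq_nonneg (W (pX x) - W (pY (σ x))), sq_nonneg (W (pX x) - W (pY (τ x)))]
    obtain ⟨x0, hx0⟩ := hx
    have := ht (fun x => W (pX x)) (fun x => by
      rw [a2 (τ.symm (σ x)), Equiv.apply_symm_apply, a1 x])
    exact sum_eq_zero fun x _ => (this x x0).trans hx0
  · right
    generalize sa W * sa W = s1 at e
    generalize sb W * sb W = s2 at e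
    omega

lemma zero_keep {W : Pt V → ℤ} (p q : Pt V) (hq : W q = 0) : ins W p (-W p) q = 0 := by
  rw [ins_zero_apply]; split_ifs <;> simp [hq]

lemma zero_self (W : Pt V → ℤ) (p : Pt V) : ins W p (-W p) p = 0 := by
  rw [ins_zero_apply]; simp

theorem core0 {W : Pt V → ℤ} (h : Box W) {σ τ : Equiv.Perm V} (hστ : ∀ x, σ x ≠ τ x)
    (ht : Tr σ τ) (hx : ∃ x, W (pX x) = 0) (p q : Pt V) : 0 ≤ DD (Phi σ τ) W p q := by
  by_cases hpq : p = q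
  · subst hpq; exact DD_self (aff_Phi σ τ) W p
  rw [← DD_ins (aff_Phi σ τ) W p q (-W p), DD_symm,
    ← DD_ins (aff_Phi σ τ) _ q p (-(ins W p (-W p) q)), DD_symm]
  obtain ⟨x, hx⟩ := hx
  exact core0z ((h.zero p).zero q) hστ (crit_of ht ⟨x, zero_keep _ _ (zero_keep _ _ hx)⟩) p q hpq
    (zero_keep _ _ (zero_self _ _)) (zero_self _ _)

theorem core1 {W : Pt V → ℤ} (h : Box W) {σ τ : Equiv.Perm V} (hστ : ∀ x, σ x ≠ τ x)
    (g p q : Pt V) : 0 ≤ DD (Psi σ τ g) W p q := by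
  by_cases hpq : p = q
  · subst hpq; exact DD_self (aff_Psi σ τ g) W p
  by_cases hgp : g = p
  · subst hgp; rw [DD_Psi_gp]
  by_cases hgq : g = q
  · subst hgq; rw [DD_symm, DD_Psi_gp]
  rw [← DD_ins (aff_Psi σ τ g) W p q (-W p), DD_symm,
    ← DD_ins (aff_Psi σ τ g) _ q p (-(ins W p (-W p) q)), DD_symm,
    ← DD_Psi_g σ τ g _ p q (-(ins (ins W p (-W p)) q (-(ins W p (-W p) q)) g))]
  exact core1z (((h.zero p).zero q).zero g) hστ g p q hpq hgp hgq (zero_self _ _)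
    (zero_keep _ _ (zero_keep _ _ (zero_self _ _))) (zero_keep _ _ (zero_self _ _))

end Pool.Agent.H34.BM
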