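import Mathlib

set_option autoImplicit false
set_option linter.unusedVariables false
set_option linter.unusedSectionVars false

namespace Pool.Agent.H34.BM
open Set Matroid

variable {α β : Type}

def NCp (N : Matroid α) (e f : α) : Prop :=
  Set.ncard {B : Set α | N.IsBase B ∧ e ∈ B ∧ f ∈ B} * Set.ncard {B : Set α | N.IsBase B} ≤
    Set.ncard {B : Set α | N.IsBase B ∧ e ∈ B} * Set.ncard {B : Set α | N.IsBase B ∧ f ∈ B}

def NC (N : Matroid α) : Prop := ∀ e ∈ N.E, ∀ f ∈ N.E, e ≠ f → NCp N e f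

lemma del_base (M : Matroid α) (D : Set α) (hD : D ⊆ M.E) :
    ∃ J ⊆ D, ∀ B, (M ＼ D).IsBase B ↔ B ⊆ M.E \ D ∧ M.IsBase (B ∪ J) := by
  obtain ⟨J', hJ⟩ := M✶.exists_isBasis D hD
  have e1 : M ＼ D = M ＼ J' ／ (D \ J') := by
    have := congrArg Matroid.dual hJ.contract_eq_contract_delete
    rwa [dual_contract, dual_dual, dual_contract_delete, dual_dual] at this
  have hl := hJ.sdiff_subset_loops_contract
  have hi : (M ＼ J').Indep (D \ J') := by
    have : D \ J' ⊆ (M ＼ J').coloops := by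
      rwa [← dual_delete, dual_loops] at hl
    exact (M ＼ J').coloops_indep.subset this
  have hco : M.Coindep J' := hJ.indep
  refine ⟨D \ J', diff_subset, fun B => ?_⟩
  rw [e1, hi.contract_isBase_iff, hco.delete_isBase_iff]
  have hs := hJ.subset
  constructor
  · rintro ⟨⟨h1, h2⟩, h3⟩
    refine ⟨fun x hx => ⟨h1.subset_ground (Or.inl hx), fun hxD => ?_⟩, h1⟩
    by_cases hx' : x ∈ J'
    · exact disjoint_left.1 h2 (Or.inl hx) hx'
    · exact disjoint_left.1 h3 hx ⟨hxD, hx'⟩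
  · rintro ⟨h1, h2⟩
    refine ⟨⟨h2, disjoint_left.2 ?_⟩, disjoint_left.2 fun x hx hx' => (h1 hx).2 hx'.1⟩
    rintro x (hx | hx) hx'
    · exact (h1 hx).2 (hs hx')
    · exact hx.2 hx'

lemma minor_base {N M : Matroid α} (h : N ≤m M) :
    ∃ I, Disjoint I N.E ∧ ∀ B, N.IsBase B ↔ B ⊆ N.E ∧ M.IsBase (B ∪ I) := by
  obtain ⟨C, D, hC, hD, hCD, rfl⟩ := h.exists_eq_contract_delete_disjoint
  obtain ⟨I0, hI⟩ := M.exists_isBasis C hC
  have hs := hI.subset
  have e1 : M ／ C ＼ D = M ／ I0 ＼ ((C \ I0) ∪ D) := by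
    rw [hI.contract_eq_contract_delete, delete_delete]
  have hsub : (C \ I0) ∪ D ⊆ (M ／ I0).E := by
    rintro x (hx | hx)
    · exact ⟨hC hx.1, hx.2⟩
    · exact ⟨hD hx, fun h => disjoint_left.1 hCD (hs h) hx⟩
  obtain ⟨J, hJ, hB⟩ := del_base (M ／ I0) _ hsub
  rw [e1]
  refine ⟨J ∪ I0, disjoint_left.2 ?_, fun B => ?_⟩
  · rintro x (hx | hx) hx'
    · exact hx'.2 (hJ hx)
    · exact hx'.1.2 hx
  · rw [hB, hI.indep.contract_isBase_iff, union_assoc]
    refine ⟨fun h => ⟨h.1, h.2.1⟩, fun h => ⟨h.1, h.2, disjoint_left.2 ?_⟩⟩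
    rintro x (hx | hx) hx'
    · exact (h.1 hx).1.2 hx'
    · exact (hsub (hJ hx)).2 hx'

lemma nc_split [Finite α] (P Q : Set α → Prop) :
    ncard {B | P B} = ncard {B | P B ∧ Q B} + ncard {B | P B ∧ ¬ Q B} := by
  rw [← ncard_union_eq (disjoint_left.2 fun B h1 h2 => h2.2 h1.2) (toFinite _) (toFinite _)]
  congr 1; ext B; simp only [mem_setOf_eq, mem_union]; tauto

/-- number of bases inside `S` -/
noncomputable def cb (N : Matroid α) (S : Set α) : ℕ := ncard {B | N.IsBase B ∧ B ⊆ S}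

lemma NCp_iff [Finite α] (N : Matroid α) {e f : α} (hef : e ≠ f) (R : Set α) (he : e ∉ R)
    (hf : f ∉ R) (hE : N.E ⊆ insert f (insert e R)) :
    NCp N e f ↔ cb N R * cb N (insert f (insert e R)) ≤ cb N (insert e R) * cb N (insert f R) := by
  have g : ∀ B, N.IsBase B → ∀ x ∈ B, x = f ∨ x = e ∨ x ∈ R := fun B hB x hx =>
    hE (hB.subset_ground hx)
  have c1 : cb N (insert f (insert e R)) = ncard {B | N.IsBase B} := by
    unfold cb; congr 1; ext B
    exact ⟨fun h => h.1, fun h => ⟨h, fun x hx => g B h x hx⟩⟩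
  have c2 : cb N (insert e R) = ncard {B | N.IsBase B ∧ f ∉ B} := by
    unfold cb; congr 1; ext B
    refine ⟨fun h => ⟨h.1, fun hx => ?_⟩, fun h => ⟨h.1, fun x hx => ?_⟩⟩
    · rcases h.2 hx with h' | h'
      · exact hef h'.symm
      · exact hf h'
    · rcases g B h.1 x hx with rfl | h'
      · exact absurd hx h.2
      · exact h'
  have c3 : cb N (insert f R) = ncard {B | N.IsBase B ∧ e ∉ B} := by
    unfold cb; congr 1; ext B
    refine ⟨fun h => ⟨h.1, fun hx => ?_⟩, fun h => ⟨h.1, fun x hx => ?_⟩⟩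
    · rcases h.2 hx with h' | h'
      · exact hef h'
      · exact he h'
    · rcases g B h.1 x hx with rfl | rfl | h'
      · exact Or.inl rfl
      · exact absurd hx h.2
      · exact Or.inr h'
  have c4 : cb N R = ncard {B | (N.IsBase B ∧ e ∉ B) ∧ f ∉ B} := by
    unfold cb; congr 1; ext B
    refine ⟨fun h => ⟨⟨h.1, fun hx => he (h.2 hx)⟩, fun hx => hf (h.2 hx)⟩,
      fun h => ⟨h.1.1, fun x hx => ?_⟩⟩
    rcases g B h.1.1 x hx with rfl | rfl | h'
    · exact absurd hx h.2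
    · exact absurd hx h.1.2
    · exact h'
  have s1 := nc_split (fun B => N.IsBase B) (fun B => e ∈ B)
  have s2 := nc_split (fun B => N.IsBase B) (fun B => f ∈ B)
  have s3 := nc_split (fun B => N.IsBase B ∧ e ∉ B) (fun B => f ∈ B)
  have s4 := nc_split (fun B => N.IsBase B ∧ f ∈ B) (fun B => e ∈ B)
  have r1 : {B | (N.IsBase B ∧ f ∈ B) ∧ e ∈ B} = {B | N.IsBase B ∧ e ∈ B ∧ f ∈ B} := by
    ext B; simp only [mem_setOf_eq]; tauto
  have r2 : {B | (N.IsBase B ∧ f ∈ B) ∧ e ∉ B} = {B | (N.IsBase B ∧ e ∉ B) ∧ f ∈ B} := by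
    ext B; simp only [mem_setOf_eq]; tauto
  rw [r1, r2] at s4
  unfold NCp
  rw [c1, c2, c3, c4]
  generalize ncard {B | N.IsBase B ∧ e ∈ B ∧ f ∈ B} = d at *
  generalize ncard {B | (N.IsBase B ∧ e ∉ B) ∧ f ∈ B} = c at *
  generalize ncard {B | (N.IsBase B ∧ e ∉ B) ∧ f ∉ B} = a at *
  generalize ncard {B | N.IsBase B ∧ e ∈ B} = x at *
  generalize ncard {B | N.IsBase B ∧ f ∈ B} = y at *
  generalize ncard {B | N.IsBase B ∧ e ∉ B} = x' at *
  generalize ncard {B | N.IsBase B ∧ f ∉ B} = y' at *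
  generalize ncard {B | N.IsBase B} = t at *
  zify at s1 s2 s3 s4 ⊢
  have hx : (x : ℤ) = t - c - a := by linarith
  have hy : (y' : ℤ) = t - d - c := by linarith
  rw [hx, hy, s3, s4]
  constructor <;> intro h <;> linarith

lemma aug2 {N : Matroid α} {x y p q : α} (hxy : x ≠ y) (h1 : N.IsBase {x, y})
    (h2 : N.IsBase {p, q}) : N.IsBase {x, p} ∨ N.IsBase {x, q} := by
  by_cases hy : y ∈ ({p, q} : Set α)
  · rcases hy with rfl | rfl
    · exact Or.inl h1
    · exact Or.inr h1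
  obtain ⟨z, hz, hb⟩ := h1.exchange h2 (e := y) ⟨Or.inr rfl, hy⟩
  have : ({x, y} : Set α) \ {y} = {x} := by
    ext a; simp only [mem_diff, mem_insert_iff, mem_singleton_iff]
    constructor
    · tauto
    · rintro rfl; exact ⟨Or.inl rfl, hxy⟩
  rw [this, pair_comm] at hb
  rcases hz.1 with rfl | rfl
  · exact Or.inl hb
  · exact Or.inr hb

lemma NCp_rank2 [Finite α] (N : Matroid α) {e f : α} (hef : e ≠ f)
    (h2 : ∀ B, N.IsBase B → B.ncard ≤ 2) : NCp N e f := by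
  unfold NCp
  rcases {B : Set α | N.IsBase B ∧ e ∈ B ∧ f ∈ B}.eq_empty_or_nonempty with h | ⟨B0, hB0⟩
  · rw [h]; simp
  have key : ∀ B, N.IsBase B → e ∈ B → f ∈ B → B = {e, f} := fun B hB he hf =>
    (eq_of_subset_of_ncard_le (pair_subset he hf) (by rw [ncard_pair hef]; exact h2 B hB)).symm
  have hef' : N.IsBase {e, f} := key B0 hB0.1 hB0.2.1 hB0.2.2 ▸ hB0.1
  have hc : ∀ B, N.IsBase B → B.ncard = 2 := fun B hB => by
    rw [hB.ncard_eq_ncard_of_isBase hef', ncard_pair hef]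
  have h1 : ncard {B : Set α | N.IsBase B ∧ e ∈ B ∧ f ∈ B} ≤ 1 := by
    rw [ncard_le_one_iff]
    intro a b ha hb
    rw [key a ha.1 ha.2.1 ha.2.2, key b hb.1 hb.2.1 hb.2.2]
  have ne : ∀ x y, N.IsBase {x, y} → x ≠ y := fun x y h e => by
    have := hc _ h; subst e; simp at this
  have one : ∀ p q, N.IsBase {e, p} → N.IsBase {f, q} → ({p, q} : Set α) ∈
      (fun P : Set α × Set α => (P.1 \ {e}) ∪ (P.2 \ {f})) ''
        ({B : Set α | N.IsBase B ∧ e ∈ B} ×ˢ {B : Set α | N.IsBase B ∧ f ∈ B}) := by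
    intro p q a b
    refine ⟨({e, p}, {f, q}), ⟨⟨a, Or.inl rfl⟩, ⟨b, Or.inl rfl⟩⟩, ?_⟩
    have n1 := ne _ _ a
    have n2 := ne _ _ b
    ext x; simp only [mem_union, mem_diff, mem_insert_iff, mem_singleton_iff]
    constructor
    · tauto
    · rintro (rfl | rfl)
      · exact Or.inl ⟨Or.inr rfl, n1.symm⟩
      · exact Or.inr ⟨Or.inr rfl, n2.symm⟩
  have h3 : ncard {B : Set α | N.IsBase B} ≤
      ncard {B : Set α | N.IsBase B ∧ e ∈ B} * ncard {B : Set α | N.IsBase B ∧ f ∈ B} := by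
    rw [← ncard_prod]
    refine le_trans (ncard_le_ncard ?_ (toFinite _))
      (ncard_image_le (f := fun P : Set α × Set α => (P.1 \ {e}) ∪ (P.2 \ {f})) (toFinite _))
    intro B hB
    obtain ⟨p, q, hpq, rfl⟩ := ncard_eq_two.1 (hc B hB)
    have hB' : N.IsBase {p, q} := hB
    have t1 := aug2 hef hef' hB'
    have t2 := aug2 hef.symm (pair_comm e f ▸ hef') hB'
    have t3 := aug2 hpq hB' hef'
    have t4 := aug2 hpq.symm (pair_comm p q ▸ hB') hef'
    rw [pair_comm p e, pair_comm p f] at t3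
    rw [pair_comm q e, pair_comm q f] at t4
    have : (N.IsBase {e, p} ∧ N.IsBase {f, q}) ∨ (N.IsBase {e, q} ∧ N.IsBase {f, p}) := by tauto
    rcases this with h | h
    · exact one p q h.1 h.2
    · rw [pair_comm p q]; exact one q p h.1 h.2
  calc _ ≤ 1 * ncard {B : Set α | N.IsBase B} := Nat.mul_le_mul_right _ h1
    _ ≤ _ := by rw [one_mul]; exact h3

lemma nc_map (N : Matroid α) {φ : α → β} (hφ : Function.Injective φ) (P : Set β → Prop) :
    ncard {B | (N.map φ hφ.injOn).IsBase B ∧ P B} = ncard {B | N.IsBase B ∧ P (φ '' B)} := by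
  rw [← ncard_image_of_injective {B | N.IsBase B ∧ P (φ '' B)} (image_injective.2 hφ)]
  congr 1; ext B
  simp only [mem_setOf_eq, map_isBase_iff, mem_image]
  constructor
  · rintro ⟨⟨B0, h, rfl⟩, hP⟩; exact ⟨B0, ⟨h, hP⟩, rfl⟩
  · rintro ⟨B0, ⟨h, hP⟩, rfl⟩; exact ⟨⟨B0, h, rfl⟩, hP⟩

lemma NCp_map (N : Matroid α) {φ : α → β} (hφ : Function.Injective φ) (e f : α) :
    NCp (N.map φ hφ.injOn) (φ e) (φ f) ↔ NCp N e f := by
  have a1 := nc_map N hφ (fun B => φ e ∈ B ∧ φ f ∈ B)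
  have a2 := nc_map N hφ (fun B => True)
  have a3 := nc_map N hφ (fun B => φ e ∈ B)
  have a4 := nc_map N hφ (fun B => φ f ∈ B)
  simp only [hφ.mem_set_image, and_true] at a1 a2 a3 a4
  unfold NCp; rw [a1, a2, a3, a4]

lemma NC_map (N : Matroid α) {φ : α → β} (hφ : Function.Injective φ) :
    NC (N.map φ hφ.injOn) ↔ NC N := by
  constructor
  · intro h e he f hf hef
    exact (NCp_map N hφ e f).1 (h _ ⟨e, he, rfl⟩ _ ⟨f, hf, rfl⟩ (hφ.ne hef))
  · rintro h _ ⟨e, he, rfl⟩ _ ⟨f, hf, rfl⟩ hef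
    exact (NCp_map N hφ e f).2 (h e he f hf fun h => hef (congrArg φ h))

lemma map_del (N : Matroid α) {φ : α → β} (hφ : Function.Injective φ) (D : Set α) :
    (N ＼ D).map φ hφ.injOn = N.map φ hφ.injOn ＼ (φ '' D) := by
  refine ext_indep (by simp [image_diff hφ]) fun I _ => ?_
  simp only [map_indep_iff, delete_indep_iff]
  constructor
  · rintro ⟨I0, ⟨h1, h2⟩, rfl⟩
    exact ⟨⟨I0, h1, rfl⟩, (disjoint_image_iff hφ).2 h2⟩
  · rintro ⟨⟨I0, h1, rfl⟩, h2⟩
    exact ⟨I0, ⟨h1, (disjoint_image_iff hφ).1 h2⟩, rfl⟩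

lemma map_con (N : Matroid α) {φ : α → β} (hφ : Function.Injective φ) (C : Set α) :
    (N ／ C).map φ hφ.injOn = N.map φ hφ.injOn ／ (φ '' C) := by
  have md : ∀ K : Matroid α, (K.map φ hφ.injOn)✶ = K✶.map φ hφ.injOn := fun K => map_dual
  rw [← dual_inj, md, dual_contract (N.map φ hφ.injOn), md, ← map_del _ hφ C]
  simp only [dual_contract]

theorem transfer [Finite α] (M : Matroid α) (n : ℕ) (h1 : ¬ NC M)
    (h2 : ∀ N, N ≤m M → N.E.ncard < n → NC N) :
    ∃ k, n ≤ k ∧ ∃ M' : Matroid (Fin k), M'.E = univ ∧ ¬ NC M' ∧ ∀ N, N <m M' → NC N := by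
  classical
  have ex : ∃ k, ∃ N, N ≤m M ∧ ¬ NC N ∧ N.E.ncard = k := ⟨_, M, IsMinor.refl, h1, rfl⟩
  obtain ⟨N, hN, hc, hk⟩ := Nat.find_spec ex
  refine ⟨Nat.find ex, ?_, ?_⟩
  · by_contra hlt
    exact hc (h2 N hN (by omega))
  have hcard : Nat.card N.E = Nat.find ex := by rw [← hk]; rfl
  let ε : N.E ≃ Fin (Nat.find ex) := Finite.equivFinOfCardEq hcard
  let φ : Fin (Nat.find ex) → α := fun i => (ε.symm i : α)
  have hφ : Function.Injective φ := Subtype.val_injective.comp ε.symm.injective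
  have hr : N.E ⊆ range φ := fun x hx => ⟨ε ⟨x, hx⟩, by simp [φ]⟩
  have hm : (N.comap φ).map φ hφ.injOn = N := map_comap hr hφ.injOn
  refine ⟨N.comap φ, eq_univ_of_forall fun i => (ε.symm i).2, ?_, fun N' hN' => ?_⟩
  · rw [← NC_map _ hφ, hm]; exact hc
  · rw [← NC_map _ hφ]
    by_contra hcon
    obtain ⟨C, D, e⟩ := hN'.isMinor
    have hmin : N'.map φ hφ.injOn ≤m N := by
      refine ⟨φ '' C, φ '' D, ?_⟩
      rw [e, map_del _ hφ, map_con _ hφ, hm]
    have hle := Nat.find_min' ex ⟨_, hmin.trans hN, hcon, rfl⟩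
    rw [map_ground, ncard_image_of_injective _ hφ] at hle
    have hlt := ncard_lt_ncard hN'.ssubset (toFinite _)
    have : (N.comap φ).E.ncard ≤ Nat.find ex := by
      calc _ ≤ (univ : Set (Fin (Nat.find ex))).ncard := ncard_le_ncard (subset_univ _) (toFinite _)
        _ = _ := by simp
    omega

end Pool.Agent.H34.BM
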