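import Pool.Agent.H34.BM6
import Pool.Agent.H34.BM7
import Pool.Agent.H34.BM8

set_option autoImplicit false
set_option linter.unusedVariables false
set_option linter.unusedSectionVars false

namespace Pool.Agent.H34.BM
open Finset Matroid

variable {V : Type} [Fintype V] [DecidableEq V]

def MM (σ τ : Equiv.Perm V) (hστ : ∀ x, σ x ≠ τ x) : Matroid (El V) :=
  Matroid.ofIsBaseOfFinite (E := Set.univ) Set.finite_univ
    (fun s => ∃ B : Finset (El V), (B : Set (El V)) = s ∧ bas σ τ B)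
    ⟨_, (univ : Finset (Fin 4)).disjSum ∅, rfl, by
      unfold bas
      rw [toLeft_disjSum, toRight_disjSum]
      refine ⟨?_, by simp [inj], by simp [inj], fun h => absurd h.1 (by decide),
        fun h => absurd h.1 (by decide)⟩
      have e1 : (∅ : Finset ((V × Bool) ⊕ (V × Bool))).toLeft = ∅ := by ext; simp
      have e2 : (∅ : Finset ((V × Bool) ⊕ (V × Bool))).toRight = ∅ := by ext; simp
      rw [e1, e2, card_empty]; decide⟩
    (by
      rintro _ _ ⟨B1, rfl, h1⟩ ⟨B2, rfl, h2⟩ a ⟨ha, ha'⟩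
      obtain ⟨f, hf, hn, hb⟩ := exch hστ h1 h2 (mem_coe.1 ha)
      refine ⟨f, ⟨mem_coe.2 hf, fun h => hn (mem_erase.2 ⟨?_, mem_coe.1 h⟩)⟩, _, ?_, hb⟩
      · rintro rfl; exact ha' (mem_coe.2 hf)
      · rw [coe_insert, coe_erase])
    (fun _ _ => Set.subset_univ _)

lemma MM_base (σ τ : Equiv.Perm V) (hστ : ∀ x, σ x ≠ τ x) (B : Finset (El V)) :
    (MM σ τ hστ).IsBase (B : Set (El V)) ↔ bas σ τ B :=
  ⟨fun ⟨B', e, h⟩ => coe_injective e ▸ h, fun h => ⟨B, rfl, h⟩⟩

lemma cb_eq {σ τ : Equiv.Perm V} {hστ : ∀ x, σ x ≠ τ x} {N : Matroid (El V)} {I : Finset (El V)}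
    (hN : ∀ B, N.IsBase B ↔ B ⊆ N.E ∧ (MM σ τ hστ).IsBase (B ∪ I)) (S : Finset (El V))
    (hS : (S : Set (El V)) ⊆ N.E) :
    (cb N S : ℤ) = ∑ B ∈ S.powerset, if bas σ τ (B ∪ I) then 1 else 0 := by
  have : {B | N.IsBase B ∧ B ⊆ (S : Set (El V))} = (fun B : Finset (El V) => (B : Set (El V))) ''
      (S.powerset.filter fun B => bas σ τ (B ∪ I) : Finset (Finset (El V))) := by
    ext B
    obtain ⟨B, rfl⟩ : ∃ B' : Finset (El V), B = B' := ⟨(Set.toFinite B).toFinset, by simp⟩
    rw [coe_injective.mem_set_image, Set.mem_setOf_eq, hN, ← coe_union, MM_base, mem_coe,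
      mem_filter, mem_powerset, coe_subset]
    exact ⟨fun h => ⟨h.2, h.1.2⟩, fun h => ⟨⟨(coe_subset.2 h.1).trans hS, h.2⟩, h.1⟩⟩
  unfold cb
  rw [this, Set.ncard_image_of_injective _ coe_injective, Set.ncard_coe_finset, sum_boole]

lemma exists_zero (R : Finset (El V)) (h : #R < Fintype.card V) : ∃ x, wt R (pX x) = 0 := by
  by_contra hc
  simp only [not_exists] at hc
  have h1 : (∑ x : V, (1 : ℤ)) ≤ sa (wt R) := sum_le_sum fun x _ => by
    have := (box_wt R).x0 x
    have := hc x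
    omega
  have h2 : sa (wt R) = #R.toRight.toLeft := by simp only [sa, wt_X, fib_sum]
  have h3 := card_El R
  simp only [sum_const, card_univ, nsmul_eq_mul, mul_one] at h1
  omega

theorem small_NC {σ τ : Equiv.Perm V} (hστ : ∀ x, σ x ≠ τ x) (ht : Tr σ τ) (N : Matroid (El V))
    (hN : N ≤m MM σ τ hστ) (hc : N.E.ncard < Fintype.card V) : NC N := by
  obtain ⟨I, hI, hB⟩ := minor_base hN
  obtain ⟨I, rfl⟩ : ∃ I' : Finset (El V), I = I' := ⟨(Set.toFinite I).toFinset, by simp⟩
  obtain ⟨E, hE⟩ : ∃ E : Finset (El V), N.E = E := ⟨(Set.toFinite N.E).toFinset, by simp⟩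
  intro e he f hf hef
  by_cases h2 : 2 ≤ #I
  · refine NCp_rank2 N hef fun B hb => ?_
    obtain ⟨B, rfl⟩ : ∃ B' : Finset (El V), B = B' := ⟨(Set.toFinite B).toFinset, by simp⟩
    obtain ⟨b1, b2⟩ := (hB _).1 hb
    rw [← coe_union, MM_base] at b2
    have := bas_card b2
    rw [card_union_of_disjoint (disjoint_coe.1 (hI.symm.mono_left b1))] at this
    rw [Set.ncard_coe_finset]; omega
  set R := (E.erase e).erase f with hR
  have heR : e ∉ R := fun h => notMem_erase e E (mem_of_mem_erase h)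
  have hfR : f ∉ R := notMem_erase _ _
  have hfR' : f ∉ insert e R := by simp [hef.symm, hfR]
  have hRE : (R : Set (El V)) ⊆ N.E := by
    rw [hE]; exact coe_subset.2 ((erase_subset _ _).trans (erase_subset _ _))
  have s1 : ((insert e R : Finset (El V)) : Set (El V)) ⊆ N.E := by
    rw [coe_insert]; exact Set.insert_subset he hRE
  have s2 : ((insert f R : Finset (El V)) : Set (El V)) ⊆ N.E := by
    rw [coe_insert]; exact Set.insert_subset hf hRE
  have s3 : ((insert f (insert e R) : Finset (El V)) : Set (El V)) ⊆ N.E := by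
    rw [coe_insert]; exact Set.insert_subset hf s1
  rw [NCp_iff N hef R (by simpa using heR) (by simpa using hfR) (by
    intro x hx
    rw [hE] at hx
    by_cases a : x = f
    · exact Or.inl a
    by_cases b : x = e
    · exact Or.inr (Or.inl b)
    exact Or.inr (Or.inr (mem_coe.2 (mem_erase.2 ⟨a, mem_erase.2 ⟨b, mem_coe.1 hx⟩⟩))))]
  zify
  have w1 := wt_insert R e heR
  have w2 := wt_insert R f hfR
  have w3 := wt_insert _ f hfR'
  rw [w1] at w3
  obtain ⟨G, hG, hD⟩ : ∃ G : (Pt V → ℤ) → ℤ, (∀ S : Finset (El V), (S : Set (El V)) ⊆ N.E →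
      2 * (cb N S : ℤ) = G (wt S)) ∧ 0 ≤ DD G (wt R) (pt e) (pt f) := by
    have : #I = 0 ∨ #I = 1 := by omega
    rcases this with h | h
    · obtain rfl := card_eq_zero.1 h
      refine ⟨Phi σ τ, fun S hS => ?_, core0 (box_wt R) hστ ht (exists_zero R ?_) _ _⟩
      · rw [cb_eq hB S hS, ← cnt_eq]; simp only [union_empty, cnt]
      · have := Set.ncard_le_ncard hRE (Set.toFinite _)
        rw [Set.ncard_coe_finset] at this; omega
    · obtain ⟨g, rfl⟩ := card_eq_one.1 h
      refine ⟨Psi σ τ (pt g), fun S hS => ?_, core1 (box_wt R) hστ _ _ _⟩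
      have hg : g ∉ S := fun h' => Set.disjoint_left.1 hI (by simp) (hS (mem_coe.2 h'))
      unfold Psi
      rw [cb_eq hB S hS, ← wt_insert S g hg, ← cnt_eq, ← cnt_eq]
      unfold cnt
      rw [sum_powerset_insert hg]
      simp only [union_singleton]; ring
  have a0 := hG R hRE
  have a1 := hG _ s1
  have a2 := hG _ s2
  have a3 := hG _ s3
  unfold DD at hD
  rw [← w3, ← w2, ← w1, ← a0, ← a1, ← a2, ← a3] at hD
  simp only [coe_insert] at hD
  linarith

theorem not_NC {σ τ : Equiv.Perm V} (hστ : ∀ x, σ x ≠ τ x) (hV : 0 < Fintype.card V) :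
    ¬ NC (MM σ τ hστ) := by
  intro h
  have hef : (Sum.inl 0 : El V) ≠ Sum.inl 1 := by simp
  have h1 := h (.inl 0) (Set.mem_univ _) (.inl 1) (Set.mem_univ _) hef
  let R : Finset (El V) := ({2, 3} : Finset (Fin 4)).disjSum univ
  have heR : (Sum.inl 0 : El V) ∉ R := by simp [R]
  have hfR : (Sum.inl 1 : El V) ∉ R := by simp [R]
  have hfR' : (Sum.inl 1 : El V) ∉ insert (Sum.inl 0) R := by simp [R]
  rw [NCp_iff _ hef R (by simpa using heR) (by simpa using hfR) (by
    rintro (k | x) -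
    · fin_cases k <;> simp [R]
    · simp [R])] at h1
  have hG : ∀ S : Finset (El V), 2 * (cb (MM σ τ hστ) S : ℤ) = Phi σ τ (wt S) := fun S => by
    rw [cb_eq (I := ∅) (hστ := hστ) (fun B => by simp [MM]) S (Set.subset_univ _), ← cnt_eq]
    simp only [union_empty, cnt]
  have w1 := wt_insert R _ heR
  have w2 := wt_insert R _ hfR
  have w3 := wt_insert _ _ hfR'
  rw [w1] at w3
  have hD : 0 ≤ DD (Phi σ τ) (wt R) (pS 0) (pS 1) := by
    unfold DD
    change 0 ≤ Phi σ τ (ins (wt R) (pt (.inl 0)) 1) * Phi σ τ (ins (wt R) (pt (.inl 1)) 1) -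
      Phi σ τ (wt R) * Phi σ τ (ins (ins (wt R) (pt (.inl 0)) 1) (pt (.inl 1)) 1)
    rw [← w3, ← w2, ← w1, ← hG, ← hG, ← hG, ← hG]
    simp only [coe_insert]
    zify at h1; linarith
  have fib : ∀ v : V, (∑ x : V × Bool, if v = x.1 then (1:ℤ) else 0) = 2 := fun v => by
    rw [Fintype.sum_prod_type]
    have : ∀ x : V, (∑ y : Bool, if v = (x, y).1 then (1:ℤ) else 0) = if v = x then 2 else 0 := by
      intro x; by_cases h : v = x <;> simp [h]
    simp only [this, sum_ite_eq, mem_univ, if_true]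
  have eL : R.toLeft = {2, 3} := toLeft_disjSum
  have eX : R.toRight.toLeft = univ := by ext; simp [R]
  have eY : R.toRight.toRight = univ := by ext; simp [R]
  have vX : ∀ v, wt R (pX v) = 2 := fun v => by rw [wt_X, eX, fib]
  have vY : ∀ v, wt R (pY v) = 2 := fun v => by rw [wt_Y, eY, fib]
  have v0 : wt R (pS 0) = 0 := by rw [wt_S, eL]; decide
  have v1 : wt R (pS 1) = 0 := by rw [wt_S, eL]; decide
  have v2 : wt R (pS 2) = 1 := by rw [wt_S, eL]; decide
  have v3 : wt R (pS 3) = 1 := by rw [wt_S, eL]; decide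
  have ea : sa (wt R) = 2 * Fintype.card V := by simp [sa, vX, mul_comm]
  have eb : sb (wt R) = 2 * Fintype.card V := by simp [sb, vY, mul_comm]
  have eA : sA1 (wt R) = 4 * Fintype.card V * Fintype.card V - 4 * Fintype.card V := by
    simp only [sA1, ea, vX, sum_const, card_univ, nsmul_eq_mul]; ring
  have eB : sA2 (wt R) = 4 * Fintype.card V * Fintype.card V - 4 * Fintype.card V := by
    simp only [sA2, eb, vY, sum_const, card_univ, nsmul_eq_mul]; ring
  have eT : ∀ ρ, sT ρ (wt R) = 4 * Fintype.card V := fun ρ => by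
    simp only [sT, vX, vY, sum_const, card_univ, nsmul_eq_mul]; ring
  simp only [DD, Phi, ins_SS, sa_S, sb_S, sA1_S, sA2_S, sT_S, Fin.reduceEq, if_true, if_false,
    v0, v1, v2, v3, ea, eb, eA, eB, eT, F2] at hD
  have : (1 : ℤ) ≤ Fintype.card V := by exact_mod_cast hV
  nlinarith

theorem main (n : ℕ) : ∃ k, n ≤ k ∧ ∃ M' : Matroid (Fin k), M'.E = Set.univ ∧ ¬ NC M' ∧
    ∀ N, N <m M' → NC N := by
  have hστ : ∀ x : ZMod (n + 2), (Equiv.addRight 1) x ≠ (Equiv.refl _) x := fun x h => by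
    haveI : Fact (1 < n + 2) := ⟨by omega⟩
    simp at h
  have ht : Tr (Equiv.addRight (1 : ZMod (n + 2))) (Equiv.refl _) := by
    intro u hu
    have a : ∀ k : ℕ, u k = u 0 := fun k => by
      induction k with
      | zero => simp
      | succ k ih => rw [← ih, ← hu k]; simp
    intro x y
    rw [← ZMod.natCast_zmod_val x, ← ZMod.natCast_zmod_val y, a, a]
  refine transfer (MM _ _ hστ) n (not_NC hστ (by simp)) fun N hN hc => small_NC hστ ht N hN ?_
  rw [ZMod.card]; omega

end Pool.Agent.H34.BM
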