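import Pool.Agent.H34.BM0

set_option autoImplicit false
set_option linter.unusedVariables false

namespace Pool.Agent.H34.BM

private theorem fin_ {x y : ℤ} (N : ℤ) (hN : 0 < N) (h : 0 ≤ y) (e : N * x = y) : 0 ≤ x :=
  le_of_mul_le_mul_left (by rw [mul_zero, e]; exact h) hN

theorem X0a (a b A1 A2 T1 T2 : ℤ) (B : Base a b A1 A2 T1 T2) (hO : 0 ≤ T1 - T2) :
    0 ≤ 4*a*a*b*b + 2*A1*a*b - 2*A1*b*b + 2*A2*a*b - 2*A2*a*a - 4*T1*a*b - 4*T2*a*b + 2*A1*A2 - 2*A1*T1 - 2*A1*T2 + A1*A1 - 2*A2*T1 - 2*A2*T2 + A2*A2 + 4*T1*T2 := by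
  obtain ⟨h_a, h_b, h_A1, h_A2, h_T1, h_T2, hPa, hP2, hQb, hQ2, hT, h1a, h1b, h2a, h2b, hD1, hD2, hK1, hK2⟩ := B
  have Ha : a = 0 ∨ a = 1 ∨ a = 2 ∨ a = 3 ∨ ∃ ap, 0 ≤ ap ∧ a = ap + 4 := by
    by_cases h : 4 ≤ a
    · exact Or.inr (Or.inr (Or.inr (Or.inr ⟨a - 4, by omega, by ring⟩)))
    · omega
  have Hb : b = 0 ∨ b = 1 ∨ b = 2 ∨ b = 3 ∨ ∃ bp, 0 ≤ bp ∧ b = bp + 4 := by
    by_cases h : 4 ≤ b
    · exact Or.inr (Or.inr (Or.inr (Or.inr ⟨b - 4, by omega, by ring⟩)))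
    · omega
  rcases Ha with rfl | rfl | rfl | rfl | ⟨ap, h_ap, rfl⟩ <;> rcases Hb with rfl | rfl | rfl | rfl | ⟨bp, h_bp, rfl⟩
  · refine fin_ 1 (by decide) (Int.add_nonneg (Int.add_nonneg (Int.mul_nonneg (Int.natCast_nonneg 2) (Int.mul_nonneg hT h_A1)) (Int.add_nonneg (Int.mul_nonneg (Int.natCast_nonneg 2) (Int.mul_nonneg hT h_A2)) (Int.mul_nonneg h_A1 h_A1))) (Int.add_nonneg (Int.mul_nonneg (Int.natCast_nonneg 2) (Int.mul_nonneg h_A1 h_A2)) (Int.add_nonneg (Int.mul_nonneg h_A2 h_A2) (Int.mul_nonneg (Int.natCast_nonneg 4) (Int.mul_nonneg h_T1 h_T2))))) ?_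
    ring
  · refine fin_ 1 (by decide) (Int.add_nonneg (Int.add_nonneg (Int.mul_nonneg (Int.natCast_nonneg 2) (Int.mul_nonneg hT h_A1)) (Int.add_nonneg (Int.mul_nonneg (Int.natCast_nonneg 2) (Int.mul_nonneg hT h_A2)) (Int.mul_nonneg (Int.natCast_nonneg 2) hPa))) (Int.add_nonneg (Int.add_nonneg (Int.mul_nonneg h_A1 h_A1) (Int.mul_nonneg (Int.natCast_nonneg 2) (Int.mul_nonneg h_A1 h_A2))) (Int.add_nonneg (Int.mul_nonneg h_A2 h_A2) (Int.mul_nonneg (Int.natCast_nonneg 4) (Int.mul_nonneg h_T1 h_T2))))) ?_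
    ring
  · refine fin_ 2 (by decide) (Int.add_nonneg (Int.add_nonneg (Int.add_nonneg (Int.mul_nonneg hD1 h_T2) (Int.mul_nonneg hD1 h_T1)) (Int.add_nonneg (Int.mul_nonneg hK2 h_A2) (Int.mul_nonneg (Int.natCast_nonneg 4) hD1))) (Int.add_nonneg (Int.add_nonneg (Int.mul_nonneg hK1 h_A2) (Int.mul_nonneg (Int.natCast_nonneg 2) (Int.mul_nonneg h_A1 h_A1))) (Int.add_nonneg (Int.mul_nonneg (Int.natCast_nonneg 8) (Int.mul_nonneg h_A1 h_A2)) (Int.add_nonneg (Int.mul_nonneg (Int.natCast_nonneg 2) (Int.mul_nonneg h_A2 h_A2)) (Int.mul_nonneg (Int.natCast_nonneg 8) (Int.mul_nonneg h_T1 h_T2)))))) ?_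
    ring
  · refine fin_ 9 (by decide) (Int.add_nonneg (Int.add_nonneg (Int.add_nonneg (Int.mul_nonneg (Int.natCast_nonneg 2) (Int.mul_nonneg hD1 h_T2)) (Int.mul_nonneg (Int.natCast_nonneg 3) (Int.mul_nonneg hK2 h_A2))) (Int.add_nonneg (Int.mul_nonneg (Int.natCast_nonneg 2) (Int.mul_nonneg hD1 h_T1)) (Int.mul_nonneg (Int.natCast_nonneg 3) (Int.mul_nonneg hK1 h_A2)))) (Int.add_nonneg (Int.add_nonneg (Int.mul_nonneg (Int.natCast_nonneg 18) hD1) (Int.mul_nonneg (Int.natCast_nonneg 9) (Int.mul_nonneg h_A1 h_A1))) (Int.add_nonneg (Int.mul_nonneg (Int.natCast_nonneg 36) (Int.mul_nonneg h_A1 h_A2)) (Int.add_nonneg (Int.mul_nonneg (Int.natCast_nonneg 9) (Int.mul_nonneg h_A2 h_A2)) (Int.mul_nonneg (Int.natCast_nonneg 36) (Int.mul_nonneg h_T1 h_T2)))))) ?_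
    ring
  · refine fin_ 1 (by decide) (Int.add_nonneg (Int.add_nonneg (Int.mul_nonneg (Int.natCast_nonneg 2) (Int.mul_nonneg hT h_A1)) (Int.add_nonneg (Int.mul_nonneg (Int.natCast_nonneg 2) (Int.mul_nonneg hT h_A2)) (Int.mul_nonneg (Int.natCast_nonneg 2) hD1))) (Int.add_nonneg (Int.add_nonneg (Int.mul_nonneg h_A1 h_A1) (Int.mul_nonneg (Int.natCast_nonneg 2) (Int.mul_nonneg h_A1 h_A2))) (Int.add_nonneg (Int.mul_nonneg h_A2 h_A2) (Int.mul_nonneg (Int.natCast_nonneg 4) (Int.mul_nonneg h_T1 h_T2))))) ?_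
    ring
  · refine fin_ 1 (by decide) (Int.add_nonneg (Int.add_nonneg (Int.mul_nonneg (Int.natCast_nonneg 2) (Int.mul_nonneg hT h_A1)) (Int.add_nonneg (Int.mul_nonneg (Int.natCast_nonneg 2) (Int.mul_nonneg hT h_A2)) (Int.mul_nonneg (Int.natCast_nonneg 2) hQb))) (Int.add_nonneg (Int.add_nonneg (Int.mul_nonneg h_A1 h_A1) (Int.mul_nonneg (Int.natCast_nonneg 2) (Int.mul_nonneg h_A1 h_A2))) (Int.add_nonneg (Int.mul_nonneg h_A2 h_A2) (Int.mul_nonneg (Int.natCast_nonneg 4) (Int.mul_nonneg h_T1 h_T2))))) ?_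
    ring
  · refine fin_ 1 (by decide) (Int.add_nonneg (Int.add_nonneg (Int.add_nonneg (Int.mul_nonneg (Int.natCast_nonneg 2) hPa) (Int.mul_nonneg (Int.natCast_nonneg 4) hT)) (Int.add_nonneg (Int.mul_nonneg (Int.natCast_nonneg 2) hQb) (Int.mul_nonneg (Int.natCast_nonneg 2) (Int.mul_nonneg hT h_A1)))) (Int.add_nonneg (Int.add_nonneg (Int.mul_nonneg (Int.natCast_nonneg 2) (Int.mul_nonneg hT h_A2)) (Int.mul_nonneg h_A1 h_A1)) (Int.add_nonneg (Int.mul_nonneg (Int.natCast_nonneg 2) (Int.mul_nonneg h_A1 h_A2)) (Int.add_nonneg (Int.mul_nonneg h_A2 h_A2) (Int.mul_nonneg (Int.natCast_nonneg 4) (Int.mul_nonneg h_T1 h_T2)))))) ?_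
    ring
  · refine fin_ 16 (by decide) (Int.add_nonneg (Int.add_nonneg (Int.add_nonneg (Int.mul_nonneg hD1 hD2) (Int.mul_nonneg (Int.natCast_nonneg 45) (Int.mul_nonneg hT h_A2))) (Int.add_nonneg (Int.mul_nonneg (Int.natCast_nonneg 48) (Int.mul_nonneg hPa h_T2)) (Int.add_nonneg (Int.mul_nonneg (Int.natCast_nonneg 3) (Int.mul_nonneg hQb hD1)) (Int.mul_nonneg (Int.natCast_nonneg 6) (Int.mul_nonneg hD1 h_T1))))) (Int.add_nonneg (Int.add_nonneg (Int.mul_nonneg (Int.natCast_nonneg 3) (Int.mul_nonneg hD1 hO)) (Int.mul_nonneg (Int.natCast_nonneg 24) (Int.mul_nonneg hT h_A1))) (Int.add_nonneg (Int.mul_nonneg (Int.natCast_nonneg 6) (Int.mul_nonneg hT hK1)) (Int.add_nonneg (Int.mul_nonneg (Int.natCast_nonneg 12) (Int.mul_nonneg h_A1 h_A2)) (Int.mul_nonneg (Int.natCast_nonneg 12) (Int.mul_nonneg h_A2 h_A2)))))) ?_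
    ring
  · refine fin_ 4 (by decide) (Int.add_nonneg (Int.add_nonneg (Int.add_nonneg (Int.mul_nonneg (Int.natCast_nonneg 4) (Int.mul_nonneg hQ2 h_A2)) (Int.add_nonneg hD1 (Int.mul_nonneg (Int.natCast_nonneg 10) (Int.mul_nonneg hQ2 h_A1)))) (Int.add_nonneg (Int.mul_nonneg (Int.natCast_nonneg 8) (Int.mul_nonneg hPa h_T1)) (Int.add_nonneg (Int.mul_nonneg (Int.natCast_nonneg 10) (Int.mul_nonneg hT h_A2)) (Int.mul_nonneg (Int.natCast_nonneg 2) (Int.mul_nonneg hPa h_A2))))) (Int.add_nonneg (Int.add_nonneg hD2 (Int.add_nonneg (Int.mul_nonneg (Int.natCast_nonneg 2) (Int.mul_nonneg hQ2 h_T2)) (Int.mul_nonneg (Int.natCast_nonneg 2) (Int.mul_nonneg hQ2 h_T1)))) (Int.add_nonneg (Int.add_nonneg (Int.mul_nonneg (Int.natCast_nonneg 36) hT) (Int.mul_nonneg (Int.natCast_nonneg 8) (Int.mul_nonneg hPa h_T2))) (Int.add_nonneg (Int.mul_nonneg (Int.natCast_nonneg 4) (Int.mul_nonneg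 h_A1 h_A1)) (Int.mul_nonneg (Int.natCast_nonneg 16) (Int.mul_nonneg h_T1 h_T2)))))) ?_
    ring
  · refine fin_ 2 (by decide) (Int.add_nonneg (Int.add_nonneg (Int.add_nonneg (Int.add_nonneg (Int.mul_nonneg (Int.natCast_nonneg 2) hD1) (Int.mul_nonneg (Int.natCast_nonneg 2) hD2)) (Int.add_nonneg (Int.mul_nonneg (Int.natCast_nonneg 6) (Int.mul_nonneg hT h_A2)) (Int.mul_nonneg (Int.natCast_nonneg 4) (Int.mul_nonneg hT h_A1)))) (Int.add_nonneg (Int.add_nonneg (Int.mul_nonneg hQ2 h_A2) (Int.mul_nonneg (Int.natCast_nonneg 2) (Int.mul_nonneg hQ2 h_T1))) (Int.add_nonneg (Int.mul_nonneg (Int.natCast_nonneg 2) (Int.mul_nonneg hQ2 h_T2)) (Int.mul_nonneg (Int.natCast_nonneg 2) (Int.mul_nonneg h_A1 h_A1))))) (Int.add_nonneg (Int.add_nonneg (Int.add_nonneg (Int.mul_nonneg (Int.natCast_nonneg 4) (Int.mul_nonneg h_A1 h_A2)) (Int.mul_nonneg h_A2 h_A2)) (Int.add_nonneg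 (Int.mul_nonneg (Int.natCast_nonneg 4) (Int.mul_nonneg h_A2 h_bp)) (Int.mul_nonneg (Int.natCast_nonneg 8) (Int.mul_nonneg h_T2 h_bp)))) (Int.add_nonneg (Int.add_nonneg (Int.mul_nonneg (Int.natCast_nonneg 8) (Int.mul_nonneg h_T1 h_bp)) (Int.mul_nonneg (Int.natCast_nonneg 8) (Int.mul_nonneg h_T1 h_T2))) (Int.add_nonneg (Int.mul_nonneg (Int.mul_nonneg h_A2 h_bp) h_bp) (Int.add_nonneg (Int.mul_nonneg (Int.natCast_nonneg 2) (Int.mul_nonneg (Int.mul_nonneg h_T1 h_bp) h_bp)) (Int.mul_nonneg (Int.natCast_nonneg 2) (Int.mul_nonneg (Int.mul_nonneg h_T2 h_bp) h_bp))))))) ?_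
    ring
  · refine fin_ 2 (by decide) (Int.add_nonneg (Int.add_nonneg (Int.add_nonneg (Int.mul_nonneg hD1 h_T2) (Int.mul_nonneg hK2 h_A1)) (Int.add_nonneg (Int.mul_nonneg hD1 h_T1) (Int.mul_nonneg (Int.natCast_nonneg 4) hD1))) (Int.add_nonneg (Int.add_nonneg (Int.mul_nonneg hK1 h_A1) (Int.mul_nonneg (Int.natCast_nonneg 2) (Int.mul_nonneg h_A1 h_A1))) (Int.add_nonneg (Int.mul_nonneg (Int.natCast_nonneg 8) (Int.mul_nonneg h_A1 h_A2)) (Int.add_nonneg (Int.mul_nonneg (Int.natCast_nonneg 2) (Int.mul_nonneg h_A2 h_A2)) (Int.mul_nonneg (Int.natCast_nonneg 8) (Int.mul_nonneg h_T1 h_T2)))))) ?_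
    ring
  · refine fin_ 16 (by decide) (Int.add_nonneg (Int.add_nonneg (Int.add_nonneg (Int.mul_nonneg (Int.natCast_nonneg 48) (Int.mul_nonneg hQb h_T2)) (Int.mul_nonneg hD1 hD2)) (Int.add_nonneg (Int.mul_nonneg (Int.natCast_nonneg 45) (Int.mul_nonneg hT h_A1)) (Int.add_nonneg (Int.mul_nonneg (Int.natCast_nonneg 3) (Int.mul_nonneg hPa hD1)) (Int.mul_nonneg (Int.natCast_nonneg 3) (Int.mul_nonneg hD1 hO))))) (Int.add_nonneg (Int.add_nonneg (Int.mul_nonneg (Int.natCast_nonneg 6) (Int.mul_nonneg hD1 h_T1)) (Int.mul_nonneg (Int.natCast_nonneg 24) (Int.mul_nonneg hT h_A2))) (Int.add_nonneg (Int.mul_nonneg (Int.natCast_nonneg 6) (Int.mul_nonneg hT hK1)) (Int.add_nonneg (Int.mul_nonneg (Int.natCast_nonneg 12) (Int.mul_nonneg h_A1 h_A1)) (Int.mul_nonneg (Int.natCast_nonneg 12) (Int.mul_nonneg h_A1 h_A2)))))) ?_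
    ring
  · refine fin_ 16 (by decide) (Int.add_nonneg (Int.mul_nonneg (Int.natCast_nonneg 64) (Int.mul_nonneg hT h_A1)) (Int.add_nonneg (Int.mul_nonneg (Int.natCast_nonneg 64) (Int.mul_nonneg hT h_A2)) (Int.mul_nonneg hD1 hD2))) ?_
    ring
  · refine fin_ 432 (by decide) (Int.add_nonneg (Int.add_nonneg (Int.add_nonneg (Int.mul_nonneg (Int.natCast_nonneg 7) (Int.mul_nonneg hD1 hD2)) (Int.add_nonneg (Int.mul_nonneg (Int.natCast_nonneg 126) (Int.mul_nonneg hQ2 h_A1)) (Int.mul_nonneg (Int.natCast_nonneg 2178) (Int.mul_nonneg hT h_A1)))) (Int.add_nonneg (Int.mul_nonneg (Int.natCast_nonneg 304) (Int.mul_nonneg hQ2 h_A2)) (Int.add_nonneg (Int.mul_nonneg (Int.natCast_nonneg 10) (Int.mul_nonneg hQb hD1)) (Int.mul_nonneg (Int.natCast_nonneg 405) (Int.mul_nonneg hPa h_A1))))) (Int.add_nonneg (Int.add_nonneg (Int.mul_nonneg (Int.natCast_nonneg 18) (Int.mul_nonneg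 hPa hK2)) (Int.add_nonneg (Int.mul_nonneg (Int.natCast_nonneg 12) (Int.mul_nonneg hQ2 hK2)) (Int.mul_nonneg (Int.natCast_nonneg 36) (Int.mul_nonneg hT hK1)))) (Int.add_nonneg (Int.mul_nonneg (Int.natCast_nonneg 30) (Int.mul_nonneg hD1 hO)) (Int.add_nonneg (Int.mul_nonneg (Int.natCast_nonneg 72) (Int.mul_nonneg hPa hK1)) (Int.mul_nonneg (Int.natCast_nonneg 1272) (Int.mul_nonneg hT h_A2)))))) ?_
    ring
  · refine fin_ 2 (by decide) (Int.add_nonneg (Int.add_nonneg (Int.add_nonneg (Int.mul_nonneg (Int.natCast_nonneg 4) (Int.mul_nonneg hT h_A1)) (Int.add_nonneg (Int.mul_nonneg (Int.natCast_nonneg 2) hD1) (Int.mul_nonneg (Int.natCast_nonneg 4) (Int.mul_nonneg hT h_A2)))) (Int.add_nonneg (Int.mul_nonneg (Int.natCast_nonneg 4) (Int.mul_nonneg hT h2b)) (Int.add_nonneg (Int.mul_nonneg hQ2 h_A2) (Int.mul_nonneg (Int.natCast_nonneg 4) (Int.mul_nonneg hO h_T2)))))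 (Int.add_nonneg (Int.add_nonneg (Int.mul_nonneg (Int.natCast_nonneg 4) (Int.mul_nonneg hQ2 h_A1)) (Int.add_nonneg (Int.mul_nonneg (Int.natCast_nonneg 2) (Int.mul_nonneg h_A1 h_A1)) (Int.mul_nonneg (Int.natCast_nonneg 8) (Int.mul_nonneg h_A1 h_bp)))) (Int.add_nonneg (Int.add_nonneg (Int.mul_nonneg h_A2 h_A2) (Int.mul_nonneg (Int.natCast_nonneg 2) (Int.mul_nonneg (Int.mul_nonneg h_A1 h_bp) h_bp))) (Int.add_nonneg (Int.mul_nonneg (Int.natCast_nonneg 6) (Int.mul_nonneg h_A2 h_bp)) (Int.mul_nonneg (Int.mul_nonneg h_A2 h_bp) h_bp))))) ?_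
    ring
  · refine fin_ 9 (by decide) (Int.add_nonneg (Int.add_nonneg (Int.add_nonneg (Int.mul_nonneg (Int.natCast_nonneg 3) (Int.mul_nonneg hK2 h_A1)) (Int.mul_nonneg (Int.natCast_nonneg 2) (Int.mul_nonneg hD1 h_T2))) (Int.add_nonneg (Int.mul_nonneg (Int.natCast_nonneg 3) (Int.mul_nonneg hK1 h_A1)) (Int.mul_nonneg (Int.natCast_nonneg 2) (Int.mul_nonneg hD1 h_T1)))) (Int.add_nonneg (Int.add_nonneg (Int.mul_nonneg (Int.natCast_nonneg 18) hD1) (Int.mul_nonneg (Int.natCast_nonneg 9) (Int.mul_nonneg h_A1 h_A1))) (Int.add_nonneg (Int.mul_nonneg (Int.natCast_nonneg 36) (Int.mul_nonneg h_A1 h_A2)) (Int.add_nonneg (Int.mul_nonneg (Int.natCast_nonneg 9) (Int.mul_nonneg h_A2 h_A2)) (Int.mul_nonneg (Int.natCast_nonneg 36) (Int.mul_nonneg h_T1 h_T2)))))) ?_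
    ring
  · refine fin_ 4 (by decide) (Int.add_nonneg (Int.add_nonneg (Int.add_nonneg (Int.mul_nonneg (Int.natCast_nonneg 4) (Int.mul_nonneg hP2 h_A1)) (Int.add_nonneg (Int.mul_nonneg (Int.natCast_nonneg 2) (Int.mul_nonneg hP2 h_T1)) (Int.mul_nonneg (Int.natCast_nonneg 10) (Int.mul_nonneg hT h_A1)))) (Int.add_nonneg (Int.mul_nonneg (Int.natCast_nonneg 36) hT) (Int.add_nonneg hD1 (Int.mul_nonneg (Int.natCast_nonneg 10) (Int.mul_nonneg hP2 h_A2))))) (Int.add_nonneg (Int.add_nonneg hD2 (Int.add_nonneg (Int.mul_nonneg (Int.natCast_nonneg 2) (Int.mul_nonneg hP2 h_T2)) (Int.mul_nonneg (Int.natCast_nonneg 8) (Int.mul_nonneg hQb h_T1)))) (Int.add_nonneg (Int.add_nonneg (Int.mul_nonneg (Int.natCast_nonneg 2) (Int.mul_nonneg hQb h_A1)) (Int.mul_nonneg (Int.natCast_nonneg 8) (Int.mul_nonneg hQb h_T2))) (Int.add_nonneg (Int.mul_nonneg (Int.natCast_nonneg 4) (Int.mul_nonneg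 h_A2 h_A2)) (Int.mul_nonneg (Int.natCast_nonneg 16) (Int.mul_nonneg h_T1 h_T2)))))) ?_
    ring
  · refine fin_ 432 (by decide) (Int.add_nonneg (Int.add_nonneg (Int.add_nonneg (Int.mul_nonneg (Int.natCast_nonneg 304) (Int.mul_nonneg hP2 h_A1)) (Int.add_nonneg (Int.mul_nonneg (Int.natCast_nonneg 126) (Int.mul_nonneg hP2 h_A2)) (Int.mul_nonneg (Int.natCast_nonneg 10) (Int.mul_nonneg hPa hD1)))) (Int.add_nonneg (Int.mul_nonneg (Int.natCast_nonneg 405) (Int.mul_nonneg hQb h_A2)) (Int.add_nonneg (Int.mul_nonneg (Int.natCast_nonneg 7) (Int.mul_nonneg hD1 hD2)) (Int.mul_nonneg (Int.natCast_nonneg 2178) (Int.mul_nonneg hT h_A2))))) (Int.add_nonneg (Int.add_nonneg (Int.mul_nonneg (Int.natCast_nonneg 18) (Int.mul_nonneg hQb hK2)) (Int.add_nonneg (Int.mul_nonneg (Int.natCast_nonneg 36) (Int.mul_nonneg hT hK1)) (Int.mul_nonneg (Int.natCast_nonneg 12) (Int.mul_nonneg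 hP2 hK2)))) (Int.add_nonneg (Int.mul_nonneg (Int.natCast_nonneg 30) (Int.mul_nonneg hD1 hO)) (Int.add_nonneg (Int.mul_nonneg (Int.natCast_nonneg 72) (Int.mul_nonneg hQb hK1)) (Int.mul_nonneg (Int.natCast_nonneg 1272) (Int.mul_nonneg hT h_A1)))))) ?_
    ring
  · refine fin_ 81 (by decide) (Int.add_nonneg (Int.mul_nonneg hD1 hD2) (Int.add_nonneg (Int.mul_nonneg (Int.natCast_nonneg 324) (Int.mul_nonneg hT h_A1)) (Int.mul_nonneg (Int.natCast_nonneg 324) (Int.mul_nonneg hT h_A2)))) ?_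
    ring
  · refine fin_ 64 (by decide) (Int.add_nonneg (Int.add_nonneg (Int.add_nonneg (Int.mul_nonneg (Int.natCast_nonneg 24) (Int.mul_nonneg hP2 h_A2)) (Int.add_nonneg (Int.mul_nonneg (Int.natCast_nonneg 64) hD1) (Int.mul_nonneg (Int.natCast_nonneg 104) (Int.mul_nonneg hQ2 h_A1)))) (Int.add_nonneg (Int.add_nonneg (Int.mul_nonneg (Int.natCast_nonneg 128) (Int.mul_nonneg hT h_A2)) (Int.mul_nonneg (Int.natCast_nonneg 64) (Int.mul_nonneg hP2 h_A1))) (Int.add_nonneg (Int.mul_nonneg (Int.natCast_nonneg 128) (Int.mul_nonneg hO h_T2)) (Int.mul_nonneg (Int.natCast_nonneg 128) (Int.mul_nonneg hT h_A1))))) (Int.add_nonneg (Int.add_nonneg (Int.add_nonneg (Int.mul_nonneg (Int.natCast_nonneg 63) (Int.mul_nonneg hQ2 h_A2)) (Int.mul_nonneg (Int.natCast_nonneg 128) (Int.mul_nonneg hT hT))) (Int.add_nonneg (Int.mul_nonneg (Int.natCast_nonneg 128) (Int.mul_nonneg hT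 h_T1)) (Int.mul_nonneg (Int.natCast_nonneg 112) (Int.mul_nonneg h_A1 h_bp)))) (Int.add_nonneg (Int.add_nonneg (Int.mul_nonneg h_A2 h_A2) (Int.mul_nonneg (Int.natCast_nonneg 40) (Int.mul_nonneg (Int.mul_nonneg h_A1 h_bp) h_bp))) (Int.add_nonneg (Int.mul_nonneg (Int.natCast_nonneg 378) (Int.mul_nonneg h_A2 h_bp)) (Int.mul_nonneg (Int.natCast_nonneg 63) (Int.mul_nonneg (Int.mul_nonneg h_A2 h_bp) h_bp)))))) ?_
    ring
  · refine fin_ 1 (by decide) (Int.add_nonneg (Int.add_nonneg (Int.mul_nonneg (Int.natCast_nonneg 2) (Int.mul_nonneg hT h_A1)) (Int.add_nonneg (Int.mul_nonneg (Int.natCast_nonneg 2) (Int.mul_nonneg hT h_A2)) (Int.mul_nonneg (Int.natCast_nonneg 2) hD1))) (Int.add_nonneg (Int.add_nonneg (Int.mul_nonneg h_A1 h_A1) (Int.mul_nonneg (Int.natCast_nonneg 2) (Int.mul_nonneg h_A1 h_A2))) (Int.add_nonneg (Int.mul_nonneg h_A2 h_A2) (Int.mul_nonneg (Int.natCast_nonneg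 4) (Int.mul_nonneg h_T1 h_T2))))) ?_
    ring
  · refine fin_ 2 (by decide) (Int.add_nonneg (Int.add_nonneg (Int.add_nonneg (Int.add_nonneg (Int.mul_nonneg (Int.natCast_nonneg 6) (Int.mul_nonneg hT h_A1)) (Int.mul_nonneg (Int.natCast_nonneg 2) hD1)) (Int.add_nonneg (Int.mul_nonneg (Int.natCast_nonneg 4) (Int.mul_nonneg hT h_A2)) (Int.mul_nonneg (Int.natCast_nonneg 2) (Int.mul_nonneg hP2 h_T2)))) (Int.add_nonneg (Int.add_nonneg (Int.mul_nonneg (Int.natCast_nonneg 2) (Int.mul_nonneg hP2 h_T1)) (Int.mul_nonneg hP2 h_A1)) (Int.add_nonneg (Int.mul_nonneg (Int.natCast_nonneg 2) hD2) (Int.mul_nonneg h_A1 h_A1)))) (Int.add_nonneg (Int.add_nonneg (Int.add_nonneg (Int.mul_nonneg (Int.natCast_nonneg 4) (Int.mul_nonneg h_A1 h_A2)) (Int.mul_nonneg (Int.natCast_nonneg 4) (Int.mul_nonneg h_A1 h_ap))) (Int.add_nonneg (Int.mul_nonneg (Int.natCast_nonneg 2) (Int.mul_nonneg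 h_A2 h_A2)) (Int.mul_nonneg (Int.natCast_nonneg 8) (Int.mul_nonneg h_T2 h_ap)))) (Int.add_nonneg (Int.add_nonneg (Int.mul_nonneg (Int.natCast_nonneg 8) (Int.mul_nonneg h_T1 h_ap)) (Int.mul_nonneg (Int.natCast_nonneg 8) (Int.mul_nonneg h_T1 h_T2))) (Int.add_nonneg (Int.mul_nonneg (Int.natCast_nonneg 2) (Int.mul_nonneg (Int.mul_nonneg h_T2 h_ap) h_ap)) (Int.add_nonneg (Int.mul_nonneg (Int.natCast_nonneg 2) (Int.mul_nonneg (Int.mul_nonneg h_T1 h_ap) h_ap)) (Int.mul_nonneg (Int.mul_nonneg h_A1 h_ap) h_ap)))))) ?_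
    ring
  · refine fin_ 2 (by decide) (Int.add_nonneg (Int.add_nonneg (Int.add_nonneg (Int.mul_nonneg (Int.natCast_nonneg 4) (Int.mul_nonneg hT h_A1)) (Int.add_nonneg (Int.mul_nonneg (Int.natCast_nonneg 4) (Int.mul_nonneg hT h_A2)) (Int.mul_nonneg (Int.natCast_nonneg 2) hD1))) (Int.add_nonneg (Int.mul_nonneg hP2 h_A1) (Int.add_nonneg (Int.mul_nonneg (Int.natCast_nonneg 4) (Int.mul_nonneg hT h2a)) (Int.mul_nonneg (Int.natCast_nonneg 4) (Int.mul_nonneg hO h_T2))))) (Int.add_nonneg (Int.add_nonneg (Int.mul_nonneg (Int.natCast_nonneg 4) (Int.mul_nonneg hP2 h_A2)) (Int.add_nonneg (Int.mul_nonneg h_A1 h_A1) (Int.mul_nonneg (Int.natCast_nonneg 2) (Int.mul_nonneg h_A2 h_A2)))) (Int.add_nonneg (Int.add_nonneg (Int.mul_nonneg (Int.natCast_nonneg 8) (Int.mul_nonneg h_A2 h_ap)) (Int.mul_nonneg (Int.natCast_nonneg 2) (Int.mul_nonneg (Int.mul_nonneg h_A2 h_ap) h_ap)))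 (Int.add_nonneg (Int.mul_nonneg (Int.natCast_nonneg 6) (Int.mul_nonneg h_A1 h_ap)) (Int.mul_nonneg (Int.mul_nonneg h_A1 h_ap) h_ap))))) ?_
    ring
  · refine fin_ 64 (by decide) (Int.add_nonneg (Int.add_nonneg (Int.add_nonneg (Int.mul_nonneg (Int.natCast_nonneg 128) (Int.mul_nonneg hT h_A1)) (Int.add_nonneg (Int.mul_nonneg (Int.natCast_nonneg 24) (Int.mul_nonneg hQ2 h_A1)) (Int.mul_nonneg (Int.natCast_nonneg 104) (Int.mul_nonneg hP2 h_A2)))) (Int.add_nonneg (Int.add_nonneg (Int.mul_nonneg (Int.natCast_nonneg 64) (Int.mul_nonneg hQ2 h_A2)) (Int.mul_nonneg (Int.natCast_nonneg 64) hD1)) (Int.add_nonneg (Int.mul_nonneg (Int.natCast_nonneg 128) (Int.mul_nonneg hT hT)) (Int.mul_nonneg (Int.natCast_nonneg 128) (Int.mul_nonneg hT h_T1))))) (Int.add_nonneg (Int.add_nonneg (Int.add_nonneg (Int.mul_nonneg (Int.natCast_nonneg 128) (Int.mul_nonneg hT h_A2)) (Int.mul_nonneg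 (Int.natCast_nonneg 128) (Int.mul_nonneg hO h_T2))) (Int.add_nonneg (Int.mul_nonneg (Int.natCast_nonneg 63) (Int.mul_nonneg hP2 h_A1)) (Int.mul_nonneg h_A1 h_A1))) (Int.add_nonneg (Int.add_nonneg (Int.mul_nonneg (Int.natCast_nonneg 112) (Int.mul_nonneg h_A2 h_ap)) (Int.mul_nonneg (Int.natCast_nonneg 40) (Int.mul_nonneg (Int.mul_nonneg h_A2 h_ap) h_ap))) (Int.add_nonneg (Int.mul_nonneg (Int.natCast_nonneg 378) (Int.mul_nonneg h_A1 h_ap)) (Int.mul_nonneg (Int.natCast_nonneg 63) (Int.mul_nonneg (Int.mul_nonneg h_A1 h_ap) h_ap)))))) ?_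
    ring
  · refine fin_ 4 (by decide) (Int.add_nonneg (Int.add_nonneg (Int.add_nonneg (Int.add_nonneg (Int.add_nonneg (Int.mul_nonneg h2b h_A2) (Int.mul_nonneg (Int.natCast_nonneg 4) (Int.mul_nonneg hP2 h_A1))) (Int.add_nonneg (Int.mul_nonneg h2a h_A1) hD2)) (Int.add_nonneg (Int.add_nonneg (Int.mul_nonneg (Int.natCast_nonneg 4) (Int.mul_nonneg hT h_T1)) (Int.mul_nonneg (Int.natCast_nonneg 4) (Int.mul_nonneg hQ2 h_A1))) (Int.add_nonneg (Int.mul_nonneg (mul_self_nonneg (ap - bp)) h_T2) (Int.mul_nonneg h1b hO)))) (Int.add_nonneg (Int.add_nonneg (Int.add_nonneg (Int.mul_nonneg h1a hO) (Int.mul_nonneg hP2 h_T1)) (Int.add_nonneg (Int.mul_nonneg (Int.natCast_nonneg 8) (Int.mul_nonneg hT h_A2)) (Int.mul_nonneg (Int.natCast_nonneg 4) (Int.mul_nonneg hP2 h_A2)))) (Int.add_nonneg (Int.add_nonneg (Int.mul_nonneg (Int.natCast_nonneg 4) (Int.mul_nonneg hQ2 h_A2))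 (Int.mul_nonneg hP2 h_T2)) (Int.add_nonneg (Int.mul_nonneg (Int.natCast_nonneg 6) (Int.mul_nonneg hO h_T2)) (Int.mul_nonneg hQ2 h_T2))))) (Int.add_nonneg (Int.add_nonneg (Int.add_nonneg (Int.add_nonneg (Int.mul_nonneg hQ2 h_T1) (Int.mul_nonneg (Int.natCast_nonneg 8) (Int.mul_nonneg hT h_A1))) (Int.add_nonneg (Int.mul_nonneg h1a h_A1) (Int.mul_nonneg h1b h_A2))) (Int.add_nonneg (Int.add_nonneg (Int.mul_nonneg (Int.natCast_nonneg 4) hD1) (Int.mul_nonneg (Int.natCast_nonneg 6) (Int.mul_nonneg hT hT))) (Int.add_nonneg (Int.mul_nonneg (Int.natCast_nonneg 20) (Int.mul_nonneg h_A1 h_ap)) (Int.mul_nonneg (Int.natCast_nonneg 20) (Int.mul_nonneg h_A2 h_bp))))) (Int.add_nonneg (Int.add_nonneg (Int.add_nonneg (Int.mul_nonneg (Int.natCast_nonneg 4) (Int.mul_nonneg h_T1 h_ap)) (Int.mul_nonneg (Int.natCast_nonneg 4) (Int.mul_nonneg h_T1 h_bp))) (Int.add_nonneg (Int.mul_nonneg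 (Int.mul_nonneg h_A1 h_bp) h_bp) (Int.mul_nonneg (Int.mul_nonneg h_A2 h_ap) h_ap))) (Int.add_nonneg (Int.add_nonneg (Int.mul_nonneg (Int.natCast_nonneg 4) (Int.mul_nonneg (Int.mul_nonneg h_A1 h_ap) h_ap)) (Int.mul_nonneg (Int.mul_nonneg h_T1 h_ap) h_ap)) (Int.add_nonneg (Int.mul_nonneg (Int.natCast_nonneg 4) (Int.mul_nonneg (Int.mul_nonneg h_A2 h_bp) h_bp)) (Int.mul_nonneg (Int.mul_nonneg h_T1 h_bp) h_bp)))))) ?_
    ring

theorem Base.swapT {a b A1 A2 T1 T2 : ℤ} (B : Base a b A1 A2 T1 T2) : Base a b A1 A2 T2 T1 := by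
  obtain ⟨h_a, h_b, h_A1, h_A2, h_T1, h_T2, hPa, hP2, hQb, hQ2, hT, h1a, h1b, h2a, h2b, hD1, hD2, hK1, hK2⟩ := B
  constructor <;> linarith

theorem X0 (a b A1 A2 T1 T2 : ℤ) (B : Base a b A1 A2 T1 T2) :
    0 ≤ 4*a*a*b*b + 2*A1*a*b - 2*A1*b*b + 2*A2*a*b - 2*A2*a*a - 4*T1*a*b - 4*T2*a*b + 2*A1*A2 - 2*A1*T1 - 2*A1*T2 + A1*A1 - 2*A2*T1 - 2*A2*T2 + A2*A2 + 4*T1*T2 := by
  rcases le_total T1 T2 with h | h
  · have := X0a a b A1 A2 T2 T1 B.swapT (by linarith)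
    linarith only [this]
  · exact X0a a b A1 A2 T1 T2 B (by linarith)

theorem R4zw (t c a b A1 A2 T1 T2 : ℤ) (Ht : t = 0 ∨ t = 1) (Hc : c = 0 ∨ c = 1) (B : Base a b A1 A2 T1 T2) :
    0 ≤ 4*a*b*c*c*t*t + 4*a*b*b*c*t*t + 4*a*b*b*c*c*t + 4*a*a*b*c*t*t + 4*a*a*b*c*c*t + 4*a*a*b*b*c*t + 4*a*a*b*b*c*c + 4*a*a*b*b*t*t + 4*a*a*c*c*t*t + 4*b*b*c*c*t*t + 4*A1*a*b*c*t + 2*A1*a*b*c*c + 2*A1*a*b*b*c + 4*A1*a*b*b*t + 4*A1*a*c*c*t + 2*A1*b*c*c*t + 2*A1*b*b*c*t - 2*A1*b*b*c*c + 4*A2*a*b*c*t + 2*A2*a*b*c*c + 2*A2*a*c*c*t + 2*A2*a*a*b*c + 4*A2*a*a*b*t + 2*A2*a*a*c*t - 2*A2*a*a*c*c + 4*A2*b*c*c*t - 4*T1*a*b*c*t - 4*T1*a*b*c*c - 4*T1*a*c*c*t - 4*T1*b*c*c*t - 4*T2*a*b*c*t - 4*T2*a*b*c*c - 4*T2*a*c*c*t - 4*T2*b*c*c*t + 2*A1*A2*a*b + A1*A2*a*c + A1*A2*b*c + 2*A1*A2*c*c - 2*A1*T1*b*c - 2*A1*T1*c*c - 2*A1*T2*b*c - 2*A1*T2*c*c + A1*A1*b*c + A1*A1*b*b + A1*A1*c*c - 2*A2*T1*a*c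 - 2*A2*T1*c*c - 2*A2*T2*a*c - 2*A2*T2*c*c + A2*A2*a*c + A2*A2*a*a + A2*A2*c*c + 4*T1*T2*c*c := by
  have hX := X0 a b A1 A2 T1 T2 B
  obtain ⟨h_a, h_b, h_A1, h_A2, h_T1, h_T2, hPa, hP2, hQb, hQ2, hT, h1a, h1b, h2a, h2b, hD1, hD2, hK1, hK2⟩ := B
  rcases Ht with rfl | rfl <;> rcases Hc with rfl | rfl
  · refine fin_ 1 (by decide) (Int.add_nonneg (Int.mul_nonneg (Int.mul_nonneg (Int.mul_nonneg h_A1 h_A1) h_b) h_b) (Int.add_nonneg (Int.mul_nonneg (Int.natCast_nonneg 2) (Int.mul_nonneg (Int.mul_nonneg (Int.mul_nonneg h_A1 h_A2) h_a) h_b)) (Int.mul_nonneg (Int.mul_nonneg (Int.mul_nonneg h_A2 h_A2) h_a) h_a))) ?_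
    ring
  · refine fin_ 1 (by decide) (Int.add_nonneg (Int.add_nonneg (Int.add_nonneg (Int.mul_nonneg (Int.natCast_nonneg 2) (Int.mul_nonneg (Int.mul_nonneg hT h_a) h_A2)) (Int.mul_nonneg (Int.natCast_nonneg 2) (Int.mul_nonneg (Int.mul_nonneg hT h_b) h_A1))) (Int.add_nonneg hX (Int.add_nonneg (Int.mul_nonneg (Int.mul_nonneg (Int.mul_nonneg h_A1 h_A1) h_b) h_b) (Int.mul_nonneg (Int.natCast_nonneg 2) (Int.mul_nonneg (Int.mul_nonneg (Int.mul_nonneg h_A1 h_A2) h_a) h_b))))) (Int.add_nonneg (Int.add_nonneg (Int.mul_nonneg (Int.mul_nonneg h_A1 h_A1) h_b) (Int.mul_nonneg (Int.mul_nonneg h_A1 h_A2) h_b)) (Int.add_nonneg (Int.mul_nonneg (Int.mul_nonneg (Int.mul_nonneg h_A2 h_A2) h_a) h_a) (Int.add_nonneg (Int.mul_nonneg (Int.mul_nonneg h_A1 h_A2) h_a) (Int.mul_nonneg (Int.mul_nonneg h_A2 h_A2) h_a))))) ?_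
    ring
  · refine fin_ 1 (by decide) (Int.add_nonneg (Int.add_nonneg (Int.mul_nonneg (Int.natCast_nonneg 4) (Int.mul_nonneg (Int.mul_nonneg (Int.mul_nonneg h_a h_a) h_b) h_b)) (Int.add_nonneg (Int.mul_nonneg (Int.natCast_nonneg 4) (Int.mul_nonneg (Int.mul_nonneg (Int.mul_nonneg h_A1 h_a) h_b) h_b)) (Int.mul_nonneg (Int.natCast_nonneg 4) (Int.mul_nonneg (Int.mul_nonneg (Int.mul_nonneg h_A2 h_a) h_a) h_b)))) (Int.add_nonneg (Int.mul_nonneg (Int.mul_nonneg (Int.mul_nonneg h_A1 h_A1) h_b) h_b) (Int.add_nonneg (Int.mul_nonneg (Int.natCast_nonneg 2) (Int.mul_nonneg (Int.mul_nonneg (Int.mul_nonneg h_A1 h_A2) h_a) h_b)) (Int.mul_nonneg (Int.mul_nonneg (Int.mul_nonneg h_A2 h_A2) h_a) h_a)))) ?_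
    ring
  · refine fin_ 1 (by decide) (Int.add_nonneg (Int.add_nonneg (Int.add_nonneg (Int.add_nonneg (Int.mul_nonneg (Int.natCast_nonneg 4) (Int.mul_nonneg (Int.mul_nonneg hT h_a) h_b)) (Int.add_nonneg (Int.mul_nonneg (Int.natCast_nonneg 4) (Int.mul_nonneg hT h_b)) (Int.mul_nonneg (Int.natCast_nonneg 2) (Int.mul_nonneg (Int.mul_nonneg hT h_a) h_A2)))) (Int.add_nonneg (Int.add_nonneg (Int.mul_nonneg (Int.natCast_nonneg 4) (Int.mul_nonneg hT h_a)) (Int.mul_nonneg (Int.natCast_nonneg 2) (Int.mul_nonneg (Int.mul_nonneg hT h_b) h_A1))) (Int.add_nonneg hX (Int.mul_nonneg (Int.natCast_nonneg 4) (Int.mul_nonneg (Int.mul_nonneg (Int.mul_nonneg h_a h_a) h_b) h_b))))) (Int.add_nonneg (Int.add_nonneg (Int.mul_nonneg (Int.natCast_nonneg 4) (Int.mul_nonneg (Int.mul_nonneg h_a h_a) h_b)) (Int.add_nonneg (Int.mul_nonneg (Int.natCast_nonneg 4) (Int.mul_nonneg (Int.mul_nonneg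 h_a h_b) h_b)) (Int.mul_nonneg (Int.natCast_nonneg 4) (Int.mul_nonneg (Int.mul_nonneg (Int.mul_nonneg h_A1 h_a) h_b) h_b)))) (Int.add_nonneg (Int.add_nonneg (Int.mul_nonneg (Int.natCast_nonneg 4) (Int.mul_nonneg (Int.mul_nonneg (Int.mul_nonneg h_A2 h_a) h_a) h_b)) (Int.mul_nonneg (Int.natCast_nonneg 4) (Int.mul_nonneg (Int.mul_nonneg h_A1 h_a) h_b))) (Int.add_nonneg (Int.mul_nonneg (Int.natCast_nonneg 4) (Int.mul_nonneg (Int.mul_nonneg h_A2 h_a) h_b)) (Int.mul_nonneg (Int.natCast_nonneg 4) (Int.mul_nonneg h_a h_a)))))) (Int.add_nonneg (Int.add_nonneg (Int.add_nonneg (Int.mul_nonneg (Int.natCast_nonneg 4) (Int.mul_nonneg h_a h_b)) (Int.add_nonneg (Int.mul_nonneg (Int.natCast_nonneg 4) (Int.mul_nonneg h_A1 h_a)) (Int.mul_nonneg (Int.natCast_nonneg 2) (Int.mul_nonneg h_A2 h_a)))) (Int.add_nonneg (Int.add_nonneg (Int.mul_nonneg (Int.natCast_nonneg 4) (Int.mul_nonneg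 h_b h_b)) (Int.mul_nonneg (Int.natCast_nonneg 2) (Int.mul_nonneg h_A1 h_b))) (Int.add_nonneg (Int.mul_nonneg (Int.natCast_nonneg 4) (Int.mul_nonneg h_A2 h_b)) (Int.mul_nonneg (Int.mul_nonneg (Int.mul_nonneg h_A1 h_A1) h_b) h_b)))) (Int.add_nonneg (Int.add_nonneg (Int.add_nonneg (Int.mul_nonneg (Int.natCast_nonneg 2) (Int.mul_nonneg (Int.mul_nonneg (Int.mul_nonneg h_A1 h_A2) h_a) h_b)) (Int.mul_nonneg (Int.mul_nonneg h_A1 h_A1) h_b)) (Int.add_nonneg (Int.mul_nonneg (Int.mul_nonneg h_A1 h_A2) h_b) (Int.mul_nonneg (Int.mul_nonneg (Int.mul_nonneg h_A2 h_A2) h_a) h_a))) (Int.add_nonneg (Int.add_nonneg (Int.mul_nonneg (Int.mul_nonneg h_A1 h_A2) h_a) (Int.mul_nonneg (Int.mul_nonneg h_A2 h_A2) h_a)) (Int.add_nonneg (Int.mul_nonneg (Int.natCast_nonneg 2) (Int.mul_nonneg (Int.mul_nonneg h_A1 h_b) h_b)) (Int.mul_nonneg (Int.natCast_nonneg 2) (Int.mul_nonneg (Int.mul_nonneg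 h_A2 h_a) h_a))))))) ?_
    ring

theorem R3c_zw (t a b A1 A2 T1 T2 : ℤ) (Ht : t = 0 ∨ t = 1) (B : Base a b A1 A2 T1 T2) :
    0 ≤ 4*a*b*t*t + 4*a*b*b*t + 4*a*a*b*t + 4*a*a*b*b + 4*a*a*t*t + 4*b*b*t*t + 2*A1*a*b + 4*A1*a*t + 2*A1*b*t - 2*A1*b*b + 2*A2*a*b + 2*A2*a*t - 2*A2*a*a + 4*A2*b*t - 4*T1*a*b - 4*T1*a*t - 4*T1*b*t - 4*T2*a*b - 4*T2*a*t - 4*T2*b*t + 2*A1*A2 - 2*A1*T1 - 2*A1*T2 + A1*A1 - 2*A2*T1 - 2*A2*T2 + A2*A2 + 4*T1*T2 := by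
  have hX := X0 a b A1 A2 T1 T2 B
  obtain ⟨h_a, h_b, h_A1, h_A2, h_T1, h_T2, hPa, hP2, hQb, hQ2, hT, h1a, h1b, h2a, h2b, hD1, hD2, hK1, hK2⟩ := B
  rcases Ht with rfl | rfl
  · refine fin_ 1 (by decide) hX ?_
    ring
  · refine fin_ 1 (by decide) (Int.add_nonneg (Int.add_nonneg (Int.add_nonneg (Int.mul_nonneg (Int.natCast_nonneg 4) (Int.mul_nonneg hT h_a)) (Int.mul_nonneg (Int.natCast_nonneg 4) (Int.mul_nonneg hT h_b))) (Int.add_nonneg hX (Int.add_nonneg (Int.mul_nonneg (Int.natCast_nonneg 4) (Int.mul_nonneg h_a h_a)) (Int.mul_nonneg (Int.natCast_nonneg 4) (Int.mul_nonneg h_a h_b))))) (Int.add_nonneg (Int.add_nonneg (Int.mul_nonneg (Int.natCast_nonneg 4) (Int.mul_nonneg h_A1 h_a)) (Int.mul_nonneg (Int.natCast_nonneg 2) (Int.mul_nonneg h_A2 h_a))) (Int.add_nonneg (Int.mul_nonneg (Int.natCast_nonneg 4) (Int.mul_nonneg h_b h_b)) (Int.add_nonneg (Int.mul_nonneg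 (Int.natCast_nonneg 2) (Int.mul_nonneg h_A1 h_b)) (Int.mul_nonneg (Int.natCast_nonneg 4) (Int.mul_nonneg h_A2 h_b)))))) ?_
    ring

theorem R4tc (z w a b A1 A2 T1 T2 : ℤ) (Hz : z = 0 ∨ z = 1) (Hw : w = 0 ∨ w = 1) (B : Base a b A1 A2 T1 T2)
    (hO1 : 0 ≤ 2*a*a + 2*b*b - 2*A1 - 2*A2 - 2*T1 - 2*T2 + 2*a - 2*b) (hO2 : 0 ≤ 2*a*a + 2*b*b - 2*A1 - 2*A2 - 2*T1 - 2*T2 - 2*a + 2*b) (Hc : a = 0 ∨ 0 ≤ 2*a*a + 2*b*b - 2*A1 - 2*A2 - 2*T1 - 2*T2 - 2) :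
    0 ≤ 4*a*b*w*w*z*z + 4*a*b*b*w*z*z + 4*a*b*b*w*w*z + 4*a*a*b*w*z*z + 4*a*a*b*w*w*z + 4*a*a*b*b*w*z + 4*a*a*b*b*w*w + 4*a*a*b*b*z*z + 4*a*a*w*w*z*z + 4*b*b*w*w*z*z - 2*A1*b*w*z*z - 2*A1*b*w*w*z - 2*A1*b*b*w*z - 2*A1*b*b*w*w - 2*A1*b*b*z*z - 2*A1*w*w*z*z - 2*A2*a*w*z*z - 2*A2*a*w*w*z - 2*A2*a*a*w*z - 2*A2*a*a*w*w - 2*A2*a*a*z*z - 2*A2*w*w*z*z - 4*T1*a*b*w*z - 4*T1*a*b*z*z - 4*T1*a*w*z*z - 4*T1*b*w*z*z - 4*T2*a*b*w*z - 4*T2*a*b*w*w - 4*T2*a*w*w*z - 4*T2*b*w*w*z := by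
  obtain ⟨h_a, h_b, h_A1, h_A2, h_T1, h_T2, hPa, hP2, hQb, hQ2, hT, h1a, h1b, h2a, h2b, hD1, hD2, hK1, hK2⟩ := B
  rcases Hz with rfl | rfl <;> rcases Hw with rfl | rfl
  · exact le_of_eq (by ring)
  · refine fin_ 1 (by decide) (Int.mul_nonneg (Int.natCast_nonneg 2) hD2) ?_
    ring
  · refine fin_ 1 (by decide) (Int.mul_nonneg (Int.natCast_nonneg 2) hD1) ?_
    ring
  · have Ha : a = 0 ∨ ∃ ap, 0 ≤ ap ∧ a = ap + 1 := by
      by_cases h : 1 ≤ a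
      · exact Or.inr ⟨a - 1, by omega, by ring⟩
      · omega
    have Hb : b = 0 ∨ ∃ bp, 0 ≤ bp ∧ b = bp + 1 := by
      by_cases h : 1 ≤ b
      · exact Or.inr ⟨b - 1, by omega, by ring⟩
      · omega
    rcases Ha with rfl | ⟨ap, h_ap, rfl⟩ <;> rcases Hb with rfl | ⟨bp, h_bp, rfl⟩
    · refine fin_ 1 (by decide) (Int.add_nonneg (Int.mul_nonneg (Int.natCast_nonneg 2) hPa) (Int.mul_nonneg (Int.natCast_nonneg 2) hQb)) ?_
      ring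
    · refine fin_ 1 (by decide) (Int.add_nonneg (Int.add_nonneg (Int.add_nonneg (Int.mul_nonneg (Int.natCast_nonneg 6) hD1) (Int.mul_nonneg (Int.natCast_nonneg 2) hPa)) (Int.add_nonneg (Int.mul_nonneg (Int.natCast_nonneg 2) hK1) (Int.mul_nonneg (Int.natCast_nonneg 2) hK2))) (Int.add_nonneg (Int.add_nonneg (Int.mul_nonneg (Int.natCast_nonneg 2) hQb) (Int.mul_nonneg (Int.natCast_nonneg 2) (Int.mul_nonneg h_bp h_bp))) (Int.add_nonneg (Int.mul_nonneg (Int.natCast_nonneg 6) h_bp) (Int.natCast_nonneg 4)))) ?_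
      ring
    · refine fin_ 1 (by decide) (Int.add_nonneg (Int.add_nonneg (Int.add_nonneg (Int.mul_nonneg (Int.natCast_nonneg 6) hD1) (Int.mul_nonneg (Int.natCast_nonneg 2) hQb)) (Int.add_nonneg (Int.mul_nonneg (Int.natCast_nonneg 2) hK1) (Int.mul_nonneg (Int.natCast_nonneg 2) hK2))) (Int.add_nonneg (Int.add_nonneg (Int.mul_nonneg (Int.natCast_nonneg 2) hPa) (Int.mul_nonneg (Int.natCast_nonneg 2) (Int.mul_nonneg h_ap h_ap))) (Int.add_nonneg (Int.mul_nonneg (Int.natCast_nonneg 6) h_ap) (Int.natCast_nonneg 4)))) ?_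
      ring
    · have hO3 : 0 ≤ 2*ap*ap + 2*bp*bp - 2*A1 - 2*A2 - 2*T1 - 2*T2 + 4*ap + 4*bp + 2 := by
        rcases Hc with h | h
        · omega
        · linarith only [h]
      have Hab : 0 ≤ bp - ap - 1 ∨ 0 ≤ ap - bp - 1 ∨ (0 ≤ ap - bp ∧ 0 ≤ bp - ap) := by omega
      rcases Hab with hlt | hlt | ⟨e1, e2⟩
      · refine fin_ 68 (by decide) (Int.add_nonneg (Int.add_nonneg (Int.add_nonneg (Int.add_nonneg (Int.add_nonneg (Int.mul_nonneg (Int.natCast_nonneg 200) (Int.mul_nonneg hO1 h_ap)) (Int.mul_nonneg (Int.natCast_nonneg 392) (Int.mul_nonneg (Int.mul_nonneg hQ2 hlt) h_ap))) (Int.add_nonneg (Int.mul_nonneg (Int.natCast_nonneg 120) (Int.mul_nonneg h1a h_A1)) (Int.mul_nonneg (Int.natCast_nonneg 36) (Int.mul_nonneg h1a h2b)))) (Int.add_nonneg (Int.add_nonneg (Int.mul_nonneg (Int.natCast_nonneg 210) (Int.mul_nonneg hPa h1b)) (Int.mul_nonneg (Int.natCast_nonneg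 72) (Int.mul_nonneg h1a h_bp))) (Int.add_nonneg (Int.mul_nonneg (Int.natCast_nonneg 32) (Int.mul_nonneg h2b h_T2)) (Int.mul_nonneg (Int.natCast_nonneg 80) (Int.mul_nonneg (Int.mul_nonneg h1a h_ap) h_bp))))) (Int.add_nonneg (Int.add_nonneg (Int.add_nonneg (Int.mul_nonneg (Int.natCast_nonneg 30) (Int.mul_nonneg hQb h1a)) (Int.mul_nonneg (Int.natCast_nonneg 2) (Int.mul_nonneg hPa h2b))) (Int.add_nonneg (Int.mul_nonneg (Int.natCast_nonneg 536) (Int.mul_nonneg hQ2 h_bp)) (Int.mul_nonneg (Int.natCast_nonneg 20) (Int.mul_nonneg h1a hO1)))) (Int.add_nonneg (Int.add_nonneg (Int.mul_nonneg (Int.natCast_nonneg 36) hD1) (Int.mul_nonneg (Int.natCast_nonneg 4) (Int.mul_nonneg hQ2 h_T1))) (Int.add_nonneg (Int.mul_nonneg (Int.natCast_nonneg 72) (Int.mul_nonneg (Int.mul_nonneg hlt h_bp) h_T2)) (Int.add_nonneg (Int.mul_nonneg (Int.natCast_nonneg 56) (Int.mul_nonneg hP2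 h1a)) (Int.mul_nonneg (Int.natCast_nonneg 120) (Int.mul_nonneg (Int.mul_nonneg hlt h_ap) h_T2))))))) (Int.add_nonneg (Int.add_nonneg (Int.add_nonneg (Int.add_nonneg (Int.mul_nonneg (Int.natCast_nonneg 104) (Int.mul_nonneg h1b h_T1)) (Int.mul_nonneg (Int.natCast_nonneg 138) (Int.mul_nonneg h1a h1b))) (Int.add_nonneg (Int.mul_nonneg (Int.natCast_nonneg 136) (Int.mul_nonneg (Int.mul_nonneg hO1 h_ap) h_bp)) (Int.mul_nonneg (Int.natCast_nonneg 120) (Int.mul_nonneg hPa (mul_self_nonneg (ap - bp)))))) (Int.add_nonneg (Int.add_nonneg (Int.mul_nonneg (Int.natCast_nonneg 100) hD2) (Int.mul_nonneg (Int.natCast_nonneg 171) (Int.mul_nonneg hO1 h_T1))) (Int.add_nonneg (Int.mul_nonneg (Int.natCast_nonneg 152) (Int.mul_nonneg (Int.mul_nonneg hPa hlt) h_bp)) (Int.add_nonneg (Int.mul_nonneg (Int.natCast_nonneg 2) (Int.mul_nonneg hQb h2a)) (Int.mul_nonneg (Int.natCast_nonneg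 8) (Int.mul_nonneg (Int.mul_nonneg hlt h_ap) h_bp)))))) (Int.add_nonneg (Int.add_nonneg (Int.add_nonneg (Int.mul_nonneg (Int.natCast_nonneg 72) (Int.mul_nonneg (Int.mul_nonneg h2a h_bp) h_bp)) (Int.mul_nonneg (Int.natCast_nonneg 4) (Int.mul_nonneg h2a h_bp))) (Int.add_nonneg (Int.mul_nonneg (Int.natCast_nonneg 60) (Int.mul_nonneg (Int.mul_nonneg hO1 hlt) h_ap)) (Int.mul_nonneg hO1 h_T2))) (Int.add_nonneg (Int.add_nonneg (Int.mul_nonneg (Int.natCast_nonneg 134) (Int.mul_nonneg h1b hO1)) (Int.mul_nonneg (Int.natCast_nonneg 8) (Int.mul_nonneg hPa hlt))) (Int.add_nonneg (Int.mul_nonneg (Int.natCast_nonneg 34) (Int.mul_nonneg h2a h2b)) (Int.add_nonneg (Int.mul_nonneg (Int.natCast_nonneg 132) h2b) (Int.natCast_nonneg 8))))))) ?_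
        ring
      · refine fin_ 34 (by decide) (Int.add_nonneg (Int.add_nonneg (Int.add_nonneg (Int.add_nonneg (Int.add_nonneg (Int.mul_nonneg (Int.natCast_nonneg 28) (Int.mul_nonneg hQ2 h1b)) (Int.mul_nonneg (Int.natCast_nonneg 36) (Int.mul_nonneg (Int.mul_nonneg hlt h_ap) h_T2))) (Int.add_nonneg (Int.mul_nonneg (Int.natCast_nonneg 34) (Int.mul_nonneg h1b h2a)) (Int.mul_nonneg (Int.natCast_nonneg 60) (Int.mul_nonneg h1b h_A2)))) (Int.add_nonneg (Int.add_nonneg (Int.mul_nonneg (Int.natCast_nonneg 106) (Int.mul_nonneg hQb h1a)) (Int.mul_nonneg (Int.natCast_nonneg 16) (Int.mul_nonneg hPa h1b))) (Int.add_nonneg (Int.mul_nonneg (Int.natCast_nonneg 60) (Int.mul_nonneg hQb (mul_self_nonneg (ap - bp)))) (Int.mul_nonneg (Int.natCast_nonneg 4) (Int.mul_nonneg hQb hlt))))) (Int.add_nonneg (Int.add_nonneg (Int.add_nonneg (Int.mul_nonneg (Int.natCast_nonneg 52)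 (Int.mul_nonneg h1a h2b)) (Int.mul_nonneg (Int.natCast_nonneg 17) (Int.mul_nonneg h2a h_T1))) (Int.add_nonneg (Int.mul_nonneg (Int.natCast_nonneg 196) (Int.mul_nonneg (Int.mul_nonneg hP2 hlt) h_bp)) (Int.mul_nonneg (Int.natCast_nonneg 68) (Int.mul_nonneg (Int.mul_nonneg hO2 h_ap) h_bp)))) (Int.add_nonneg (Int.add_nonneg (Int.mul_nonneg (Int.natCast_nonneg 76) (Int.mul_nonneg (Int.mul_nonneg hQb hlt) h_ap)) (Int.mul_nonneg (Int.natCast_nonneg 100) (Int.mul_nonneg hO2 h_bp))) (Int.add_nonneg (Int.mul_nonneg (Int.natCast_nonneg 36) (Int.mul_nonneg h1b h_ap)) (Int.mul_nonneg (Int.natCast_nonneg 10) (Int.mul_nonneg h1b hO2)))))) (Int.add_nonneg (Int.add_nonneg (Int.add_nonneg (Int.add_nonneg (Int.mul_nonneg (Int.natCast_nonneg 40) (Int.mul_nonneg (Int.mul_nonneg h1b h_ap) h_bp)) (Int.mul_nonneg (Int.natCast_nonneg 86) (Int.mul_nonneg hO2 h_T1))) (Int.add_nonneg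 (Int.mul_nonneg (Int.natCast_nonneg 268) (Int.mul_nonneg hP2 h_ap)) (Int.mul_nonneg (Int.natCast_nonneg 66) h2a))) (Int.add_nonneg (Int.add_nonneg (Int.mul_nonneg (Int.natCast_nonneg 18) (Int.mul_nonneg h1a h1b)) (Int.mul_nonneg (Int.natCast_nonneg 67) (Int.mul_nonneg h1a hO2))) (Int.add_nonneg (Int.mul_nonneg (Int.natCast_nonneg 51) (Int.mul_nonneg h1a h_T2)) (Int.mul_nonneg (Int.natCast_nonneg 4) (Int.mul_nonneg (Int.mul_nonneg hlt h_ap) h_bp))))) (Int.add_nonneg (Int.add_nonneg (Int.add_nonneg (Int.mul_nonneg (Int.natCast_nonneg 50) hD2) (Int.mul_nonneg (Int.natCast_nonneg 2) (Int.mul_nonneg hP2 h_T1))) (Int.add_nonneg (Int.mul_nonneg (Int.natCast_nonneg 30) (Int.mul_nonneg (Int.mul_nonneg hO2 hlt) h_bp)) (Int.mul_nonneg (Int.natCast_nonneg 60) (Int.mul_nonneg (Int.mul_nonneg hlt h_bp) h_T2)))) (Int.add_nonneg (Int.add_nonneg (Int.mul_nonneg (Int.natCast_nonneg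 2) (Int.mul_nonneg h2b h_ap)) (Int.mul_nonneg (Int.natCast_nonneg 36) (Int.mul_nonneg (Int.mul_nonneg h2b h_ap) h_ap))) (Int.add_nonneg (Int.mul_nonneg (Int.natCast_nonneg 18) hD1) (Int.natCast_nonneg 4)))))) ?_
        ring
      · refine fin_ 1 (by decide) (Int.add_nonneg (Int.add_nonneg (Int.add_nonneg (Int.add_nonneg (Int.mul_nonneg (Int.natCast_nonneg 3) h1a) (Int.add_nonneg (Int.mul_nonneg (Int.natCast_nonneg 6) (Int.mul_nonneg h1b h_ap)) (Int.mul_nonneg (Int.natCast_nonneg 4) h2b))) (Int.add_nonneg (Int.mul_nonneg (Int.natCast_nonneg 4) (Int.mul_nonneg (Int.mul_nonneg hO3 h_ap) h_bp)) (Int.add_nonneg (Int.mul_nonneg (Int.natCast_nonneg 6) (Int.mul_nonneg h2b h_ap)) (Int.mul_nonneg (Int.natCast_nonneg 2) (Int.mul_nonneg h2a h_bp))))) (Int.add_nonneg (Int.add_nonneg h1b (Int.add_nonneg (Int.mul_nonneg (Int.natCast_nonneg 8) (Int.mul_nonneg e1 h_bp))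 (Int.mul_nonneg (Int.natCast_nonneg 6) (Int.mul_nonneg (Int.mul_nonneg e2 h_ap) h_ap)))) (Int.add_nonneg (Int.mul_nonneg (Int.natCast_nonneg 10) (Int.mul_nonneg e2 h_A2)) (Int.add_nonneg (Int.mul_nonneg (Int.natCast_nonneg 6) (Int.mul_nonneg (Int.mul_nonneg (Int.mul_nonneg e1 h_ap) h_bp) h_bp)) (Int.mul_nonneg (Int.natCast_nonneg 6) (Int.mul_nonneg (Int.mul_nonneg e1 h_bp) h_A1)))))) (Int.add_nonneg (Int.add_nonneg (Int.add_nonneg (Int.mul_nonneg (Int.natCast_nonneg 6) hO3) (Int.add_nonneg (Int.mul_nonneg (Int.natCast_nonneg 6) (Int.mul_nonneg (Int.mul_nonneg (Int.mul_nonneg e2 h_ap) h_ap) h_bp)) (Int.mul_nonneg (Int.natCast_nonneg 6) (Int.mul_nonneg e1 h_A1)))) (Int.add_nonneg (Int.mul_nonneg (Int.natCast_nonneg 2) (Int.mul_nonneg h1a h_bp)) (Int.add_nonneg (Int.mul_nonneg (Int.natCast_nonneg 10) (Int.mul_nonneg (Int.mul_nonneg e1 h_bp) h_bp)) (Int.mul_nonneg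 (Int.natCast_nonneg 2) (Int.mul_nonneg (Int.mul_nonneg hQ2 h_ap) h_bp))))) (Int.add_nonneg (Int.add_nonneg (Int.mul_nonneg (Int.natCast_nonneg 2) (Int.mul_nonneg (Int.mul_nonneg hP2 h_ap) h_bp)) (Int.add_nonneg (Int.mul_nonneg (Int.natCast_nonneg 6) (Int.mul_nonneg (Int.mul_nonneg e2 h_ap) h_A2)) (Int.mul_nonneg (Int.natCast_nonneg 3) (Int.mul_nonneg hO3 h_ap)))) (Int.add_nonneg (Int.mul_nonneg (Int.natCast_nonneg 5) (Int.mul_nonneg hO3 h_bp)) (Int.add_nonneg (Int.mul_nonneg (Int.natCast_nonneg 8) h_bp) (Int.natCast_nonneg 12)))))) ?_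
        ring

end Pool.Agent.H34.BM
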