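import Pool.Agent.H34.BM0

set_option autoImplicit false
set_option linter.unusedVariables false

namespace Pool.Agent.H34.BM

inductive E
  | c (n : ℤ) | v (i : ℕ) | a (x y : E) | s (x y : E) | m (x y : E)

def E.ev (μ : ℕ → ℤ) : E → ℤ
  | .c n => n
  | .v i => μ i
  | .a x y => x.ev μ + y.ev μ
  | .s x y => x.ev μ - y.ev μ
  | .m x y => x.ev μ * y.ev μ

inductive Po
  | nil | cons (m : ℕ) (k : ℤ) (p : Po)

def Po.ev (μ : ℕ → ℤ) : Po → ℤ
  | .nil => 0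
  | .cons m k p => k * μ m + p.ev μ

structure Mu (μ : ℕ → ℤ) : Prop where
  one : μ 1 = 1
  mul : ∀ m n, μ (m * n) = μ m * μ n
  nn : ∀ n, 0 ≤ μ n

noncomputable def isZ (k : ℤ) : Bool := Int.rec (fun n => Nat.beq n 0) (fun _ => false) k
noncomputable def isP (k : ℤ) : Bool := Int.rec (fun _ => true) (fun _ => false) k

lemma isZ_eq {k : ℤ} (h : isZ k = true) : k = 0 := by
  cases k with
  | ofNat n => have : n = 0 := Nat.eq_of_beq_eq_true h
               subst this; rfl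
  | negSucc n => cases h

lemma isP_nn {k : ℤ} (h : isP k = true) : 0 ≤ k := by
  cases k with
  | ofNat n => exact Int.natCast_nonneg n
  | negSucc n => cases h

noncomputable def mk (m : ℕ) (k : ℤ) (p : Po) : Po := Bool.rec (.cons m k p) p (isZ k)

lemma mk_ev (μ : ℕ → ℤ) (m : ℕ) (k : ℤ) (p : Po) : (mk m k p).ev μ = k * μ m + p.ev μ := by
  unfold mk
  cases h : isZ k
  · rfl
  · rw [isZ_eq h]; simp

noncomputable def Po.add (p : Po) : Po → Po :=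
  Po.rec (fun q => q) (fun m k p' ih q => Po.rec (.cons m k p') (fun n l q' ih2 =>
    Bool.rec (Bool.rec (.cons n l ih2) (.cons m k (ih (.cons n l q'))) (Nat.ble m n))
      (mk m (Int.add k l) (ih q')) (Nat.beq m n)) q) p

lemma add_cc (m : ℕ) (k : ℤ) (p : Po) (n : ℕ) (l : ℤ) (q : Po) :
    (Po.cons m k p).add (.cons n l q) =
    Bool.rec (Bool.rec (.cons n l ((Po.cons m k p).add q)) (.cons m k (p.add (.cons n l q)))
      (Nat.ble m n)) (mk m (Int.add k l) (p.add q)) (Nat.beq m n) := rfl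

lemma add_ev (μ : ℕ → ℤ) (p q : Po) : (p.add q).ev μ = p.ev μ + q.ev μ := by
  induction p generalizing q with
  | nil => exact (zero_add _).symm
  | cons m k p ih =>
    induction q with
    | nil => exact (add_zero _).symm
    | cons n l q ih2 =>
      rw [add_cc]
      cases h : Nat.beq m n
      · cases Nat.ble m n
        · simp only [Po.ev] at ih2 ⊢; rw [ih2]; ring
        · simp only [Po.ev, ih]; ring
      · obtain rfl := Nat.eq_of_beq_eq_true h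
        simp only [mk_ev, Po.ev, ih, Int.add_def]; ring

noncomputable def Po.mm (m : ℕ) (k : ℤ) (q : Po) : Po :=
  Po.rec .nil (fun n l _ ih => .cons (Nat.mul m n) (Int.mul k l) ih) q

lemma mm_ev {μ : ℕ → ℤ} (h : Mu μ) (m : ℕ) (k : ℤ) (q : Po) :
    (Po.mm m k q).ev μ = k * μ m * q.ev μ := by
  induction q with
  | nil => exact (mul_zero _).symm
  | cons n l q ih =>
    change k * l * μ (m * n) + (Po.mm m k q).ev μ = _
    rw [ih, h.mul, Po.ev]; ring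

noncomputable def Po.mul (p q : Po) : Po :=
  Po.rec .nil (fun m k _ ih => (Po.mm m k q).add ih) p

lemma mul_ev {μ : ℕ → ℤ} (h : Mu μ) (p q : Po) : (p.mul q).ev μ = p.ev μ * q.ev μ := by
  induction p with
  | nil => exact (zero_mul _).symm
  | cons m k p ih =>
    change ((Po.mm m k q).add (p.mul q)).ev μ = _
    rw [add_ev, mm_ev h, ih, Po.ev]; ring

noncomputable def E.po (σ : ℕ → Po) (e : E) : Po :=
  E.rec (fun k => mk 1 k .nil) σ (fun _ _ p q => p.add q)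
    (fun _ _ p q => p.add (Po.mm 1 (-1) q)) (fun _ _ p q => p.mul q) e

lemma po_ev {μ : ℕ → ℤ} (h : Mu μ) {σ : ℕ → Po} (hσ : ∀ i, (σ i).ev μ = μ i) (e : E) :
    (e.po σ).ev μ = e.ev μ := by
  induction e with
  | c k => change (mk 1 k .nil).ev μ = k; rw [mk_ev, h.one]; simp [Po.ev]
  | v i => exact hσ i
  | a x y hx hy => change ((x.po σ).add (y.po σ)).ev μ = _; rw [add_ev, hx, hy, E.ev]
  | s x y hx hy =>
    change ((x.po σ).add (Po.mm 1 (-1) (y.po σ))).ev μ = _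
    rw [add_ev, mm_ev h, hx, hy, E.ev, h.one]; ring
  | m x y hx hy => change ((x.po σ).mul (y.po σ)).ev μ = _; rw [mul_ev h, hx, hy, E.ev]

noncomputable def sub1 (σ : ℕ → Po) (L : List (ℕ × E)) (i : ℕ) : Po :=
  List.rec (σ i) (fun x _ ih => Bool.rec ih (x.2.po σ) (Nat.beq x.1 i)) L

def Ok (μ : ℕ → ℤ) : List (ℕ × E) → Prop
  | [] => True
  | x :: L => μ x.1 = x.2.ev μ ∧ Ok μ L

lemma sub1_ev {μ : ℕ → ℤ} (h : Mu μ) {σ : ℕ → Po} (hσ : ∀ i, (σ i).ev μ = μ i)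
    {L : List (ℕ × E)} (hL : Ok μ L) (i : ℕ) : (sub1 σ L i).ev μ = μ i := by
  induction L with
  | nil => exact hσ i
  | cons x L ih =>
    change Po.ev μ (Bool.rec (sub1 σ L i) (x.2.po σ) (Nat.beq x.1 i)) = _
    cases e : Nat.beq x.1 i
    · exact ih hL.2
    · rw [← Nat.eq_of_beq_eq_true e, hL.1]; exact po_ev h hσ _

def NN (μ : ℕ → ℤ) : List E → Prop
  | [] => True
  | x :: L => 0 ≤ x.ev μ ∧ NN μ L

lemma NN.app {μ : ℕ → ℤ} {F G : List E} (h : NN μ F) (h' : NN μ G) : NN μ (F ++ G) := by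
  induction F with
  | nil => exact h'
  | cons x F ih => exact ⟨h.1, ih h.2⟩

noncomputable def nth (σ : ℕ → Po) (F : List E) : ℕ → Po :=
  List.rec (fun _ => .nil) (fun x _ ih i => Bool.rec (ih (Nat.pred i)) (x.po σ) (Nat.beq i 0)) F

lemma nth_nn {μ : ℕ → ℤ} (h : Mu μ) {σ : ℕ → Po} (hσ : ∀ i, (σ i).ev μ = μ i)
    {F : List E} (hF : NN μ F) (i : ℕ) : 0 ≤ (nth σ F i).ev μ := by
  induction F generalizing i with
  | nil => exact le_rfl
  | cons x F ih =>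
    change 0 ≤ Po.ev μ (Bool.rec (nth σ F (Nat.pred i)) (x.po σ) (Nat.beq i 0))
    cases Nat.beq i 0
    · exact ih hF.2 _
    · exact (po_ev h hσ x).symm ▸ hF.1

noncomputable def prd (f : ℕ → Po) (l : List ℕ) : Po :=
  List.rec (.cons 1 1 .nil) (fun i _ ih => ih.mul (f i)) l

lemma prd_nn {μ : ℕ → ℤ} (h : Mu μ) {f : ℕ → Po} (hf : ∀ i, 0 ≤ (f i).ev μ) (l : List ℕ) :
    0 ≤ (prd f l).ev μ := by
  induction l with
  | nil => change 0 ≤ 1 * μ 1 + 0; rw [h.one]; decide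
  | cons i l ih =>
    change 0 ≤ ((prd f l).mul (f i)).ev μ
    rw [mul_ev h]; exact mul_nonneg ih (hf i)

noncomputable def rem (f : ℕ → Po) (p : Po) (C : List (ℕ × ℕ × List ℕ)) : Po :=
  List.rec p (fun x _ ih => (Po.mm x.1 (Int.negOfNat x.2.1) (prd f x.2.2)).add ih) C

lemma rem_le {μ : ℕ → ℤ} (h : Mu μ) {f : ℕ → Po} (hf : ∀ i, 0 ≤ (f i).ev μ) (p : Po)
    (C : List (ℕ × ℕ × List ℕ)) : (rem f p C).ev μ ≤ p.ev μ := by
  induction C with
  | nil => exact le_rfl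
  | cons x C ih =>
    change ((Po.mm x.1 (Int.negOfNat x.2.1) (prd f x.2.2)).add (rem f p C)).ev μ ≤ _
    rw [add_ev, mm_ev h, Int.negOfNat_eq]
    have := mul_nonneg (mul_nonneg (Int.natCast_nonneg x.2.1) (h.nn x.1)) (prd_nn h hf x.2.2)
    change -(x.2.1 : ℤ) * _ * _ + _ ≤ _
    linarith

noncomputable def Po.pos (p : Po) : Bool :=
  Po.rec true (fun _ k _ ih => Bool.rec false ih (isP k)) p

lemma pos_nn {μ : ℕ → ℤ} (h : Mu μ) (p : Po) (hp : p.pos = true) : 0 ≤ p.ev μ := by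
  induction p with
  | nil => exact le_rfl
  | cons m k p ih =>
    change Bool.rec false p.pos (isP k) = true at hp
    cases e : isP k
    · rw [e] at hp; cases hp
    · rw [e] at hp
      exact add_nonneg (mul_nonneg (isP_nn e) (h.nn m)) (ih hp)

noncomputable def sg (L0 L1 : List (ℕ × E)) : ℕ → Po :=
  sub1 (sub1 (fun i => .cons i 1 .nil) L0) L1

noncomputable def check (L0 L1 : List (ℕ × E)) (F : List E) (T : E) (N : ℕ)
    (C : List (ℕ × ℕ × List ℕ)) : Bool :=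
  (rem (nth (sg L0 L1) F) (Po.mm 1 (Int.ofNat (Nat.succ N)) (T.po (sg L0 L1))) C).pos

theorem sound {μ : ℕ → ℤ} (h : Mu μ) {L0 L1 : List (ℕ × E)} {F : List E} {T : E}
    (h0 : Ok μ L0) (h1 : Ok μ L1) (hF : NN μ F) (N : ℕ) (C : List (ℕ × ℕ × List ℕ))
    (hc : check L0 L1 F T N C = true) : 0 ≤ T.ev μ := by
  have hσ : ∀ i, (sg L0 L1 i).ev μ = μ i :=
    sub1_ev h (sub1_ev h (fun i => by simp [Po.ev]) h0) h1
  have a := (pos_nn h _ hc).trans (rem_le h (nth_nn h hσ hF) _ C)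
  rw [mm_ev h, po_ev h hσ, h.one, mul_one] at a
  exact le_of_mul_le_mul_left (a := Int.ofNat (Nat.succ N)) (by rwa [mul_zero])
    (Int.natCast_pos.2 N.succ_pos)

lemma exmu0 (f : ℕ → ℤ) (hf : ∀ n, 0 ≤ f n) : ∃ μ, Mu μ ∧ ∀ p, p.Prime → μ p = f p := by
  refine ⟨fun n => if n = 0 then 0 else n.factorization.prod fun p k => f p ^ k,
    ⟨by simp, fun m n => ?_, fun n => ?_⟩, fun p hp => ?_⟩
  · by_cases hm : m = 0
    · simp [hm]
    by_cases hn : n = 0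
    · simp [hn]
    simp only [hm, hn, mul_eq_zero, or_self, if_false]
    rw [Nat.factorization_mul hm hn, Finsupp.prod_add_index' (by simp) (by simp [pow_add])]
  · split_ifs
    · exact le_rfl
    · exact Finset.prod_nonneg fun p _ => pow_nonneg (hf p) _
  · simp [hp.ne_zero, hp.factorization]

def lk : List (ℕ × ℤ) → ℕ → ℤ
  | [], _ => 0
  | x :: L, n => if x.1 = n then max x.2 0 else lk L n

lemma lk_nn (L : List (ℕ × ℤ)) (n : ℕ) : 0 ≤ lk L n := by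
  induction L with
  | nil => exact le_rfl
  | cons x L ih => unfold lk; split_ifs; exacts [le_max_right _ _, ih]

lemma exmu (x1 x2 x3 x4 x5 x6 x7 x8 x9 x10 x11 x12 x13 x14 x15 x16 x17 x18 x19 x20 : ℤ)
    (h1 : 0 ≤ x1) (h2 : 0 ≤ x2) (h3 : 0 ≤ x3) (h4 : 0 ≤ x4) (h5 : 0 ≤ x5) (h6 : 0 ≤ x6)
    (h7 : 0 ≤ x7) (h8 : 0 ≤ x8) (h9 : 0 ≤ x9) (h10 : 0 ≤ x10) (h11 : 0 ≤ x11) (h12 : 0 ≤ x12)
    (h13 : 0 ≤ x13) (h14 : 0 ≤ x14) (h15 : 0 ≤ x15) (h16 : 0 ≤ x16) (h17 : 0 ≤ x17)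
    (h18 : 0 ≤ x18) (h19 : 0 ≤ x19) (h20 : 0 ≤ x20) :
    ∃ μ, Mu μ ∧ μ 2 = x1 ∧ μ 3 = x2 ∧ μ 5 = x3 ∧ μ 7 = x4 ∧ μ 11 = x5 ∧ μ 13 = x6 ∧ μ 17 = x7 ∧
      μ 19 = x8 ∧ μ 23 = x9 ∧ μ 29 = x10 ∧ μ 31 = x11 ∧ μ 37 = x12 ∧ μ 41 = x13 ∧ μ 43 = x14 ∧
      μ 47 = x15 ∧ μ 53 = x16 ∧ μ 59 = x17 ∧ μ 61 = x18 ∧ μ 67 = x19 ∧ μ 71 = x20 := by
  obtain ⟨μ, h, e⟩ := exmu0 (lk [(2, x1), (3, x2), (5, x3), (7, x4), (11, x5), (13, x6), (17, x7),
    (19, x8), (23, x9), (29, x10), (31, x11), (37, x12), (41, x13), (43, x14), (47, x15), (53, x16),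
    (59, x17), (61, x18), (67, x19), (71, x20)]) (lk_nn _)
  refine ⟨μ, h, ?_, ?_, ?_, ?_, ?_, ?_, ?_, ?_, ?_, ?_, ?_, ?_, ?_, ?_, ?_, ?_, ?_, ?_, ?_, ?_⟩ <;>
    rw [e _ (by norm_num)] <;> exact max_eq_left (by assumption)

end Pool.Agent.H34.BM
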