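import Pool.Agent.H34.BN0
import Pool.Agent.H34.BM2

set_option autoImplicit false
set_option linter.unusedVariables false
set_option linter.unusedSectionVars false

namespace Pool.Agent.H34.BM

def Fc (t z w a b A1 A2 T1 T2 : ℤ) : ℤ :=
  2*t*(a*b+(a+b)*(z+w)+z*w)+(A1*b+A2*a)+(A1+A2+2*a*b)*(z+w)-2*z*T1-2*w*T2+2*(a+b)*(z*w)

def Ft (c z w a b : ℤ) : ℤ :=
  2*(a*b*(c+z+w)+(a+b)*(c*z+c*w+z*w)+c*z*w)

def Gx (th c z w b A2 v1 v2 : ℤ) : ℤ :=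
  2*th*(b*(c+z+w)+(c*z+c*w+z*w))+A2*(c+z+w)+2*b*(c*z+c*w+z*w)+2*(c*z*w)-2*c*z*v1-2*c*w*v2

def F2E (t c z w a b A1 A2 T1 T2 : E) : E :=
  .a (.s (.s (.a (.a (.m (.m (.c 2) t) (.a (.a (.m (.m a b) (.a (.a c z) w)) (.m (.a a b) (.a (.a (.m c z) (.m c w)) (.m z w)))) (.m (.m c z) w))) (.m (.a (.m A1 b) (.m A2 a)) (.a (.a c z) w))) (.m (.a (.a A1 A2) (.m (.m (.c 2) a) b)) (.a (.a (.m c z) (.m c w)) (.m z w)))) (.m (.m (.m (.c 2) c) z) T1)) (.m (.m (.m (.c 2) c) w) T2)) (.m (.m (.c 2) (.a a b)) (.m (.m c z) w))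

lemma F2E_ev (μ : ℕ → ℤ) (t c z w a b A1 A2 T1 T2 : E) : (F2E t c z w a b A1 A2 T1 T2).ev μ =
    F2 (t.ev μ) (c.ev μ) (z.ev μ) (w.ev μ) (a.ev μ) (b.ev μ) (A1.ev μ) (A2.ev μ) (T1.ev μ) (T2.ev μ) := rfl

def FcE (t z w a b A1 A2 T1 T2 : E) : E :=
  .a (.s (.s (.a (.a (.m (.m (.c 2) t) (.a (.a (.m a b) (.m (.a a b) (.a z w))) (.m z w))) (.a (.m A1 b) (.m A2 a))) (.m (.a (.a A1 A2) (.m (.m (.c 2) a) b)) (.a z w))) (.m (.m (.c 2) z) T1)) (.m (.m (.c 2) w) T2)) (.m (.m (.c 2) (.a a b)) (.m z w))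

lemma FcE_ev (μ : ℕ → ℤ) (t z w a b A1 A2 T1 T2 : E) : (FcE t z w a b A1 A2 T1 T2).ev μ =
    Fc (t.ev μ) (z.ev μ) (w.ev μ) (a.ev μ) (b.ev μ) (A1.ev μ) (A2.ev μ) (T1.ev μ) (T2.ev μ) := rfl

def GxE (th c z w b A2 v1 v2 : E) : E :=
  .s (.s (.a (.a (.a (.m (.m (.c 2) th) (.a (.m b (.a (.a c z) w)) (.a (.a (.m c z) (.m c w)) (.m z w)))) (.m A2 (.a (.a c z) w))) (.m (.m (.c 2) b) (.a (.a (.m c z) (.m c w)) (.m z w)))) (.m (.c 2) (.m (.m c z) w))) (.m (.m (.m (.c 2) c) z) v1)) (.m (.m (.m (.c 2) c) w) v2)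

lemma GxE_ev (μ : ℕ → ℤ) (th c z w b A2 v1 v2 : E) : (GxE th c z w b A2 v1 v2).ev μ =
    Gx (th.ev μ) (c.ev μ) (z.ev μ) (w.ev μ) (b.ev μ) (A2.ev μ) (v1.ev μ) (v2.ev μ) := rfl

def baseF (a b A1 A2 T1 T2 : ℕ) : List E :=
  [.s (.s (.m (.v a) (.v a)) (.v A1)) (.v a),
   .a (.a (.s (.c 0) (.m (.v a) (.v a))) (.v A1)) (.m (.c 2) (.v a)),
   .s (.s (.m (.v b) (.v b)) (.v A2)) (.v b),
   .a (.a (.s (.c 0) (.m (.v b) (.v b))) (.v A2)) (.m (.c 2) (.v b)),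
   .s (.s (.m (.v a) (.v b)) (.v T1)) (.v T2),
   .a (.s (.c 0) (.v T1)) (.m (.c 2) (.v a)),
   .a (.s (.c 0) (.v T1)) (.m (.c 2) (.v b)),
   .a (.s (.c 0) (.v T2)) (.m (.c 2) (.v a)),
   .a (.s (.c 0) (.v T2)) (.m (.c 2) (.v b)),
   .s (.s (.s (.m (.m (.m (.m (.c 2) (.v a)) (.v a)) (.v b)) (.v b)) (.m (.m (.v A1) (.v b)) (.v b))) (.m (.m (.v A2) (.v a)) (.v a))) (.m (.m (.m (.c 2) (.v T1)) (.v a)) (.v b)),
   .s (.s (.s (.m (.m (.m (.m (.c 2) (.v a)) (.v a)) (.v b)) (.v b)) (.m (.m (.v A1) (.v b)) (.v b))) (.m (.m (.v A2) (.v a)) (.v a))) (.m (.m (.m (.c 2) (.v T2)) (.v a)) (.v b)),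
   .s (.s (.s (.s (.a (.m (.m (.m (.c 2) (.v a)) (.v b)) (.v b)) (.m (.m (.m (.c 2) (.v a)) (.v a)) (.v b))) (.m (.v A1) (.v b))) (.m (.v A2) (.v a))) (.m (.m (.c 2) (.v T1)) (.v a))) (.m (.m (.c 2) (.v T1)) (.v b)),
   .s (.s (.s (.s (.a (.m (.m (.m (.c 2) (.v a)) (.v b)) (.v b)) (.m (.m (.m (.c 2) (.v a)) (.v a)) (.v b))) (.m (.v A1) (.v b))) (.m (.v A2) (.v a))) (.m (.m (.c 2) (.v T2)) (.v a))) (.m (.m (.c 2) (.v T2)) (.v b))]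

lemma Base.nn {μ : ℕ → ℤ} {a b A1 A2 T1 T2 : ℕ} (B : Base (μ a) (μ b) (μ A1) (μ A2) (μ T1) (μ T2)) :
    NN μ (baseF a b A1 A2 T1 T2) :=
  ⟨by simp only [E.ev]; linarith only [B.hPa], by simp only [E.ev]; linarith only [B.hP2], by simp only [E.ev]; linarith only [B.hQb], by simp only [E.ev]; linarith only [B.hQ2], by simp only [E.ev]; linarith only [B.hT], by simp only [E.ev]; linarith only [B.h1a], by simp only [E.ev]; linarith only [B.h1b], by simp only [E.ev]; linarith only [B.h2a], by simp only [E.ev]; linarith only [B.h2b], by simp only [E.ev]; linarith only [B.hD1], by simp only [E.ev]; linarith only [B.hD2], by simp only [E.ev]; linarith only [B.hK1], by simp only [E.ev]; linarith only [B.hK2], trivial⟩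

def pairF (y1 y2 b A : ℕ) : List E :=
  [.a (.s (.c 0) (.v y1)) (.c 2),
   .s (.m (.v y1) (.v y1)) (.v y1),
   .a (.s (.c 0) (.v y2)) (.c 2),
   .s (.m (.v y2) (.v y2)) (.v y2),
   .s (.s (.v b) (.v y1)) (.v y2),
   .a (.a (.a (.a (.s (.s (.c 0) (.m (.m (.c 2) (.v b)) (.v y1))) (.m (.m (.c 2) (.v b)) (.v y2))) (.m (.m (.c 2) (.v y1)) (.v y2))) (.m (.m (.c 2) (.v y1)) (.v y1))) (.m (.m (.c 2) (.v y2)) (.v y2))) (.v A),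
   .a (.a (.s (.s (.s (.s (.m (.v b) (.v b)) (.m (.v y1) (.v y1))) (.m (.v y2) (.v y2))) (.v A)) (.v b)) (.v y1)) (.v y2)]

lemma Pair.nn {μ : ℕ → ℤ} {y1 y2 b A : ℕ} (B : Pair (μ y1) (μ y2) (μ b) (μ A)) :
    NN μ (pairF y1 y2 b A) :=
  ⟨by simp only [E.ev]; linarith only [B.u1], by simp only [E.ev]; linarith only [B.q1], by simp only [E.ev]; linarith only [B.u2], by simp only [E.ev]; linarith only [B.q2], by simp only [E.ev]; linarith only [B.pb], by simp only [E.ev]; linarith only [B.pc], by simp only [E.ev]; linarith only [B.pq], trivial⟩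

def locF (a b A1 A2 T v : ℕ) : List E :=
  [.s (.s (.m (.v a) (.v b)) (.m (.v a) (.v v))) (.v T),
   .s (.a (.s (.c 0) (.v T)) (.m (.c 2) (.v b))) (.m (.c 2) (.v v)),
   .a (.s (.s (.s (.s (.a (.a (.s (.c 0) (.m (.m (.m (.m (.c 2) (.v a)) (.v a)) (.v b)) (.v v))) (.m (.m (.m (.m (.c 2) (.v a)) (.v a)) (.v b)) (.v b))) (.m (.m (.m (.c 2) (.v A1)) (.v b)) (.v v))) (.m (.m (.v A1) (.v b)) (.v b))) (.m (.m (.v A1) (.v v)) (.v v))) (.m (.m (.v A2) (.v a)) (.v a))) (.m (.m (.m (.c 2) (.v T)) (.v a)) (.v b))) (.m (.m (.m (.c 2) (.v T)) (.v a)) (.v v))]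

lemma LocX.nn {μ : ℕ → ℤ} {a b A1 A2 T v : ℕ} (B : LocX (μ a) (μ b) (μ A1) (μ A2) (μ T) (μ v)) :
    NN μ (locF a b A1 A2 T v) :=
  ⟨by simp only [E.ev]; linarith only [B.hL], by simp only [E.ev]; linarith only [B.hM], by simp only [E.ev]; linarith only [B.hE], trivial⟩

lemma nn01 {x : ℤ} (h : x = 0 ∨ x = 1) : 0 ≤ x := by omega

lemma Pair.hb {y1 y2 b A : ℤ} (h : Pair y1 y2 b A) : 0 ≤ b := by linarith only [h.pb, h.h1, h.h2]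
lemma Pair.hc {y1 y2 b A : ℤ} (h : Pair y1 y2 b A) :
    0 ≤ A - 2*(y1+y2)*(b - y1 - y2) - 2*y1*y2 := by linarith only [h.pc]
lemma Pair.hA {y1 y2 b A : ℤ} (h : Pair y1 y2 b A) : 0 ≤ A := by
  linarith only [h.hc, mul_nonneg (add_nonneg h.h1 h.h2) h.pb, mul_nonneg h.h1 h.h2]

lemma dd4 {H0 H1 H2 H3 G0 G1 G2 G3 : ℤ} (K : 0 ≤ H1 * H2 - H0 * H3) (e0 : G0 = H0) (e1 : G1 = H1)
    (e2 : G2 = H2) (e3 : G3 = H3) : 0 ≤ G1 * G2 - G0 * G3 := by rwa [e0, e1, e2, e3]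
lemma dd4' {H0 H1 H2 H3 G0 G1 G2 G3 : ℤ} (K : 0 ≤ H1 * H2 - H0 * H3) (e0 : G0 = H0) (e1 : G1 = H2)
    (e2 : G2 = H1) (e3 : G3 = H3) : 0 ≤ G1 * G2 - G0 * G3 := by rwa [e0, e1, e2, e3, mul_comm H2]

variable {V : Type} [Fintype V] [DecidableEq V]

lemma Psi_S0 (σ τ : Equiv.Perm V) (W : Pt V → ℤ) : Psi σ τ (pS 0) W =
    Ft (W (pS 1)) (W (pS 2)) (W (pS 3)) (sa W) (sb W) := by
  simp only [Psi, Phi, ins_SS, sa_S, sb_S, sA1_S, sA2_S, sT_S, Fin.reduceEq, if_true, if_false,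
    F2, Ft]; ring
lemma Psi_S1 (σ τ : Equiv.Perm V) (W : Pt V → ℤ) : Psi σ τ (pS 1) W =
    Fc (W (pS 0)) (W (pS 2)) (W (pS 3)) (sa W) (sb W) (sA1 W) (sA2 W) (sT σ W) (sT τ W) := by
  simp only [Psi, Phi, ins_SS, sa_S, sb_S, sA1_S, sA2_S, sT_S, Fin.reduceEq, if_true, if_false,
    F2, Fc]; ring
lemma Psi_S2 (σ τ : Equiv.Perm V) (W : Pt V → ℤ) : Psi σ τ (pS 2) W =
    Fc (W (pS 0)) (W (pS 1)) (W (pS 3)) (sa W) (sb W) (sA1 W) (sA2 W) (sT σ W) 0 := by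
  simp only [Psi, Phi, ins_SS, sa_S, sb_S, sA1_S, sA2_S, sT_S, Fin.reduceEq, if_true, if_false,
    F2, Fc]; ring
lemma Psi_S3 (σ τ : Equiv.Perm V) (W : Pt V → ℤ) : Psi σ τ (pS 3) W =
    Fc (W (pS 0)) (W (pS 1)) (W (pS 2)) (sa W) (sb W) (sA1 W) (sA2 W) (sT τ W) 0 := by
  simp only [Psi, Phi, ins_SS, sa_S, sb_S, sA1_S, sA2_S, sT_S, Fin.reduceEq, if_true, if_false,
    F2, Fc]; ring
lemma Psi_X (σ τ : Equiv.Perm V) (x : V) (W : Pt V → ℤ) : Psi σ τ (pX x) W =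
    Gx (W (pS 0) + sa W - W (pX x)) (W (pS 1)) (W (pS 2)) (W (pS 3)) (sb W) (sA2 W)
      (W (pY (σ x))) (W (pY (τ x))) := by
  simp only [Psi, Phi, ins_XS, sa_X, sb_X, sA1_X, sA2_X, sT_X, F2, Gx]; ring
lemma Psi_Y (σ τ : Equiv.Perm V) (y : V) (W : Pt V → ℤ) : Psi σ τ (pY y) W =
    Gx (W (pS 0) + sb W - W (pY y)) (W (pS 1)) (W (pS 2)) (W (pS 3)) (sa W) (sA1 W)
      (W (pX (σ.symm y))) (W (pX (τ.symm y))) := by
  simp only [Psi, Phi, ins_YS, sa_Y, sb_Y, sA1_Y, sA2_Y, sT_Y, F2, Gx]; ring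

end Pool.Agent.H34.BM
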