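import Pool.Agent.H34.BMa
import Pool.Agent.H34.BNb
import Pool.Agent.H34.BNc
import Pool.Agent.H34.BNd

set_option autoImplicit false
set_option linter.unusedVariables false
set_option linter.unusedSimpArgs false
set_option linter.unusedSectionVars false

namespace Pool.Agent.H34.BM

variable {V : Type} [Fintype V] [DecidableEq V]

theorem c_n_S0_S1 {W : Pt V → ℤ} (h : Box W) {σ τ : Equiv.Perm V} (hστ : ∀ x, σ x ≠ τ x) (zS0 : W (pS 0) = 0) (zS1 : W (pS 1) = 0) (hc : sa W = 0 ∨ 2 ≤ Om σ τ W) :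
    0 ≤ DD (Phi σ τ) W (pS 0) (pS 1) := by
  have B := base_of h hστ
  have hτσ : ∀ x, τ x ≠ σ x := fun x => (hστ x).symm
  have K := R4tc ((W (pS 2))) ((W (pS 3))) ((sa W)) ((sb W)) ((sA1 W)) ((sA2 W)) ((sT σ W)) ((sT τ W)) (h.s _) (h.s _) B (by have := Om_ge σ τ W (-1) (Or.inr rfl); rw [Om_eq] at this; linarith) (by have := Om_ge σ τ W 1 (Or.inl rfl); rw [Om_eq] at this; linarith) (hc.imp id fun e => by rw [Om_eq] at e; linarith)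
  simp only [DD, Phi, ins_SS, ins_SX, ins_SY, ins_XS, ins_YS, ins_XY, ins_YX, ins_XX, ins_YY, sa_S, sb_S, sA1_S, sA2_S, sT_S, sa_X, sb_X, sa_Y, sb_Y, sA1_X, sA2_X, sA1_Y, sA2_Y, sT_X, sT_Y, hsym, Fin.reduceEq, if_true, if_false, zS0, zS1, F2]
  linarith only [K]

theorem c_n_S0_S2 {W : Pt V → ℤ} (h : Box W) {σ τ : Equiv.Perm V} (hστ : ∀ x, σ x ≠ τ x) (zS0 : W (pS 0) = 0) (zS2 : W (pS 2) = 0) :
    0 ≤ DD (Phi σ τ) W (pS 0) (pS 2) := by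
  have B := base_of h hστ
  have hτσ : ∀ x, τ x ≠ σ x := fun x => (hστ x).symm
  have K := NR4tz ((W (pS 1))) ((W (pS 3))) ((sa W)) ((sb W)) ((sA1 W)) ((sA2 W)) ((sT σ W)) ((sT τ W)) (h.s _) (h.s _) B
  refine dd4 K ?_ ?_ ?_ ?_ <;> simp only [Phi, ins_SS, ins_SX, ins_SY, ins_XS, ins_YS, ins_XY, ins_YX, ins_XX, ins_YY, sa_S, sb_S, sA1_S, sA2_S, sT_S, sa_X, sb_X, sa_Y, sb_Y, sA1_X, sA2_X, sA1_Y, sA2_Y, sT_X, sT_Y, hsym, Fin.reduceEq, if_true, if_false, zS0, zS2, F2] <;> ring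

theorem c_n_S0_S3 {W : Pt V → ℤ} (h : Box W) {σ τ : Equiv.Perm V} (hστ : ∀ x, σ x ≠ τ x) (zS0 : W (pS 0) = 0) (zS3 : W (pS 3) = 0) :
    0 ≤ DD (Phi σ τ) W (pS 0) (pS 3) := by
  have B := base_of h hστ
  have hτσ : ∀ x, τ x ≠ σ x := fun x => (hστ x).symm
  have K := NR4tz ((W (pS 1))) ((W (pS 2))) ((sa W)) ((sb W)) ((sA1 W)) ((sA2 W)) ((sT τ W)) ((sT σ W)) (h.s _) (h.s _) B.swapT'
  refine dd4 K ?_ ?_ ?_ ?_ <;> simp only [Phi, ins_SS, ins_SX, ins_SY, ins_XS, ins_YS, ins_XY, ins_YX, ins_XX, ins_YY, sa_S, sb_S, sA1_S, sA2_S, sT_S, sa_X, sb_X, sa_Y, sb_Y, sA1_X, sA2_X, sA1_Y, sA2_Y, sT_X, sT_Y, hsym, Fin.reduceEq, if_true, if_false, zS0, zS3, F2] <;> ring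

theorem c_n_S1_S2 {W : Pt V → ℤ} (h : Box W) {σ τ : Equiv.Perm V} (hστ : ∀ x, σ x ≠ τ x) (zS1 : W (pS 1) = 0) (zS2 : W (pS 2) = 0) :
    0 ≤ DD (Phi σ τ) W (pS 1) (pS 2) := by
  have B := base_of h hστ
  have hτσ : ∀ x, τ x ≠ σ x := fun x => (hστ x).symm
  have K := NR4cz ((W (pS 0))) ((W (pS 3))) ((sa W)) ((sb W)) ((sA1 W)) ((sA2 W)) ((sT σ W)) ((sT τ W)) (h.s _) (h.s _) B
  refine dd4 K ?_ ?_ ?_ ?_ <;> simp only [Phi, ins_SS, ins_SX, ins_SY, ins_XS, ins_YS, ins_XY, ins_YX, ins_XX, ins_YY, sa_S, sb_S, sA1_S, sA2_S, sT_S, sa_X, sb_X, sa_Y, sb_Y, sA1_X, sA2_X, sA1_Y, sA2_Y, sT_X, sT_Y, hsym, Fin.reduceEq, if_true, if_false, zS1, zS2, F2] <;> ring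

theorem c_n_S1_S3 {W : Pt V → ℤ} (h : Box W) {σ τ : Equiv.Perm V} (hστ : ∀ x, σ x ≠ τ x) (zS1 : W (pS 1) = 0) (zS3 : W (pS 3) = 0) :
    0 ≤ DD (Phi σ τ) W (pS 1) (pS 3) := by
  have B := base_of h hστ
  have hτσ : ∀ x, τ x ≠ σ x := fun x => (hστ x).symm
  have K := NR4cz ((W (pS 0))) ((W (pS 2))) ((sa W)) ((sb W)) ((sA1 W)) ((sA2 W)) ((sT τ W)) ((sT σ W)) (h.s _) (h.s _) B.swapT'
  refine dd4 K ?_ ?_ ?_ ?_ <;> simp only [Phi, ins_SS, ins_SX, ins_SY, ins_XS, ins_YS, ins_XY, ins_YX, ins_XX, ins_YY, sa_S, sb_S, sA1_S, sA2_S, sT_S, sa_X, sb_X, sa_Y, sb_Y, sA1_X, sA2_X, sA1_Y, sA2_Y, sT_X, sT_Y, hsym, Fin.reduceEq, if_true, if_false, zS1, zS3, F2] <;> ring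

theorem c_n_S2_S3 {W : Pt V → ℤ} (h : Box W) {σ τ : Equiv.Perm V} (hστ : ∀ x, σ x ≠ τ x) (zS2 : W (pS 2) = 0) (zS3 : W (pS 3) = 0) :
    0 ≤ DD (Phi σ τ) W (pS 2) (pS 3) := by
  have B := base_of h hστ
  have hτσ : ∀ x, τ x ≠ σ x := fun x => (hστ x).symm
  have K := R4zw ((W (pS 0))) ((W (pS 1))) ((sa W)) ((sb W)) ((sA1 W)) ((sA2 W)) ((sT σ W)) ((sT τ W)) (h.s _) (h.s _) B
  simp only [DD, Phi, ins_SS, ins_SX, ins_SY, ins_XS, ins_YS, ins_XY, ins_YX, ins_XX, ins_YY, sa_S, sb_S, sA1_S, sA2_S, sT_S, sa_X, sb_X, sa_Y, sb_Y, sA1_X, sA2_X, sA1_Y, sA2_Y, sT_X, sT_Y, hsym, Fin.reduceEq, if_true, if_false, zS2, zS3, F2]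
  linarith only [K]

theorem c_n_S0_X1 {W : Pt V → ℤ} (h : Box W) {σ τ : Equiv.Perm V} (hστ : ∀ x, σ x ≠ τ x) {x1 : V} (zS0 : W (pS 0) = 0) (zX1 : W (pX x1) = 0) :
    0 ≤ DD (Phi σ τ) W (pS 0) (pX x1) := by
  have B := base_of h hστ
  have hτσ : ∀ x, τ x ≠ σ x := fun x => (hστ x).symm
  have K := NR4tx ((W (pS 1))) ((W (pS 2))) ((W (pS 3))) ((sa W)) ((sb W)) ((sA1 W)) ((sA2 W)) ((sT σ W)) ((sT τ W)) ((W (pY (σ x1)))) ((W (pY (τ x1)))) (h.s _) (h.s _) (h.s _) B (pair_Y h hστ (hστ x1)) (loc_X h hστ zX1) (loc_X h hτσ zX1)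
  refine dd4 K ?_ ?_ ?_ ?_ <;> simp only [Phi, ins_SS, ins_SX, ins_SY, ins_XS, ins_YS, ins_XY, ins_YX, ins_XX, ins_YY, sa_S, sb_S, sA1_S, sA2_S, sT_S, sa_X, sb_X, sa_Y, sb_Y, sA1_X, sA2_X, sA1_Y, sA2_Y, sT_X, sT_Y, hsym, Fin.reduceEq, if_true, if_false, zS0, zX1, F2] <;> ring

theorem c_n_S1_X1 {W : Pt V → ℤ} (h : Box W) {σ τ : Equiv.Perm V} (hστ : ∀ x, σ x ≠ τ x) {x1 : V} (zS1 : W (pS 1) = 0) (zX1 : W (pX x1) = 0) :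
    0 ≤ DD (Phi σ τ) W (pS 1) (pX x1) := by
  have B := base_of h hστ
  have hτσ : ∀ x, τ x ≠ σ x := fun x => (hστ x).symm
  have K := NR4cx ((W (pS 0))) ((W (pS 2))) ((W (pS 3))) ((sa W)) ((sb W)) ((sA1 W)) ((sA2 W)) ((sT σ W)) ((sT τ W)) ((W (pY (σ x1)))) ((W (pY (τ x1)))) (h.s _) (h.s _) (h.s _) B (pair_Y h hστ (hστ x1)) (loc_X h hστ zX1) (loc_X h hτσ zX1)
  refine dd4 K ?_ ?_ ?_ ?_ <;> simp only [Phi, ins_SS, ins_SX, ins_SY, ins_XS, ins_YS, ins_XY, ins_YX, ins_XX, ins_YY, sa_S, sb_S, sA1_S, sA2_S, sT_S, sa_X, sb_X, sa_Y, sb_Y, sA1_X, sA2_X, sA1_Y, sA2_Y, sT_X, sT_Y, hsym, Fin.reduceEq, if_true, if_false, zS1, zX1, F2] <;> ring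

theorem c_n_S2_X1 {W : Pt V → ℤ} (h : Box W) {σ τ : Equiv.Perm V} (hστ : ∀ x, σ x ≠ τ x) {x1 : V} (zS2 : W (pS 2) = 0) (zX1 : W (pX x1) = 0) :
    0 ≤ DD (Phi σ τ) W (pS 2) (pX x1) := by
  have B := base_of h hστ
  have hτσ : ∀ x, τ x ≠ σ x := fun x => (hστ x).symm
  have K := NR4zx ((W (pS 0))) ((W (pS 1))) ((W (pS 3))) ((sa W)) ((sb W)) ((sA1 W)) ((sA2 W)) ((sT σ W)) ((sT τ W)) ((W (pY (σ x1)))) ((W (pY (τ x1)))) (h.s _) (h.s _) (h.s _) B (pair_Y h hστ (hστ x1)) (loc_X h hστ zX1) (loc_X h hτσ zX1)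
  refine dd4 K ?_ ?_ ?_ ?_ <;> simp only [Phi, ins_SS, ins_SX, ins_SY, ins_XS, ins_YS, ins_XY, ins_YX, ins_XX, ins_YY, sa_S, sb_S, sA1_S, sA2_S, sT_S, sa_X, sb_X, sa_Y, sb_Y, sA1_X, sA2_X, sA1_Y, sA2_Y, sT_X, sT_Y, hsym, Fin.reduceEq, if_true, if_false, zS2, zX1, F2] <;> ring

theorem c_n_S3_X1 {W : Pt V → ℤ} (h : Box W) {σ τ : Equiv.Perm V} (hστ : ∀ x, σ x ≠ τ x) {x1 : V} (zS3 : W (pS 3) = 0) (zX1 : W (pX x1) = 0) :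
    0 ≤ DD (Phi σ τ) W (pS 3) (pX x1) := by
  have B := base_of h hστ
  have hτσ : ∀ x, τ x ≠ σ x := fun x => (hστ x).symm
  have K := NR4zx ((W (pS 0))) ((W (pS 1))) ((W (pS 2))) ((sa W)) ((sb W)) ((sA1 W)) ((sA2 W)) ((sT τ W)) ((sT σ W)) ((W (pY (τ x1)))) ((W (pY (σ x1)))) (h.s _) (h.s _) (h.s _) B.swapT' (pair_Y h hστ (hτσ x1)) (loc_X h hτσ zX1) (loc_X h hστ zX1)
  refine dd4 K ?_ ?_ ?_ ?_ <;> simp only [Phi, ins_SS, ins_SX, ins_SY, ins_XS, ins_YS, ins_XY, ins_YX, ins_XX, ins_YY, sa_S, sb_S, sA1_S, sA2_S, sT_S, sa_X, sb_X, sa_Y, sb_Y, sA1_X, sA2_X, sA1_Y, sA2_Y, sT_X, sT_Y, hsym, Fin.reduceEq, if_true, if_false, zS3, zX1, F2] <;> ring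

theorem c_n_S0_Y1 {W : Pt V → ℤ} (h : Box W) {σ τ : Equiv.Perm V} (hστ : ∀ x, σ x ≠ τ x) {y1 : V} (zS0 : W (pS 0) = 0) (zY1 : W (pY y1) = 0) :
    0 ≤ DD (Phi σ τ) W (pS 0) (pY y1) := by
  have B := base_of h hστ
  have hτσ : ∀ x, τ x ≠ σ x := fun x => (hστ x).symm
  have K := NR4tx ((W (pS 1))) ((W (pS 2))) ((W (pS 3))) ((sb W)) ((sa W)) ((sA2 W)) ((sA1 W)) ((sT σ W)) ((sT τ W)) ((W (pX (σ.symm y1)))) ((W (pX (τ.symm y1)))) (h.s _) (h.s _) (h.s _) B.swapXY (pair_X h hστ (symm_ne hστ y1)) (loc_Y h hστ zY1) (loc_Y h hτσ zY1)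
  refine dd4 K ?_ ?_ ?_ ?_ <;> simp only [Phi, ins_SS, ins_SX, ins_SY, ins_XS, ins_YS, ins_XY, ins_YX, ins_XX, ins_YY, sa_S, sb_S, sA1_S, sA2_S, sT_S, sa_X, sb_X, sa_Y, sb_Y, sA1_X, sA2_X, sA1_Y, sA2_Y, sT_X, sT_Y, hsym, Fin.reduceEq, if_true, if_false, zS0, zY1, F2] <;> ring

theorem c_n_S1_Y1 {W : Pt V → ℤ} (h : Box W) {σ τ : Equiv.Perm V} (hστ : ∀ x, σ x ≠ τ x) {y1 : V} (zS1 : W (pS 1) = 0) (zY1 : W (pY y1) = 0) :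
    0 ≤ DD (Phi σ τ) W (pS 1) (pY y1) := by
  have B := base_of h hστ
  have hτσ : ∀ x, τ x ≠ σ x := fun x => (hστ x).symm
  have K := NR4cx ((W (pS 0))) ((W (pS 2))) ((W (pS 3))) ((sb W)) ((sa W)) ((sA2 W)) ((sA1 W)) ((sT σ W)) ((sT τ W)) ((W (pX (σ.symm y1)))) ((W (pX (τ.symm y1)))) (h.s _) (h.s _) (h.s _) B.swapXY (pair_X h hστ (symm_ne hστ y1)) (loc_Y h hστ zY1) (loc_Y h hτσ zY1)
  refine dd4 K ?_ ?_ ?_ ?_ <;> simp only [Phi, ins_SS, ins_SX, ins_SY, ins_XS, ins_YS, ins_XY, ins_YX, ins_XX, ins_YY, sa_S, sb_S, sA1_S, sA2_S, sT_S, sa_X, sb_X, sa_Y, sb_Y, sA1_X, sA2_X, sA1_Y, sA2_Y, sT_X, sT_Y, hsym, Fin.reduceEq, if_true, if_false, zS1, zY1, F2] <;> ring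

theorem c_n_S2_Y1 {W : Pt V → ℤ} (h : Box W) {σ τ : Equiv.Perm V} (hστ : ∀ x, σ x ≠ τ x) {y1 : V} (zS2 : W (pS 2) = 0) (zY1 : W (pY y1) = 0) :
    0 ≤ DD (Phi σ τ) W (pS 2) (pY y1) := by
  have B := base_of h hστ
  have hτσ : ∀ x, τ x ≠ σ x := fun x => (hστ x).symm
  have K := NR4zx ((W (pS 0))) ((W (pS 1))) ((W (pS 3))) ((sb W)) ((sa W)) ((sA2 W)) ((sA1 W)) ((sT σ W)) ((sT τ W)) ((W (pX (σ.symm y1)))) ((W (pX (τ.symm y1)))) (h.s _) (h.s _) (h.s _) B.swapXY (pair_X h hστ (symm_ne hστ y1)) (loc_Y h hστ zY1) (loc_Y h hτσ zY1)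
  refine dd4 K ?_ ?_ ?_ ?_ <;> simp only [Phi, ins_SS, ins_SX, ins_SY, ins_XS, ins_YS, ins_XY, ins_YX, ins_XX, ins_YY, sa_S, sb_S, sA1_S, sA2_S, sT_S, sa_X, sb_X, sa_Y, sb_Y, sA1_X, sA2_X, sA1_Y, sA2_Y, sT_X, sT_Y, hsym, Fin.reduceEq, if_true, if_false, zS2, zY1, F2] <;> ring

theorem c_n_S3_Y1 {W : Pt V → ℤ} (h : Box W) {σ τ : Equiv.Perm V} (hστ : ∀ x, σ x ≠ τ x) {y1 : V} (zS3 : W (pS 3) = 0) (zY1 : W (pY y1) = 0) :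
    0 ≤ DD (Phi σ τ) W (pS 3) (pY y1) := by
  have B := base_of h hστ
  have hτσ : ∀ x, τ x ≠ σ x := fun x => (hστ x).symm
  have K := NR4zx ((W (pS 0))) ((W (pS 1))) ((W (pS 2))) ((sb W)) ((sa W)) ((sA2 W)) ((sA1 W)) ((sT τ W)) ((sT σ W)) ((W (pX (τ.symm y1)))) ((W (pX (σ.symm y1)))) (h.s _) (h.s _) (h.s _) B.swapT'.swapXY (pair_X h hστ (symm_ne hτσ y1)) (loc_Y h hτσ zY1) (loc_Y h hστ zY1)
  refine dd4 K ?_ ?_ ?_ ?_ <;> simp only [Phi, ins_SS, ins_SX, ins_SY, ins_XS, ins_YS, ins_XY, ins_YX, ins_XX, ins_YY, sa_S, sb_S, sA1_S, sA2_S, sT_S, sa_X, sb_X, sa_Y, sb_Y, sA1_X, sA2_X, sA1_Y, sA2_Y, sT_X, sT_Y, hsym, Fin.reduceEq, if_true, if_false, zS3, zY1, F2] <;> ring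

theorem c_n_X1_X2 {W : Pt V → ℤ} (h : Box W) {σ τ : Equiv.Perm V} (hστ : ∀ x, σ x ≠ τ x) {x1 x2 : V} (nx12 : x1 ≠ x2) (zX1 : W (pX x1) = 0) (zX2 : W (pX x2) = 0) :
    0 ≤ DD (Phi σ τ) W (pX x1) (pX x2) := by
  have B := base_of h hστ
  have hτσ : ∀ x, τ x ≠ σ x := fun x => (hστ x).symm
  have K := NR4xx ((W (pS 0))) ((W (pS 1))) ((W (pS 2))) ((W (pS 3))) ((sa W)) ((sb W)) ((sA1 W)) ((sA2 W)) ((sT σ W)) ((sT τ W)) ((W (pY (σ x1)))) ((W (pY (τ x1)))) ((W (pY (σ x2)))) ((W (pY (τ x2)))) (h.s _) (h.s _) (h.s _) (h.s _) B (pair_Y h hστ (hστ x1)) (pair_Y h hστ (σ.injective.ne nx12)) (pair_Y h hστ (τ.injective.ne nx12)) (pair_Y h hστ (hστ x2))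
  refine dd4 K ?_ ?_ ?_ ?_ <;> simp only [Phi, ins_SS, ins_SX, ins_SY, ins_XS, ins_YS, ins_XY, ins_YX, ins_XX, ins_YY, sa_S, sb_S, sA1_S, sA2_S, sT_S, sa_X, sb_X, sa_Y, sb_Y, sA1_X, sA2_X, sA1_Y, sA2_Y, sT_X, sT_Y, hsym, Fin.reduceEq, if_true, if_false, zX1, zX2, if_neg nx12, if_neg nx12.symm, F2] <;> ring

theorem c_n_Y1_Y2 {W : Pt V → ℤ} (h : Box W) {σ τ : Equiv.Perm V} (hστ : ∀ x, σ x ≠ τ x) {y1 y2 : V} (ny12 : y1 ≠ y2) (zY1 : W (pY y1) = 0) (zY2 : W (pY y2) = 0) :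
    0 ≤ DD (Phi σ τ) W (pY y1) (pY y2) := by
  have B := base_of h hστ
  have hτσ : ∀ x, τ x ≠ σ x := fun x => (hστ x).symm
  have K := NR4xx ((W (pS 0))) ((W (pS 1))) ((W (pS 2))) ((W (pS 3))) ((sb W)) ((sa W)) ((sA2 W)) ((sA1 W)) ((sT σ W)) ((sT τ W)) ((W (pX (σ.symm y1)))) ((W (pX (τ.symm y1)))) ((W (pX (σ.symm y2)))) ((W (pX (τ.symm y2)))) (h.s _) (h.s _) (h.s _) (h.s _) B.swapXY (pair_X h hστ (symm_ne hστ y1)) (pair_X h hστ (σ.symm.injective.ne ny12)) (pair_X h hστ (τ.symm.injective.ne ny12)) (pair_X h hστ (symm_ne hστ y2))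
  refine dd4 K ?_ ?_ ?_ ?_ <;> simp only [Phi, ins_SS, ins_SX, ins_SY, ins_XS, ins_YS, ins_XY, ins_YX, ins_XX, ins_YY, sa_S, sb_S, sA1_S, sA2_S, sT_S, sa_X, sb_X, sa_Y, sb_Y, sA1_X, sA2_X, sA1_Y, sA2_Y, sT_X, sT_Y, hsym, Fin.reduceEq, if_true, if_false, zY1, zY2, if_neg ny12, if_neg ny12.symm, F2] <;> ring

theorem c_n_X1_Y1 {W : Pt V → ℤ} (h : Box W) {σ τ : Equiv.Perm V} (hστ : ∀ x, σ x ≠ τ x) {x1 y1 : V} (zX1 : W (pX x1) = 0) (zY1 : W (pY y1) = 0) :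
    0 ≤ DD (Phi σ τ) W (pX x1) (pY y1) := by
  have B := base_of h hστ
  have hτσ : ∀ x, τ x ≠ σ x := fun x => (hστ x).symm
  have K := NR4xy ((W (pS 0))) ((W (pS 1))) ((W (pS 2))) ((W (pS 3))) ((sa W)) ((sb W)) ((sA1 W)) ((sA2 W)) ((sT σ W)) ((sT τ W)) ((W (pY (σ x1)))) ((W (pY (τ x1)))) ((W (pX (σ.symm y1)))) ((W (pX (τ.symm y1)))) (((if σ x1 = y1 then (1:ℤ) else 0))) (((if τ x1 = y1 then (1:ℤ) else 0))) (h.s _) (h.s _) (h.s _) (h.s _) B (pair_Y h hστ (hστ x1)) (pair_X h hστ (symm_ne hστ y1)) (hdxy _ _ _ _ _ _ (fun e1 e2 => hστ _ (e1.trans e2.symm)) (fun e => by rw [e]; exact zY1) (fun e => by rw [e]; exact zY1) (fun e => by rw [← e, Equiv.symm_apply_apply]; exact zX1) (fun e => by rw [← e, Equiv.symm_apply_apply]; exact zX1))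
  refine dd4 K ?_ ?_ ?_ ?_ <;> simp only [Phi, ins_SS, ins_SX, ins_SY, ins_XS, ins_YS, ins_XY, ins_YX, ins_XX, ins_YY, sa_S, sb_S, sA1_S, sA2_S, sT_S, sa_X, sb_X, sa_Y, sb_Y, sA1_X, sA2_X, sA1_Y, sA2_Y, sT_X, sT_Y, hsym, Fin.reduceEq, if_true, if_false, zX1, zY1, F2] <;> ring

end Pool.Agent.H34.BM
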