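import Mathlib

namespace Pool.Agent.H34.BergeDefs
open SimpleGraph

variable {V : Type}

/-- No induced subgraph is an odd hole or an odd antihole. -/
def Berge (G : SimpleGraph V) : Prop :=
  ∀ n : ℕ, 4 ≤ n → Odd n →
    ¬ (cycleGraph n).IsIndContained G ∧ ¬ (cycleGraph n)ᶜ.IsIndContained G

/-- Distinct vertices such that every chordless path between them has even length; a chordless
path of length `k` is an induced copy of the path on `k + 1` vertices. -/
def EvenPair (G : SimpleGraph V) (x y : V) : Prop :=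
  x ≠ y ∧ ∀ (k : ℕ) (p : pathGraph (k + 1) ↪g G), p 0 = x → p (Fin.last k) = y → Even k

/-- `G` is isomorphic to the line graph of a bipartite graph. -/
def IsBipLine (G : SimpleGraph V) : Prop :=
  ∃ (W : Type) (H : SimpleGraph W), H.IsBipartite ∧ Nonempty (G ≃g H.lineGraph)

/-- The chordless path `p` of `G[S]` has one end in `A`, the other in `B`, and no interior vertex
in `A ∪ B`. -/
def Links (G : SimpleGraph V) (S A B : Set V) (k : ℕ) (p : pathGraph (k + 1) ↪g G.induce S) :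
    Prop :=
  (p 0 : V) ∈ A ∧ (p (Fin.last k) : V) ∈ B ∧
    ∀ i, i ≠ 0 → i ≠ Fin.last k → (p i : V) ∉ A ∪ B

/-- The conditions of a 2-join on one side `S` with special sets `A`, `B`. -/
def JoinSide (G : SimpleGraph V) (S A B : Set V) : Prop :=
  A ⊆ S ∧ B ⊆ S ∧ Disjoint A B ∧ A.Nonempty ∧ B.Nonempty ∧
    (∃ k p, Links G S A B k p) ∧
    ∀ k p, Links G S A B k p → IsEmpty (G.induce S ≃g pathGraph (k + 1))

/-- `G` has a 2-join. -/
def HasTwoJoin (G : SimpleGraph V) : Prop :=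
  ∃ V₁ V₂ A₁ B₁ A₂ B₂ : Set V, Disjoint V₁ V₂ ∧ V₁ ∪ V₂ = Set.univ ∧
    JoinSide G V₁ A₁ B₁ ∧ JoinSide G V₂ A₂ B₂ ∧
    ∀ u ∈ V₁, ∀ v ∈ V₂, G.Adj u v ↔ (u ∈ A₁ ∧ v ∈ A₂) ∨ (u ∈ B₁ ∧ v ∈ B₂)

end Pool.Agent.H34.BergeDefs
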