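import Mathlib
import Pool.Agent.H34.BergeDefs

namespace Pool.Agent.H34.Berge
open SimpleGraph Pool.Agent.H34.BergeDefs

abbrev F := Fin 12

def adjN (N : ℕ) (u v : F) : Bool := N.testBit (12 * u.val + v.val)

def N1 : ℕ := 5434939192497042334437881381936550250026306
def N2 : ℕ := 5714072111126801123575641548901569682459324

def G : SimpleGraph F where
  Adj u v := adjN N1 u v = true
  symm := ⟨by decide +kernel⟩
  loopless := ⟨by decide +kernel⟩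

theorem G_adj (u v : F) : G.Adj u v ↔ adjN N1 u v = true := Iff.rfl

theorem Gc_adj (u v : F) : Gᶜ.Adj u v ↔ adjN N2 u v = true := by
  rw [compl_adj, G_adj]
  revert u v
  decide +kernel

def NoC5 (a : F → F → Bool) : Prop :=
  ∀ x0 x1, a x0 x1 → ∀ x2, a x1 x2 → ¬ a x0 x2 → x0 ≠ x2 → ∀ x3, a x2 x3 → ¬ a x0 x3 →
    ¬ a x1 x3 → x1 ≠ x3 → ∀ x4, a x3 x4 → a x4 x0 → ¬ a x1 x4 → ¬ a x2 x4 → False

def NoLong (a : F → F → Bool) : Prop :=
  ∀ x0 x1, a x0 x1 → ∀ x2, a x1 x2 → ¬ a x0 x2 → x0 ≠ x2 → ∀ x3, a x2 x3 → ¬ a x0 x3 →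
    ¬ a x1 x3 → x1 ≠ x3 → ∀ x4, a x3 x4 → ¬ a x0 x4 → ¬ a x1 x4 → ¬ a x2 x4 → x2 ≠ x4 →
    ∀ x5, a x4 x5 → ¬ a x0 x5 → ¬ a x1 x5 → ¬ a x2 x5 → ¬ a x3 x5 → x3 ≠ x5 →
    ∀ x6, a x5 x6 → ¬ a x1 x6 → ¬ a x2 x6 → ¬ a x3 x6 → ¬ a x4 x6 → x4 ≠ x6 → False

instance (a : F → F → Bool) : Decidable (NoC5 a) := by unfold NoC5; infer_instance
set_option synthInstance.maxSize 1000 in
instance (a : F → F → Bool) : Decidable (NoLong a) := by unfold NoLong; infer_instance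

theorem c5_1 : NoC5 (adjN N1) := by decide +kernel
theorem c5_2 : NoC5 (adjN N2) := by decide +kernel
theorem long_1 : NoLong (adjN N1) := by decide +kernel
theorem long_2 : NoLong (adjN N2) := by decide +kernel

theorem cyc_adj {n : ℕ} (i j : ℕ) (hi : i < n) (hj : j < n) (hij : i < j) :
    (cycleGraph n).Adj ⟨i, hi⟩ ⟨j, hj⟩ ↔ j = i + 1 ∨ (i = 0 ∧ j + 1 = n) := by
  rw [cycleGraph_adj']
  simp only [Fin.sub_def]
  have h1 : (n - j + i) % n = n - j + i := Nat.mod_eq_of_lt (by omega)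
  have h2 : (n - i + j) % n = j - i := by
    have : n - i + j = (j - i) + n := by omega
    rw [this, Nat.add_mod_right]; exact Nat.mod_eq_of_lt (by omega)
  rw [h1, h2]; omega

theorem no_odd_hole (H : SimpleGraph F) (a : F → F → Bool) (h : ∀ u v, H.Adj u v ↔ a u v = true)
    (h5 : NoC5 a) (h7 : NoLong a) (n : ℕ) (hn : 4 ≤ n) (ho : Odd n) :
    ¬ (cycleGraph n).IsIndContained H := by
  rintro ⟨f⟩
  have key : ∀ i j (hi : i < n) (hj : j < n), i < j →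
      (a (f ⟨i, hi⟩) (f ⟨j, hj⟩) = true ↔ j = i + 1 ∨ (i = 0 ∧ j + 1 = n)) := by
    intro i j hi hj hij
    rw [← h, f.map_adj_iff, cyc_adj i j hi hj hij]
  have ne : ∀ i j (hi : i < n) (hj : j < n), i ≠ j → f ⟨i, hi⟩ ≠ f ⟨j, hj⟩ := by
    intro i j hi hj hij e
    exact hij (by simpa using f.injective e)
  obtain ⟨k, hk⟩ := ho
  by_cases h5' : n = 5
  · subst h5'
    refine h5 (f ⟨0, by omega⟩) (f ⟨1, by omega⟩) ?_ (f ⟨2, by omega⟩) ?_ ?_ ?_
      (f ⟨3, by omega⟩) ?_ ?_ ?_ ?_ (f ⟨4, by omega⟩) ?_ ?_ ?_ ?_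
    all_goals first
      | (apply ne; omega)
      | (rw [key _ _ _ _ (by omega)]; omega)
      | (rw [← h, H.adj_comm, h, key _ _ _ _ (by omega)]; omega)
  · have : 7 ≤ n := by omega
    refine h7 (f ⟨0, by omega⟩) (f ⟨1, by omega⟩) ?_ (f ⟨2, by omega⟩) ?_ ?_ ?_
      (f ⟨3, by omega⟩) ?_ ?_ ?_ ?_ (f ⟨4, by omega⟩) ?_ ?_ ?_ ?_ ?_
      (f ⟨5, by omega⟩) ?_ ?_ ?_ ?_ ?_ ?_ (f ⟨6, by omega⟩) ?_ ?_ ?_ ?_ ?_ ?_
    all_goals first
      | (apply ne; omega)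
      | (rw [key _ _ _ _ (by omega)]; omega)

theorem berge : Berge G := by
  intro n hn ho
  refine ⟨no_odd_hole G _ G_adj c5_1 long_1 n hn ho, ?_⟩
  rintro ⟨f⟩
  refine no_odd_hole Gᶜ _ Gc_adj c5_2 long_2 n hn ho ⟨?_⟩
  have := f.complEquiv
  simpa using this

def OddPaths (a : F → F → Bool) : Prop :=
  ∀ x y, x ≠ y → a x y ∨ ∃ u, a x u ∧ ¬ a u y ∧ ∃ v, a u v ∧ a v y ∧ ¬ a x v

instance (a : F → F → Bool) : Decidable (OddPaths a) := by unfold OddPaths; infer_instance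

theorem odd_1 : OddPaths (adjN N1) := by decide +kernel
theorem odd_2 : OddPaths (adjN N2) := by decide +kernel

def edgePath {V : Type} (H : SimpleGraph V) (x y : V) (hxy : H.Adj x y) :
    pathGraph (1 + 1) ↪g H where
  toFun := ![x, y]
  inj' := by
    intro i j
    have := hxy.ne
    fin_cases i <;> fin_cases j <;> simp_all [eq_comm]
  map_rel_iff' := by
    intro i j
    have := hxy.symm
    fin_cases i <;> fin_cases j <;> simp_all [pathGraph_adj]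

theorem no_even (H : SimpleGraph F) (a : F → F → Bool) (h : ∀ u v, H.Adj u v ↔ a u v = true)
    (ho : OddPaths a) (x y : F) : ¬ EvenPair H x y := by
  rintro ⟨hne, hp⟩
  by_cases hxy : H.Adj x y
  · have := hp 1 (edgePath H x y hxy) rfl rfl
    simp at this
  suffices ∃ p : pathGraph (3 + 1) ↪g H, p 0 = x ∧ p (Fin.last 3) = y by
    obtain ⟨p, h1, h2⟩ := this
    exact absurd (hp 3 p h1 h2) (by decide)
  rcases ho x y hne with h1 | ⟨u, h1, h2, v, h3, h4, h5⟩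
  · exact absurd ((h _ _).2 h1) hxy
  rw [← h] at h1 h2 h3 h4 h5
  clear ho hp h
  have n1 := h1.ne
  have n3 := h3.ne
  have n4 := h4.ne
  have n5 : x ≠ v := fun e => hxy (e ▸ h4)
  have n6 : u ≠ y := fun e => hxy (e ▸ h1)
  have s1 := h1.symm
  have s3 := h3.symm
  have s4 := h4.symm
  have s2 : ¬ H.Adj y u := fun e => h2 e.symm
  have s5 : ¬ H.Adj v x := fun e => h5 e.symm
  have s6 : ¬ H.Adj y x := fun e => hxy e.symm
  let p : pathGraph (3 + 1) ↪g H :=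
    { toFun := ![x, u, v, y]
      inj' := by
        intro i j
        fin_cases i <;> fin_cases j <;> simp_all [eq_comm]
      map_rel_iff' := by
        intro i j
        fin_cases i <;> fin_cases j <;> simp_all [pathGraph_adj] }
  exact ⟨p, rfl, rfl⟩

theorem not_line {V : Type} (H : SimpleGraph V) (c x y z : V) (hx : H.Adj c x) (hy : H.Adj c y)
    (hz : H.Adj c z) (hxy : ¬ H.Adj x y) (hxz : ¬ H.Adj x z) (hyz : ¬ H.Adj y z)
    (nxy : x ≠ y) (nxz : x ≠ z) (nyz : y ≠ z) : ¬ IsBipLine H := by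
  rintro ⟨W, K, -, ⟨f⟩⟩
  have adj : ∀ u v, H.Adj u v ↔ u ≠ v ∧ ∃ w, w ∈ (f u : Sym2 W) ∧ w ∈ (f v : Sym2 W) := by
    intro u v
    rw [← f.map_adj_iff, lineGraph_adj_iff_exists, f.injective.ne_iff]
  obtain ⟨-, a, a1, a2⟩ := (adj _ _).1 hx
  obtain ⟨-, b, b1, b2⟩ := (adj _ _).1 hy
  obtain ⟨-, d, d1, d2⟩ := (adj _ _).1 hz
  have hab : a ≠ b := fun e => hxy ((adj _ _).2 ⟨nxy, a, a2, e ▸ b2⟩)
  have had : a ≠ d := fun e => hxz ((adj _ _).2 ⟨nxz, a, a2, e ▸ d2⟩)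
  have hbd : b ≠ d := fun e => hyz ((adj _ _).2 ⟨nyz, b, b2, e ▸ d2⟩)
  generalize (f c : Sym2 W) = e at a1 b1 d1
  induction e using Sym2.ind with
  | _ s t =>
    simp only [Sym2.mem_iff] at a1 b1 d1
    rcases a1 with rfl | rfl <;> rcases b1 with rfl | rfl <;> rcases d1 with rfl | rfl <;> simp_all

def L : List F := List.finRange 12

def chk (a : F → F → Bool) (m : ℕ) : Bool :=
  (L.any fun u => m.testBit u && L.any fun v => !m.testBit v && a u v &&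
    L.any fun u' => m.testBit u' && a u' v && L.any fun v' => !m.testBit v' && a u' v' && !a u v')
  || (L.any fun x => L.any fun y => a x y &&
      ((L.all fun z => m.testBit z == (z == x || z == y)) ||
       (L.all fun z => (!m.testBit z) == (z == x || z == y))))
  || (L.all fun u => !m.testBit u || L.all fun v => m.testBit v || !a u v ||
      L.all fun u' => !m.testBit u' || L.all fun v' => m.testBit v' || !a u' v' || a u v')
  || (L.any fun u => m.testBit u && L.any fun v => !m.testBit v && a u v &&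
      L.any fun u' => m.testBit u' && !a u' v && L.any fun v' => !m.testBit v' && a u' v' &&
      !a u v' && L.any fun u'' => m.testBit u'' && !a u'' v && !a u'' v' &&
      L.any fun v'' => !m.testBit v'' && a u'' v'' && !a u v'' && !a u' v'')

theorem chk_1 : (List.range 4096).all (chk (adjN N1)) = true := by decide +kernel
theorem chk_2 : (List.range 4096).all (chk (adjN N2)) = true := by decide +kernel

theorem side_edge {V : Type} (H : SimpleGraph V) (S A B : Set V) (x y : V) (hxy : H.Adj x y)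
    (hS : ∀ z, z ∈ S ↔ z = x ∨ z = y) : ¬ JoinSide H S A B := by
  rintro ⟨hA, hB, hd, ⟨a, ha⟩, ⟨b, hb⟩, -, hiso⟩
  have hab : a ≠ b := fun e => Set.disjoint_left.1 hd ha (e ▸ hb)
  have hadj : H.Adj a b := by
    rcases (hS a).1 (hA ha) with rfl | rfl <;> rcases (hS b).1 (hB hb) with rfl | rfl
    · exact absurd rfl hab
    · exact hxy
    · exact hxy.symm
    · exact absurd rfl hab
  let p := edgePath (H.induce S) ⟨a, hA ha⟩ ⟨b, hB hb⟩ hadj
  have hl : Links H S A B 1 p := by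
    refine ⟨ha, hb, ?_⟩
    intro i h0 h1
    fin_cases i <;> simp_all
  refine (hiso 1 p hl).false (RelIso.symm ⟨Equiv.ofBijective p ⟨p.injective, ?_⟩, p.map_rel_iff⟩)
  rintro ⟨z, hz⟩
  have : z = a ∨ z = b := by
    rcases (hS a).1 (hA ha) with h1 | h1 <;> rcases (hS b).1 (hB hb) with h2 | h2 <;>
      rcases (hS z).1 hz with h3 | h3 <;> simp_all
  rcases this with rfl | rfl
  · exact ⟨0, rfl⟩
  · exact ⟨1, rfl⟩

theorem no_join (H : SimpleGraph F) (a : F → F → Bool) (h : ∀ u v, H.Adj u v ↔ a u v = true)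
    (hc : (List.range 4096).all (chk a) = true) : ¬ HasTwoJoin H := by
  classical
  rintro ⟨V₁, V₂, A₁, B₁, A₂, B₂, hd, hu, s1, s2, hadj⟩
  let f : Fin 12 → Bool := fun i => decide (i ∈ V₁)
  have hm : Nat.ofBits f < 4096 := Nat.ofBits_lt_two_pow f
  have hb : ∀ i : F, (Nat.ofBits f).testBit i = true ↔ i ∈ V₁ := by
    intro i
    rw [Nat.testBit_ofBits_lt f i i.isLt]; simp [f]
  have hb2 : ∀ i : F, (Nat.ofBits f).testBit i = false ↔ i ∈ V₂ := by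
    intro i
    rw [← Bool.not_eq_true, hb]
    constructor
    · intro hi
      have : i ∈ V₁ ∪ V₂ := hu ▸ Set.mem_univ i
      exact this.resolve_left hi
    · intro hi h1; exact Set.disjoint_left.1 hd h1 hi
  have hk := List.all_eq_true.1 hc _ (List.mem_range.2 hm)
  clear hc hm
  generalize Nat.ofBits f = m at hb hb2 hk
  have d1 : ∀ z, z ∈ A₁ → z ∉ B₁ := fun z hz => Set.disjoint_left.1 s1.2.2.1 hz
  have d2 : ∀ z, z ∈ A₂ → z ∉ B₂ := fun z hz => Set.disjoint_left.1 s2.2.2.1 hz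
  have ha : ∀ u ∈ V₁, ∀ v ∈ V₂, a u v = true ↔ (u ∈ A₁ ∧ v ∈ A₂) ∨ (u ∈ B₁ ∧ v ∈ B₂) := by
    intro u hu v hv; rw [← h]; exact hadj u hu v hv
  have ha' : ∀ u ∈ V₁, ∀ v ∈ V₂, a u v = false ↔ ¬ ((u ∈ A₁ ∧ v ∈ A₂) ∨ (u ∈ B₁ ∧ v ∈ B₂)) := by
    intro u hu v hv; rw [← ha u hu v hv]; simp
  have hL : ∀ z : F, z ∈ L := fun z => List.mem_finRange z
  simp only [chk, Bool.or_eq_true, List.any_eq_true, List.all_eq_true, Bool.and_eq_true,
    Bool.not_eq_true', hL, true_and, forall_true_left, hb, hb2, beq_iff_eq] at hk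
  rcases hk with ((⟨u, hu, v, ⟨hv, h1⟩, u', ⟨hu', h2⟩, v', ⟨hv', h3⟩, h4⟩ | ⟨x, y, hxy, hk | hk⟩) | hk) |
    ⟨u, hu, v, ⟨hv, h1⟩, u', ⟨hu', h2⟩, v', ⟨⟨⟨hv', h3⟩, h4⟩, u'', ⟨⟨hu'', h5⟩, h6⟩, v'',
      ⟨⟨hv'', h7⟩, h8⟩, h9⟩⟩
  · rw [ha _ hu _ hv] at h1
    rw [ha _ hu' _ hv] at h2
    rw [ha _ hu' _ hv'] at h3
    rw [ha' _ hu _ hv'] at h4
    push Not at h4
    rcases h1 with h1 | h1 <;> rcases h2 with h2 | h2 <;> rcases h3 with h3 | h3
    · exact h4.1 h1.1 h3.2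
    · exact d1 _ h2.1 h3.1
    · exact d2 _ h1.2 h2.2
    · exact d2 _ h1.2 h2.2
    · exact d2 _ h2.2 h1.2
    · exact d2 _ h2.2 h1.2
    · exact d1 _ h3.1 h2.1
    · exact h4.2 h1.1 h3.2
  · refine side_edge H V₁ A₁ B₁ x y ((h _ _).2 hxy) (fun z => ?_) s1
    rw [← hb, hk z]; simp
  · refine side_edge H V₂ A₂ B₂ x y ((h _ _).2 hxy) (fun z => ?_) s2
    have := hk z
    rw [← hb2, ← Bool.not_eq_true', this]; simp
  · obtain ⟨a1, ha1⟩ := s1.2.2.2.1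
    obtain ⟨b1, hb1⟩ := s1.2.2.2.2.1
    obtain ⟨a2, ha2⟩ := s2.2.2.2.1
    obtain ⟨b2, hb2'⟩ := s2.2.2.2.2.1
    have m1 := s1.1 ha1
    have m2 := s1.2.1 hb1
    have m3 := s2.1 ha2
    have m4 := s2.2.1 hb2'
    have dd : ∀ z, z ∈ V₁ → z ∉ V₂ := fun z hz => Set.disjoint_left.1 hd hz
    rcases hk a1 with h0 | hk
    · exact dd _ m1 h0
    rcases hk a2 with (h0 | h0) | hk
    · exact dd _ h0 m3
    · rw [ha' _ m1 _ m3] at h0; exact h0 (Or.inl ⟨ha1, ha2⟩)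
    rcases hk b1 with h0 | hk
    · exact dd _ m2 h0
    rcases hk b2 with (h0 | h0) | h0
    · exact dd _ h0 m4
    · rw [ha' _ m2 _ m4] at h0; exact h0 (Or.inr ⟨hb1, hb2'⟩)
    · rw [ha _ m1 _ m4] at h0
      rcases h0 with h0 | h0
      · exact d2 _ h0.2 hb2'
      · exact d1 _ ha1 h0.1
  · rw [ha _ hu _ hv] at h1
    rw [ha' _ hu' _ hv] at h2
    rw [ha _ hu' _ hv'] at h3
    rw [ha' _ hu _ hv'] at h4
    rw [ha' _ hu'' _ hv] at h5
    rw [ha' _ hu'' _ hv'] at h6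
    rw [ha _ hu'' _ hv''] at h7
    rw [ha' _ hu _ hv''] at h8
    rw [ha' _ hu' _ hv''] at h9
    push Not at h2 h4 h5 h6 h8 h9
    rcases h1 with h1 | h1 <;> rcases h3 with h3 | h3 <;> rcases h7 with h7 | h7
    · exact h4.1 h1.1 h3.2
    · exact h4.1 h1.1 h3.2
    · exact h8.1 h1.1 h7.2
    · exact h9.2 h3.1 h7.2
    · exact h9.1 h3.1 h7.2
    · exact h8.2 h1.1 h7.2
    · exact h4.2 h1.1 h3.2
    · exact h4.2 h1.1 h3.2

theorem main : Berge G ∧ (∀ x y, ¬ EvenPair G x y) ∧ (∀ x y, ¬ EvenPair Gᶜ x y) ∧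
    ¬ IsBipLine G ∧ ¬ IsBipLine Gᶜ ∧ ¬ HasTwoJoin G ∧ ¬ HasTwoJoin Gᶜ := by
  refine ⟨berge, no_even G _ G_adj odd_1, no_even Gᶜ _ Gc_adj odd_2, ?_, ?_,
    no_join G _ G_adj chk_1, no_join Gᶜ _ Gc_adj chk_2⟩
  · apply not_line G 6 0 2 4 <;> (try rw [G_adj]) <;> decide +kernel
  · apply not_line Gᶜ 0 3 7 9 <;> (try rw [Gc_adj]) <;> decide +kernel

end Pool.Agent.H34.Berge
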