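import Mathlib

namespace Pool.Agent.H34.BridgeDefs

/-- The bridge, with `a, b = 0, 1`, `x₁, y₁ = 2, 3` and `x₂, y₂ = 4, 5`. -/
def bridge : SimpleGraph (Fin 6) :=
  SimpleGraph.fromRel fun u v => u = 0 ∨ u = 1 ∨ (u = 2 ∧ v = 3) ∨ (u = 4 ∧ v = 5)

/-- Every induced subgraph has chromatic number equal to its clique number. -/
def Perfect {V : Type} (G : SimpleGraph V) : Prop :=
  ∀ S : Set V, (G.induce S).chromaticNumber = ((G.induce S).cliqueNum : ℕ∞)

end Pool.Agent.H34.BridgeDefs
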