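import Mathlib

namespace Pool.Agent.H34.IbnDefs

/-- The induced biclique number: the largest `t` with `K_{t,t}` an induced subgraph. -/
noncomputable def ibn {V : Type} (G : SimpleGraph V) : ℕ :=
  sSup {t : ℕ | (completeBipartiteGraph (Fin t) (Fin t)).IsIndContained G}

end Pool.Agent.H34.IbnDefs
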