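import Mathlib
import Pool.Agent.H34.TreeRoot
import Pool.Agent.H34.IbnDefs

namespace Pool.Agent.H34.C5Blow
open Pool.Agent.H34.TreeAlphaDefs Pool.Agent.H34.IbnDefs Pool.Agent.H34.TreeRoot SimpleGraph

def c5 (i j : Fin 5) : Prop := i = j + 1 ∨ j = i + 1

instance : DecidableRel c5 := fun i j => inferInstanceAs (Decidable (i = j + 1 ∨ j = i + 1))

def B (m : ℕ) : SimpleGraph (Fin 5 × Fin m) where
  Adj p q := c5 p.1 q.1
  symm := ⟨fun _ _ h => Or.symm h⟩
  loopless := ⟨fun p => (by decide : ∀ i : Fin 5, ¬ c5 i i) p.1⟩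

theorem d1 : ∀ a b c d e : Fin 5, c5 a b → c5 b c → c5 c d → c5 d e → ¬ c5 a d → ¬ c5 b e →
    c5 a e := by decide +kernel

theorem p5free (m : ℕ) : ¬ (pathGraph 5).IsIndContained (B m) := by
  rintro ⟨f⟩
  have h : ∀ i j, c5 (f i).1 (f j).1 ↔ (pathGraph 5).Adj i j := fun i j => f.map_adj_iff
  simp only [pathGraph_adj] at h
  have := d1 (f 0).1 (f 1).1 (f 2).1 (f 3).1 (f 4).1
  simp only [h] at this
  exact absurd (this (by decide) (by decide) (by decide) (by decide) (by decide) (by decide))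
    (by decide)

theorem d2 : ∀ a b c d : Fin 5, c5 a c → c5 a d → c5 b c → c5 b d → a = b ∨ c = d := by
  decide +kernel

theorem ibn_le (m : ℕ) : ibn (B m) ≤ m := by
  apply csSup_le'
  rintro t ⟨f⟩
  have h : ∀ i j, c5 (f (.inl i)).1 (f (.inr j)).1 := fun i j => f.map_adj_iff.2 (by simp)
  by_cases h1 : ∀ i j, (f (.inl i)).1 = (f (.inl j)).1
  · have : Function.Injective fun i => (f (.inl i)).2 := fun i j e =>
      Sum.inl_injective (f.injective (Prod.ext (h1 i j) e))
    simpa using Fintype.card_le_of_injective _ this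
  · push Not at h1
    obtain ⟨a, b, hab⟩ := h1
    have : Function.Injective fun i => (f (.inr i)).2 := fun i j e =>
      Sum.inr_injective (f.injective (Prod.ext
        ((d2 _ _ _ _ (h a i) (h a j) (h b i) (h b j)).resolve_left hab) e))
    simpa using Fintype.card_le_of_injective _ this

theorem d3 : ∀ a b c : Fin 5, c5 a b → c5 a c → ¬ c5 b c := by decide +kernel
theorem d4 : ∀ a : Fin 5, (Finset.univ.filter fun b => c5 a b).card = 2 := by decide +kernel

theorem alpha_ge (m : ℕ) (hm : 0 < m) : 2 * m ≤ treeAlpha (B m) := by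
  apply le_treeAlpha
  intro N T X h
  haveI : Nonempty (Fin 5 × Fin m) := ⟨(0, ⟨0, hm⟩)⟩
  obtain ⟨v, t, -, hv⟩ := exists_closed_nbhd h
  refine ⟨t, ?_⟩
  have := (indepNum_induce_le_iff (B m) (X t) _).1 le_rfl
    ((Finset.univ.filter fun b => c5 v.1 b) ×ˢ Finset.univ) (by
      intro u hu
      simp only [Finset.coe_product, Set.mem_prod, Finset.mem_coe, Finset.mem_filter] at hu
      exact hv u hu.1.2) (by
      intro a ha b hb _
      simp only [Finset.coe_product, Set.mem_prod, Finset.mem_coe, Finset.mem_filter] at ha hb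
      exact d3 _ _ _ ha.1.2 hb.1.2)
  simpa [Finset.card_product, d4] using this

theorem main (c : ℕ) : ∃ (V : Type) (_ : Fintype V) (G : SimpleGraph V),
    ¬ (pathGraph 5).IsIndContained G ∧ ibn G + c < treeAlpha G := by
  refine ⟨_, inferInstance, B (c + 1), p5free _, ?_⟩
  have := ibn_le (c + 1)
  have := alpha_ge (c + 1) (by omega)
  omega

end Pool.Agent.H34.C5Blow
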