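import Mathlib

namespace Pool.Agent.H34.CechDefs

/-- `S` spans a simplex of the Čech complex `N(I_n, r)` of the hypercube: for even `r` it lies in
a ball `N_{r/2}[v]`, for odd `r` in `N_{(r-1)/2}[v] ∪ N_{(r-1)/2}[w]` for an edge `vw`. -/
def Simp (n r : ℕ) (S : Set (Fin n → Bool)) : Prop :=
  if Even r then ∃ v, ∀ x ∈ S, hammingDist v x ≤ r / 2
  else ∃ v w, hammingDist v w = 1 ∧
    ∀ x ∈ S, hammingDist v x ≤ (r - 1) / 2 ∨ hammingDist w x ≤ (r - 1) / 2

/-- The geometric realization of `N(I_n, r)`: probability vectors on the vertices whose support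
spans a simplex. -/
def realization (n r : ℕ) : Set ((Fin n → Bool) → ℝ) :=
  {x | (∀ v, 0 ≤ x v) ∧ ∑ v, x v = 1 ∧ Simp n r {v | x v ≠ 0}}

end Pool.Agent.H34.CechDefs
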