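import Mathlib
import Pool.Agent.H34.CechDefs

namespace Pool.Agent.H34.Cech
open Pool.Agent.H34.CechDefs

variable {n r : ℕ}

abbrev V (n : ℕ) := Fin n → Bool

def Sp (r : ℕ) (S : Set (V n)) : Prop :=
  ∃ v w, hammingDist v w ≤ 1 ∧ ∀ x ∈ S, hammingDist v x + hammingDist w x ≤ r

theorem par (a b c : V n) : (hammingDist a b + hammingDist b c + hammingDist a c) % 2 = 0 := by
  simp only [hammingDist, Finset.card_filter, ← Finset.sum_add_distrib, ← Nat.even_iff]
  refine Finset.even_sum _ fun i _ => ?_
  cases a i <;> cases b i <;> cases c i <;> decide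

theorem tri (a b c : V n) : hammingDist a c ≤ hammingDist a b + hammingDist b c :=
  hammingDist_triangle a b c

theorem near {v w : V n} (h : hammingDist v w ≤ 1) (x : V n) :
    hammingDist v x ≤ hammingDist w x + 1 ∧ hammingDist w x ≤ hammingDist v x + 1 ∧
    (hammingDist v w + hammingDist w x + hammingDist v x) % 2 = 0 ∧
    (hammingDist v w = 0 → hammingDist v x = hammingDist w x) := by
  have := tri v w x
  have := tri w v x
  rw [hammingDist_comm w v] at this
  exact ⟨by omega, by omega, par v w x, by omega⟩

theorem simp_iff (hn : 1 ≤ n) (S : Set (V n)) : Simp n r S ↔ Sp r S := by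
  unfold Simp
  split_ifs with h <;> rw [Nat.even_iff] at h
  · refine ⟨fun ⟨v, hv⟩ => ⟨v, v, by simp, fun x hx => ?_⟩, fun ⟨v, w, h1, h2⟩ => ⟨v, fun x hx => ?_⟩⟩
    · have := hv x hx; omega
    · have := h2 x hx; have := near h1 x; omega
  · refine ⟨fun ⟨v, w, h1, h2⟩ => ⟨v, w, h1.le, fun x hx => ?_⟩, fun ⟨v, w, h1, h2⟩ => ?_⟩
    · have := h2 x hx; have := near h1.le x; omega
    by_cases e : hammingDist v w = 0
    · refine ⟨v, Function.update v ⟨0, hn⟩ (!v ⟨0, hn⟩), ?_, fun x hx => Or.inl ?_⟩
      · rw [hammingDist, Finset.card_eq_one]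
        refine ⟨⟨0, hn⟩, ?_⟩
        ext i
        by_cases k : i = ⟨0, hn⟩ <;> simp [k]
      · have := h2 x hx; have := near h1 x; omega
    · exact ⟨v, w, by omega, fun x hx => by have := h2 x hx; omega⟩

theorem Sp.mono {S T : Set (V n)} (h : Sp r T) (hs : S ⊆ T) : Sp r S :=
  let ⟨v, w, h1, h2⟩ := h
  ⟨v, w, h1, fun x hx => h2 x (hs hx)⟩

theorem Sp.map {S : Set (V n)} (h : Sp r S) {f : V n → V n}
    (hf : ∀ a b, hammingDist (f a) (f b) ≤ hammingDist a b) : Sp r (f '' S) := by
  obtain ⟨v, w, h1, h2⟩ := h
  refine ⟨f v, f w, (hf _ _).trans h1, ?_⟩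
  rintro _ ⟨x, hx, rfl⟩
  exact (add_le_add (hf _ _) (hf _ _)).trans (h2 x hx)

def half (π : V n → V n) (x : V n) : V n :=
  if hammingDist (fun _ => false) x % 2 = 0 then π x else x

theorem contig {π : V n → V n} (hL : ∀ a b, hammingDist (π a) (π b) ≤ hammingDist a b)
    (hN : ∀ a, hammingDist a (π a) ≤ 1) {S : Set (V n)} (h : Sp r S) :
    Sp (r + 1) (S ∪ half π '' S) ∧ Sp (r + 1) (half π '' S ∪ π '' S) := by
  obtain ⟨v, w, h1, h2⟩ := h
  by_cases e : r % 2 = 0 ∨ hammingDist v w = 0
  · have : Sp (r + 1) (S ∪ π '' S) := by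
      refine ⟨v, π v, hN v, ?_⟩
      rintro x (hx | ⟨x, hx, rfl⟩)
      · have := h2 _ hx; have := near h1 x; have := near (hN v) x; omega
      · have := h2 _ hx; have := near h1 x; have := hL v x; have := tri v x (π x); have := hN x
        omega
    have k : half π '' S ⊆ S ∪ π '' S := by
      rintro _ ⟨x, hx, rfl⟩
      unfold half
      split_ifs
      exacts [Or.inr ⟨x, hx, rfl⟩, Or.inl hx]
    exact ⟨this.mono (Set.union_subset Set.subset_union_left k),
      this.mono (Set.union_subset k Set.subset_union_right)⟩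
  wlog hv : hammingDist (fun _ => false) v % 2 = r / 2 % 2 generalizing v w with W
  · have := par (fun _ => false) v w
    exact W w v (by rwa [hammingDist_comm]) (fun x hx => by have := h2 x hx; omega)
      (by rwa [hammingDist_comm]) (by omega)
  have p := par (fun _ => false) v w
  refine ⟨⟨v, v, by simp, ?_⟩, π w, π w, by simp, ?_⟩
  · rintro x (hx | ⟨x, hx, rfl⟩)
    · have := h2 _ hx; have := near h1 x; omega
    · have := h2 _ hx; have := near h1 x; have := tri v x (π x); have := hN x
      have := par (fun _ => false) v x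
      unfold half
      split_ifs <;> omega
  · rintro _ (⟨x, hx, rfl⟩ | ⟨x, hx, rfl⟩)
    · have := h2 _ hx; have := near h1 x; have := near (hN w) x; have := hL w x
      have := par (fun _ => false) w x
      unfold half
      split_ifs <;> omega
    · have := h2 _ hx; have := near h1 x; have := hL w x
      omega

noncomputable def push (f : V n → V n) (x : V n → ℝ) (y : V n) : ℝ :=
  ∑ v, if f v = y then x v else 0

theorem push_cont (f : V n → V n) : Continuous (push f) := by
  refine continuous_pi fun y => continuous_finset_sum _ fun v _ => ?_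
  split_ifs
  exacts [continuous_apply v, continuous_const]

theorem push_sum (f : V n → V n) (x : V n → ℝ) : ∑ y, push f x y = ∑ v, x v := by
  unfold push
  rw [Finset.sum_comm]
  simp

theorem push_nonneg (f : V n → V n) {x : V n → ℝ} (h : ∀ v, 0 ≤ x v) (y : V n) : 0 ≤ push f x y :=
  Finset.sum_nonneg fun v _ => by split_ifs; exacts [h v, le_rfl]

theorem push_supp (f : V n → V n) {x : V n → ℝ} {y : V n} (h : push f x y ≠ 0) :
    y ∈ f '' {v | x v ≠ 0} := by
  obtain ⟨v, -, hv⟩ := Finset.exists_ne_zero_of_sum_ne_zero h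
  split_ifs at hv with e
  exacts [⟨v, hv, e⟩, absurd rfl hv]

def H (h : realization n r ⊆ realization n (r + 1)) (f : V n → V n) : Prop :=
  ∃ F : C(realization n r, realization n (r + 1)), (∀ x, (F x).1 = push f x.1) ∧
    (ContinuousMap.inclusion h).Homotopic F

theorem H.step (hn : 1 ≤ n) {h : realization n r ⊆ realization n (r + 1)} {f g : V n → V n}
    (hf : H h f) (hc : ∀ S, Sp r S → Sp (r + 1) (f '' S ∪ g '' S)) : H h g := by
  obtain ⟨F, h1, h2⟩ := hf
  have mem : ∀ (t : unitInterval) (x : realization n r),
      (1 - t.1) • push f x.1 + t.1 • push g x.1 ∈ realization n (r + 1) := by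
    rintro ⟨t, t0, t1⟩ ⟨x, x0, x1, x2⟩
    refine ⟨fun v => add_nonneg (mul_nonneg (sub_nonneg.2 t1) (push_nonneg f x0 v))
      (mul_nonneg t0 (push_nonneg g x0 v)), ?_, (simp_iff hn _).2
      ((hc _ ((simp_iff hn _).1 x2)).mono fun v hv => ?_)⟩
    · simp [Finset.sum_add_distrib, ← Finset.mul_sum, push_sum, x1]
    · by_contra k
      have a : push f x v = 0 := by_contra fun a => k (Or.inl (push_supp f a))
      have b : push g x v = 0 := by_contra fun a => k (Or.inr (push_supp g a))
      exact hv (by simp [a, b])
  let K : C(unitInterval × realization n r, realization n (r + 1)) :=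
    ⟨fun p => ⟨_, mem p.1 p.2⟩, by
      have := push_cont f
      have := push_cont g
      refine Continuous.subtype_mk ?_ _
      fun_prop⟩
  refine ⟨K.curry 1, fun x => by simp [K], h2.trans ⟨⟨K, fun x => Subtype.ext ?_, fun x => rfl⟩⟩⟩
  simp [K, h1]

def zero (k : ℕ) (v : V n) : V n := fun i => if i.val < k then false else v i

def zeroAt (k : ℕ) (v : V n) : V n := fun i => if i.val = k then false else v i

theorem main (hn : 1 ≤ n) : ∃ h : realization n r ⊆ realization n (r + 1),
    (ContinuousMap.inclusion h).Nullhomotopic := by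
  have h : realization n r ⊆ realization n (r + 1) := fun x ⟨x0, x1, x2⟩ => by
    obtain ⟨v, w, h1, h2⟩ := (simp_iff hn _).1 x2
    exact ⟨x0, x1, (simp_iff hn _).2 ⟨v, w, h1, fun y hy => (h2 y hy).trans (Nat.le_succ r)⟩⟩
  have key : ∀ k, H h (zero k) := by
    intro k
    induction k with
    | zero =>
      refine ⟨_, fun x => funext fun y => ?_, .refl _⟩
      have : ∀ v : V n, zero 0 v = v := fun v => funext fun i => by simp [zero]
      simp only [push, this, Finset.sum_ite_eq', Finset.mem_univ, if_true]
      rfl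
    | succ k ih =>
      have l1 : ∀ a b : V n, hammingDist (zero k a) (zero k b) ≤ hammingDist a b := fun a b =>
        Finset.card_le_card fun i => by by_cases e : i.val < k <;> simp [zero, e]
      have l2 : ∀ a b : V n, hammingDist (zeroAt k a) (zeroAt k b) ≤ hammingDist a b := fun a b =>
        Finset.card_le_card fun i => by by_cases e : i.val = k <;> simp [zeroAt, e]
      have l3 : ∀ a : V n, hammingDist a (zeroAt k a) ≤ 1 := fun a =>
        Finset.card_le_one.2 fun i hi j hj => Fin.ext (by
          by_cases e : i.val = k <;> by_cases e' : j.val = k <;> simp_all [zeroAt])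
      have e : zero (k + 1) = zeroAt k ∘ zero (n := n) k := funext fun v => funext fun i => by
        simp only [zero, zeroAt, Function.comp]
        split_ifs <;> first | rfl | omega
      rw [e]
      refine (ih.step hn (g := half (zeroAt k) ∘ zero k) fun S hS => ?_).step hn fun S hS => ?_
      · simpa only [Set.image_comp] using (contig l2 l3 (hS.map l1)).1
      · simpa only [Set.image_comp] using (contig l2 l3 (hS.map l1)).2
  obtain ⟨F, h1, h2⟩ := key n
  have e : ∀ x : realization n r, (F x).1 = fun y => if (fun _ => false) = y then 1 else 0 := by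
    intro x
    funext y
    have : ∀ v : V n, zero n v = fun _ => false := fun v => funext fun i => by simp [zero]
    rw [h1, ← x.2.2.1]
    simp only [push, this]
    split_ifs <;> simp
  have x0 : realization n r := ⟨fun y => if (fun _ => false) = y then 1 else 0,
    fun v => by dsimp only; split_ifs <;> simp, by simp, (simp_iff hn _).2 ⟨fun _ => false, fun _ => false,
      by simp, fun y hy => by
        obtain rfl : y = fun _ => false := by simpa using hy
        simp⟩⟩
  refine ⟨h, F x0, ?_⟩
  have : F = ContinuousMap.const _ (F x0) := ContinuousMap.ext fun x => Subtype.ext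
    ((e x).trans (e x0).symm)
  exact this ▸ h2

end Pool.Agent.H34.Cech
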