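import Mathlib

namespace Pool.Agent.H34.ChiA
open Finset

variable {V : Type} {G : SimpleGraph V}

/-- `S` can be properly coloured with `n` colours. -/
def Col (G : SimpleGraph V) (S : Set V) (n : ℕ) : Prop :=
  ∃ f : V → ℕ, (∀ v ∈ S, f v < n) ∧ ∀ u ∈ S, ∀ v ∈ S, G.Adj u v → f u ≠ f v

theorem Col.mono {S S' : Set V} {n n' : ℕ} (h : Col G S n) (hS : S' ⊆ S) (hn : n ≤ n') :
    Col G S' n' := by
  obtain ⟨f, h1, h2⟩ := h
  exact ⟨f, fun v hv => (h1 v (hS hv)).trans_le hn, fun u hu v hv => h2 u (hS hu) v (hS hv)⟩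

theorem col_empty (n : ℕ) : Col G ∅ n := ⟨fun _ => 0, by simp, by simp⟩

theorem col_subsingleton {S : Set V} (h : S.Subsingleton) : Col G S 1 :=
  ⟨fun _ => 0, by simp, fun u hu v hv a => absurd (h hu hv) a.ne⟩

theorem Col.union {S T : Set V} {m n : ℕ} (h : Col G S m) (h' : Col G T n) :
    Col G (S ∪ T) (m + n) := by
  classical
  obtain ⟨f, h1, h2⟩ := h
  obtain ⟨g, h3, h4⟩ := h'
  refine ⟨fun v => if v ∈ S then f v else m + g v, fun v hv => ?_, fun u hu v hv a => ?_⟩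
  · by_cases h : v ∈ S
    · have := h1 v h; simp only [h, if_true]; omega
    · have := h3 v (hv.resolve_left h); simp only [h, if_false]; omega
  · by_cases h : u ∈ S <;> by_cases h' : v ∈ S <;> simp only [h, h', if_true, if_false]
    · exact h2 u h v h' a
    · have := h1 u h; omega
    · have := h1 v h'; omega
    · have := h4 u (hu.resolve_left h) v (hv.resolve_left h') a; omega

theorem col_fiber {ι : Type} {S : Set V} {n : ℕ} (π : V → ι)
    (h : ∀ k, Col G {v | v ∈ S ∧ π v = k} n) (ha : ∀ u ∈ S, ∀ v ∈ S, G.Adj u v → π u = π v) :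
    Col G S n := by
  choose f h1 h2 using h
  refine ⟨fun v => f (π v) v, fun v hv => h1 _ v ⟨hv, rfl⟩, fun u hu v hv a => ?_⟩
  have := ha u hu v hv a
  simp only [this]
  exact h2 _ u ⟨hu, this⟩ v ⟨hv, rfl⟩ a

theorem col_cover {ι : Type} (K : Finset ι) (P : ι → Set V) (n : ℕ) (h : ∀ k ∈ K, Col G (P k) n) :
    Col G {v | ∃ k ∈ K, v ∈ P k} (K.card * n) := by
  classical
  induction K using Finset.induction_on with
  | empty => simpa using col_empty 0
  | insert a K ha ih =>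
    refine ((h a (mem_insert_self _ _)).union (ih fun k hk => h k (mem_insert_of_mem hk))).mono
      (fun v hv => ?_) (by rw [card_insert_of_notMem ha]; nlinarith)
    obtain ⟨k, hk, hv⟩ := hv
    rcases mem_insert.1 hk with rfl | hk
    · exact Or.inl hv
    · exact Or.inr ⟨k, hk, hv⟩

theorem pattern {β : Type} [Inhabited β] (W : Finset β) (P : ℕ → β → V → Prop) (T : ℕ)
    (I : Finset ℕ) : ∀ S : Set V, (∀ v ∈ S, ∀ i ∈ I, ∃ x ∈ W, P i x v) →
      ¬ Col G S (W.card ^ I.card * T) →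
      ∃ ν : ℕ → β, (∀ i ∈ I, ν i ∈ W) ∧ ¬ Col G {v | v ∈ S ∧ ∀ i ∈ I, P i (ν i) v} T := by
  classical
  induction I using Finset.induction_on with
  | empty => exact fun S _ h => ⟨default, by simp, by simpa using h⟩
  | insert a I ha ih =>
    intro S h1 h2
    have : ∃ x ∈ W, ¬ Col G {v | v ∈ S ∧ P a x v} (W.card ^ I.card * T) := by
      by_contra hc
      push Not at hc
      refine h2 ((col_cover W _ _ hc).mono (fun v hv => ?_) ?_)
      · obtain ⟨x, hx, h⟩ := h1 v hv a (mem_insert_self _ _)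
        exact ⟨x, hx, hv, h⟩
      · rw [card_insert_of_notMem ha]; exact le_of_eq (by ring)
    obtain ⟨x, hx, h3⟩ := this
    obtain ⟨ν, h4, h5⟩ := ih _ (fun v hv i hi => h1 v hv.1 i (mem_insert_of_mem hi)) h3
    refine ⟨fun i => if i = a then x else ν i, fun i hi => ?_, fun h => h5 (h.mono ?_ le_rfl)⟩
    · by_cases e : i = a
      · simpa [e] using hx
      · simpa [e] using h4 i ((mem_insert.1 hi).resolve_left e)
    · intro v hv
      refine ⟨hv.1.1, fun i hi => ?_⟩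
      by_cases e : i = a
      · simpa [e] using hv.1.2
      · simpa [e] using hv.2 i ((mem_insert.1 hi).resolve_left e)

/-- Every matching inside `U` across `X` with no further crossing edge has size at most `k`. -/
def Cut (G : SimpleGraph V) (U X : Set V) (k : ℕ) : Prop :=
  ∀ (ι : Type) (J : Finset ι) (a b : ι → V),
    (∀ i ∈ J, a i ∈ U ∧ a i ∈ X ∧ b i ∈ U ∧ b i ∉ X ∧ G.Adj (a i) (b i)) →
    (∀ i ∈ J, ∀ j ∈ J, i ≠ j → ¬ G.Adj (a i) (b j)) → J.card ≤ k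

theorem Cut.compl {U X : Set V} {k : ℕ} (h : Cut G U X k) : Cut G U Xᶜ k := fun ι J a b h1 h2 =>
  h ι J b a (fun i hi => ⟨(h1 i hi).2.2.1, not_not.1 (h1 i hi).2.2.2.1, (h1 i hi).1,
    (h1 i hi).2.1, (h1 i hi).2.2.2.2.symm⟩) fun i hi j hj hij a => h2 j hj i hi hij.symm a.symm

theorem Cut.mono {U U' X : Set V} {k : ℕ} (h : Cut G U X k) (hU : U' ⊆ U) : Cut G U' X k :=
  fun ι J a b h1 h2 => h ι J a b (fun i hi => ⟨hU (h1 i hi).1, (h1 i hi).2.1, hU (h1 i hi).2.2.1,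
    (h1 i hi).2.2.2⟩) h2

theorem Cut.reduce {U C X : Set V} {k : ℕ} (h : Cut G U X (k + 1)) (hC : C ⊆ U) {b d : V}
    (hb : b ∈ U) (hd : d ∈ U) (hbX : b ∈ X) (hdX : d ∉ X) (hbd : G.Adj b d)
    (h1 : ∀ c ∈ C, ¬ G.Adj b c) (h2 : ∀ c ∈ C, ¬ G.Adj d c) : Cut G C X k := by
  classical
  intro ι J a' b' h3 h4
  have := h (Option ι) (insertNone J) (fun o => o.elim b a') (fun o => o.elim d b') (by
    rintro (_ | i) hi
    · exact ⟨hb, hbX, hd, hdX, hbd⟩
    · have := h3 i (by simpa using hi)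
      exact ⟨hC this.1, this.2.1, hC this.2.2.1, this.2.2.2⟩) (by
    rintro (_ | i) hi (_ | j) hj hij
    · exact absurd rfl hij
    · exact h1 _ (h3 j (by simpa using hj)).2.2.1
    · exact fun a => h2 _ (h3 i (by simpa using hi)).1 a.symm
    · exact h4 i (by simpa using hi) j (by simpa using hj) fun e => hij (congrArg _ e))
  rw [card_insertNone] at this
  omega

theorem Cut.dom [Finite V] {U X P D : Set V} {k : ℕ} (h : Cut G U X k) (hP : P ⊆ U ∩ X)
    (hD : D ⊆ U \ X) (hc : ∀ p ∈ P, ∃ d ∈ D, G.Adj p d) :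
    ∃ D0 : Finset V, ↑D0 ⊆ D ∧ D0.card ≤ k ∧ ∀ p ∈ P, ∃ d ∈ D0, G.Adj p d := by
  classical
  have ex : ∃ n, ∃ D0 : Finset V, ↑D0 ⊆ D ∧ D0.card = n ∧ ∀ p ∈ P, ∃ d ∈ D0, G.Adj p d :=
    ⟨_, (Set.toFinite D).toFinset, by simp, rfl, by simpa using hc⟩
  obtain ⟨D0, h1, h2, h3⟩ := Nat.find_spec ex
  have : ∀ d ∈ D0, ∃ p ∈ P, G.Adj p d ∧ ∀ d' ∈ D0, d' ≠ d → ¬ G.Adj p d' := fun d hd => by
    by_contra hn
    push Not at hn
    have := Nat.find_min' ex ⟨D0.erase d, (coe_subset.2 (erase_subset _ _)).trans h1, rfl,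
      fun p hp => by
        obtain ⟨d', h4, h5⟩ := h3 p hp
        by_cases e : d' = d
        · obtain ⟨d'', h6, h7, h8⟩ := hn p hp (e ▸ h5)
          exact ⟨d'', mem_erase.2 ⟨h7, h6⟩, h8⟩
        · exact ⟨d', mem_erase.2 ⟨e, h4⟩, h5⟩⟩
    have := card_erase_lt_of_mem hd
    omega
  choose! p p1 p2 p3 using this
  exact ⟨D0, h1, h V D0 p id (fun d hd => ⟨(hP (p1 d hd)).1, (hP (p1 d hd)).2, (hD (h1 hd)).1,
    (hD (h1 hd)).2, p2 d hd⟩) fun d hd d' hd' e => p3 d hd d' hd' e.symm, h3⟩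

theorem Cut.bdry [Finite V] {U X : Set V} {k c : ℕ} (h : Cut G U X k)
    (hc : ∀ v ∈ U, Col G {u | u ∈ U ∧ G.Adj v u} c) :
    Col G {v | v ∈ U ∧ v ∈ X ∧ ∃ u ∈ U, u ∉ X ∧ G.Adj v u} (k * c) := by
  obtain ⟨D0, h1, h2, h3⟩ := h.dom (P := {v | v ∈ U ∧ v ∈ X ∧ ∃ u ∈ U, u ∉ X ∧ G.Adj v u})
    (D := U \ X) (fun v hv => ⟨hv.1, hv.2.1⟩) subset_rfl
    fun v ⟨_, _, u, a, b, c⟩ => ⟨u, ⟨a, b⟩, c⟩
  refine (col_cover D0 _ c fun d hd => hc d (h1 hd).1).mono (fun v hv => ?_)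
    (Nat.mul_le_mul_right _ h2)
  obtain ⟨d, h4, h5⟩ := h3 v hv
  exact ⟨d, h4, hv.1, h5.symm⟩

theorem Cut.interior [Finite V] {U X C : Set V} {k c : ℕ} (h : Cut G U X k)
    (hc : ∀ v ∈ U, Col G {u | u ∈ U ∧ G.Adj v u} c) (hC : C ⊆ U) (hn : ¬ Col G (C ∩ X) (k * c)) :
    ∃ v ∈ C, ∀ u ∈ U, G.Adj u v → u ∈ X := by
  by_contra hx
  push Not at hx
  refine hn ((h.bdry hc).mono (fun v hv => ?_) le_rfl)
  obtain ⟨u, h1, h2, h3⟩ := hx v hv.1
  exact ⟨hC hv.1, hv.2, u, h1, h3, h2.symm⟩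

/-- Recursive decompositions with cuts of value at most `k` and `t`-colourable blocks. -/
inductive Dec (G : SimpleGraph V) (U : Set V) (k t : ℕ) : Set V → Prop
  | leaf (X : Set V) : Cut G U X k → Col G (U ∩ X) t → Dec G U k t X
  | node (X Y Z : Set V) : Cut G U X k → X = Y ∪ Z → Disjoint Y Z → Dec G U k t Y →
      Dec G U k t Z → Dec G U k t X
  | half (X Y Z : Set V) : Cut G U X k → X = Y ∪ Z → Disjoint Y Z → Dec G U k t Y →
      Col G (U ∩ Z) t → Dec G U k t X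

variable {U : Set V} {k t : ℕ}

theorem Dec.cut {X : Set V} (h : Dec G U k t X) : Cut G U X k := by
  cases h <;> assumption

theorem Dec.mono {U' X : Set V} (h : Dec G U k t X) (hU : U' ⊆ U) : Dec G U' k t X := by
  induction h with
  | leaf X h1 h2 => exact .leaf X (h1.mono hU) (h2.mono (Set.inter_subset_inter_left _ hU) le_rfl)
  | node X Y Z h1 h2 h3 _ _ i1 i2 => exact .node X Y Z (h1.mono hU) h2 h3 i1 i2
  | half X Y Z h1 h2 h3 _ h4 i1 =>
    exact .half X Y Z (h1.mono hU) h2 h3 i1 (h4.mono (Set.inter_subset_inter_left _ hU) le_rfl)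

theorem Dec.zero {X : Set V} (h : Dec G U 0 t X) : Col G (U ∩ X) t := by
  classical
  have key : ∀ Y Z : Set V, Cut G U Y 0 → Col G (U ∩ Y) t → Col G (U ∩ Z) t →
      Col G (U ∩ (Y ∪ Z)) t := fun Y Z h1 h2 h3 => by
    have no : ∀ u ∈ U, ∀ v ∈ U, G.Adj u v → u ∈ Y → v ∈ Y := fun u hu v hv a hY => by
      by_contra hn
      have := h1 Unit {()} (fun _ => u) (fun _ => v) (fun _ _ => ⟨hu, hY, hv, hn, a⟩) (by simp)
      simp at this
    refine col_fiber (fun v => v ∈ Y) (fun p => ?_) fun u hu v hv a =>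
      propext ⟨no u hu.1 v hv.1 a, no v hv.1 u hu.1 a.symm⟩
    by_cases hp : p
    · exact h2.mono (fun v hv => ⟨hv.1.1, hv.2 ▸ hp⟩) le_rfl
    · exact h3.mono (fun v hv => ⟨hv.1.1, hv.1.2.resolve_left fun h => hp (hv.2 ▸ h)⟩) le_rfl
  induction h with
  | leaf X _ h2 => exact h2
  | node X Y Z _ h2 _ h4 _ i1 i2 => exact h2 ▸ key Y Z h4.cut i1 i2
  | half X Y Z _ h2 _ h4 h5 i1 => exact h2 ▸ key Y Z h4.cut i1 h5

theorem Dec.side {R C : Set V} (h : Dec G U k t R) (hR : U ⊆ R) (hC : C ⊆ U) (s : ℕ)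
    (hn : ¬ Col G C (2 * s + t)) (x : V) : ∃ X, Dec G U k t X ∧ x ∉ X ∧ ¬ Col G (C ∩ X) s := by
  by_contra hq
  push Not at hq
  have cu : ∀ X Y Z : Set V, X = Y ∪ Z → Disjoint Y Z → Yᶜ = Xᶜ ∪ Z ∧ Disjoint Xᶜ Z := by
    rintro X Y Z rfl hd
    refine ⟨?_, Set.disjoint_left.2 fun v hv hz => hv (Or.inr hz)⟩
    ext v
    have : v ∈ Y → v ∉ Z := fun h => Set.disjoint_left.1 hd h
    simp only [Set.mem_compl_iff, Set.mem_union]
    tauto
  have key : ∀ X, Dec G U k t X → Dec G U k t Xᶜ → x ∈ X → False := by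
    intro X hX
    induction hX with
    | leaf X _ h2 =>
      intro hc hx
      refine hn (((hq _ hc (not_not.2 hx)).union h2).mono (fun v hv => ?_) (by omega))
      by_cases e : v ∈ X
      · exact Or.inr ⟨hC hv, e⟩
      · exact Or.inl ⟨hv, e⟩
    | node X Y Z _ h2 h3 h4 h5 i1 i2 =>
      intro hc hx
      rcases (h2 ▸ hx : x ∈ Y ∪ Z) with hx | hx
      · exact i1 (.node _ _ _ h4.cut.compl (cu X Y Z h2 h3).1 (cu X Y Z h2 h3).2 hc h5) hx
      · have := cu X Z Y (h2.trans (Set.union_comm _ _)) h3.symm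
        exact i2 (.node _ _ _ h5.cut.compl this.1 this.2 hc h4) hx
    | half X Y Z _ h2 h3 h4 h5 i1 =>
      intro hc hx
      by_cases hy : x ∈ Y
      · exact i1 (.half _ _ _ h4.cut.compl (cu X Y Z h2 h3).1 (cu X Y Z h2 h3).2 hc h5) hy
      refine hn ((((hq _ hc (not_not.2 hx)).union (hq _ h4 hy)).union h5).mono (fun v hv => ?_)
        (by omega))
      by_cases e : v ∈ X
      · rcases (h2 ▸ e : v ∈ Y ∪ Z) with e | e
        · exact Or.inl (Or.inr ⟨hv, e⟩)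
        · exact Or.inr ⟨hC hv, e⟩
      · exact Or.inl (Or.inl ⟨hv, e⟩)
  by_cases hx : x ∈ R
  · exact key R h (.leaf _ h.cut.compl ((col_empty t).mono (fun v hv => hv.2 (hR hv.1)) le_rfl)) hx
  · exact hn ((hq R h hx).mono (fun v hv => ⟨hv, hR (hC hv)⟩) (by omega))

theorem Dec.balanced {R C : Set V} (h : Dec G U k t R) (hR : U ⊆ R) (hC : C ⊆ U) (s : ℕ)
    (hn : ¬ Col G C (3 * s + t)) :
    ∃ X, Cut G U X k ∧ ¬ Col G (C ∩ X) s ∧ ¬ Col G (C ∩ Xᶜ) s := by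
  by_contra hq
  push Not at hq
  have key : ∀ X, Dec G U k t X → Col G (C ∩ Xᶜ) s → False := by
    intro X hX
    induction hX with
    | leaf X _ h2 =>
      intro hc
      refine hn ((hc.union h2).mono (fun v hv => ?_) (by omega))
      by_cases e : v ∈ X
      · exact Or.inr ⟨hC hv, e⟩
      · exact Or.inl ⟨hv, e⟩
    | node X Y Z _ h2 h3 h4 h5 i1 i2 =>
      intro hc
      have a1 : Col G (C ∩ Y) s := by_contra fun a => i1 (hq _ h4.cut a)
      have a2 : Col G (C ∩ Z) s := by_contra fun a => i2 (hq _ h5.cut a)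
      refine hn (((hc.union a1).union a2).mono (fun v hv => ?_) (by omega))
      by_cases e : v ∈ X
      · rcases (h2 ▸ e : v ∈ Y ∪ Z) with e | e
        · exact Or.inl (Or.inr ⟨hv, e⟩)
        · exact Or.inr ⟨hv, e⟩
      · exact Or.inl (Or.inl ⟨hv, e⟩)
    | half X Y Z _ h2 h3 h4 h5 i1 =>
      intro hc
      have a1 : Col G (C ∩ Y) s := by_contra fun a => i1 (hq _ h4.cut a)
      refine hn (((hc.union a1).union h5).mono (fun v hv => ?_) (by omega))
      by_cases e : v ∈ X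
      · rcases (h2 ▸ e : v ∈ Y ∪ Z) with e | e
        · exact Or.inl (Or.inr ⟨hv, e⟩)
        · exact Or.inr ⟨hC hv, e⟩
      · exact Or.inl (Or.inl ⟨hv, e⟩)
  exact key R h ((col_empty s).mono (fun v hv => hv.2 (hR (hC hv.1))) le_rfl)

theorem Dec.reduce {X0 C D : Set V} (hC : C ⊆ U) (hD : D ⊆ U)
    (ha : ∀ d ∈ D, ∀ c ∈ C, ¬ G.Adj d c) (s : ℕ)
    (hx : ∀ X ⊆ X0, (X ∩ D).Nonempty → ∃ b ∈ D, ∃ d ∈ D, b ∈ X ∧ d ∉ X ∧ G.Adj b d)
    (hq : ∀ X, Cut G U X (k + 1) → ¬ (X ∩ D).Nonempty → Col G (C ∩ X) s) :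
    ∀ X, Dec G U (k + 1) t X → X ⊆ X0 → (X ∩ D).Nonempty → Dec G C k (s + t) X := by
  have cut : ∀ X, Cut G U X (k + 1) → X ⊆ X0 → (X ∩ D).Nonempty → Cut G C X k := fun X h1 h2 h3 => by
    obtain ⟨b, hb, d, hd, h4, h5, h6⟩ := hx X h2 h3
    exact h1.reduce hC (hD hb) (hD hd) h4 h5 h6 (ha b hb) (ha d hd)
  intro X hX
  induction hX with
  | leaf X h1 h2 =>
    exact fun a b => .leaf X (cut X h1 a b) (h2.mono (Set.inter_subset_inter_left _ hC) (by omega))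
  | node X Y Z h1 h2 h3 h4 h5 i1 i2 =>
    intro a b
    have y0 : Y ⊆ X0 := fun v hv => a (h2 ▸ Or.inl hv)
    have z0 : Z ⊆ X0 := fun v hv => a (h2 ▸ Or.inr hv)
    by_cases hy : (Y ∩ D).Nonempty <;> by_cases hz : (Z ∩ D).Nonempty
    · exact .node X Y Z (cut X h1 a b) h2 h3 (i1 y0 hy) (i2 z0 hz)
    · exact .half X Y Z (cut X h1 a b) h2 h3 (i1 y0 hy)
        ((hq Z h5.cut hz).mono subset_rfl (by omega))
    · exact .half X Z Y (cut X h1 a b) (h2.trans (Set.union_comm _ _)) h3.symm (i2 z0 hz)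
        ((hq Y h4.cut hy).mono subset_rfl (by omega))
    · obtain ⟨v, hv, hd⟩ := b
      rcases (h2 ▸ hv : v ∈ Y ∪ Z) with e | e
      · exact absurd ⟨v, e, hd⟩ hy
      · exact absurd ⟨v, e, hd⟩ hz
  | half X Y Z h1 h2 h3 h4 h5 i1 =>
    intro a b
    have y0 : Y ⊆ X0 := fun v hv => a (h2 ▸ Or.inl hv)
    by_cases hy : (Y ∩ D).Nonempty
    · exact .half X Y Z (cut X h1 a b) h2 h3 (i1 y0 hy)
        (h5.mono (Set.inter_subset_inter_left _ hC) (by omega))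
    · refine .leaf X (cut X h1 a b) (((hq Y h4.cut hy).union h5).mono (fun v hv => ?_) le_rfl)
      rcases (h2 ▸ hv.2 : v ∈ Y ∪ Z) with e | e
      · exact Or.inl ⟨hv.1, e⟩
      · exact Or.inr ⟨hC hv.1, e⟩

theorem ramsey (a b : ℕ) : ∃ R : ℕ, ∀ (ι : Type) (r : ι → ι → Prop), (∀ i j, r i j → r j i) →
    ∀ J : Finset ι, R ≤ J.card →
      (∃ K ⊆ J, K.card = a ∧ ∀ i ∈ K, ∀ j ∈ K, i ≠ j → r i j) ∨
      ∃ K ⊆ J, K.card = b ∧ ∀ i ∈ K, ∀ j ∈ K, i ≠ j → ¬ r i j := by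
  classical
  induction a generalizing b with
  | zero => exact ⟨0, fun _ _ _ J _ => Or.inl ⟨∅, by simp, rfl, by simp⟩⟩
  | succ a iha =>
    induction b with
    | zero => exact ⟨0, fun _ _ _ J _ => Or.inr ⟨∅, by simp, rfl, by simp⟩⟩
    | succ b ihb =>
      obtain ⟨R1, h1⟩ := iha (b + 1)
      obtain ⟨R2, h2⟩ := ihb
      refine ⟨R1 + R2 + 1, fun ι r hr J hJ => ?_⟩
      obtain ⟨v, hv⟩ := card_pos.1 (show 0 < J.card by omega)
      have e := card_filter_add_card_filter_not (s := J.erase v) (r v)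
      rw [card_erase_of_mem hv] at e
      have ins : ∀ (p : ι → ι → Prop), (∀ i j, p i j → p j i) → ∀ K ⊆ (J.erase v).filter (p v),
          (∀ i ∈ K, ∀ j ∈ K, i ≠ j → p i j) → ∃ K' ⊆ J, K'.card = K.card + 1 ∧
            ∀ i ∈ K', ∀ j ∈ K', i ≠ j → p i j := fun p hp K hK hp' => by
        have hn : v ∉ K := fun h => (mem_erase.1 (mem_filter.1 (hK h)).1).1 rfl
        refine ⟨insert v K, insert_subset hv (hK.trans ((filter_subset _ _).trans
          (erase_subset _ _))), card_insert_of_notMem hn, fun i hi j hj hij => ?_⟩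
        rcases mem_insert.1 hi with hi' | hi' <;> rcases mem_insert.1 hj with hj' | hj'
        · exact absurd (hi'.trans hj'.symm) hij
        · exact hi' ▸ (mem_filter.1 (hK hj')).2
        · exact hj' ▸ hp _ _ (mem_filter.1 (hK hi')).2
        · exact hp' i hi' j hj' hij
      by_cases hc : R1 ≤ ((J.erase v).filter (r v)).card
      · rcases h1 ι r hr _ hc with ⟨K, a1, a2, a3⟩ | ⟨K, a1, a2, a3⟩
        · exact Or.inl (a2 ▸ ins r hr K a1 a3)
        · exact Or.inr ⟨K, a1.trans ((filter_subset _ _).trans (erase_subset _ _)), a2, a3⟩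
      · rcases h2 ι r hr ((J.erase v).filter fun j => ¬ r v j) (by omega) with
          ⟨K, a1, a2, a3⟩ | ⟨K, a1, a2, a3⟩
        · exact Or.inl ⟨K, a1.trans ((filter_subset _ _).trans (erase_subset _ _)), a2, a3⟩
        · exact Or.inr (a2 ▸ ins (fun i j => ¬ r i j) (fun i j h h' => h (hr _ _ h')) K
            (by convert a1) a3)

theorem majority (q p : ℕ) : ∃ P : ℕ, ∀ (V : Type) (Q : ℕ → Finset V) (μ : ℕ → ℕ → V)
    (I : Finset ℕ), P ≤ I.card → (∀ i ∈ I, (Q i).card = q + 1) →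
    (∀ i ∈ I, ∀ j ∈ I, i < j → μ i j ∈ Q j) →
    ∃ I' ⊆ I, I'.card = p ∧ ∀ j ∈ I', ∃ x ∈ Q j, ∀ i ∈ I', i < j → μ i j = x := by
  classical
  induction p with
  | zero => exact ⟨0, fun _ _ _ I _ _ _ => ⟨∅, by simp, rfl, by simp⟩⟩
  | succ p ih =>
    obtain ⟨P, hP⟩ := ih
    refine ⟨(q + 1) * P + 2, fun V Q μ I h1 h2 h3 => ?_⟩
    have hne : I.Nonempty := card_pos.1 (by omega)
    have hm := I.max'_mem hne
    have lt : ∀ i ∈ I.erase (I.max' hne), i < I.max' hne := fun i hi =>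
      lt_of_le_of_ne (I.le_max' i (mem_erase.1 hi).2) (mem_erase.1 hi).1
    obtain ⟨x, hx, hx'⟩ := exists_lt_card_fiber_of_mul_lt_card_of_maps_to
      (s := I.erase (I.max' hne)) (t := Q (I.max' hne)) (f := fun i => μ i (I.max' hne)) (n := P)
      (fun i hi => h3 i (mem_erase.1 hi).2 _ hm (lt i hi))
      (by rw [h2 _ hm, card_erase_of_mem hm]; omega)
    have sub : (I.erase (I.max' hne)).filter (fun i => μ i (I.max' hne) = x) ⊆ I :=
      (filter_subset _ _).trans (erase_subset _ _)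
    obtain ⟨I', a1, a2, a3⟩ := hP V Q μ _ hx'.le (fun i hi => h2 i (sub hi))
      fun i hi j hj => h3 i (sub hi) j (sub hj)
    have lt' : ∀ i ∈ I', i < I.max' hne := fun i hi => lt i (mem_filter.1 (a1 hi)).1
    refine ⟨insert (I.max' hne) I', insert_subset hm (a1.trans sub),
      by rw [card_insert_of_notMem fun h => lt_irrefl _ (lt' _ h), a2], fun j hj => ?_⟩
    rcases mem_insert.1 hj with hj' | hj'
    · refine ⟨x, hj' ▸ hx, fun i hi hij => ?_⟩
      rcases mem_insert.1 hi with hi' | hi'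
      · omega
      · exact hj' ▸ (mem_filter.1 (a1 hi')).2
    · obtain ⟨y, b1, b2⟩ := a3 j hj'
      refine ⟨y, b1, fun i hi hij => ?_⟩
      rcases mem_insert.1 hi with hi' | hi'
      · have := lt' j hj'; omega
      · exact b2 i hi' hij

end Pool.Agent.H34.ChiA
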