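import Mathlib
import Pool.Agent.H34.ChiA

namespace Pool.Agent.H34.ChiB
open Finset Pool.Agent.H34.ChiA

variable {V : Type} {G : SimpleGraph V}

/-- The three tools used in the inductive step. -/
structure Ctx (k c t : ℕ) (ρ : ℕ → ℕ) (G : SimpleGraph V) (U : Set V) : Prop where
  loc : ∀ v ∈ U, Col G {u | u ∈ U ∧ G.Adj v u} c
  red : ∀ (s : ℕ) (C D : Set V) (x : V), C ⊆ U → D ⊆ U → (∀ d ∈ D, ∀ c ∈ C, ¬ G.Adj d c) →
    (∀ X : Set V, x ∉ X → (X ∩ D).Nonempty → ∃ b ∈ D, ∃ d ∈ D, b ∈ X ∧ d ∉ X ∧ G.Adj b d) →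
    ¬ Col G C (ρ s) → ∃ X, Cut G U X k ∧ ¬ (X ∩ D).Nonempty ∧ ¬ Col G (C ∩ X) s
  bal : ∀ (s : ℕ) (C : Set V), C ⊆ U → ¬ Col G C (3 * s + t) →
    ∃ X, Cut G U X k ∧ ¬ Col G (C ∩ X) s ∧ ¬ Col G (C ∩ Xᶜ) s

/-- A clique of size `q` whose common neighbourhood dominates a far set of large chromatic
number. -/
def Cov (G : SimpleGraph V) (C : Set V) (q s : ℕ) : Prop :=
  ∃ (Q : Finset V) (N C' : Set V), ↑Q ⊆ C ∧ Q.card = q ∧ G.IsClique (Q : Set V) ∧ N ⊆ C ∧ C' ⊆ C ∧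
    (∀ x ∈ Q, ∀ n ∈ N, G.Adj x n) ∧ (∀ x ∈ Q, ∀ v ∈ C', ¬ G.Adj x v) ∧
    (∀ v ∈ C', ∃ n ∈ N, G.Adj n v) ∧ ¬ Col G C' s

def E (k c t : ℕ) (ρ : ℕ → ℕ) (q : ℕ) : Prop :=
  ∀ s, ∃ S, ∀ (V : Type) [Finite V] (G : SimpleGraph V) (U : Set V), Ctx k c t ρ G U →
    ∀ C ⊆ U, ¬ Col G C S → Cov G C q s

def W (H : SimpleGraph V) (r : V) : ℕ → Set V
  | 0 => {r}
  | n + 1 => {v | ∃ u ∈ W H r n, H.Adj u v}

theorem levels (H : SimpleGraph V) : ∃ (root : V → V) (lev : V → ℕ),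
    (∀ u v, H.Adj u v → root u = root v ∧ lev v ≤ lev u + 1) ∧ (∀ v, lev v = 0 → v = root v) ∧
    ∀ v n, lev v = n + 1 → ∃ u, H.Adj u v ∧ lev u = n := by
  classical
  have ex : ∀ v, ∃ n, v ∈ W H (H.connectedComponentMk v).out n := fun v => by
    have h1 : H.Reachable (H.connectedComponentMk v).out v :=
      SimpleGraph.ConnectedComponent.exact (Quot.out_eq _)
    rw [SimpleGraph.reachable_iff_reflTransGen] at h1
    generalize (H.connectedComponentMk v).out = r at h1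
    induction h1 with
    | refl => exact ⟨0, rfl⟩
    | tail _ h ih => obtain ⟨n, hn⟩ := ih; exact ⟨n + 1, _, hn, h⟩
  have rt : ∀ u v, H.Adj u v → (H.connectedComponentMk u).out = (H.connectedComponentMk v).out :=
    fun u v h => by rw [SimpleGraph.ConnectedComponent.sound h.reachable]
  have le : ∀ u v, H.Adj u v → Nat.find (ex v) ≤ Nat.find (ex u) + 1 := fun u v h =>
    Nat.find_min' (ex v) ⟨u, rt u v h ▸ Nat.find_spec (ex u), h⟩
  refine ⟨fun v => (H.connectedComponentMk v).out, fun v => Nat.find (ex v),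
    fun u v h => ⟨rt u v h, le u v h⟩, fun v h => ?_, fun v n h => ?_⟩
  · have := Nat.find_spec (ex v)
    simp only at h
    rwa [h] at this
  · have := Nat.find_spec (ex v)
    simp only at h
    rw [h] at this
    obtain ⟨u, h1, h2⟩ := this
    have h3 := Nat.find_min' (ex u) (rt u v h2 ▸ h1)
    have h4 := le u v h2
    exact ⟨u, h2, by simp only; omega⟩

theorem E_one (k c t : ℕ) (ρ : ℕ → ℕ) : E k c t ρ 1 := by
  classical
  intro s
  refine ⟨2 * (ρ (k * c + k * s) + c + 1), fun V _ G U hx C hC hn => ?_⟩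
  let H : SimpleGraph V :=
    { Adj := fun u v => G.Adj u v ∧ u ∈ C ∧ v ∈ C
      symm := ⟨fun u v h => ⟨h.1.symm, h.2.2, h.2.1⟩⟩
      loopless := ⟨fun u h => h.1.ne rfl⟩ }
  obtain ⟨root, lev, h1, h2, h3⟩ := levels H
  by_contra hcov
  have layer : ∀ r i, Col G {v | v ∈ C ∧ root v = r ∧ lev v = i} (ρ (k * c + k * s) + c + 1) := by
    intro r i
    rcases i with _ | _ | j
    · exact (col_subsingleton fun u hu v hv => by
        rw [h2 u hu.2.2, h2 v hv.2.2, hu.2.1, hv.2.1]).mono subset_rfl (by omega)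
    · by_cases hr : r ∈ C
      · refine (hx.loc r (hC hr)).mono (fun v hv => ⟨hC hv.1, ?_⟩) (by omega)
        obtain ⟨u, a1, a2⟩ := h3 v 0 hv.2.2
        rw [← hv.2.1, ← (h1 u v a1).1, ← h2 u a2]
        exact a1.1
      · refine (col_empty _).mono (fun v hv => hr ?_) le_rfl
        obtain ⟨u, a1, a2⟩ := h3 v 0 hv.2.2
        rw [← hv.2.1, ← (h1 u v a1).1, ← h2 u a2]
        exact a1.2.1
    by_contra hl
    obtain ⟨X, c1, c2, c3⟩ := hx.red (k * c + k * s) {v | v ∈ C ∧ root v = r ∧ lev v = j + 1 + 1}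
      {v | v ∈ C ∧ root v = r ∧ lev v ≤ j} r (fun v hv => hC hv.1) (fun v hv => hC hv.1)
      (fun d hd v hv a => by
        have := (h1 d v ⟨a, hd.1, hv.1⟩).2
        have := hd.2.2
        have := hv.2.2
        omega)
      (fun X hr ⟨v, hv⟩ => by
        induction hi : lev v using Nat.strong_induction_on generalizing v with
        | _ i ih =>
        rcases i with _ | i
        · exact absurd (hv.2.2.1 ▸ h2 v hi ▸ hv.1) hr
        obtain ⟨u, a1, a2⟩ := h3 v i hi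
        have hu : u ∈ {v | v ∈ C ∧ root v = r ∧ lev v ≤ j} :=
          ⟨a1.2.1, (h1 u v a1).1.trans hv.2.2.1, by have := hv.2.2.2; omega⟩
        by_cases e : u ∈ X
        · exact ih i (by omega) u ⟨e, hu⟩ a2
        · exact ⟨v, hv.2, u, hu, hv.1, e, a1.1.symm⟩)
      (fun h => hl (h.mono subset_rfl (by omega)))
    obtain ⟨D0, d1, d2, d3⟩ := c1.dom (P := {p | p ∈ X ∧ p ∈ C ∧ root p = r ∧ lev p = j + 1})
      (D := {v | v ∈ C ∧ root v = r ∧ lev v ≤ j}) (fun p hp => ⟨hC hp.2.1, hp.1⟩)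
      (fun d hd => ⟨hC hd.1, fun h => c2 ⟨d, h, hd⟩⟩) (fun p hp => by
        obtain ⟨u, a1, a2⟩ := h3 p j hp.2.2.2
        exact ⟨u, ⟨a1.2.1, (h1 u p a1).1.trans hp.2.2.1, a2.le⟩, a1.1.symm⟩)
    refine c3 (((c1.bdry hx.loc).union (col_cover D0 (fun d => {v | v ∈ C ∧ lev v = j + 1 + 1 ∧
      ∃ n ∈ C, G.Adj d n ∧ G.Adj n v}) s fun d hd => ?_)).mono (fun v hv => ?_)
      (Nat.add_le_add_left (Nat.mul_le_mul_right _ d2) _))
    · by_contra hs
      refine hcov ⟨{d}, {n | n ∈ C ∧ G.Adj d n}, _, by simpa using (d1 hd).1, rfl, by simp,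
        fun n hn => hn.1, fun v hv => hv.1, by simp, ?_, ?_, hs⟩
      · intro x hx' v hv a
        rw [mem_singleton.1 hx'] at a
        have := (h1 d v ⟨a, (d1 hd).1, hv.1⟩).2
        have := (d1 hd).2.2
        have := hv.2.1
        omega
      · rintro v ⟨-, -, n, a1, a2, a3⟩
        exact ⟨n, ⟨a1, a2⟩, a3⟩
    · obtain ⟨u, a1, a2⟩ := h3 v (j + 1) hv.1.2.2
      by_cases e : u ∈ X
      · obtain ⟨d, a3, a4⟩ := d3 u ⟨e, a1.2.1, (h1 u v a1).1.trans hv.1.2.1, a2⟩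
        exact Or.inr ⟨d, a3, hv.1.1, hv.1.2.2, u, a1.2.1, a4.symm, a1.1⟩
      · exact Or.inl ⟨hC hv.1.1, hv.2, u, hC a1.2.1, e, a1.1.symm⟩
  have par : ∀ e, Col G {v | v ∈ C ∧ lev v % 2 = e} (ρ (k * c + k * s) + c + 1) := fun e =>
    col_fiber (fun v => (root v, lev v)) (fun p => (layer p.1 p.2).mono (fun v hv =>
      ⟨hv.1.1, congrArg Prod.fst hv.2, congrArg Prod.snd hv.2⟩) le_rfl) fun u hu v hv a => by
        have a1 := h1 u v ⟨a, hu.1, hv.1⟩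
        have a2 := h1 v u ⟨a.symm, hv.1, hu.1⟩
        have := hu.2
        have := hv.2
        exact Prod.ext a1.1 (by simp only; omega)
  refine hn (((par 0).union (par 1)).mono (fun v hv => ?_) (by omega))
  rcases Nat.mod_two_eq_zero_or_one (lev v) with h | h
  · exact Or.inl ⟨hv, h⟩
  · exact Or.inr ⟨hv, h⟩

theorem light {U C0 : Set V} {c q s : ℕ} (hc : ∀ v ∈ U, Col G {u | u ∈ U ∧ G.Adj v u} c)
    (hC : C0 ⊆ U) (hn : ¬ Cov G C0 (q + 1) s) (Q : Finset V) (h1 : ↑Q ⊆ C0) (h2 : Q.card = q)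
    (h3 : G.IsClique (Q : Set V)) (a : V) (ha : a ∈ C0) (h4 : ∀ x ∈ Q, G.Adj x a) :
    Col G {v | v ∈ C0 ∧ ∃ n ∈ C0, G.Adj n v ∧ G.Adj a n ∧ ∀ x ∈ Q, G.Adj x n}
      (s + (q + 1) * c) := by
  classical
  have na : a ∉ Q := fun h => (h4 a h).ne rfl
  have sub : ∀ x ∈ insert a Q, x ∈ C0 := fun x hx => by
    rcases mem_insert.1 hx with h | h
    · exact h ▸ ha
    · exact h1 h
  have a1 : Col G {v | v ∈ C0 ∧ (∃ n ∈ C0, G.Adj n v ∧ G.Adj a n ∧ ∀ x ∈ Q, G.Adj x n) ∧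
      ∀ x ∈ insert a Q, ¬ G.Adj x v} s := by
    by_contra hs
    refine hn ⟨insert a Q, {n | n ∈ C0 ∧ G.Adj a n ∧ ∀ x ∈ Q, G.Adj x n}, _, sub,
      by rw [card_insert_of_notMem na, h2], ?_, fun n hn => hn.1, fun v hv => hv.1, ?_,
      fun x hx v hv => hv.2.2 x hx, ?_, hs⟩
    · rw [coe_insert]
      exact h3.insert fun x hx _ => (h4 x hx).symm
    · intro x hx n hn
      rcases mem_insert.1 hx with h | h
      · exact h ▸ hn.2.1
      · exact hn.2.2 x h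
    · rintro v ⟨-, ⟨n, b1, b2, b3⟩, -⟩
      exact ⟨n, ⟨b1, b3⟩, b2⟩
  refine (a1.union (col_cover (insert a Q) _ c fun x hx => hc x (hC (sub x hx)))).mono
    (fun v hv => ?_) (by rw [card_insert_of_notMem na, h2])
  by_cases e : ∀ x ∈ insert a Q, ¬ G.Adj x v
  · exact Or.inl ⟨hv.1, hv.2, e⟩
  · push Not at e
    obtain ⟨x, b1, b2⟩ := e
    exact Or.inr ⟨x, b1, hC hv.1, b2⟩

/-- The state of the multicover construction after `n` rounds. -/
structure St (G : SimpleGraph V) (C0 : Set V) (q k n : ℕ) (I J : Finset ℕ) (Q : ℕ → Finset V)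
    (N B : ℕ → Set V) (o : ℕ → ℕ) (μ : ℕ → ℕ → V) (C : Set V) : Prop where
  lt : ∀ i, i ∈ I ∨ i ∈ J → i < n
  dis : ∀ i ∈ I, i ∉ J
  sub : C ⊆ C0
  qs : ∀ i, i ∈ I ∨ i ∈ J → ↑(Q i) ⊆ C0 ∧ (Q i).card = q ∧ G.IsClique (Q i : Set V) ∧ N i ⊆ C0
  qn : ∀ i, i ∈ I ∨ i ∈ J → ∀ x ∈ Q i, ∀ m ∈ N i, G.Adj x m
  cov : ∀ i, i ∈ I ∨ i ∈ J → ∀ v ∈ C, ∃ m ∈ N i, G.Adj m v
  qc : ∀ i ∈ I, ∀ x ∈ Q i, ∀ v ∈ C, ¬ G.Adj x v
  later : ∀ i ∈ I, ∀ j ∈ I, i < j → ∀ x ∈ Q i, ∀ m ∈ N j, ¬ G.Adj x m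
  anti : ∀ i ∈ I, ∀ j ∈ I, i < j → μ i j ∈ Q j ∧ ∀ m ∈ N i, ¬ G.Adj (μ i j) m
  own : ∀ j ∈ J, o j ∈ I ∧ B j ⊆ C0 ∧ (∀ x ∈ Q (o j), ∀ b ∈ B j, G.Adj x b) ∧
    (∀ b ∈ B j, ∀ v ∈ C, ¬ G.Adj b v) ∧ ∀ x ∈ Q j, ∀ m ∈ N (o j), G.Adj x m
  bl : ∀ j ∈ J, ∀ j' ∈ J, j < j' → ∀ b ∈ B j, ∀ m ∈ N j', ¬ G.Adj b m
  pick : ∀ j ∈ J, ∀ a ∈ N j, ∀ F ⊆ J, F.card ≤ k → (∀ i ∈ F, i < j ∧ o i = o j) →
    ∀ α : ℕ → V, (∀ i ∈ F, α i ∈ N i) → ∃ b ∈ B j, G.Adj a b ∧ ∀ i ∈ F, ¬ G.Adj (α i) b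

variable {C0 C : Set V} {q k n : ℕ} {I J : Finset ℕ} {Q : ℕ → Finset V} {N B : ℕ → Set V}
  {o : ℕ → ℕ} {μ : ℕ → ℕ → V}

theorem St.addLevel (h : St G C0 q k n I J Q N B o μ C) {Q' : Finset V} {N' C' : Set V}
    (h1 : ↑Q' ⊆ C) (h2 : Q'.card = q) (h3 : G.IsClique (Q' : Set V)) (h4 : N' ⊆ C) (h5 : C' ⊆ C)
    (h6 : ∀ x ∈ Q', ∀ n ∈ N', G.Adj x n) (h7 : ∀ x ∈ Q', ∀ v ∈ C', ¬ G.Adj x v)
    (h8 : ∀ v ∈ C', ∃ n ∈ N', G.Adj n v) (ν : ℕ → V) (h9 : ∀ i ∈ I, ν i ∈ Q')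
    (h10 : ∀ v ∈ C', ∀ i ∈ I, ∃ m ∈ N i, G.Adj m v ∧ ¬ G.Adj (ν i) m) :
    St G C0 q k (n + 1) (insert n I) J (fun i => if i = n then Q' else Q i)
      (fun i => if i = n then N' else {m | m ∈ N i ∧ (i ∈ I → ¬ G.Adj (ν i) m)}) B o
      (fun i j => if j = n then ν i else μ i j) C' := by
  have nI : ∀ i ∈ I, i ≠ n := fun i hi => (h.lt i (Or.inl hi)).ne
  have nJ : ∀ i ∈ J, i ≠ n := fun i hi => (h.lt i (Or.inr hi)).ne
  have cs : ∀ i, i ∈ insert n I ∨ i ∈ J → i = n ∨ (i ≠ n ∧ (i ∈ I ∨ i ∈ J)) := fun i hi => by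
    by_cases e : i = n
    · exact Or.inl e
    · exact Or.inr ⟨e, hi.imp (fun h => (mem_insert.1 h).resolve_left e) id⟩
  have cs' : ∀ i, i ∈ insert n I → i = n ∨ (i ≠ n ∧ i ∈ I) := fun i hi => by
    by_cases e : i = n
    · exact Or.inl e
    · exact Or.inr ⟨e, (mem_insert.1 hi).resolve_left e⟩
  have JI : ∀ j ∈ J, j ∉ I := fun j hj hi => h.dis j hi hj
  constructor
  · intro i hi
    rcases cs i hi with e | ⟨-, e⟩
    · omega
    · have := h.lt i e; omega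
  · intro i hi hj
    rcases cs' i hi with e | ⟨-, e⟩
    · exact nJ i hj e
    · exact h.dis i e hj
  · exact h5.trans h.sub
  · intro i hi
    rcases cs i hi with e | ⟨e, e'⟩
    · simp only [e, if_true]
      exact ⟨h1.trans h.sub, h2, h3, h4.trans h.sub⟩
    · simp only [e, if_false]
      exact ⟨(h.qs i e').1, (h.qs i e').2.1, (h.qs i e').2.2.1, fun m hm => (h.qs i e').2.2.2 hm.1⟩
  · intro i hi
    rcases cs i hi with e | ⟨e, e'⟩
    · simpa only [e, if_true] using h6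
    · simp only [e, if_false]
      exact fun x hx m hm => h.qn i e' x hx m hm.1
  · intro i hi
    rcases cs i hi with e | ⟨e, e'⟩
    · simpa only [e, if_true] using h8
    · simp only [e, if_false]
      intro v hv
      by_cases hI : i ∈ I
      · obtain ⟨m, a1, a2, a3⟩ := h10 v hv i hI
        exact ⟨m, ⟨a1, fun _ => a3⟩, a2⟩
      · obtain ⟨m, a1, a2⟩ := h.cov i e' v (h5 hv)
        exact ⟨m, ⟨a1, fun a => absurd a hI⟩, a2⟩
  · intro i hi
    rcases cs' i hi with e | ⟨e, e'⟩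
    · simpa only [e, if_true] using h7
    · simp only [e, if_false]
      exact fun x hx v hv => h.qc i e' x hx v (h5 hv)
  · intro i hi j hj hij
    rcases cs' i hi with e | ⟨e, e'⟩ <;> rcases cs' j hj with f | ⟨f, f'⟩
    · omega
    · have := h.lt j (Or.inl f'); omega
    · simp only [e, f, if_true, if_false]
      exact fun x hx v hv => h.qc i e' x hx v (h4 hv)
    · simp only [e, f, if_false]
      exact fun x hx m hm => h.later i e' j f' hij x hx m hm.1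
  · intro i hi j hj hij
    rcases cs' i hi with e | ⟨e, e'⟩ <;> rcases cs' j hj with f | ⟨f, f'⟩
    · omega
    · have := h.lt j (Or.inl f'); omega
    · simp only [e, f, if_true, if_false]
      exact ⟨h9 i e', fun m hm => hm.2 e'⟩
    · simp only [e, f, if_false]
      exact ⟨(h.anti i e' j f' hij).1, fun m hm => (h.anti i e' j f' hij).2 m hm.1⟩
  · intro j hj
    obtain ⟨a1, a2, a3, a4, a5⟩ := h.own j hj
    simp only [nJ j hj, nI _ a1, if_false]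
    exact ⟨mem_insert_of_mem a1, a2, a3, fun b hb v hv => a4 b hb v (h5 hv),
      fun x hx m hm => a5 x hx m hm.1⟩
  · intro j hj j' hj' hjj
    simp only [nJ j' hj', if_false]
    exact fun b hb m hm => h.bl j hj j' hj' hjj b hb m hm.1
  · intro j hj a ha F hF f1 f2 α f3
    simp only [nJ j hj, if_false] at ha
    refine h.pick j hj a ha.1 F hF f1 f2 α fun i hi => ?_
    have := f3 i hi
    simp only [nJ i (hF hi), if_false] at this
    exact this.1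

theorem St.addRecord (h : St G C0 q k n I J Q N B o μ C) {Q' : Finset V} {N' C' : Set V}
    (h1 : ↑Q' ⊆ C) (h2 : Q'.card = q) (h3 : G.IsClique (Q' : Set V)) (h4 : N' ⊆ C) (h5 : C' ⊆ C)
    (h6 : ∀ x ∈ Q', ∀ n ∈ N', G.Adj x n) (h8 : ∀ v ∈ C', ∃ n ∈ N', G.Adj n v) (i0 : ℕ)
    (h9 : i0 ∈ I) (h10 : ∀ v ∈ C', ∀ m ∈ N i0, G.Adj m v → ∀ x ∈ Q', G.Adj x m)
    (h11 : ∀ a ∈ N', ∀ F ⊆ J, F.card ≤ k → (∀ i ∈ F, o i = i0) → ∀ α : ℕ → V,
      (∀ i ∈ F, α i ∈ N i) →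
      ∃ b ∈ N i0, (∃ x ∈ Q', ¬ G.Adj x b) ∧ G.Adj a b ∧ ∀ i ∈ F, ¬ G.Adj (α i) b) :
    St G C0 q k (n + 1) I (insert n J) (fun i => if i = n then Q' else Q i)
      (fun i => if i = n then N' else {m | m ∈ N i ∧ (i = i0 → ∀ x ∈ Q', G.Adj x m)})
      (fun i => if i = n then {b | b ∈ N i0 ∧ ∃ x ∈ Q', ¬ G.Adj x b} else B i)
      (fun i => if i = n then i0 else o i) μ C' := by
  have nI : ∀ i ∈ I, i ≠ n := fun i hi => (h.lt i (Or.inl hi)).ne
  have nJ : ∀ i ∈ J, i ≠ n := fun i hi => (h.lt i (Or.inr hi)).ne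
  have cs : ∀ i, i ∈ I ∨ i ∈ insert n J → i = n ∨ (i ≠ n ∧ (i ∈ I ∨ i ∈ J)) := fun i hi => by
    by_cases e : i = n
    · exact Or.inl e
    · exact Or.inr ⟨e, hi.imp id fun h => (mem_insert.1 h).resolve_left e⟩
  have cs' : ∀ i, i ∈ insert n J → i = n ∨ (i ≠ n ∧ i ∈ J) := fun i hi => by
    by_cases e : i = n
    · exact Or.inl e
    · exact Or.inr ⟨e, (mem_insert.1 hi).resolve_left e⟩
  constructor
  · intro i hi
    rcases cs i hi with e | ⟨-, e⟩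
    · omega
    · have := h.lt i e; omega
  · intro i hi hj
    rcases cs' i hj with e | ⟨-, e⟩
    · exact nI i hi e
    · exact h.dis i hi e
  · exact h5.trans h.sub
  · intro i hi
    rcases cs i hi with e | ⟨e, e'⟩
    · simp only [e, if_true]
      exact ⟨h1.trans h.sub, h2, h3, h4.trans h.sub⟩
    · simp only [e, if_false]
      exact ⟨(h.qs i e').1, (h.qs i e').2.1, (h.qs i e').2.2.1, fun m hm => (h.qs i e').2.2.2 hm.1⟩
  · intro i hi
    rcases cs i hi with e | ⟨e, e'⟩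
    · simpa only [e, if_true] using h6
    · simp only [e, if_false]
      exact fun x hx m hm => h.qn i e' x hx m hm.1
  · intro i hi
    rcases cs i hi with e | ⟨e, e'⟩
    · simpa only [e, if_true] using h8
    · simp only [e, if_false]
      intro v hv
      obtain ⟨m, a1, a2⟩ := h.cov i e' v (h5 hv)
      exact ⟨m, ⟨a1, fun a => h10 v hv m (a ▸ a1) a2⟩, a2⟩
  · intro i hi
    simp only [nI i hi, if_false]
    exact fun x hx v hv => h.qc i hi x hx v (h5 hv)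
  · intro i hi j hj hij
    simp only [nI i hi, nI j hj, if_false]
    exact fun x hx m hm => h.later i hi j hj hij x hx m hm.1
  · intro i hi j hj hij
    simp only [nI i hi, nI j hj, if_false]
    exact ⟨(h.anti i hi j hj hij).1, fun m hm => (h.anti i hi j hj hij).2 m hm.1⟩
  · intro j hj
    rcases cs' j hj with e | ⟨e, e'⟩
    · simp only [e, if_true, nI i0 h9, if_false]
      refine ⟨h9, fun b hb => (h.qs i0 (Or.inl h9)).2.2.2 hb.1,
        fun x hx b hb => h.qn i0 (Or.inl h9) x hx b hb.1, fun b hb v hv a => ?_,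
        fun x hx m hm => hm.2 trivial x hx⟩
      obtain ⟨x, a1, a2⟩ := hb.2
      exact a2 (h10 v hv b hb.1 a x a1)
    · obtain ⟨a1, a2, a3, a4, a5⟩ := h.own j e'
      simp only [e, nI _ a1, if_false]
      exact ⟨a1, a2, a3, fun b hb v hv => a4 b hb v (h5 hv), fun x hx m hm => a5 x hx m hm.1⟩
  · intro i hi j hj hij
    rcases cs' i hi with e | ⟨e, e'⟩ <;> rcases cs' j hj with f | ⟨f, f'⟩
    · omega
    · have := h.lt j (Or.inr f'); omega
    · simp only [e, f, if_true, if_false]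
      exact fun b hb v hv => (h.own i e').2.2.2.1 b hb v (h4 hv)
    · simp only [e, f, if_false]
      exact fun b hb m hm => h.bl i e' j f' hij b hb m hm.1
  · intro j hj a ha F hF f1 f2 α f3
    have jn : j ≤ n := by
      rcases cs' j hj with e | ⟨-, e⟩
      · omega
      · exact (h.lt j (Or.inr e)).le
    have Fn : ∀ i ∈ F, i ≠ n := fun i hi => by have := (f2 i hi).1; omega
    have FJ : F ⊆ J := fun i hi => (mem_insert.1 (hF hi)).resolve_left (Fn i hi)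
    have f3' : ∀ i ∈ F, α i ∈ N i := fun i hi => by
      have := f3 i hi
      simp only [Fn i hi, if_false] at this
      exact this.1
    rcases cs' j hj with e | ⟨e, e'⟩
    · simp only [e, if_true] at ha ⊢
      obtain ⟨b, b1, b2, b3⟩ := h11 a ha F FJ f1 (fun i hi => by
        simpa only [e, Fn i hi, if_true, if_false] using (f2 i hi).2) α f3'
      exact ⟨b, ⟨b1, b2⟩, b3⟩
    · simp only [e, if_false] at ha ⊢
      exact h.pick j e' a ha.1 F FJ f1 (fun i hi => ⟨(f2 i hi).1, by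
        simpa only [e, Fn i hi, if_false] using (f2 i hi).2⟩) α f3'

end Pool.Agent.H34.ChiB
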