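import Mathlib

namespace Pool.Agent.H34.SimDefs

/-- A branch decomposition: a tree of maximum degree at most 3 and a bijection `L` from the
vertices onto the leaves of the tree. -/
structure IsBranchDecomp {V N : Type} (T : SimpleGraph N) (L : V → N) : Prop where
  tree : T.IsTree
  deg : ∀ t, (T.neighborSet t).ncard ≤ 3
  inj : Function.Injective L
  leaves : Set.range L = {t | (T.neighborSet t).ncard = 1}

/-- The vertices whose leaf lies in the component of `s` after deleting the tree edge `s t`. -/
def side {V N : Type} (T : SimpleGraph N) (L : V → N) (s t : N) : Set V :=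
  {v | (T.deleteEdges {s(s, t)}).Reachable s (L v)}

/-- `M` is an induced matching of `G` each of whose edges has one end in `A` and one outside. -/
def IsCutMatching {V : Type} (G : SimpleGraph V) (A : Set V) (M : Finset (V × V)) : Prop :=
  (∀ p ∈ M, p.1 ∈ A ∧ p.2 ∉ A ∧ G.Adj p.1 p.2) ∧
    ∀ p ∈ M, ∀ q ∈ M, p ≠ q → ∀ x ∈ ({p.1, p.2} : Set V), ∀ y ∈ ({q.1, q.2} : Set V),
      x ≠ y ∧ ¬ G.Adj x y

/-- The largest size of an induced matching across the cut `(A, Aᶜ)`. -/
noncomputable def sim {V : Type} (G : SimpleGraph V) (A : Set V) : ℕ :=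
  sSup {n | ∃ M, IsCutMatching G A M ∧ M.card = n}

/-- `G` has sim-width at most `k`. -/
def SimWidthLE {V : Type} (G : SimpleGraph V) (k : ℕ) : Prop :=
  Nat.card V ≤ 1 ∨ ∃ (N : Type) (_ : Finite N) (T : SimpleGraph N) (L : V → N),
    IsBranchDecomp T L ∧ ∀ s t, T.Adj s t → sim G (side T L s t) ≤ k

end Pool.Agent.H34.SimDefs
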