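import Mathlib
import Pool.Agent.H34.TreeRoot

namespace Pool.Agent.H34.TDGlue
open SimpleGraph Pool.Agent.H34.TreeAlphaDefs Pool.Agent.H34.TreeRoot

theorem acyclic_sum {A B : Type} {G : SimpleGraph A} {H : SimpleGraph B} (hG : G.IsAcyclic)
    (hH : H.IsAcyclic) : (G ⊕g H).IsAcyclic := by
  rw [isAcyclic_iff_forall_adj_isBridge] at *
  rintro (a | a) (b | b) hab hr
  · refine hG (by simpa using hab) ?_
    change (G.deleteEdges {s(a, b)}).Reachable a b
    change ((G ⊕g H).deleteEdges {s(Sum.inl a, Sum.inl b)}).Reachable _ _ at hr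
    rw [reachable_iff_reflTransGen] at hr
    have : ∀ x, Relation.ReflTransGen ((G ⊕g H).deleteEdges {s(Sum.inl a, Sum.inl b)}).Adj
        (Sum.inl a) x → ∃ c, x = Sum.inl c ∧ (G.deleteEdges {s(a, b)}).Reachable a c := by
      intro x hx
      induction hx with
      | refl => exact ⟨a, rfl, Reachable.refl _⟩
      | @tail y z _ h2 ih =>
        obtain ⟨c, rfl, hc⟩ := ih
        rcases z with z | z
        · exact ⟨z, rfl, hc.trans (Adj.reachable (by simpa using h2))⟩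
        · simp at h2
    obtain ⟨c, h1, h2⟩ := this _ hr
    cases h1; exact h2
  · simp at hab
  · simp at hab
  · refine hH (by simpa using hab) ?_
    change (H.deleteEdges {s(a, b)}).Reachable a b
    change ((G ⊕g H).deleteEdges {s(Sum.inr a, Sum.inr b)}).Reachable _ _ at hr
    rw [reachable_iff_reflTransGen] at hr
    have : ∀ x, Relation.ReflTransGen ((G ⊕g H).deleteEdges {s(Sum.inr a, Sum.inr b)}).Adj
        (Sum.inr a) x → ∃ c, x = Sum.inr c ∧ (H.deleteEdges {s(a, b)}).Reachable a c := by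
      intro x hx
      induction hx with
      | refl => exact ⟨a, rfl, Reachable.refl _⟩
      | @tail y z _ h2 ih =>
        obtain ⟨c, rfl, hc⟩ := ih
        rcases z with z | z
        · simp at h2
        · exact ⟨z, rfl, hc.trans (Adj.reachable (by simpa using h2))⟩
    obtain ⟨c, h1, h2⟩ := this _ hr
    cases h1; exact h2

theorem tree_glue {A B : Type} {G : SimpleGraph A} {H : SimpleGraph B} (hG : G.IsTree)
    (hH : H.IsTree) (a : A) (b : B) : ((G ⊕g H) ⊔ edge (.inl a) (.inr b)).IsTree :=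
  ⟨hG.connected.sum_sup_edge hH.connected,
    (acyclic_sum hG.isAcyclic hH.isAcyclic).sup_edge_of_not_reachable
      (not_reachable_sum_inl_inr a b)⟩

def Conn {N : Type} (T : SimpleGraph N) (S : Set N) : Prop :=
  ∀ a ∈ S, ∀ b ∈ S, Relation.ReflTransGen (fun x y => T.Adj x y ∧ x ∈ S ∧ y ∈ S) a b

theorem Conn.preconnected {N : Type} {T : SimpleGraph N} {S : Set N} (h : Conn T S) :
    (T.induce S).Preconnected := by
  rintro ⟨a, ha⟩ ⟨b, hb⟩
  have : ∀ x, Relation.ReflTransGen (fun x y => T.Adj x y ∧ x ∈ S ∧ y ∈ S) a x →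
      ∀ hx : x ∈ S, (T.induce S).Reachable ⟨a, ha⟩ ⟨x, hx⟩ := by
    intro x hx
    induction hx with
    | refl => intro _; exact Reachable.refl _
    | @tail y z _ h2 ih => intro hz; exact (ih h2.2.1).trans (Adj.reachable h2.1)
  exact this b (h a ha b hb) hb

variable {V : Type}

/-- A rooted tree decomposition of `G[U]` whose root bag contains `W`, all bags satisfying `Q`. -/
def TD (G : SimpleGraph V) (Q : Set V → Prop) (U W : Set V) : Prop :=
  ∃ (N : Type) (_ : Finite N) (T : SimpleGraph N) (X : N → Set V) (r : N), T.IsTree ∧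
    (∀ t, X t ⊆ U) ∧ (∀ v ∈ U, ∃ t, v ∈ X t) ∧
    (∀ u ∈ U, ∀ v ∈ U, G.Adj u v → ∃ t, u ∈ X t ∧ v ∈ X t) ∧
    (∀ v, Conn T {t | v ∈ X t}) ∧ W ⊆ X r ∧ ∀ t, Q (X t)

variable {G : SimpleGraph V} {Q : Set V → Prop}

theorem TD.single {U : Set V} (h : Q U) : TD G Q U U :=
  ⟨Unit, inferInstance, ⊥, fun _ => U, (), IsTree.of_subsingleton, fun _ => subset_rfl,
    fun _ hv => ⟨(), hv⟩, fun _ hu _ hv _ => ⟨(), hu, hv⟩, fun _ _ _ _ _ => .refl, subset_rfl,
    fun _ => h⟩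

theorem TD.mono {U W W' : Set V} (h : TD G Q U W) (hW : W' ⊆ W) : TD G Q U W' := by
  obtain ⟨N, i, T, X, r, h1, h2, h3, h4, h5, h6, h7⟩ := h
  exact ⟨N, i, T, X, r, h1, h2, h3, h4, h5, hW.trans h6, h7⟩

theorem TD.glue {U₁ U₂ W₁ W₂ : Set V} (h₁ : TD G Q U₁ W₁) (h₂ : TD G Q U₂ W₂)
    (i₁ : U₁ ∩ U₂ ⊆ W₁) (i₂ : U₁ ∩ U₂ ⊆ W₂)
    (he : ∀ u ∈ U₁, ∀ v ∈ U₂, G.Adj u v → u ∈ U₂ ∨ v ∈ U₁) : TD G Q (U₁ ∪ U₂) W₁ := by
  obtain ⟨N, i, T, X, r, h1, h2, h3, h4, h5, h6, h7⟩ := h₁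
  obtain ⟨N', i', T', X', r', h1', h2', h3', h4', h5', h6', h7'⟩ := h₂
  refine ⟨N ⊕ N', inferInstance, (T ⊕g T') ⊔ edge (.inl r) (.inr r'), Sum.elim X X', .inl r,
    tree_glue h1 h1' r r', ?_, ?_, ?_, ?_, h6, ?_⟩
  · rintro (t | t)
    · exact (h2 t).trans Set.subset_union_left
    · exact (h2' t).trans Set.subset_union_right
  · rintro v (hv | hv)
    · obtain ⟨t, ht⟩ := h3 v hv; exact ⟨.inl t, ht⟩
    · obtain ⟨t, ht⟩ := h3' v hv; exact ⟨.inr t, ht⟩
  · have l : ∀ u ∈ U₁, ∀ v ∈ U₁, G.Adj u v → ∃ t, u ∈ Sum.elim X X' t ∧ v ∈ Sum.elim X X' t := by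
      intro u hu v hv h
      obtain ⟨t, ht⟩ := h4 u hu v hv h; exact ⟨.inl t, ht⟩
    have l' : ∀ u ∈ U₂, ∀ v ∈ U₂, G.Adj u v → ∃ t, u ∈ Sum.elim X X' t ∧ v ∈ Sum.elim X X' t := by
      intro u hu v hv h
      obtain ⟨t, ht⟩ := h4' u hu v hv h; exact ⟨.inr t, ht⟩
    rintro u (hu | hu) v (hv | hv) h
    · exact l u hu v hv h
    · rcases he u hu v hv h with h' | h'
      · exact l' u h' v hv h
      · exact l u hu v h' h
    · rcases he v hv u hu h.symm with h' | h'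
      · exact l' u hu v h' h
      · exact l u h' v hv h
    · exact l' u hu v hv h
  · intro v
    have l : ∀ a b, v ∈ X a → v ∈ X b → Relation.ReflTransGen (fun x y =>
        ((T ⊕g T') ⊔ edge (.inl r) (.inr r')).Adj x y ∧ x ∈ {t | v ∈ Sum.elim X X' t} ∧
        y ∈ {t | v ∈ Sum.elim X X' t}) (.inl a) (.inl b) := by
      intro a b ha hb
      have := h5 v a ha b hb
      clear hb
      induction this with
      | refl => exact .refl
      | tail _ h ih => exact ih.tail ⟨Or.inl (by simpa using h.1), h.2⟩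
    have l' : ∀ a b, v ∈ X' a → v ∈ X' b → Relation.ReflTransGen (fun x y =>
        ((T ⊕g T') ⊔ edge (.inl r) (.inr r')).Adj x y ∧ x ∈ {t | v ∈ Sum.elim X X' t} ∧
        y ∈ {t | v ∈ Sum.elim X X' t}) (.inr a) (.inr b) := by
      intro a b ha hb
      have := h5' v a ha b hb
      clear hb
      induction this with
      | refl => exact .refl
      | tail _ h ih => exact ih.tail ⟨Or.inl (by simpa using h.1), h.2⟩
    rintro (a | a) ha (b | b) hb
    · exact l a b ha hb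
    · have m : v ∈ U₁ ∩ U₂ := ⟨h2 a ha, h2' b hb⟩
      exact ((l a r ha (h6 (i₁ m))).tail ⟨Or.inr (by simp [edge_adj]), h6 (i₁ m),
        h6' (i₂ m)⟩).trans (l' r' b (h6' (i₂ m)) hb)
    · have m : v ∈ U₁ ∩ U₂ := ⟨h2 b hb, h2' a ha⟩
      exact ((l' a r' ha (h6' (i₂ m))).tail ⟨Or.inr (by simp [edge_adj]), h6' (i₂ m),
        h6 (i₁ m)⟩).trans (l r b (h6 (i₁ m)) hb)
    · exact l' a b ha hb
  · rintro (t | t)
    · exact h7 t
    · exact h7' t

theorem TD.treeAlpha_le {c : ℕ} {W : Set V}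
    (h : TD G (fun S => (G.induce S).indepNum ≤ c) Set.univ W) : treeAlpha G ≤ c := by
  obtain ⟨N, i, T, X, r, h1, h2, h3, h4, h5, h6, h7⟩ := h
  refine Nat.sInf_le ⟨N, i, T, X, ⟨h1, fun v => h3 v trivial,
    fun u v h => h4 u trivial v trivial h, fun v => ?_⟩, h7⟩
  obtain ⟨t, ht⟩ := h3 v trivial
  exact @Connected.mk _ _ (h5 v).preconnected ⟨⟨t, ht⟩⟩

end Pool.Agent.H34.TDGlue
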