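import Mathlib
import Pool.Agent.H34.TDGlue
import Pool.Agent.H34.SimDefs

namespace Pool.Agent.H34.Sim
open SimpleGraph Pool.Agent.H34.TreeAlphaDefs Pool.Agent.H34.TreeRoot Pool.Agent.H34.TDGlue
  Pool.Agent.H34.SimDefs

variable {V : Type} [Finite V] {G : SimpleGraph V}

noncomputable def al (G : SimpleGraph V) (S : Set V) : ℕ := (G.induce S).indepNum

theorem al_le_iff {S : Set V} {k : ℕ} :
    al G S ≤ k ↔ ∀ s : Finset V, (↑s : Set V) ⊆ S → G.IsIndepSet s → s.card ≤ k :=
  indepNum_induce_le_iff G S k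

theorem card_le_al {S : Set V} {s : Finset V} (h : (↑s : Set V) ⊆ S) (hi : G.IsIndepSet s) :
    s.card ≤ al G S := al_le_iff.1 le_rfl s h hi

theorem al_mono {S T : Set V} (h : S ⊆ T) : al G S ≤ al G T :=
  al_le_iff.2 fun _ hs hi => card_le_al (hs.trans h) hi

theorem exists_al (S : Set V) : ∃ s : Finset V, (↑s : Set V) ⊆ S ∧ G.IsIndepSet s ∧
    s.card = al G S := by
  by_cases h0 : al G S = 0
  · exact ⟨∅, by simp, by simp, by simp [h0]⟩
  by_contra hc
  push Not at hc
  have : al G S ≤ al G S - 1 := al_le_iff.2 fun s hs hi => by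
    have := card_le_al hs hi
    have := hc s hs hi
    omega
  omega

theorem al_union (S T : Set V) : al G (S ∪ T) ≤ al G S + al G T := by
  classical
  refine al_le_iff.2 fun s hs hi => ?_
  have h1 : (s.filter (· ∈ S)).card ≤ al G S :=
    card_le_al (fun x hx => by simpa using (Finset.mem_filter.1 hx).2)
      (hi.mono (Finset.coe_subset.2 (Finset.filter_subset _ _)))
  have h2 : (s.filter (· ∉ S)).card ≤ al G T :=
    card_le_al (fun x hx => (hs (Finset.mem_filter.1 hx).1).resolve_left (Finset.mem_filter.1 hx).2)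
      (hi.mono (Finset.coe_subset.2 (Finset.filter_subset _ _)))
  have := Finset.card_filter_add_card_filter_not (s := s) (· ∈ S)
  omega

theorem al_add {S T U : Set V} (hS : S ⊆ U) (hT : T ⊆ U) (hd : Disjoint S T)
    (he : ∀ a ∈ S, ∀ b ∈ T, ¬ G.Adj a b) : al G S + al G T ≤ al G U := by
  classical
  obtain ⟨s, h1, h2, h3⟩ := exists_al (G := G) S
  obtain ⟨t, h4, h5, h6⟩ := exists_al (G := G) T
  rw [← h3, ← h6, ← Finset.card_union_of_disjoint (Finset.disjoint_coe.1 (hd.mono h1 h4))]
  refine card_le_al (by simpa using ⟨h1.trans hS, h4.trans hT⟩) ?_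
  intro x hx y hy hxy
  simp only [Finset.coe_union, Set.mem_union] at hx hy
  rcases hx with hx | hx <;> rcases hy with hy | hy
  · exact h2 hx hy hxy
  · exact he _ (h1 hx) _ (h4 hy)
  · exact fun h => he _ (h1 hy) _ (h4 hx) h.symm
  · exact h5 hx hy hxy

theorem al_subsingleton {S : Set V} (h : S.Subsingleton) : al G S ≤ 1 :=
  al_le_iff.2 fun _ hs _ => Finset.card_le_one.2 fun _ ha _ hb => h (hs ha) (hs hb)

theorem al_biUnion {ι : Type} (s : Finset ι) (f : ι → Set V) (k : ℕ) (h : ∀ i ∈ s, al G (f i) ≤ k) :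
    al G (⋃ i ∈ s, f i) ≤ s.card * k := by
  classical
  induction s using Finset.induction_on with
  | empty =>
    refine al_le_iff.2 fun s hs _ => ?_
    have : s = ∅ := by simpa using hs
    simp [this]
  | insert a s ha ih =>
    rw [Finset.set_biUnion_insert, Finset.card_insert_of_notMem ha]
    have h1 := al_union (G := G) (f a) (⋃ i ∈ s, f i)
    have h2 := ih fun i hi => h i (Finset.mem_insert_of_mem hi)
    have h3 := h a (Finset.mem_insert_self _ _)
    nlinarith

theorem al_nbhd {d : ℕ} (hd : 2 ≤ d)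
    (hG : ¬ (completeBipartiteGraph (Fin 1) (Fin d)).IsIndContained G) (v : V) :
    al G {u | u = v ∨ G.Adj v u} ≤ d - 1 := by
  classical
  refine al_le_iff.2 fun s hs hi => ?_
  by_cases hv : v ∈ s
  · have : s.card ≤ 1 := Finset.card_le_one.2 fun a ha b hb => by
      have k : ∀ a ∈ s, a = v := fun a ha => by
        rcases hs ha with h | h
        · exact h
        · exact absurd h (hi hv ha h.ne)
      rw [k a ha, k b hb]
    omega
  by_contra hc
  obtain ⟨t, hts, ht⟩ := Finset.exists_subset_card_eq (s := s) (n := d) (by omega)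
  let e : Fin d ≃ t := (Finset.equivFinOfCardEq ht).symm
  have hadj : ∀ i, G.Adj v (e i) := fun i =>
    (hs (hts (e i).2)).resolve_left fun h => hv (h ▸ hts (e i).2)
  refine hG ⟨⟨⟨Sum.elim (fun _ => v) fun i => e i, ?_⟩, ?_⟩⟩
  · rintro (a | a) (b | b) h
    · congr 1; exact Subsingleton.elim _ _
    · exact absurd h (hadj b).ne
    · exact absurd h (hadj a).ne'
    · congr 1; exact e.injective (Subtype.ext h)
  · rintro (a | a) (b | b)
    · simp
    · simp [hadj]
    · simp [(hadj a).symm]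
    · simp only [Function.Embedding.coeFn_mk, Sum.elim_inr, completeBipartiteGraph_adj]
      simp only [Sum.isLeft_inr, Sum.isRight_inr, Bool.false_eq_true, false_and, and_false, or_self,
        iff_false]
      intro h
      exact hi (hts (e a).2) (hts (e b).2) h.ne h

theorem exists_cover {d k : ℕ} (hd : 2 ≤ d)
    (hG : ¬ (completeBipartiteGraph (Fin 1) (Fin d)).IsIndContained G) (A : Set V)
    (hA : sim G A ≤ k) :
    ∃ S : Set V, al G S ≤ 2 * k * (d - 1) ∧ ∀ a ∈ A, ∀ b ∉ A, G.Adj a b → a ∈ S ∨ b ∈ S := by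
  classical
  have := Fintype.ofFinite V
  have hb : BddAbove {n | ∃ M, IsCutMatching G A M ∧ M.card = n} :=
    ⟨Fintype.card (V × V), by rintro _ ⟨M, -, rfl⟩; exact Finset.card_le_univ _⟩
  obtain ⟨M, hM, hc⟩ := Nat.sSup_mem (s := {n | ∃ M, IsCutMatching G A M ∧ M.card = n})
    ⟨0, ∅, ⟨by simp, by simp⟩, rfl⟩ hb
  have hmax : ∀ M', IsCutMatching G A M' → M'.card ≤ M.card := fun M' h =>
    hc ▸ le_csSup hb ⟨M', h, rfl⟩
  refine ⟨⋃ p ∈ M, ({u | u = p.1 ∨ G.Adj p.1 u} ∪ {u | u = p.2 ∨ G.Adj p.2 u}), ?_, ?_⟩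
  · refine (al_biUnion M _ (2 * (d - 1)) fun p _ => ?_).trans ?_
    · have h1 := al_nbhd hd hG p.1
      have h2 := al_nbhd hd hG p.2
      have := al_union (G := G) {u | u = p.1 ∨ G.Adj p.1 u} {u | u = p.2 ∨ G.Adj p.2 u}
      omega
    · have : M.card ≤ k := hc ▸ hA
      nlinarith [Nat.zero_le (d - 1)]
  · intro a ha b hb' hab
    by_contra hn
    simp only [Set.mem_iUnion, Set.mem_union, Set.mem_setOf_eq, not_or, not_exists] at hn
    have hnm : (a, b) ∉ M := fun h => (hn.1 _ h).1.1 rfl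
    have : IsCutMatching G A (insert (a, b) M) := by
      constructor
      · intro p hp
        rcases Finset.mem_insert.1 hp with rfl | hp
        · exact ⟨ha, hb', hab⟩
        · exact hM.1 p hp
      · have key : ∀ q ∈ M, ∀ x ∈ ({a, b} : Set V), ∀ y ∈ ({q.1, q.2} : Set V),
            x ≠ y ∧ ¬ G.Adj y x := by
          intro q hq x hx y hy
          have h1 := hn.1 q hq
          have h2 := hn.2 q hq
          rcases hx with rfl | rfl <;> rcases hy with rfl | rfl
          · exact h1.1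
          · exact h1.2
          · exact h2.1
          · exact h2.2
        intro p hp q hq hpq
        rcases Finset.mem_insert.1 hp with rfl | hp <;> rcases Finset.mem_insert.1 hq with rfl | hq
        · exact absurd rfl hpq
        · intro x hx y hy
          exact ⟨(key q hq x hx y hy).1, fun h => (key q hq x hx y hy).2 h.symm⟩
        · intro x hx y hy
          exact ⟨(key p hp y hy x hx).1.symm, (key p hp y hy x hx).2⟩
        · exact hM.2 p hp q hq hpq
    have := hmax _ this
    rw [Finset.card_insert_of_notMem hnm] at this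
    omega

section tree
variable {N : Type} {T : SimpleGraph N}

def comp (T : SimpleGraph N) (s t : N) : Set N := {x | (T.deleteEdges {s(s, t)}).Reachable s x}

theorem not_mem_comp (hT : T.IsTree) {s t : N} (h : T.Adj s t) : t ∉ comp T s t :=
  isAcyclic_iff_forall_adj_isBridge.1 hT.isAcyclic h

theorem comp_disj (hT : T.IsTree) {s t x : N} (h : T.Adj s t) (h1 : x ∈ comp T s t)
    (h2 : x ∈ comp T t s) : False := by
  refine not_mem_comp hT h (Reachable.trans h1 ?_)
  have : s(s, t) = s(t, s) := Sym2.eq_swap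
  rw [this]
  exact Reachable.symm h2

theorem comp_sub (hT : T.IsTree) {s u w : N} (h : T.Adj s u) (hw : w ≠ s) :
    comp T s u ⊆ comp T u w := by
  intro x hx
  have hx' := (reachable_iff_reflTransGen _ _).1 hx
  induction hx' with
  | refl =>
    refine Adj.reachable ?_
    simp only [deleteEdges_adj, h.symm, Set.mem_singleton_iff, true_and, Sym2.eq_iff]
    have := h.ne
    tauto
  | @tail y z h1 h2 ih =>
    have hy : y ∈ comp T s u := (reachable_iff_reflTransGen _ _).2 h1
    refine Reachable.trans (ih hy) (Adj.reachable ?_)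
    have n1 : y ≠ u := fun e => not_mem_comp hT h (e ▸ hy)
    have n2 : z ≠ u := fun e => not_mem_comp hT h (e ▸ hx)
    simp only [deleteEdges_adj, Set.mem_singleton_iff, Sym2.eq_iff] at h2 ⊢
    exact ⟨h2.1, by tauto⟩

theorem comp_cover (hT : T.IsTree) (u x : N) : x = u ∨ ∃ w, T.Adj w u ∧ x ∈ comp T w u := by
  have hx := (reachable_iff_reflTransGen _ _).1 (hT.connected u x)
  induction hx with
  | refl => exact Or.inl rfl
  | @tail y z _ h2 ih =>
    by_cases hz : z = u
    · exact Or.inl hz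
    right
    by_cases hy : y = u
    · exact ⟨z, hy ▸ h2.symm, Reachable.refl _⟩
    obtain ⟨w, hw, hyw⟩ := ih.resolve_left hy
    refine ⟨w, hw, Reachable.trans hyw (Adj.reachable ?_)⟩
    simp only [deleteEdges_adj, Set.mem_singleton_iff, Sym2.eq_iff]
    exact ⟨h2, by tauto⟩

theorem exists_edge [Finite N] {L : V → N} (h : IsBranchDecomp T L) (W : Set V) (t : ℕ)
    (hW : 3 * t + 1 < al G W) :
    ∃ s u, T.Adj s u ∧ t < al G (W ∩ side T L s u) ∧ t < al G (W \ side T L s u) := by
  classical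
  by_contra hc
  push Not at hc
  have flip : ∀ s u, T.Adj s u → t < al G (W ∩ side T L s u) → al G (W ∩ side T L u s) ≤ t :=
    fun s u hsu hl => le_trans
      (al_mono fun x hx => And.intro hx.1 fun hx' => comp_disj h.tree hsu hx' hx.2) (hc s u hsu hl)
  have fin : ∀ u, (∀ w, T.Adj w u → al G (W ∩ side T L w u) ≤ t) → False := by
    intro u hu
    have hfin : (T.neighborSet u).Finite := Set.toFinite _
    have h1 := al_biUnion (G := G) hfin.toFinset (fun w => W ∩ side T L w u) t
      fun w hw => hu w (Adj.symm (by simpa using hw))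
    have h2 : hfin.toFinset.card ≤ 3 := by rw [← Set.ncard_eq_toFinset_card _ hfin]; exact h.deg u
    have h3 : al G {v | L v = u} ≤ 1 :=
      al_subsingleton fun a ha b hb => h.inj (ha.trans hb.symm)
    have h4 : W ⊆ {v | L v = u} ∪ ⋃ w ∈ hfin.toFinset, W ∩ side T L w u := by
      intro v hv
      rcases comp_cover h.tree u (L v) with h5 | ⟨w, h5, h6⟩
      · exact Or.inl h5
      · right
        simp only [Set.mem_iUnion]
        exact ⟨w, by simpa using h5.symm, hv, h6⟩
    have h5 := (al_mono (G := G) h4).trans (al_union _ _)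
    nlinarith
  by_cases he : ∃ s u, T.Adj s u
  · obtain ⟨s, u, hsu⟩ := he
    have hne : {p : N × N | T.Adj p.1 p.2 ∧ al G (W ∩ side T L p.1 p.2) ≤ t}.Nonempty := by
      by_cases h1 : al G (W ∩ side T L s u) ≤ t
      · exact ⟨(s, u), hsu, h1⟩
      · exact ⟨(u, s), hsu.symm, flip s u hsu (by omega)⟩
    obtain ⟨⟨s, u⟩, ⟨hsu, hs⟩, hmax⟩ := Set.exists_max_image _
      (fun p : N × N => (comp T p.1 p.2).ncard) (Set.toFinite _) hne
    refine fin u fun w hw => ?_
    by_cases hws : w = s
    · exact hws ▸ hs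
    refine flip u w hw.symm ?_
    by_contra hle
    have h1 := hmax (u, w) ⟨hw.symm, by simpa using hle⟩
    have h2 : comp T s u ⊂ comp T u w :=
      ⟨comp_sub h.tree hsu hws, fun h3 => not_mem_comp h.tree hsu (h3 (Reachable.refl _))⟩
    have := Set.ncard_lt_ncard h2 (Set.toFinite _)
    simp only at h1
    omega
  · obtain ⟨u⟩ := h.tree.connected.nonempty
    exact fin u fun w hw => absurd ⟨w, u, hw⟩ he

end tree

theorem recursion (w : ℕ)
    (hsep : ∀ W : Set V, 6 * w + 1 < al G W → ∃ A S : Set V, 2 * w < al G (W ∩ A) ∧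
      2 * w < al G (W \ A) ∧ al G S ≤ w ∧ ∀ a ∈ A, ∀ b ∉ A, G.Adj a b → a ∈ S ∨ b ∈ S)
    (n : ℕ) : ∀ U W : Set V, W ⊆ U → (U \ W).ncard ≤ n → al G W ≤ 6 * w + 2 →
      TD G (fun S => (G.induce S).indepNum ≤ 7 * w + 2) U W := by
  induction n using Nat.strong_induction_on with
  | _ n ih =>
  have small : ∀ U W : Set V, W ⊆ U → (U \ W).ncard ≤ n → al G W ≤ 6 * w + 1 →
      TD G (fun S => (G.induce S).indepNum ≤ 7 * w + 2) U W := by
    intro U W hWU hn hW
    by_cases hU : U ⊆ W
    · have : U = W := hU.antisymm hWU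
      subst this
      exact TD.single (show al G U ≤ _ by omega)
    obtain ⟨v, hv, hvW⟩ := Set.not_subset.1 hU
    have hlt : (U \ (W ∪ {v})).ncard < (U \ W).ncard :=
      Set.ncard_lt_ncard ⟨fun x hx => ⟨hx.1, fun h => hx.2 (Or.inl h)⟩,
        fun h => (h ⟨hv, hvW⟩).2 (Or.inr rfl)⟩ (Set.toFinite _)
    refine (ih _ (lt_of_lt_of_le hlt hn) U (W ∪ {v}) (by simp [Set.insert_subset_iff, hv, hWU])
      le_rfl ?_).mono Set.subset_union_left
    have h1 := al_union (G := G) W {v}
    have h2 := al_subsingleton (G := G) (Set.subsingleton_singleton (a := v))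
    omega
  intro U W hWU hn hW
  by_cases hW' : al G W ≤ 6 * w + 1
  · exact small U W hWU hn hW'
  obtain ⟨A, S, h1, h2, h3, h4⟩ := hsep W (by omega)
  have a1 : al G (W ∩ A) ≤ al G ((W ∩ A) \ S) + al G S :=
    (al_mono fun x hx => by by_cases h : x ∈ S <;> simp [h, hx.1, hx.2]).trans (al_union _ _)
  have a2 : al G (W \ A) ≤ al G ((W \ A) \ S) + al G S :=
    (al_mono fun x hx => by by_cases h : x ∈ S <;> simp [h, hx.1, hx.2]).trans (al_union _ _)
  have a3 : al G ((W ∩ A) \ S) + al G ((W \ A) \ S) ≤ al G W :=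
    al_add (fun x hx => hx.1.1) (fun x hx => hx.1.1)
      (Set.disjoint_left.2 fun x hx hy => hy.1.2 hx.1.2)
      fun a ha b hb hab => (h4 a ha.1.2 b hb.1.2 hab).elim ha.2 hb.2
  have b1 : al G (((W ∩ A) \ S) ∪ (S ∩ U)) ≤ 6 * w + 1 := by
    have := al_union (G := G) ((W ∩ A) \ S) (S ∩ U)
    have := al_mono (G := G) (Set.inter_subset_left (s := S) (t := U))
    omega
  have b2 : al G (((W \ A) \ S) ∪ (S ∩ U)) ≤ 6 * w + 1 := by
    have := al_union (G := G) ((W \ A) \ S) (S ∩ U)
    have := al_mono (G := G) (Set.inter_subset_left (s := S) (t := U))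
    omega
  have b0 : al G (W ∪ (S ∩ U)) ≤ 7 * w + 2 := by
    have := al_union (G := G) W (S ∩ U)
    have := al_mono (G := G) (Set.inter_subset_left (s := S) (t := U))
    omega
  have t0 : TD G (fun S => (G.induce S).indepNum ≤ 7 * w + 2) _ _ := TD.single b0
  have t1 := small ((U ∩ A) ∪ (S ∩ U)) (((W ∩ A) \ S) ∪ (S ∩ U)) (by grind)
    ((Set.ncard_le_ncard (by grind) (Set.toFinite _)).trans hn) b1
  have t2 := small ((U \ A) ∪ (S ∩ U)) (((W \ A) \ S) ∪ (S ∩ U)) (by grind)
    ((Set.ncard_le_ncard (by grind) (Set.toFinite _)).trans hn) b2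
  have hs : ∀ a b, G.Adj a b → G.Adj b a := fun _ _ h => h.symm
  have g1 := t0.glue t1 Set.inter_subset_left (by grind) (by grind)
  have g2 := g1.glue t2 (by grind) (by grind) (by grind)
  have e : W ∪ S ∩ U ∪ (U ∩ A ∪ S ∩ U) ∪ (U \ A ∪ S ∩ U) = U := by grind
  rw [e] at g2
  exact g2.mono Set.subset_union_left

theorem main {d k : ℕ} (hd : 2 ≤ d)
    (hG : ¬ (completeBipartiteGraph (Fin 1) (Fin d)).IsIndContained G) (hk : SimWidthLE G k) :
    treeAlpha G ≤ 14 * k * (d - 1) + 2 := by
  have := recursion (G := G) (2 * k * (d - 1)) ?_ _ Set.univ ∅ (Set.empty_subset _) le_rfl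
    ((al_subsingleton Set.subsingleton_empty).trans (by omega))
  · have := this.treeAlpha_le
    nlinarith
  intro W hW
  rcases hk with hk | ⟨N, _, T, L, hb, hs⟩
  · have : Subsingleton V := Finite.card_le_one_iff_subsingleton.1 hk
    have := al_subsingleton (G := G) (S := W) (Set.subsingleton_of_subsingleton)
    omega
  obtain ⟨s, u, hsu, h1, h2⟩ := exists_edge (G := G) hb W (2 * (2 * k * (d - 1))) (by omega)
  obtain ⟨S, h3, h4⟩ := exists_cover hd hG _ (hs s u hsu)
  exact ⟨_, S, h1, h2, h3, h4⟩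

end Pool.Agent.H34.Sim
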