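import Mathlib
import Pool.Agent.H34.ChiB
import Pool.Agent.H34.Sim

namespace Pool.Agent.H34.ChiC
open Finset Pool.Agent.H34.ChiA Pool.Agent.H34.ChiB

variable {V : Type} {G : SimpleGraph V}
variable {U C0 C : Set V} {q k n c t : ℕ} {ρ : ℕ → ℕ} {I J : Finset ℕ} {Q : ℕ → Finset V}
  {N B : ℕ → Set V} {o : ℕ → ℕ} {μ : ℕ → ℕ → V}

theorem manyLevels [Finite V] (hx : Ctx k c t ρ G U) (hU : C0 ⊆ U)
    (h : St G C0 q k n I J Q N B o μ C) (I' : Finset ℕ) (h1 : I' ⊆ I) (h2 : I'.card = 2 * k + 1)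
    (h3 : ∀ j ∈ I', ∃ x ∈ Q j, ∀ i ∈ I', i < j → μ i j = x) : Col G C (3 * (k * c) + t) := by
  classical
  by_contra hn
  haveI : Nonempty V := ⟨(C.eq_empty_or_nonempty.resolve_left fun e => hn (e ▸ col_empty _)).some⟩
  choose! x x1 x2 using h3
  have key : ∀ X, Cut G U X k → ¬ Col G (C ∩ X) (k * c) →
      (I'.filter fun i => x i ∉ X).card ≤ k := fun X a1 a2 => by
    obtain ⟨v, hv, a3⟩ := a1.interior hx.loc (h.sub.trans hU) a2
    have := fun i (hi : i ∈ I') => h.cov i (Or.inl (h1 hi)) v hv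
    choose! m m1 m2 using this
    refine a1 ℕ _ m x (fun i hi => ?_) fun i hi j hj hij => ?_
    · obtain ⟨b1, b2⟩ := mem_filter.1 hi
      have b3 := h.qs i (Or.inl (h1 b1))
      have b4 := hU (b3.2.2.2 (m1 i b1))
      exact ⟨b4, a3 _ b4 (m2 i b1), hU (b3.1 (x1 i b1)), b2,
        (h.qn i (Or.inl (h1 b1)) _ (x1 i b1) _ (m1 i b1)).symm⟩
    · have b1 := (mem_filter.1 hi).1
      have b2 := (mem_filter.1 hj).1
      rcases lt_or_gt_of_ne hij with e | e
      · exact fun a => (h.anti i (h1 b1) j (h1 b2) e).2 _ (m1 i b1) (x2 j b2 i b1 e ▸ a.symm)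
      · exact fun a => h.later j (h1 b2) i (h1 b1) e _ (x1 j b2) _ (m1 i b1) a.symm
  obtain ⟨X, a1, a2, a3⟩ := hx.bal _ C (h.sub.trans hU) hn
  have b1 := key X a1 a2
  have b2 := key Xᶜ a1.compl a3
  have b3 := card_filter_add_card_filter_not (s := I') (fun i => x i ∉ X)
  simp only [Set.mem_compl_iff] at b2
  omega

theorem manyRecords [Finite V] (hx : Ctx k c t ρ G U) (hU : C0 ⊆ U)
    (h : St G C0 (q + 1) k n I J Q N B o μ C) (i0 : ℕ) (hi : i0 ∈ I) (J0 : Finset ℕ) (h1 : J0 ⊆ J)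
    (h2 : J0.card = k + 1) (h3 : ∀ j ∈ J0, o j = i0) : Col G C (ρ (k * c)) := by
  classical
  by_contra hn
  obtain ⟨x, hxQ⟩ := card_pos.1 (show 0 < (Q i0).card by rw [(h.qs i0 (Or.inl hi)).2.1]; omega)
  obtain ⟨X, a1, a2, a3⟩ := hx.red (k * c) C {d | d = x ∨ ∃ j ∈ J0, d ∈ B j} x (h.sub.trans hU)
    (by
      rintro d (rfl | ⟨j, hj, hd⟩)
      · exact hU ((h.qs i0 (Or.inl hi)).1 hxQ)
      · exact hU ((h.own j (h1 hj)).2.1 hd))
    (by
      rintro d (rfl | ⟨j, hj, hd⟩)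
      · exact h.qc i0 hi _ hxQ
      · exact (h.own j (h1 hj)).2.2.2.1 d hd)
    (by
      rintro X hX ⟨b, hb, rfl | ⟨j, hj, hd⟩⟩
      · exact absurd hb hX
      · exact ⟨b, Or.inr ⟨j, hj, hd⟩, x, Or.inl rfl, hb, hX,
          ((h.own j (h1 hj)).2.2.1 x (by rw [h3 j hj]; exact hxQ) b hd).symm⟩) hn
  obtain ⟨v, hv, a4⟩ := a1.interior hx.loc (h.sub.trans hU) a3
  haveI : Nonempty V := ⟨v⟩
  have := fun j (hj : j ∈ J0) => h.cov j (Or.inr (h1 hj)) v hv
  choose! α m1 m2 using this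
  have : ∀ j ∈ J0, ∃ b ∈ B j, G.Adj (α j) b ∧ ∀ i ∈ J0.filter (· < j), ¬ G.Adj (α i) b :=
    fun j hj => h.pick j (h1 hj) _ (m1 j hj) _ ((filter_subset _ _).trans h1) (by
      have : (J0.filter (· < j)).card < J0.card :=
        card_lt_card (filter_ssubset.2 ⟨j, hj, lt_irrefl j⟩)
      omega) (fun i hi => ⟨(mem_filter.1 hi).2, by rw [h3 j hj, h3 i (mem_filter.1 hi).1]⟩) α
      fun i hi => m1 i (mem_filter.1 hi).1
  choose! b b1 b2 b3 using this
  have := a1 ℕ J0 α b (fun j hj => by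
    have b4 := hU ((h.qs j (Or.inr (h1 hj))).2.2.2 (m1 j hj))
    exact ⟨b4, a4 _ b4 (m2 j hj), hU ((h.own j (h1 hj)).2.1 (b1 j hj)),
      fun e => a2 ⟨_, e, Or.inr ⟨j, hj, b1 j hj⟩⟩, b2 j hj⟩) fun i hi j hj hij => by
    rcases lt_or_gt_of_ne hij with e | e
    · exact b3 j hj i (mem_filter.2 ⟨hi, e⟩)
    · exact fun a => h.bl j (h1 hj) i (h1 hi) e _ (b1 j hj) _ (m1 i hi) a.symm
  omega

theorem step {s T S P : ℕ} (hc : ∀ v ∈ U, Col G {u | u ∈ U ∧ G.Adj v u} c) (hU : C0 ⊆ U)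
    (hn : ¬ Cov G C0 (q + 1 + 1) s) (h : St G C0 (q + 1) k n I J Q N B o μ C) (hP : I.card ≤ P)
    (hT : (k + 1) * (s + (q + 1 + 1) * c) ≤ T)
    (hS : ∀ C' ⊆ U, ¬ Col G C' S → Cov G C' (q + 1) ((q + 1) ^ P * T + P * T))
    (hC : ¬ Col G C (2 ^ P * S)) :
    ∃ I' J' Q' N' B' o' μ' C', St G C0 (q + 1) k (n + 1) I' J' Q' N' B' o' μ' C' ∧
      I'.card + J'.card = I.card + J.card + 1 ∧ ¬ Col G C' T := by
  classical
  let hv : ℕ → V → Prop := fun i v =>
    ¬ Col G {u | u ∈ C0 ∧ ∃ m ∈ N i, G.Adj v m ∧ G.Adj m u} ((k + 1) * (s + (q + 1 + 1) * c))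
  obtain ⟨τ, -, h1⟩ := pattern (G := G) (univ : Finset Bool) (fun i b v => hv i v ↔ b = true) S I C
    (fun v _ i _ => ⟨decide (hv i v), mem_univ _, by simp⟩)
    (fun a => hC (a.mono subset_rfl (Nat.mul_le_mul_right _ (by
      simpa using Nat.pow_le_pow_right (by omega) hP))))
  obtain ⟨Q', N', C', a1, a2, a3, a4, a5, a6, a7, a8, a9⟩ :=
    hS _ (fun v hv => hU (h.sub hv.1)) h1
  have c1 : ↑Q' ⊆ C := fun v hv => (a1 hv).1
  have c4 : N' ⊆ C := fun v hv => (a4 hv).1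
  have c5 : C' ⊆ C := fun v hv => (a5 hv).1
  obtain ⟨x0, hx0⟩ := card_pos.1 (show 0 < Q'.card by omega)
  have nI : n ∉ I := fun a => lt_irrefl _ (h.lt n (Or.inl a))
  have nJ : n ∉ J := fun a => lt_irrefl _ (h.lt n (Or.inr a))
  by_cases hr : ∃ i ∈ I, ¬ Col G {v | v ∈ C' ∧ ∀ m ∈ N i, G.Adj m v → ∀ x ∈ Q', G.Adj x m} T
  · obtain ⟨i0, b1, b2⟩ := hr
    have hx : hv i0 x0 := fun a => b2 (a.mono (fun v hv => by
      obtain ⟨m, d1, d2⟩ := h.cov i0 (Or.inl b1) v (c5 hv.1)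
      exact ⟨h.sub (c5 hv.1), m, d1, hv.2 m d1 d2 x0 hx0, d2⟩) hT)
    have ht : τ i0 = true := ((a1 hx0).2 i0 b1).1 hx
    refine ⟨_, _, _, _, _, _, _, _, h.addRecord c1 a2 a3 c4 (fun v hv => c5 hv.1) a6
      (fun v hv => a8 v hv.1) i0 b1 (fun v hv => hv.2) ?_,
      by rw [card_insert_of_notMem nJ]; omega, b2⟩
    intro a ha F hF f1 f2 α f3
    by_contra hb
    refine ((a4 ha).2 i0 b1).2 ht (((light hc hU hn Q' (c1.trans h.sub) a2 a3 a (h.sub (c4 ha))
      fun x hx => a6 x hx a ha).union (col_cover F _ _ fun j hj =>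
        light hc hU hn (Q j) (h.qs j (Or.inr (hF hj))).1 (h.qs j (Or.inr (hF hj))).2.1
          (h.qs j (Or.inr (hF hj))).2.2.1 (α j) ((h.qs j (Or.inr (hF hj))).2.2.2 (f3 j hj))
          fun x hx => h.qn j (Or.inr (hF hj)) x hx _ (f3 j hj))).mono ?_ ?_)
    · rintro u ⟨d1, m, d2, d3, d4⟩
      have d5 := (h.qs i0 (Or.inl b1)).2.2.2 d2
      by_cases e : ∀ x ∈ Q', G.Adj x m
      · exact Or.inl ⟨d1, m, d5, d4, d3, e⟩
      · push Not at e
        have : ∃ j ∈ F, G.Adj (α j) m := by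
          by_contra hz
          push Not at hz
          exact hb ⟨m, d2, e, d3, hz⟩
        obtain ⟨j, d6, d7⟩ := this
        exact Or.inr ⟨j, d6, d1, m, d5, d4, d7,
          fun x hx => (h.own j (hF d6)).2.2.2.2 x hx m (by rw [f2 j d6]; exact d2)⟩
    · nlinarith [Nat.mul_le_mul_right (s + (q + 1 + 1) * c) f1]
  · push Not at hr
    haveI : Inhabited V := ⟨x0⟩
    obtain ⟨ν, b1, b2⟩ := pattern (G := G) Q'
      (fun i x v => ∃ m ∈ N i, G.Adj m v ∧ ¬ G.Adj x m) T I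
      {v | v ∈ C' ∧ ∀ i ∈ I, ∃ x ∈ Q', ∃ m ∈ N i, G.Adj m v ∧ ¬ G.Adj x m} (fun v hv => hv.2)
      (fun a => a9 ((a.union (col_cover I _ T hr)).mono (fun v hv => by
        by_cases e : ∀ i ∈ I, ∃ x ∈ Q', ∃ m ∈ N i, G.Adj m v ∧ ¬ G.Adj x m
        · exact Or.inl ⟨hv, e⟩
        · push Not at e
          obtain ⟨i, d1, d2⟩ := e
          exact Or.inr ⟨i, d1, hv, fun m d3 d4 x d5 => d2 x d5 m d3 d4⟩)
        (Nat.add_le_add (Nat.mul_le_mul_right _ (by
          rw [a2]; exact Nat.pow_le_pow_right (by omega) hP)) (Nat.mul_le_mul_right _ hP))))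
    exact ⟨_, _, _, _, _, _, _, _, h.addLevel c1 a2 a3 c4 (fun v hv => c5 hv.1.1) a6
      (fun x hx v hv => a7 x hx v hv.1.1) (fun v hv => a8 v hv.1.1) ν b1 (fun v hv => hv.2),
      by rw [card_insert_of_notMem nI]; omega, b2⟩

theorem E_succ (k c t : ℕ) (ρ : ℕ → ℕ) (q : ℕ) (hE : E k c t ρ (q + 1)) :
    E k c t ρ (q + 1 + 1) := by
  classical
  intro s
  obtain ⟨P, hP⟩ := majority q (2 * k + 1)
  have main : ∀ m, ∃ T, ∀ (V : Type) [Finite V] (G : SimpleGraph V) (U C0 : Set V),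
      Ctx k c t ρ G U → C0 ⊆ U → ¬ Cov G C0 (q + 1 + 1) s → ∀ n I J Q N B o μ C,
      St G C0 (q + 1) k n I J Q N B o μ C → P * (k + 1) ≤ I.card + J.card + m → Col G C T := by
    have big : ∀ (V : Type) [Finite V] (G : SimpleGraph V) (U C0 : Set V),
        Ctx k c t ρ G U → C0 ⊆ U → ∀ n I J Q N B o μ C,
        St G C0 (q + 1) k n I J Q N B o μ C → P ≤ I.card → Col G C (3 * (k * c) + t) := by
      intro V _ G U C0 hx hU n I J Q N B o μ C h hI
      obtain ⟨I', a1, a2, a3⟩ := hP V Q μ I hI (fun i hi => (h.qs i (Or.inl hi)).2.1)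
        fun i hi j hj hij => (h.anti i hi j hj hij).1
      exact manyLevels hx hU h I' a1 a2 a3
    intro m
    induction m with
    | zero =>
      refine ⟨3 * (k * c) + t + ρ (k * c), fun V _ G U C0 hx hU _ n I J Q N B o μ C h hm => ?_⟩
      by_cases hI : P ≤ I.card
      · exact (big V G U C0 hx hU n I J Q N B o μ C h hI).mono subset_rfl (by omega)
      obtain ⟨i, a1, a2⟩ := exists_lt_card_fiber_of_mul_lt_card_of_maps_to (s := J) (t := I)
        (f := o) (n := k) (fun j hj => (h.own j hj).1) (by nlinarith)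
      obtain ⟨J0, a3, a4⟩ := exists_subset_card_eq (show k + 1 ≤ _ from a2)
      exact (manyRecords hx hU h i a1 J0 (a3.trans (filter_subset _ _)) a4
        fun j hj => (mem_filter.1 (a3 hj)).2).mono subset_rfl (by omega)
    | succ m ih =>
      obtain ⟨T, hT⟩ := ih
      obtain ⟨S, hS⟩ := hE ((q + 1) ^ P * (T + (k + 1) * (s + (q + 1 + 1) * c)) +
        P * (T + (k + 1) * (s + (q + 1 + 1) * c)))
      refine ⟨3 * (k * c) + t + 2 ^ P * S, fun V _ G U C0 hx hU hn n I J Q N B o μ C h hm => ?_⟩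
      by_cases hI : P ≤ I.card
      · exact (big V G U C0 hx hU n I J Q N B o μ C h hI).mono subset_rfl (by omega)
      by_contra hC
      obtain ⟨I', J', Q', N', B', o', μ', C', a1, a2, a3⟩ := step hx.loc hU hn h
        (not_le.1 hI).le (Nat.le_add_left _ T) (hS V G U hx)
        fun a => hC (a.mono subset_rfl (by omega))
      exact a3 ((hT V G U C0 hx hU hn _ _ _ _ _ _ _ _ _ a1 (by omega)).mono subset_rfl (by omega))
  obtain ⟨T, hT⟩ := main (P * (k + 1))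
  refine ⟨T, fun V _ G U hx C hC hn => ?_⟩
  by_contra hcov
  rcases C.eq_empty_or_nonempty with rfl | ⟨v, -⟩
  · exact hn (col_empty T)
  exact hn (hT V G U C hx hC hcov 0 ∅ ∅ (fun _ => ∅) (fun _ => ∅) (fun _ => ∅) id (fun _ _ => v) C
    (by constructor <;> simp) (by simp))

theorem E_all (k c t : ℕ) (ρ : ℕ → ℕ) (q : ℕ) : E k c t ρ (q + 1) := by
  induction q with
  | zero => exact E_one k c t ρ
  | succ q ih => exact E_succ k c t ρ q ih

def CF (G : SimpleGraph V) (U : Set V) (w : ℕ) : Prop :=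
  ∀ K : Finset V, ↑K ⊆ U → G.IsClique (K : Set V) → K.card ≤ w

theorem main (k : ℕ) : ∀ w t, ∃ g, ∀ (V : Type) [Finite V] (G : SimpleGraph V) (U R : Set V),
    Dec G U k t R → U ⊆ R → CF G U w → Col G U g := by
  classical
  induction k with
  | zero => exact fun w t => ⟨t, fun V _ G U R h hR _ => h.zero.mono (fun v hv => ⟨hv, hR hv⟩) le_rfl⟩
  | succ k ihk =>
  intro w t
  induction w with
  | zero =>
    refine ⟨0, fun V _ G U R _ _ h => (col_empty 0).mono (fun v hv => ?_) le_rfl⟩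
    simpa using h {v} (by simpa using hv) (by simp)
  | succ w ihw =>
  obtain ⟨c, hc⟩ := ihw
  choose g hg using ihk (w + 1)
  obtain ⟨S, hS⟩ := E_all (k + 1) c t (fun s => 2 * (g (s + t) + s) + t) w 0
  refine ⟨S, fun V _ G U R h hR hw => ?_⟩
  have ins : ∀ (K : Finset V) (v : V), v ∈ U → ↑K ⊆ U → G.IsClique (K : Set V) →
      (∀ x ∈ K, G.Adj v x) → K.card ≤ w := fun K v a1 a2 a3 a4 => by
    have := hw (insert v K) (by rw [coe_insert]; exact Set.insert_subset a1 a2)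
      (by rw [coe_insert]; exact a3.insert fun x hx _ => a4 x hx)
    rw [card_insert_of_notMem fun a => (a4 v a).ne rfl] at this
    omega
  by_contra hn
  obtain ⟨Q, N, C', a1, a2, a3, a4, -, a6, -, a8, a9⟩ := hS V G U
    ⟨fun v hv => hc V G _ R (h.mono fun u hu => hu.1) (fun u hu => hR hu.1)
        fun K b1 b2 => ins K v hv (fun x hx => (b1 hx).1) b2 fun x hx => (b1 hx).2,
      fun s C D x b1 b2 b3 b4 b5 => by
        by_contra hq
        have hq' : ∀ X, Cut G U X (k + 1) → ¬ (X ∩ D).Nonempty → Col G (C ∩ X) s :=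
          fun X d1 d2 => by_contra fun d3 => hq ⟨X, d1, d2, d3⟩
        obtain ⟨X0, d1, d2, d3⟩ := h.side hR b1 _ b5 x
        by_cases e : (X0 ∩ D).Nonempty
        · have := Dec.reduce (X0 := X0) b1 b2 b3 s (fun X hX => b4 X fun a => d2 (hX a)) hq' X0 d1
            subset_rfl e
          exact d3 ((hg _ V G (C ∩ X0) X0 (this.mono Set.inter_subset_left) Set.inter_subset_right
            fun K f1 => hw K fun x hx => b1 (f1 hx).1).mono subset_rfl (by omega))
        · exact d3 ((hq' X0 d1.cut e).mono subset_rfl (by omega)),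
      fun s C b1 b2 => h.balanced hR b1 s b2⟩ U subset_rfl hn
  rcases C'.eq_empty_or_nonempty with rfl | ⟨v, hv⟩
  · exact a9 (col_empty 0)
  obtain ⟨m, b1, -⟩ := a8 v hv
  have := ins Q m (a4 b1) a1 a3 fun x hx => (a6 x hx m b1).symm
  omega

open Pool.Agent.H34.Sim in
theorem tree_dec {M : Type} [Finite M] {T : SimpleGraph M} (hT : T.IsTree) (L : V → M)
    (hd : ∀ x, (T.neighborSet x).ncard ≤ 3) (hL : Function.Injective L)
    (hl : ∀ v, (T.neighborSet (L v)).ncard ≤ 1)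
    (hc : ∀ u w, T.Adj u w → Cut G Set.univ {v | L v ∈ comp T u w} k) :
    Dec G Set.univ k 1 Set.univ := by
  have one : ∀ u (X : Set V), (∀ v ∈ X, L v = u) → Col G (Set.univ ∩ X) 1 := fun u X h =>
    col_subsingleton fun a ha b hb => hL ((h a ha.2).trans (h b hb.2).symm)
  have key : ∀ n u w, T.Adj u w → (comp T u w).ncard = n →
      Dec G Set.univ k 1 {v | L v ∈ comp T u w} := by
    intro n
    induction n using Nat.strong_induction_on with
    | _ n ih =>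
    intro u w huw hn
    have cov : ∀ x ∈ comp T u w, x = u ∨ ∃ z ∈ T.neighborSet u \ {w}, x ∈ comp T z u := by
      intro x hx
      rcases comp_cover hT u x with h | ⟨z, h1, h2⟩
      · exact Or.inl h
      · exact Or.inr ⟨z, ⟨h1.symm, fun e => comp_disj hT huw hx (e ▸ h2)⟩, h2⟩
    have sb : ∀ z ∈ T.neighborSet u \ {w}, comp T z u ⊆ comp T u w := fun z hz =>
      comp_sub hT hz.1.symm fun e => hz.2 e.symm
    have rec' : ∀ z ∈ T.neighborSet u \ {w}, Dec G Set.univ k 1 {v | L v ∈ comp T z u} :=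
      fun z hz => ih _ (hn ▸ Set.ncard_lt_ncard ⟨sb z hz, fun h =>
        not_mem_comp hT hz.1.symm (h (SimpleGraph.Reachable.refl _))⟩ (Set.toFinite _)) z u
        hz.1.symm rfl
    have cd := Set.ncard_diff_singleton_add_one (s := T.neighborSet u) (a := w) huw (Set.toFinite _)
    have h3 := hd u
    by_cases h0 : (T.neighborSet u \ {w}).ncard = 0
    · rw [Set.ncard_eq_zero (Set.toFinite _)] at h0
      refine .leaf _ (hc u w huw) (one u _ fun v hv => (cov _ hv).resolve_right ?_)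
      simp [h0]
    have nu : ∀ v, L v ≠ u := fun v e => by have := hl v; rw [e] at this; omega
    by_cases h1 : (T.neighborSet u \ {w}).ncard = 1
    · obtain ⟨z, hz⟩ := Set.ncard_eq_one.1 h1
      have hz' : z ∈ T.neighborSet u \ {w} := by simp [hz]
      have : {v | L v ∈ comp T u w} = {v | L v ∈ comp T z u} := by
        ext v
        refine ⟨fun hv => ?_, fun hv => sb z hz' hv⟩
        obtain ⟨y, a1, a2⟩ := (cov _ hv).resolve_left (nu v)
        rw [hz] at a1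
        exact a1 ▸ a2
      exact this ▸ rec' z hz'
    obtain ⟨y, z, hyz, hz⟩ := Set.ncard_eq_two.1 (show (T.neighborSet u \ {w}).ncard = 2 by omega)
    have hy' : y ∈ T.neighborSet u \ {w} := by simp [hz]
    have hz' : z ∈ T.neighborSet u \ {w} := by simp [hz]
    refine .node _ _ _ (hc u w huw) ?_ (Set.disjoint_left.2 fun v a1 a2 =>
      comp_disj hT hz'.1 (comp_sub hT hy'.1.symm hyz.symm a1) a2) (rec' y hy') (rec' z hz')
    ext v
    refine ⟨fun hv => ?_, fun hv => hv.elim (fun a => sb y hy' a) fun a => sb z hz' a⟩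
    obtain ⟨x, a1, a2⟩ := (cov _ hv).resolve_left (nu v)
    rw [hz] at a1
    rcases a1 with a1 | a1
    · exact Or.inl (a1 ▸ a2)
    · exact Or.inr (a1 ▸ a2)
  have c0 : Cut G Set.univ Set.univ k := fun ι J a b h1 _ => by
    rcases J.eq_empty_or_nonempty with rfl | ⟨i, hi⟩
    · simp
    · exact absurd trivial (h1 i hi).2.2.2.1
  by_cases he : ∃ u w, T.Adj u w
  · obtain ⟨u, w, h⟩ := he
    refine .node _ _ _ c0 ?_ (Set.disjoint_left.2 fun v a1 a2 => comp_disj hT h a1 a2)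
      (key _ u w h rfl) (key _ w u h.symm rfl)
    ext v
    refine ⟨fun _ => ?_, fun _ => trivial⟩
    rcases comp_cover hT u (L v) with e | ⟨z, a1, a2⟩
    · exact Or.inl (show L v ∈ comp T u w from e ▸ SimpleGraph.Reachable.refl _)
    · by_cases e : w = z
      · exact Or.inr (e ▸ a2)
      · exact Or.inl (comp_sub hT a1 e a2)
  · obtain ⟨u⟩ := hT.connected.nonempty
    refine .leaf _ c0 (one u _ fun v _ => (comp_cover hT u (L v)).resolve_right ?_)
    rintro ⟨z, a1, -⟩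
    exact he ⟨z, u, a1⟩

theorem cut_of_sim (s w : ℕ) : ∃ k, ∀ (V : Type) (G : SimpleGraph V) (X : Set V),
    CF G Set.univ w → (∀ (t : ℕ) (a b : Fin t → V), Function.Injective a → Function.Injective b →
      (∀ i, a i ∈ X) → (∀ i, b i ∉ X) → (∀ i, G.Adj (a i) (b i)) →
      (∀ i j, i ≠ j → ¬ G.Adj (a i) (a j) ∧ ¬ G.Adj (b i) (b j) ∧ ¬ G.Adj (a i) (b j)) → t ≤ s) →
    Cut G Set.univ X k := by
  classical
  obtain ⟨R1, h1⟩ := ramsey (w + 1) (s + 1)
  obtain ⟨R2, h2⟩ := ramsey (w + 1) R1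
  refine ⟨R2, fun V G X hw hs ι J a b a1 a2 => ?_⟩
  by_contra hc
  have nc : ∀ (x : ι → V) (K : Finset ι), K.card = w + 1 →
      ¬ ∀ i ∈ K, ∀ j ∈ K, i ≠ j → G.Adj (x i) (x j) := fun x K b1 b2 => by
    have := hw (K.image x) (Set.subset_univ _) (by
      intro u hu v hv huv
      obtain ⟨i, hi, rfl⟩ := mem_image.1 hu
      obtain ⟨j, hj, rfl⟩ := mem_image.1 hv
      exact b2 i hi j hj fun e => huv (congrArg x e))
    rw [card_image_of_injOn fun i hi j hj e => by_contra fun ne => (b2 i hi j hj ne).ne e] at this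
    omega
  obtain ⟨K, b1, b2, b3⟩ := (h2 ι (fun i j => G.Adj (a i) (a j)) (fun _ _ h => h.symm) J
    (by omega)).resolve_left fun ⟨K, _, c1, c2⟩ => nc a K c1 c2
  obtain ⟨K', d1, d2, d3⟩ := (h1 ι (fun i j => G.Adj (b i) (b j)) (fun _ _ h => h.symm) K
    b2.ge).resolve_left fun ⟨K, _, c1, c2⟩ => nc b K c1 c2
  let e : Fin (s + 1) ≃ K' := (Finset.equivFinOfCardEq d2).symm
  have m : ∀ i, (e i).1 ∈ J := fun i => b1 (d1 (e i).2)
  have ne : ∀ i j, i ≠ j → (e i).1 ≠ (e j).1 := fun i j h f => h (e.injective (Subtype.ext f))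
  have := hs (s + 1) (fun i => a (e i)) (fun i => b (e i))
    (fun i j f => by_contra fun h => a2 _ (m i) _ (m j) (ne i j h) (by
      simp only at f; rw [f]; exact (a1 _ (m j)).2.2.2.2))
    (fun i j f => by_contra fun h => a2 _ (m i) _ (m j) (ne i j h) (by
      simp only at f; rw [← f]; exact (a1 _ (m i)).2.2.2.2))
    (fun i => (a1 _ (m i)).2.1) (fun i => (a1 _ (m i)).2.2.2.1) (fun i => (a1 _ (m i)).2.2.2.2)
    fun i j h => ⟨b3 _ (d1 (e i).2) _ (d1 (e j).2) (ne i j h), d3 _ (e i).2 _ (e j).2 (ne i j h),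
      a2 _ (m i) _ (m j) (ne i j h)⟩
  omega

theorem colorable {g : ℕ} (h : Col G Set.univ g) : G.Colorable g := by
  obtain ⟨f, h1, h2⟩ := h
  exact ⟨SimpleGraph.Coloring.mk (fun v => ⟨f v, h1 v trivial⟩) fun {u v} a e =>
    h2 u trivial v trivial a (congrArg Fin.val e)⟩

end Pool.Agent.H34.ChiC
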