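import Mathlib
import Pool.Agent.H34.MinorDefs

namespace Pool.Agent.H34.CoarseDefs
open Pool.Agent.H34.MinorDefs

/-- The coarseness: the largest number of pairwise edge-disjoint nonplanar subgraphs. -/
noncomputable def coarseness {V : Type} (G : SimpleGraph V) : ℕ :=
  sSup {k : ℕ | ∃ H : Fin k → SimpleGraph V, (∀ i, H i ≤ G) ∧
    (∀ i j, i ≠ j → Disjoint (H i).edgeSet (H j).edgeSet) ∧ ∀ i, ¬ Planar (H i)}

end Pool.Agent.H34.CoarseDefs
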