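import Mathlib
import Pool.Agent.H34.CoarseDefs

namespace Pool.Agent.H34.Coarse
open Pool.Agent.H34.MinorDefs Pool.Agent.H34.CoarseDefs

theorem connected_of_centre {V : Type} (G : SimpleGraph V) (S : Set V) (c : V) (hc : c ∈ S)
    (h : ∀ x ∈ S, x = c ∨ G.Adj c x) : (G.induce S).Connected := by
  have : Nonempty S := ⟨⟨c, hc⟩⟩
  refine ⟨fun x y => ?_⟩
  have key : ∀ z : S, (G.induce S).Reachable ⟨c, hc⟩ z := by
    intro z
    rcases h z.1 z.2 with h1 | h1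
    · have : z = ⟨c, hc⟩ := Subtype.ext h1
      rw [this]
    · exact SimpleGraph.Adj.reachable (by simpa using h1)
  exact (key x).symm.trans (key y)

theorem ncard_le_of_minor {V W : Type} [Finite V] [Inhabited V] (G : SimpleGraph V) (H : SimpleGraph W)
    (h : HasMinor G H) : H.edgeSet.ncard ≤ G.edgeSet.ncard := by
  obtain ⟨f, -, hd, ha⟩ := h
  have key : ∀ e ∈ H.edgeSet, ∃ e' ∈ G.edgeSet, (∀ u ∈ e', ∃ i ∈ e, u ∈ f i) ∧
      ∀ i ∈ e, ∃ u ∈ e', u ∈ f i := by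
    intro e he
    induction e using Sym2.ind with
    | _ i j =>
      obtain ⟨u, hu, v, hv, huv⟩ := ha i j he
      refine ⟨s(u, v), huv, ?_, ?_⟩
      · intro x hx
        rcases Sym2.mem_iff.1 hx with rfl | rfl
        · exact ⟨i, by simp, hu⟩
        · exact ⟨j, by simp, hv⟩
      · intro x hx
        rcases Sym2.mem_iff.1 hx with rfl | rfl
        · exact ⟨u, by simp, hu⟩
        · exact ⟨v, by simp, hv⟩
  classical
  haveI : Nonempty (Sym2 V) := ⟨s(default, default)⟩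
  choose! g hg h1 h2 using key
  have sub : ∀ e1 ∈ H.edgeSet, ∀ e2 ∈ H.edgeSet, g e1 = g e2 → ∀ i ∈ e1, i ∈ e2 := by
    intro e1 he1 e2 he2 hE i hi
    obtain ⟨u, hu, hui⟩ := h2 e1 he1 i hi
    obtain ⟨j, hj, huj⟩ := h1 e2 he2 u (hE ▸ hu)
    by_contra hne
    have : i ≠ j := fun hij => hne (hij ▸ hj)
    exact Set.disjoint_left.1 (hd i j this) hui huj
  refine Set.ncard_le_ncard_of_injOn g hg ?_ (Set.toFinite _)
  intro e1 he1 e2 he2 hE
  exact Sym2.ext fun i => ⟨sub e1 he1 e2 he2 hE i, sub e2 he2 e1 he1 hE.symm i⟩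

theorem nine_le {V : Type} [Finite V] [Inhabited V] (G : SimpleGraph V) (h : ¬ Planar G) :
    9 ≤ G.edgeSet.ncard := by
  classical
  unfold Planar at h
  rw [not_and_or, not_not, not_not] at h
  rcases h with h | h
  · have := ncard_le_of_minor G _ h
    have h2 : (⊤ : SimpleGraph (Fin 5)).edgeSet.ncard = 10 := by
      rw [← SimpleGraph.coe_edgeFinset, Set.ncard_coe_finset,
        SimpleGraph.card_edgeFinset_top_eq_card_choose_two]
      simp [Nat.choose]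
    omega
  · have := ncard_le_of_minor G _ h
    have h2 : 9 ≤ (completeBipartiteGraph (Fin 3) (Fin 3)).edgeSet.ncard := by
      have hi : Function.Injective
          (fun p : Fin 3 × Fin 3 => (s(Sum.inl p.1, Sum.inr p.2) : Sym2 (Fin 3 ⊕ Fin 3))) := by
        intro p q hpq
        simp at hpq
        exact Prod.ext hpq.1 hpq.2
      have := Set.ncard_le_ncard_of_injOn (s := (Set.univ : Set (Fin 3 × Fin 3)))
        (t := (completeBipartiteGraph (Fin 3) (Fin 3)).edgeSet) _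
        (fun p _ => by simp) hi.injOn (Set.toFinite _)
      simpa [Set.ncard_univ] using this
    omega

theorem upper (k : ℕ) (H : Fin k → SimpleGraph (Fin 25))
    (hd : ∀ i j, i ≠ j → Disjoint (H i).edgeSet (H j).edgeSet) (hn : ∀ i, ¬ Planar (H i)) :
    k ≤ 33 := by
  classical
  have h1 : (Finset.univ.biUnion fun i => (H i).edgeFinset).card
      = ∑ i, (H i).edgeFinset.card := by
    apply Finset.card_biUnion
    intro i _ j _ hij
    simpa [Function.onFun, ← Finset.disjoint_coe] using hd i j hij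
  have h2 : (Finset.univ.biUnion fun i => (H i).edgeFinset).card ≤ 300 := by
    have : (Finset.univ.biUnion fun i => (H i).edgeFinset)
        ⊆ (⊤ : SimpleGraph (Fin 25)).edgeFinset := by
      intro e he
      obtain ⟨i, -, hi⟩ := Finset.mem_biUnion.1 he
      exact SimpleGraph.edgeFinset_mono le_top hi
    have h3 := Finset.card_le_card this
    rw [SimpleGraph.card_edgeFinset_top_eq_card_choose_two] at h3
    simpa [Nat.choose] using h3
  have h3 : ∑ _i : Fin k, 9 ≤ ∑ i, (H i).edgeFinset.card := by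
    apply Finset.sum_le_sum
    intro i _
    have := nine_le (H i) (hn i)
    rwa [← SimpleGraph.coe_edgeFinset, Set.ncard_coe_finset] at this
  simp at h3
  omega

def tab : List (List ℕ) :=
[[99, 16, 15, 6, 21, 16, 18, 30, 24, 30, 21, 24, 30, 6, 18, 15, 9, 6, 9, 21, 15, 9, 18, 16, 24], [16, 99, 17, 17, 7, 22, 25, 19, 31, 25, 31, 22, 19, 31, 7, 7, 16, 10, 16, 10, 22, 17, 10, 19, 25], [15, 17, 99, 23, 15, 8, 32, 26, 20, 23, 26, 32, 8, 20, 32, 11, 8, 17, 23, 17, 11, 20, 15, 11, 26], [6, 17, 23, 99, 25, 24, 25, 19, 6, 25, 3, 27, 19, 23, 27, 6, 3, 17, 24, 17, 27, 23, 3, 19, 24], [21, 7, 15, 25, 99, 26, 7, 26, 20, 28, 26, 4, 28, 20, 21, 15, 7, 4, 28, 25, 15, 20, 21, 4, 25], [16, 22, 8, 24, 26, 99, 18, 8, 24, 5, 29, 24, 22, 29, 18, 5, 16, 8, 16, 29, 26, 5, 18, 22, 26], [18, 25, 32, 25, 7, 18, 99, 32, 31, 28, 31, 12, 28, 31, 7, 7, 0, 0, 28, 25, 32, 12, 12, 18, 0], [30, 19, 26, 19, 26, 8, 32,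 99, 30, 13, 29, 32, 8, 29, 32, 1, 8, 1, 30, 29, 26, 19, 13, 13, 1], [24, 31, 20, 6, 20, 24, 31, 30, 99, 30, 14, 27, 30, 6, 27, 2, 2, 6, 24, 31, 27, 14, 20, 14, 2], [30, 25, 23, 25, 28, 5, 28, 13, 30, 99, 3, 5, 13, 23, 28, 11, 3, 13, 30, 25, 11, 23, 3, 11, 5], [21, 31, 26, 3, 26, 29, 31, 29, 14, 3, 99, 4, 29, 14, 21, 14, 9, 4, 9, 31, 26, 9, 21, 4, 3], [24, 22, 32, 27, 4, 24, 12, 32, 27, 5, 4, 99, 22, 27, 12, 5, 12, 10, 24, 10, 32, 5, 10, 22, 4], [30, 19, 8, 19, 28, 22, 28, 8, 30, 13, 29, 22, 99, 29, 28, 2, 2, 8, 30, 29, 22, 19, 13, 13, 2], [6, 31, 20, 23, 20, 29, 31, 29, 6, 23, 14, 27, 29, 99, 27, 6, 0, 0, 23, 31, 27, 14, 20, 14, 0], [18, 7, 32, 27, 21, 18, 7, 32, 27, 28, 21, 12, 28, 27, 99, 1, 7, 1, 28, 21, 32, 12, 12, 18, 1], [15, 7, 11, 6, 15, 5, 7, 1, 2, 11, 14, 5, 2, 6, 1, 99, 7, 6, 2, 11, 1, 14, 15, 14, 5], [9, 16, 8, 3, 7, 16, 0, 8, 2, 3, 9, 12, 2, 0, 7, 7, 99, 8, 2, 0, 9, 12, 12,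 16, 3], [6, 10, 17, 17, 4, 8, 0, 1, 6, 13, 4, 10, 8, 0, 1, 6, 8, 99, 10, 0, 1, 17, 13, 13, 4], [9, 16, 23, 24, 28, 16, 28, 30, 24, 30, 9, 24, 30, 23, 28, 2, 2, 10, 99, 10, 9, 23, 10, 16, 2], [21, 10, 17, 17, 25, 29, 25, 29, 31, 25, 31, 10, 29, 31, 21, 11, 0, 0, 10, 99, 11, 17, 21, 11, 0], [15, 22, 11, 27, 15, 26, 32, 26, 27, 11, 26, 32, 22, 27, 32, 1, 9, 1, 9, 11, 99, 9, 15, 22, 1], [9, 17, 20, 23, 20, 5, 12, 19, 14, 23, 9, 5, 19, 14, 12, 14, 12, 17, 23, 17, 9, 99, 20, 19, 5], [18, 10, 15, 3, 21, 18, 12, 13, 20, 3, 21, 10, 13, 20, 12, 15, 12, 13, 10, 21, 15, 20, 99, 18, 3], [16, 19, 11, 19, 4, 22, 18, 13, 14, 11, 4, 22, 13, 14, 18, 14, 16, 13, 16, 11, 22, 19, 18, 99, 4], [24, 25, 26, 24, 25, 26, 0, 1, 2, 5, 3, 4, 2, 0, 1, 5, 3, 4, 2, 0, 1, 5, 3, 4, 99]]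

def M (u v : Fin 25) : ℕ := (tab.getD u.1 []).getD v.1 99

def blk : List (List (Fin 25)) :=
[[6, 13, 19, 16, 17, 24], [7, 14, 20, 17, 15, 24], [8, 12, 18, 15, 16, 24], [3, 9, 24, 10, 16, 22], [4, 10, 24, 11, 17, 23], [5, 11, 24, 9, 15, 21], [0, 8, 15, 3, 13, 17], [1, 6, 16, 4, 14, 15], [2, 7, 17, 5, 12, 16], [0, 10, 20, 16, 18, 21], [1, 11, 18, 17, 19, 22], [2, 9, 19, 15, 20, 23], [6, 14, 16, 11, 21, 22], [7, 12, 17, 9, 22, 23], [8, 13, 15, 10, 23, 21], [0, 4, 22, 2, 15, 20], [1, 5, 23, 0, 16, 18], [2, 3, 21, 1, 17, 19], [0, 5, 23, 6, 14, 22], [1, 3, 21, 7, 12, 23], [2, 4, 22, 8, 13, 21], [0, 14, 22, 4, 10, 19], [1, 12, 23, 5, 11, 20], [2, 13, 21, 3, 9, 18], [0, 5, 18, 3, 8, 11], [1, 3, 19, 4, 6, 9], [2, 4, 20, 5, 7, 10], [3, 8, 13, 11, 14, 20], [4, 6, 14, 9, 12, 18], [5, 7, 12, 10, 13, 19], [0, 8, 18, 7, 9, 12], [1, 6, 19, 8, 10, 13], [2, 7, 20, 6, 11, 14]]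

def ctr (i : Fin 33) : Fin 3 ⊕ Fin 3 → Fin 25
  | Sum.inl a => (blk.getD i.1 []).getD a.1 0
  | Sum.inr b => (blk.getD i.1 []).getD (3 + b.1) 0

def ext (i : Fin 33) (x : Fin 3 ⊕ Fin 3) : Fin 25 :=
  if x = Sum.inl 0 ∧ 24 ≤ i.1 ∧ i.1 ≤ 26 then 24 else ctr i x

theorem M_symm : ∀ u v : Fin 25, M u v = M v u := by decide +kernel

def Hg (i : Fin 33) : SimpleGraph (Fin 25) where
  Adj u v := u ≠ v ∧ M u v = i.1
  symm := ⟨fun u v h => ⟨h.1.symm, (M_symm v u).trans h.2⟩⟩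
  loopless := ⟨fun _ h => h.1 rfl⟩

instance (i : Fin 33) : DecidableRel (Hg i).Adj := fun u v =>
  inferInstanceAs (Decidable (u ≠ v ∧ M u v = i.1))

theorem c1 : ∀ i x, ext i x = ctr i x ∨ (Hg i).Adj (ctr i x) (ext i x) := by decide +kernel
theorem c2 : ∀ i x y, x ≠ y → ctr i x ≠ ctr i y ∧ ctr i x ≠ ext i y ∧ ext i x ≠ ext i y := by
  decide +kernel
theorem c3 : ∀ i a b, (Hg i).Adj (ctr i (Sum.inl a)) (ctr i (Sum.inr b)) ∨
    (Hg i).Adj (ext i (Sum.inl a)) (ctr i (Sum.inr b)) := by decide +kernel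

theorem nonplanar (i : Fin 33) : ¬ Planar (Hg i) := by
  intro h
  apply h.2
  refine ⟨fun x => {ctr i x, ext i x}, fun x => ?_, fun x y hxy => ?_, fun x y hxy => ?_⟩
  · apply connected_of_centre _ _ (ctr i x) (by simp)
    intro z hz
    rcases hz with rfl | rfl
    · exact Or.inl rfl
    · exact c1 i x
  · have h1 := c2 i x y hxy
    have h2 := c2 i y x hxy.symm
    rw [Set.disjoint_left]
    rintro z (rfl | rfl) (hz | hz)
    · exact h1.1 hz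
    · exact h1.2.1 hz
    · exact h2.2.1 hz.symm
    · exact h1.2.2 hz
  · rcases x with a | a <;> rcases y with b | b
    · simp at hxy
    · rcases c3 i a b with h1 | h1
      · exact ⟨_, by simp, _, by simp, h1⟩
      · exact ⟨_, by simp, _, by simp, h1⟩
    · rcases c3 i b a with h1 | h1
      · exact ⟨_, by simp, _, by simp, h1.symm⟩
      · exact ⟨_, by simp, _, by simp, h1.symm⟩
    · simp at hxy

theorem main : coarseness (⊤ : SimpleGraph (Fin 25)) = 33 := by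
  unfold coarseness
  apply IsGreatest.csSup_eq
  constructor
  · refine ⟨Hg, fun _ => le_top, fun i j hij => ?_, nonplanar⟩
    rw [Set.disjoint_left]
    intro e h1 h2
    induction e using Sym2.ind with
    | _ u v => exact hij (Fin.ext (h1.2.symm.trans h2.2))
  · rintro k ⟨H, -, hd, hn⟩
    exact upper k H hd hn

end Pool.Agent.H34.Coarse
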