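import Mathlib

namespace Pool.Agent.H34.CwDefs

variable {V : Type} [DecidableEq V]

/-- `Built k S H ℓ`: some `k`-expression builds the graph `H` on the vertex set `S`, with final
labelling `ℓ` (only its values on `S` matter). -/
inductive Built (k : ℕ) : Finset V → SimpleGraph V → (V → Fin k) → Prop
  | vertex (v : V) (ℓ : V → Fin k) : Built k {v} ⊥ ℓ
  | union {S₁ S₂ : Finset V} {H₁ H₂ : SimpleGraph V} {ℓ₁ ℓ₂ : V → Fin k} :
      Built k S₁ H₁ ℓ₁ → Built k S₂ H₂ ℓ₂ → Disjoint S₁ S₂ →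
      Built k (S₁ ∪ S₂) (H₁ ⊔ H₂) fun v => if v ∈ S₁ then ℓ₁ v else ℓ₂ v
  | join {S : Finset V} {H : SimpleGraph V} {ℓ : V → Fin k} (a b : Fin k) : a ≠ b →
      Built k S H ℓ →
      Built k S (H ⊔ SimpleGraph.fromRel fun u v => u ∈ S ∧ v ∈ S ∧ ℓ u = a ∧ ℓ v = b) ℓ
  | relabel {S : Finset V} {H : SimpleGraph V} {ℓ : V → Fin k} (a b : Fin k) :
      Built k S H ℓ → Built k S H fun v => if ℓ v = a then b else ℓ v

/-- `G` has clique-width at most `k`. -/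
def CwLE [Fintype V] (G : SimpleGraph V) (k : ℕ) : Prop :=
  IsEmpty V ∨ ∃ ℓ : V → Fin k, Built k Finset.univ G ℓ

end Pool.Agent.H34.CwDefs
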