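import Mathlib
import Pool.Agent.H34.CwDefs
import Pool.Agent.H34.BridgeDefs

namespace Pool.Agent.H34.Cw
open Finset Pool.Agent.H34.CwDefs Pool.Agent.H34.BridgeDefs

variable {V : Type} [DecidableEq V] {k : ℕ}

def Sep (W : Finset V) (m : ℕ) (S : Finset V) (H : SimpleGraph V) (ℓ : V → Fin k) : Prop :=
  (∀ u v, H.Adj u v → u ∈ S) ∧ (m < (S ∩ W).card → ∃ (X : Finset V) (c : V → Fin k), X ⊆ S ∧
    m < (X ∩ W).card ∧ (X ∩ W).card ≤ 2 * m ∧
    ∀ u ∈ X, ∀ v ∈ X, c u = c v → ℓ u = ℓ v ∧ ∀ w ∉ X, (H.Adj u w ↔ H.Adj v w))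

variable {W : Finset V} {m : ℕ}

theorem sep_empty (ℓ : V → Fin k) : Sep W m ∅ ⊥ ℓ := ⟨by simp, by simp⟩

theorem sep_single (hm : 1 ≤ m) (v : V) (ℓ : V → Fin k) : Sep W m {v} ⊥ ℓ := by
  refine ⟨by simp, fun h => ?_⟩
  have := card_le_card (inter_subset_left (s₁ := {v}) (s₂ := W))
  simp only [card_singleton] at this
  omega

theorem sep_union {S₁ S₂ : Finset V} {H₁ H₂ : SimpleGraph V} {ℓ₁ ℓ₂ : V → Fin k}
    (h₁ : Sep W m S₁ H₁ ℓ₁) (h₂ : Sep W m S₂ H₂ ℓ₂) (hd : Disjoint S₁ S₂) :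
    Sep W m (S₁ ∪ S₂) (H₁ ⊔ H₂) fun v => if v ∈ S₁ then ℓ₁ v else ℓ₂ v := by
  have e : ∀ u v, (H₁ ⊔ H₂).Adj u v → u ∈ S₁ ∪ S₂ := by
    rintro u v (h | h)
    · exact mem_union_left _ (h₁.1 _ _ h)
    · exact mem_union_right _ (h₂.1 _ _ h)
  refine ⟨e, fun h => ?_⟩
  by_cases a : m < (S₁ ∩ W).card
  · obtain ⟨X, c, x1, x2, x3, x4⟩ := h₁.2 a
    refine ⟨X, c, x1.trans subset_union_left, x2, x3, fun u hu v hv hc => ?_⟩
    have n : ∀ u ∈ X, ∀ w, ¬ H₂.Adj u w := fun u hu w h =>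
      disjoint_left.1 hd (x1 hu) (h₂.1 _ _ h)
    refine ⟨by simp [x1 hu, x1 hv, (x4 u hu v hv hc).1], fun w hw => ?_⟩
    simp [n u hu, n v hv, (x4 u hu v hv hc).2 w hw]
  by_cases b : m < (S₂ ∩ W).card
  · obtain ⟨X, c, x1, x2, x3, x4⟩ := h₂.2 b
    refine ⟨X, c, x1.trans subset_union_right, x2, x3, fun u hu v hv hc => ?_⟩
    have n' : ∀ u ∈ X, u ∉ S₁ := fun u hu h => disjoint_left.1 hd h (x1 hu)
    have n : ∀ u ∈ X, ∀ w, ¬ H₁.Adj u w := fun u hu w h => n' u hu (h₁.1 _ _ h)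
    refine ⟨by simp [n' u hu, n' v hv, (x4 u hu v hv hc).1], fun w hw => ?_⟩
    simp [n u hu, n v hv, (x4 u hu v hv hc).2 w hw]
  refine ⟨_, _, Subset.refl _, h, ?_, fun u _ v _ hc => ⟨hc, fun w hw => ?_⟩⟩
  · rw [union_inter_distrib_right]
    have := card_union_le (S₁ ∩ W) (S₂ ∩ W)
    omega
  · exact ⟨fun h => absurd (e _ _ h.symm) hw, fun h => absurd (e _ _ h.symm) hw⟩

theorem sep_join {S : Finset V} {H : SimpleGraph V} {ℓ : V → Fin k} (a b : Fin k)
    (h : Sep W m S H ℓ) :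
    Sep W m S (H ⊔ SimpleGraph.fromRel fun u v => u ∈ S ∧ v ∈ S ∧ ℓ u = a ∧ ℓ v = b) ℓ := by
  refine ⟨?_, fun hm => ?_⟩
  · rintro u v (h' | ⟨-, h' | h'⟩)
    · exact h.1 _ _ h'
    · exact h'.1
    · exact h'.2.1
  · obtain ⟨X, c, x1, x2, x3, x4⟩ := h.2 hm
    refine ⟨X, c, x1, x2, x3, fun u hu v hv hc => ⟨(x4 u hu v hv hc).1, fun w hw => ?_⟩⟩
    have n1 : u ≠ w := fun e => hw (e ▸ hu)
    have n2 : v ≠ w := fun e => hw (e ▸ hv)
    simp [(x4 u hu v hv hc).1, (x4 u hu v hv hc).2 w hw, n1, n2, x1 hu, x1 hv]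

theorem sep_relabel {S : Finset V} {H : SimpleGraph V} {ℓ : V → Fin k} (a b : Fin k)
    (h : Sep W m S H ℓ) : Sep W m S H fun v => if ℓ v = a then b else ℓ v := by
  refine ⟨h.1, fun hm => ?_⟩
  obtain ⟨X, c, x1, x2, x3, x4⟩ := h.2 hm
  exact ⟨X, c, x1, x2, x3, fun u hu v hv hc =>
    ⟨by simp only [(x4 u hu v hv hc).1], (x4 u hu v hv hc).2⟩⟩

theorem Built.sep (hm : 1 ≤ m) {S : Finset V} {H : SimpleGraph V} {ℓ : V → Fin k}
    (h : Built k S H ℓ) : Sep W m S H ℓ := by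
  induction h with
  | vertex v ℓ => exact sep_single hm v ℓ
  | union _ _ hd h1 h2 => exact sep_union h1 h2 hd
  | join a b _ _ h => exact sep_join a b h
  | relabel a b _ h => exact sep_relabel a b h

/-- More than `k` vertices of `X` that are pairwise told apart from outside `X`. -/
theorem pigeon {U ι : Type} {G : SimpleGraph U} {X : Set U} {c : U → Fin k}
    (h : ∀ u ∈ X, ∀ v ∈ X, c u = c v → ∀ w ∉ X, (G.Adj u w ↔ G.Adj v w)) (I : Finset ι)
    (hI : k < I.card) (f : ι → U) (hf : ∀ i ∈ I, f i ∈ X)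
    (hd : ∀ i ∈ I, ∀ j ∈ I, i ≠ j → ∃ w ∉ X, ¬ (G.Adj (f i) w ↔ G.Adj (f j) w)) : False := by
  obtain ⟨i, hi, j, hj, hij, e⟩ := exists_ne_map_eq_of_card_lt_of_maps_to (s := I) (t := univ)
    (by simpa using hI) (f := fun i => c (f i)) fun _ _ => mem_univ _
  obtain ⟨w, hw, hn⟩ := hd i hi j hj hij
  exact hn (h _ (hf i hi) _ (hf j hj) e w hw)

section pendant
variable (L N : ℕ)

def Gam : SimpleGraph (Fin L × Option (Fin N)) where
  Adj a b := match a.2, b.2 with
    | some i, some j => i = j ∧ (a.1.val + 1 = b.1.val ∨ b.1.val + 1 = a.1.val)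
    | some _, none => a.1 ≤ b.1
    | none, some _ => b.1 ≤ a.1
    | none, none => a.1 ≠ b.1
  symm := ⟨by
    rintro ⟨s, _ | i⟩ ⟨t, _ | j⟩ h
    · exact Ne.symm h
    · exact h
    · exact h
    · exact ⟨h.1.symm, h.2.symm⟩⟩
  loopless := ⟨by
    rintro ⟨s, _ | i⟩ h
    · exact h rfl
    · have := h.2; omega⟩

theorem cross {P : Fin L → Prop} {a b : Fin L} (ha : P a) (hb : ¬ P b) :
    ∃ s t : Fin L, P s ∧ ¬ P t ∧ (s.val + 1 = t.val ∨ t.val + 1 = s.val) := by
  by_contra hc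
  push Not at hc
  have : ∀ n (h : n < L), P ⟨n, h⟩ ↔ P ⟨0, by omega⟩ := by
    intro n
    induction n with
    | zero => intro _; rfl
    | succ n ih =>
      intro h
      rw [← ih (by omega)]
      constructor
      · intro h1; by_contra h2; exact (hc _ _ h1 h2).2 rfl
      · intro h1; by_contra h2; exact (hc _ _ h1 h2).1 rfl
  exact hb ((this b.val b.isLt).2 ((this a.val a.isLt).1 ha))

theorem gam_sep (k : ℕ) (X : Set (Fin (2 * k + 1) × Option (Fin (3 * (k + 1)))))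
    (c : Fin (2 * k + 1) × Option (Fin (3 * (k + 1))) → Fin k) [DecidablePred (· ∈ X)]
    (h1 : k + 1 < (univ.filter fun i => ((0 : Fin (2 * k + 1)), some i) ∈ X).card)
    (h2 : (univ.filter fun i => ((0 : Fin (2 * k + 1)), some i) ∈ X).card ≤ 2 * (k + 1))
    (h : ∀ u ∈ X, ∀ v ∈ X, c u = c v → ∀ w ∉ X, ((Gam _ _).Adj u w ↔ (Gam _ _).Adj v w)) :
    False := by
  have key : ∀ I : Finset (Fin (3 * (k + 1))), k < I.card →
      ¬ ∀ i ∈ I, ∃ a b, (a, some i) ∈ X ∧ (b, some i) ∉ X := by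
    intro I hI hs
    have : ∀ i ∈ I, ∃ s t : Fin (2 * k + 1), (s, some i) ∈ X ∧ (t, some i) ∉ X ∧
        (s.val + 1 = t.val ∨ t.val + 1 = s.val) := fun i hi => by
      obtain ⟨a, b, ha, hb⟩ := hs i hi
      exact cross _ (P := fun s => (s, some i) ∈ X) ha hb
    choose! s t h3 h4 h5 using this
    refine pigeon h I hI (fun i => (s i, some i)) h3 fun i hi j hj hij =>
      ⟨(t i, some i), h4 i hi, fun e => hij (e.1 ⟨rfl, h5 i hi⟩).1.symm⟩
  obtain ⟨i, hi⟩ : ∃ i, ∀ t, (t, some i) ∈ X := by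
    by_contra hc
    push Not at hc
    refine key _ (by omega : k < (univ.filter fun i => ((0 : Fin (2 * k + 1)), some i) ∈ X).card)
      fun i hi => ?_
    obtain ⟨t, ht⟩ := hc i
    exact ⟨0, t, (mem_filter.1 hi).2, ht⟩
  obtain ⟨j, hj⟩ : ∃ j, ∀ t, (t, some j) ∉ X := by
    by_contra hc
    push Not at hc
    have := card_filter_add_card_filter_not (s := univ)
      fun i => ((0 : Fin (2 * k + 1)), some i) ∈ X
    simp only [card_univ, Fintype.card_fin] at this
    refine key _ (by omega : k < (univ.filter fun i => ((0 : Fin (2 * k + 1)), some i) ∉ X).card)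
      fun i hi => ?_
    obtain ⟨t, ht⟩ := hc i
    exact ⟨t, 0, ht, (mem_filter.1 hi).2⟩
  have := card_filter_add_card_filter_not (s := univ) fun t : Fin (2 * k + 1) => (t, none) ∈ X
  simp only [card_univ, Fintype.card_fin] at this
  by_cases hd : k < (univ.filter fun t : Fin (2 * k + 1) => (t, none) ∈ X).card
  · refine pigeon h _ hd (fun t => (t, none)) (fun t ht => (mem_filter.1 ht).2)
      fun s _ t _ hst => ⟨(max s t, some j), hj _, fun e => hst ?_⟩
    change (max s t ≤ s ↔ max s t ≤ t) at e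
    rcases le_total s t with h | h
    · exact le_antisymm h (by simpa [h] using e)
    · exact le_antisymm (by simpa [h] using e) h
  · refine pigeon h (univ.filter fun t : Fin (2 * k + 1) => (t, none) ∉ X) (by omega)
      (fun t => (t, some i)) (fun t _ => hi t) fun s hs t ht hst => ⟨(min s t, none), ?_, fun e => hst ?_⟩
    · rcases le_total s t with h | h
      · simpa [h] using hs
      · simpa [h] using ht
    change (s ≤ min s t ↔ t ≤ min s t) at e
    rcases le_total s t with h | h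
    · exact le_antisymm h (by simpa [h] using e)
    · exact le_antisymm (by simpa [h] using e) h

end pendant

/-- Graphs built by adding vertices of degree at most one and dominating vertices. -/
def Cls {U : Type} (G : SimpleGraph U) : Prop :=
  ∃ f : U → ℕ, ∀ v, (∀ u, u ≠ v → f u ≤ f v → G.Adj u v) ∨
    {u | f u ≤ f v ∧ G.Adj u v}.Subsingleton

theorem Cls.emb {U U' : Type} {G : SimpleGraph U} {H : SimpleGraph U'} (e : H ↪g G) (h : Cls G) :
    Cls H := by
  obtain ⟨f, hf⟩ := h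
  refine ⟨f ∘ e, fun v => (hf (e v)).imp (fun h u hu hl => ?_) fun h a ha b hb => ?_⟩
  · exact e.map_adj_iff.1 (h _ (e.injective.ne hu) hl)
  · exact e.injective (h ⟨ha.1, e.map_adj_iff.2 ha.2⟩ ⟨hb.1, e.map_adj_iff.2 hb.2⟩)

theorem cls_gam (L N : ℕ) : Cls (Gam L N) := by
  refine ⟨fun a => 2 * a.1.val + if a.2 = none then 1 else 0, ?_⟩
  rintro ⟨t, _ | i⟩
  · left
    rintro ⟨s, _ | j⟩ h1 h2
    · exact fun e => h1 (Prod.ext e rfl)
    · change s ≤ t
      simp at h2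
      omega
  · right
    have k : ∀ a : Fin L × Option (Fin N), a ∈ {u : Fin L × Option (Fin N) |
        (2 * u.1.val + if u.2 = none then 1 else 0) ≤
          (2 * t.val + if some i = none then 1 else 0) ∧ (Gam L N).Adj u (t, some i)} →
        a.1.val + 1 = t.val ∧ a.2 = some i := by
      rintro ⟨s, _ | j⟩ ⟨h1, h2⟩
      · change t ≤ s at h2
        simp at h1
        omega
      · obtain ⟨rfl, h2⟩ := h2
        simp at h1 h2
        exact ⟨by simp only; omega, rfl⟩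
    intro a ha b hb
    have h1 := k a ha
    have h2 := k b hb
    exact Prod.ext (Fin.ext (by omega)) (h1.2.trans h2.2.symm)

theorem Cls.not_both {n : ℕ} {G : SimpleGraph (Fin n)} (h : Cls G) (hn : 3 ≤ n) (h0 : G.Connected)
    (h1 : ∀ v : Fin n, (G.induce {w | w ≠ v}).Connected)
    (h2 : ∀ M : Set (Fin n), (∀ x, x ∉ M → ∀ y ∈ M, ∀ z ∈ M, (G.Adj x y ↔ G.Adj x z)) →
      M.Subsingleton ∨ M = Set.univ) : False := by
  obtain ⟨f, hf⟩ := h
  obtain ⟨v, -, hv⟩ := exists_max_image univ f ⟨⟨0, by omega⟩, mem_univ _⟩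
  have three : ∀ a b : Fin n, ∃ c, c ≠ a ∧ c ≠ b := fun a b => by
    by_contra hc
    push Not at hc
    have : (univ : Finset (Fin n)) ⊆ {a, b} := fun c _ => by
      by_cases h : c = a
      · simp [h]
      · simp [hc c h]
    have := (card_le_card this).trans card_le_two
    simp at this
    omega
  rcases hf v with h | h
  · rcases h2 {w | w ≠ v} (fun x hx y hy z hz => by
      have : x = v := by simpa using hx
      subst this
      simp [(h y hy (hv y (mem_univ _))).symm, (h z hz (hv z (mem_univ _))).symm]) with h3 | h3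
    · obtain ⟨a, ha, -⟩ := three v v
      obtain ⟨b, hb, hab⟩ := three v a
      exact hab (h3 hb ha)
    · exact (h3.ge (Set.mem_univ v)) rfl
  · obtain ⟨a, ha, -⟩ := three v v
    obtain ⟨p⟩ := h0 v a
    obtain ⟨u, hu⟩ : ∃ u, G.Adj v u := by
      cases p with
      | nil => exact absurd rfl ha
      | cons h _ => exact ⟨_, h⟩
    obtain ⟨b, hb, hbu⟩ := three v u
    obtain ⟨q⟩ := h1 u ⟨v, hu.ne⟩ ⟨b, hbu⟩
    cases q with
    | nil => exact hb rfl
    | @cons _ w _ h' _ =>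
      exact w.2 (h ⟨hv _ (mem_univ _), h'.symm⟩ ⟨hv _ (mem_univ _), hu.symm⟩)

theorem unbounded (k : ℕ) : ∃ (n : ℕ) (G : SimpleGraph (Fin n)), Cls G ∧ ∃ (W : Finset ℕ),
    ∀ ℓ : ℕ → Fin k, ¬ Sep W (k + 1) (range n) (G.map Fin.valEmbedding) ℓ := by
  classical
  let U := Fin (2 * k + 1) × Option (Fin (3 * (k + 1)))
  let e : U ≃ Fin (Fintype.card U) := Fintype.equivFin U
  let ι : U ↪ ℕ := e.toEmbedding.trans Fin.valEmbedding
  let b : Fin (3 * (k + 1)) ↪ ℕ := ⟨fun i => ι (0, some i), fun i j h => by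
    have := congrArg Prod.snd (ι.injective h)
    exact Option.some.inj this⟩
  refine ⟨_, (Gam _ _).comap e.symm, (cls_gam _ _).emb (SimpleGraph.Embedding.comap e.symm.toEmbedding _),
    univ.map b, fun ℓ h => ?_⟩
  have adj : ∀ u v, (((Gam _ _).comap e.symm).map Fin.valEmbedding).Adj (ι u) (ι v) ↔
      (Gam _ _).Adj u v := fun u v => by
    change (((Gam _ _).comap e.symm).map Fin.valEmbedding).Adj (Fin.valEmbedding (e u))
      (Fin.valEmbedding (e v)) ↔ _
    rw [SimpleGraph.map_adj_apply]; simp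
  have cnt : ∀ X : Finset ℕ, (X ∩ univ.map b).card = (univ.filter fun i => b i ∈ X).card := by
    intro X
    rw [← card_map b]
    congr 1
    ext x
    simp only [mem_inter, mem_map, mem_univ, true_and, mem_filter]
    constructor
    · rintro ⟨h1, i, rfl⟩; exact ⟨i, h1, rfl⟩
    · rintro ⟨i, h1, rfl⟩; exact ⟨h1, i, rfl⟩
  obtain ⟨X, c, -, x2, x3, x4⟩ := h.2 (by
    rw [cnt, filter_true_of_mem fun i _ => show b i ∈ range _ from mem_range.2 (e _).isLt]
    simp)
  rw [cnt] at x2 x3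
  refine gam_sep k {u | ι u ∈ X} (c ∘ ι) x2 x3 fun u hu v hv hc w hw => ?_
  rw [← adj, ← adj]
  exact (x4 _ hu _ hv hc).2 _ hw

section bridge
variable (n : ℕ)

abbrev BV := Option (Option (Fin n) ⊕ Option (Sym2 (Fin n)))

def BG : SimpleGraph (BV n) where
  Adj a b := match a, b with
    | none, none => False
    | none, some (.inl i) => i = none
    | none, some (.inr e) => e = none
    | some (.inl i), none => i = none
    | some (.inr e), none => e = none
    | some (.inl i), some (.inl j) => i ≠ j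
    | some (.inr e), some (.inr f) => e ≠ f
    | some (.inl i), some (.inr e) => ∃ x y, i = some x ∧ e = some y ∧ x ∈ y
    | some (.inr e), some (.inl i) => ∃ x y, i = some x ∧ e = some y ∧ x ∈ y
  symm := ⟨by
    rintro (_ | i | e) (_ | j | f) h
    all_goals first | exact h | exact Ne.symm h⟩
  loopless := ⟨by
    rintro (_ | i | e) h
    · exact h
    · exact h rfl
    · exact h rfl⟩

variable {n}

def part : BV n → Fin 3
  | none => 0
  | some (.inl _) => 1
  | some (.inr _) => 2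

theorem part_adj {a b : BV n} (h : part a = part b) (hne : a ≠ b) : (BG n).Adj a b := by
  rcases a with _ | i | e <;> rcases b with _ | j | f <;> simp [part] at h
  · exact hne rfl
  · exact fun e => hne (by rw [e])
  · exact fun e => hne (by rw [e])

theorem no_four : ¬ (⊥ : SimpleGraph (Fin 4)).IsIndContained (BG n) := by
  rintro ⟨f⟩
  obtain ⟨i, j, hij, h⟩ := Fintype.exists_ne_map_eq_of_card_lt (fun i => part (f i)) (by simp)
  exact f.map_adj_iff.1 (part_adj h (f.injective.ne hij))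

theorem no_claw' {c x y z : BV n} (hx : (BG n).Adj c x) (hy : (BG n).Adj c y) (hz : (BG n).Adj c z)
    (nxy : x ≠ y) (nxz : x ≠ z) (nyz : y ≠ z) (axy : ¬ (BG n).Adj x y) (axz : ¬ (BG n).Adj x z)
    (ayz : ¬ (BG n).Adj y z) : False := by
  have p1 : part x ≠ part y := fun h => axy (part_adj h nxy)
  have p2 : part x ≠ part z := fun h => axz (part_adj h nxz)
  have p3 : part y ≠ part z := fun h => ayz (part_adj h nyz)
  rcases x with _ | x | x <;> rcases y with _ | y | y <;> rcases z with _ | z | z <;>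
    simp [part] at p1 p2 p3 <;> rcases c with _ | c | c <;> simp_all [BG]

theorem no_claw : ¬ (completeBipartiteGraph (Fin 1) (Fin 3)).IsIndContained (BG n) := by
  rintro ⟨f⟩
  refine no_claw' (c := f (.inl 0)) (x := f (.inr 0)) (y := f (.inr 1)) (z := f (.inr 2))
    ?_ ?_ ?_ ?_ ?_ ?_ ?_ ?_ ?_ <;> simp [f.map_adj_iff]

theorem no_bridge' {a b x₁ y₁ x₂ y₂ : BV n} (hab : (BG n).Adj a b) (h1 : (BG n).Adj x₁ y₁)
    (h2 : (BG n).Adj x₂ y₂) (a1 : (BG n).Adj a x₁) (a2 : (BG n).Adj a y₁) (a3 : (BG n).Adj a x₂)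
    (a4 : (BG n).Adj a y₂) (b1 : (BG n).Adj b x₁) (b2 : (BG n).Adj b y₁) (b3 : (BG n).Adj b x₂)
    (b4 : (BG n).Adj b y₂) (n1 : ¬ (BG n).Adj x₁ x₂) (n2 : ¬ (BG n).Adj x₁ y₂)
    (n3 : ¬ (BG n).Adj y₁ x₂) (n4 : ¬ (BG n).Adj y₁ y₂) (d1 : x₁ ≠ x₂) (d2 : x₁ ≠ y₂)
    (d3 : y₁ ≠ x₂) (d4 : y₁ ≠ y₂) : False := by
  have tri : ∀ u v : BV n, (BG n).Adj none u → (BG n).Adj none v → ¬ (BG n).Adj u v := by
    rintro (_ | u | u) (_ | v | v) <;> simp +contextual [BG]
  have key : ∀ (i j : Option (Fin n)) (e f : Option (Sym2 (Fin n))), i ≠ j → e ≠ f →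
      ∀ a b : BV n, (BG n).Adj a b → (BG n).Adj a (some (.inl i)) → (BG n).Adj a (some (.inl j)) →
      (BG n).Adj a (some (.inr e)) → (BG n).Adj a (some (.inr f)) →
      (BG n).Adj b (some (.inl i)) → (BG n).Adj b (some (.inl j)) →
      (BG n).Adj b (some (.inr e)) → (BG n).Adj b (some (.inr f)) → False := by
    have two : ∀ (x y : Fin n) (s t : Sym2 (Fin n)), x ≠ y → x ∈ s → y ∈ s → x ∈ t → y ∈ t →
        s = t := fun x y s t h h1 h2 h3 h4 =>
      ((Sym2.mem_and_mem_iff h).1 ⟨h1, h2⟩).trans ((Sym2.mem_and_mem_iff h).1 ⟨h3, h4⟩).symm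
    rintro i j e f hij hef (_ | a | a) (_ | b | b) hab c1 c2 c3 c4 c5 c6 c7 c8
    · exact hab
    · exact hij (Eq.trans c1 (Eq.symm c2))
    · exact hij (Eq.trans c1 (Eq.symm c2))
    · exact hij (Eq.trans c5 (Eq.symm c6))
    · obtain ⟨x, s, rfl, rfl, h1⟩ := c3
      obtain ⟨_, t, ⟨⟩, rfl, h2⟩ := c4
      obtain ⟨y, _, rfl, ⟨⟩, h3⟩ := c7
      obtain ⟨_, _, ⟨⟩, ⟨⟩, h4⟩ := c8
      exact hef (by rw [two x y s t (fun e => hab (by rw [e])) h1 h3 h2 h4])
    · obtain ⟨x, s, rfl, rfl, h1⟩ := hab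
      obtain ⟨y, _, rfl, ⟨⟩, h2⟩ := c5
      obtain ⟨z, _, rfl, ⟨⟩, h3⟩ := c6
      rw [(Sym2.mem_and_mem_iff fun e => hij (by rw [e])).1 ⟨h2, h3⟩, Sym2.mem_iff] at h1
      rcases h1 with rfl | rfl
      · exact c1 rfl
      · exact c2 rfl
    · exact hij (Eq.trans c5 (Eq.symm c6))
    · obtain ⟨x, s, rfl, rfl, h1⟩ := hab
      obtain ⟨y, _, rfl, ⟨⟩, h2⟩ := c1
      obtain ⟨z, _, rfl, ⟨⟩, h3⟩ := c2
      rw [(Sym2.mem_and_mem_iff fun e => hij (by rw [e])).1 ⟨h2, h3⟩, Sym2.mem_iff] at h1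
      rcases h1 with rfl | rfl
      · exact c5 rfl
      · exact c6 rfl
    · obtain ⟨x, s, rfl, rfl, h1⟩ := c1
      obtain ⟨y, _, rfl, ⟨⟩, h2⟩ := c2
      obtain ⟨_, t, ⟨⟩, rfl, h3⟩ := c5
      obtain ⟨_, _, ⟨⟩, ⟨⟩, h4⟩ := c6
      exact hab (by rw [two x y s t (fun e => hij (by rw [e])) h1 h2 h3 h4])
  have p1 : part x₁ ≠ part x₂ := fun h => n1 (part_adj h d1)
  have p2 : part x₁ ≠ part y₂ := fun h => n2 (part_adj h d2)
  have p3 : part y₁ ≠ part x₂ := fun h => n3 (part_adj h d3)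
  have p4 : part y₁ ≠ part y₂ := fun h => n4 (part_adj h d4)
  rcases x₁ with _ | x₁ | x₁ <;> rcases y₁ with _ | y₁ | y₁ <;> rcases x₂ with _ | x₂ | x₂ <;>
    rcases y₂ with _ | y₂ | y₂
  all_goals first
    | exact tri _ _ a1.symm b1.symm hab
    | exact tri _ _ a2.symm b2.symm hab
    | exact tri _ _ a3.symm b3.symm hab
    | exact tri _ _ a4.symm b4.symm hab
    | exact p1 rfl
    | exact p2 rfl
    | exact p3 rfl
    | exact p4 rfl
    | exact key _ _ _ _ h1 h2 a b hab a1 a2 a3 a4 b1 b2 b3 b4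
    | exact key _ _ _ _ h2 h1 a b hab a3 a4 a1 a2 b3 b4 b1 b2

theorem no_bridge : ¬ bridge.IsIndContained (BG n) := by
  rintro ⟨f⟩
  refine no_bridge' (a := f 0) (b := f 1) (x₁ := f 2) (y₁ := f 3) (x₂ := f 4) (y₂ := f 5)
    ?_ ?_ ?_ ?_ ?_ ?_ ?_ ?_ ?_ ?_ ?_ ?_ ?_ ?_ ?_ ?_ ?_ ?_ ?_ <;>
    simp only [f.map_adj_iff, ne_eq, EmbeddingLike.apply_eq_iff_eq] <;>
    (try simp only [bridge, SimpleGraph.fromRel_adj]) <;> decide

theorem bg_cw (k : ℕ) : ¬ CwLE (BG (3 * (2 * k + 1))) k := by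
  classical
  rintro (h | ⟨ℓ, h⟩)
  · exact h.false none
  let b : Fin (3 * (2 * k + 1)) ↪ BV (3 * (2 * k + 1)) := ⟨fun i => some (.inl (some i)), by
    intro i j h; simpa using h⟩
  have cnt : ∀ X : Finset (BV (3 * (2 * k + 1))),
      (X ∩ univ.map b).card = (univ.filter fun i => b i ∈ X).card := by
    intro X
    rw [← card_map b]
    congr 1
    ext x
    simp only [mem_inter, mem_map, mem_univ, true_and, mem_filter]
    constructor
    · rintro ⟨h1, i, rfl⟩; exact ⟨i, h1, rfl⟩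
    · rintro ⟨i, h1, rfl⟩; exact ⟨h1, i, rfl⟩
  obtain ⟨X, c, -, x2, x3, x4⟩ := (Built.sep (W := univ.map b) (m := 2 * k + 1) (by omega) h).2
    (by simp)
  rw [cnt] at x2 x3
  have := card_filter_add_card_filter_not (s := univ) fun i => b i ∈ X
  simp only [card_univ, Fintype.card_fin] at this
  obtain ⟨I, hI, cI⟩ := exists_subset_card_eq (s := univ.filter fun i => b i ∈ X) (n := 2 * k + 1)
    (by omega)
  obtain ⟨J, hJ, cJ⟩ := exists_subset_card_eq (s := univ.filter fun i => b i ∉ X) (n := 2 * k + 1)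
    (by omega)
  let p := I.orderEmbOfFin cI
  let q := J.orderEmbOfFin cJ
  have hp : ∀ s, b (p s) ∈ X := fun s => (mem_filter.1 (hI (I.orderEmbOfFin_mem cI s))).2
  have hq : ∀ s, b (q s) ∉ X := fun s => (mem_filter.1 (hJ (J.orderEmbOfFin_mem cJ s))).2
  have hpq : ∀ s t, p s ≠ q t := fun s t e => hq t (e ▸ hp s)
  let r : Fin (2 * k + 1) → BV (3 * (2 * k + 1)) := fun s => some (.inr (some s(p s, q s)))
  have adj : ∀ i s, (BG _).Adj (b i) (r s) ↔ i = p s ∨ i = q s := fun i s => by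
    simp [BG, b, r]
  have x5 : ∀ u ∈ (X : Set _), ∀ v ∈ (X : Set _), c u = c v → ∀ w ∉ (X : Set _),
      ((BG _).Adj u w ↔ (BG _).Adj v w) := fun u hu v hv hc => (x4 u hu v hv hc).2
  have := card_filter_add_card_filter_not (s := univ) fun s => r s ∈ X
  simp only [card_univ, Fintype.card_fin] at this
  by_cases hd : k < (univ.filter fun s => r s ∈ X).card
  · refine pigeon x5 _ hd r (fun t ht => (mem_filter.1 ht).2)
      fun s _ t _ hst => ⟨b (q s), hq s, fun e => ?_⟩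
    rw [(BG _).adj_comm, (BG _).adj_comm (r t), adj, adj] at e
    rcases e.1 (Or.inr rfl) with h | h
    · exact hpq _ _ h.symm
    · exact hst (q.injective h)
  · refine pigeon x5 (univ.filter fun s => r s ∉ X) (by omega) (fun s => b (p s))
      (fun t _ => hp t) fun s hs t _ hst => ⟨r s, (mem_filter.1 hs).2, fun e => ?_⟩
    rw [adj, adj] at e
    rcases e.1 (Or.inl rfl) with h | h
    · exact hst (p.injective h).symm
    · exact hpq _ _ h

theorem bg_imperfect (i : Fin n) : ∃ S : Set (BV n),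
    ((BG n).induce S).chromaticNumber ≠ ((BG n).induce S).cliqueNum := by
  let f : Fin 5 → BV n := ![none, some (.inl none), some (.inl (some i)),
    some (.inr (some s(i, i))), some (.inr none)]
  let e : SimpleGraph.cycleGraph 5 ↪g BG n :=
    { toFun := f
      inj' := by intro a b; fin_cases a <;> fin_cases b <;> simp [f]
      map_rel_iff' := by
        intro a b
        fin_cases a <;> fin_cases b <;> simp [f, BG] <;> decide }
  refine ⟨Set.range e, fun h => ?_⟩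
  have iso := e.isoInduceRange
  have h1 : ((BG n).induce (Set.range e)).chromaticNumber = 3 := by
    rw [← SimpleGraph.chromaticNumber_congr iso]
    exact SimpleGraph.chromaticNumber_cycleGraph_of_odd 5 (by norm_num) (by decide)
  rw [h1] at h
  have h2 : ((BG n).induce (Set.range e)).cliqueNum = 3 := by exact_mod_cast h.symm
  obtain ⟨s, hs⟩ := ((BG n).induce (Set.range e)).exists_isNClique_cliqueNum
  rw [h2] at hs
  have : (SimpleGraph.cycleGraph 5).CliqueFree 3 := by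
    unfold SimpleGraph.CliqueFree; decide
  exact (this.comap iso.symm.toEmbedding.isContained) s hs

theorem bridge_main (c : ℕ) : ∃ (V : Type) (_ : Fintype V) (_ : DecidableEq V) (G : SimpleGraph V),
    ¬ (completeBipartiteGraph (Fin 1) (Fin 3)).IsIndContained G ∧
    ¬ (⊥ : SimpleGraph (Fin 4)).IsIndContained G ∧ ¬ bridge.IsIndContained G ∧
    ¬ Perfect G ∧ ¬ CwLE G c := by
  refine ⟨_, inferInstance, inferInstance, BG (3 * (2 * c + 1)), no_claw, no_four, no_bridge,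
    fun h => ?_, bg_cw c⟩
  obtain ⟨S, hS⟩ := bg_imperfect (n := 3 * (2 * c + 1)) ⟨0, by omega⟩
  exact hS (h S)

end bridge

end Pool.Agent.H34.Cw
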