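import Mathlib

namespace Pool.Agent.H34.FunDefs

variable {V : Type}

/-- The vertex `y` is a function of the vertices in `S`. -/
def IsFun (G : SimpleGraph V) (y : V) (S : Finset V) : Prop :=
  y ∉ S ∧ ∃ f : (S → Prop) → Prop, ∀ z, z ≠ y → z ∉ S → (G.Adj y z ↔ f fun x => G.Adj x z)

/-- The functionality of a vertex. -/
noncomputable def vfun (G : SimpleGraph V) (y : V) : ℕ :=
  sInf {k | ∃ S : Finset V, S.card = k ∧ IsFun G y S}

/-- The functionality of a graph: the maximum over induced subgraphs of the least functionality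
of a vertex. -/
noncomputable def gfun (G : SimpleGraph V) : ℕ :=
  ⨆ U : Set V, ⨅ y : U, vfun (G.induce U) y

/-- All modules are trivial. -/
def Prime (G : SimpleGraph V) : Prop :=
  ∀ M : Set V, (∀ z ∉ M, (∀ x ∈ M, G.Adj z x) ∨ ∀ x ∈ M, ¬ G.Adj z x) →
    M.Subsingleton ∨ M = Set.univ

end Pool.Agent.H34.FunDefs
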