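import Mathlib
import Pool.Agent.H34.FunDefs

namespace Pool.Agent.H34.Fun
open Pool.Agent.H34.FunDefs Finset

variable {V : Type} {G : SimpleGraph V}

theorem vfun_le {y : V} {S : Finset V} (hy : y ∉ S) (h : ∀ z z', z ≠ y → z ∉ S → z' ≠ y → z' ∉ S →
    (∀ x ∈ S, G.Adj x z ↔ G.Adj x z') → G.Adj y z → G.Adj y z') : vfun G y ≤ S.card := by
  refine Nat.sInf_le ⟨S, rfl, hy, fun p => ∃ z', z' ≠ y ∧ z' ∉ S ∧ G.Adj y z' ∧
    ∀ x : S, G.Adj x z' ↔ p x, fun z h1 h2 => ⟨fun h3 => ⟨z, h1, h2, h3, fun _ => Iff.rfl⟩, ?_⟩⟩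
  rintro ⟨z', h3, h4, h5, h6⟩
  exact h z' z h3 h4 h1 h2 (fun x hx => h6 ⟨x, hx⟩) h5

theorem exists_fun [Finite V] (y : V) : ∃ S : Finset V, S.card = vfun G y ∧ IsFun G y S := by
  classical
  have := Fintype.ofFinite V
  refine Nat.sInf_mem (s := {k | ∃ S : Finset V, S.card = k ∧ IsFun G y S})
    ⟨_, univ.erase y, rfl, by simp, fun _ => True, fun z h1 h2 => ?_⟩
  simp [h1] at h2

theorem extract [Finite V] {M U : Set V} {k : ℕ} (h : gfun (G.induce M) ≤ k) (hU : U ⊆ M)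
    (hne : U.Nonempty) : ∃ y ∈ U, ∃ S : Finset V, (↑S : Set V) ⊆ U ∧ y ∉ S ∧ S.card ≤ k ∧
      ∀ z ∈ U, ∀ z' ∈ U, z ≠ y → z ∉ S → z' ≠ y → z' ∉ S →
        (∀ x ∈ S, G.Adj x z ↔ G.Adj x z') → G.Adj y z → G.Adj y z' := by
  let U' : Set M := Subtype.val ⁻¹' U
  obtain ⟨u, hu⟩ := hne
  have : Nonempty U' := ⟨⟨⟨u, hU hu⟩, hu⟩⟩
  obtain ⟨y, hy⟩ := ciInf_mem fun y : U' => vfun ((G.induce M).induce U') y
  have h1 := (le_ciSup (f := fun U : Set M => ⨅ y : U, vfun ((G.induce M).induce U) y)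
    (Set.finite_range _).bddAbove U').trans h
  obtain ⟨S, h2, h3, f, h4⟩ := exists_fun (G := (G.induce M).induce U') y
  let e : U' ↪ V := ⟨fun x => x.1.1, fun a b h => Subtype.ext (Subtype.ext h)⟩
  refine ⟨e y, y.2, S.map e, ?_, by simpa using h3, ?_, fun z hz z' hz' a1 a2 a3 a4 a5 a6 => ?_⟩
  · intro x hx
    obtain ⟨x, -, rfl⟩ := mem_map.1 hx
    exact x.2
  · rw [card_map, h2]; simp only at hy; omega
  · have b1 := h4 ⟨⟨z, hU hz⟩, hz⟩ (fun e' => a1 (congrArg e e')) fun h => a2 (mem_map_of_mem e h)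
    have b2 := h4 ⟨⟨z', hU hz'⟩, hz'⟩ (fun e' => a3 (congrArg e e')) fun h => a4 (mem_map_of_mem e h)
    refine b2.2 ?_
    convert b1.1 a6 using 2 with x
    exact (a5 _ (mem_map_of_mem e x.2)).symm

theorem choose_set [DecidableEq V] (M : Set V) (d : V) (hd : d ∈ M) (a : ℕ) (P Q : Finset V → Prop)
    (hP : ∀ D E, D ⊆ E → P D → P E) (hQ : ∀ D E, D ⊆ E → Q D → Q E) :
    ∃ D : Finset V, (↑D : Set V) ⊆ M ∧ d ∈ D ∧ D.card ≤ 3 * a + 4 ∧
      (P D ∨ ∀ E : Finset V, (↑E : Set V) ⊆ M → E.card ≤ D.card + a → ¬ P E) ∧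
      (Q D ∨ ∀ E : Finset V, (↑E : Set V) ⊆ M → E.card ≤ D.card + a → ¬ Q E) := by
  have key : ∀ P Q : Finset V → Prop, (∀ D E, D ⊆ E → P D → P E) → (∀ D E, D ⊆ E → Q D → Q E) →
      (∃ E : Finset V, (↑E : Set V) ⊆ M ∧ E.card ≤ 1 + a ∧ P E) →
      ∃ D : Finset V, (↑D : Set V) ⊆ M ∧ d ∈ D ∧ D.card ≤ 3 * a + 4 ∧ P D ∧
      (Q D ∨ ∀ E : Finset V, (↑E : Set V) ⊆ M → E.card ≤ D.card + a → ¬ Q E) := by
    rintro P Q hP hQ ⟨E, h1, h2, h3⟩
    have c := card_insert_le d E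
    have s : (↑(insert d E) : Set V) ⊆ M := by simpa [Set.insert_subset_iff] using ⟨hd, h1⟩
    by_cases h : ∀ E' : Finset V, (↑E' : Set V) ⊆ M → E'.card ≤ (insert d E).card + a → ¬ Q E'
    · exact ⟨_, s, mem_insert_self _ _, by omega, hP _ _ (subset_insert _ _) h3, Or.inr h⟩
    · push Not at h
      obtain ⟨E', h4, h5, h6⟩ := h
      have := card_union_le (insert d E) E'
      exact ⟨insert d E ∪ E', by rw [coe_union]; exact Set.union_subset s h4, by simp, by omega,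
        hP _ _ ((subset_insert _ _).trans subset_union_left) h3,
        Or.inl (hQ _ _ subset_union_right h6)⟩
  by_cases h1 : ∃ E : Finset V, (↑E : Set V) ⊆ M ∧ E.card ≤ 1 + a ∧ P E
  · obtain ⟨D, a1, a2, a3, a4, a5⟩ := key P Q hP hQ h1
    exact ⟨D, a1, a2, a3, Or.inl a4, a5⟩
  by_cases h2 : ∃ E : Finset V, (↑E : Set V) ⊆ M ∧ E.card ≤ 1 + a ∧ Q E
  · obtain ⟨D, a1, a2, a3, a4, a5⟩ := key Q P hQ hP h2
    exact ⟨D, a1, a2, a3, a5, Or.inl a4⟩
  push Not at h1 h2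
  exact ⟨{d}, by simpa, by simp, by simp, Or.inr (by simpa using h1), Or.inr (by simpa using h2)⟩

theorem core [Finite V] [Nonempty V] {k : ℕ}
    (h : ∀ M : Set V, Prime (G.induce M) → gfun (G.induce M) ≤ k) : ∃ y, vfun G y ≤ 4 * k + 7 := by
  classical
  rcases subsingleton_or_nontrivial V with hV | hV
  · obtain ⟨y⟩ := ‹Nonempty V›
    exact ⟨y, (vfun_le (S := ∅) (by simp) fun z _ hz => absurd (Subsingleton.elim _ _) hz).trans
      (by simp)⟩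
  obtain ⟨M, ⟨hM, hn⟩, hmin⟩ := Set.exists_min_image
    {M : Set V | (∀ z ∉ M, (∀ x ∈ M, G.Adj z x) ∨ ∀ x ∈ M, ¬ G.Adj z x) ∧ M.Nontrivial} Set.ncard
    (Set.toFinite _) ⟨Set.univ, by simp, Set.nontrivial_univ⟩
  have hp : Prime (G.induce M) := by
    intro N hN
    by_contra hc
    push Not at hc
    have h1 := hmin (Subtype.val '' N) ⟨fun z hz => ?_, hc.1.image Subtype.val_injective⟩
    · have := Set.eq_of_subset_of_ncard_le (Subtype.coe_image_subset M N) h1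
      exact hc.2 (Set.eq_univ_of_forall fun x => by
        obtain ⟨y, hy, e⟩ := this.ge x.2
        exact Subtype.ext e ▸ hy)
    · by_cases hz' : z ∈ M
      · refine (hN ⟨z, hz'⟩ fun h => hz ⟨_, h, rfl⟩).imp (fun h => ?_) fun h => ?_ <;>
          rintro _ ⟨x, hx, rfl⟩ <;> exact h x hx
      · refine (hM z hz').imp (fun h => ?_) fun h => ?_ <;>
          rintro _ ⟨x, -, rfl⟩ <;> exact h x x.2
  have out : ∀ z ∉ M, ∀ x ∈ M, ∀ y ∈ M, G.Adj x z → G.Adj y z := fun z hz x hx y hy hxz =>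
    (hM z hz).elim (fun h => (h y hy).symm) fun h => absurd hxz.symm (h x hx)
  obtain ⟨d, hd⟩ := hn.nonempty
  obtain ⟨D, D1, D2, D3, D4, D5⟩ := choose_set M d hd (k + 1)
    (fun D => ∀ z ∈ M, z ∉ D → ∃ x ∈ D, G.Adj x z) (fun D => ∀ z ∈ M, z ∉ D → ∃ x ∈ D, ¬ G.Adj x z)
    (fun D E s h z hz hE => (h z hz fun h' => hE (s h')).imp fun x hx => ⟨s hx.1, hx.2⟩)
    (fun D E s h z hz hE => (h z hz fun h' => hE (s h')).imp fun x hx => ⟨s hx.1, hx.2⟩)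
  by_cases hMD : M ⊆ D
  · obtain ⟨y, hy, hyd⟩ := hn.exists_ne d
    refine ⟨y, (vfun_le (S := D.erase y) (by simp) fun z z' a1 a2 a3 a4 a5 a6 => ?_).trans
      (card_erase_le.trans (by omega))⟩
    have b1 : z ∉ M := fun h => a2 (mem_erase.2 ⟨a1, hMD h⟩)
    have b2 : z' ∉ M := fun h => a4 (mem_erase.2 ⟨a3, hMD h⟩)
    exact out z' b2 d hd y hy ((a5 d (mem_erase.2 ⟨hyd.symm, D2⟩)).1 (out z b1 y hy d hd a6))
  obtain ⟨y, hy, S, S1, S2, S3, S4⟩ := extract (h M hp) (U := M \ D) Set.diff_subset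
    (Set.diff_nonempty.2 hMD)
  have c1 := card_union_le S D
  have c2 := card_insert_le y (S ∪ D)
  have sub : (↑(insert y (S ∪ D)) : Set V) ⊆ M := by
    rw [coe_insert, coe_union]
    exact Set.insert_subset hy.1 (Set.union_subset (S1.trans Set.diff_subset) D1)
  refine ⟨y, (vfun_le (S := S ∪ D) (by simp [S2]; exact hy.2)
    fun z z' a1 a2 a3 a4 a5 a6 => ?_).trans (by omega)⟩
  simp only [mem_union, not_or] at a2 a4 a5
  by_cases b1 : z ∈ M <;> by_cases b2 : z' ∈ M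
  · exact S4 z ⟨b1, a2.2⟩ z' ⟨b2, a4.2⟩ a1 a2.1 a3 a4.1 (fun x hx => a5 x (Or.inl hx)) a6
  · by_contra hc
    have n : ∀ x, x ∈ S ∨ x ∈ D → ¬ G.Adj x z := fun x hx h =>
      hc (out z' b2 x (sub (by simp [hx])) y hy.1 ((a5 x hx).1 h))
    rcases D4 with h | h
    · obtain ⟨x, hx, h⟩ := h z b1 a2.2
      exact n x (Or.inr hx) h
    · refine h _ sub (by omega) fun w hw hw' => ?_
      simp only [mem_insert, mem_union, not_or] at hw'
      by_contra hc'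
      push Not at hc'
      exact hc' y (by simp) (S4 z ⟨b1, a2.2⟩ w ⟨hw, hw'.2.2⟩ a1 a2.1 hw'.1 hw'.2.1
        (fun x hx => iff_of_false (n x (Or.inl hx)) (hc' x (by simp [hx]))) a6)
  · by_contra hc
    have n : ∀ x, x ∈ S ∨ x ∈ D → G.Adj x z' := fun x hx =>
      (a5 x hx).1 (out z b1 y hy.1 x (sub (by simp [hx])) a6)
    rcases D5 with h | h
    · obtain ⟨x, hx, h⟩ := h z' b2 a4.2
      exact h (n x (Or.inr hx))
    · refine h _ sub (by omega) fun w hw hw' => ?_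
      simp only [mem_insert, mem_union, not_or] at hw'
      by_contra hc'
      push Not at hc'
      exact hc (S4 w ⟨hw, hw'.2.2⟩ z' ⟨b2, a4.2⟩ hw'.1 hw'.2.1 a3 a4.1
        (fun x hx => iff_of_true (hc' x (by simp [hx])) (n x (Or.inl hx))) (hc' y (by simp)))
  · exact out z' b2 d hd y hy.1 ((a5 d (Or.inr D2)).1 (out z b1 y hy.1 d hd a6))

theorem main (X : ∀ V : Type, SimpleGraph V → Prop)
    (hX : ∀ (V W : Type) (G : SimpleGraph V) (H : SimpleGraph W), H.IsIndContained G → X V G → X W H)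
    (k : ℕ) (h : ∀ (V : Type) [Finite V] (G : SimpleGraph V), X V G → Prime G → gfun G ≤ k)
    (V : Type) [Finite V] (G : SimpleGraph V) (hG : X V G) : gfun G ≤ 4 * k + 7 := by
  refine ciSup_le fun U => ?_
  rcases isEmpty_or_nonempty U with hU | hU
  · simp
  obtain ⟨y, hy⟩ := core (G := G.induce U) fun M hM => h _ _
    (hX _ _ _ _ ⟨.induce _⟩ (hX _ _ _ _ ⟨.induce _⟩ hG)) hM
  exact (ciInf_le (OrderBot.bddBelow _) y).trans hy

end Pool.Agent.H34.Fun
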