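import Mathlib

namespace Pool.Agent.H34.Hasse3
open Finset

theorem rank {V α : Type} [Finite V] [LinearOrder α] (X : V → α) :
    ∃ x : V → ℕ, ∀ u v, x u < x v ↔ X u < X v := by
  refine ⟨fun u => {w | X w < X u}.ncard, fun u v => ⟨fun h => ?_, fun h => ?_⟩⟩
  · by_contra hc
    exact not_le.2 h (Set.ncard_le_ncard (fun w hw => lt_of_lt_of_le hw (not_lt.1 hc))
      (Set.toFinite _))
  · exact Set.ncard_lt_ncard ⟨fun w hw => lt_trans hw h, fun a => lt_irrefl _ (a h)⟩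
      (Set.toFinite _)

def Lt {V : Type} (x y z : V → ℕ) (u v : V) : Prop := x u < x v ∧ y u < y v ∧ z u < z v

def Cov {V : Type} (r : V → V → Prop) (u v : V) : Prop := r u v ∧ ∀ w, ¬ (r u w ∧ r w v)

def Good {V : Type} (U : V → V → Prop) : Prop :=
  ∀ a b d c, U a b → U a d → b ≠ d → ¬ (U b c ∧ U d c) ∧ (U c b → U c d → c = a)

inductive W (A B C : Type)
  | p : A → B → W A B C
  | c : A → B → W A B C
  | d : A → B → W A B C
  | g : C → W A B C
  | y : C → W A B C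

instance {A B C : Type} [Finite A] [Finite B] [Finite C] : Finite (W A B C) :=
  Finite.of_surjective (α := (A × B) ⊕ (A × B) ⊕ (A × B) ⊕ C ⊕ C)
    (Sum.elim (fun q => .p q.1 q.2) (Sum.elim (fun q => .c q.1 q.2) (Sum.elim (fun q => .d q.1 q.2)
      (Sum.elim .g .y)))) (by
    rintro (⟨a, b⟩ | ⟨a, b⟩ | ⟨a, b⟩ | j | j)
    exacts [⟨.inl (a, b), rfl⟩, ⟨.inr (.inl (a, b)), rfl⟩, ⟨.inr (.inr (.inl (a, b))), rfl⟩,
      ⟨.inr (.inr (.inr (.inl j))), rfl⟩, ⟨.inr (.inr (.inr (.inr j))), rfl⟩])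

section step
variable {A V : Type} {N : ℕ} (e : A → ℕ) (K : ℕ) (x y z : V → ℕ) (t : A → V → Fin N)

def X : W A V (Fin N) → ℕ ×ₗ ℕ ×ₗ ℕ
  | .p T v => toLex (e T, toLex (0, x v))
  | .c T v => toLex (e T, toLex (1, 2 * y v))
  | .d T v => toLex (e T, toLex (1, 2 * y v + 1))
  | .g j => toLex (K, toLex (0, j))
  | .y j => toLex (K, toLex (1, j))

def Z : W A V (Fin N) → ℕ ×ₗ ℕ ×ₗ ℕ
  | .p T v => toLex (K - e T, toLex (0, z v))
  | .c T v => toLex (K - e T, toLex (1, 2 * y v))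
  | .d T v => toLex (K - e T, toLex (1, 2 * y v + 1))
  | .g j => toLex (K + 1, toLex (0, j))
  | .y j => toLex (K + 1, toLex (1, N - j))

def Y : W A V (Fin N) → ℕ ×ₗ ℕ ×ₗ ℕ
  | .p T v => toLex (t T v, toLex (0, e T))
  | .c T v => toLex (t T v, toLex (2, e T))
  | .d T v => toLex (t T v, toLex (3, e T))
  | .g j => toLex (j, toLex (4, 0))
  | .y j => toLex (j, toLex (1, 0))

def L : W A V (Fin N) → W A V (Fin N) → Prop
  | .p T u, .p T' v => T = T' ∧ Lt x y z u v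
  | .p T u, .c T' v => T = T' ∧ y u ≤ y v
  | .p T u, .d T' v => T = T' ∧ y u ≤ y v
  | .c T u, .c T' v => T = T' ∧ y u < y v
  | .c T u, .d T' v => T = T' ∧ y u ≤ y v
  | .d T u, .c T' v => T = T' ∧ y u < y v
  | .d T u, .d T' v => T = T' ∧ y u < y v
  | .p T u, .g j => t T u ≤ j
  | .c T u, .g j => t T u ≤ j
  | .d T u, .g j => t T u ≤ j
  | .p T u, .y j => t T u ≤ j
  | .c T u, .y j => t T u < j
  | .d T u, .y j => t T u < j
  | .g i, .g j => i < j
  | .g i, .y j => i < j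
  | _, _ => False

def U : W A V (Fin N) → W A V (Fin N) → Prop
  | .p T u, .p T' v => T = T' ∧ Cov (Lt x y z) u v
  | .p T u, .c T' v => T = T' ∧ u = v
  | .c T u, .d T' v => T = T' ∧ u = v
  | .d T u, .c T' v => T = T' ∧ y u < y v ∧ ∀ w, ¬ (y u < y w ∧ y w < y v)
  | .d T u, .g j => t T u = j
  | .p T u, .y j => t T u = j
  | .g i, .g j => i.1 + 1 = j
  | .g i, .y j => i.1 + 1 = j
  | _, _ => False

variable {e K x y z t}
variable (he : Function.Injective e) (hK : ∀ T, e T < K) (hx : Function.Injective x)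
  (hy : Function.Injective y) (hz : Function.Injective z)
  (ht : ∀ T u v, (t T u).1 < t T v ↔ y u < y v)

include he hK ht in
theorem L_iff (a b : W A V (Fin N)) :
    (X e K x y a < X e K x y b ∧ Y e t a < Y e t b ∧ Z e K y z a < Z e K y z b) ↔
      L x y z t a b := by
  have same : ∀ (T T' : A) (P Q : Prop), (T = T' → (P ↔ Q)) → (e T ≠ e T' → ¬ P) →
      (P ↔ T = T' ∧ Q) := fun T T' P Q h1 h2 =>
    ⟨fun h => have := he (by_contra fun a => h2 a h); ⟨this, (h1 this).1 h⟩,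
      fun h => (h1 h.1).2 h.2⟩
  rcases a with ⟨T, u⟩ | ⟨T, u⟩ | ⟨T, u⟩ | i | i <;>
    rcases b with ⟨T', v⟩ | ⟨T', v⟩ | ⟨T', v⟩ | j | j <;>
    simp only [X, Y, Z, L, Lt, Prod.Lex.toLex_lt_toLex, Fin.le_def, Fin.lt_def, true_and,
      iff_false] <;>
    first
    | (refine same T T' _ _ (fun hT => ?_) (fun hT => ?_)
       · subst hT
         have := ht T u v
         have := ht T v u
         simp only [true_and, and_true, lt_irrefl, false_or, or_false, and_false, false_and]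
         omega
       · have := hK T
         have := hK T'
         omega)
    | (have := hK T; have := hK T'; omega)
    | (have := hK T; omega)
    | (have := hK T'; omega)
    | omega

include he hK hx hy in
theorem X_tot (a b : W A V (Fin N)) (h1 : ¬ X e K x y a < X e K x y b)
    (h2 : ¬ X e K x y b < X e K x y a) : a = b := by
  rcases a with ⟨T, u⟩ | ⟨T, u⟩ | ⟨T, u⟩ | i | i <;>
    rcases b with ⟨T', v⟩ | ⟨T', v⟩ | ⟨T', v⟩ | j | j <;>
    simp only [X, Prod.Lex.toLex_lt_toLex, true_and] at h1 h2 <;>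
    first
    | omega
    | (have := hK T; omega)
    | (have := hK T'; omega)
    | rw [he (show e T = e T' by omega), hx (show x u = x v by omega)]
    | rw [he (show e T = e T' by omega), hy (show y u = y v by omega)]
    | rw [Fin.ext (show i.1 = j.1 by omega)]

include he hK hy hz in
theorem Z_tot (a b : W A V (Fin N)) (h1 : ¬ Z e K y z a < Z e K y z b)
    (h2 : ¬ Z e K y z b < Z e K y z a) : a = b := by
  rcases a with ⟨T, u⟩ | ⟨T, u⟩ | ⟨T, u⟩ | i | i <;>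
    rcases b with ⟨T', v⟩ | ⟨T', v⟩ | ⟨T', v⟩ | j | j <;>
    simp only [Z, Prod.Lex.toLex_lt_toLex, true_and] at h1 h2 <;>
    first
    | omega
    | (have := hK T; have := hK T'
       rw [he (show e T = e T' by omega), hz (show z u = z v by omega)])
    | (have := hK T; have := hK T'
       rw [he (show e T = e T' by omega), hy (show y u = y v by omega)])
    | rw [Fin.ext (show i.1 = j.1 by omega)]

include he hy ht in
theorem Y_tot (a b : W A V (Fin N)) (h1 : ¬ Y e t a < Y e t b) (h2 : ¬ Y e t b < Y e t a) :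
    a = b := by
  rcases a with ⟨T, u⟩ | ⟨T, u⟩ | ⟨T, u⟩ | i | i <;>
    rcases b with ⟨T', v⟩ | ⟨T', v⟩ | ⟨T', v⟩ | j | j <;>
    simp only [Y, Prod.Lex.toLex_lt_toLex, true_and] at h1 h2 <;>
    first
    | omega
    | (obtain rfl := he (show e T = e T' by omega)
       have := ht T u v
       have := ht T v u
       rw [hy (show y u = y v by omega)])
    | rw [Fin.ext (show i.1 = j.1 by omega)]

include hy ht in
theorem cov_U (a b : W A V (Fin N)) (h : Cov (L x y z t) a b) : U x y z t a b := by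
  obtain ⟨h1, h2⟩ := h
  rcases a with ⟨T, u⟩ | ⟨T, u⟩ | ⟨T, u⟩ | i | i <;>
    rcases b with ⟨T', v⟩ | ⟨T', v⟩ | ⟨T', v⟩ | j | j <;> simp only [L, U] at h1 ⊢
  · exact ⟨h1.1, h1.2, fun w a => h2 (.p T w) ⟨⟨rfl, a.1⟩, h1.1, a.2⟩⟩
  · exact ⟨h1.1, hy (by_contra fun a => h2 (.c T u) ⟨⟨rfl, le_rfl⟩, h1.1, by omega⟩)⟩
  · exact h2 (.c T u) ⟨⟨rfl, le_rfl⟩, h1⟩
  · exact h2 (.c T u) ⟨⟨rfl, le_rfl⟩, h1⟩
  · exact by_contra fun a => h2 (.c T u) ⟨⟨rfl, le_rfl⟩, lt_of_le_of_ne h1 a⟩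
  · exact h2 (.d T u) ⟨⟨rfl, le_rfl⟩, h1⟩
  · exact ⟨h1.1, hy (by_contra fun a => h2 (.d T u) ⟨⟨rfl, le_rfl⟩, h1.1, by omega⟩)⟩
  · exact h2 (.d T u) ⟨⟨rfl, le_rfl⟩, h1⟩
  · exact h2 (.d T u) ⟨⟨rfl, le_rfl⟩, h1⟩
  · exact ⟨h1.1, h1.2, fun w a => h2 (.c T w) ⟨⟨rfl, a.1⟩, h1.1, a.2⟩⟩
  · exact h2 (.c T v) ⟨⟨rfl, h1.2⟩, h1.1, le_rfl⟩
  · exact by_contra fun a => h2 (.g (t T u)) ⟨le_refl (t T u), lt_of_le_of_ne h1 a⟩
  · exact h2 (.g (t T u)) ⟨le_refl (t T u), h1⟩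
  · by_contra a
    have := Fin.lt_def.1 h1
    exact h2 (.g ⟨i.1 + 1, by omega⟩) ⟨Fin.lt_def.2 (by simp), Fin.lt_def.2 (by simp; omega)⟩
  · by_contra a
    have := Fin.lt_def.1 h1
    exact h2 (.g ⟨i.1 + 1, by omega⟩) ⟨Fin.lt_def.2 (by simp), Fin.lt_def.2 (by simp; omega)⟩

include hy ht in
theorem good_U (h : Good (Cov (Lt x y z))) : Good (U x y z t) := by
  have ti : ∀ T u v, t T u = t T v → u = v := fun T u v a => by
    have := ht T u v
    have := ht T v u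
    exact hy (by have := congrArg Fin.val a; omega)
  have s1 : ∀ u v w, (y u < y v ∧ ∀ w, ¬ (y u < y w ∧ y w < y v)) →
      (y u < y w ∧ ∀ s, ¬ (y u < y s ∧ y s < y w)) → v = w := fun u v w a b => by
    have := a.2 w
    have := b.2 v
    exact hy (by omega)
  have s2 : ∀ u v w, (y u < y w ∧ ∀ s, ¬ (y u < y s ∧ y s < y w)) →
      (y v < y w ∧ ∀ s, ¬ (y v < y s ∧ y s < y w)) → u = v := fun u v w a b => by
    have := a.2 v
    have := b.2 u
    exact hy (by omega)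
  intro a b d c h1 h2 h3
  rcases a with ⟨T, u⟩ | ⟨T, u⟩ | ⟨T, u⟩ | i | i <;>
    rcases b with ⟨T1, v⟩ | ⟨T1, v⟩ | ⟨T1, v⟩ | j | j <;> simp only [U] at h1 <;>
    rcases d with ⟨T2, w⟩ | ⟨T2, w⟩ | ⟨T2, w⟩ | k | k <;> simp only [U] at h2 <;>
    rcases c with ⟨T3, s⟩ | ⟨T3, s⟩ | ⟨T3, s⟩ | l | l <;>
    simp only [U, false_and, and_false, not_false_eq_true, true_and, false_imp_iff, imp_true_iff,
      and_true, ne_eq, W.p.injEq, W.c.injEq, W.d.injEq, W.g.injEq, W.y.injEq, reduceCtorEq,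
      Fin.ext_iff] at h3 ⊢ <;>
    first
    | omega
    | (have := h u v w s; grind)
    | (have := s1 u v w; grind)
    | (have := ti T u s; grind)
    | (have := ti T v w; grind)
    | (have := s2 s u v; grind)
    | (have := s2 s u w; grind)
    | grind

end step

theorem main (n : ℕ) : ∃ (V : Type) (_ : Finite V) (x y z : V → ℕ), Function.Injective x ∧
    Function.Injective y ∧ Function.Injective z ∧ Good (Cov (Lt x y z)) ∧
    ∀ (S : Finset ℕ) (c : V → ℕ), S.card ≤ n → (∀ v, c v ∈ S) →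
      ∃ u v, Cov (Lt x y z) u v ∧ c u = c v := by
  classical
  induction n with
  | zero =>
    refine ⟨Unit, inferInstance, fun _ => 0, fun _ => 0, fun _ => 0, fun _ _ _ => rfl,
      fun _ _ _ => rfl, fun _ _ _ => rfl, fun _ _ _ _ _ _ h => absurd rfl h, fun S c h1 h2 => ?_⟩
    have := card_pos.2 ⟨_, h2 ()⟩
    omega
  | succ n ih =>
    obtain ⟨V, _, x, y, z, hx, hy, hz, hg, h⟩ := ih
    letI := Fintype.ofFinite V
    obtain ⟨N, hN⟩ : ∃ N, N = (n + 1) * Fintype.card V + 1 := ⟨_, rfl⟩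
    let A := {T : V → Fin N // ∀ u v, y u < y v → T u < T v}
    obtain ⟨K, e, he, hK⟩ : ∃ (K : ℕ) (e : A → ℕ), Function.Injective e ∧ ∀ T, e T < K :=
      ⟨_, fun T => Fintype.equivFin A T, fun a b h => (Fintype.equivFin A).injective (Fin.ext h),
        fun T => (Fintype.equivFin A T).2⟩
    have ht : ∀ (T : A) u v, (T.1 u).1 < T.1 v ↔ y u < y v := fun T u v =>
      ⟨fun a => by
        rcases lt_trichotomy (y u) (y v) with b | b | b
        · exact b
        · rw [hy b] at a; exact absurd a (lt_irrefl _)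
        · exact absurd (T.2 _ _ b) (not_lt.2 a.le), T.2 u v⟩
    obtain ⟨x', hx'⟩ := rank (X (N := N) e K x y)
    obtain ⟨y', hy'⟩ := rank (Y e fun T : A => T.1)
    obtain ⟨z', hz'⟩ := rank (Z (N := N) e K y z)
    have eq : Lt x' y' z' = L x y z fun T : A => T.1 := by
      funext a b
      rw [Lt, hx', hy', hz', L_iff he hK ht]
    refine ⟨W A V (Fin N), inferInstance, x', y', z',
      fun a b q => X_tot he hK hx hy a b ((hx' _ _).not.1 q.not_lt) ((hx' _ _).not.1 q.not_gt),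
      fun a b q => Y_tot he hy ht a b ((hy' _ _).not.1 q.not_lt) ((hy' _ _).not.1 q.not_gt),
      fun a b q => Z_tot he hK hy hz a b ((hz' _ _).not.1 q.not_lt) ((hz' _ _).not.1 q.not_gt),
      ?_, fun S c h1 h2 => ?_⟩
    · rw [eq]
      intro a b d c h1 h2 h3
      have := good_U hy ht hg a b d c (cov_U hy ht _ _ h1) (cov_U hy ht _ _ h2) h3
      exact ⟨fun q => this.1 ⟨cov_U hy ht _ _ q.1, cov_U hy ht _ _ q.2⟩,
        fun q r => this.2 (cov_U hy ht _ _ q) (cov_U hy ht _ _ r)⟩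
    rw [eq]
    obtain ⟨γ, g1, g2⟩ := exists_lt_card_fiber_of_mul_lt_card_of_maps_to
      (s := (univ : Finset (Fin N))) (t := S) (f := fun j => c (.y j)) (n := Fintype.card V)
      (fun j _ => h2 _) (by
        rw [card_univ, Fintype.card_fin]
        have := Nat.mul_le_mul_right (Fintype.card V) h1
        omega)
    letI : LinearOrder V := LinearOrder.lift' y hy
    let o := ((univ : Finset (Fin N)).filter fun j => c (.y j) = γ).orderEmbOfCardLe g2.le
    let r := (monoEquivOfFin V rfl).symm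
    let T : A := ⟨fun v => o (r v), fun u v a => o.strictMono (r.strictMono a)⟩
    have hT : ∀ v, c (.y (T.1 v)) = γ := fun v =>
      (mem_filter.1 (orderEmbOfCardLe_mem _ g2.le (r v))).2
    by_cases hc : ∃ v, c (.p T v) = γ
    · obtain ⟨v, hv⟩ := hc
      refine ⟨.p T v, .y (T.1 v), ⟨le_refl (T.1 v), ?_⟩, hv.trans (hT v).symm⟩
      rintro (⟨T', w⟩ | ⟨T', w⟩ | ⟨T', w⟩ | j | j) ⟨a1, a2⟩ <;>
        simp only [L, Lt, Fin.le_def, Fin.lt_def] at a1 a2
      · obtain ⟨rfl, a1⟩ := a1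
        have := ht T v w
        omega
      · obtain ⟨rfl, a1⟩ := a1
        have := ht T w v
        omega
      · obtain ⟨rfl, a1⟩ := a1
        have := ht T w v
        omega
      · omega
    · obtain ⟨u, v, ⟨a1, a3⟩, a4⟩ := h (S.erase γ) (fun v => c (.p T v))
        (by rw [card_erase_of_mem g1]; omega) fun v => mem_erase.2 ⟨fun a => hc ⟨v, a⟩, h2 _⟩
      refine ⟨.p T u, .p T v, ⟨⟨rfl, a1⟩, ?_⟩, a4⟩
      rintro (⟨T', w⟩ | ⟨T', w⟩ | ⟨T', w⟩ | j | j) ⟨b1, b2⟩ <;> simp only [L] at b1 b2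
      exact a3 w ⟨b1.2, b2.2⟩

theorem girth {V : Type} (r : V → V → Prop) (tr : ∀ a b c, r a b → r b c → r a c)
    (ir : ∀ a, ¬ r a a) (hg : Good (Cov r)) :
    (5 : ℕ∞) ≤ (SimpleGraph.fromRel (Cov r)).egirth := by
  rw [SimpleGraph.le_egirth]
  intro a w hw
  have adj : ∀ u v, (SimpleGraph.fromRel (Cov r)).Adj u v → Cov r u v ∨ Cov r v u :=
    fun u v h => ((SimpleGraph.fromRel_adj _ _ _).1 h).2
  have h3 := hw.three_le_length
  by_contra hc
  have h5 : w.length < 5 := by exact_mod_cast not_le.1 hc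
  have hn := hw.support_nodup
  rcases w with _ | ⟨h1, _ | ⟨h2, _ | ⟨h3', _ | ⟨h4, _ | ⟨h5', w⟩⟩⟩⟩⟩
  · simp at h3
  · simp at h3
  · simp at h3
  · rename_i b c
    rcases adj _ _ h1 with p | p <;> rcases adj _ _ h2 with q | q <;> rcases adj _ _ h3' with s | s
    · exact ir _ (tr _ _ _ p.1 (tr _ _ _ q.1 s.1))
    · exact s.2 _ ⟨p.1, q.1⟩
    · exact q.2 _ ⟨s.1, p.1⟩
    · exact p.2 _ ⟨s.1, q.1⟩
    · exact p.2 _ ⟨q.1, s.1⟩
    · exact q.2 _ ⟨p.1, s.1⟩
    · exact s.2 _ ⟨q.1, p.1⟩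
    · exact ir _ (tr _ _ _ p.1 (tr _ _ _ s.1 q.1))
  · rename_i b c d
    simp only [SimpleGraph.Walk.support_cons, SimpleGraph.Walk.support_nil, List.tail_cons,
      List.nodup_cons, List.mem_cons, not_or, List.not_mem_nil] at hn
    have n1 : b ≠ d := hn.1.2.1
    have n2 : c ≠ a := hn.2.1.2.1
    rcases adj _ _ h1 with p | p <;> rcases adj _ _ h2 with q | q <;>
      rcases adj _ _ h3' with s | s <;> rcases adj _ _ h4 with t | t
    · exact ir _ (tr _ _ _ p.1 (tr _ _ _ q.1 (tr _ _ _ s.1 t.1)))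
    · exact t.2 _ ⟨p.1, tr _ _ _ q.1 s.1⟩
    · exact s.2 _ ⟨t.1, tr _ _ _ p.1 q.1⟩
    · exact (hg a b d c p t n1).1 ⟨q, s⟩
    · exact q.2 _ ⟨s.1, tr _ _ _ t.1 p.1⟩
    · exact n2 ((hg a b d c p t n1).2 q s)
    · exact (hg d c a b s t n2).1 ⟨q, p⟩
    · exact p.2 _ ⟨t.1, tr _ _ _ s.1 q.1⟩
    · exact p.2 _ ⟨q.1, tr _ _ _ s.1 t.1⟩
    · exact (hg b c a d q p n2).1 ⟨s, t⟩
    · exact n1 ((hg d c a b s t n2).2 q p)
    · exact q.2 _ ⟨p.1, tr _ _ _ t.1 s.1⟩
    · exact (hg c b d a q s n1).1 ⟨p, t⟩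
    · exact s.2 _ ⟨q.1, tr _ _ _ p.1 t.1⟩
    · exact t.2 _ ⟨s.1, tr _ _ _ q.1 p.1⟩
    · exact ir _ (tr _ _ _ p.1 (tr _ _ _ t.1 (tr _ _ _ s.1 q.1)))
  · simp at h5
    omega

end Pool.Agent.H34.Hasse3
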