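import Mathlib

namespace Pool.Agent.H34.IMed
open Set

structure Idl (I : Set (Set ℕ)) : Prop where
  down : ∀ A ∈ I, ∀ B : Set ℕ, B ⊆ A → B ∈ I
  union : ∀ A ∈ I, ∀ B ∈ I, A ∪ B ∈ I
  fin : ∀ A : Set ℕ, A.Finite → A ∈ I
  proper : univ ∉ I

theorem Idl.biUnion {I : Set (Set ℕ)} (hI : Idl I) {ι : Type*} {S : Set ι} (hS : S.Finite)
    {U : ι → Set ℕ} (h : ∀ i ∈ S, U i ∈ I) : (⋃ i ∈ S, U i) ∈ I := by
  induction S, hS using Set.Finite.induction_on with
  | empty => exact hI.fin _ (by simp)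
  | insert _ _ ih =>
    rw [biUnion_insert]
    exact hI.union _ (h _ (mem_insert _ _)) _ (ih fun i hi => h i (mem_insert_of_mem _ hi))

def pre (z : ℕ → ℕ) (k : ℕ) : List ℕ := (List.range k).map z

theorem pre_succ (z : ℕ → ℕ) (k : ℕ) : pre z (k + 1) = pre z k ++ [z k] := by
  simp [pre, List.range_succ]

theorem pre_length (z : ℕ → ℕ) (k : ℕ) : (pre z k).length = k := by simp [pre]

theorem pre_eq {z w : ℕ → ℕ} {k : ℕ} : pre z k = pre w k ↔ ∀ i < k, z i = w i := by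
  simp [pre, List.map_inj_left]

def R (c : List ℕ → Set ℕ) (γ : Ordinal.{0}) (τ : List ℕ) (Z : Set ℕ) : Prop :=
  c τ ⊆ Z ∧ ∀ δ, ∀ _ : δ < γ, ∃ j, R c δ (τ ++ [j]) Z
termination_by γ

theorem R.mono {c : List ℕ → Set ℕ} {Z W : Set ℕ} (h : Z ⊆ W) (γ : Ordinal.{0}) :
    ∀ τ, R c γ τ Z → R c γ τ W := by
  induction γ using WellFoundedLT.induction with
  | _ γ ih =>
    intro τ k
    rw [R] at k ⊢
    exact ⟨k.1.trans h, fun δ hδ => (k.2 δ hδ).imp fun j => ih δ hδ _⟩

theorem loc {f : (ℕ → ℕ) → ℕ → Bool} (hf : Continuous f) (z : ℕ → ℕ) (m : ℕ) :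
    ∃ k, ∀ l, k ≤ l → ∀ w, pre w l = pre z l → f w m = f z m := by
  have : {w | f w m = f z m} ∈ nhds z :=
    ((isOpen_discrete {f z m}).preimage ((continuous_apply m).comp hf)).mem_nhds rfl
  obtain ⟨V, hVU, hV, hp⟩ := mem_nhds_iff.1 this
  obtain ⟨S, u, hu, hS⟩ := isOpen_pi_iff.1 hV z hp
  obtain ⟨k, hk⟩ := S.bddAbove
  refine ⟨k + 1, fun l hl w hw => hVU (hS fun j hj => ?_)⟩
  rw [pre_eq.1 hw j (by have := hk hj; omega)]
  exact (hu j hj).2

theorem bound {I : Set (Set ℕ)} (hI : Idl I)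
    (hm : MeasurableSet {x : ℕ → Bool | {n | x n = true} ∈ I}) :
    ∃ (c : List ℕ → Set ℕ) (α : Ordinal.{0}), (∀ τ, (c τ).Finite) ∧ c [] = ∅ ∧
      (∀ Z ∉ I, ∃ z, ∀ k, c (pre z k) ⊆ Z) ∧ (∀ Z, R c α [] Z → Z ∉ I) ∧ (Iio α).Countable := by
  classical
  haveI : PolishSpace (ℕ → Bool) := PolishSpace.mk
  have h1 := hm.analyticSet
  have h2 := hm.compl.analyticSet
  rw [MeasureTheory.AnalyticSet] at h1 h2
  obtain ⟨ρ, ρc, hρ⟩ := h1.resolve_left (Nonempty.ne_empty ⟨fun _ => false, hI.fin _ (by simp)⟩)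
  obtain ⟨π, πc, hπ⟩ := h2.resolve_left
    (Nonempty.ne_empty ⟨fun _ => true, by simpa using hI.proper⟩)
  let c : List ℕ → Set ℕ := fun τ => {m | m < τ.length ∧ ∀ z, pre z τ.length = τ → π z m = true}
  let e : List ℕ → Set ℕ := fun σ => {m | ∀ w, pre w σ.length = σ → ρ w m = false}
  let r : List ℕ × List ℕ → List ℕ × List ℕ → Prop := fun q p =>
    (∃ j i, q = (p.1 ++ [j], p.2 ++ [i])) ∧ Disjoint (c q.1) (e q.2)
  have acc : Acc r ([], []) := by
    by_contra h0
    have : ∀ p, ¬ Acc r p → ∃ j i, r (p.1 ++ [j], p.2 ++ [i]) p ∧ ¬ Acc r (p.1 ++ [j], p.2 ++ [i]) := by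
      intro p hp
      by_contra! k
      refine hp ⟨_, fun q hq => ?_⟩
      obtain ⟨j, i, rfl⟩ := hq.1
      exact k j i hq
    choose! J K h3 h4 using this
    let s : ℕ → List ℕ × List ℕ := fun n =>
      n.rec ([], []) fun _ p => (p.1 ++ [J p], p.2 ++ [K p])
    have h5 : ∀ n, ¬ Acc r (s n) := fun n => n.rec h0 fun n ih => h4 _ ih
    have h6 : ∀ n, s n = (pre (fun n => J (s n)) n, pre (fun n => K (s n)) n) := fun n => by
      induction n with
      | zero => rfl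
      | succ n ih =>
        rw [pre_succ, pre_succ]
        exact congrArg (fun p => (p.1 ++ [J (s n)], p.2 ++ [K (s n)])) ih
    have a1 : π (fun n => J (s n)) ∈ range π := mem_range_self _
    have a2 : ρ (fun n => K (s n)) ∈ range ρ := mem_range_self _
    rw [hπ] at a1
    rw [hρ] at a2
    refine a1 (hI.down _ a2 _ fun m (hm : _ = true) => ?_)
    by_contra hm'
    obtain ⟨k1, b1⟩ := loc πc (fun n => J (s n)) m
    obtain ⟨k2, b2⟩ := loc ρc (fun n => K (s n)) m
    have d := (h3 _ (h5 (m + k1 + k2))).2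
    replace d := (congrArg (fun p : List ℕ × List ℕ => Disjoint (c p.1) (e p.2))
      (h6 (m + k1 + k2 + 1))).mp d
    refine (disjoint_left.1 d : ∀ ⦃a⦄, _) (a := m) ⟨by rw [pre_length]; omega, fun z hz => ?_⟩
      fun w hw => ?_
    · rw [pre_length] at hz
      exact (b1 _ (by omega) z hz).trans hm
    · rw [pre_length] at hw
      exact (b2 _ (by omega) w hw).trans (by simpa using hm')
  refine ⟨c, Order.succ acc.rank, fun τ => (finite_lt_nat _).subset fun m h => h.1, ?_, ?_, ?_, ?_⟩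
  · exact eq_empty_of_forall_notMem fun m h => absurd h.1 (by simp)
  · intro Z hZ
    obtain ⟨z, hz⟩ : (fun n => decide (n ∈ Z)) ∈ range π := by rw [hπ]; simpa using hZ
    refine ⟨z, fun k m h => ?_⟩
    have := h.2 z (by rw [pre_length])
    rw [hz] at this
    simpa using this
  · intro Z hR hZ
    obtain ⟨w, hw⟩ : (fun n => decide (n ∈ Z)) ∈ range ρ := by rw [hρ]; simpa using hZ
    have : ∀ γ τ k (a : Acc r (τ, pre w k)), R c γ τ Z → γ ≤ a.rank := by
      intro γ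
      induction γ using WellFoundedLT.induction with
      | _ γ ih =>
        intro τ k a h
        rw [R] at h
        refine le_of_forall_lt fun δ hδ => ?_
        obtain ⟨j, hj⟩ := h.2 δ hδ
        have q : r (τ ++ [j], pre w (k + 1)) (τ, pre w k) := by
          refine ⟨⟨j, w k, by rw [pre_succ]⟩, disjoint_left.2 fun m h1 h2 => ?_⟩
          have h3 := h2 w (by rw [pre_length])
          rw [R] at hj
          rw [hw] at h3
          exact absurd (hj.1 h1) (by simpa using h3)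
        exact (ih δ hδ _ _ (a.inv q) hj).trans_lt (a.rank_lt_of_rel q)
    exact absurd (this _ [] 0 acc hR) (not_le.2 (Order.lt_succ _))
  · refine (countable_range fun b => if h : Acc r b then h.rank else 0).mono fun o ho => ?_
    obtain ⟨b, hb, e⟩ := acc.mem_range_rank_of_le (Order.lt_succ_iff.1 ho)
    exact ⟨b, (dif_pos hb).trans e⟩

end Pool.Agent.H34.IMed
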