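import Pool.Agent.H34.IMedA

namespace Pool.Agent.H34.IMed
open Set

structure Tr (lt : ℕ → ℕ → Prop) : Prop where
  lt_of : ∀ {p m}, lt p m → p < m
  trans : ∀ {a b c}, lt a b → lt b c → lt a c
  comp : ∀ {a b c}, lt a c → lt b c → a < b → lt a b

def le (lt : ℕ → ℕ → Prop) (p m : ℕ) : Prop := p = m ∨ lt p m

def Chain (lt : ℕ → ℕ → Prop) (Z : Set ℕ) : Prop := ∀ a ∈ Z, ∀ b ∈ Z, a < b → lt a b

section
variable {lt : ℕ → ℕ → Prop}

theorem Tr.le_trans (T : Tr lt) {a b c : ℕ} (h : le lt a b) (k : le lt b c) : le lt a c := by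
  rcases h with rfl | h
  · exact k
  · rcases k with rfl | k
    exacts [Or.inr h, Or.inr (T.trans h k)]

theorem Tr.lt_le (T : Tr lt) {a b c : ℕ} (h : lt a b) (k : le lt b c) : lt a c := by
  rcases k with rfl | k
  exacts [h, T.trans h k]

theorem Tr.le_of (T : Tr lt) {a b : ℕ} (h : le lt a b) : a ≤ b :=
  h.elim Eq.le fun k => (T.lt_of k).le

theorem Tr.le_comp (T : Tr lt) {a b c : ℕ} (h : le lt a c) (k : le lt b c) (ab : a ≤ b) :
    le lt a b := by
  rcases ab.eq_or_lt with e | e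
  · exact Or.inl e
  rcases k with rfl | k
  · exact h
  · exact Or.inr (T.comp (h.resolve_left (e.trans (T.lt_of k)).ne) k e)

theorem Tr.total (T : Tr lt) {a b c : ℕ} (h : le lt a c) (k : le lt b c) :
    le lt a b ∨ le lt b a :=
  (le_total a b).imp (T.le_comp h k) (T.le_comp k h)

theorem Chain.total {Z : Set ℕ} (h : Chain lt Z) {a b : ℕ} (ha : a ∈ Z) (hb : b ∈ Z) :
    le lt a b ∨ le lt b a := by
  rcases lt_trichotomy a b with e | e | e
  exacts [Or.inl (Or.inr (h a ha b hb e)), Or.inl (Or.inl e), Or.inr (Or.inr (h b hb a ha e))]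

end

section
variable (I : Set (Set ℕ)) (lt : ℕ → ℕ → Prop) {ι : Type*} (V : ι → ℕ → Prop)

def Tp (s : ℕ) : Prop := ∀ δ, {m | le lt s m ∧ V δ m} ∉ I

def Y (s : ℕ) : Prop :=
  ∀ p, le lt p s → Tp I lt V p ∧ ∀ q, q < p → (∀ r, lt r q ↔ lt r p) → ¬ Tp I lt V q

def Bd (d : ℕ) : Prop := ¬ Y I lt V d ∧ ∀ p, lt p d → Y I lt V p

variable {I lt V}

theorem Y.down (T : Tr lt) {s p : ℕ} (h : Y I lt V s) (k : le lt p s) : Y I lt V p :=
  fun q hq => h q (T.le_trans hq k)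

theorem Y_chain (T : Tr lt) : Chain lt {s | Y I lt V s} := by
  have : ∀ n a b, a + b = n → Y I lt V a → Y I lt V b → le lt a b ∨ le lt b a := by
    intro n
    induction n using Nat.strong_induction_on with
    | _ n ih =>
      intro a b e ha hb
      by_contra! c
      have k : ∀ r, lt r a ↔ lt r b := fun r => ⟨fun h => ?_, fun h => ?_⟩
      · rcases lt_trichotomy a b with q | q | q
        · exact (hb b (Or.inl rfl)).2 a q k (ha a (Or.inl rfl)).1
        · exact c.1 (Or.inl q)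
        · exact (ha a (Or.inl rfl)).2 b q (fun r => (k r).symm) (hb b (Or.inl rfl)).1
      · have := T.lt_of h
        rcases ih (r + b) (by omega) r b rfl (ha.down T (Or.inr h)) hb with q | q
        · exact q.resolve_left fun q => c.2 (Or.inr (q ▸ h))
        · exact absurd (T.le_trans q (Or.inr h)) c.2
      · have := T.lt_of h
        rcases ih (a + r) (by omega) a r rfl ha (hb.down T (Or.inr h)) with q | q
        · exact absurd (T.le_trans q (Or.inr h)) c.1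
        · exact q.resolve_left fun q => c.1 (Or.inr (q ▸ h))
  intro a ha b hb ab
  rcases this _ a b rfl ha hb with q | q
  · exact q.resolve_left ab.ne
  · exact absurd (T.le_of q) (not_le.2 ab)

theorem cover (T : Tr lt) {m : ℕ} (h : ¬ Y I lt V m) : ∃ d, Bd I lt V d ∧ le lt d m := by
  classical
  have ex : ∃ d, le lt d m ∧ ¬ Y I lt V d := ⟨m, Or.inl rfl, h⟩
  refine ⟨_, ⟨(Nat.find_spec ex).2, fun p hp => ?_⟩, (Nat.find_spec ex).1⟩
  by_contra c
  exact Nat.find_min ex (T.lt_of hp) ⟨T.le_trans (Or.inr hp) (Nat.find_spec ex).1, c⟩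

theorem Bd.uniq (T : Tr lt) {d e m : ℕ} (hd : Bd I lt V d) (he : Bd I lt V e) (h : le lt d m)
    (k : le lt e m) : d = e := by
  rcases T.total h k with (q | q) | (q | q)
  exacts [q, absurd (he.2 d q) hd.1, q.symm, absurd (hd.2 e q) he.1]

theorem key [LinearOrder ι] (hI : Idl I) (T : Tr lt) (anti : ∀ δ ε m, δ ≤ ε → V ε m → V δ m)
    (pos : ∀ δ, {m | V δ m} ∉ I) (hY : {s | Y I lt V s} ∈ I) (δ : ι) (n : ℕ) :
    ∃ d m, Bd I lt V d ∧ n ≤ d ∧ le lt d m ∧ V δ m := by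
  classical
  let W : ℕ → ι → Set ℕ := fun k ε => {m | (∀ s < k, Y I lt V s → le lt s m) ∧ V ε m}
  have hW : ∀ k ε, W k ε ∉ I := by
    intro k
    induction k with
    | zero => exact fun ε c => pos ε (hI.down _ c _ fun m hm => ⟨by simp, hm⟩)
    | succ k ih =>
      intro ε c
      by_cases y : Y I lt V k
      · refine (y k (Or.inl rfl)).1 ε (hI.down _ c _ fun m hm => ⟨fun s hs hy => ?_, hm.2⟩)
        rcases (Nat.lt_succ_iff.1 hs).eq_or_lt with rfl | q
        exacts [hm.1, T.le_trans (Or.inr (Y_chain T s hy k y q)) hm.1]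
      · refine ih ε (hI.down _ c _ fun m hm => ⟨fun s hs hy => ?_, hm.2⟩)
        rcases (Nat.lt_succ_iff.1 hs).eq_or_lt with rfl | q
        exacts [absurd hy y, hm.1 s q hy]
  have mono : ∀ k l ε η, k ≤ l → ε ≤ η → W l η ⊆ W k ε := fun k l ε η h1 h2 m hm =>
    ⟨fun s hs => hm.1 s (hs.trans_le h1), anti _ _ _ h2 hm.2⟩
  let J : Set (Set ℕ) := {A | ∃ k ε, A ∩ W k ε ∈ I}
  have sub : ∀ A ∈ I, A ∈ J := fun A h => ⟨0, δ, hI.down _ h _ inter_subset_left⟩
  have hJ : Idl J := by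
    refine ⟨fun A ⟨k, ε, h⟩ B hB => ⟨k, ε, hI.down _ h _ (inter_subset_inter_left _ hB)⟩,
      fun A ⟨k, ε, h⟩ B ⟨l, η, h'⟩ => ⟨max k l, max ε η, hI.down _ (hI.union _ h _ h') _ ?_⟩,
      fun A h => sub A (hI.fin A h), fun ⟨k, ε, h⟩ => hW k ε (by simpa using h)⟩
    rintro m ⟨q | q, hm⟩
    · exact Or.inl ⟨q, mono _ _ _ _ (le_max_left _ _) (le_max_left _ _) hm⟩
    · exact Or.inr ⟨q, mono _ _ _ _ (le_max_right _ _) (le_max_right _ _) hm⟩
  have cone : ∀ d ∈ {d | d < n ∧ Bd I lt V d}, {m | le lt d m} ∈ J := by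
    rintro d ⟨-, hd⟩
    by_cases t : Tp I lt V d
    · have ex : ∃ q, (∀ r, lt r q ↔ lt r d) ∧ Tp I lt V q := ⟨d, fun _ => Iff.rfl, t⟩
      obtain ⟨h1, h2⟩ := Nat.find_spec ex
      have y : Y I lt V (Nat.find ex) := by
        rintro p (rfl | hp)
        · exact ⟨h2, fun q hq h3 h4 => Nat.find_min ex hq ⟨fun r => (h3 r).trans (h1 r), h4⟩⟩
        · exact hd.2 p ((h1 p).1 hp) p (Or.inl rfl)
      refine ⟨Nat.find ex + 1, δ, hI.fin _ (finite_empty.subset fun m hm => ?_)⟩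
      rcases T.total hm.1 (hm.2.1 _ (Nat.lt_succ_self _) y) with q | q | q
      · exact hd.1 (y.down T q)
      · exact hd.1 (q ▸ y)
      · exact (T.lt_of ((h1 _).2 q)).false
    · obtain ⟨ε, h⟩ := not_forall.1 t
      exact ⟨0, ε, hI.down _ (not_not.1 h) _ fun m hm => ⟨hm.1, hm.2.2⟩⟩
  by_contra! c
  refine hJ.proper (hJ.down _ (hJ.union _ (hJ.union _ (sub _ hY) _
    (hJ.biUnion ((finite_lt_nat n).subset fun d h => h.1) cone)) {m | ¬ V δ m}
    ⟨0, δ, hI.fin _ (finite_empty.subset fun m hm => hm.1 hm.2.2)⟩) _ fun m _ => ?_)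
  by_cases v : V δ m
  · by_cases y : Y I lt V m
    · exact Or.inl (Or.inl y)
    · obtain ⟨d, h1, h2⟩ := cover T y
      exact Or.inl (Or.inr (mem_biUnion (x := d) ⟨not_le.1 fun q => c d m h1 q h2 v, h1⟩ h2))
  · exact Or.inr v

end

def Ch (I : Set (Set ℕ)) (c : List ℕ → Set ℕ) (lt : ℕ → ℕ → Prop) (γ : Ordinal.{0})
    (τ : List ℕ) (t : ℕ) : Prop :=
  (∀ m ∈ c τ, le lt m t) ∧ ∀ δ, ∀ _ : δ < γ, {u | lt t u ∧ ∃ j, Ch I c lt δ (τ ++ [j]) u} ∉ I
termination_by γ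

theorem Ch.anti {I : Set (Set ℕ)} {c : List ℕ → Set ℕ} {lt : ℕ → ℕ → Prop} {γ δ : Ordinal.{0}}
    {τ : List ℕ} {t : ℕ} (h : δ ≤ γ) (k : Ch I c lt γ τ t) : Ch I c lt δ τ t := by
  rw [Ch] at k ⊢
  exact ⟨k.1, fun ε hε => k.2 ε (hε.trans_le h)⟩

theorem ch_of_chain {I : Set (Set ℕ)} (hI : Idl I) {c : List ℕ → Set ℕ} (hc : ∀ τ, (c τ).Finite)
    {lt : ℕ → ℕ → Prop} {Z : Set ℕ} (hZ : Chain lt Z) (pos : Z ∉ I) {z : ℕ → ℕ}
    (hz : ∀ k, c (pre z k) ⊆ Z) (γ : Ordinal.{0}) :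
    ∀ k, ∀ t ∈ Z, (∀ m ∈ c (pre z k), m ≤ t) → Ch I c lt γ (pre z k) t := by
  induction γ using WellFoundedLT.induction with
  | _ γ ih =>
    intro k t ht h
    rw [Ch]
    refine ⟨fun m hm => (h m hm).eq_or_lt.imp id (hZ m (hz k hm) t ht), fun δ hδ q => pos ?_⟩
    obtain ⟨N, hN⟩ := (hc (pre z (k + 1))).bddAbove
    refine hI.down _ (hI.union _ q _ (hI.fin _ (finite_le_nat (N + t)))) _ fun u hu => ?_
    refine (le_or_gt u (N + t)).symm.imp (fun p => ⟨hZ t ht u hu (by omega), z k, ?_⟩) id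
    rw [← pre_succ]
    exact ih δ hδ _ u hu fun m hm => (hN hm).trans (by omega)

section
variable {X : Type} [MeasurableSpace X] {I : Set (Set ℕ)} {lt : X → ℕ → ℕ → Prop}
  (mI : ∀ P : X → ℕ → Prop, (∀ m, Measurable fun x => P x m) → Measurable fun x => {m | P x m} ∈ I)
  (ml : ∀ p m, Measurable fun x => lt x p m)
include ml

theorem m_le (p m : ℕ) : Measurable fun x => le (lt x) p m := measurable_const.or (ml p m)

include mI

theorem m_Y {ι : Type*} [Countable ι] {V : X → ι → ℕ → Prop}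
    (mV : ∀ δ m, Measurable fun x => V x δ m) (s : ℕ) : Measurable fun x => Y I (lt x) (V x) s := by
  have t : ∀ s, Measurable fun x => Tp I (lt x) (V x) s := fun s =>
    .forall fun δ => (mI _ fun m => (m_le ml s m).and (mV δ m)).not
  exact .forall fun p => (m_le ml p s).imp ((t p).and (.forall fun q => measurable_const.imp
    ((Measurable.forall fun r => (ml r q).iff (ml r p)).imp (t q).not)))

theorem m_Ch (c : List ℕ → Set ℕ) (γ : Ordinal.{0}) : (Iio γ).Countable →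
    ∀ τ t, Measurable fun x => Ch I c (lt x) γ τ t := by
  induction γ using WellFoundedLT.induction with
  | _ γ ih =>
    intro hγ τ t
    haveI := hγ.to_subtype
    have : (fun x => Ch I c (lt x) γ τ t) = fun x => (∀ m, m ∈ c τ → le (lt x) m t) ∧
        ∀ δ : Iio γ, {u | lt x t u ∧ ∃ j, Ch I c (lt x) δ (τ ++ [j]) u} ∉ I := by
      funext x
      rw [Ch, Subtype.forall]
      rfl
    rw [this]
    exact (Measurable.forall fun m => measurable_const.imp (m_le ml m t)).and (.forall fun δ =>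
      (mI _ fun u => (ml t u).and (.exists fun j =>
        ih δ δ.2 (hγ.mono (Iio_subset_Iio (le_of_lt δ.2))) _ u)).not)

theorem step (hI : Idl I) (T : ∀ x, Tr (lt x)) {c : List ℕ → Set ℕ} (hc : ∀ τ, (c τ).Finite)
    (γ : Ordinal.{0}) : (Iio γ).Countable → ∀ τ t, ∃ B : X → ℕ → Prop,
      (∀ m, Measurable fun x => B x m) ∧ ∀ x, (∀ m, B x m → le (lt x) m t ∨ le (lt x) t m) ∧
        (∀ Z, Chain (lt x) Z → (∀ m ∈ Z, B x m) → Z ∈ I) ∧
        (Ch I c (lt x) γ τ t → (∀ Z, Chain (lt x) Z → Z ∈ I) → R c γ τ {m | B x m}) := by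
  induction γ using WellFoundedLT.induction with
  | _ γ ih =>
    classical
    intro hγ τ t
    haveI := hγ.to_subtype
    have cδ : ∀ δ : Iio γ, (Iio δ.1).Countable := fun δ => hγ.mono (Iio_subset_Iio (le_of_lt δ.2))
    choose F mF h1 h2 h3 using fun δ : Iio γ => ih δ δ.2 (cδ δ)
    obtain ⟨enc, henc⟩ := exists_injective_nat (Iio γ)
    let V : X → Iio γ → ℕ → Prop := fun x δ u => lt x t u ∧ ∃ j, Ch I c (lt x) δ (τ ++ [j]) u
    have mV : ∀ δ u, Measurable fun x => V x δ u := fun δ u =>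
      (ml t u).and (.exists fun j => m_Ch mI ml c δ (cδ δ) _ u)
    let val : X → ℕ → Iio γ → ℕ → Prop := fun x d δ k => le (lt x) d k.unpair.2 ∧
      lt x t k.unpair.2 ∧ Ch I c (lt x) δ (τ ++ [k.unpair.1]) k.unpair.2
    have mv : ∀ d δ k, Measurable fun x => val x d δ k := fun d δ k =>
      (m_le ml _ _).and ((ml _ _).and (m_Ch mI ml c δ (cδ δ) _ _))
    have mY := m_Y mI ml mV
    refine ⟨fun x m => Ch I c (lt x) γ τ t ∧ {s | Y I (lt x) (V x) s} ∈ I ∧ (m ∈ c τ ∨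
      ∃ d δ k, Bd I (lt x) (V x) d ∧ enc δ ≤ d ∧ val x d δ k ∧ (∀ l, l < k → ¬ val x d δ l) ∧
        F δ (τ ++ [k.unpair.1]) k.unpair.2 x m), fun m => ?_, fun x => ⟨?_, ?_, ?_⟩⟩
    · exact (m_Ch mI ml c γ hγ τ t).and ((mI _ mY).and (measurable_const.or (.exists fun d =>
        .exists fun δ => .exists fun k => ((mY d).not.and (.forall fun p => (ml p d).imp
        (mY p))).and (measurable_const.and ((mv d δ k).and ((Measurable.forall fun l =>
        measurable_const.imp (mv d δ l).not).and (mF _ _ _ m)))))))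
    · rintro m ⟨a, -, b | ⟨d, δ, k, -, -, b, -, e⟩⟩
      · rw [Ch] at a
        exact Or.inl (a.1 m b)
      · rcases h1 _ _ _ x m e with q | q
        exacts [(T x).total q (Or.inr b.2.1), Or.inr ((T x).le_trans (Or.inr b.2.1) q)]
    · intro Z hZ hB
      by_cases ex : ∃ m ∈ Z, ¬ Y I (lt x) (V x) m
      swap
      · rcases Z.eq_empty_or_nonempty with rfl | ⟨m, hm⟩
        · exact hI.fin _ finite_empty
        · exact hI.down _ (hB m hm).2.1 _ fun m hm => by_contra fun q => ex ⟨m, hm, q⟩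
      obtain ⟨m0, z0, y0⟩ := ex
      obtain ⟨d0, b0, l0⟩ := cover (T x) y0
      let S : Set (Iio γ × ℕ) := {p | enc p.1 ≤ d0 ∧ val x d0 p.1 p.2 ∧
        ∀ l, l < p.2 → ¬ val x d0 p.1 l}
      have hS : S.Finite := by
        refine Finite.of_finite_image (f := fun p => enc p.1)
          ((finite_le_nat d0).subset (by rintro _ ⟨p, hp, rfl⟩; exact hp.1)) ?_
        rintro ⟨δ, k⟩ hp ⟨ε, l⟩ hq e
        obtain rfl : δ = ε := henc e
        exact Prod.ext rfl (le_antisymm (not_lt.1 fun q => hp.2.2 l q hq.2.1)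
          (not_lt.1 fun q => hq.2.2 k q hp.2.1))
      refine hI.down _ (hI.union _ (hI.union _ (hB m0 z0).2.1 _ (hI.fin _ (hc τ))) _
        (hI.biUnion hS (U := fun p => {m | m ∈ Z ∧
          F p.1 (τ ++ [p.2.unpair.1]) p.2.unpair.2 x m}) fun p _ =>
          h2 _ _ _ x _ (fun a ha b hb => hZ a ha.1 b hb.1) fun m hm => hm.2)) _ fun m hm => ?_
      by_cases y : Y I (lt x) (V x) m
      · exact Or.inl (Or.inl y)
      rcases (hB m hm).2.2 with q | ⟨d, δ, k, a1, a2, a3, a4, a5⟩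
      · exact Or.inl (Or.inr q)
      obtain ⟨d1, b1, l1⟩ := cover (T x) y
      have e1 : d1 = d0 := by
        rcases hZ.total hm z0 with q | q
        exacts [b1.uniq (T x) b0 ((T x).le_trans l1 q) l0, b1.uniq (T x) b0 l1 ((T x).le_trans l0 q)]
      have e2 : d1 = d := by
        rcases h1 _ _ _ x m a5 with q | q
        exacts [b1.uniq (T x) a1 ((T x).le_trans l1 q) a3.1,
          b1.uniq (T x) a1 l1 ((T x).le_trans a3.1 q)]
      subst e1 e2
      exact Or.inr (mem_biUnion (x := (δ, k)) ⟨a2, a3, a4⟩ ⟨hm, a5⟩)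
    · intro a np
      have hY := np _ (Y_chain (I := I) (V := V x) (T x))
      rw [R]
      refine ⟨fun m hm => ⟨a, hY, Or.inl hm⟩, fun δ hδ => ?_⟩
      obtain ⟨d, u, b1, b2, b3, b4, j, b5⟩ := key hI (T x)
        (fun δ ε m h k => ⟨k.1, k.2.imp fun j => Ch.anti h⟩)
        (fun δ => by rw [Ch] at a; exact a.2 δ δ.2) hY ⟨δ, hδ⟩ (enc ⟨δ, hδ⟩)
      have ex : ∃ k, val x d ⟨δ, hδ⟩ k := ⟨Nat.pair j u, by
        simp only [val, Nat.unpair_pair]; exact ⟨b3, b4, b5⟩⟩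
      refine ⟨_, R.mono (fun m hm => ?_) _ _ (h3 ⟨δ, hδ⟩ _ _ x (Nat.find_spec ex).2.2 np)⟩
      exact ⟨a, hY, Or.inr ⟨d, _, _, b1, b2, Nat.find_spec ex, fun l => Nat.find_min ex, hm⟩⟩

theorem select (hI : Idl I) (T : ∀ x, Tr (lt x))
    (hm : MeasurableSet {x : ℕ → Bool | {n | x n = true} ∈ I}) {D : X → ℕ → Prop}
    (mD : ∀ m, Measurable fun x => D x m) (hD : ∀ x p m, lt x p m → D x p ∧ D x m)
    (pD : ∀ x, {m | D x m} ∉ I) : ∃ B : X → ℕ → Prop,
      (∀ m, Measurable fun x => B x m) ∧ ∀ x, (∀ m, B x m → D x m) ∧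
        (∀ Z, Chain (lt x) Z → (∀ m ∈ Z, B x m) → Z ∈ I) ∧
        ((∀ Z, Chain (lt x) Z → Z ∈ I) → {m | B x m} ∉ I) := by
  classical
  obtain ⟨c, α, c1, c2, c3, c4, c5⟩ := bound hI hm
  choose F mF h1 h2 h3 using step mI ml hI T c1 α c5 []
  have mC := m_Ch mI ml c α c5 []
  refine ⟨fun x m => D x m ∧ ∀ t, Ch I c (lt x) α [] t → (∀ u, u < t → ¬ Ch I c (lt x) α [] u) →
    F t x m, fun m => (mD m).and (.forall fun t => (mC t).imp ((Measurable.forall fun u =>
      measurable_const.imp (mC u).not).imp (mF t m))), fun x => ⟨fun m h => h.1, ?_, ?_⟩⟩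
  · intro Z hZ hB
    by_contra pos
    obtain ⟨z, hz⟩ := c3 Z pos
    obtain ⟨t, ht⟩ := nonempty_iff_ne_empty.2 fun e : Z = ∅ => pos (hI.fin _ (e ▸ finite_empty))
    have ex : ∃ t, Ch I c (lt x) α [] t :=
      ⟨t, ch_of_chain hI c1 hZ pos hz α 0 t ht fun m (hm : m ∈ c []) => by simp [c2] at hm⟩
    exact pos (h2 _ x Z hZ fun m hm => (hB m hm).2 _ (Nat.find_spec ex) fun u => Nat.find_min ex)
  · intro np q
    by_cases ex : ∃ t, Ch I c (lt x) α [] t
    · refine c4 _ (h3 _ x (Nat.find_spec ex) np) (hI.down _ (hI.union _ q _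
        (hI.fin _ (finite_singleton (Nat.find ex)))) _ fun m hm => ?_)
      by_cases e : m = Nat.find ex
      · exact Or.inr e
      refine Or.inl ⟨?_, fun t a b => ?_⟩
      · rcases h1 _ x m hm with (p | p) | (p | p)
        exacts [absurd p e, (hD _ _ _ p).1, absurd p.symm e, (hD _ _ _ p).2]
      · rwa [← (Nat.find_eq_iff ex).2 ⟨a, b⟩]
    · exact pD x (hI.down _ q _ fun m hm => ⟨hm, fun t a => absurd ⟨t, a⟩ ex⟩)

end

end Pool.Agent.H34.IMed
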