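import Pool.Agent.H34.IMedB

namespace Pool.Agent.H34.IMed
open Set Filter Topology

def ovw (p0 : ℕ → Bool) (n : ℕ) (p : ℕ → Bool) : ℕ → Bool := fun i => if i < n then p0 i else p i

theorem continuous_over (p0 : ℕ → Bool) (n : ℕ) : Continuous (ovw p0 n) := by
  refine continuous_pi fun i => ?_
  simp only [ovw]
  split_ifs
  · exact continuous_const
  · exact continuous_apply i

theorem residual_over (p0 : ℕ → Bool) (n : ℕ) {P : Set (ℕ → Bool)} (h : P ∈ residual (ℕ → Bool)) :
    ovw p0 n ⁻¹' P ∈ residual (ℕ → Bool) := by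
  refine tendsto_residual_of_isOpenMap (continuous_over p0 n) ?_ h
  have : ovw p0 n = Pi.map fun i (a : Bool) => if i < n then p0 i else a := rfl
  rw [this]
  refine IsOpenMap.piMap (fun i _ _ => isOpen_discrete _) ?_
  rw [Nat.cofinite_eq_atTop]
  filter_upwards [eventually_ge_atTop n] with i hi a
  exact ⟨a, if_neg (not_lt.2 hi)⟩

theorem exists_cyl {α : Type*} [TopologicalSpace α] {U : Set (ℕ → α)} {p0 : ℕ → α} (hU : U ∈ 𝓝 p0) :
    ∃ n, ∀ p : ℕ → α, (∀ i < n, p i = p0 i) → p ∈ U := by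
  obtain ⟨V, hVU, hV, hp⟩ := mem_nhds_iff.1 hU
  obtain ⟨I, u, hu, hI⟩ := isOpen_pi_iff.1 hV p0 hp
  obtain ⟨l, hl⟩ := I.bddAbove
  refine ⟨l + 1, fun p hp => hVU (hI fun j hj => ?_)⟩
  rw [hp j (Nat.lt_succ_of_le (hl hj))]
  exact (hu j hj).2

theorem meagre {I : Set (Set ℕ)} (hI : Idl I)
    (hm : MeasurableSet {x : ℕ → Bool | {n | x n = true} ∈ I}) :
    {x : ℕ → Bool | {n | x n = true} ∉ I} ∈ residual (ℕ → Bool) := by
  obtain ⟨U, hU, hPU⟩ := hm.baireMeasurableSet.residualEq_isOpen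
  have hPU' : {x : ℕ → Bool | {n | x n = true} ∈ I ↔ x ∈ U} ∈ residual (ℕ → Bool) := by
    filter_upwards [hPU] with x hx
    exact Iff.of_eq hx
  rcases U.eq_empty_or_nonempty with rfl | ⟨p0, hp0⟩
  · filter_upwards [hPU'] with x hx
    exact fun h => hx.1 h
  obtain ⟨n, hn⟩ := exists_cyl (hU.mem_nhds hp0)
  have h1 : {x : ℕ → Bool | {n | x n = true} ∈ I} ∈ residual (ℕ → Bool) := by
    filter_upwards [residual_over p0 n hPU'] with p hp
    refine hI.down _ (hI.union _ (hp.2 (hn _ fun i hi => if_pos hi)) _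
      (hI.fin _ (finite_lt_nat n))) _ fun i hi => (lt_or_ge i n).symm.imp (fun q => ?_) id
    exact (if_neg (not_lt.2 q)).trans hi
  have hc : Continuous fun (p : ℕ → Bool) i => !(p i) :=
    continuous_pi fun i => (continuous_of_discreteTopology (f := not)).comp (continuous_apply i)
  have hi : ∀ p : ℕ → Bool, (fun i => !(!(p i))) = p := fun p => funext fun i => Bool.not_not _
  obtain ⟨p, h2, h3⟩ := (dense_of_mem_residual (inter_mem h1
    (tendsto_residual_of_isOpenMap hc (IsOpenMap.of_inverse hc hi hi) h1))).nonempty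
  refine absurd (hI.down _ (hI.union _ h2 _ h3) _ fun i _ => ?_) hI.proper
  cases h : p i
  · exact Or.inr (by simp [h])
  · exact Or.inl h

theorem blocks {I : Set (Set ℕ)} (hI : Idl I)
    (hm : MeasurableSet {x : ℕ → Bool | {n | x n = true} ∈ I}) :
    ∃ b : ℕ → ℕ, (∀ k, {i | b i = k}.Finite) ∧ ∀ S : Set ℕ, S.Infinite → {i | b i ∈ S} ∉ I := by
  classical
  obtain ⟨S, s1, s2, s3, s4⟩ := mem_residual_iff.1 (meagre hI hm)
  obtain ⟨U, hU⟩ := (s3.insert univ).exists_eq_range (insert_nonempty _ _)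
  have hU' : ∀ j, IsOpen (U j) ∧ Dense (U j) := fun j => by
    rcases hU.ge (mem_range_self j) with q | q
    exacts [q ▸ ⟨isOpen_univ, dense_univ⟩, ⟨s1 _ q, s2 _ q⟩]
  have st : ∀ k n : ℕ, ∃ N, n < N ∧ ∃ q : ℕ → Bool, ∀ x : ℕ → Bool,
      (∀ i, n ≤ i → i < N → x i = q i) → ∀ j ≤ k, x ∈ U j := by
    intro k n
    let G := fun s : (Fin n → Bool) × Fin (k + 1) =>
      ovw (fun i => if h : i < n then s.1 ⟨i, h⟩ else false) n ⁻¹' U s.2
    obtain ⟨q, hq⟩ := (dense_of_mem_residual (iInter_mem.2 fun s => show G s ∈ _ from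
      residual_over _ _ (residual_of_dense_open (hU' _).1 (hU' _).2))).nonempty
    obtain ⟨N, hN⟩ := exists_cyl ((isOpen_iInter_of_finite fun s => show IsOpen (G s) from
      (hU' _).1.preimage (continuous_over _ _)).mem_nhds hq)
    refine ⟨N + n + 1, by omega, q, fun x hx j hj => ?_⟩
    have := mem_iInter.1 (hN (ovw q n x) fun i hi => ?_) (fun i => x i, ⟨j, by omega⟩)
    · convert mem_preimage.1 this
      funext i
      simp only [ovw]
      split_ifs <;> rfl
    · simp only [ovw]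
      split_ifs with h
      exacts [rfl, hx i (by omega) (by omega)]
  choose N h1 q h2 using st
  let n : ℕ → ℕ := fun k => k.rec 0 N
  have mono : StrictMono n := strictMono_nat_of_lt_succ fun k => h1 k (n k)
  have ex : ∀ i, ∃ k, i < n (k + 1) := fun i => ⟨i, mono.id_le (i + 1)⟩
  refine ⟨fun i => Nat.find (ex i), fun k => (finite_lt_nat (n (k + 1))).subset ?_,
    fun T hT c => ?_⟩
  · rintro i rfl
    exact Nat.find_spec (ex i)
  · refine s4 (a := fun i => if Nat.find (ex i) ∈ T then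
      q (Nat.find (ex i)) (n (Nat.find (ex i))) i else false) (fun V hV => ?_)
      (hI.down _ c _ fun i hi => by_contra fun k => ?_)
    · obtain ⟨j, rfl⟩ := hU.le (mem_insert_of_mem _ hV)
      obtain ⟨k, k1, k2⟩ := hT.exists_gt j
      refine h2 k (n k) _ (fun i a b => ?_) j k2.le
      have : Nat.find (ex i) = k := (Nat.find_eq_iff _).2
        ⟨b, fun l hl => not_lt.2 ((mono.monotone hl).trans a)⟩
      simp only [this, if_pos k1]
    · exact Bool.false_ne_true ((if_neg k).symm.trans hi)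

theorem meas_loc {α : Type} [Countable α] [MeasurableSpace α] [DiscreteMeasurableSpace α]
    [Inhabited α] {f : (ℕ → α) → Prop} (K : ℕ)
    (h : ∀ x y, (∀ i < K, x i = y i) → f x → f y) : Measurable f := by
  have : f = (fun s : Fin K → α => f fun i => if h : i < K then s ⟨i, h⟩ else default) ∘
      fun x i => x i := by
    funext x
    exact propext ⟨h _ _ fun i hi => by simp [hi], h _ _ fun i hi => dif_pos hi⟩
  rw [this]
  exact (measurable_of_countable _).comp (measurable_pi_lambda _ fun i => measurable_pi_apply _)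

def CG (w : (ℕ → ℕ) → ℕ → ℕ) : Prop :=
  ∀ x v : ℕ → ℕ, (∀ N, ∃ y, ∀ i < N, y i = x i ∧ w y i = v i) → w x = v

theorem CG.cons {u : (ℕ → ℕ) → ℕ → ℕ} (hu : CG u) {g : (ℕ → ℕ) → ℕ}
    (hg : ∀ v n, (∀ N, ∃ v', (∀ i < N, v' i = v i) ∧ g v' = n) → g v = n) :
    CG fun x i => i.rec (g (u x)) fun i _ => u x i := by
  intro x v h
  have e : u x = fun i => v (i + 1) := hu x _ fun N => (h (N + 1)).imp fun y hy i hi =>
    ⟨(hy i (by omega)).1, (hy (i + 1) (by omega)).2⟩
  funext i
  cases i with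
  | zero =>
    refine hg _ _ fun N => ?_
    obtain ⟨y, hy⟩ := h (N + 1)
    exact ⟨u y, fun i hi => e ▸ (hy (i + 1) (by omega)).2, (hy 0 (by omega)).2⟩
  | succ i => exact congrFun e i

theorem CG.pair {w : ℕ → (ℕ → ℕ) → ℕ → ℕ} (h : ∀ n, CG (w n)) :
    CG fun x k => w k.unpair.1 x k.unpair.2 := by
  intro x v k
  funext i
  refine (congrFun (h i.unpair.1 x (fun j => v (Nat.pair i.unpair.1 j)) fun N => ?_) _).trans
    (congrArg v (Nat.pair_unpair i))
  refine (k (Nat.pair i.unpair.1 N)).imp fun y hy j hj =>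
    ⟨(hy j (hj.trans_le (Nat.right_le_pair _ _))).1, ?_⟩
  simpa using (hy _ (Nat.pair_lt_pair_right _ hj)).2

theorem exists_CG {A : Set (ℕ → ℕ)} (hA : MeasurableSet A) :
    ∃ w, CG w ∧ ∀ x, x ∈ A ↔ w x 0 ≠ 0 := by
  classical
  have base : ∀ i (s : Set ℕ), ∃ w, CG w ∧ ∀ x : ℕ → ℕ, x i ∈ s ↔ w x 0 ≠ 0 := by
    refine fun i s => ⟨fun x _ => if x i ∈ s then 1 else 0, fun x v h => funext fun j => ?_,
      fun x => by simp⟩
    obtain ⟨y, hy⟩ := h (i + j + 1)
    simp only [← (hy j (by omega)).2, ← (hy i (by omega)).1]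
  let M : MeasurableSpace (ℕ → ℕ) :=
    { MeasurableSet' := fun A => ∃ w, CG w ∧ ∀ x, x ∈ A ↔ w x 0 ≠ 0
      measurableSet_empty := base 0 ∅
      measurableSet_compl := fun A ⟨w, h1, h2⟩ => ⟨_, h1.cons (g := fun v => if v 0 = 0 then 1 else 0)
        fun v n h => by
          obtain ⟨v', a, b⟩ := h 1
          rw [← b, a 0 one_pos], fun x => by simp [h2]⟩
      measurableSet_iUnion := fun A h => by
        choose w h1 h2 using h
        refine ⟨_, (CG.pair h1).cons (g := fun v => if h : ∃ n, v (Nat.pair n 0) ≠ 0 then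
          Nat.find h + 1 else 0) fun v n h => ?_, fun x => by simp [h2]⟩
        by_cases ex : ∃ n, v (Nat.pair n 0) ≠ 0
        · obtain ⟨v', a, b⟩ := h (Nat.pair (Nat.find ex + 1) 0)
          have k : ∀ l ≤ Nat.find ex, v' (Nat.pair l 0) = v (Nat.pair l 0) := fun l hl =>
            a _ (Nat.pair_lt_pair_left _ (by omega))
          have ex' : ∃ n, v' (Nat.pair n 0) ≠ 0 := ⟨_, k _ le_rfl ▸ Nat.find_spec ex⟩
          rw [← b, dif_pos ex, dif_pos ex', (Nat.find_eq_iff ex').2
            ⟨k _ le_rfl ▸ Nat.find_spec ex, fun l hl => k l hl.le ▸ Nat.find_min ex hl⟩]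
        · obtain ⟨v', a, b⟩ := h (Nat.pair n 0)
          rw [dif_neg ex]
          split_ifs at b with ex'
          · exact absurd ⟨Nat.find ex', a _ (Nat.pair_lt_pair_left _
              (by omega : Nat.find ex' < n)) ▸ Nat.find_spec ex'⟩ ex
          · exact b }
  have : MeasurableSpace.pi ≤ M := iSup_le fun i => by
    rintro _ ⟨s, -, rfl⟩
    exact base i s
  exact this A hA

end Pool.Agent.H34.IMed
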