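import Pool.Agent.H34.IMedC

namespace Pool.Agent.H34.IMed
open Set Encodable

def ch {α : Type} [Encodable α] (h : ℕ → α) (j : ℕ) : ℕ := encode ((List.range j).map h)

theorem ch_eq {α : Type} [Encodable α] {h h' : ℕ → α} {j k : ℕ} :
    ch h j = ch h' k ↔ j = k ∧ ∀ i < j, h i = h' i := by
  simp only [ch, encode_inj]
  refine ⟨fun e => ?_, ?_⟩
  · obtain rfl : j = k := by simpa using congrArg List.length e
    simpa [List.map_inj_left] using e
  · rintro ⟨rfl, e⟩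
    simpa [List.map_inj_left] using e

theorem exists_D {I : Set (Set ℕ)} (hI : Idl I)
    (hm : MeasurableSet {x : ℕ → Bool | {n | x n = true} ∈ I}) :
    ∃ (D : (ℕ → ℕ) → ℕ → Prop) (o : ℕ → ℕ), (∀ m, Measurable fun x => D x m) ∧
      (∀ x, {m | D x m} ∉ I) ∧ (∀ x y, x ≠ y → {m | D x m ∧ D y m}.Finite) ∧
      (∀ k, k ≤ o k) ∧ ∀ x k, ¬ D x (o k) := by
  obtain ⟨b, b1, b2⟩ := blocks hI hm
  have : ∀ k, ∃ o, k ≤ o ∧ b o % 2 = 1 := fun k => by
    by_contra! c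
    refine b2 (range fun j => 2 * j + 1) (infinite_range_of_injective fun a b e => by
      simpa using e) (hI.fin _ ((finite_lt_nat k).subset ?_))
    rintro i ⟨j, e⟩
    exact not_le.1 fun q => c i q (by simp only at e; omega)
  choose o o1 o2 using this
  refine ⟨fun x m => ∃ j, b m = 2 * ch x j, o, fun m => .exists fun j => meas_loc j
    fun x y h e => e.trans (congrArg _ (ch_eq.2 ⟨rfl, h⟩)), fun x c => ?_, fun x y h => ?_, o1,
    fun x k ⟨j, e⟩ => by have := o2 k; omega⟩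
  · exact b2 (range fun j => 2 * ch x j) (infinite_range_of_injective fun a b e =>
      (ch_eq.1 (by simpa using e)).1) (hI.down _ c _ fun i ⟨j, e⟩ => ⟨j, e.symm⟩)
  · obtain ⟨i, hi⟩ := Function.ne_iff.1 h
    refine ((finite_le_nat i).biUnion fun j _ => b1 (2 * ch x j)).subset ?_
    rintro m ⟨⟨j, e⟩, k, e'⟩
    exact mem_biUnion (x := j) (not_lt.1 fun c => hi ((ch_eq.1
      (by omega : ch x j = ch y k)).2 i c)) e

def LT (D : (ℕ → ℕ) → ℕ → Prop) (x : ℕ → ℕ) (p m : ℕ) : Prop :=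
  p < m ∧ D x p ∧ D x m ∧ ∃ y : ℕ → ℕ × ℕ, x p = ch y (p + 1) ∧ x m = ch y (m + 1)

theorem tr_LT (D : (ℕ → ℕ) → ℕ → Prop) (x : ℕ → ℕ) : Tr (LT D x) := by
  refine ⟨fun h => h.1, ?_, ?_⟩
  · rintro a b c ⟨k1, k2, -, z, k3, k4⟩ ⟨l1, -, l2, w, l3, l4⟩
    exact ⟨k1.trans l1, k2, l2, w, k3.trans (ch_eq.2 ⟨rfl, fun i hi =>
      (ch_eq.1 (k4.symm.trans l3)).2 i (by omega)⟩), l4⟩
  · rintro a b c ⟨-, k2, -, z, k3, k4⟩ ⟨l1, l2, -, w, l3, l4⟩ ab
    exact ⟨ab, k2, l2, w, k3.trans (ch_eq.2 ⟨rfl, fun i hi =>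
      (ch_eq.1 (k4.symm.trans l4)).2 i (by omega)⟩), l3⟩

theorem chain_lim {D : (ℕ → ℕ) → ℕ → Prop} {x : ℕ → ℕ} {Z : Set ℕ} (hZ : Chain (LT D x) Z)
    (inf : Z.Infinite) : ∃ y : ℕ → ℕ × ℕ, ∀ m ∈ Z, D x m ∧ x m = ch y (m + 1) := by
  choose a a1 a2 using inf.exists_gt
  have : ∀ m ∈ Z, ∃ y : ℕ → ℕ × ℕ, D x m ∧ x m = ch y (m + 1) := fun m hm => by
    obtain ⟨-, h, -, y, e, -⟩ := hZ m hm _ (a1 m) (a2 m)
    exact ⟨y, h, e⟩
  choose! y y1 y2 using this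
  have k : ∀ p ∈ Z, ∀ q ∈ Z, ∀ i, i ≤ p → p < q → y p i = y q i := fun p hp q hq i h1 h2 => by
    obtain ⟨-, -, -, w, e1, e2⟩ := hZ p hp q hq h2
    exact ((ch_eq.1 ((y2 p hp).symm.trans e1)).2 i (by omega)).trans
      ((ch_eq.1 (e2.symm.trans (y2 q hq))).2 i (by omega))
  refine ⟨fun i => y (a i) i, fun m hm => ⟨y1 m hm, (y2 m hm).trans (ch_eq.2 ⟨rfl, fun i hi => ?_⟩)⟩⟩
  rcases lt_trichotomy m (a i) with e | e | e
  exacts [k _ hm _ (a1 i) i (by omega) e, by rw [← e], (k _ (a1 i) _ hm i (a2 i).le e).symm]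

theorem main {I : Set (Set ℕ)} (hI : Idl I)
    (hm : MeasurableSet {x : ℕ → Bool | {n | x n = true} ∈ I}) :
    ∃ ε : Set (ℕ → ℕ), IsClosed ε ∧ (∀ f ∈ ε, ∀ g ∈ ε, f ≠ g → {n : ℕ | f n = g n} ∈ I) ∧
      ∀ h : ℕ → ℕ, ∃ f ∈ ε, {n : ℕ | f n = h n} ∉ I := by
  classical
  obtain ⟨D, o, mD, pD, aD, o1, o2⟩ := exists_D hI hm
  obtain ⟨B, mB, hB⟩ := select (lt := LT D) (fun P hP => by
      have : Measurable fun x m => decide (P x m) := measurable_pi_lambda _ fun m =>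
        (measurable_of_countable fun p : Prop => decide p).comp (hP m)
      simpa using measurableSet_setOf.1 (this hm))
    (fun p m => measurable_const.and ((mD p).and ((mD m).and (meas_loc (p + m + 1)
      fun x y h e => e.imp fun w e => by rw [← h p (by omega), ← h m (by omega)]; exact e))))
    hI (tr_LT D) hm mD (fun x p m h => ⟨h.2.1, h.2.2.1⟩) pD
  choose w w1 w2 using fun m => exists_CG (measurableSet_setOf.2 (mB m))
  have hu := CG.pair w1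
  set u : (ℕ → ℕ) → ℕ → ℕ := fun x k => w k.unpair.1 x k.unpair.2
  have hu2 : ∀ x m, B x m ↔ u x (Nat.pair m 0) ≠ 0 := fun x m => by
    simp only [u, Nat.unpair_pair]
    exact w2 m x
  let P : (ℕ → ℕ × ℕ) → ℕ → Prop := fun y m =>
    (∃ x, ∀ i ≤ Nat.pair m 0, y i = (x i, u x i)) ∧ (y (Nat.pair m 0)).2 ≠ 0
  let e : (ℕ → ℕ × ℕ) → ℕ → ℕ := fun y m => if P y m then (y m).1 else ch y (m + 1)
  have p1 : ∀ x m, P (fun i => (x i, u x i)) m ↔ B x m := fun x m =>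
    ⟨fun h => (hu2 x m).2 h.2, fun h => ⟨⟨x, fun _ _ => rfl⟩, (hu2 x m).1 h⟩⟩
  have p2 : ∀ y, (∃ x, y = fun i => (x i, u x i)) ∨ {m | P y m}.Finite := fun y => by
    refine (em _).symm.imp (fun c => ?_) id
    refine ⟨fun i => (y i).1, funext fun i => Prod.ext rfl (congrFun (hu _ (fun i => (y i).2)
      fun N => ?_) i).symm⟩
    obtain ⟨m, ⟨⟨x, hx⟩, -⟩, h⟩ := Infinite.exists_gt c N
    have := Nat.left_le_pair m 0
    exact ⟨x, fun i hi => by rw [hx i (by omega)]; exact ⟨rfl, rfl⟩⟩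
  have p3 : ∀ y k, e y (o k) = ch y (o k + 1) := fun y k => if_neg fun ⟨⟨x, hx⟩, h⟩ =>
    o2 x k ((hB x).1 _ ((hu2 x _).2 (by rwa [hx _ le_rfl] at h)))
  have p4 : ∀ y z, {m | P y m ∧ (y m).1 = ch z (m + 1)} ∈ I := fun y z => by
    rcases p2 y with ⟨x, rfl⟩ | h
    · exact (hB x).2.1 _ (fun a ha b hb ab => ⟨ab, (hB x).1 a ((p1 x a).1 ha.1),
        (hB x).1 b ((p1 x b).1 hb.1), z, ha.2, hb.2⟩) fun m hm => (p1 x m).1 hm.1
    · exact hI.fin _ (h.subset fun m hm => hm.1)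
  refine ⟨range e, isClosed_of_closure_subset fun f hf => ?_, ?_, fun h => ?_⟩
  · have : ∀ N, ∃ y, ∀ i ≤ N, e y i = f i := fun N => by
      obtain ⟨g, h1, y, rfl⟩ := mem_closure_iff.1 hf {g | ∀ i ∈ Finset.range (N + 1), g i = f i}
        (by
          simp only [setOf_forall]
          exact isOpen_biInter_finset fun i _ => (isOpen_discrete ({f i} : Set ℕ)).preimage
            (f := fun p : ℕ → ℕ => p i) (continuous_apply i)) fun _ _ => rfl
      exact ⟨y, fun i hi => h1 i (Finset.mem_range.2 (Nat.lt_succ_of_le hi))⟩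
    choose y hy using this
    have k : ∀ i N, o i ≤ N → y (o i) i = y N i := fun i N h => (ch_eq.1 ((p3 _ i).symm.trans
      ((hy _ _ le_rfl).trans ((hy N _ h).symm.trans (p3 _ i))))).2 i (Nat.lt_succ_of_le (o1 i))
    refine ⟨fun i => y (o i) i, funext fun n => ?_⟩
    obtain ⟨N, hN⟩ := ((finite_le_nat (Nat.pair n 0)).image o).bddAbove
    have l : ∀ i ≤ Nat.pair n 0, y (o i) i = y (N + n) i := fun i hi =>
      k i _ ((hN ⟨i, hi, rfl⟩).trans (by omega))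
    have := Nat.left_le_pair n 0
    rw [← hy (N + n) n (by omega)]
    refine if_congr (and_congr (exists_congr fun x => forall₂_congr fun i hi => by rw [← l i hi])
      (by rw [← l _ le_rfl])) (by rw [← l n this]) (ch_eq.2 ⟨rfl, fun i hi => l i (by omega)⟩)
  · rintro _ ⟨y, rfl⟩ _ ⟨z, rfl⟩ h
    have yz : y ≠ z := fun q => h (by rw [q])
    have a : {m | P y m ∧ P z m}.Finite := by
      rcases p2 y with ⟨x, rfl⟩ | q
      · rcases p2 z with ⟨x', rfl⟩ | q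
        · exact (aD x x' fun q => yz (by rw [q])).subset fun m hm =>
            ⟨(hB x).1 m ((p1 x m).1 hm.1), (hB x').1 m ((p1 x' m).1 hm.2)⟩
        · exact q.subset fun m hm => hm.2
      · exact q.subset fun m hm => hm.1
    obtain ⟨i, hi⟩ := Function.ne_iff.1 yz
    refine hI.down _ (hI.union _ (hI.union _ (hI.fin _ a) _ (hI.fin _ (finite_lt_nat i))) _
      (hI.union _ (p4 y z) _ (p4 z y))) _ fun m (hm : ite _ _ _ = ite _ _ _) => ?_
    split_ifs at hm with q r r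
    · exact .inl (.inl ⟨q, r⟩)
    · exact .inr (.inl ⟨q, hm⟩)
    · exact .inr (.inr ⟨r, hm.symm⟩)
    · exact .inl (.inr (not_le.1 fun c => hi ((ch_eq.1 hm).2 i (Nat.lt_succ_of_le c))))
  · by_cases np : ∀ Z, Chain (LT D h) Z → Z ∈ I
    · exact ⟨_, ⟨fun i => (h i, u h i), rfl⟩, fun c => (hB h).2.2 np
        (hI.down _ c _ fun m hm => if_pos ((p1 h m).2 hm))⟩
    push Not at np
    obtain ⟨Z, hZ, pos⟩ := np
    obtain ⟨y, hy⟩ := chain_lim hZ fun c => pos (hI.fin _ c)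
    refine ⟨_, ⟨y, rfl⟩, fun c => pos ?_⟩
    have k : ∀ m ∈ Z, ¬ P y m → e y m = h m := fun m hm q => (if_neg q).trans (hy m hm).2.symm
    rcases p2 y with ⟨x, rfl⟩ | q
    · by_cases xh : x = h
      · subst xh
        exact hI.down _ c _ fun m hm => (em _).elim (fun q => if_pos q) (k m hm)
      · exact hI.down _ (hI.union _ c _ (hI.fin _ (aD x h xh))) _ fun m hm => (em _).symm.imp
          (k m hm) fun q => ⟨(hB x).1 m ((p1 x m).1 q), (hy m hm).1⟩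
    · exact hI.down _ (hI.union _ c _ (hI.fin _ q)) _ fun m hm => (em _).symm.imp (k m hm) id

end Pool.Agent.H34.IMed
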