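import Mathlib

namespace Pool.Agent.H34.IdentDefs

/-- A finite simple graph. -/
structure FG where
  V : Type
  fin : Finite V
  G : SimpleGraph V

/-- `B` is (isomorphic to) the graph obtained from `A` by contracting one edge `u v`. -/
def Contr (A B : FG) : Prop :=
  ∃ (u v : A.V) (π : A.V → B.V), A.G.Adj u v ∧ Function.Surjective π ∧
    (∀ x y, π x = π y ↔ x = y ∨ (x ∈ ({u, v} : Set A.V) ∧ y ∈ ({u, v} : Set A.V))) ∧
    B.G = A.G.map π

/-- `B` is obtained from `A` by `k` successive edge contractions. -/
def Contrs : ℕ → FG → FG → Prop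
  | 0, A, B => A = B
  | k + 1, A, B => ∃ C, Contr A C ∧ Contrs k C B

/-- A minor-closed class: closed under isomorphic copies of subgraphs and edge contractions. -/
def MinorClosed (H : FG → Prop) : Prop :=
  (∀ A B, H A → B.G.IsContained A.G → H B) ∧ ∀ A B, H A → Contr A B → H B

/-- `A` admits a `k`-identification to `H`: the fibres of `π` with more than one element lie in a
set `X` of at most `k` vertices, and identifying each fibre gives a graph in `H`. -/
def Ident (H : FG → Prop) (A : FG) (k : ℕ) : Prop :=
  ∃ (X : Set A.V) (B : FG) (π : A.V → B.V), X.ncard ≤ k ∧ Function.Surjective π ∧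
    (∀ x y, π x = π y → x = y ∨ (x ∈ X ∧ y ∈ X)) ∧ B.G = A.G.map π ∧ H B

end Pool.Agent.H34.IdentDefs
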