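import Mathlib
import Pool.Agent.H34.IdentDefs

namespace Pool.Agent.H34.Ident
open Pool.Agent.H34.IdentDefs SimpleGraph

def Big {V : Type} (G : SimpleGraph V) (x : V) : Prop :=
  ∃ a b c, G.Adj x a ∧ G.Adj x b ∧ G.Adj x c ∧ a ≠ b ∧ a ≠ c ∧ b ≠ c

def HH (A : FG) : Prop := ∀ x y, Big A.G x → Big A.G y → x = y

theorem big_map {V W : Type} {G : SimpleGraph V} {π : V → W} {x : V}
    (hx : ∀ y, π y = π x → y = x) (h : Big (G.map π) (π x)) : Big G x := by
  obtain ⟨_, _, _, ⟨-, x1, a, h1, e1, rfl⟩, ⟨-, x2, b, h2, e2, rfl⟩, ⟨-, x3, c, h3, e3, rfl⟩,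
    n1, n2, n3⟩ := h
  rw [hx _ e1] at h1; rw [hx _ e2] at h2; rw [hx _ e3] at h3
  exact ⟨a, b, c, h1, h2, h3, fun e => n1 (e ▸ rfl), fun e => n2 (e ▸ rfl), fun e => n3 (e ▸ rfl)⟩

theorem minorClosed : MinorClosed HH := by
  constructor
  · rintro A B hA ⟨f⟩ x y hx hy
    have k : ∀ z, Big B.G z → Big A.G (f z) := by
      rintro z ⟨a, b, c, h1, h2, h3, n1, n2, n3⟩
      exact ⟨f a, f b, f c, f.toHom.map_adj h1, f.toHom.map_adj h2, f.toHom.map_adj h3,
        f.injective.ne n1, f.injective.ne n2, f.injective.ne n3⟩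
    exact f.injective (hA _ _ (k x hx) (k y hy))
  · rintro A B hA ⟨u, v, π, huv, hs, hπ, hB⟩
    have k : ∀ z, Big B.G z → ∃ x, π x = z ∧ Big A.G x := by
      intro z hz
      obtain ⟨x, rfl⟩ := hs z
      rw [hB] at hz
      by_cases hx : x ∈ ({u, v} : Set A.V)
      · have euv : π u = π x := (hπ _ _).2 (Or.inr ⟨by simp, hx⟩)
        have evv : π v = π x := (hπ _ _).2 (Or.inr ⟨by simp, hx⟩)
        obtain ⟨_, _, _, ⟨m1, x1, a, h1, e1, rfl⟩, ⟨m2, x2, b, h2, e2, rfl⟩, ⟨m3, x3, c, h3, e3, rfl⟩,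
          n1, n2, n3⟩ := hz
        have f : ∀ w, π w = π x → w = u ∨ w = v := fun w hw =>
          ((hπ _ _).1 hw).elim (fun e => e ▸ hx) fun e => e.1
        have two : ∀ p q s t, A.G.Adj p q → π q = π x → A.G.Adj p s → A.G.Adj p t → π x ≠ π s →
            π x ≠ π t → π s ≠ π t → Big A.G p := fun p q s t k1 k2 k3 k4 k5 k6 k7 =>
          ⟨q, s, t, k1, k3, k4, fun e => k5 (e ▸ k2.symm), fun e => k6 (e ▸ k2.symm),
            fun e => k7 (e ▸ rfl)⟩
        rcases f _ e1 with rfl | rfl <;> rcases f _ e2 with r2 | r2 <;> rcases f _ e3 with r3 | r3 <;>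
          rw [r2] at h2 <;> rw [r3] at h3
        · exact ⟨_, euv, two _ _ _ _ huv evv h1 h2 m1 m2 n1⟩
        · exact ⟨_, euv, two _ _ _ _ huv evv h1 h2 m1 m2 n1⟩
        · exact ⟨_, euv, two _ _ _ _ huv evv h1 h3 m1 m3 n2⟩
        · exact ⟨_, evv, two _ _ _ _ huv.symm euv h2 h3 m2 m3 n3⟩
        · exact ⟨_, euv, two _ _ _ _ huv evv h2 h3 m2 m3 n3⟩
        · exact ⟨_, evv, two _ _ _ _ huv.symm euv h1 h3 m1 m3 n2⟩
        · exact ⟨_, evv, two _ _ _ _ huv.symm euv h1 h2 m1 m2 n1⟩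
        · exact ⟨_, evv, two _ _ _ _ huv.symm euv h1 h2 m1 m2 n1⟩
      · exact ⟨x, rfl, big_map (fun y hy => ((hπ _ _).1 hy).elim id fun e => absurd e.2 hx) hz⟩
    intro x y hx hy
    obtain ⟨x', rfl, h1⟩ := k x hx
    obtain ⟨y', rfl, h2⟩ := k y hy
    rw [hA _ _ h1 h2]

theorem merge {V : Type} (u v : V) (h : u ≠ v) : ∃ π : V → {x // x ≠ v}, Function.Surjective π ∧
    ∀ x y, π x = π y ↔ x = y ∨ (x ∈ ({u, v} : Set V) ∧ y ∈ ({u, v} : Set V)) := by
  classical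
  refine ⟨fun x => if hx : x = v then ⟨u, h⟩ else ⟨x, hx⟩, fun x => ⟨x, by simp [x.2]⟩, fun x y => ?_⟩
  by_cases hx : x = v <;> by_cases hy : y = v <;> simp [hx, hy, eq_comm]
  all_goals first | tauto | (rintro rfl rfl; rfl)

theorem reach (n : ℕ) : ∀ A : FG, Nat.card A.V = n → ∃ k B, Contrs k A B ∧ HH B := by
  induction n using Nat.strong_induction_on with
  | _ n ih =>
  intro A hA
  by_cases h : ∃ u v, A.G.Adj u v
  · obtain ⟨u, v, huv⟩ := h
    obtain ⟨π, h1, h2⟩ := merge u v huv.ne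
    have := A.fin
    obtain ⟨k, B, h3, h4⟩ := ih _ (hA ▸ Finite.card_subtype_lt (p := fun x => x ≠ v) (x := v) (by simp))
      ⟨{x // x ≠ v}, inferInstance, A.G.map π⟩ rfl
    exact ⟨k + 1, B, ⟨_, ⟨u, v, π, huv, h1, h2, rfl⟩, h3⟩, h4⟩
  · exact ⟨0, A, rfl, fun x _ ⟨a, _, _, h1, _⟩ => absurd ⟨x, a, h1⟩ h⟩

def Inv (A : FG) (k : ℕ) : Prop :=
  ∃ (u v : A.V) (h : A.V → ℕ), (∀ x y, A.G.Adj x y → h x ≤ h y + 1) ∧ h u + k ≤ h v ∧
    k + 2 ≤ (A.G.neighborSet u).ncard ∧ k + 2 ≤ (A.G.neighborSet v).ncard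

theorem Inv.not {A : FG} {k : ℕ} (h : Inv A (k + 1)) : ¬ HH A := by
  obtain ⟨u, v, f, -, h1, h2, h3⟩ := h
  have := A.fin
  have k : ∀ x, 2 < (A.G.neighborSet x).ncard → Big A.G x := fun x hx => by
    obtain ⟨a, b, c, h1, h2, h3, h4⟩ := (Set.two_lt_ncard_iff (Set.toFinite _)).1 hx
    exact ⟨a, b, c, h1, h2, h3, h4⟩
  intro H
  have := H u v (k u (by omega)) (k v (by omega))
  subst this
  omega

theorem Inv.step {A B : FG} {k : ℕ} (h : Inv A (k + 1)) (hc : Contr A B) : Inv B k := by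
  classical
  obtain ⟨u, v, f, h0, h1, h2, h3⟩ := h
  obtain ⟨p, q, π, hpq, hs, hπ, hB⟩ := hc
  have := A.fin
  have := B.fin
  let t := min (f p) (f q)
  let g : A.V → ℕ := fun x => if f x ≤ t then f x else f x - 1
  have a1 := h0 p q hpq
  have a2 := h0 q p hpq.symm
  have gpq : g p = t ∧ g q = t := by simp only [g, t]; constructor <;> split_ifs <;> omega
  have hg : ∀ x y, π x = π y → g x = g y := fun x y e => by
    rcases (hπ _ _).1 e with rfl | ⟨rfl | rfl, rfl | rfl⟩ <;> simp [gpq.1, gpq.2]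
  have ext : ∀ x, g (Function.surjInv hs (π x)) = g x := fun x => hg _ _ (Function.surjInv_eq hs _)
  have deg : ∀ x, (A.G.neighborSet x).ncard ≤ (B.G.neighborSet (π x)).ncard + 1 := by
    intro x
    let w := if x = p then q else p
    have i1 : Set.InjOn π (A.G.neighborSet x \ {w}) := by
      rintro a ⟨ha, ha'⟩ b ⟨hb, hb'⟩ e
      have n1 := ha.ne
      have n2 := hb.ne
      simp only [Set.mem_singleton_iff, w] at ha' hb'
      rcases (hπ _ _).1 e with rfl | ⟨rfl | rfl, rfl | rfl⟩ <;> simp_all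
    have i2 : π '' (A.G.neighborSet x \ {w}) ⊆ B.G.neighborSet (π x) := by
      rintro _ ⟨a, ⟨ha, ha'⟩, rfl⟩
      rw [hB]
      refine ⟨fun e => ?_, x, a, ha, rfl, rfl⟩
      have n1 := ha.ne
      simp only [Set.mem_singleton_iff, w] at ha'
      have := hpq.ne
      rcases (hπ _ _).1 e with rfl | ⟨rfl | rfl, rfl | rfl⟩ <;> simp_all
    have i3 := Set.ncard_le_ncard i2 (Set.toFinite _)
    rw [Set.ncard_image_of_injOn i1] at i3
    have i4 := Set.ncard_le_ncard_diff_add_ncard (A.G.neighborSet x) {w}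
    simp only [Set.ncard_singleton] at i4
    omega
  refine ⟨π u, π v, fun z => g (Function.surjInv hs z), ?_, ?_, ?_, ?_⟩
  · rw [hB]
    rintro _ _ ⟨-, x, y, hxy, rfl, rfl⟩
    have := h0 x y hxy
    simp only [ext]
    simp only [g]
    split_ifs <;> omega
  · simp only [ext]
    simp only [g]
    split_ifs <;> omega
  · have := deg u; omega
  · have := deg v; omega

theorem lower (k : ℕ) : ∀ (n : ℕ) (A B : FG), Inv A n → Contrs k A B → HH B → n ≤ k := by
  induction k with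
  | zero =>
    rintro (_ | n) A B h rfl hB
    · rfl
    · exact absurd hB h.not
  | succ k ih =>
    rintro (_ | n) A B h ⟨C, h1, h2⟩ hB
    · omega
    · have := ih n C B (h.step h1) h2 hB
      omega

def broom (n : ℕ) : SimpleGraph (Fin (n + 2) ⊕ Bool × Fin (n + 3)) :=
  fromRel fun x y => match x, y with
    | .inl i, .inl j => i.val + 1 = j.val
    | .inl i, .inr p => i.val = if p.1 then n + 1 else 0
    | _, _ => False

theorem broom_inv (n : ℕ) : Inv ⟨_, inferInstance, broom n⟩ (n + 1) := by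
  have deg : ∀ (b : Bool) (i : Fin (n + 2)), i.val = (if b then n + 1 else 0) →
      n + 3 ≤ ((broom n).neighborSet (.inl i)).ncard := by
    intro b i hi
    have := Set.ncard_le_ncard (s := Set.range fun j : Fin (n + 3) => Sum.inr (b, j))
      (t := (broom n).neighborSet (.inl i)) (by rintro _ ⟨j, rfl⟩; simp [broom, hi]) (Set.toFinite _)
    rwa [Set.ncard_range_of_injective (fun a b h => by simpa using h), Nat.card_fin] at this
  refine ⟨.inl 0, .inl (Fin.last _), Sum.elim Fin.val fun p => if p.1 then n + 1 else 0, ?_,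
    by simp, deg false _ rfl, deg true _ rfl⟩
  rintro (i | p) (j | q) ⟨-, h | h⟩ <;> simp at h ⊢ <;> omega

theorem broom_big (n : ℕ) (x) (h : Big (broom n) x) : x = .inl 0 ∨ x = .inl (Fin.last _) := by
  obtain ⟨a, b, c, h1, h2, h3, n1, n2, n3⟩ := h
  rcases x with i | p
  · by_contra hc
    simp only [Sum.inl.injEq, Fin.ext_iff, Fin.val_zero, Fin.val_last, not_or] at hc
    have k : ∀ y, (broom n).Adj (.inl i) y → ∃ j : Fin (n + 2), y = .inl j ∧
        (i.val + 1 = j.val ∨ j.val + 1 = i.val) := by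
      rintro (j | ⟨_ | _, q⟩) ⟨-, h | h⟩ <;> simp_all
    obtain ⟨a, rfl, k1⟩ := k a h1
    obtain ⟨b, rfl, k2⟩ := k b h2
    obtain ⟨c, rfl, k3⟩ := k c h3
    simp only [ne_eq, Sum.inl.injEq, Fin.ext_iff] at n1 n2 n3
    omega
  · have k : ∀ y, (broom n).Adj (.inr p) y → ∃ j : Fin (n + 2), y = .inl j ∧
        j.val = if p.1 then n + 1 else 0 := by
      rintro (j | q) ⟨-, h | h⟩ <;> simp_all
    obtain ⟨a, rfl, k1⟩ := k a h1
    obtain ⟨b, rfl, k2⟩ := k b h2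
    exact absurd (congrArg _ (Fin.ext (k1.trans k2.symm))) n1

theorem broom_ident (n : ℕ) : Ident HH ⟨_, inferInstance, broom n⟩ 2 := by
  obtain ⟨π, h1, h2⟩ := merge (V := Fin (n + 2) ⊕ Bool × Fin (n + 3)) (.inl 0) (.inl (Fin.last _))
    (by simp [Fin.ext_iff])
  refine ⟨{.inl 0, .inl (Fin.last _)}, ⟨_, inferInstance, (broom n).map π⟩, π,
    (Set.ncard_insert_le _ _).trans (by simp), h1, fun x y => (h2 x y).1, rfl, ?_⟩
  have k : ∀ z, Big ((broom n).map π) z → z = π (.inl 0) := by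
    intro z hz
    obtain ⟨x, rfl⟩ := h1 z
    by_cases hx : x ∈ ({.inl 0, .inl (Fin.last _)} : Set (Fin (n + 2) ⊕ Bool × Fin (n + 3)))
    · exact (h2 _ _).2 (Or.inr ⟨hx, by simp⟩)
    · exact absurd (broom_big n x
        (big_map (fun y hy => ((h2 _ _).1 hy).elim id fun e => absurd e.2 hx) hz)) hx
  intro x y hx hy
  exact (k x hx).trans (k y hy).symm

theorem main : ∃ (H : FG → Prop) (G : ℕ → FG), MinorClosed H ∧ ∀ n, Ident H (G n) 2 ∧
    (∃ k B, Contrs k (G n) B ∧ H B) ∧ ∀ k B, Contrs k (G n) B → H B → n ≤ k :=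
  ⟨HH, fun n => ⟨_, inferInstance, broom n⟩, minorClosed, fun n => ⟨broom_ident n, reach _ _ rfl,
    fun k B h1 h2 => by have := lower k _ _ B (broom_inv n) h1 h2; omega⟩⟩

end Pool.Agent.H34.Ident
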