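import Mathlib

namespace Pool.Agent.H34.TileDefs
open Set

/-- The Euclidean plane. -/
abbrev P := EuclideanSpace ℝ (Fin 2)

/-- A tiling: countably many closed sets covering the plane, with pairwise disjoint interiors. -/
def IsTiling (𝒯 : Set (Set P)) : Prop :=
  𝒯.Countable ∧ (∀ t ∈ 𝒯, IsClosed t) ∧ ⋃₀ 𝒯 = univ ∧
    𝒯.Pairwise fun s t => Disjoint (interior s) (interior t)

/-- Every tile is congruent to `T`. -/
def Monohedral (𝒯 : Set (Set P)) (T : Set P) : Prop :=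
  ∀ t ∈ 𝒯, ∃ φ : P ≃ᵢ P, t = φ '' T

/-- The isometry `g` maps the tiling onto itself. -/
def IsSymm (𝒯 : Set (Set P)) (g : P ≃ᵢ P) : Prop :=
  (fun t => g '' t) '' 𝒯 = 𝒯

/-- The symmetry group acts transitively on the tiles. -/
def Isohedral (𝒯 : Set (Set P)) : Prop :=
  ∀ s ∈ 𝒯, ∀ t ∈ 𝒯, ∃ g, IsSymm 𝒯 g ∧ g '' s = t

/-- The closed axis-parallel unit square with centre `(a, b)`. -/
def usq (a b : ℝ) : Set P := {p | |p 0 - a| ≤ 1 / 2 ∧ |p 1 - b| ≤ 1 / 2}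

/-- The tile `T(x, y)`. -/
def T (x y : ℤ) : Set P := usq 0 0 ∪ usq x y

/-- An idiomeric tiling with prototile `T(x, y)`: isohedral, and some symmetry of the tiling
exchanges the two squares of a tile. -/
def Idiomeric (𝒯 : Set (Set P)) (x y : ℤ) : Prop :=
  IsTiling 𝒯 ∧ Monohedral 𝒯 (T x y) ∧ Isohedral 𝒯 ∧
    ∃ φ g : P ≃ᵢ P, φ '' T x y ∈ 𝒯 ∧ IsSymm 𝒯 g ∧
      g '' (φ '' usq 0 0) = φ '' usq x y ∧ g '' (φ '' usq x y) = φ '' usq 0 0

/-- Every tile is a union of squares of the regular square tiling. -/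
def Aligned (𝒯 : Set (Set P)) : Prop :=
  ∀ t ∈ 𝒯, ∃ A : Set (ℤ × ℤ), t = ⋃ a ∈ A, usq a.1 a.2

end Pool.Agent.H34.TileDefs
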