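import Mathlib
import Pool.Agent.H34.TileDefs

namespace Pool.Agent.H34.Idio
open Set Pool.Agent.H34.TileDefs

noncomputable def pt (a b : ℝ) : P := !₂[a, b]

@[simp] theorem pt0 (a b : ℝ) : pt a b 0 = a := rfl
@[simp] theorem pt1 (a b : ℝ) : pt a b 1 = b := rfl

theorem pext {p q : P} (h0 : p 0 = q 0) (h1 : p 1 = q 1) : p = q := by
  ext i; fin_cases i
  · exact h0
  · exact h1

theorem dsq (p q : P) : dist p q ^ 2 = (p 0 - q 0) ^ 2 + (p 1 - q 1) ^ 2 := by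
  rw [EuclideanSpace.dist_sq_eq, Fin.sum_univ_two, Real.dist_eq, Real.dist_eq, sq_abs, sq_abs]

theorem iso_sq (g : P ≃ᵢ P) (p q : P) :
    (g p 0 - g q 0) ^ 2 + (g p 1 - g q 1) ^ 2 = (p 0 - q 0) ^ 2 + (p 1 - q 1) ^ 2 := by
  rw [← dsq, ← dsq, g.dist_eq]

theorem closed_sq (a b : ℝ) : IsClosed (usq a b) := by
  have h1 : IsClosed {p : P | |p 0 - a| ≤ 1 / 2} := isClosed_le (by fun_prop) continuous_const
  have h2 : IsClosed {p : P | |p 1 - b| ≤ 1 / 2} := isClosed_le (by fun_prop) continuous_const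
  exact h1.inter h2

theorem convex_sq (a b : ℝ) : Convex ℝ (usq a b) := by
  intro p hp q hq s t hs ht hst
  simp only [usq, mem_setOf_eq, abs_le] at hp hq ⊢
  simp only [PiLp.add_apply, PiLp.smul_apply, smul_eq_mul]
  have : t = 1 - s := by linarith
  subst this
  refine ⟨⟨?_, ?_⟩, ?_, ?_⟩ <;> nlinarith [hp.1.1, hp.1.2, hp.2.1, hp.2.2, hq.1.1, hq.1.2, hq.2.1, hq.2.2]

theorem generic (U : Set P) (hU : IsOpen U) (p : P) (hp : p ∈ U) (C : Set ℝ) (hC : C.Countable) :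
    ∃ q ∈ U, q 0 ∉ C ∧ q 1 ∉ C := by
  let f : ℝ → P := fun d => p + d • pt 1 1
  have hf : Continuous f := by fun_prop
  have hc : ((fun c => c - p 0) '' C ∪ (fun c => c - p 1) '' C).Countable :=
    (hC.image _).union (hC.image _)
  obtain ⟨d, hd1, hd2⟩ := (hc.dense_compl ℝ).exists_mem_open (hU.preimage hf) ⟨0, by simpa [f]⟩
  refine ⟨f d, hd2, fun h => hd1 (Or.inl ⟨_, h, by simp [f]⟩), fun h => hd1 (Or.inr ⟨_, h, by simp [f]⟩)⟩

/-- Translation. -/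
noncomputable def tr (a b : ℝ) : P ≃ᵢ P := IsometryEquiv.addRight (pt a b)

/-- Half-turn. -/
noncomputable def ht (a b : ℝ) : P ≃ᵢ P := IsometryEquiv.subLeft (pt a b)

theorem tr_sq (a b c d : ℝ) : tr a b '' usq c d = usq (c + a) (d + b) := by
  ext p
  constructor
  · rintro ⟨q, hq, rfl⟩
    simp only [tr, usq, mem_setOf_eq, IsometryEquiv.addRight_apply, PiLp.add_apply, pt0, pt1,
      abs_le] at hq ⊢
    refine ⟨⟨?_, ?_⟩, ?_, ?_⟩ <;> linarith [hq.1.1, hq.1.2, hq.2.1, hq.2.2]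
  · intro hq
    refine ⟨p - pt a b, ?_, by simp [tr]⟩
    simp only [usq, mem_setOf_eq, PiLp.sub_apply, pt0, pt1, abs_le] at hq ⊢
    refine ⟨⟨?_, ?_⟩, ?_, ?_⟩ <;> linarith [hq.1.1, hq.1.2, hq.2.1, hq.2.2]

theorem ht_sq (a b c d : ℝ) : ht a b '' usq c d = usq (a - c) (b - d) := by
  ext p
  constructor
  · rintro ⟨q, hq, rfl⟩
    simp only [ht, usq, mem_setOf_eq, IsometryEquiv.subLeft_apply, PiLp.sub_apply, pt0, pt1,
      abs_le] at hq ⊢
    refine ⟨⟨?_, ?_⟩, ?_, ?_⟩ <;> linarith [hq.1.1, hq.1.2, hq.2.1, hq.2.2]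
  · intro hq
    refine ⟨pt a b - p, ?_, by simp [ht]⟩
    simp only [usq, mem_setOf_eq, PiLp.sub_apply, pt0, pt1, abs_le] at hq ⊢
    refine ⟨⟨?_, ?_⟩, ?_, ?_⟩ <;> linarith [hq.1.1, hq.1.2, hq.2.1, hq.2.2]

theorem int_eq_of_abs {u : ℝ} {m n : ℤ} (hm : |u - m| ≤ 1 / 2) (hn : |u - n| ≤ 1 / 2)
    (h : ∀ k : ℤ, u ≠ k + 1 / 2) : m = n := by
  rw [abs_le] at hm hn
  have h1 := h m
  have h2 := h n
  have a1 : u < m + 1 / 2 := lt_of_le_of_ne (by linarith) h1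
  have a2 : u < n + 1 / 2 := lt_of_le_of_ne (by linarith) h2
  have b1 : (m : ℝ) < n + 1 := by linarith
  have b2 : (n : ℝ) < m + 1 := by linarith
  have c1 : m < n + 1 := by exact_mod_cast b1
  have c2 : n < m + 1 := by exact_mod_cast b2
  omega

/-- The brick-wall cell. -/
def cell (s : ℝ) (n k : ℤ) : Set P := usq (n + s * k) k

theorem cell_cover (s : ℝ) (p : P) : ∃ n k, p ∈ cell s n k := by
  refine ⟨round (p 0 - s * round (p 1)), round (p 1), ?_, abs_sub_round _⟩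
  have := abs_sub_round (p 0 - s * round (p 1))
  rwa [sub_sub, add_comm] at this

theorem cell_generic (s : ℝ) (U : Set P) (hU : IsOpen U) (p : P) (hp : p ∈ U) :
    ∃ q ∈ U, ∀ n k n' k', q ∈ cell s n k → q ∈ cell s n' k' → n = n' ∧ k = k' := by
  obtain ⟨q, hq, h0, h1⟩ := generic U hU p hp
    (range fun a : ℤ × ℤ => (a.1 : ℝ) + 1 / 2 + s * a.2) (countable_range _)
  refine ⟨q, hq, fun n k n' k' a b => ?_⟩
  have hk : k = k' := int_eq_of_abs a.2 b.2 fun j hj => h1 ⟨(j, 0), by simp [hj]⟩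
  subst hk
  refine ⟨int_eq_of_abs (u := q 0 - s * k) ?_ ?_ fun j hj => h0 ⟨(j, k), by
    simp only; linarith⟩, rfl⟩
  · convert a.1 using 2; ring
  · convert b.1 using 2; ring

section brick
variable (s : ℝ) (x y j : ℤ)

def btile (a : ℤ × ℤ) : Set P := cell s (2 * a.1) a.2 ∪ cell s (2 * a.1 + 2 * j + 1) (a.2 + y)

variable {s x y j}

theorem btile_eq (h : (x : ℝ) = 2 * j + 1 + s * y) (a : ℤ × ℤ) :
    btile s y j a = tr (2 * a.1 + s * a.2) a.2 '' T x y := by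
  simp only [btile, T, image_union, tr_sq, cell]
  congr 1 <;> congr 1 <;> push_cast <;> (try rw [h]) <;> ring

theorem tr_btile (a b : ℤ × ℤ) :
    tr (2 * b.1 + s * b.2) b.2 '' btile s y j a = btile s y j (a + b) := by
  simp only [btile, image_union, tr_sq, cell, Prod.fst_add, Prod.snd_add]
  congr 1 <;> congr 1 <;> push_cast <;> ring

theorem ht_btile (h : (x : ℝ) = 2 * j + 1 + s * y) (a : ℤ × ℤ) :
    ht x y '' btile s y j a = btile s y j (-a) := by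
  simp only [btile, image_union, ht_sq, cell, Prod.fst_neg, Prod.snd_neg]
  rw [union_comm]
  congr 1 <;> congr 1 <;> push_cast <;> (try rw [h]) <;> ring

theorem brick (h : (x : ℝ) = 2 * j + 1 + s * y) : Idiomeric (range (btile s y j)) x y := by
  refine ⟨⟨countable_range _, ?_, ?_, ?_⟩, ?_, ?_, ?_⟩
  · rintro _ ⟨a, rfl⟩
    exact (closed_sq _ _).union (closed_sq _ _)
  · rw [eq_univ_iff_forall]
    intro p
    obtain ⟨n, k, hp⟩ := cell_cover s p
    rcases Int.even_or_odd' n with ⟨i, rfl | rfl⟩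
    · exact ⟨_, ⟨(i, k), rfl⟩, Or.inl hp⟩
    · refine ⟨_, ⟨(i - j, k - y), rfl⟩, Or.inr ?_⟩
      convert hp using 2 <;> simp only <;> ring
  · rintro _ ⟨a, rfl⟩ _ ⟨b, rfl⟩ hne
    rw [Set.disjoint_left]
    intro p ha hb
    obtain ⟨q, ⟨q1, q2⟩, hq⟩ := cell_generic s _ (isOpen_interior.inter isOpen_interior) p ⟨ha, hb⟩
    apply hne
    congr 1
    rcases interior_subset q1 with q1 | q1 <;> rcases interior_subset q2 with q2 | q2 <;>
      have := hq _ _ _ _ q1 q2 <;> ext <;> omega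
  · rintro _ ⟨a, rfl⟩
    exact ⟨_, btile_eq h a⟩
  · rintro _ ⟨a, rfl⟩ _ ⟨b, rfl⟩
    refine ⟨tr (2 * (b - a).1 + s * (b - a).2) (b - a).2, ?_, by rw [tr_btile]; simp⟩
    unfold IsSymm
    rw [← range_comp]
    simp only [Function.comp_def, tr_btile]
    exact (Equiv.addRight (b - a)).surjective.range_comp (btile s y j)
  · have hr : ∀ A : Set P, IsometryEquiv.refl P '' A = A := fun A => image_id A
    refine ⟨IsometryEquiv.refl _, ht x y, ⟨0, ?_⟩, ?_, ?_, ?_⟩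
    · rw [btile_eq h]
      simp only [T, image_union, tr_sq, hr]
      simp
    · unfold IsSymm
      rw [← range_comp]
      simp only [Function.comp_def, ht_btile h]
      exact (Equiv.neg _).surjective.range_comp (btile s y j)
    · simp [hr, ht_sq]
    · simp [hr, ht_sq]

end brick

/-- Exchange of the two coordinates. -/
noncomputable def sw : P ≃ᵢ P :=
  (LinearIsometryEquiv.piLpCongrLeft 2 ℝ ℝ (Equiv.swap (0 : Fin 2) 1)).toIsometryEquiv

theorem sw0 (p : P) : sw p 0 = p 1 := rfl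
theorem sw1 (p : P) : sw p 1 = p 0 := rfl

theorem sw_sq (a b : ℝ) : sw '' usq a b = usq b a := by
  ext p
  constructor
  · rintro ⟨q, hq, rfl⟩
    exact ⟨hq.2, hq.1⟩
  · intro hp
    exact ⟨sw p, ⟨hp.2, hp.1⟩, pext rfl rfl⟩

theorem idio_swap {𝒯 : Set (Set P)} {x y : ℤ} (h : Idiomeric 𝒯 x y) : Idiomeric 𝒯 y x := by
  obtain ⟨h1, h2, h3, φ, g, h4, h5, h6, h7⟩ := h
  have e : ∀ (ψ : P ≃ᵢ P) (a b : ℝ), (sw.trans ψ) '' usq a b = ψ '' usq b a := by
    intro ψ a b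
    rw [← sw_sq a b, image_image]; rfl
  have e' : ∀ ψ : P ≃ᵢ P, (sw.trans ψ) '' T y x = ψ '' T x y := by
    intro ψ; simp only [T, image_union, e]
  refine ⟨h1, fun t ht => ?_, h3, sw.trans φ, g, by rwa [e'], h5, by rw [e, e, h6], by rw [e, e, h7]⟩
  obtain ⟨ψ, hψ⟩ := h2 t ht
  exact ⟨sw.trans ψ, by rw [e', hψ]⟩

theorem all_pairs (x y : ℤ) (h : x ≠ 0 ∨ y ≠ 0) : ∃ 𝒯, Idiomeric 𝒯 x y := by
  have key : ∀ x y : ℤ, y ≠ 0 → ∃ 𝒯, Idiomeric 𝒯 x y := by
    intro x y hy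
    have : (y : ℝ) ≠ 0 := by exact_mod_cast hy
    exact ⟨_, brick (s := (x - 1) / y) (j := 0) (by field_simp; ring)⟩
  rcases h with h | h
  · obtain ⟨𝒯, h⟩ := key y x h
    exact ⟨𝒯, idio_swap h⟩
  · exact key x y h

theorem aligned_exists (x y : ℤ) (h : ¬ (Even x ∧ Even y)) :
    ∃ 𝒯, Idiomeric 𝒯 x y ∧ Aligned 𝒯 := by
  have key : ∀ x y : ℤ, Odd x → ∃ 𝒯, Idiomeric 𝒯 x y ∧ Aligned 𝒯 := by
    rintro x y ⟨j, hj⟩
    refine ⟨_, brick (s := 0) (j := j) (by rw [hj]; push_cast; ring), ?_⟩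
    rintro _ ⟨a, rfl⟩
    refine ⟨{(2 * a.1, a.2), (2 * a.1 + 2 * j + 1, a.2 + y)}, ?_⟩
    simp [btile, cell]
  by_cases hx : Even x
  · obtain ⟨𝒯, h1, h2⟩ := key y x (Int.not_even_iff_odd.1 fun hy => h ⟨hx, hy⟩)
    exact ⟨𝒯, idio_swap h1, h2⟩
  · exact key x y (Int.not_even_iff_odd.1 hx)

theorem corner {u v c : ℝ} (hu : |u - c| ≤ 1 / 2) (hv : |v - c| ≤ 1 / 2) (h : 1 ≤ (u - v) ^ 2) :
    (u = c + 1 / 2 ∧ v = c - 1 / 2) ∨ (u = c - 1 / 2 ∧ v = c + 1 / 2) := by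
  rw [abs_le] at hu hv
  rcases le_total u v with h1 | h1
  · right
    have : 1 ≤ v - u := by nlinarith
    constructor <;> linarith
  · left
    have : 1 ≤ u - v := by nlinarith
    constructor <;> linarith

theorem diag {u v u' v' c d : ℝ} (hu : |u - c| ≤ 1 / 2) (hv : |v - c| ≤ 1 / 2)
    (hu' : |u' - d| ≤ 1 / 2) (hv' : |v' - d| ≤ 1 / 2) (h : (u - v) ^ 2 + (u' - v') ^ 2 = 2) :
    ((u = c + 1 / 2 ∧ v = c - 1 / 2) ∨ (u = c - 1 / 2 ∧ v = c + 1 / 2)) ∧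
    ((u' = d + 1 / 2 ∧ v' = d - 1 / 2) ∨ (u' = d - 1 / 2 ∧ v' = d + 1 / 2)) := by
  have a1 : (u - v) ^ 2 ≤ 1 := by rw [abs_le] at hu hv; nlinarith
  have a2 : (u' - v') ^ 2 ≤ 1 := by rw [abs_le] at hu' hv'; nlinarith
  exact ⟨corner hu hv (by linarith), corner hu' hv' (by linarith)⟩

/-- Normal form of an isometry carrying a unit square into a unit square. -/
theorem nf (g : P ≃ᵢ P) (a b c d : ℝ) (h : g '' usq a b ⊆ usq c d) :
    ∃ e f : ℤ, (e = 1 ∨ e = -1) ∧ (f = 1 ∨ f = -1) ∧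
      ((∀ p, g p 0 - c = e * (p 0 - a) ∧ g p 1 - d = f * (p 1 - b)) ∨
       (∀ p, g p 0 - c = e * (p 1 - b) ∧ g p 1 - d = f * (p 0 - a))) := by
  have m : ∀ u v : ℝ, |u| ≤ 1 / 2 → |v| ≤ 1 / 2 → g (pt (a + u) (b + v)) ∈ usq c d :=
    fun u v hu hv => h ⟨_, ⟨by simpa using hu, by simpa using hv⟩, rfl⟩
  have p1 : |(1 / 2 : ℝ)| ≤ 1 / 2 := by norm_num [abs_of_pos]
  have p2 : |(-(1 / 2) : ℝ)| ≤ 1 / 2 := by norm_num [abs_of_pos]
  have m1 := m _ _ p1 p1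
  have m2 := m _ _ p1 p2
  have m3 := m _ _ p2 p2
  have m4 := m _ _ p2 p1
  have d13 := diag m1.1 m3.1 m1.2 m3.2 (by rw [iso_sq]; simp only [pt0, pt1]; ring)
  have d24 := diag m2.1 m4.1 m2.2 m4.2 (by rw [iso_sq]; simp only [pt0, pt1]; ring)
  have d12 := iso_sq g (pt (a + 1 / 2) (b + 1 / 2)) (pt (a + 1 / 2) (b + -(1 / 2)))
  have e1 := fun p => iso_sq g p (pt (a + 1 / 2) (b + 1 / 2))
  have e2 := fun p => iso_sq g p (pt (a + 1 / 2) (b + -(1 / 2)))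
  have e3 := fun p => iso_sq g p (pt (a + -(1 / 2)) (b + -(1 / 2)))
  have e4 := fun p => iso_sq g p (pt (a + -(1 / 2)) (b + 1 / 2))
  simp only [pt0, pt1] at d12 e1 e2 e3 e4
  obtain ⟨⟨x1, x3⟩ | ⟨x1, x3⟩, ⟨y1, y3⟩ | ⟨y1, y3⟩⟩ := d13 <;>
  obtain ⟨⟨x2, x4⟩ | ⟨x2, x4⟩, ⟨y2, y4⟩ | ⟨y2, y4⟩⟩ := d24 <;>
  simp only [x1, x2, x3, x4, y1, y2, y3, y4] at d12 e1 e2 e3 e4
  all_goals first
    | (exfalso; linarith)
    | (refine ⟨1, 1, by simp, by simp, Or.inl fun p => ?_⟩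
       have := e1 p; have := e2 p; have := e3 p; have := e4 p
       push_cast; constructor <;> linarith)
    | (refine ⟨1, -1, by simp, by simp, Or.inl fun p => ?_⟩
       have := e1 p; have := e2 p; have := e3 p; have := e4 p
       push_cast; constructor <;> linarith)
    | (refine ⟨-1, 1, by simp, by simp, Or.inl fun p => ?_⟩
       have := e1 p; have := e2 p; have := e3 p; have := e4 p
       push_cast; constructor <;> linarith)
    | (refine ⟨-1, -1, by simp, by simp, Or.inl fun p => ?_⟩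
       have := e1 p; have := e2 p; have := e3 p; have := e4 p
       push_cast; constructor <;> linarith)
    | (refine ⟨1, 1, by simp, by simp, Or.inr fun p => ?_⟩
       have := e1 p; have := e2 p; have := e3 p; have := e4 p
       push_cast; constructor <;> linarith)
    | (refine ⟨1, -1, by simp, by simp, Or.inr fun p => ?_⟩
       have := e1 p; have := e2 p; have := e3 p; have := e4 p
       push_cast; constructor <;> linarith)
    | (refine ⟨-1, 1, by simp, by simp, Or.inr fun p => ?_⟩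
       have := e1 p; have := e2 p; have := e3 p; have := e4 p
       push_cast; constructor <;> linarith)
    | (refine ⟨-1, -1, by simp, by simp, Or.inr fun p => ?_⟩
       have := e1 p; have := e2 p; have := e3 p; have := e4 p
       push_cast; constructor <;> linarith)

theorem pt_mem (a b : ℝ) : pt a b ∈ usq a b := by simp [usq]

theorem centre {g : P ≃ᵢ P} {a b c d : ℝ} (h : g '' usq a b ⊆ usq c d) : g (pt a b) = pt c d := by
  obtain ⟨e, f, -, -, h | h⟩ := nf g a b c d h <;> have := h (pt a b) <;>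
    simp only [pt0, pt1, sub_self, mul_zero] at this <;>
    exact pext (by simp only [pt0]; linarith [this.1]) (by simp only [pt1]; linarith [this.2])

theorem onto {g : P ≃ᵢ P} {a b c d : ℝ} (h : g '' usq a b ⊆ usq c d) : g '' usq a b = usq c d := by
  refine h.antisymm fun q hq => ⟨g.symm q, ?_, by simp⟩
  obtain ⟨e, f, he, hf, h | h⟩ := nf g a b c d h <;> have := h (g.symm q) <;>
    simp only [IsometryEquiv.apply_symm_apply] at this <;>
    simp only [usq, mem_setOf_eq, this.1, this.2, abs_mul] at hq ⊢ <;>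
    rcases he with rfl | rfl <;> rcases hf with rfl | rfl <;> simpa [and_comm] using hq

theorem split {g : P ≃ᵢ P} {a b : ℝ} {A B : Set P} (hA : IsClosed A) (hB : IsClosed B)
    (hd : Disjoint A B) (h : g '' usq a b ⊆ A ∪ B) : g '' usq a b ⊆ A ∨ g '' usq a b ⊆ B :=
  isPreconnected_iff_subset_of_disjoint_closed.1
    ((convex_sq a b).isPreconnected.image g g.continuous.continuousOn) A B hA hB h
    (by rw [hd.inter_eq, inter_empty])

theorem disj_sq {a b c d : ℝ} (h : 2 ≤ |a - c| ∨ 2 ≤ |b - d|) : Disjoint (usq a b) (usq c d) := by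
  rw [Set.disjoint_left]
  intro p h1 h2
  simp only [usq, mem_setOf_eq, abs_le] at h1 h2
  rcases h with h | h <;> rcases le_abs.1 h with h | h <;>
    linarith [h1.1.1, h1.1.2, h1.2.1, h1.2.2, h2.1.1, h2.1.2, h2.2.1, h2.2.2]

theorem disj_even {a b c d : ℤ} (h1 : Even (c - a)) (h2 : Even (d - b)) (h : ¬ (a = c ∧ b = d)) :
    Disjoint (usq a b) (usq c d) := by
  apply disj_sq
  obtain ⟨i, hi⟩ := h1
  obtain ⟨j, hj⟩ := h2
  have : 2 ≤ |a - c| ∨ 2 ≤ |b - d| := by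
    rw [le_abs, le_abs]; omega
  rcases this with h | h
  · left; exact_mod_cast h
  · right; exact_mod_cast h

theorem mem_int_sq {a b c d : ℤ} (h : pt a b ∈ usq c d) : a = c ∧ b = d := by
  simp only [usq, mem_setOf_eq, pt0, pt1, abs_le] at h
  have h1 : (a : ℝ) < c + 1 := by linarith [h.1.2]
  have h2 : (c : ℝ) < a + 1 := by linarith [h.1.1]
  have h3 : (b : ℝ) < d + 1 := by linarith [h.2.2]
  have h4 : (d : ℝ) < b + 1 := by linarith [h.2.1]
  have h1 : a < c + 1 := by exact_mod_cast h1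
  have h2 : c < a + 1 := by exact_mod_cast h2
  have h3 : b < d + 1 := by exact_mod_cast h3
  have h4 : d < b + 1 := by exact_mod_cast h4
  omega

theorem pt_interior (a b : ℝ) : pt a b ∈ interior (usq a b) := by
  have h1 : IsOpen {p : P | |p 0 - a| < 1 / 2} := isOpen_lt (by fun_prop) continuous_const
  have h2 : IsOpen {p : P | |p 1 - b| < 1 / 2} := isOpen_lt (by fun_prop) continuous_const
  have h3 : {p : P | |p 0 - a| < 1 / 2} ∩ {p : P | |p 1 - b| < 1 / 2} ⊆ usq a b :=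
    fun p hp => ⟨le_of_lt hp.1, le_of_lt hp.2⟩
  exact interior_maximal h3 (h1.inter h2) (by simp)

theorem symm_mem {𝒯 : Set (Set P)} {g : P ≃ᵢ P} (h : IsSymm 𝒯 g) {t : Set P} (ht : t ∈ 𝒯) :
    g '' t ∈ 𝒯 := h.subset ⟨t, ht, rfl⟩

theorem symm_trans {𝒯 : Set (Set P)} {g k : P ≃ᵢ P} (h : IsSymm 𝒯 g) (h' : IsSymm 𝒯 k) :
    IsSymm 𝒯 (g.trans k) := by
  unfold IsSymm at *
  conv_rhs => rw [← h', ← h]
  rw [image_image]
  congr 1; ext t : 1; rw [image_image]; rfl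

theorem symm_symm {𝒯 : Set (Set P)} {g : P ≃ᵢ P} (h : IsSymm 𝒯 g) : IsSymm 𝒯 g.symm := by
  unfold IsSymm at *
  conv_lhs => rw [← h]
  rw [image_image]
  simp [image_image]

/-- A tile made of two grid squares whose centres differ by an even vector. -/
def Tile (𝒯 : Set (Set P)) (a b c d : ℤ) : Prop :=
  usq a b ∪ usq c d ∈ 𝒯 ∧ Even (c - a) ∧ Even (d - b) ∧ ¬ (a = c ∧ b = d)

theorem Tile.symm {𝒯 : Set (Set P)} {a b c d : ℤ} (h : Tile 𝒯 a b c d) : Tile 𝒯 c d a b :=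
  ⟨by rw [union_comm]; exact h.1, by simpa using h.2.1.neg, by simpa using h.2.2.1.neg,
    fun e => h.2.2.2 ⟨e.1.symm, e.2.symm⟩⟩

theorem pt_inj {a b c d : ℤ} (h : pt a b = pt c d) : a = c ∧ b = d := by
  have h0 := congrArg (fun p : P => p 0) h
  have h1 := congrArg (fun p : P => p 1) h
  simp only [pt0, pt1] at h0 h1
  exact ⟨by exact_mod_cast h0, by exact_mod_cast h1⟩

theorem piece {x y : ℤ} (hd : Disjoint (usq 0 0) (usq x y)) (φ : P ≃ᵢ P) (A : Set (ℤ × ℤ))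
    (h : φ '' (usq 0 0 ∪ usq x y) = ⋃ a ∈ A, usq a.1 a.2) (u v : ℝ)
    (huv : (u = 0 ∧ v = 0) ∨ (u = x ∧ v = y)) : ∃ a b : ℤ, φ '' usq u v = usq a b := by
  have hm : φ (pt u v) ∈ ⋃ a ∈ A, usq a.1 a.2 := by
    rw [← h]
    rcases huv with ⟨rfl, rfl⟩ | ⟨rfl, rfl⟩
    · exact ⟨_, Or.inl (pt_mem _ _), rfl⟩
    · exact ⟨_, Or.inr (pt_mem _ _), rfl⟩
  simp only [mem_iUnion] at hm
  obtain ⟨a, ha, hm⟩ := hm
  have hs : φ.symm '' usq a.1 a.2 ⊆ usq 0 0 ∪ usq x y := by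
    rintro _ ⟨q, hq, rfl⟩
    have : q ∈ φ '' (usq 0 0 ∪ usq x y) := by
      rw [h]; simp only [mem_iUnion]; exact ⟨a, ha, hq⟩
    obtain ⟨r, hr, rfl⟩ := this
    simpa using hr
  have hin : pt u v ∈ φ.symm '' usq a.1 a.2 := ⟨_, hm, by simp⟩
  have : φ.symm '' usq a.1 a.2 ⊆ usq u v := by
    rcases split (closed_sq _ _) (closed_sq _ _) hd hs with h1 | h1 <;>
      rcases huv with ⟨rfl, rfl⟩ | ⟨rfl, rfl⟩
    · exact h1
    · exact (Set.disjoint_left.1 hd (h1 hin) (pt_mem _ _)).elim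
    · exact (Set.disjoint_left.1 hd (pt_mem _ _) (h1 hin)).elim
    · exact h1
  refine ⟨a.1, a.2, ?_⟩
  rw [← onto this, image_image]; simp

theorem tile_of {𝒯 : Set (Set P)} {x y : ℤ} (hx : Even x) (hy : Even y) (h0 : ¬ (0 = x ∧ 0 = y))
    (hA : Aligned 𝒯) (φ : P ≃ᵢ P) (hφ : φ '' T x y ∈ 𝒯) :
    ∃ a b c d : ℤ, Tile 𝒯 a b c d ∧ φ '' usq 0 0 = usq a b ∧ φ '' usq x y = usq c d := by
  have hd : Disjoint (usq 0 0) (usq x y) := by
    simpa using disj_even (a := 0) (b := 0) (c := x) (d := y) (by simpa) (by simpa) h0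
  obtain ⟨A, hA⟩ := hA _ hφ
  obtain ⟨a, b, h1⟩ := piece hd φ A hA 0 0 (Or.inl ⟨rfl, rfl⟩)
  obtain ⟨c, d, h2⟩ := piece hd φ A hA x y (Or.inr ⟨rfl, rfl⟩)
  have hc := centre h2.subset
  refine ⟨a, b, c, d, ⟨by rw [← h1, ← h2, ← image_union]; exact hφ, ?_⟩, h1, h2⟩
  obtain ⟨e, f, he, hf, h | h⟩ := nf φ 0 0 a b h1.subset <;> have := h (pt x y) <;>
    simp only [hc, pt0, pt1, sub_zero] at this
  · have e1 : c - a = e * x := by exact_mod_cast this.1
    have e2 : d - b = f * y := by exact_mod_cast this.2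
    refine ⟨e1 ▸ hx.mul_left _, e2 ▸ hy.mul_left _, ?_⟩
    rcases he with rfl | rfl <;> rcases hf with rfl | rfl <;> omega
  · have e1 : c - a = e * y := by exact_mod_cast this.1
    have e2 : d - b = f * x := by exact_mod_cast this.2
    refine ⟨e1 ▸ hy.mul_left _, e2 ▸ hx.mul_left _, ?_⟩
    rcases he with rfl | rfl <;> rcases hf with rfl | rfl <;> omega

theorem centre_cases {𝒯 : Set (Set P)} {g : P ≃ᵢ P} {u v : ℝ} {a b c d : ℤ} (h : Tile 𝒯 a b c d)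
    (hs : g '' usq u v ⊆ usq a b ∪ usq c d) : g (pt u v) = pt a b ∨ g (pt u v) = pt c d :=
  (split (closed_sq _ _) (closed_sq _ _) (disj_even h.2.1 h.2.2.1 h.2.2.2) hs).imp centre centre

theorem not_aligned {𝒯 : Set (Set P)} {x y : ℤ} (hx : Even x) (hy : Even y)
    (h0 : ¬ (0 = x ∧ 0 = y)) (hI : Idiomeric 𝒯 x y) (hA : Aligned 𝒯) : False := by
  obtain ⟨⟨-, -, hcov, hdis⟩, hmono, hiso, φ, g₀, hφ, hg₀, s1, s2⟩ := hI
  have T1 : ∀ a b : ℤ, ∃ c d, Tile 𝒯 a b c d := by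
    intro a b
    have : pt a b ∈ ⋃₀ 𝒯 := hcov ▸ mem_univ _
    obtain ⟨t, ht, hp⟩ := this
    obtain ⟨ψ, rfl⟩ := hmono t ht
    obtain ⟨a', b', c, d, h, h1, h2⟩ := tile_of hx hy h0 hA ψ ht
    rw [T, image_union, h1, h2] at hp
    rcases hp with hp | hp <;> obtain ⟨rfl, rfl⟩ := mem_int_sq hp
    · exact ⟨_, _, h⟩
    · exact ⟨_, _, h.symm⟩
  have T2 : ∀ a b c d : ℤ, Tile 𝒯 a b c d →
      ∃ g, IsSymm 𝒯 g ∧ g (pt a b) = pt c d ∧ g (pt c d) = pt a b := by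
    intro a b c d h
    obtain ⟨a', b', c', d', h', h1, h2⟩ := tile_of hx hy h0 hA φ hφ
    rw [h1, h2] at s1 s2
    have c1 := centre s1.subset
    have c2 := centre s2.subset
    obtain ⟨k, hk, hkt⟩ := hiso _ h'.1 _ h.1
    have k1 := centre_cases h (g := k) (u := a') (v := b') (hkt ▸ image_mono subset_union_left)
    have k2 := centre_cases h (g := k) (u := c') (v := d') (hkt ▸ image_mono subset_union_right)
    have hne : k (pt a' b') ≠ k (pt c' d') := fun e => h'.2.2.2 (pt_inj (k.injective e))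
    refine ⟨(k.symm.trans g₀).trans k, symm_trans (symm_trans (symm_symm hk) hg₀) hk, ?_⟩
    simp only [IsometryEquiv.trans_apply]
    rcases k1 with k1 | k1 <;> rcases k2 with k2 | k2
    · exact absurd (k1.trans k2.symm) hne
    · rw [← k1, ← k2]; simp [c1, c2]
    · rw [← k1, ← k2]; simp [c1, c2]
    · exact absurd (k1.trans k2.symm) hne
  have T3 : ∀ a b c d : ℤ, Tile 𝒯 a b c d → ∀ g, IsSymm 𝒯 g → g (pt a b) = pt a b →
      g (pt c d) = pt c d := by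
    intro a b c d h g hg hab
    have hi : pt a b ∈ interior (usq a b ∪ usq c d) := interior_mono subset_union_left (pt_interior _ _)
    have e : g '' (usq a b ∪ usq c d) = usq a b ∪ usq c d := by
      by_contra hne
      refine Set.disjoint_left.1 (hdis (symm_mem hg h.1) h.1 hne) ?_ hi
      have := g.toHomeomorph.image_interior (usq a b ∪ usq c d)
      simp only [IsometryEquiv.coe_toHomeomorph] at this
      rw [← this]
      exact ⟨_, hi, hab⟩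
    rcases centre_cases h (g := g) (u := c) (v := d) (e ▸ image_mono subset_union_right) with h1 | h1
    · rw [← hab] at h1
      exact absurd (pt_inj (g.injective h1.symm)) h.2.2.2
    · exact h1
  have mid : ∀ a b c d : ℤ, Tile 𝒯 a b c d → ∃ e f : ℤ, a + c = 2 * e ∧ b + d = 2 * f ∧
      pt e f = midpoint ℝ (pt a b) (pt c d) := by
    intro a b c d h
    obtain ⟨i, hi⟩ := h.2.1
    obtain ⟨j, hj⟩ := h.2.2.1
    refine ⟨a + i, b + j, by omega, by omega, ?_⟩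
    have hc : c = a + i + i := by omega
    have hd : d = b + j + j := by omega
    subst hc hd
    apply pext <;> simp [midpoint_eq_smul_add] <;> ring
  obtain ⟨p0, p1, hp⟩ := T1 0 0
  obtain ⟨g, hg, g1, g2⟩ := T2 _ _ _ _ hp
  obtain ⟨c0, c1, -, -, hc⟩ := mid _ _ _ _ hp
  have gc : g (pt c0 c1) = pt c0 c1 := by rw [hc, g.map_midpoint, g1, g2, midpoint_comm]
  obtain ⟨d0, d1, hd⟩ := T1 c0 c1
  have gd := T3 _ _ _ _ hd g hg gc
  obtain ⟨k, hk, k1, k2⟩ := T2 _ _ _ _ hd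
  obtain ⟨e0, e1, he0, he1, he⟩ := mid _ _ _ _ hd
  have ge : g (pt e0 e1) = pt e0 e1 := by rw [he, g.map_midpoint, gc, gd]
  have ke : k (pt e0 e1) = pt e0 e1 := by rw [he, k.map_midpoint, k1, k2, midpoint_comm]
  obtain ⟨f0, f1, hf⟩ := T1 e0 e1
  have gf := T3 _ _ _ _ hf g hg ge
  have kf := T3 _ _ _ _ hf k hk ke
  have q1 := iso_sq g (pt (0 : ℤ) (0 : ℤ)) (pt c0 c1)
  have q2 := iso_sq g (pt (0 : ℤ) (0 : ℤ)) (pt d0 d1)
  have q3 := iso_sq g (pt (0 : ℤ) (0 : ℤ)) (pt e0 e1)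
  have q4 := iso_sq g (pt (0 : ℤ) (0 : ℤ)) (pt f0 f1)
  have q5 := iso_sq k (pt c0 c1) (pt f0 f1)
  simp only [g1, gc, gd, ge, gf, k1, kf, pt0, pt1] at q1 q2 q3 q4 q5
  have q1 : (p0 - c0) ^ 2 + (p1 - c1) ^ 2 = (0 - c0) ^ 2 + (0 - c1) ^ 2 := by exact_mod_cast q1
  have q2 : (p0 - d0) ^ 2 + (p1 - d1) ^ 2 = (0 - d0) ^ 2 + (0 - d1) ^ 2 := by exact_mod_cast q2
  have q3 : (p0 - e0) ^ 2 + (p1 - e1) ^ 2 = (0 - e0) ^ 2 + (0 - e1) ^ 2 := by exact_mod_cast q3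
  have q4 : (p0 - f0) ^ 2 + (p1 - f1) ^ 2 = (0 - f0) ^ 2 + (0 - f1) ^ 2 := by exact_mod_cast q4
  have q5 : (d0 - f0) ^ 2 + (d1 - f1) ^ 2 = (c0 - f0) ^ 2 + (c1 - f1) ^ 2 := by exact_mod_cast q5
  have r1 : p0 * (d0 - c0) + p1 * (d1 - c1) = 0 := by nlinarith
  have r2 : p0 * (f0 - e0) + p1 * (f1 - e1) = 0 := by nlinarith
  have hd0 : d0 = 2 * e0 - c0 := by omega
  have hd1 : d1 = 2 * e1 - c1 := by omega
  have r3 : (d0 - c0) * (f0 - e0) + (d1 - c1) * (f1 - e1) = 0 := by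
    subst hd0 hd1; nlinarith
  have n1 := hp.2.2.2
  have n2 := hd.2.2.2
  have n3 := hf.2.2.2
  generalize hu0 : d0 - c0 = u0 at r1 r3
  generalize hu1 : d1 - c1 = u1 at r1 r3
  generalize hw0 : f0 - e0 = w0 at r2 r3
  generalize hw1 : f1 - e1 = w1 at r2 r3
  have hu : u0 ≠ 0 ∨ u1 ≠ 0 := by omega
  have hw : w0 ≠ 0 ∨ w1 ≠ 0 := by omega
  have hdet : u0 * w1 - u1 * w0 ≠ 0 := by
    intro h
    have a1 : (u0 ^ 2 + u1 ^ 2) * (w0 ^ 2 + w1 ^ 2) = 0 := by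
      have : (u0 ^ 2 + u1 ^ 2) * (w0 ^ 2 + w1 ^ 2) =
        (u0 * w0 + u1 * w1) ^ 2 + (u0 * w1 - u1 * w0) ^ 2 := by ring
      rw [this, r3, h]; ring
    have a2 : 0 < u0 ^ 2 + u1 ^ 2 := by rcases hu with h | h <;> positivity
    have a3 : 0 < w0 ^ 2 + w1 ^ 2 := by rcases hw with h | h <;> positivity
    exact absurd a1 (mul_pos a2 a3).ne'
  have z0 : p0 * (u0 * w1 - u1 * w0) = 0 := by linear_combination w1 * r1 - u1 * r2
  have z1 : p1 * (u0 * w1 - u1 * w0) = 0 := by linear_combination u0 * r2 - w0 * r1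
  exact n1 ⟨((mul_eq_zero.1 z0).resolve_right hdet).symm, ((mul_eq_zero.1 z1).resolve_right hdet).symm⟩

theorem main (x y : ℤ) (h : 2 ≤ max |x| |y|) :
    (∃ 𝒯, Idiomeric 𝒯 x y) ∧ ((∃ 𝒯, Idiomeric 𝒯 x y ∧ Aligned 𝒯) ↔ ¬ (Even x ∧ Even y)) := by
  have h0 : x ≠ 0 ∨ y ≠ 0 := by
    by_contra hc
    push Not at hc
    simp [hc.1, hc.2] at h
  refine ⟨all_pairs x y h0, ?_, aligned_exists x y⟩
  rintro ⟨𝒯, h1, h2⟩ ⟨hx, hy⟩
  exact not_aligned hx hy (by omega) h1 h2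

/-- The regular tiling by unit squares. -/
def grid : Set (Set P) := range fun a : ℤ × ℤ => usq a.1 a.2

theorem grid_main : IsTiling grid ∧ Isohedral grid ∧
    (∀ t ∈ grid, Nonempty (t ≃ₜ Metric.closedBall (0 : P) 1)) ∧
    ∀ s ∈ grid, ∀ t ∈ grid, Disjoint s t →
      ∃ 𝒰, IsTiling 𝒰 ∧ Isohedral 𝒰 ∧ Monohedral 𝒰 (s ∪ t) := by
  refine ⟨⟨countable_range _, ?_, ?_, ?_⟩, ?_, ?_, ?_⟩
  · rintro _ ⟨a, rfl⟩; exact closed_sq _ _
  · rw [eq_univ_iff_forall]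
    intro p
    obtain ⟨n, k, hp⟩ := cell_cover 0 p
    exact ⟨_, ⟨(n, k), rfl⟩, by simpa [cell] using hp⟩
  · rintro _ ⟨a, rfl⟩ _ ⟨b, rfl⟩ hne
    rw [Set.disjoint_left]
    intro p ha hb
    obtain ⟨q, ⟨q1, q2⟩, hq⟩ := cell_generic 0 _ (isOpen_interior.inter isOpen_interior) p ⟨ha, hb⟩
    apply hne
    have := hq a.1 a.2 b.1 b.2 (by simpa [cell] using interior_subset q1)
      (by simpa [cell] using interior_subset q2)
    simp only [this.1, this.2]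
  · rintro _ ⟨a, rfl⟩ _ ⟨b, rfl⟩
    refine ⟨tr (b - a).1 (b - a).2, ?_, by simp [tr_sq]⟩
    unfold IsSymm grid
    rw [← range_comp]
    simp only [Function.comp_def, tr_sq]
    have := (Equiv.addRight (b - a)).surjective.range_comp fun a : ℤ × ℤ => usq a.1 a.2
    simpa [Function.comp_def] using this
  · rintro _ ⟨a, rfl⟩
    obtain ⟨e, -, he, -⟩ := exists_homeomorph_image_interior_closure_frontier_eq_unitBall
      (convex_sq a.1 a.2) ⟨_, pt_interior _ _⟩ (by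
        refine (Metric.isBounded_closedBall (x := pt a.1 a.2) (r := 1)).subset fun p hp => ?_
        simp only [usq, mem_setOf_eq, abs_le] at hp
        rw [Metric.mem_closedBall, ← sq_le_one_iff₀ dist_nonneg, dsq]
        simp only [pt0, pt1]
        nlinarith [hp.1.1, hp.1.2, hp.2.1, hp.2.2])
    rw [(closed_sq _ _).closure_eq] at he
    exact ⟨(e.image _).trans (Homeomorph.setCongr he)⟩
  · rintro _ ⟨a, rfl⟩ _ ⟨b, rfl⟩ hd
    have hne : (b - a).1 ≠ 0 ∨ (b - a).2 ≠ 0 := by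
      by_contra hc
      push Not at hc
      have : b = a := sub_eq_zero.1 (Prod.ext hc.1 hc.2)
      subst this
      exact Set.disjoint_left.1 hd (pt_mem _ _) (pt_mem _ _)
    obtain ⟨𝒰, h1, h2, h3, -⟩ := all_pairs _ _ hne
    refine ⟨𝒰, h1, h3, fun t ht => ?_⟩
    obtain ⟨φ, rfl⟩ := h2 t ht
    refine ⟨(tr (-a.1) (-a.2)).trans φ, ?_⟩
    have : T (b - a).1 (b - a).2 = tr (-a.1) (-a.2) '' (usq a.1 a.2 ∪ usq b.1 b.2) := by
      simp [T, image_union, tr_sq, sub_eq_add_neg]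
    rw [this, image_image]; rfl

end Pool.Agent.H34.Idio
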