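import Mathlib

set_option autoImplicit false

open MeasureTheory Set Module
open scoped Pointwise ENNReal NNReal

namespace Pool.Agent.H34.LW

/-- Fubini along a direction `w`. -/
lemma split {F : Type} [NormedAddCommGroup F] [NormedSpace ℝ F] [FiniteDimensional ℝ F]
    [MeasurableSpace F] [BorelSpace F] (μ : Measure F) [μ.IsAddHaarMeasure] (w : F) (hw : w ≠ 0) :
    ∃ (d : ℕ) (ν : Measure (Fin d → ℝ)) (_ : ν.IsAddHaarMeasure) (p : F →L[ℝ] (Fin d → ℝ))
      (φ : F →L[ℝ] ℝ), d + 1 = finrank ℝ F ∧ p w = 0 ∧ φ w = 1 ∧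
      ∀ S : Set F, IsCompact S →
        μ S = ∫⁻ y, volume (φ '' (S ∩ p ⁻¹' {y})) ∂ν ∧
        Measurable (fun y => volume (φ '' (S ∩ p ⁻¹' {y}))) := by
  obtain ⟨φ, hφ⟩ := SeparatingDual.exists_eq_one (R := ℝ) hw
  have hφ0 : (φ : F →ₗ[ℝ] ℝ) ≠ 0 := by
    intro h
    have : φ w = 0 := by simpa using LinearMap.congr_fun h w
    rw [hφ] at this; exact one_ne_zero this
  set W := LinearMap.ker (φ : F →ₗ[ℝ] ℝ) with hW
  have hd : finrank ℝ W + 1 = finrank ℝ F := Module.Dual.finrank_ker_add_one_of_ne_zero hφ0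
  set d := finrank ℝ W with hdd
  let iso : W ≃ₗ[ℝ] (Fin d → ℝ) := LinearEquiv.ofFinrankEq _ _ (by simp [hdd])
  let q : F →ₗ[ℝ] W := LinearMap.codRestrict W
    (LinearMap.id - (LinearMap.toSpanSingleton ℝ F w).comp (φ : F →ₗ[ℝ] ℝ)) (by
      intro x
      simp [hW, hφ])
  have hq : ∀ x, (q x : F) = x - φ x • w := by
    intro x; simp [q]
  let p0 : F →ₗ[ℝ] (Fin d → ℝ) := (iso : W →ₗ[ℝ] (Fin d → ℝ)).comp q
  let e0 : F →ₗ[ℝ] (Fin d → ℝ) × ℝ := p0.prod (φ : F →ₗ[ℝ] ℝ)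
  have hinj : Function.Injective e0 := by
    rw [← LinearMap.ker_eq_bot, LinearMap.ker_eq_bot']
    intro x hx
    have h1 : p0 x = 0 := by simpa [e0] using congrArg Prod.fst hx
    have h2 : φ x = 0 := by simpa [e0] using congrArg Prod.snd hx
    have h3 : q x = 0 := by simpa [p0] using h1
    have h4 := hq x
    rw [h3, h2] at h4
    simpa using h4.symm
  let e1 : F ≃ₗ[ℝ] (Fin d → ℝ) × ℝ := LinearMap.linearEquivOfInjective e0 hinj (by
    simp [← hd])
  let e : F ≃L[ℝ] (Fin d → ℝ) × ℝ := e1.toContinuousLinearEquiv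
  have he : ∀ x, e x = (p0 x, φ x) := fun x => rfl
  let p : F →L[ℝ] (Fin d → ℝ) := LinearMap.toContinuousLinearMap p0
  have hp : ∀ x, p x = p0 x := fun x => rfl
  haveI : (μ.map e).IsAddHaarMeasure := e.isAddHaarMeasure_map μ
  set c := Measure.addHaarScalarFactor (μ.map e)
    ((volume : Measure (Fin d → ℝ)).prod (volume : Measure ℝ)) with hc
  have hc0 : 0 < c := Measure.addHaarScalarFactor_pos_of_isAddHaarMeasure _ _
  have hm : μ.map e = c • ((volume : Measure (Fin d → ℝ)).prod (volume : Measure ℝ)) :=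
    Measure.isAddLeftInvariant_eq_smul _ _
  refine ⟨d, (c : ℝ≥0∞) • volume, Measure.IsAddHaarMeasure.smul _ (by simpa using hc0.ne') (by simp),
    p, φ, hd, ?_, hφ, ?_⟩
  · have : q w = 0 := by
      apply Subtype.ext
      rw [hq, hφ]; simp
    simp [hp, p0, this]
  · intro S hS
    have hcS : IsCompact (e '' S) := hS.image e.continuous
    have hmS : MeasurableSet (e '' S) := hcS.measurableSet
    have hsec : ∀ y, Prod.mk y ⁻¹' (e '' S) = φ '' (S ∩ p ⁻¹' {y}) := by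
      intro y
      ext r
      simp only [mem_preimage, mem_image, mem_inter_iff, mem_singleton_iff, he, hp, Prod.mk.injEq]
      constructor
      · rintro ⟨x, hx, h1, h2⟩
        exact ⟨x, ⟨hx, h1⟩, h2⟩
      · rintro ⟨x, ⟨hx, h1⟩, h2⟩
        exact ⟨x, hx, h1, h2⟩
    constructor
    · have h1 : μ S = (μ.map e) (e '' S) := by
        rw [Measure.map_apply e.continuous.measurable hmS, preimage_image_eq _ e.injective]
      rw [h1, hm, Measure.coe_nnreal_smul_apply, Measure.prod_apply hmS, lintegral_smul_measure]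
      simp only [hsec, smul_eq_mul]
    · have := measurable_measure_prodMk_left (ν := (volume : Measure ℝ)) hmS
      simpa only [hsec] using this

lemma vol_ge {T : Set ℝ} (hT : Convex ℝ T) {a b : ℝ} (ha : a ∈ T) (hb : b ∈ T) :
    ENNReal.ofReal (b - a) ≤ volume T := by
  rw [← Real.volume_Icc]
  exact measure_mono (hT.ordConnected.out ha hb)

lemma exists_Icc {T : Set ℝ} (hT : Convex ℝ T) (hc : IsCompact T) (hne : T.Nonempty) :
    ∃ a b, a ≤ b ∧ T = Icc a b := by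
  refine ⟨sInf T, sSup T, ?_, eq_Icc_of_connected_compact (hT.isConnected hne) hc⟩
  exact csInf_le_csSup hne hc.bddBelow hc.bddAbove

lemma fiber {X : Type} [NormedAddCommGroup X] [NormedSpace ℝ X] {K : Set X} (hK : IsCompact K)
    (hc : Convex ℝ K) (b l : X →L[ℝ] ℝ) {ε : ℝ} (h0 : 0 ≤ ε) (h1 : ε ≤ 1) :
    volume ((b + (1 - ε) • l) '' K) ≤
      ENNReal.ofReal (1 - ε) * volume ((b + l) '' K) + ENNReal.ofReal ε * volume (b '' K) := by
  rcases K.eq_empty_or_nonempty with rfl | hne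
  · simp
  have hcv : ∀ f : X →L[ℝ] ℝ, Convex ℝ (f '' K) := fun f => hc.linear_image (f : X →ₗ[ℝ] ℝ)
  obtain ⟨a, c, hac, hT⟩ := exists_Icc (hcv (b + (1 - ε) • l))
    (hK.image (b + (1 - ε) • l).continuous) (hne.image _)
  have ha : a ∈ (b + (1 - ε) • l) '' K := by rw [hT]; exact ⟨le_rfl, hac⟩
  have hc' : c ∈ (b + (1 - ε) • l) '' K := by rw [hT]; exact ⟨hac, le_rfl⟩
  obtain ⟨x, hx, hxa⟩ := ha
  obtain ⟨z, hz, hzc⟩ := hc'
  rw [hT, Real.volume_Icc]
  have e1 := vol_ge (hcv (b + l)) (mem_image_of_mem _ hx) (mem_image_of_mem _ hz)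
  have e2 := vol_ge (hcv b) (mem_image_of_mem _ hx) (mem_image_of_mem _ hz)
  have e3 : c - a = (1 - ε) * ((b + l) z - (b + l) x) + ε * (b z - b x) := by
    rw [← hxa, ← hzc]
    simp only [ContinuousLinearMap.add_apply, ContinuousLinearMap.smul_apply, smul_eq_mul]
    ring
  rw [e3]
  refine ENNReal.ofReal_add_le.trans (add_le_add ?_ ?_)
  · rw [ENNReal.ofReal_mul (by linarith)]
    exact mul_le_mul_right e1 _
  · rw [ENNReal.ofReal_mul h0]
    exact mul_le_mul_right e2 _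

/-- convexity of the volume along a shadow system -/
lemma shadow {X F : Type} [NormedAddCommGroup X] [NormedSpace ℝ X]
    [NormedAddCommGroup F] [NormedSpace ℝ F] [FiniteDimensional ℝ F]
    [MeasurableSpace F] [BorelSpace F] (μ : Measure F) [μ.IsAddHaarMeasure]
    {K : Set X} (hK : IsCompact K) (hc : Convex ℝ K) (B : X →L[ℝ] F) (l : X →L[ℝ] ℝ) (w : F)
    {ε : ℝ} (h0 : 0 ≤ ε) (h1 : ε ≤ 1) :
    μ ((B + ((1 - ε) • l).smulRight w) '' K) ≤
      ENNReal.ofReal (1 - ε) * μ ((B + l.smulRight w) '' K) + ENNReal.ofReal ε * μ (B '' K) := by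
  by_cases hw : w = 0
  · subst hw
    have e1 : ∀ l' : X →L[ℝ] ℝ, B + l'.smulRight (0 : F) = B := by
      intro l'; ext x; simp
    rw [e1, e1, ← add_mul, ← ENNReal.ofReal_add (by linarith) h0]
    simp
  obtain ⟨d, ν, hν, p, φ, -, hp, hφ, H⟩ := split μ w hw
  have hsec : ∀ (l' : X →L[ℝ] ℝ) (y : Fin d → ℝ),
      φ '' (((B + l'.smulRight w) '' K) ∩ p ⁻¹' {y}) =
        (φ.comp B + l') '' (K ∩ (p.comp B) ⁻¹' {y}) := by
    intro l' y
    ext r
    simp only [mem_image, mem_inter_iff, mem_preimage, mem_singleton_iff,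
      ContinuousLinearMap.add_apply, ContinuousLinearMap.smulRight_apply,
      ContinuousLinearMap.comp_apply]
    constructor
    · rintro ⟨_, ⟨⟨x, hx, rfl⟩, h2⟩, rfl⟩
      refine ⟨x, ⟨hx, ?_⟩, ?_⟩
      · simpa [hp] using h2
      · simp [hφ]
    · rintro ⟨x, ⟨hx, h2⟩, rfl⟩
      refine ⟨_, ⟨⟨x, hx, rfl⟩, ?_⟩, ?_⟩
      · simpa [hp] using h2
      · simp [hφ]
  have hsec0 : ∀ (y : Fin d → ℝ),
      φ '' ((B '' K) ∩ p ⁻¹' {y}) = (φ.comp B) '' (K ∩ (p.comp B) ⁻¹' {y}) := by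
    intro y
    have := hsec 0 y
    simpa using this
  obtain ⟨a1, -⟩ := H _ (hK.image (B + ((1 - ε) • l).smulRight w).continuous)
  obtain ⟨a2, m2⟩ := H _ (hK.image (B + l.smulRight w).continuous)
  obtain ⟨a3, m3⟩ := H _ (hK.image B.continuous)
  rw [a1, a2, a3, ← lintegral_const_mul _ m2, ← lintegral_const_mul _ m3,
    ← lintegral_add_left (m2.const_mul _)]
  apply lintegral_mono
  intro y
  simp only [hsec, hsec0]
  apply fiber _ _ _ _ h0 h1
  · exact hK.inter_right (isClosed_singleton.preimage (p.comp B).continuous)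
  · exact hc.inter ((convex_singleton y).linear_preimage (p.comp B : X →ₗ[ℝ] (Fin d → ℝ)))

/-- adding a segment -/
lemma add_seg {F : Type} [NormedAddCommGroup F] [NormedSpace ℝ F] [FiniteDimensional ℝ F]
    [MeasurableSpace F] [BorelSpace F] (μ : Measure F) [μ.IsAddHaarMeasure] (w : F) (hw : w ≠ 0) :
    ∃ (d : ℕ) (ν : Measure (Fin d → ℝ)) (_ : ν.IsAddHaarMeasure) (p : F →L[ℝ] (Fin d → ℝ)),
      d + 1 = finrank ℝ F ∧ ∀ S : Set F, IsCompact S → Convex ℝ S → ∀ t : ℝ, 0 ≤ t →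
        μ (S + t • segment ℝ (-w) w) = μ S + ENNReal.ofReal (2 * t) * ν (p '' S) := by
  obtain ⟨d, ν, hν, p, φ, hd, hp, hφ, H⟩ := split μ w hw
  refine ⟨d, ν, hν, p, hd, ?_⟩
  intro S hS hc t ht
  have hseg : IsCompact (segment ℝ (-w) w) := by
    rw [segment_eq_image]; exact isCompact_Icc.image (by fun_prop)
  have hmem : ∀ z, z ∈ t • segment ℝ (-w) w ↔ ∃ r ∈ Icc (-t) t, z = r • w := by
    intro z
    rw [segment_eq_image]
    simp only [mem_smul_set, mem_image, mem_Icc]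
    constructor
    · rintro ⟨_, ⟨θ, ⟨h0, h1⟩, rfl⟩, rfl⟩
      refine ⟨t * (2 * θ - 1), ⟨by nlinarith, by nlinarith⟩, ?_⟩
      module
    · rintro ⟨r, ⟨h0, h1⟩, rfl⟩
      rcases ht.eq_or_lt with rfl | ht'
      · have : r = 0 := by linarith
        subst this
        exact ⟨_, ⟨0, ⟨le_rfl, zero_le_one⟩, rfl⟩, by simp⟩
      · refine ⟨_, ⟨(r / t + 1) / 2, ⟨?_, ?_⟩, rfl⟩, ?_⟩
        · have : -1 ≤ r / t := by rw [le_div_iff₀ ht']; linarith
          linarith
        · have : r / t ≤ 1 := by rw [div_le_iff₀ ht']; linarith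
          linarith
        · have : t * (r / t) = r := by field_simp
          calc t • ((1 - (r / t + 1) / 2) • -w + ((r / t + 1) / 2) • w) = (t * (r / t)) • w := by
                module
            _ = r • w := by rw [this]
  obtain ⟨a1, -⟩ := H _ (hS.add (hseg.smul t))
  obtain ⟨a2, m2⟩ := H _ hS
  have hpS : MeasurableSet (p '' S) := (hS.image p.continuous).measurableSet
  rw [a1, a2, ← setLIntegral_const, ← lintegral_indicator hpS, ← lintegral_add_left m2]
  apply lintegral_congr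
  intro y
  have hsec : φ '' ((S + t • segment ℝ (-w) w) ∩ p ⁻¹' {y}) =
      φ '' (S ∩ p ⁻¹' {y}) + Icc (-t) t := by
    ext r
    simp only [mem_image, mem_inter_iff, mem_preimage, mem_singleton_iff, mem_add, hmem]
    constructor
    · rintro ⟨_, ⟨⟨x, hx, _, ⟨s, hs, rfl⟩, rfl⟩, h2⟩, rfl⟩
      refine ⟨φ x, ⟨x, ⟨hx, ?_⟩, rfl⟩, s, hs, ?_⟩
      · simpa [hp] using h2
      · simp [hφ]
    · rintro ⟨_, ⟨x, ⟨hx, h2⟩, rfl⟩, s, hs, rfl⟩
      refine ⟨x + s • w, ⟨⟨x, hx, _, ⟨s, hs, rfl⟩, rfl⟩, ?_⟩, ?_⟩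
      · simpa [hp] using h2
      · simp [hφ]
  rw [hsec]
  by_cases hy : y ∈ p '' S
  · rw [indicator_of_mem hy]
    obtain ⟨x, hx, hxy⟩ := hy
    obtain ⟨a, b, hab, hT⟩ := exists_Icc (T := φ '' (S ∩ p ⁻¹' {y}))
      ((hc.inter ((convex_singleton y).linear_preimage (p : F →ₗ[ℝ] (Fin d → ℝ)))).linear_image
        (φ : F →ₗ[ℝ] ℝ))
      ((hS.inter_right (isClosed_singleton.preimage p.continuous)).image φ.continuous)
      ⟨φ x, x, ⟨hx, hxy⟩, rfl⟩
    rw [hT, Icc_add_Icc hab (by linarith), Real.volume_Icc, Real.volume_Icc,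
      ← ENNReal.ofReal_add (by linarith) (by linarith)]
    congr 1; ring
  · rw [indicator_of_notMem hy]
    have : S ∩ p ⁻¹' {y} = ∅ := by
      ext x
      simp only [mem_inter_iff, mem_preimage, mem_singleton_iff, mem_empty_iff_false, iff_false,
        not_and]
      intro hx h
      exact hy ⟨x, hx, h⟩
    simp [this]

end Pool.Agent.H34.LW
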