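import Pool.Agent.H34.LW1

set_option autoImplicit false

open MeasureTheory Set Module Filter Topology
open scoped Pointwise ENNReal NNReal

namespace Pool.Agent.H34.LW

abbrev X (m : ℕ) := EuclideanSpace ℝ (Fin m)

noncomputable def D {m : ℕ} (t : Fin m → ℝ) : X m →L[ℝ] X m :=
  ∑ i, (t i • (EuclideanSpace.proj i : X m →L[ℝ] ℝ)).smulRight (EuclideanSpace.single i (1 : ℝ))

lemma D_apply {m : ℕ} (t : Fin m → ℝ) (x : X m) (j : Fin m) : D t x j = t j * x j := by
  simp [D, ContinuousLinearMap.sum_apply, Finset.sum_apply, Pi.single_apply]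

noncomputable def P {m : ℕ} (i : Fin m) : X m →L[ℝ] X m := D (Function.update 1 i 0)

lemma P_eq {m : ℕ} (i : Fin m) (x : X m) :
    P i x = x - (inner ℝ x (EuclideanSpace.single i (1 : ℝ))) • EuclideanSpace.single i (1 : ℝ) := by
  ext j
  rw [P, D_apply]
  by_cases h : j = i
  · subst h; simp [EuclideanSpace.inner_single_right]
  · simp [h]

lemma D_update {m : ℕ} {F : Type} [NormedAddCommGroup F] [NormedSpace ℝ F] (G : X m →L[ℝ] F)
    (t : Fin m → ℝ) (k : Fin m) (s : ℝ) :
    G.comp (D (Function.update t k s)) = G.comp (D (Function.update t k 0)) +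
      (s • (EuclideanSpace.proj k : X m →L[ℝ] ℝ)).smulRight (G (EuclideanSpace.single k (1 : ℝ))) := by
  ext1 x
  simp only [ContinuousLinearMap.comp_apply, ContinuousLinearMap.add_apply,
    ContinuousLinearMap.smulRight_apply]
  rw [← map_smul, ← map_add]
  congr 1
  ext j
  by_cases h : j = k
  · subst h; simp [D_apply]
  · simp [D_apply, h]

lemma D_close {m : ℕ} (t t' : Fin m → ℝ) {ε : ℝ} (h0 : 0 ≤ ε) (h : ∀ i, |t i - t' i| ≤ ε) (x : X m) :
    ‖D t x - D t' x‖ ≤ ε * ‖x‖ := by
  apply le_of_sq_le_sq _ (by positivity)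
  rw [mul_pow, EuclideanSpace.real_norm_sq_eq, EuclideanSpace.real_norm_sq_eq, Finset.mul_sum]
  apply Finset.sum_le_sum
  intro j _
  have h1 : (D t x - D t' x) j = (t j - t' j) * x j := by
    simp [D_apply, sub_mul]
  rw [h1, mul_pow]
  apply mul_le_mul_of_nonneg_right _ (sq_nonneg _)
  exact sq_le_sq' (by linarith [(abs_le.1 (h j)).1]) (abs_le.1 (h j)).2

lemma shadowR {m : ℕ} {F : Type} [NormedAddCommGroup F] [NormedSpace ℝ F] [FiniteDimensional ℝ F]
    [MeasurableSpace F] [BorelSpace F] (μ : Measure F) [μ.IsAddHaarMeasure]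
    {K : Set (X m)} (hK : IsCompact K) (hc : Convex ℝ K) (G : X m →L[ℝ] F)
    (t : Fin m → ℝ) (k : Fin m) {ε : ℝ} (h0 : 0 ≤ ε) (h1 : ε ≤ 1) :
    μ.real ((G.comp (D (Function.update t k (1 - ε)))) '' K) ≤
      (1 - ε) * μ.real ((G.comp (D (Function.update t k 1))) '' K) +
        ε * μ.real ((G.comp (D (Function.update t k 0))) '' K) := by
  have := shadow μ hK hc (G.comp (D (Function.update t k 0)))
    (EuclideanSpace.proj k : X m →L[ℝ] ℝ) (G (EuclideanSpace.single k (1 : ℝ))) h0 h1
  rw [← D_update] at this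
  have h2 := D_update G t k 1
  rw [one_smul] at h2
  rw [← h2] at this
  have f1 : ∀ A : X m →L[ℝ] F, μ (A '' K) ≠ ⊤ := fun A => (hK.image A.continuous).measure_lt_top.ne
  have h3 := ENNReal.toReal_mono (ENNReal.add_ne_top.2
    ⟨ENNReal.mul_ne_top ENNReal.ofReal_ne_top (f1 _), ENNReal.mul_ne_top ENNReal.ofReal_ne_top (f1 _)⟩)
    this
  rw [ENNReal.toReal_add (ENNReal.mul_ne_top ENNReal.ofReal_ne_top (f1 _))
    (ENNReal.mul_ne_top ENNReal.ofReal_ne_top (f1 _)), ENNReal.toReal_mul, ENNReal.toReal_mul,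
    ENNReal.toReal_ofReal (by linarith), ENNReal.toReal_ofReal h0] at h3
  exact h3

lemma geom (x : ℝ) (h0 : 0 ≤ x) (h1 : x ≤ 1) (d k : ℕ) :
    (k : ℝ) * (1 - x) * x ^ (d + k) ≤ x ^ d - x ^ (d + k) := by
  induction k with
  | zero => simp
  | succ k ih =>
    have e1 : x ^ (d + (k + 1)) = x ^ (d + k) * x := by ring
    have e2 : 0 ≤ x ^ (d + k) := by positivity
    have e3 : x ^ (d + k) * x ≤ x ^ (d + k) := mul_le_of_le_one_right e2 h1
    have e4 : 0 ≤ (k : ℝ) * (1 - x) := mul_nonneg (Nat.cast_nonneg k) (by linarith)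
    have e5 : (k : ℝ) * (1 - x) * (x ^ (d + k) * x) ≤ (k : ℝ) * (1 - x) * x ^ (d + k) :=
      mul_le_mul_of_nonneg_left e3 e4
    have e6 : (1 - x) * (x ^ (d + k) * x) ≤ (1 - x) * x ^ (d + k) :=
      mul_le_mul_of_nonneg_left e3 (by linarith)
    rw [e1]
    push_cast
    generalize x ^ (d + k) = y at *
    generalize x ^ d = z at *
    nlinarith

/-- the inequality for the volume of one linear image -/
theorem pointwise {m : ℕ} {F : Type} [NormedAddCommGroup F] [NormedSpace ℝ F]
    [FiniteDimensional ℝ F] [MeasurableSpace F] [BorelSpace F] (μ : Measure F)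
    [μ.IsAddHaarMeasure] {K : Set (X m)} (hK : IsCompact K) (hc : Convex ℝ K)
    (G : X m →L[ℝ] F) :
    ((m : ℝ) - finrank ℝ F) * μ.real (G '' K) ≤ ∑ i, μ.real (G '' (P i '' K)) := by
  classical
  set d := finrank ℝ F with hd
  rcases le_or_gt m d with hmd | hmd
  · have : (m : ℝ) - d ≤ 0 := by
      have : (m : ℝ) ≤ d := by exact_mod_cast hmd
      linarith
    exact (mul_nonpos_of_nonpos_of_nonneg this measureReal_nonneg).trans
      (Finset.sum_nonneg fun i _ => measureReal_nonneg)
  obtain ⟨R, hR0, hR⟩ := hK.isBounded.exists_pos_norm_le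
  set C := ‖G‖ * R with hC
  have hC0 : 0 ≤ C := by positivity
  set M : Fin m → ℝ → ℝ := fun j r => μ.real (Metric.cthickening r (G '' (P j '' K))) with hM
  have hcp : ∀ j, IsCompact (G '' (P j '' K)) := fun j =>
    (hK.image (P j).continuous).image G.continuous
  have key : ∀ ε : ℝ, 0 < ε → ε ≤ 1 →
      ((m : ℝ) - d) * (1 - ε) ^ m * μ.real (G '' K) ≤ ∑ j, M j (C * ε) := by
    intro ε h0 h1
    set ts : Finset (Fin m) → Fin m → ℝ := fun s i => if i ∈ s then 1 - ε else 1 with hts
    have ind : ∀ s : Finset (Fin m), μ.real ((G.comp (D (ts s))) '' K) ≤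
        (1 - ε) ^ s.card * μ.real (G '' K) + ε * ∑ j ∈ s, M j (C * ε) := by
      intro s
      induction s using Finset.induction_on with
      | empty =>
        have : G.comp (D (ts ∅)) = G := by
          ext1 x
          simp only [ContinuousLinearMap.comp_apply]
          congr 1
          ext j
          simp [D_apply, hts]
        simp [this]
      | insert k s hk ih =>
        have e1 : ts (insert k s) = Function.update (ts s) k (1 - ε) := by
          ext i
          by_cases h : i = k
          · subst h; simp [hts]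
          · simp [hts, h]
        have e2 : Function.update (ts s) k 1 = ts s := by
          ext i
          by_cases h : i = k
          · subst h; simp [hts, hk]
          · simp [h]
        have e3 := shadowR μ hK hc G (ts s) k h0.le h1
        rw [← e1, e2] at e3
        have e4 : μ.real ((G.comp (D (Function.update (ts s) k 0))) '' K) ≤ M k (C * ε) := by
          apply measureReal_mono _ ((hcp k).cthickening.measure_lt_top.ne)
          rintro _ ⟨x, hx, rfl⟩
          apply Metric.mem_cthickening_of_dist_le _ (G (P k x)) _ _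
            (mem_image_of_mem _ (mem_image_of_mem _ hx))
          rw [dist_eq_norm, ContinuousLinearMap.comp_apply, ← map_sub]
          refine (G.le_opNorm _).trans ?_
          have e5 := D_close (Function.update (ts s) k 0) (Function.update 1 k 0) h0.le (by
            intro i
            by_cases h : i = k
            · subst h; simp [h0.le]
            · by_cases h' : i ∈ s <;> simp [h, h', hts, abs_of_pos h0, h0.le]) x
          have e6 : ε * ‖x‖ ≤ ε * R := mul_le_mul_of_nonneg_left (hR x hx) h0.le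
          calc ‖G‖ * ‖D (Function.update (ts s) k 0) x - P k x‖ ≤ ‖G‖ * (ε * R) :=
                mul_le_mul_of_nonneg_left (e5.trans e6) (norm_nonneg _)
            _ = C * ε := by rw [hC]; ring
        rw [Finset.card_insert_of_notMem hk, Finset.sum_insert hk]
        have e7 : 0 ≤ ∑ j ∈ s, M j (C * ε) := Finset.sum_nonneg fun j _ => measureReal_nonneg
        have e8 := mul_le_mul_of_nonneg_left ih (sub_nonneg.2 h1)
        have e9 := mul_le_mul_of_nonneg_left e4 h0.le
        have e10 : 0 ≤ ε * (ε * ∑ j ∈ s, M j (C * ε)) := mul_nonneg h0.le (mul_nonneg h0.le e7)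
        rw [pow_succ]
        linarith only [e3, e8, e9, e10]
    have h2 := ind Finset.univ
    have h3 : (G.comp (D (ts Finset.univ))) '' K = (1 - ε) • (G '' K) := by
      have : ∀ x, (G.comp (D (ts Finset.univ))) x = (1 - ε) • G x := by
        intro x
        rw [ContinuousLinearMap.comp_apply, ← map_smul]
        congr 1
        ext j
        simp [D_apply, hts]
      simp only [this]
      rw [← image_smul, image_image]
    rw [h3, measureReal_def, Measure.addHaar_smul_of_nonneg μ (sub_nonneg.2 h1),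
      ENNReal.toReal_mul, ENNReal.toReal_ofReal (pow_nonneg (sub_nonneg.2 h1) _), ← measureReal_def,
      ← hd, Finset.card_univ, Fintype.card_fin] at h2
    obtain ⟨k, hk⟩ := Nat.exists_eq_add_of_le hmd.le
    have h4 := geom (1 - ε) (sub_nonneg.2 h1) (by linarith only [h0]) d k
    rw [← hk] at h4
    have h5 : (m : ℝ) - d = k := by rw [hk]; push_cast; ring
    rw [h5]
    have h6 := mul_le_mul_of_nonneg_right h4 (measureReal_nonneg (μ := μ) (s := G '' K))
    have h7 : ε * ((k : ℝ) * (1 - ε) ^ m * μ.real (G '' K)) ≤ ε * ∑ j, M j (C * ε) := by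
      linarith only [h2, h6]
    exact le_of_mul_le_mul_left h7 h0
  have l1 : Tendsto (fun ε : ℝ => ((m : ℝ) - d) * (1 - ε) ^ m * μ.real (G '' K)) (𝓝[>] 0)
      (𝓝 (((m : ℝ) - d) * μ.real (G '' K))) := by
    apply Tendsto.mono_left _ nhdsWithin_le_nhds
    have : Continuous (fun ε : ℝ => ((m : ℝ) - d) * (1 - ε) ^ m * μ.real (G '' K)) := by fun_prop
    simpa using this.tendsto 0
  have l2 : Tendsto (fun ε : ℝ => ∑ j, M j (C * ε)) (𝓝[>] 0)
      (𝓝 (∑ i, μ.real (G '' (P i '' K)))) := by
    apply Tendsto.mono_left _ nhdsWithin_le_nhds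
    apply tendsto_finset_sum
    intro j _
    have a1 := tendsto_measure_cthickening_of_isCompact (μ := μ) (hcp j)
    have a2 : Tendsto (fun ε : ℝ => C * ε) (𝓝 0) (𝓝 0) := by
      have : Continuous (fun ε : ℝ => C * ε) := by fun_prop
      simpa using this.tendsto 0
    exact (ENNReal.tendsto_toReal (hcp j).measure_lt_top.ne).comp (a1.comp a2)
  refine le_of_tendsto_of_tendsto l1 l2 ?_
  filter_upwards [Ioc_mem_nhdsGT (show (0 : ℝ) < 1 by norm_num)] with ε hε
  exact key ε hε.1 hε.2

end Pool.Agent.H34.LW
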