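import Pool.Agent.H34.LW2

set_option autoImplicit false

open MeasureTheory Set Module Filter Topology Polynomial
open scoped Pointwise ENNReal NNReal

namespace Pool.Agent.H34.LW

noncomputable def Z {m : ℕ} {ι : Type} (s : Finset ι) (v : ι → X m) : Set (X m) :=
  ∑ k ∈ s, segment ℝ (-(v k)) (v k)

lemma seg_compact {F : Type} [NormedAddCommGroup F] [NormedSpace ℝ F] (a b : F) :
    IsCompact (segment ℝ a b) := by
  rw [segment_eq_image]; exact isCompact_Icc.image (by fun_prop)

lemma Z_empty {m : ℕ} {ι : Type} (v : ι → X m) : Z ∅ v = {0} := by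
  rw [Z, Finset.sum_empty]; rfl

lemma Z_insert {m : ℕ} {ι : Type} [DecidableEq ι] (v : ι → X m) {s : Finset ι} {a : ι}
    (ha : a ∉ s) : Z (insert a s) v = segment ℝ (-(v a)) (v a) + Z s v := by
  rw [Z, Finset.sum_insert ha]; rfl

lemma Z_cc {m : ℕ} {ι : Type} (v : ι → X m) (s : Finset ι) :
    IsCompact (Z s v) ∧ Convex ℝ (Z s v) := by
  classical
  induction s using Finset.induction_on with
  | empty => rw [Z_empty]; exact ⟨isCompact_singleton, convex_singleton _⟩
  | insert a s ha ih =>
    rw [Z_insert v ha]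
    exact ⟨(seg_compact _ _).add ih.1, (convex_segment _ _).add ih.2⟩

theorem poly {m : ℕ} {ι : Type} (v : ι → X m) (s : Finset ι) :
    ∀ (F : Type) [NormedAddCommGroup F] [NormedSpace ℝ F] [FiniteDimensional ℝ F]
      [MeasurableSpace F] [BorelSpace F] (μ : Measure F) [μ.IsAddHaarMeasure] (G : X m →L[ℝ] F),
      ∃ p : Set (X m) → ℝ[X], ∀ K : Set (X m), IsCompact K → Convex ℝ K →
        (p K).natDegree ≤ finrank ℝ F ∧
        (∀ t : ℝ, 0 ≤ t → (p K).eval t = μ.real (G '' (K + t • Z s v))) ∧
        ∀ k : ℕ, ((m : ℝ) - finrank ℝ F + k) * (p K).coeff k ≤ ∑ i, (p (P i '' K)).coeff k := by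
  classical
  induction s using Finset.induction_on with
  | empty =>
    intro F _ _ _ _ _ μ _ G
    refine ⟨fun K => C (μ.real (G '' K)), fun K hK hc => ⟨by simp, ?_, ?_⟩⟩
    · intro t _
      rw [Z_empty, smul_set_singleton, smul_zero, add_singleton]
      simp
    · intro k
      rcases k with _ | k
      · simpa using pointwise μ hK hc G
      · simp [coeff_C]
  | insert a s ha ih =>
    intro F _ _ _ _ _ μ _ G
    have himg : ∀ (K : Set (X m)) (t : ℝ), G '' (K + t • Z (insert a s) v) =
        G '' (K + t • Z s v) + t • segment ℝ (-(G (v a))) (G (v a)) := by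
      intro K t
      have e1 : K + t • Z (insert a s) v = (K + t • Z s v) + t • segment ℝ (-(v a)) (v a) := by
        rw [Z_insert v ha, smul_add, add_comm (t • segment ℝ (-(v a)) (v a)), add_assoc]
      have e2 : G '' (t • segment ℝ (-(v a)) (v a)) = t • segment ℝ (-(G (v a))) (G (v a)) := by
        rw [image_smul_set]
        congr 1
        have := image_segment ℝ (G : X m →ₗ[ℝ] F).toAffineMap (-(v a)) (v a)
        simpa using this
      rw [e1, image_add G, e2]
    obtain ⟨p, hp⟩ := ih F μ G
    by_cases hw : G (v a) = 0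
    · refine ⟨p, fun K hK hc => ⟨(hp K hK hc).1, ?_, (hp K hK hc).2.2⟩⟩
      intro t ht
      rw [himg, hw, neg_zero, segment_same, smul_set_singleton, smul_zero, add_singleton]
      simpa using (hp K hK hc).2.1 t ht
    obtain ⟨d, ν, hν, π, hd, H⟩ := add_seg μ _ hw
    obtain ⟨q, hq⟩ := ih (Fin d → ℝ) ν (π.comp G)
    have hfd : finrank ℝ (Fin d → ℝ) = d := by simp
    rw [hfd] at hq
    refine ⟨fun K => p K + Polynomial.X * (C 2 * q K), fun K hK hc => ⟨?_, ?_, ?_⟩⟩
    · refine (natDegree_add_le _ _).trans (max_le (hp K hK hc).1 ?_)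
      refine natDegree_mul_le.trans ?_
      have := (natDegree_C_mul_le (2 : ℝ) (q K)).trans (hq K hK hc).1
      have h2 := natDegree_X_le (R := ℝ)
      omega
    · intro t ht
      have hS : IsCompact (K + t • Z s v) := hK.add ((Z_cc v s).1.smul t)
      have hSc : Convex ℝ (K + t • Z s v) := hc.add ((Z_cc v s).2.smul t)
      have hGS := hS.image G.continuous
      rw [himg, measureReal_def, H _ hGS (hSc.linear_image (G : X m →ₗ[ℝ] F)) t ht,
        ENNReal.toReal_add hGS.measure_lt_top.ne (ENNReal.mul_ne_top ENNReal.ofReal_ne_top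
          (hGS.image π.continuous).measure_lt_top.ne), ENNReal.toReal_mul,
        ENNReal.toReal_ofReal (by linarith), ← measureReal_def, ← measureReal_def, image_image]
      simp only [eval_add, eval_mul, eval_X, eval_C]
      rw [(hp K hK hc).2.1 t ht, (hq K hK hc).2.1 t ht]
      simp only [ContinuousLinearMap.comp_apply]
      ring
    · intro k
      have h1 := (hp K hK hc).2.2 k
      rcases k with _ | k
      · simpa using h1
      · have h2 := (hq K hK hc).2.2 k
        simp only [coeff_add, coeff_X_mul, coeff_C_mul, Finset.sum_add_distrib, ← Finset.mul_sum]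
        rw [← hd] at h1 ⊢
        push_cast at h1 h2 ⊢
        linarith

end Pool.Agent.H34.LW
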