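import Pool.Agent.H34.LW3

set_option autoImplicit false

open MeasureTheory Set Module Filter Topology Metric
open scoped Pointwise ENNReal NNReal

namespace Pool.Agent.H34.LW

lemma Z_le {m : ℕ} {ι : Type} (v : ι → X m) (u : X m) (s : Finset ι) :
    ∀ z ∈ Z s v, inner ℝ u z ≤ ∑ k ∈ s, |inner ℝ u (v k)| := by
  classical
  induction s using Finset.induction_on with
  | empty => rw [Z_empty]; simp
  | insert a s ha ih =>
    rw [Z_insert v ha, Finset.sum_insert ha]
    rintro _ ⟨x, ⟨α, β, h0, h1, h2, rfl⟩, y, hy, rfl⟩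
    have := ih y hy
    simp only [inner_add_right, inner_smul_right, inner_neg_right]
    have e1 := le_abs_self (inner ℝ u (v a))
    have e2 := neg_le_abs (inner ℝ u (v a))
    have e3 := mul_le_mul_of_nonneg_left e1 h1
    have e4 := mul_le_mul_of_nonneg_left e2 h0
    have e5 : α * |inner ℝ u (v a)| + β * |inner ℝ u (v a)| = |inner ℝ u (v a)| := by
      rw [← add_mul, h2, one_mul]
    linarith

lemma Z_ex {m : ℕ} {ι : Type} (v : ι → X m) (u : X m) (s : Finset ι) :
    ∃ z ∈ Z s v, inner ℝ u z = ∑ k ∈ s, |inner ℝ u (v k)| := by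
  classical
  induction s using Finset.induction_on with
  | empty => rw [Z_empty]; simp
  | insert a s ha ih =>
    rw [Z_insert v ha, Finset.sum_insert ha]
    obtain ⟨z, hz, e⟩ := ih
    rcases le_total 0 (inner ℝ u (v a)) with h | h
    · exact ⟨v a + z, add_mem_add (right_mem_segment _ _ _) hz, by
        rw [inner_add_right, e, abs_of_nonneg h]⟩
    · exact ⟨-(v a) + z, add_mem_add (left_mem_segment _ _ _) hz, by
        rw [inner_add_right, e, abs_of_nonpos h, inner_neg_right]⟩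

noncomputable def gg {m : ℕ} (x : X m) : X m := max (1 - ‖x‖) 0 • x

lemma gg_cont {m : ℕ} : Continuous (gg : X m → X m) := by unfold gg; fun_prop

lemma gg_supp {m : ℕ} : HasCompactSupport (gg : X m → X m) := by
  apply HasCompactSupport.intro (isCompact_closedBall (0 : X m) 1)
  intro x hx
  have : 1 < ‖x‖ := by simpa using hx
  rw [gg, max_eq_right (by linarith), zero_smul]

noncomputable def HH {m : ℕ} (u : X m) : ℝ := ∫ x, |inner ℝ u (gg x)|

lemma HH_iso {m : ℕ} (R : X m ≃ₗᵢ[ℝ] X m) (u : X m) : HH (R u) = HH u := by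
  have := R.measurePreserving.integral_comp R.toHomeomorph.measurableEmbedding
    (fun x => |inner ℝ (R u) (gg x)|)
  rw [HH, ← this, HH]
  congr 1
  ext x
  have : gg (R x) = R (gg x) := by simp [gg]
  rw [this, R.inner_map_map]

lemma HH_smul {m : ℕ} (c : ℝ) (hc : 0 ≤ c) (u : X m) : HH (c • u) = c * HH u := by
  rw [HH, HH, ← integral_const_mul]
  congr 1
  ext x
  rw [real_inner_smul_left, abs_mul, abs_of_nonneg hc]

lemma HH_eq {m : ℕ} (hm : 0 < m) : ∃ c : ℝ, 0 < c ∧ ∀ u : X m, HH u = c * ‖u‖ := by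
  set e : X m := EuclideanSpace.single ⟨0, hm⟩ (1 : ℝ) with he
  have hn : ‖e‖ = 1 := by simp [he]
  refine ⟨HH e, ?_, ?_⟩
  · have hc : Continuous (fun x : X m => |inner ℝ e (gg x)|) :=
      (continuous_const.inner gg_cont).abs
    have hs : HasCompactSupport (fun x : X m => |inner ℝ e (gg x)|) :=
      gg_supp.comp_left (g := fun y => |inner ℝ e y|) (by simp)
    refine hc.integral_pos_of_hasCompactSupport_nonneg_nonzero (x := (1 / 2 : ℝ) • e) hs
      (fun x => abs_nonneg _) ?_
    simp only [gg, norm_smul, hn, inner_smul_right, real_inner_self_eq_norm_sq]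
    norm_num
  · intro u
    have h1 : ‖(‖u‖ • e)‖ = ‖u‖ := by rw [norm_smul, hn]; simp
    have h2 := Submodule.reflection_sub h1
    rw [mul_comm, ← HH_smul _ (norm_nonneg u), ← HH_iso (Submodule.reflection (ℝ ∙ (‖u‖ • e - u))ᗮ)
      (‖u‖ • e), h2]

lemma approx_h {m : ℕ} (hm : 0 < m) {δ : ℝ} (hδ : 0 < δ) :
    ∃ (s : Finset (X m)) (v : X m → X m), ∀ u : X m,
      |∑ k ∈ s, |inner ℝ u (v k)| - ‖u‖| ≤ δ * ‖u‖ := by
  obtain ⟨c, hc, H⟩ := HH_eq hm
  have hg : Integrable (gg : X m → X m) volume := gg_cont.integrable_of_hasCompactSupport gg_supp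
  obtain ⟨f, hf, hf1⟩ := (memLp_one_iff_integrable.2 hg).exists_simpleFunc_eLpNorm_sub_lt
    (ε := ENNReal.ofReal (c * δ)) (by simp) (by simpa using mul_pos hc hδ)
  rw [memLp_one_iff_integrable] at hf1
  rw [eLpNorm_one_eq_lintegral_enorm, ← ofReal_integral_norm_eq_lintegral_enorm (hg.sub hf1),
    ENNReal.ofReal_lt_ofReal_iff (mul_pos hc hδ)] at hf
  refine ⟨f.range, fun y => (volume.real (f ⁻¹' {y}) / c) • y, fun u => ?_⟩
  have i1 : Integrable (fun x : X m => |inner ℝ u (gg x)|) volume := (hg.const_inner u).abs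
  have i2 : Integrable (fun x : X m => |inner ℝ u (f x)|) volume := (hf1.const_inner u).abs
  have e1 : ∫ x, |inner ℝ u (f x)| = ∑ y ∈ f.range, volume.real (f ⁻¹' {y}) • |inner ℝ u y| := by
    rw [← SimpleFunc.map_integral f (fun y => |inner ℝ u y|) hf1 (by simp),
      SimpleFunc.integral_eq_integral _ i2]
    rfl
  have e2 : ∑ k ∈ f.range, |inner ℝ u ((volume.real (f ⁻¹' {k}) / c) • k)| =
      (∫ x, |inner ℝ u (f x)|) / c := by
    rw [e1, Finset.sum_div]
    apply Finset.sum_congr rfl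
    intro y _
    rw [inner_smul_right, abs_mul, abs_of_nonneg (div_nonneg measureReal_nonneg hc.le),
      smul_eq_mul]
    ring
  have e3 : |(∫ x, |inner ℝ u (f x)|) - HH u| ≤ ‖u‖ * (c * δ) := by
    rw [HH, ← integral_sub i2 i1]
    refine (abs_integral_le_integral_abs).trans ?_
    refine le_trans ?_ (mul_le_mul_of_nonneg_left hf.le (norm_nonneg u))
    rw [← integral_const_mul]
    apply integral_mono (i2.sub i1).abs ((hg.sub hf1).norm.const_mul _)
    intro x
    refine (abs_abs_sub_abs_le_abs_sub _ _).trans ?_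
    rw [abs_sub_comm, ← inner_sub_right]
    exact abs_real_inner_le_norm _ _
  rw [e2]
  rw [H] at e3
  have e4 : (∫ x, |inner ℝ u (f x)|) / c - ‖u‖ = ((∫ x, |inner ℝ u (f x)|) - c * ‖u‖) / c := by
    field_simp
  rw [e4, abs_div, abs_of_pos hc, div_le_iff₀ hc]
  linarith

lemma approx {m : ℕ} (hm : 0 < m) {δ : ℝ} (hδ : 0 < δ) :
    ∃ (s : Finset (X m)) (v : X m → X m),
      closedBall 0 (1 - δ) ⊆ Z s v ∧ Z s v ⊆ closedBall 0 (1 + δ) := by
  obtain ⟨s, v, H⟩ := approx_h hm hδ
  refine ⟨s, v, ?_, ?_⟩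
  · intro x hx
    by_contra hn
    obtain ⟨f, c, h1, h2⟩ := geometric_hahn_banach_closed_point (Z_cc v s).2
      (Z_cc v s).1.isClosed hn
    set u := (InnerProductSpace.toDual ℝ (X m)).symm f with hu
    have hf : ∀ y, f y = inner ℝ u y := fun y => by simp [hu]
    obtain ⟨z, hz, e⟩ := Z_ex v u s
    have a1 := h1 z hz
    rw [hf, e] at a1
    rw [hf] at h2
    have a2 := real_inner_le_norm u x
    have a3 : ‖x‖ ≤ 1 - δ := by simpa using hx
    have a4 := mul_le_mul_of_nonneg_left a3 (norm_nonneg u)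
    have a5 := (abs_le.1 (H u)).1
    linarith
  · intro z hz
    have a1 := Z_le v z s z hz
    have a2 := (abs_le.1 (H z)).2
    rw [real_inner_self_eq_norm_sq] at a1
    rw [mem_closedBall_zero_iff]
    by_contra h
    push Not at h
    have : 0 < ‖z‖ := by linarith
    nlinarith

end Pool.Agent.H34.LW
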