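import Pool.Agent.H34.LW4

set_option autoImplicit false

open MeasureTheory Set Module Filter Topology Metric Polynomial
open scoped Pointwise ENNReal NNReal

namespace Pool.Agent.H34.LW

lemma coeff_eq (m k : ℕ) (q : ℝ[X]) (hq : q.natDegree ≤ m) :
    q.coeff k = ∑ i ∈ Finset.range (m + 1), q.eval (i : ℝ) *
      (Lagrange.basis (Finset.range (m + 1)) (fun i : ℕ => (i : ℝ)) i).coeff k := by
  have h := Lagrange.eq_interpolate (s := Finset.range (m + 1)) (v := fun i : ℕ => (i : ℝ)) (f := q)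
    (fun a _ b _ h => Nat.cast_injective h) (by
      rw [Finset.card_range]
      exact degree_le_natDegree.trans_lt (by exact_mod_cast Nat.lt_succ_of_le hq))
  conv_lhs => rw [h, Lagrange.interpolate_apply, finset_sum_coeff]
  simp only [coeff_C_mul]

lemma coeff_tendsto (m k : ℕ) (p : ℕ → ℝ[X]) (q : ℝ[X]) (hp : ∀ r, (p r).natDegree ≤ m)
    (hq : q.natDegree ≤ m)
    (h : ∀ i : ℕ, Tendsto (fun r => (p r).eval (i : ℝ)) atTop (𝓝 (q.eval (i : ℝ)))) :
    Tendsto (fun r => (p r).coeff k) atTop (𝓝 (q.coeff k)) := by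
  rw [coeff_eq m k q hq]
  have : (fun r => (p r).coeff k) = _ := funext fun r => coeff_eq m k (p r) (hp r)
  rw [this]
  exact tendsto_finset_sum _ fun i _ => (h i).mul_const _

lemma steiner_lim {m : ℕ} {K : Set (X m)} (hK : IsCompact K) (c : ℕ → ℝ)
    (hc : ∀ t : ℝ, 0 ≤ t → (volume (cthickening t K)).toReal =
      ∑ j ∈ Finset.range (m + 1), c j * t ^ (m - j))
    (δ : ℕ → ℝ) (hδ0 : ∀ r, 0 < δ r) (hδ1 : ∀ r, δ r ≤ 1) (hδ : Tendsto δ atTop (𝓝 0))
    (Zs : ℕ → Set (X m)) (h1 : ∀ r, closedBall 0 (1 - δ r) ⊆ Zs r)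
    (h2 : ∀ r, Zs r ⊆ closedBall 0 (1 + δ r))
    (p : ℕ → ℝ[X]) (hp : ∀ r, (p r).natDegree ≤ m)
    (he : ∀ r, ∀ t : ℝ, 0 ≤ t → (p r).eval t = volume.real (K + t • Zs r)) (n : ℕ) (hn : n ≤ m) :
    Tendsto (fun r => (p r).coeff (m - n)) atTop (𝓝 (c n)) := by
  set q : ℝ[X] := ∑ j ∈ Finset.range (m + 1), C (c j) * Polynomial.X ^ (m - j) with hq
  have hqd : q.natDegree ≤ m := by
    apply natDegree_sum_le_of_forall_le
    intro j _
    exact (natDegree_C_mul_X_pow_le _ _).trans (Nat.sub_le _ _)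
  have hqc : q.coeff (m - n) = c n := by
    rw [hq, finset_sum_coeff, Finset.sum_eq_single n]
    · simp
    · intro j hj hjn
      have : j ≤ m := by simpa [Nat.lt_succ_iff] using hj
      rw [coeff_C_mul_X_pow, if_neg (by omega)]
    · intro h
      exact absurd (Finset.mem_range.2 (by omega)) h
  have hqe : ∀ t : ℝ, 0 ≤ t → q.eval t = volume.real (cthickening t K) := by
    intro t ht
    rw [measureReal_def, hc t ht, hq, eval_finset_sum]
    simp
  rw [← hqc]
  apply coeff_tendsto m _ p q hp hqd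
  intro i
  have hi : (0 : ℝ) ≤ i := Nat.cast_nonneg i
  have hcont : Continuous fun t : ℝ => q.eval t := q.continuous
  have l1 : Tendsto (fun r => q.eval ((i : ℝ) * (1 - δ r))) atTop (𝓝 (q.eval (i : ℝ))) := by
    apply (hcont.tendsto _).comp
    simpa using (hδ.const_sub 1).const_mul (i : ℝ)
  have l2 : Tendsto (fun r => q.eval ((i : ℝ) * (1 + δ r))) atTop (𝓝 (q.eval (i : ℝ))) := by
    apply (hcont.tendsto _).comp
    simpa using (hδ.const_add 1).const_mul (i : ℝ)
  have hb : ∀ ρ : ℝ, 0 ≤ ρ → cthickening ((i : ℝ) * ρ) K = K + (i : ℝ) • closedBall (0 : X m) ρ := by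
    intro ρ hρ
    rw [_root_.smul_closedBall _ _ hρ, smul_zero, Real.norm_of_nonneg hi,
      hK.add_closedBall_zero (mul_nonneg hi hρ)]
  have hfin : ∀ r, volume (cthickening ((i : ℝ) * (1 + δ r)) K) ≠ ⊤ := fun r =>
    hK.cthickening.measure_lt_top.ne
  have hs2 : ∀ r, K + (i : ℝ) • Zs r ⊆ cthickening ((i : ℝ) * (1 + δ r)) K := by
    intro r
    rw [hb _ (by linarith [hδ0 r])]
    exact add_subset_add_left (smul_set_mono (h2 r))
  refine tendsto_of_tendsto_of_tendsto_of_le_of_le l1 l2 (fun r => ?_) (fun r => ?_)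
  · have h0 : 0 ≤ 1 - δ r := sub_nonneg.2 (hδ1 r)
    simp only
    rw [he r _ hi, hqe _ (mul_nonneg hi h0), hb _ h0]
    exact measureReal_mono (add_subset_add_left (smul_set_mono (h1 r)))
      (ne_top_of_le_ne_top (hfin r) (measure_mono (hs2 r)))
  · simp only
    rw [he r _ hi, hqe _ (mul_nonneg hi (by linarith [hδ0 r]))]
    exact measureReal_mono (hs2 r) (hfin r)

theorem main {m : ℕ} (hm : 0 < m) (n : ℕ) (hn : n ≤ m) {K : Set (X m)} (hK : IsCompact K)
    (hc : Convex ℝ K) (a : ℕ → ℝ) (b : Fin m → ℕ → ℝ)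
    (ha : ∀ t : ℝ, 0 ≤ t → (volume (cthickening t K)).toReal =
      ∑ j ∈ Finset.range (m + 1), a j * t ^ (m - j))
    (hb : ∀ i, ∀ t : ℝ, 0 ≤ t → (volume (cthickening t (P i '' K))).toReal =
      ∑ j ∈ Finset.range (m + 1), b i j * t ^ (m - j)) :
    ((m : ℝ) - n) * a n ≤ ∑ i, b i n := by
  set δ : ℕ → ℝ := fun r => 1 / ((r : ℝ) + 1) with hδ
  have hδ0 : ∀ r, 0 < δ r := fun r => by simp only [hδ]; positivity
  have hδ1 : ∀ r, δ r ≤ 1 := fun r => by
    simp only [hδ]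
    rw [div_le_one (by positivity)]
    linarith [(Nat.cast_nonneg r : (0 : ℝ) ≤ r)]
  have hδt : Tendsto δ atTop (𝓝 0) := tendsto_one_div_add_atTop_nhds_zero_nat
  choose s v h1 h2 using fun r => approx hm (hδ0 r)
  choose p hp using fun r => poly (v r) (s r) (X m) volume (ContinuousLinearMap.id ℝ (X m))
  have hfd : finrank ℝ (X m) = m := by simp
  rw [hfd] at hp
  have lim : ∀ (L : Set (X m)), IsCompact L → Convex ℝ L → ∀ c : ℕ → ℝ,
      (∀ t : ℝ, 0 ≤ t → (volume (cthickening t L)).toReal =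
        ∑ j ∈ Finset.range (m + 1), c j * t ^ (m - j)) →
      Tendsto (fun r => (p r L).coeff (m - n)) atTop (𝓝 (c n)) := by
    intro L hL hLc c hcL
    refine steiner_lim hL c hcL δ hδ0 hδ1 hδt (fun r => Z (s r) (v r)) h1 h2 (fun r => p r L)
      (fun r => (hp r L hL hLc).1) (fun r t ht => ?_) n hn
    simpa using (hp r L hL hLc).2.1 t ht
  have l1 := (lim K hK hc a ha).const_mul ((m : ℝ) - n)
  have l2 := tendsto_finset_sum Finset.univ fun i _ =>
    lim (P i '' K) (hK.image (P i).continuous) (hc.linear_image (P i : X m →ₗ[ℝ] X m)) (b i) (hb i)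
  refine le_of_tendsto_of_tendsto' l1 l2 fun r => ?_
  have := (hp r K hK hc).2.2 (m - n)
  rw [Nat.cast_sub hn] at this
  rw [sub_self, zero_add] at this
  exact this

end Pool.Agent.H34.LW
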