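import Mathlib

namespace Pool.Agent.H34.Med
open Encodable Filter

abbrev H := ℕ → ℕ × ℕ
abbrev X := Bool × ℕ × H

def ch (h : H) (j : ℕ) : ℕ := Nat.pair j (encode ((List.range j).map h))

theorem ch_eq {h h' : H} {j k : ℕ} : ch h j = ch h' k ↔ j = k ∧ ∀ i < j, h i = h' i := by
  simp only [ch, Nat.pair_eq_pair, encode_inj]
  refine and_congr_right fun e => ?_
  subst e
  simp [List.map_inj_left]

def Ag (n : ℕ) (x y : X) : Prop := x.1 = y.1 ∧ x.2.1 = y.2.1 ∧ ∀ i ≤ n, x.2.2 i = y.2.2 i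

theorem Ag.mono {n k : ℕ} {x y : X} (h : Ag n x y) (e : k ≤ n) : Ag k x y :=
  ⟨h.1, h.2.1, fun i hi => h.2.2 i (hi.trans e)⟩

theorem Ag.symm {n : ℕ} {x y : X} (h : Ag n x y) : Ag n y x :=
  ⟨h.1.symm, h.2.1.symm, fun i hi => (h.2.2 i hi).symm⟩

theorem Ag.trans {n : ℕ} {x y z : X} (h : Ag n x y) (k : Ag n y z) : Ag n x z :=
  ⟨h.1.trans k.1, h.2.1.trans k.2.1, fun i hi => (h.2.2 i hi).trans (k.2.2 i hi)⟩

def cd (x : X) (n : ℕ) : ℕ := Nat.pair n (encode (x.1, x.2.1, ch x.2.2 (n + 1)))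

theorem cd_eq {x y : X} {n k : ℕ} : cd x n = cd y k ↔ n = k ∧ Ag n x y := by
  simp only [cd, Nat.pair_eq_pair, encode_inj, Prod.mk.injEq, ch_eq, Ag, Nat.lt_succ_iff]
  refine and_congr_right fun e => ?_
  simp [e]

theorem le_cd (x : X) (n : ℕ) : n ≤ cd x n := Nat.left_le_pair _ _

def c0 (x : X) (n : ℕ) : ℕ := 2 * cd x n + 2 + (!x.1).toNat

def c1 (x : X) (n : ℕ) : ℕ := 2 * cd x n + 2

theorem c0_eq {x y : X} {n k : ℕ} : c0 x n = c0 y k ↔ n = k ∧ Ag n x y := by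
  rw [← cd_eq]
  refine ⟨fun h => ?_, fun h => by rw [c0, c0, h, (cd_eq.1 h).2.1]⟩
  have := Bool.toNat_le (!x.1)
  have := Bool.toNat_le (!y.1)
  unfold c0 at h
  omega

theorem c1_eq {x y : X} {n k : ℕ} : c1 x n = c1 y k ↔ n = k ∧ Ag n x y := by
  rw [← cd_eq, c1, c1]; omega

theorem lt_c0 (x : X) (n : ℕ) : n < c0 x n := by have := le_cd x n; unfold c0; omega

theorem lt_c1 (x : X) (n : ℕ) : n < c1 x n := by have := le_cd x n; unfold c1; omega

def Cand (e : Bool) (h : H) (n : ℕ) : Prop :=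
  (∃ j, n = 4 * ch h j + 1) ∧ (h n).1 % 2 = e.toNat ∧ (h (h n).1).2 = n

def Prec (e : Bool) (h : H) (p n : ℕ) : Prop :=
  p < n ∧ Cand e h p ∧ Cand e h n ∧ ∃ z, (h p).1 = c0 z p ∧ (h n).1 = c0 z n

open Classical in
noncomputable def par (e : Bool) (h : H) (n : ℕ) : ℕ :=
  (Finset.range n).sup fun p => if Prec e h p n then p + 1 else 0

def B (x : X) (n : ℕ) : Prop := Cand x.1 x.2.2 n ∧ par x.1 x.2.2 n = x.2.1

def R (x : X) (n m : ℕ) : Prop :=
  (B x n ∧ m = (x.2.2 n).1) ∨ (¬ B x n ∧ (m = c0 x n ∨ n = c1 x m))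

def F : Set (ℕ → ℕ) := {f | Function.Bijective f ∧ ∃ x, ∀ n, R x n (f n)}

theorem B.odd {x : X} {n : ℕ} (h : B x n) : n % 4 = 1 := by
  obtain ⟨j, e⟩ := h.1.1; omega

theorem par_le (e : Bool) (h : H) (n : ℕ) : par e h n ≤ n :=
  Finset.sup_le fun p hp => by have := Finset.mem_range.1 hp; split_ifs <;> omega

theorem Prec.lt_par {e : Bool} {h : H} {p n : ℕ} (k : Prec e h p n) : p < par e h n := by
  classical
  have := Finset.le_sup (f := fun p => if Prec e h p n then p + 1 else 0) (Finset.mem_range.2 k.1)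
  rwa [if_pos k] at this

theorem par_le_of {e : Bool} {h : H} {n s : ℕ} (k : ∀ p, Prec e h p n → p < s) : par e h n ≤ s :=
  Finset.sup_le fun p _ => by split_ifs with c; exacts [k p c, s.zero_le]

theorem Prec.trans {e : Bool} {h : H} {a b c : ℕ} (k : Prec e h a b) (l : Prec e h b c) :
    Prec e h a c := by
  obtain ⟨k1, k2, -, z, k3, k4⟩ := k
  obtain ⟨l1, -, l2, w, l3, l4⟩ := l
  exact ⟨k1.trans l1, k2, l2, w,
    k3.trans (c0_eq.2 ⟨rfl, (c0_eq.1 (k4.symm.trans l3)).2.mono k1.le⟩), l4⟩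

theorem Prec.comp {e : Bool} {h : H} {a b c : ℕ} (k : Prec e h a c) (l : Prec e h b c)
    (ab : a < b) : Prec e h a b := by
  obtain ⟨-, k2, -, z, k3, k4⟩ := k
  obtain ⟨l1, l2, -, w, l3, l4⟩ := l
  exact ⟨ab, k2, l2, w,
    k3.trans (c0_eq.2 ⟨rfl, (c0_eq.1 (k4.symm.trans l4)).2.mono (ab.trans l1).le⟩), l3⟩

theorem exists_mem (x : X) : ∃ f : ℕ → ℕ, Function.Bijective f ∧ ∀ n, R x n (f n) := by
  classical
  refine Function.Embedding.schroeder_bernstein_of_rel
    (f := fun n => if B x n then (x.2.2 n).1 else c0 x n)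
    (g := fun m => if B x (x.2.2 m).2 ∧ (x.2.2 (x.2.2 m).2).1 = m then (x.2.2 m).2 else c1 x m)
    ?_ ?_ _ (fun n => ?_) fun m => ?_
  · have k : ∀ a b, B x a → (x.2.2 a).1 ≠ c0 x b := fun a b h e => by
      have := h.1.2.1
      rw [e, c0] at this
      revert this
      cases x.1 <;> simp <;> omega
    intro a b e
    dsimp only at e
    split_ifs at e with ha hb hb
    · rw [← ha.1.2.2, e, hb.1.2.2]
    · exact absurd e (k a b ha)
    · exact absurd e.symm (k b a hb)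
    · exact (c0_eq.1 e).1
  · intro a b e
    dsimp only at e
    split_ifs at e with ha hb hb
    · rw [← ha.2, e, hb.2]
    · have := ha.1.odd; unfold c1 at e; omega
    · have := hb.1.odd; unfold c1 at e; omega
    · exact (c1_eq.1 e).1
  · split_ifs with h
    exacts [Or.inl ⟨h, rfl⟩, Or.inr ⟨h, Or.inl rfl⟩]
  · split_ifs with h
    · exact Or.inl ⟨h.1, h.2.symm⟩
    · exact Or.inr ⟨fun k => by have := k.odd; unfold c1 at this; omega, Or.inr rfl⟩

theorem uniq (x : X) (n : ℕ) : ∀ f g : ℕ → ℕ, Function.Bijective f → Function.Bijective g →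
    (∀ n, R x n (f n)) → (∀ n, R x n (g n)) → f n = g n := by
  induction n using Nat.strong_induction_on with
  | _ n ih =>
    have k : ∀ f g : ℕ → ℕ, Function.Bijective f → Function.Bijective g →
        (∀ n, R x n (f n)) → (∀ n, R x n (g n)) → n = c1 x (g n) → f n = g n := by
      intro f g hf hg rf rg e
      obtain ⟨a, ha⟩ := hf.2 (g n)
      by_contra c
      have h1 : f a ≠ g a := fun q => c (by rw [hg.1 (ha.symm.trans q)] at c ⊢; exact q)
      rcases rf a with q | ⟨q, q' | q'⟩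
      · rcases rg a with r | r
        exacts [h1 (q.2.trans r.2.symm), r.1 q.1]
      · have := lt_c0 x a
        have := lt_c1 x (g n)
        exact h1 (ih a (by omega) f g hf hg rf rg)
      · rw [ha, ← e] at q'
        exact c (q' ▸ q'.symm ▸ ha)
    intro f g hf hg rf rg
    rcases rf n with q | ⟨q, q' | q'⟩
    · rcases rg n with r | r
      exacts [q.2.trans r.2.symm, absurd q.1 r.1]
    · rcases rg n with r | ⟨-, r | r⟩
      exacts [absurd r.1 q, q'.trans r.symm, k f g hf hg rf rg r]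
    · exact (k g f hg hf rg rf q').symm

theorem fin_BB {x y : X} (h : x.2.2 ≠ y.2.2) : {n | B x n ∧ B y n}.Finite := by
  obtain ⟨i, hi⟩ := Function.ne_iff.1 h
  refine ((Set.finite_le_nat i).image fun j => 4 * ch x.2.2 j + 1).subset ?_
  rintro n ⟨⟨⟨⟨j, e⟩, -⟩, -⟩, ⟨⟨k, e'⟩, -⟩, -⟩
  exact ⟨j, not_lt.1 fun c => hi ((ch_eq.1 (by omega : ch x.2.2 j = ch y.2.2 k)).2 i c), e.symm⟩

theorem fin_BC (x y : X) : {n | B x n ∧ (x.2.2 n).1 = c0 y n}.Finite := by
  refine Set.Subsingleton.finite fun a ha b hb => ?_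
  wlog ab : a < b generalizing a b
  · rcases (not_lt.1 ab).eq_or_lt with e | e
    exacts [e.symm, (this b hb a ha e).symm]
  have h1 := Prec.lt_par ⟨ab, ha.1.1, hb.1.1, y, ha.2, hb.2⟩
  have h2 := par_le x.1 x.2.2 a
  rw [ha.1.2] at h2
  rw [hb.1.2] at h1
  omega

theorem fin_Ag {x y : X} (h : x ≠ y) : {n | Ag n x y}.Finite := by
  by_contra c
  refine h (Prod.ext ?_ (Prod.ext ?_ (funext fun i => ?_)))
  · exact (Set.Infinite.nonempty c).some_mem.1
  · exact (Set.Infinite.nonempty c).some_mem.2.1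
  · obtain ⟨n, h1, h2⟩ := Set.Infinite.exists_gt c i
    exact h1.2.2 i h2.le

theorem ed {f g : ℕ → ℕ} (hf : f ∈ F) (hg : g ∈ F) (h : f ≠ g) : {n | f n = g n}.Finite := by
  obtain ⟨hf, x, rx⟩ := hf
  obtain ⟨hg, y, ry⟩ := hg
  have xy : x ≠ y := by
    rintro rfl
    exact h (funext fun n => uniq x n f g hf hg rx ry)
  have h1 : {n | B x n ∧ B y n}.Finite := by
    by_cases e : x.2.2 = y.2.2
    · refine Set.finite_empty.subset fun n ⟨a, b⟩ => xy ?_
      have e1 : x.1 = y.1 := by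
        have := a.1.2.1.symm.trans (e ▸ b.1.2.1)
        revert this
        cases x.1 <;> cases y.1 <;> simp
      exact Prod.ext e1 (Prod.ext (by rw [← a.2, ← b.2, e, e1]) e)
    · exact fin_BB e
  refine ((((h1.union (fin_BC x y)).union (fin_BC y x)).union (fin_Ag xy)).union
    ((fin_Ag xy).preimage hf.1.injOn)).subset fun n (e : f n = g n) => ?_
  have a := rx n
  have b := ry n
  rw [← e] at b
  have := lt_c0 x n
  have := lt_c0 y n
  have := lt_c1 x (f n)
  have := lt_c1 y (f n)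
  simp only [Set.mem_union, Set.mem_setOf_eq, Set.mem_preimage]
  rcases a with a | ⟨a, a' | a'⟩ <;> rcases b with b | ⟨b, b' | b'⟩
  · exact .inl (.inl (.inl (.inl ⟨a.1, b.1⟩)))
  · exact .inl (.inl (.inl (.inr ⟨a.1, a.2.symm.trans b'⟩)))
  · have := a.1.odd; unfold c1 at b'; omega
  · exact .inl (.inl (.inr ⟨b.1, b.2.symm.trans a'⟩))
  · exact .inl (.inr (c0_eq.1 (a'.symm.trans b')).2)
  · omega
  · have := b.1.odd; unfold c1 at a'; omega
  · omega
  · exact .inr (c1_eq.1 (a'.symm.trans b')).2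

theorem limit (y : ℕ → X) (hy : ∀ k l, k ≤ l → Ag k (y k) (y l)) : ∃ x, ∀ k l, k ≤ l → Ag k x (y l) :=
  ⟨((y 0).1, (y 0).2.1, fun i => (y i).2.2 i), fun k l h => ⟨(hy 0 l l.zero_le).1,
    (hy 0 l l.zero_le).2.1, fun i hi => (hy i l (hi.trans h)).2.2 i le_rfl⟩⟩

theorem konig (e : Bool) (h : H) (hc : {n | Cand e h n}.Infinite)
    (hb : ∀ s, {n | B (e, s, h) n}.Finite) : ∃ a : ℕ → ℕ, ∀ i, Prec e h (a i) (a (i + 1)) := by
  classical
  let Z : ℕ → ℕ → Prop := fun s n => Cand e h n ∧ (s = 0 ∨ Prec e h (s - 1) n)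
  have step : ∀ s, {n | Z s n}.Infinite → ∃ a, Z s a ∧ {n | Z (a + 1) n}.Infinite := by
    intro s hs
    by_contra! c
    have sub : ∀ a, B (e, s, h) a ∧ Z s a → {n | Z (a + 1) n}.Finite := fun a ha => c a ha.2
    refine hs (((hb s).union (((hb s).subset fun a (ha : B (e, s, h) a ∧ Z s a) => ha.1).biUnion
      sub)).subset fun n hn => ?_)
    have ex : ∃ m, (m = n ∨ Prec e h m n) ∧ Z s m := ⟨n, Or.inl rfl, hn⟩
    obtain ⟨h1, h2⟩ := Nat.find_spec ex
    have h3 : B (e, s, h) (Nat.find ex) := by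
      refine ⟨h2.1, le_antisymm (par_le_of fun p hp => ?_) ?_⟩
      · by_contra c
        refine Nat.find_min ex hp.1 ⟨Or.inr ?_, hp.2.1, (Nat.eq_zero_or_pos s).imp id fun z =>
          (h2.2.resolve_left z.ne').comp hp (by dsimp only at c; omega)⟩
        rcases h1 with h1 | h1
        exacts [h1 ▸ hp, hp.trans h1]
      · rcases h2.2 with q | q
        · exact q.le.trans (Nat.zero_le _)
        · have := q.lt_par; dsimp only; omega
    rcases h1 with h1 | h1
    · exact Or.inl (h1 ▸ h3)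
    · exact Or.inr (Set.mem_biUnion ⟨h3, h2⟩ ⟨hn.1, Or.inr h1⟩)
  choose! nx h1 h2 using step
  let a : ℕ → ℕ := fun i => Nat.rec (nx 0) (fun _ b => nx (b + 1)) i
  have ha : ∀ i, {n | Z (a i + 1) n}.Infinite := fun i => by
    induction i with
    | zero => exact h2 0 (hc.mono fun n hn => ⟨hn, Or.inl rfl⟩)
    | succ i ih => exact h2 _ ih
  exact ⟨a, fun i => (h1 _ (ha i)).2.resolve_left (Nat.succ_ne_zero _)⟩

theorem maximal (g : ℕ ≃ ℕ) : ∃ f ∈ F, {n | f n = g n}.Infinite := by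
  let h : H := fun n => (g n, g.symm n)
  have inf : (Set.range fun j => 4 * ch h j + 1).Infinite :=
    Set.infinite_range_of_injective fun a b e => (ch_eq.1 (by omega : ch h a = ch h b)).1
  obtain ⟨e, hc⟩ : ∃ e, {n | Cand e h n}.Infinite := by
    by_contra! c
    refine inf (((c true).union (c false)).subset ?_)
    rintro _ ⟨j, rfl⟩
    rcases Nat.mod_two_eq_zero_or_one (g (4 * ch h j + 1)) with q | q
    exacts [Or.inr ⟨⟨j, rfl⟩, q, g.symm_apply_apply _⟩, Or.inl ⟨⟨j, rfl⟩, q, g.symm_apply_apply _⟩]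
  by_cases hb : ∀ s, {n | B (e, s, h) n}.Finite
  swap
  · push Not at hb
    obtain ⟨s, hs⟩ := hb
    obtain ⟨f, h1, h2⟩ := exists_mem (e, s, h)
    exact ⟨f, ⟨h1, _, h2⟩, hs.mono fun n hn => ((h2 n).resolve_right fun k => k.1 hn).2⟩
  obtain ⟨a, ha⟩ := konig e h hc hb
  have mono : StrictMono a := strictMono_nat_of_lt_succ fun i => (ha i).1
  choose y hy hy' using fun i => (ha i).2.2.2
  obtain ⟨x, hx⟩ := limit y fun k l hkl => by
    induction l, hkl using Nat.le_induction with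
    | base => exact ⟨rfl, rfl, fun _ _ => rfl⟩
    | succ l hkl ih => exact ih.trans ((c0_eq.1 ((hy' l).symm.trans (hy (l + 1)))).2.mono
        ((hkl.trans l.le_succ).trans (mono.id_le _)))
  have hz : ∀ i, g (a i) = c0 x (a i) := fun i => by
    have k : ∀ l, i ≤ l → g (a i) = c0 (y l) (a i) := fun l hl => by
      induction l, hl using Nat.le_induction with
      | base => exact hy i
      | succ l hl ih => exact ih.trans (c0_eq.2 ⟨rfl, (c0_eq.1 ((hy' l).symm.trans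
          (hy (l + 1)))).2.mono (mono.monotone (hl.trans l.le_succ))⟩)
    exact (k _ (mono.id_le i)).trans (c0_eq.2 ⟨rfl, (hx _ _ le_rfl).symm⟩)
  obtain ⟨f, h1, h2⟩ := exists_mem x
  refine ⟨f, ⟨h1, _, h2⟩, ?_⟩
  have k : ∀ i, ¬ B x (a i) → f (a i) = g (a i) := fun i c => by
    rcases h2 (a i) with q | ⟨-, q | q⟩
    · exact absurd q.1 c
    · exact q.trans (hz i).symm
    · obtain ⟨j, e⟩ := (ha i).2.1.1
      unfold c1 at q
      omega
  have ia := Set.infinite_range_of_injective mono.injective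
  by_cases c : x.2.2 = h
  · refine ia.mono ?_
    rintro _ ⟨i, rfl⟩
    by_cases b : B x (a i)
    · exact ((h2 _).resolve_right fun k => k.1 b).2.trans (by rw [c])
    · exact k i b
  · obtain ⟨i, hi⟩ := Function.ne_iff.1 c
    refine (ia.diff ((Set.finite_le_nat i).image fun j => 4 * ch x.2.2 j + 1)).mono ?_
    rintro _ ⟨⟨l, rfl⟩, q⟩
    refine k l fun b => q ?_
    obtain ⟨j, e⟩ := b.1.1
    obtain ⟨j', e'⟩ := (ha l).2.1.1
    exact ⟨j, not_lt.1 fun c => hi ((ch_eq.1 (by omega : ch x.2.2 j = ch h j')).2 i c), e.symm⟩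

theorem cand_loc {e : Bool} {h h' : H} {K n : ℕ} (a : ∀ i ≤ K, h i = h' i) (h1 : n ≤ K)
    (h2 : (h n).1 ≤ K) (c : Cand e h n) : Cand e h' n := by
  obtain ⟨⟨j, c1⟩, c2, c3⟩ := c
  have : j ≤ ch h j := Nat.left_le_pair _ _
  rw [Cand, ← a n h1, ← a _ h2]
  exact ⟨⟨j, by rw [c1, ch_eq.2 ⟨rfl, fun i hi => a i (by omega)⟩]⟩, c2, c3⟩

theorem B_loc (x : X) (n : ℕ) : ∃ K, n ≤ K ∧ ∀ y, Ag K x y → (B x n ↔ B y n) := by
  classical
  refine ⟨n + (Finset.range (n + 1)).sup fun p => (x.2.2 p).1, by omega, fun y hy => ?_⟩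
  have l : ∀ p ≤ n, (x.2.2 p).1 ≤ n + (Finset.range (n + 1)).sup fun p => (x.2.2 p).1 :=
    fun p hp => le_add_left (Finset.le_sup (f := fun p => (x.2.2 p).1)
      (Finset.mem_range.2 (Nat.lt_succ_of_le hp)))
  have c : ∀ p ≤ n, Cand x.1 x.2.2 p ↔ Cand y.1 y.2.2 p := fun p hp => hy.1 ▸
    ⟨cand_loc hy.2.2 (by omega) (l p hp), cand_loc hy.symm.2.2 (by omega)
      (hy.2.2 p (by omega) ▸ l p hp)⟩
  have : par x.1 x.2.2 n = par y.1 y.2.2 n := Finset.sup_congr rfl fun p hp => by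
    have := Finset.mem_range.1 hp
    simp only [Prec, c p this.le, c n le_rfl, hy.2.2 p (by omega), hy.2.2 n (by omega)]
    congr
  rw [B, B, c n le_rfl, this, hy.2.1]

theorem closed : IsClosed F := by
  refine isClosed_of_closure_subset fun f hf => ?_
  have : ∀ N, ∃ g ∈ F, ∀ i ≤ N, g i = f i := fun N => by
    obtain ⟨g, h1, h2⟩ := mem_closure_iff.1 hf {g | ∀ i ∈ Finset.range (N + 1), g i = f i}
      (by
        simp only [Set.setOf_forall]
        exact isOpen_biInter_finset fun i _ => 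
          (isOpen_discrete ({f i} : Set ℕ)).preimage (f := fun p : ℕ → ℕ => p i) (continuous_apply i))
      fun _ _ => rfl
    exact ⟨g, h2, fun i hi => h1 i (Finset.mem_range.2 (Nat.lt_succ_of_le hi))⟩
  choose g hg hf using this
  choose y hy using fun N => (hg N).2
  have e : ∀ k N, 4 * k + 3 ≤ N → f (4 * k + 3) = c0 (y N) (4 * k + 3) := fun k N h => by
    rcases hy N (4 * k + 3) with q | ⟨-, q | q⟩
    · have := q.1.odd; omega
    · exact (hf N _ h).symm.trans q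
    · unfold c1 at q; omega
  obtain ⟨x, hx⟩ := limit (fun k => y (4 * k + 3)) fun k l h =>
    (c0_eq.1 ((e k _ le_rfl).symm.trans (e k _ (by omega)))).2.mono (by omega)
  have r : ∀ n m, ∃ K, ∀ z, Ag K x z → (R x n m ↔ R z n m) := fun n m => by
    obtain ⟨K, h1, h2⟩ := B_loc x n
    refine ⟨K + m, fun z hz => ?_⟩
    rw [R, R, h2 z (hz.mono (by omega)), hz.2.2 n (by omega),
      c0_eq.2 ⟨rfl, hz.mono (by omega : n ≤ K + m)⟩, c1_eq.2 ⟨rfl, hz.mono (by omega : m ≤ K + m)⟩]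
  refine ⟨⟨fun a b h => (hg (a + b)).1.1 ?_, fun m => ?_⟩, x, fun n => ?_⟩
  · rw [hf _ a (by omega), hf _ b (by omega), h]
  · let K := m + c1 x m + (x.2.2 m).2
    obtain ⟨n, hn⟩ := (hg (4 * K + 3)).1.2 m
    have a := hx K K le_rfl
    refine ⟨n, (hf (4 * K + 3) n ?_).symm.trans hn⟩
    rcases hn ▸ hy (4 * K + 3) n with q | ⟨-, q | q⟩
    · have := q.1.1.2.2
      rw [← q.2, ← a.2.2 m (by omega)] at this
      omega
    · have := lt_c0 (y (4 * K + 3)) n; omega
    · rw [← c1_eq.2 ⟨rfl, a.mono (by omega : m ≤ K)⟩] at q; omega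
  · obtain ⟨K, hK⟩ := r n (f n)
    rw [hK _ ((hx (K + n) (K + n) le_rfl).mono (by omega)), ← hf (4 * (K + n) + 3) n (by omega)]
    exact hy _ n

end Pool.Agent.H34.Med
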