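import Mathlib

namespace Pool.Agent.H34.PTourDefs

variable {V : Type}

/-- `A` is the arc relation of a tournament. -/
def IsTournament (A : V → V → Prop) : Prop :=
  (∀ u v, A u v → ¬ A v u) ∧ ∀ u v, u ≠ v → A u v ∨ A v u

/-- Some total order has transitive forward arcs. -/
def IsPosetTournament (A : V → V → Prop) : Prop :=
  IsTournament A ∧ ∃ l : LinearOrder V, ∀ u v w, l.lt u v → l.lt v w → A u v → A v w → A u w

/-- The subdigraph induced on `S` has no directed cycle. -/
def AcyclicOn (A : V → V → Prop) (S : Set V) : Prop :=
  ∀ v, ¬ Relation.TransGen (fun a b => a ∈ S ∧ b ∈ S ∧ A a b) v v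

/-- The dichromatic number. -/
noncomputable def dichi (A : V → V → Prop) : ℕ :=
  sInf {k | ∃ c : V → Fin k, ∀ i, AcyclicOn A {v | c v = i}}

/-- The backedge graph for a total order. -/
def backedge (A : V → V → Prop) (l : LinearOrder V) : SimpleGraph V :=
  SimpleGraph.fromRel fun v w => l.lt v w ∧ A w v

/-- The clique number of a digraph: the least clique number of a backedge graph. -/
noncomputable def diomega (A : V → V → Prop) : ℕ :=
  sInf {k | ∃ l : LinearOrder V, (backedge A l).cliqueNum = k}

end Pool.Agent.H34.PTourDefs
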