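import Mathlib
import Pool.Agent.H34.PTourDefs

namespace Pool.Agent.H34.PTour
open Finset Pool.Agent.H34.PTourDefs

/-- Covering pairs of the two-dimensional order given by `x` and `y`. -/
def Cover {V : Type} (x y : V → ℕ) (u v : V) : Prop :=
  x u < x v ∧ y u < y v ∧ ∀ w, ¬ (x u < x w ∧ x w < x v ∧ y u < y w ∧ y w < y v)

theorem lex {B a a' r r' : ℕ} (h : r < B) (h' : r' < B) :
    a * B + r < a' * B + r' ↔ a < a' ∨ (a = a' ∧ r < r') := by
  rcases lt_trichotomy a a' with e | e | e
  · have := Nat.mul_le_mul_right B (show a + 1 ≤ a' from e)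
    constructor <;> intro <;> [exact Or.inl e; nlinarith]
  · subst e; omega
  · have := Nat.mul_le_mul_right B (show a' + 1 ≤ a from e)
    constructor
    · intro; nlinarith
    · omega

theorem hasse (n : ℕ) : ∃ (V : Type) (_ : Fintype V) (x y : V → ℕ), Function.Injective x ∧
    Function.Injective y ∧ ∀ (S : Finset ℕ) (c : V → ℕ), S.card ≤ n → (∀ v, c v ∈ S) →
      ∃ u v, Cover x y u v ∧ c u = c v := by
  classical
  induction n with
  | zero =>
    refine ⟨Unit, inferInstance, fun _ => 0, fun _ => 0, fun _ _ _ => rfl, fun _ _ _ => rfl,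
      fun S c h1 h2 => ?_⟩
    have := card_pos.2 ⟨_, h2 ()⟩
    omega
  | succ n ih =>
    obtain ⟨V, _, x, y, hx, hy, h⟩ := ih
    obtain ⟨B, hB⟩ : ∃ B, ∀ v, x v < B := ⟨univ.sup x + 1, fun v =>
      Nat.lt_succ_of_le (le_sup (f := x) (mem_univ v))⟩
    obtain ⟨N, hN⟩ : ∃ N, N = (n + 1) * Fintype.card V + 1 := ⟨_, rfl⟩
    let 𝒯 := {T : V → Fin N // ∀ u v, y u < y v → T u < T v}
    obtain ⟨K, e, he, hK⟩ : ∃ (K : ℕ) (e : 𝒯 → ℕ), Function.Injective e ∧ ∀ T, e T < K :=
      ⟨_, fun T => Fintype.equivFin 𝒯 T, fun a b h => (Fintype.equivFin 𝒯).injective (Fin.ext h),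
        fun T => (Fintype.equivFin 𝒯 T).2⟩
    have B0 : ∀ _ : V, 0 < B := fun v => lt_of_le_of_lt (Nat.zero_le _) (hB v)
    have mono : ∀ (T : 𝒯) u v, T.1 u < T.1 v ↔ y u < y v := fun T u v =>
      ⟨fun a => by
        rcases lt_trichotomy (y u) (y v) with b | b | b
        · exact b
        · rw [hy b] at a; exact absurd a (lt_irrefl _)
        · exact absurd (T.2 _ _ b) (not_lt.2 a.le), T.2 u v⟩
    let x' : (𝒯 × V) ⊕ Fin N → ℕ := Sum.elim (fun p => e p.1 * B + x p.2) fun j => K * B + j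
    let y' : (𝒯 × V) ⊕ Fin N → ℕ :=
      Sum.elim (fun p => p.1.1 p.2 * (K + 1) + (K - 1 - e p.1)) fun j => j * (K + 1) + K
    have x1 : ∀ T u T' v, x' (.inl (T, u)) < x' (.inl (T', v)) ↔
        e T < e T' ∨ (e T = e T' ∧ x u < x v) := fun T u T' v => lex (hB u) (hB v)
    have x2 : ∀ p j, x' (.inl p) < x' (.inr j) := fun p j =>
      lt_of_lt_of_le ((lex (r' := 0) (hB p.2) (B0 p.2)).2 (Or.inl (hK p.1)))
        (by simp [x'])
    have y1 : ∀ (T : 𝒯) u (T' : 𝒯) v, y' (.inl (T, u)) < y' (.inl (T', v)) ↔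
        T.1 u < T'.1 v ∨ (T.1 u = T'.1 v ∧ e T' < e T) := fun T u T' v => by
      have := hK T
      have := hK T'
      refine (lex (by omega) (by omega)).trans ?_
      simp only [Fin.lt_def, Fin.ext_iff]
      omega
    have y2 : ∀ (T : 𝒯) u j, y' (.inl (T, u)) < y' (.inr j) ↔ T.1 u ≤ j := fun T u j => by
      have := hK T
      refine (lex (by omega) (by omega)).trans ?_
      simp only [Fin.le_def]
      omega
    have y3 : ∀ (T : 𝒯) u j, y' (.inr j) < y' (.inl (T, u)) ↔ j < T.1 u := fun T u j => by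
      have := hK T
      refine (lex (by omega) (by omega)).trans ?_
      simp only [Fin.lt_def]
      omega
    have y4 : ∀ i j, y' (.inr i) < y' (.inr j) ↔ i < j := fun i j => by
      refine (lex (by omega) (by omega)).trans ?_
      simp only [Fin.lt_def]
      omega
    refine ⟨(𝒯 × V) ⊕ Fin N, inferInstance, x', y', ?_, ?_, fun S c h1 h2 => ?_⟩
    · rintro (⟨T, u⟩ | i) (⟨T', v⟩ | j) a
      · have b1 := (x1 T u T' v).not.1 a.not_lt
        have b2 := (x1 T' v T u).not.1 a.not_gt
        rw [he (show e T = e T' by omega), hx (show x u = x v by omega)]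
      · exact absurd a (x2 _ _).ne
      · exact absurd a (x2 _ _).ne'
      · simp only [x', Sum.elim_inr] at a
        exact congrArg _ (Fin.ext (by omega))
    · rintro (⟨T, u⟩ | i) (⟨T', v⟩ | j) a
      · have b1 := (y1 T u T' v).not.1 a.not_lt
        have b2 := (y1 T' v T u).not.1 a.not_gt
        simp only [Fin.lt_def, Fin.ext_iff] at b1 b2
        have b3 := he (show e T = e T' by omega)
        subst b3
        have b4 := (mono T u v).not.1 (by simp only [Fin.lt_def]; omega)
        have b5 := (mono T v u).not.1 (by simp only [Fin.lt_def]; omega)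
        rw [hy (show y u = y v by omega)]
      · have b1 := (y2 T u j).not.1 a.not_lt
        have b2 := (y3 T u j).not.1 a.not_gt
        omega
      · have b1 := (y2 T' v i).not.1 a.not_gt
        have b2 := (y3 T' v i).not.1 a.not_lt
        omega
      · have b1 := (y4 i j).not.1 a.not_lt
        have b2 := (y4 j i).not.1 a.not_gt
        exact congrArg _ (by omega)
    obtain ⟨γ, g1, g2⟩ := exists_lt_card_fiber_of_mul_lt_card_of_maps_to
      (s := (univ : Finset (Fin N))) (t := S) (f := fun j => c (.inr j)) (n := Fintype.card V)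
      (fun j _ => h2 _) (by
        rw [card_univ, Fintype.card_fin]
        have := Nat.mul_le_mul_right (Fintype.card V) h1
        omega)
    letI : LinearOrder V := LinearOrder.lift' y hy
    let o := ((univ : Finset (Fin N)).filter fun j => c (.inr j) = γ).orderEmbOfCardLe g2.le
    let r := (monoEquivOfFin V rfl).symm
    let T : 𝒯 := ⟨fun v => o (r v), fun u v a => o.strictMono (r.strictMono a)⟩
    have hT : ∀ v, c (.inr (T.1 v)) = γ := fun v =>
      (mem_filter.1 (orderEmbOfCardLe_mem _ g2.le (r v))).2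
    by_cases hc : ∃ v, c (.inl (T, v)) = γ
    · obtain ⟨v, hv⟩ := hc
      refine ⟨.inl (T, v), .inr (T.1 v), ⟨x2 _ _, (y2 _ _ _).2 le_rfl, ?_⟩, hv.trans (hT v).symm⟩
      rintro (⟨T', w⟩ | j) ⟨a1, -, a3, a4⟩
      · rw [x1] at a1
        rw [y1] at a3
        rw [y2] at a4
        omega
      · rw [y2] at a3
        rw [y4] at a4
        omega
    · obtain ⟨u, v, ⟨a1, a2, a3⟩, a4⟩ := h (S.erase γ) (fun v => c (.inl (T, v)))
        (by rw [card_erase_of_mem g1]; omega) fun v => mem_erase.2 ⟨fun a => hc ⟨v, a⟩, h2 _⟩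
      refine ⟨.inl (T, u), .inl (T, v), ⟨(x1 _ _ _ _).2 (Or.inr ⟨rfl, a1⟩),
        (y1 _ _ _ _).2 (Or.inl (T.2 _ _ a2)), ?_⟩, a4⟩
      rintro (⟨T', w⟩ | j) ⟨b1, b2, b3, b4⟩
      · rw [x1] at b1 b2
        have b5 := he (show e T = e T' by omega)
        subst b5
        rw [y1, mono] at b3 b4
        exact a3 w (by omega)
      · exact absurd b2 (not_lt.2 (x2 _ _).le)

theorem main (k : ℕ) : ∃ (V : Type) (_ : Fintype V) (A : V → V → Prop),
    IsPosetTournament A ∧ diomega A ≤ 2 ∧ k < dichi A := by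
  classical
  obtain ⟨V, _, x, y, hx, hy, h⟩ := hasse (2 * k)
  let A : V → V → Prop := fun u v => (x u < x v ∧ ¬ Cover x y u v) ∨ Cover x y v u
  have tri : ∀ u v w, Cover x y u v → Cover x y v w → ¬ Cover x y u w :=
    fun u v w a b c => c.2.2 v ⟨a.1, b.1, a.2.1, b.2.1⟩
  have ht : IsTournament A := by
    refine ⟨?_, fun u v huv => ?_⟩
    · rintro u v (⟨a, b⟩ | a) (⟨c, d⟩ | c)
      · omega
      · exact b c
      · exact d a
      · have := a.1; have := c.1; omega
    · rcases lt_or_gt_of_ne (hx.ne huv) with a | a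
      · by_cases b : Cover x y u v
        · exact Or.inr (Or.inr b)
        · exact Or.inl (Or.inl ⟨a, b⟩)
      · by_cases b : Cover x y v u
        · exact Or.inl (Or.inr b)
        · exact Or.inr (Or.inl ⟨a, b⟩)
  refine ⟨V, inferInstance, A, ⟨ht, LinearOrder.lift' y hy, ?_⟩, ?_, ?_⟩
  · intro u v w a b c d
    change y u < y v at a
    change y v < y w at b
    rcases c with c | c
    · rcases d with d | d
      · exact Or.inl ⟨c.1.trans d.1, fun e => e.2.2 v ⟨c.1, d.1, a, b⟩⟩
      · have := d.2.1; omega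
    · have := c.2.1; omega
  · refine (Nat.sInf_le (s := {k | ∃ l : LinearOrder V, (backedge A l).cliqueNum = k})
      ⟨LinearOrder.lift' x hx, rfl⟩).trans ?_
    obtain ⟨s, hs⟩ := (backedge A (LinearOrder.lift' x hx)).exists_isNClique_cliqueNum
    by_contra hc
    obtain ⟨t, h1, h2⟩ := exists_subset_card_eq (show 3 ≤ s.card by rw [hs.2]; omega)
    obtain ⟨a, b, c, n1, n2, n3, rfl⟩ := card_eq_three.1 h2
    have key : ∀ u ∈ s, ∀ v ∈ s, u ≠ v → Cover x y u v ∨ Cover x y v u := fun u hu v hv ne => by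
      have := hs.1 hu hv ne
      rw [backedge, SimpleGraph.fromRel_adj] at this
      rcases this.2 with ⟨p, q | q⟩ | ⟨p, q | q⟩
      · exact absurd (show x u < x v from p) (not_lt.2 q.1.le)
      · exact Or.inl q
      · exact absurd (show x v < x u from p) (not_lt.2 q.1.le)
      · exact Or.inr q
    have ha := h1 (show a ∈ ({a, b, c} : Finset V) by simp)
    have hb := h1 (show b ∈ ({a, b, c} : Finset V) by simp)
    have hc := h1 (show c ∈ ({a, b, c} : Finset V) by simp)
    rcases key a ha b hb n1 with p | p <;> rcases key a ha c hc n2 with q | q <;>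
      rcases key b hb c hc n3 with r | r
    · exact tri _ _ _ p r q
    · exact tri _ _ _ q r p
    · have := p.1; have := q.1; have := r.1; omega
    · exact tri _ _ _ q p r
    · exact tri _ _ _ p q r
    · have := p.1; have := q.1; have := r.1; omega
    · exact tri _ _ _ r q p
    · exact tri _ _ _ r p q
  · by_contra hk
    have hne : {k | ∃ c : V → Fin k, ∀ i, AcyclicOn A {v | c v = i}}.Nonempty :=
      ⟨_, Fintype.equivFin V, fun i v hv => by
        obtain ⟨w, -, a1, a2, a3⟩ := Relation.TransGen.tail'_iff.1 hv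
        have : w = v := (Fintype.equivFin V).injective (a1.trans a2.symm)
        exact ht.1 _ _ a3 (this ▸ a3)⟩
    obtain ⟨c, hc⟩ := Nat.sInf_mem hne
    obtain ⟨u, v, a1, a2⟩ := h (range (2 * k)) (fun v => 2 * c v +
      if ∃ w, c w = c v ∧ Cover x y v w then 0 else 1) (by simp) (fun v => by
        have : (c v : ℕ) < k := lt_of_lt_of_le (c v).2 (not_lt.1 hk)
        rw [mem_range]
        split_ifs <;> omega)
    have a3 : c v = c u := Fin.ext (by split_ifs at a2 <;> omega)
    rw [if_pos ⟨v, a3, a1⟩] at a2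
    have a4 : ∃ w, c w = c v ∧ Cover x y v w := by
      by_contra a
      rw [if_neg a] at a2
      omega
    obtain ⟨w, a5, a6⟩ := a4
    exact hc (c u) u (((Relation.TransGen.single ⟨rfl, a5.trans a3,
      Or.inl ⟨a1.1.trans a6.1, tri _ _ _ a1 a6⟩⟩).tail ⟨a5.trans a3, a3, Or.inr a6⟩).tail
      ⟨a3, rfl, Or.inr a1⟩)

end Pool.Agent.H34.PTour
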