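import Mathlib

namespace Pool.Agent.H34.PermMuDefs

/-- A permutation of length `n`, written as the list of its values `0, …, n - 1`. -/
def IsPm (l : List ℕ) : Prop := l.Perm (List.range l.length)

/-- Pattern containment `σ ≤ π`: some subsequence of `π` has its entries in the same relative
order as `σ`. -/
def Pat (σ π : List ℕ) : Prop :=
  ∃ s : List ℕ, s.Sublist π ∧ s.length = σ.length ∧
    ∀ i < σ.length, ∀ j < σ.length, (σ.getD i 0 < σ.getD j 0 ↔ s.getD i 0 < s.getD j 0)

/-- All permutations of length less than `n`. -/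
def shorter (n : ℕ) : Finset (List ℕ) :=
  (Finset.range n).biUnion fun m => (List.range m).permutations'.toFinset

theorem lt_of_mem {n : ℕ} {τ : List ℕ} (h : τ ∈ shorter n) : τ.length < n := by
  simp only [shorter, Finset.mem_biUnion, Finset.mem_range, List.mem_toFinset,
    List.mem_permutations'] at h
  obtain ⟨m, h1, h2⟩ := h
  simpa [h2.length_eq] using h1

open Classical in
/-- The Möbius function: `μ(σ, σ) = 1` and `μ(σ, π) = - ∑_{σ ≤ τ < π} μ(σ, τ)`; the `τ < π` are
the permutations `τ ≤ π` shorter than `π`. -/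
noncomputable def mu (σ π : List ℕ) : ℤ :=
  if σ = π then 1 else
    - ∑ τ ∈ (shorter π.length).attach, if Pat σ τ.1 ∧ Pat τ.1 π then mu σ τ.1 else 0
termination_by π.length
decreasing_by exact lt_of_mem τ.2

/-- `C` is a chain of the open interval `(σ, π)` all of whose elements `τ` have `P (μ(σ, τ))`. -/
def Face (P : ℤ → Prop) (σ π : List ℕ) (C : Finset (List ℕ)) : Prop :=
  (∀ τ ∈ C, IsPm τ ∧ Pat σ τ ∧ Pat τ π ∧ τ ≠ σ ∧ τ ≠ π ∧ P (mu σ τ)) ∧
    ∀ τ ∈ C, ∀ τ' ∈ C, Pat τ τ' ∨ Pat τ' τ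

end Pool.Agent.H34.PermMuDefs
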