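import Mathlib
import Pool.Agent.H34.PermMuDefs

namespace Pool.Agent.H34.PermMu
open Pool.Agent.H34.PermMuDefs

def patB (σ π : List ℕ) : Bool :=
  (π.sublistsLen σ.length).any fun s => (List.range σ.length).all fun i =>
    (List.range σ.length).all fun j =>
      Nat.ble (σ.getD j 0) (σ.getD i 0) == Nat.ble (s.getD j 0) (s.getD i 0)

instance decPat (σ π : List ℕ) : Decidable (Pat σ π) :=
  decidable_of_iff (patB σ π = true) (by
    have e : ∀ a b c d : ℕ, Nat.ble a b = Nat.ble c d ↔ (b < a ↔ d < c) := fun a b c d => by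
      rw [Bool.eq_iff_iff, Nat.ble_eq, Nat.ble_eq, ← not_le, ← not_le, not_iff_not]
    simp only [patB, List.any_eq_true, List.mem_sublistsLen, List.all_eq_true, List.mem_range, Pat,
      and_assoc, beq_iff_eq, e])

def muF (σ : List ℕ) : ℕ → List ℕ → ℤ
  | 0, π => if σ = π then 1 else 0
  | k + 1, π => if σ = π then 1 else
      - ((List.range π.length).map fun m => ((List.range m).permutations'.map fun τ =>
        if Pat τ π then if Pat σ τ then muF σ k τ else 0 else 0).sum).sum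

theorem sum_shorter (n : ℕ) (f : List ℕ → ℤ) : ∑ τ ∈ shorter n, f τ =
    ((List.range n).map fun m => ((List.range m).permutations'.map f).sum).sum := by
  rw [shorter, Finset.sum_biUnion, ← List.sum_toFinset _ List.nodup_range, List.toFinset_range]
  · exact Finset.sum_congr rfl fun m _ => List.sum_toFinset _
      ((List.permutations_perm_permutations' _).nodup_iff.1 (List.nodup_permutations _ List.nodup_range))
  · intro a _ b _ h
    refine Finset.disjoint_left.2 fun τ h1 h2 => h ?_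
    simp only [List.mem_toFinset, List.mem_permutations'] at h1 h2
    simpa using h1.length_eq.symm.trans h2.length_eq

theorem mu_eq (σ : List ℕ) : ∀ (k : ℕ) (π : List ℕ), π.length ≤ k → mu σ π = muF σ k π := by
  intro k
  induction k with
  | zero =>
    intro π h
    rw [mu, muF, Nat.le_zero.1 h]
    simp [shorter]
  | succ k ih =>
    intro π h
    rw [mu, muF, ← sum_shorter, ← Finset.sum_attach (shorter π.length)]
    congr 2
    refine Finset.sum_congr rfl fun τ _ => ?_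
    rw [ih τ.1 (by have := lt_of_mem τ.2; omega)]
    by_cases a : Pat σ τ.1 <;> by_cases b : Pat τ.1 π <;> simp [a, b]

instance (l : List ℕ) : Decidable (IsPm l) := inferInstanceAs (Decidable (l.Perm _))

theorem maximal (P : ℤ → Prop) [DecidablePred P] (σ π : List ℕ) (C : Finset (List ℕ))
    (h1 : ∀ τ ∈ C, IsPm τ ∧ Pat σ τ ∧ Pat τ π ∧ τ ≠ σ ∧ τ ≠ π ∧ P (muF σ π.length τ))
    (h2 : ∀ τ ∈ C, ∀ τ' ∈ C, Pat τ τ' ∨ Pat τ' τ)
    (h3 : ∀ m < π.length + 1, ∀ τ ∈ (List.range m).permutations', Pat τ π → Pat σ τ → (∀ τ' ∈ C, Pat τ τ' ∨ Pat τ' τ) →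
      τ ≠ σ → τ ≠ π → P (muF σ π.length τ) → τ ∈ C) : Maximal (Face P σ π) C := by
  have e : ∀ τ, Pat τ π → mu σ τ = muF σ π.length τ := fun τ ⟨s, k1, k2, _⟩ =>
    mu_eq σ _ τ (k2 ▸ k1.length_le)
  refine ⟨⟨fun τ h => ?_, h2⟩, fun D hD hle τ hτ => ?_⟩
  · obtain ⟨a, b, c, d, f, g⟩ := h1 τ h
    exact ⟨a, b, c, d, f, e τ c ▸ g⟩
  · obtain ⟨a, b, c, d, f, g⟩ := hD.1 τ hτ
    exact h3 τ.length (by obtain ⟨s, k1, k2, -⟩ := c; have := k1.length_le; omega) τ
      (List.mem_permutations'.2 a) c b (fun τ' h => hD.2 τ hτ τ' (hle h)) d f (e τ c ▸ g)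

set_option synthInstance.maxSize 2000

theorem zero1 : Maximal (Face (· = 0) [0] [0, 3, 2, 1, 4]) {[0, 1, 2]} :=
  maximal _ _ _ _ (by decide +kernel) (by decide +kernel) (by decide +kernel)

theorem zero2 : Maximal (Face (· = 0) [0] [0, 3, 2, 1, 4]) {[2, 1, 0], [0, 3, 2, 1]} :=
  maximal _ _ _ _ (by decide +kernel) (by decide +kernel) (by decide +kernel)

theorem nz1 : Maximal (Face (· ≠ 0) [1, 0] [0, 2, 1, 5, 4, 3]) {[2, 1, 0], [0, 3, 2, 1]} :=
  maximal _ _ _ _ (by decide +kernel) (by decide +kernel) (by decide +kernel)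

theorem nz2 : Maximal (Face (· ≠ 0) [1, 0] [0, 2, 1, 5, 4, 3])
    {[1, 0, 2], [0, 2, 1, 3], [0, 2, 1, 4, 3]} :=
  maximal _ _ _ _ (by decide +kernel) (by decide +kernel) (by decide +kernel)

end Pool.Agent.H34.PermMu
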