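import Mathlib

set_option autoImplicit false

namespace Pool.Agent.H34.Pmd
open Set Classical

variable {n : ℕ} {M : Matroid (Fin n)}

noncomputable def cov (M : Matroid (Fin n)) (F : Set (Fin n)) : Finset (Set (Fin n)) :=
  (Finset.univ.filter (fun y => y ∉ F)).image (fun y => M.closure (insert y F))

lemma cl_eq (hE : M.E = univ) {X G : Set (Fin n)} (hG : M.IsFlat G) (hXG : X ⊆ G)
    (hr : M.eRk G ≤ M.eRk X) : M.closure X = G := by
  have h := (M.isRkFinite_of_finite (toFinite X)).closure_eq_closure_of_subset_of_eRk_ge_eRk hXG hr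
  rw [h, hG.closure]

lemma rk_ins (hE : M.E = univ) {F : Set (Fin n)} (hF : M.IsFlat F) {y : Fin n} (hy : y ∉ F) :
    M.eRk (insert y F) = M.eRk F + 1 :=
  M.eRk_insert_eq_add_one ⟨by simp [hE], by rwa [hF.closure]⟩

lemma mem_cov (hE : M.E = univ) {F G : Set (Fin n)} (hF : M.IsFlat F) :
    G ∈ cov M F ↔ M.IsFlat G ∧ F ⊆ G ∧ M.eRk G = M.eRk F + 1 := by
  unfold cov
  simp only [Finset.mem_image, Finset.mem_filter, Finset.mem_univ, true_and]
  constructor
  · rintro ⟨y, hy, rfl⟩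
    refine ⟨M.isFlat_closure _, (subset_insert y F).trans (M.subset_closure _ (by simp [hE])), ?_⟩
    rw [M.eRk_closure_eq, rk_ins hE hF hy]
  · rintro ⟨hG, hFG, hr⟩
    have : ¬ G ⊆ F := by
      intro h
      have e : G = F := h.antisymm hFG
      rw [e] at hr
      have hfin : M.eRk F ≠ ⊤ := (M.isRkFinite_of_finite (toFinite F)).eRk_lt_top.ne
      obtain ⟨r, hr'⟩ := ENat.ne_top_iff_exists.1 hfin
      rw [← hr'] at hr
      norm_cast at hr
      omega
    obtain ⟨y, hyG, hyF⟩ := not_subset.1 this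
    exact ⟨y, hyF, cl_eq hE hG (insert_subset hyG hFG) (by rw [rk_ins hE hF hyF, hr])⟩

lemma cov_eq (hE : M.E = univ) {F G : Set (Fin n)} (hF : M.IsFlat F) (hG : G ∈ cov M F)
    {y : Fin n} (hyG : y ∈ G) (hyF : y ∉ F) : M.closure (insert y F) = G := by
  obtain ⟨hG, hFG, hr⟩ := (mem_cov hE hF).1 hG
  exact cl_eq hE hG (insert_subset hyG hFG) (by rw [rk_ins hE hF hyF, hr])

lemma cnt (hE : M.E = univ) {F : Set (Fin n)} (hF : M.IsFlat F) (Y : Set (Fin n)) :
    (Y \ F).ncard = ∑ G ∈ cov M F, ((Y ∩ G) \ F).ncard := by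
  have h := Finset.card_eq_sum_card_fiberwise (f := fun y => M.closure (insert y F))
    (s := Finset.univ.filter (fun y => y ∈ Y \ F)) (t := cov M F) (by
      intro y hy
      simp only [Finset.coe_filter, Finset.mem_univ, true_and, mem_setOf_eq] at hy
      unfold cov
      simp only [Finset.coe_image, Finset.coe_filter, Finset.mem_univ, true_and]
      exact ⟨y, hy.2, rfl⟩)
  have e1 : (Y \ F).ncard = (Finset.univ.filter (fun y => y ∈ Y \ F)).card := by
    rw [← Set.ncard_coe_finset]; congr 1; ext; simp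
  rw [e1, h]
  refine Finset.sum_congr rfl fun G hG => ?_
  rw [← Set.ncard_coe_finset]; congr 1; ext y
  simp only [Finset.coe_filter, Finset.mem_filter, Finset.mem_univ, true_and, mem_setOf_eq,
    mem_diff, mem_inter_iff]
  constructor
  · rintro ⟨⟨h1, h2⟩, h3⟩
    refine ⟨⟨h1, ?_⟩, h2⟩
    rw [← h3]
    exact M.subset_closure _ (by simp [hE]) (mem_insert _ _)
  · rintro ⟨⟨h1, h2⟩, h3⟩
    exact ⟨⟨h1, h3⟩, cov_eq hE hF hG h2 h3⟩

lemma arith (a k v l m R : ℕ) (hl : 2 ≤ l) (hla : l < a) (hak : a < k) (hkv : k ≤ v)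
    (h1 : v - a = m * (k - a)) (h2 : k - l = m * (a - l)) (h3 : (l - 1) ∣ (a - 1))
    (h4 : (a - 1) ∣ (k - 1)) (h5 : (a - 1) * a ≤ k - 1) (h6 : R * (k - 1) = (v - 1) * m) :
    False := by
  obtain ⟨u, hu⟩ := h3
  obtain ⟨k', hk'⟩ := h4
  obtain ⟨e, rfl⟩ : ∃ e, l = e + 1 := ⟨l - 1, by omega⟩
  obtain ⟨A, rfl⟩ : ∃ A, a = A + 1 := ⟨a - 1, by omega⟩
  obtain ⟨K, rfl⟩ : ∃ K, k = K + 1 := ⟨k - 1, by omega⟩
  obtain ⟨V, rfl⟩ : ∃ V, v = V + 1 := ⟨v - 1, by omega⟩
  simp only [Nat.add_sub_cancel, Nat.add_sub_add_right] at *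
  have he : 0 < e := by omega
  have hA : 0 < A := by omega
  have hk1 : A + 1 ≤ k' := by
    rw [hk'] at h5
    exact Nat.le_of_mul_le_mul_left h5 hA
  have hu0 : 0 < u := by
    rcases Nat.eq_zero_or_pos u with h | h
    · rw [h] at hu; omega
    · exact h
  have huA : u ≤ A := by rw [hu]; exact Nat.le_mul_of_pos_left u he
  zify [show A ≤ V by omega, show A ≤ K by omega, show e ≤ K by omega, show e ≤ A by omega]
    at h1 h2 h6 hu hk'
  have he' : (e : ℤ) ≠ 0 := by exact_mod_cast he.ne'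
  have hA' : (A : ℤ) ≠ 0 := by exact_mod_cast hA.ne'
  have c1 : (k' : ℤ) * u - m * (u - 1) = 1 := by
    apply mul_left_cancel₀ he'
    rw [hk', hu] at h2
    linear_combination h2
  have c2 : (R : ℤ) * k' = m * (1 + m * (k' - 1)) := by
    apply mul_left_cancel₀ hA'
    have : (V : ℤ) = A + m * (K - A) := by linarith
    rw [this, hk'] at h6
    linear_combination h6
  have cop : IsCoprime (k' : ℤ) m := ⟨u, -(u - 1), by linear_combination c1⟩
  have d1 : (k' : ℤ) ∣ m * (1 - m) := ⟨R - m * m, by linear_combination -c2⟩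
  obtain ⟨j, hj⟩ := cop.dvd_of_dvd_mul_left d1
  have d2 : (k' : ℤ) ∣ u := ⟨u + j * (u - 1), by linear_combination -c1 + (u - 1) * hj⟩
  have := Int.le_of_dvd (by exact_mod_cast hu0) d2
  omega

end Pool.Agent.H34.Pmd
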