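import Pool.Agent.H34.Pmd

set_option autoImplicit false

namespace Pool.Agent.H34.Pmd
open Set Classical

variable {n : ℕ} {M : Matroid (Fin n)}

lemma pt (hE : M.E = univ)
    (h0 : ∀ F : Set (Fin n), M.IsFlat F → M.eRk F = 0 → F.ncard = 0)
    (h1 : ∀ F : Set (Fin n), M.IsFlat F → M.eRk F = 1 → F.ncard = 1) (x : Fin n) :
    M.IsFlat {x} ∧ M.eRk {x} = 1 := by
  have e0 : M.closure ∅ = ∅ := by
    have := h0 _ (M.isFlat_closure ∅) (by rw [M.eRk_closure_eq, M.eRk_empty])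
    exact (Set.ncard_eq_zero (toFinite _)).1 this
  have f0 : M.IsFlat ∅ := Matroid.isFlat_iff_closure_eq.2 e0
  have r1 : M.eRk {x} = 1 := by
    have := rk_ins hE f0 (y := x) (by simp)
    simpa using this
  refine ⟨?_, r1⟩
  have := h1 _ (M.isFlat_closure {x}) (by rw [M.eRk_closure_eq, r1])
  obtain ⟨z, hz⟩ := Set.ncard_eq_one.1 this
  have hx : x ∈ M.closure {x} := M.subset_closure _ (by simp [hE]) rfl
  rw [hz] at hx
  have hx' : x = z := hx
  rw [Matroid.isFlat_iff_closure_eq, hz, hx']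

theorem core (hE : M.E = univ) (hpt : ∀ x, M.IsFlat {x} ∧ M.eRk {x} = 1) (a k : ℕ)
    (ha : ∀ L, M.IsFlat L → M.eRk L = 2 → L.ncard = a)
    (hk : ∀ H, M.IsFlat H → M.eRk H = 3 → H.ncard = k)
    (hr : M.eRk univ = 4) (B : Set (Fin n)) (hB : B.ncard = k)
    (x y : Fin n) (hx : x ∈ B) (hy : y ∈ B) (hxy : y ≠ x)
    (hT : ∀ H, M.IsFlat H → M.eRk H = 3 → 2 ≤ (B ∩ H).ncard → (B ∩ H).ncard = a) : False := by
  have two : (1 : ℕ∞) + 1 = 2 := by norm_num
  have three : (2 : ℕ∞) + 1 = 3 := by norm_num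
  -- lines through a point
  have lin : ∀ z G, G ∈ cov M {z} ↔ M.IsFlat G ∧ z ∈ G ∧ M.eRk G = 2 := by
    intro z G
    rw [mem_cov hE (hpt z).1, (hpt z).2, two, singleton_subset_iff]
  have pla : ∀ L G, M.IsFlat L → M.eRk L = 2 →
      (G ∈ cov M L ↔ M.IsFlat G ∧ L ⊆ G ∧ M.eRk G = 3) := by
    intro L G hL hL2
    rw [mem_cov hE hL, hL2, three]
  have mk : ∀ z w, w ≠ z → M.closure (insert w {z}) ∈ cov M {z} := by
    intro z w h
    unfold cov
    exact Finset.mem_image.2 ⟨w, by simpa using h, rfl⟩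
  have sub : ∀ z w G H, G ∈ cov M {z} → w ∈ G → w ≠ z → M.IsFlat H → z ∈ H → w ∈ H → G ⊆ H := by
    intro z w G H hG hw hwz hH hzH hwH
    rw [← cov_eq hE (hpt z).1 hG hw hwz, ← hH.closure]
    exact M.closure_subset_closure (insert_subset hwH (singleton_subset_iff.2 hzH))
  have memcl : ∀ (w : Fin n) (S : Set (Fin n)), w ∈ M.closure (insert w S) := fun w S =>
    M.subset_closure _ (by simp [hE]) (mem_insert _ _)
  -- number of planes on a line
  have A1 : ∀ L, M.IsFlat L → M.eRk L = 2 → n - a = (cov M L).card * (k - a) := by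
    intro L hL hL2
    have := cnt hE hL univ
    rw [Set.ncard_sdiff (subset_univ _), Set.ncard_univ, ha L hL hL2,
      Finset.sum_const_nat (m := k - a)] at this
    · simpa using this
    · intro G hG
      obtain ⟨g1, g2, g3⟩ := (pla L G hL hL2).1 hG
      rw [univ_inter, Set.ncard_sdiff g2, hk G g1 g3, ha L hL hL2]
  have A2 : ∀ L, M.IsFlat L → M.eRk L = 2 → 2 ≤ (B ∩ L).ncard →
      k - (B ∩ L).ncard = (cov M L).card * (a - (B ∩ L).ncard) := by
    intro L hL hL2 h2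
    have := cnt hE hL B
    have e : B \ L = B \ (B ∩ L) := by ext; simp
    rw [e, Set.ncard_sdiff inter_subset_left, hB,
      Finset.sum_const_nat (m := a - (B ∩ L).ncard)] at this
    · exact this
    · intro G hG
      obtain ⟨g1, g2, g3⟩ := (pla L G hL hL2).1 hG
      have s : B ∩ L ⊆ B ∩ G := inter_subset_inter_right _ g2
      have e' : (B ∩ G) \ L = (B ∩ G) \ (B ∩ L) := by
        ext t; simp only [mem_diff, mem_inter_iff]; tauto
      rw [e', Set.ncard_sdiff s, hT G g1 g3 (h2.trans (Set.ncard_le_ncard s))]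
  have two_le : ∀ (S : Set (Fin n)) (z w : Fin n), z ∈ S → w ∈ S → w ≠ z → 2 ≤ S.ncard :=
    fun S z w h1 h2 h3 => (Set.one_lt_ncard (toFinite S)).2 ⟨w, h2, z, h1, h3⟩
  set L := M.closure (insert y {x}) with hLdef
  have hLc : L ∈ cov M {x} := mk x y hxy
  obtain ⟨hL, hxL, hL2⟩ := (lin x L).1 hLc
  have hyL : y ∈ L := memcl _ _
  have hl2 : 2 ≤ (B ∩ L).ncard := two_le _ x y ⟨hx, hxL⟩ ⟨hy, hyL⟩ hxy
  obtain ⟨p, hp⟩ : ∃ p, p ∉ L := by
    by_contra h
    push Not at h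
    have : L = univ := eq_univ_of_forall h
    rw [this, hr] at hL2
    norm_num at hL2
  set H := M.closure (insert p L) with hHdef
  have hHc : H ∈ cov M L := by
    unfold cov
    exact Finset.mem_image.2 ⟨p, by simpa using hp, rfl⟩
  obtain ⟨hH, hLH, hH3⟩ := (pla L H hL hL2).1 hHc
  have hpH : p ∈ H := memcl _ _
  have hak : a < k := by
    rw [← ha L hL hL2, ← hk H hH hH3]
    exact Set.ncard_lt_ncard ⟨hLH, fun h => hp (h hpH)⟩
  have hkn : k ≤ n := by
    rw [← hB]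
    simpa using Set.ncard_le_ncard (subset_univ B)
  have hm : ∀ L', M.IsFlat L' → M.eRk L' = 2 → (cov M L').card = (cov M L).card := by
    intro L' h1 h2
    exact Nat.eq_of_mul_eq_mul_right (Nat.sub_pos_of_lt hak)
      ((A1 L' h1 h2).symm.trans (A1 L hL hL2))
  have hle : ∀ L', M.IsFlat L' → M.eRk L' = 2 → (B ∩ L').ncard ≤ a := by
    intro L' h1 h2
    rw [← ha L' h1 h2]
    exact Set.ncard_le_ncard inter_subset_right
  have h2 := A2 L hL hL2 hl2
  have hla : (B ∩ L).ncard < a := by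
    rcases (hle L hL hL2).lt_or_eq with h | h
    · exact h
    · rw [h] at h2; simp at h2; omega
  have huniq : ∀ L', M.IsFlat L' → M.eRk L' = 2 → 2 ≤ (B ∩ L').ncard →
      (B ∩ L').ncard = (B ∩ L).ncard := by
    intro L' h1 h2' h3
    have t := A2 L' h1 h2' h3
    rw [hm L' h1 h2'] at t
    have l1 := hle L' h1 h2'
    generalize (B ∩ L').ncard = l' at *
    generalize (B ∩ L).ncard = l at *
    generalize (cov M L).card = m at *
    zify [l1, hla.le, l1.trans hak.le, hla.le.trans hak.le] at t h2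
    have : ((m : ℤ) - 1) * (l' - l) = 0 := by linear_combination t - h2
    rcases mul_eq_zero.1 this with h | h
    · have hm1 : (m : ℤ) = 1 := by linarith
      rw [hm1] at t
      omega
    · omega
  have hxH : x ∈ H := hLH hxL
  have hBH : (B ∩ H).ncard = a :=
    hT H hH hH3 (two_le _ x y ⟨hx, hxH⟩ ⟨hy, hLH hyL⟩ hxy)
  have h3 : ((B ∩ L).ncard - 1) ∣ (a - 1) := by
    have := cnt hE (hpt x).1 (B ∩ H)
    rw [Set.ncard_sdiff_singleton_of_mem (show x ∈ B ∩ H from ⟨hx, hxH⟩), hBH] at this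
    rw [this]
    refine Finset.dvd_sum fun G hG => ?_
    obtain ⟨g1, g2, g3⟩ := (lin x G).1 hG
    rcases eq_empty_or_nonempty ((B ∩ H ∩ G) \ {x}) with h | ⟨w, ⟨⟨w1, w2⟩, w3⟩, w4⟩
    · rw [h]; simp
    · have s := sub x w G H hG w3 w4 hH hxH w2
      have e : B ∩ H ∩ G = B ∩ G := by
        ext t; simp only [mem_inter_iff]; exact ⟨fun h => ⟨h.1.1, h.2⟩, fun h => ⟨⟨h.1, s h.2⟩, h.2⟩⟩
      rw [e, Set.ncard_sdiff_singleton_of_mem (show x ∈ B ∩ G from ⟨hx, g2⟩),
        huniq G g1 g3 (two_le _ x w ⟨hx, g2⟩ ⟨w1, w3⟩ w4)]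
  have term : ∀ z G, z ∈ H → G ∈ cov M {z} → ∀ w, w ∈ H → w ∈ G → w ≠ z →
      ((H ∩ G) \ {z}).ncard = a - 1 := by
    intro z G hz hG w w1 w2 w3
    obtain ⟨g1, g2, g3⟩ := (lin z G).1 hG
    rw [inter_eq_right.2 (sub z w G H hG w2 w3 hH hz w1), Set.ncard_sdiff_singleton_of_mem g2,
      ha G g1 g3]
  have c4 := cnt hE (hpt p).1 H
  rw [Set.ncard_sdiff_singleton_of_mem hpH, hk H hH hH3] at c4
  have h4 : (a - 1) ∣ (k - 1) := by
    rw [c4]
    refine Finset.dvd_sum fun G hG => ?_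
    rcases eq_empty_or_nonempty ((H ∩ G) \ {p}) with h | ⟨w, ⟨w1, w2⟩, w3⟩
    · rw [h]; simp
    · rw [term p G hpH hG w w1 w2 w3]
  have h5 : (a - 1) * a ≤ k - 1 := by
    have c5 := cnt hE (hpt p).1 L
    rw [sdiff_singleton_eq_self hp, ha L hL hL2] at c5
    rw [c4]
    conv_lhs => rw [c5]
    rw [← c5]
    conv_lhs => arg 2; rw [c5]
    rw [Finset.mul_sum]
    refine Finset.sum_le_sum fun G hG => ?_
    obtain ⟨g1, g2, g3⟩ := (lin p G).1 hG
    rcases eq_empty_or_nonempty ((L ∩ G) \ {p}) with h | ⟨w, ⟨w1, w2⟩, w3⟩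
    · rw [h]; simp
    · rw [term p G hpH hG w (hLH w1) w2 w3]
      have : ((L ∩ G) \ {p}).ncard ≤ 1 := by
        rw [Set.ncard_le_one (toFinite _)]
        rintro s ⟨⟨s1, s2⟩, -⟩ t ⟨⟨t1, t2⟩, -⟩
        by_contra hst
        have := sub t s G L ((lin t G).2 ⟨g1, t2, g3⟩) s2 hst hL t1 s1
        exact hp (this g2)
      exact mul_le_of_le_one_right (Nat.zero_le _) this
  have h6 := Finset.card_mul_eq_card_mul (fun (G : Set (Fin n)) (w : Fin n) => w ∈ G)
    (s := Finset.univ.filter (fun G : Set (Fin n) => M.IsFlat G ∧ x ∈ G ∧ M.eRk G = 3))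
    (t := Finset.univ.erase x) (m := k - 1) (n := (cov M L).card) (by
      intro G hG
      simp only [Finset.mem_filter, Finset.mem_univ, true_and] at hG
      rw [← hk G hG.1 hG.2.2, ← Set.ncard_sdiff_singleton_of_mem hG.2.1, ← Set.ncard_coe_finset]
      congr 1; ext t; simp [Finset.bipartiteAbove, and_comm]) (by
      intro w hw
      have hwx : w ≠ x := Finset.ne_of_mem_erase hw
      have hc := mk x w hwx
      obtain ⟨g1, g2, g3⟩ := (lin x _).1 hc
      rw [← hm _ g1 g3]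
      congr 1; ext G
      rw [pla _ G g1 g3]
      simp only [Finset.bipartiteBelow, Finset.mem_filter, Finset.mem_univ, true_and]
      constructor
      · rintro ⟨⟨q1, q2, q3⟩, q4⟩
        exact ⟨q1, sub x w _ G hc (memcl _ _) hwx q1 q2 q4, q3⟩
      · rintro ⟨q1, q2, q3⟩
        exact ⟨⟨q1, q2 g2, q3⟩, q2 (memcl _ _)⟩)
  rw [Finset.card_erase_of_mem (Finset.mem_univ x), Finset.card_univ, Fintype.card_fin] at h6
  exact arith a k n _ _ _ hl2 hla hak hkn (A1 L hL hL2) h2 h3 h4 h5 h6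

end Pool.Agent.H34.Pmd
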