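import Pool.Agent.H34.Pmd

set_option autoImplicit false

namespace Pool.Agent.H34.Pmd
open Set Classical

variable {n : ℕ} {M : Matroid (Fin n)}

lemma arith2 (g a k v l m R : ℕ) (hl : g + 2 ≤ l) (hla : l < a) (hak : a < k) (hkv : k ≤ v)
    (h1 : v - a = m * (k - a)) (h2 : k - l = m * (a - l)) (h3 : (l - (g + 1)) ∣ (a - (g + 1)))
    (h4 : (a - (g + 1)) ∣ (k - (g + 1))) (h5 : (a - (g + 1)) * (a - g) ≤ k - (g + 1))
    (h6 : R * (k - (g + 1)) = (v - (g + 1)) * m) : False := by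
  refine arith (a - g) (k - g) (v - g) (l - g) m R (by omega) (by omega) (by omega) (by omega)
    ?_ ?_ ?_ ?_ ?_ ?_
  · rw [show v - g - (a - g) = v - a by omega, show k - g - (a - g) = k - a by omega]; exact h1
  · rw [show k - g - (l - g) = k - l by omega, show a - g - (l - g) = a - l by omega]; exact h2
  · simpa only [Nat.sub_sub] using h3
  · simpa only [Nat.sub_sub] using h4
  · simpa only [Nat.sub_sub] using h5
  · simpa only [Nat.sub_sub] using h6

theorem core2 (hE : M.E = univ) (g : ℕ) (G₀ : Set (Fin n)) (hG0 : G₀.ncard = g)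
    (hpt : ∀ z, z ∉ G₀ → M.IsFlat (insert z G₀) ∧ M.eRk (insert z G₀) = g + 1) (a k : ℕ)
    (ha : ∀ L, M.IsFlat L → M.eRk L = g + 1 + 1 → L.ncard = a)
    (hk : ∀ H, M.IsFlat H → M.eRk H = g + 1 + 1 + 1 → H.ncard = k)
    (hr : M.eRk univ = g + 1 + 1 + 1 + 1) (B : Set (Fin n)) (hB : B.ncard = k) (hGB : G₀ ⊆ B)
    (x y : Fin n) (hx : x ∈ B) (hy : y ∈ B) (hxG : x ∉ G₀) (hxy : y ∉ insert x G₀)
    (hT : ∀ H, M.IsFlat H → M.eRk H = g + 1 + 1 + 1 → g + 2 ≤ (B ∩ H).ncard →
      (B ∩ H).ncard = a) : False := by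
  have cP : ∀ z, z ∉ G₀ → (insert z G₀).ncard = g + 1 := fun z hz => by
    rw [Set.ncard_insert_of_notMem hz, hG0]
  have lin : ∀ z G, z ∉ G₀ → (G ∈ cov M (insert z G₀) ↔
      M.IsFlat G ∧ insert z G₀ ⊆ G ∧ M.eRk G = g + 1 + 1) := by
    intro z G hz
    rw [mem_cov hE (hpt z hz).1, (hpt z hz).2]
  have pla : ∀ L G, M.IsFlat L → M.eRk L = g + 1 + 1 →
      (G ∈ cov M L ↔ M.IsFlat G ∧ L ⊆ G ∧ M.eRk G = g + 1 + 1 + 1) := by
    intro L G hL hL2
    rw [mem_cov hE hL, hL2]
  have mk : ∀ (F : Set (Fin n)) w, w ∉ F → M.closure (insert w F) ∈ cov M F := by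
    intro F w h
    unfold cov
    exact Finset.mem_image.2 ⟨w, by simpa using h, rfl⟩
  have sub : ∀ z w G H, z ∉ G₀ → G ∈ cov M (insert z G₀) → w ∈ G → w ∉ insert z G₀ →
      M.IsFlat H → insert z G₀ ⊆ H → w ∈ H → G ⊆ H := by
    intro z w G H hz hG hw hwz hH hzH hwH
    rw [← cov_eq hE (hpt z hz).1 hG hw hwz, ← hH.closure]
    exact M.closure_subset_closure (insert_subset hwH hzH)
  have memcl : ∀ (w : Fin n) (S : Set (Fin n)), w ∈ M.closure (insert w S) := fun w S =>
    M.subset_closure _ (by simp [hE]) (mem_insert _ _)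
  have A1 : ∀ L, M.IsFlat L → M.eRk L = g + 1 + 1 → n - a = (cov M L).card * (k - a) := by
    intro L hL hL2
    have := cnt hE hL univ
    rw [Set.ncard_sdiff (subset_univ _), Set.ncard_univ, ha L hL hL2,
      Finset.sum_const_nat (m := k - a)] at this
    · simpa using this
    · intro G hG
      obtain ⟨g1, g2, g3⟩ := (pla L G hL hL2).1 hG
      rw [univ_inter, Set.ncard_sdiff g2, hk G g1 g3, ha L hL hL2]
  have A2 : ∀ L, M.IsFlat L → M.eRk L = g + 1 + 1 → g + 2 ≤ (B ∩ L).ncard →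
      k - (B ∩ L).ncard = (cov M L).card * (a - (B ∩ L).ncard) := by
    intro L hL hL2 h2
    have := cnt hE hL B
    have e : B \ L = B \ (B ∩ L) := by ext; simp
    rw [e, Set.ncard_sdiff inter_subset_left, hB,
      Finset.sum_const_nat (m := a - (B ∩ L).ncard)] at this
    · exact this
    · intro G hG
      obtain ⟨g1, g2, g3⟩ := (pla L G hL hL2).1 hG
      have s : B ∩ L ⊆ B ∩ G := inter_subset_inter_right _ g2
      have e' : (B ∩ G) \ L = (B ∩ G) \ (B ∩ L) := by
        ext t; simp only [mem_sdiff, mem_inter_iff]; tauto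
      rw [e', Set.ncard_sdiff s, hT G g1 g3 (h2.trans (Set.ncard_le_ncard s))]
  have hPB : insert x G₀ ⊆ B := insert_subset hx hGB
  have two_le : ∀ (S : Set (Fin n)) (w : Fin n), insert x G₀ ⊆ S → w ∈ S → w ∉ insert x G₀ →
      g + 2 ≤ S.ncard := by
    intro S w h1 h2 h3
    have := Set.ncard_le_ncard (insert_subset h2 h1)
    rw [Set.ncard_insert_of_notMem h3, cP x hxG] at this
    exact this
  set L := M.closure (insert y (insert x G₀)) with hLdef
  have hLc : L ∈ cov M (insert x G₀) := mk _ y hxy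
  obtain ⟨hL, hxL, hL2⟩ := (lin x L hxG).1 hLc
  have hyL : y ∈ L := memcl _ _
  have hl2 : g + 2 ≤ (B ∩ L).ncard := two_le _ y (subset_inter hPB hxL) ⟨hy, hyL⟩ hxy
  obtain ⟨p, hp⟩ : ∃ p, p ∉ L := by
    by_contra h
    push Not at h
    have : L = univ := eq_univ_of_forall h
    rw [this, hr] at hL2
    norm_cast at hL2
    omega
  have hGL : G₀ ⊆ L := (subset_insert _ _).trans hxL
  have hpG : p ∉ G₀ := fun h => hp (hGL h)
  set H := M.closure (insert p L) with hHdef
  have hHc : H ∈ cov M L := mk _ p hp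
  obtain ⟨hH, hLH, hH3⟩ := (pla L H hL hL2).1 hHc
  have hpH : insert p G₀ ⊆ H := insert_subset (memcl _ _) (hGL.trans hLH)
  have hak : a < k := by
    rw [← ha L hL hL2, ← hk H hH hH3]
    exact Set.ncard_lt_ncard ⟨hLH, fun h => hp (h (memcl _ _))⟩
  have hkn : k ≤ n := by
    rw [← hB]
    simpa using Set.ncard_le_ncard (subset_univ B)
  have hm : ∀ L', M.IsFlat L' → M.eRk L' = g + 1 + 1 → (cov M L').card = (cov M L).card := by
    intro L' h1 h2
    exact Nat.eq_of_mul_eq_mul_right (Nat.sub_pos_of_lt hak)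
      ((A1 L' h1 h2).symm.trans (A1 L hL hL2))
  have hle : ∀ L', M.IsFlat L' → M.eRk L' = g + 1 + 1 → (B ∩ L').ncard ≤ a := by
    intro L' h1 h2
    rw [← ha L' h1 h2]
    exact Set.ncard_le_ncard inter_subset_right
  have h2 := A2 L hL hL2 hl2
  have hla : (B ∩ L).ncard < a := by
    rcases (hle L hL hL2).lt_or_eq with h | h
    · exact h
    · rw [h] at h2; simp at h2; omega
  have huniq : ∀ L', M.IsFlat L' → M.eRk L' = g + 1 + 1 → g + 2 ≤ (B ∩ L').ncard →
      (B ∩ L').ncard = (B ∩ L).ncard := by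
    intro L' h1 h2' h3
    have t := A2 L' h1 h2' h3
    rw [hm L' h1 h2'] at t
    have l1 := hle L' h1 h2'
    generalize (B ∩ L').ncard = l' at *
    generalize (B ∩ L).ncard = l at *
    generalize (cov M L).card = m at *
    zify [l1, hla.le, l1.trans hak.le, hla.le.trans hak.le] at t h2
    have : ((m : ℤ) - 1) * (l' - l) = 0 := by linear_combination t - h2
    rcases mul_eq_zero.1 this with h | h
    · have hm1 : (m : ℤ) = 1 := by linarith
      rw [hm1] at t
      omega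
    · omega
  have hxH : insert x G₀ ⊆ H := hxL.trans hLH
  have hBH : (B ∩ H).ncard = a :=
    hT H hH hH3 (two_le _ y (subset_inter hPB hxH) ⟨hy, hLH hyL⟩ hxy)
  have h3 : ((B ∩ L).ncard - (g + 1)) ∣ (a - (g + 1)) := by
    have := cnt hE (hpt x hxG).1 (B ∩ H)
    rw [Set.ncard_sdiff (subset_inter hPB hxH), hBH, cP x hxG] at this
    rw [this]
    refine Finset.dvd_sum fun G hG => ?_
    obtain ⟨g1, g2, g3⟩ := (lin x G hxG).1 hG
    rcases eq_empty_or_nonempty ((B ∩ H ∩ G) \ insert x G₀) with h | ⟨w, ⟨⟨w1, w2⟩, w3⟩, w4⟩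
    · rw [h]; simp
    · have s := sub x w G H hxG hG w3 w4 hH hxH w2
      have e : B ∩ H ∩ G = B ∩ G := by
        ext t; simp only [mem_inter_iff]; exact ⟨fun h => ⟨h.1.1, h.2⟩, fun h => ⟨⟨h.1, s h.2⟩, h.2⟩⟩
      rw [e, Set.ncard_sdiff (subset_inter hPB g2), cP x hxG,
        huniq G g1 g3 (two_le _ w (subset_inter hPB g2) ⟨w1, w3⟩ w4)]
  have term : ∀ G, G ∈ cov M (insert p G₀) → ∀ w, w ∈ H → w ∈ G → w ∉ insert p G₀ →
      ((H ∩ G) \ insert p G₀).ncard = a - (g + 1) := by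
    intro G hG w w1 w2 w3
    obtain ⟨g1, g2, g3⟩ := (lin p G hpG).1 hG
    rw [inter_eq_right.2 (sub p w G H hpG hG w2 w3 hH hpH w1), Set.ncard_sdiff g2, cP p hpG,
      ha G g1 g3]
  have c4 := cnt hE (hpt p hpG).1 H
  rw [Set.ncard_sdiff hpH, hk H hH hH3, cP p hpG] at c4
  have h4 : (a - (g + 1)) ∣ (k - (g + 1)) := by
    rw [c4]
    refine Finset.dvd_sum fun G hG => ?_
    rcases eq_empty_or_nonempty ((H ∩ G) \ insert p G₀) with h | ⟨w, ⟨w1, w2⟩, w3⟩
    · rw [h]; simp
    · rw [term G hG w w1 w2 w3]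
  have h5 : (a - (g + 1)) * (a - g) ≤ k - (g + 1) := by
    have c5 := cnt hE (hpt p hpG).1 L
    have e : L \ insert p G₀ = L \ G₀ := by
      ext t
      simp only [mem_sdiff, mem_insert_iff, not_or]
      exact ⟨fun h => ⟨h.1, h.2.2⟩, fun h => ⟨h.1, fun e => hp (e ▸ h.1), h.2⟩⟩
    rw [e, Set.ncard_sdiff hGL, ha L hL hL2, hG0] at c5
    rw [c4, c5, Finset.mul_sum]
    refine Finset.sum_le_sum fun G hG => ?_
    obtain ⟨g1, g2, g3⟩ := (lin p G hpG).1 hG
    rcases eq_empty_or_nonempty ((L ∩ G) \ insert p G₀) with h | ⟨w, ⟨w1, w2⟩, w3⟩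
    · rw [h]; simp
    · rw [term G hG w (hLH w1) w2 w3]
      have : ((L ∩ G) \ insert p G₀).ncard ≤ 1 := by
        rw [Set.ncard_le_one (toFinite _)]
        rintro s ⟨⟨s1, s2⟩, s3⟩ t ⟨⟨t1, t2⟩, t3⟩
        by_contra hst
        have tG : t ∉ G₀ := fun h => t3 (mem_insert_of_mem _ h)
        have sG : s ∉ insert t G₀ := by
          rintro (h | h)
          · exact hst h
          · exact s3 (mem_insert_of_mem _ h)
        have := sub t s G L tG ((lin t G tG).2
          ⟨g1, insert_subset t2 ((subset_insert _ _).trans g2), g3⟩) s2 sG hL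
          (insert_subset t1 hGL) s1
        exact hp (this (g2 (mem_insert _ _)))
      exact mul_le_of_le_one_right (Nat.zero_le _) this
  have h6 := Finset.card_mul_eq_card_mul (fun (G : Set (Fin n)) (w : Fin n) => w ∈ G)
    (s := Finset.univ.filter (fun G : Set (Fin n) =>
      M.IsFlat G ∧ insert x G₀ ⊆ G ∧ M.eRk G = g + 1 + 1 + 1))
    (t := Finset.univ.filter (fun w => w ∉ insert x G₀)) (m := k - (g + 1))
    (n := (cov M L).card) (by
      intro G hG
      simp only [Finset.mem_filter, Finset.mem_univ, true_and] at hG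
      rw [← hk G hG.1 hG.2.2, ← cP x hxG, ← Set.ncard_sdiff hG.2.1, ← Set.ncard_coe_finset]
      congr 1; ext t
      simp only [Finset.bipartiteAbove, Finset.coe_filter, Finset.mem_filter, Finset.mem_univ,
        true_and, mem_ofPred_eq, mem_sdiff]
      exact and_comm) (by
      intro w hw
      have hwx : w ∉ insert x G₀ := (Finset.mem_filter.1 hw).2
      have hc := mk _ w hwx
      obtain ⟨g1, g2, g3⟩ := (lin x _ hxG).1 hc
      rw [← hm _ g1 g3]
      congr 1; ext G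
      rw [pla _ G g1 g3]
      simp only [Finset.bipartiteBelow, Finset.mem_filter, Finset.mem_univ, true_and]
      constructor
      · rintro ⟨⟨q1, q2, q3⟩, q4⟩
        exact ⟨q1, sub x w _ G hxG hc (memcl _ _) hwx q1 q2 q4, q3⟩
      · rintro ⟨q1, q2, q3⟩
        exact ⟨⟨q1, g2.trans q2, q3⟩, q2 (memcl _ _)⟩)
  have e7 : (Finset.univ.filter (fun w => w ∉ insert x G₀)).card = n - (g + 1) := by
    have := Set.ncard_sdiff (subset_univ (insert x G₀))
    rw [Set.ncard_univ, cP x hxG, Nat.card_eq_fintype_card, Fintype.card_fin] at this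
    rw [← this, ← Set.ncard_coe_finset]
    congr 1; ext t
    simp only [Finset.coe_filter, Finset.mem_univ, true_and, mem_ofPred_eq, mem_sdiff, mem_univ]
  rw [e7] at h6
  exact arith2 g a k n _ _ _ hl2 hla hak hkn (A1 L hL hL2) h2 h3 h4 h5 h6

end Pool.Agent.H34.Pmd
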