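import Pool.Agent.H34.WeakPDefs

namespace Pool.Agent.H34.WeakP
open Filter Topology

/-- Rudin-Frolik preorder. -/
def RF (u v : Ultrafilter ℕ) : Prop :=
  ∃ f : ℕ → Ultrafilter ℕ, f.Injective ∧ IsDiscrete (Set.range f) ∧ v = u.bind f

/-- Its strict part. -/
def RFlt (u v : Ultrafilter ℕ) : Prop := RF u v ∧ ¬ RF v u

/-- Level `α` of the well-founded part. -/
def wf (α : Ordinal) : Set (Ultrafilter ℕ) := {u | ∃ h : Acc RFlt u, h.rank = α}

/-- Discretely weak p-point. -/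
def DWeakP (u : Ultrafilter ℕ) : Prop :=
  Free u ∧ ∀ D : Set (Ultrafilter ℕ), D.Countable → IsDiscrete D → (∀ v ∈ D, Free v ∧ v ≠ u) →
    u ∉ closure D

/-- `u`-compactness. -/
def UCompact (u : Ultrafilter ℕ) (X : Type) [TopologicalSpace X] : Prop :=
  ∀ x : ℕ → X, ∃ p, Tendsto x u (𝓝 p)

/-- Comfort preorder. -/
def Comfort (u v : Ultrafilter ℕ) : Prop :=
  ∀ (X : Type) [TopologicalSpace X] [T35Space X], UCompact v X → UCompact u X

end Pool.Agent.H34.WeakP
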