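import Pool.Agent.H34.WeakPEx
import Pool.Agent.H34.RFDefs

namespace Pool.Agent.H34.WeakP
open Set Filter Topology

/-- The point of a principal ultrafilter. -/
noncomputable def val (t : Ultrafilter ℕ) : ℕ := Classical.epsilon fun n => t = pure n

theorem val_spec {t : Ultrafilter ℕ} (h : ¬ Free t) : t = pure (val t) :=
  Classical.epsilon_spec (p := fun n => t = pure n) ((not_forall.1 h).imp fun _ => not_not.1)

theorem val_pure (n : ℕ) : val (pure n) = n :=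
  (Ultrafilter.pure_injective (val_spec fun h => h n rfl)).symm

theorem bind_pure' {u : Ultrafilter ℕ} {t : ℕ → Ultrafilter ℕ} {σ : ℕ → ℕ}
    (h : ∀ᶠ i in u, t i = pure (σ i)) : u.bind t = u.map σ :=
  Ultrafilter.ext fun Z => eventually_congr (p := fun i => Z ∈ t i) (q := fun i => σ i ∈ Z)
    (h.mono fun i r => by rw [r]; rfl)

theorem map_id' {u : Ultrafilter ℕ} {f : ℕ → ℕ} (h : ∀ᶠ n in u, f n = n) : u.map f = u :=
  Ultrafilter.coe_injective ((Filter.map_congr (m₂ := id) h).trans Filter.map_id)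

theorem tri {u a : Ultrafilter ℕ} (ha : WeakP a) {t : ℕ → Ultrafilter ℕ} (e : u.bind t = a) :
    (∀ᶠ i in u, t i = a) ∨ ∀ᶠ i in u, t i = pure (val (t i)) := by
  by_contra! c
  exact ha.2 _ ((to_countable _).image t) (by
    rintro _ ⟨i, r, rfl⟩; exact ⟨by_contra fun q => r.2 (val_spec q), r.1⟩) (e ▸ bind_cl t (c.1.and c.2))

theorem no_lub {u v s : Ultrafilter ℕ} (hu : WeakP u) (hv : WeakP v) (h : ¬ RK u v) (h' : ¬ RK v u)
    (a : RK u s) (b : RK v s) (c : RK s (tens u v)) : RK (tens u v) s := by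
  obtain ⟨k, rfl⟩ := c
  obtain ⟨f, a⟩ := a
  obtain ⟨g, b⟩ := b
  have p : ∀ᶠ i in u, ∀ᶠ j in v, f (k (Nat.pair i j)) = i := by
    rcases tri hu (u := u) (t := fun i => v.map fun j => f (k (Nat.pair i j))) a.symm with q | q
    · exact absurd (q.exists.elim fun i r => ⟨_, r.symm⟩) h
    · exact (q.and (katetov ((bind_pure' q).symm.trans a.symm))).mono fun i r =>
        le_pure_iff.1 (Ultrafilter.coe_le_coe.2 (r.1.trans (congrArg pure r.2)))
  have q : ∀ᶠ i in u, ∀ᶠ j in v, g (k (Nat.pair i j)) = j := by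
    rcases tri hv (u := u) (t := fun i => v.map fun j => g (k (Nat.pair i j))) b.symm with q | q
    · exact q.mono fun i r => katetov r
    · exact absurd ⟨_, b.trans (bind_pure' q)⟩ h'
  exact ⟨fun n => Nat.pair (f n) (g n), (map_id' (u := tens u v) (f := fun n => Nat.pair (f (k n)) (g (k n)))
    ((p.and q).mono fun i r => (r.1.and r.2).mono fun j s => congrArg₂ Nat.pair s.1 s.2)).symm⟩

theorem RK.comfort {u v : Ultrafilter ℕ} (h : RK u v) : Comfort u v := by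
  obtain ⟨f, rfl⟩ := h
  exact fun X _ _ q x => q (x ∘ f)

theorem comfort_tens {u v w : Ultrafilter ℕ} (a : Comfort u w) (b : Comfort v w) :
    Comfort (tens u v) w := fun X _ _ q x => by
  choose y hy using fun i => b X q fun j => x (Nat.pair i j)
  obtain ⟨p, hp⟩ := a X q y
  exact ⟨p, tendsto_nhds.2 fun O o m => Eventually.mono (f := (u : Filter ℕ))
    (p := fun i => y i ∈ O) (hp (o.mem_nhds m)) fun i r =>
    hy i (o.mem_nhds r)⟩

theorem fst_tens (u v : Ultrafilter ℕ) : (tens u v).map (fun n => n.unpair.1) = u :=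
  map_bind (Eventually.of_forall fun i => Ultrafilter.coe_le_coe.1 (le_pure_iff.2
    (show ∀ᶠ n in v, (Nat.pair i n).unpair.1 = i by simp)))

theorem not_iso : ¬ ∃ φ : Ultrafilter ℕ → Ultrafilter ℕ, (∀ u v, RK u v ↔ Comfort (φ u) (φ v)) ∧
    ∀ w, ∃ u, Comfort w (φ u) ∧ Comfort (φ u) w := by
  rintro ⟨φ, h1, h2⟩
  obtain ⟨u, v, hu, hv, a, b⟩ := exists_weakP
  obtain ⟨s, s1, s2⟩ := h2 (tens (φ u) (φ v))
  have p : RK u s := (h1 _ _).2 fun X _ _ q => RK.comfort ⟨_, (fst_tens _ _).symm⟩ X (s1 X q)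
  have q : RK v s := (h1 _ _).2 fun X _ _ q => RK.comfort ⟨_, (snd_tens _ _).symm⟩ X (s1 X q)
  have r : ∀ w, RK u w → RK v w → RK s w := fun w c d => (h1 _ _).2 fun X _ _ q =>
    s2 X (comfort_tens ((h1 _ _).1 c) ((h1 _ _).1 d) X q)
  have c := r _ ⟨_, (fst_tens u v).symm⟩ ⟨_, (snd_tens u v).symm⟩
  have d := r _ ⟨_, (snd_tens v u).symm⟩ ⟨_, (fst_tens v u).symm⟩
  exact (cancel hu hv ⟨(no_lub hu hv a b p q c).trans d, (no_lub hv hu b a q p d).trans c⟩).1.elim a b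

theorem disc_iff {f : ℕ → Ultrafilter ℕ} : f.Injective ∧ IsDiscrete (range f) ↔
    ∃ π : ℕ → ℕ, ∀ i, (f i).map π = pure i := by
  classical
  refine ⟨fun ⟨p, q⟩ => ?_, fun ⟨π, h⟩ => ⟨fun i j e => Ultrafilter.pure_injective
    (by rw [← h, e, h]), isDiscrete_iff_forall_exists_isOpen.2 ?_⟩⟩
  · have : ∀ i, ∃ A ∈ f i, ∀ j, A ∈ f j → j = i := fun i => by
      obtain ⟨O, o1, o2⟩ := isDiscrete_iff_forall_exists_isOpen.1 q _ ⟨i, rfl⟩
      obtain ⟨_, ⟨A, rfl⟩, a1, a2⟩ := ultrafilterBasis_is_basis.exists_subset_of_mem_open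
        (o2.ge rfl).1 o1
      exact ⟨A, a1, fun j r => p (o2.le ⟨a2 r, j, rfl⟩)⟩
    choose A A1 A2 using this
    refine ⟨fun n => sInf {i | n ∈ A i}, fun i => Ultrafilter.coe_le_coe.1 (le_pure_iff.2
      (mem_of_superset (f := (f i : Filter ℕ)) (inter_mem (A1 i) ((biInter_mem (finite_lt_nat i)).2
        fun j (r : j < i) => Ultrafilter.compl_mem_iff_notMem.2 fun s => r.ne' (A2 j i s)))
        fun n r => le_antisymm (Nat.sInf_le r.1) (not_lt.1 fun c =>
          mem_iInter₂.1 r.2 _ c (Nat.sInf_mem (s := {i | n ∈ A i}) ⟨i, r.1⟩))))⟩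
  · rintro _ ⟨i, rfl⟩
    refine ⟨_, ultrafilter_isOpen_basic (π ⁻¹' {i}), Subset.antisymm ?_
      (singleton_subset_iff.2 ⟨(h i ▸ rfl : {i} ∈ (f i).map π), i, rfl⟩)⟩
    rintro _ ⟨r, j, rfl⟩
    exact congrArg f (h j ▸ r : {i} ∈ (pure j : Ultrafilter ℕ))

theorem rf_iff {u v : Ultrafilter ℕ} : RF u v ↔ ∃ (f : ℕ → Ultrafilter ℕ) (π : ℕ → ℕ),
    (∀ i, (f i).map π = pure i) ∧ v = u.bind f :=
  ⟨fun ⟨f, a, b, c⟩ => (disc_iff.1 ⟨a, b⟩).elim fun π q => ⟨f, π, q, c⟩,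
    fun ⟨f, π, q, c⟩ => ⟨f, (disc_iff.2 ⟨π, q⟩).1, (disc_iff.2 ⟨π, q⟩).2, c⟩⟩

theorem rf_lt {u : Ultrafilter ℕ} {f : ℕ → Ultrafilter ℕ} {π : ℕ → ℕ}
    (h : ∀ i, (f i).map π = pure i) (fr : ∀ i, Free (f i)) : RFlt u (u.bind f) := by
  refine ⟨rf_iff.2 ⟨f, π, h, rfl⟩, fun c => ?_⟩
  obtain ⟨g, π', q, e⟩ := rf_iff.1 c
  have k : ∀ i, ((f i).bind g).map π' = f i := fun i => map_bind (Eventually.of_forall q)
  have : ∀ᶠ n in u, π (π' n) = n := katetov (f := π ∘ π') (by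
    conv_lhs => rw [e]
    exact (congrArg (Ultrafilter.map π) (map_bind (Eventually.of_forall q))).trans
      (map_bind (Eventually.of_forall h)))
  rw [e] at this
  obtain ⟨i, r⟩ := Eventually.exists (f := u) (p := fun i => ∀ᶠ n in (f i).bind g, π (π' n) = n) this
  refine fr i (π' i) ?_
  rw [← k i, ← map_id' r]
  change ((((f i).bind g).map π').map π).map π' = _
  rw [k, h]; rfl

/-- Not a limit of a strongly discrete sequence of free ultrafilters. -/
def Min (a : Ultrafilter ℕ) : Prop := Free a ∧ ∀ (v : Ultrafilter ℕ) (s : ℕ → Ultrafilter ℕ) (π : ℕ → ℕ),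
  (∀ᶠ j in v, (s j).map π = pure j ∧ Free (s j)) → a = v.bind s → ¬ Free v

theorem DWeakP.min {a : Ultrafilter ℕ} (h : DWeakP a) : Min a := by
  refine ⟨h.1, fun v s π q e fv => h.2 _ ((to_countable _).image s) ?_ ?_ (e ▸ bind_cl s q)⟩
  · refine isDiscrete_iff_forall_exists_isOpen.2 ?_
    rintro _ ⟨i, r, rfl⟩
    refine ⟨_, ultrafilter_isOpen_basic (π ⁻¹' {i}), Subset.antisymm ?_
      (singleton_subset_iff.2 ⟨(r.1 ▸ rfl : {i} ∈ (s i).map π), i, r, rfl⟩)⟩
    rintro _ ⟨t, j, w, rfl⟩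
    exact congrArg s (w.1 ▸ t : {i} ∈ (pure j : Ultrafilter ℕ))
  · rintro _ ⟨j, r, rfl⟩
    exact ⟨r.2, fun c => fv j (by rw [← map_bind (q.mono fun _ r => r.1), ← e, ← c, r.1])⟩

theorem Min.iso {a b : Ultrafilter ℕ} (h : Min a) (e : Iso b a) : Min b := by
  obtain ⟨⟨f, rfl⟩, g, e⟩ := e
  refine ⟨RK.free ⟨g, e⟩ h.1, fun v s π q c => h.2 v (fun j => (s j).map g) (π ∘ f) ?_
    (e.trans (congrArg (Ultrafilter.map g) c))⟩
  have : ∀ᶠ n in a.map f, f (g n) = n := katetov (f := f ∘ g) (congrArg (Ultrafilter.map f) e.symm)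
  rw [c] at this
  exact (q.and this).mono fun j r => ⟨(congrArg (Ultrafilter.map π) (map_id' r.2)).trans r.1.1,
    RK.free ⟨f, (map_id' r.2).symm⟩ r.1.2⟩

theorem rf_of_pure {v : Ultrafilter ℕ} {E : ℕ → Ultrafilter ℕ} {π : ℕ → ℕ}
    (h : ∀ j, (E j).map π = pure j) (c : ∀ᶠ j in v, ¬ Free (E j)) : RF (v.bind E) v := by
  classical
  by_cases fv : Free v
  swap
  · rw [val_spec fv] at c ⊢
    refine rf_iff.2 ⟨fun i => pure (Equiv.swap (val v) (val (E (val v))) i),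
      Equiv.swap (val v) (val (E (val v))), fun i => congrArg pure (Equiv.swap_apply_self _ _ _), ?_⟩
    change _ = Ultrafilter.bind (E (val v)) _
    rw [val_spec c, val_pure]
    exact congrArg pure (Equiv.swap_apply_right _ _).symm
  have k : ∀ j, ¬ Free (E j) → π (val (E j)) = j := fun j q =>
    Ultrafilter.pure_injective ((congrArg (Ultrafilter.map π) (val_spec q)).symm.trans (h j))
  obtain ⟨G, g1, g2, g3⟩ : ∃ G ∈ v, (∀ j ∈ G, ¬ Free (E j)) ∧ Gᶜ.Infinite := by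
    have inf : {j | ¬ Free (E j)}.Infinite := fun q =>
      (Ultrafilter.eq_pure_of_finite_mem q c).elim fun n a => fv n a.2
    obtain ⟨A, a1, a2⟩ : ∃ A : Set ℕ, A.Infinite ∧ Aᶜ.Infinite := ⟨{n | Even n}, infinite_of_injective_forall_mem
      (f := (2 * ·)) (fun _ _ q => by simpa using q) (by simp), infinite_of_injective_forall_mem
      (f := (2 * · + 1)) (fun _ _ q => by simpa using q) (by simp)⟩
    rcases v.mem_or_compl_mem A with q | q
    · exact ⟨_, inter_mem c q, fun _ r => r.1, a2.mono (compl_subset_compl.2 inter_subset_right)⟩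
    · exact ⟨_, inter_mem c q, fun _ r => r.1, a1.mono (subset_compl_comm.1 inter_subset_right)⟩
  let τ : ℕ → ℕ := fun n => if ∃ j ∈ G, val (E j) = n then π n else g3.natEmbedding _ n
  have inj : τ.Injective := fun m n q => by
    simp only [τ] at q
    split_ifs at q with a b b
    · obtain ⟨i, i1, rfl⟩ := a
      obtain ⟨j, j1, rfl⟩ := b
      rw [k i (g2 i i1), k j (g2 j j1)] at q
      rw [q]
    · obtain ⟨i, i1, rfl⟩ := a
      exact absurd (q ▸ (k i (g2 i i1)).symm ▸ i1) (g3.natEmbedding _ n).2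
    · obtain ⟨i, i1, rfl⟩ := b
      exact absurd (q.symm ▸ (k i (g2 i i1)).symm ▸ i1) (g3.natEmbedding _ m).2
    · exact (g3.natEmbedding _).injective (Subtype.ext q)
  refine rf_iff.2 ⟨fun n => pure (τ n), Function.invFun τ, fun n =>
    congrArg pure (Function.leftInverse_invFun inj n), ?_⟩
  rw [bind_pure' (Eventually.of_forall fun _ => rfl), bind_pure' (c.mono fun j => val_spec)]
  exact (map_id' (f := fun j => τ (val (E j))) (mem_of_superset g1 fun j q =>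
    (if_pos ⟨j, q, rfl⟩).trans (k j (g2 j q)))).symm

theorem lt_dec {v p : Ultrafilter ℕ} (h : RFlt v p) : ∃ (E : ℕ → Ultrafilter ℕ) (π : ℕ → ℕ),
    (∀ j, (E j).map π = pure j) ∧ p = v.bind E ∧ ∀ᶠ j in v, Free (E j) := by
  obtain ⟨E, π, q, rfl⟩ := rf_iff.1 h.1
  exact ⟨E, π, q, rfl, by_contra fun c => h.2 (rf_of_pure q (Ultrafilter.eventually_not.2 c))⟩

theorem lt_pure {v p : Ultrafilter ℕ} (h : RFlt v p) : Free p := fun n e => by
  obtain ⟨E, π, q, r, s⟩ := lt_dec h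
  have := map_bind (u := v) (Eventually.of_forall q)
  rw [← r, e] at this
  rw [← this] at r s
  exact s n (r.symm.trans e)

theorem lt_min {v p : Ultrafilter ℕ} (h : RFlt v p) (m : Min p) : ¬ Free v := by
  obtain ⟨E, π, q, r, s⟩ := lt_dec h
  exact m.2 v E π (s.mono fun j t => ⟨q j, t⟩) r

theorem cl_bind {E : ℕ → Ultrafilter ℕ} {G : Set ℕ} {π : ℕ → ℕ} (h : ∀ j ∈ G, (E j).map π = pure j)
    {v : Ultrafilter ℕ} (q : v ∈ closure (E '' G)) : G ∈ v.map π ∧ (v.map π).bind E = v := by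
  refine ⟨by_contra fun r => ?_, Ultrafilter.coe_le_coe.1 fun Z hZ => by_contra fun r => ?_⟩
  · obtain ⟨_, ⟨j, s, rfl⟩, t⟩ := cl_iff.1 q _ (Ultrafilter.compl_mem_iff_notMem.2 r)
    exact (h j s ▸ t : Gᶜ ∈ (pure j : Ultrafilter ℕ)) s
  · obtain ⟨_, ⟨j, s, rfl⟩, t⟩ := cl_iff.1 q _ (inter_mem hZ
      (Ultrafilter.compl_mem_iff_notMem.2 (r : π ⁻¹' {j | Z ∈ E j} ∉ v)))
    have t' : {j | Z ∈ E j}ᶜ ∈ (E j).map π :=
      mem_of_superset (f := (E j : Filter ℕ)) t inter_subset_right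
    rw [h j s] at t'
    exact t' (mem_of_superset t inter_subset_left)

theorem iso_of {u u' : Ultrafilter ℕ} {D E : ℕ → Ultrafilter ℕ} (e : u.bind D = u'.bind E)
    {π π' : ℕ → ℕ} (h : ∀ i, (D i).map π = pure i) (h' : ∀ j, (E j).map π' = pure j)
    (c : ∀ᶠ i in u, ¬ Free ((D i).map π') ∧ ((D i).map π').bind E = D i) : Iso u' u := by
  have a : u' = u.map fun i => val ((D i).map π') := by
    rw [← bind_pure' (c.mono fun i r => val_spec r.1), ← map_bind (u := u') (Eventually.of_forall h'),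
      ← e]; rfl
  refine ⟨⟨_, a⟩, fun j => val ((E j).map π), ?_⟩
  rw [a]
  refine (map_id' (f := fun i => val ((E (val ((D i).map π'))).map π)) (c.mono fun i r => ?_)).symm
  rw [show E _ = D i from (congrArg (Ultrafilter.bind · E) (val_spec r.1)).symm.trans r.2, h, val_pure]

theorem lt_two {u v : Ultrafilter ℕ} {D : ℕ → Ultrafilter ℕ} {π : ℕ → ℕ}
    (h : ∀ i, (D i).map π = pure i) (hu : Min u) (hD : ∀ i, Min (D i)) (l : RFlt v (u.bind D))
    (fv : Free v) : Min v := by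
  obtain ⟨E, π', q, e, s⟩ := lt_dec l
  rcases frolik e univ_mem s with c | c
  · exact hu.iso (iso_of e h q (c.mono fun i r => have := cl_bind (fun j _ => q j) r
      ⟨(hD i).2 _ E π' (mem_of_superset this.1 fun j t => ⟨q j, t⟩) this.2.symm, this.2⟩))
  have c' := c.mono fun j r => (cl_bind (fun i _ => h i) r).2
  have b : u = v.bind fun j => (E j).map π :=
    (map_bind (Eventually.of_forall h)).symm.trans (congrArg (Ultrafilter.map π) e)
  by_cases d : ∀ᶠ j in v, Free ((E j).map π)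
  swap
  · have := iso_of e.symm q h ((Ultrafilter.eventually_not.2 d).and c')
    exact hu.iso ⟨this.2, this.1⟩
  refine absurd fv (hu.2 v _ (fun i => val ((D i).map π')) ((c'.and d).mono fun j r => ⟨?_, r.2⟩) b)
  have : ∀ᶠ i in (E j).map π, {j} ∈ (D i).map π' :=
    (((congrArg (Ultrafilter.map π') r.1).trans (q j)).symm ▸ rfl :
      {j} ∈ (((E j).map π).bind D).map π')
  exact Ultrafilter.coe_le_coe.1 (le_pure_iff.2 (this.mono fun i t =>
    (congrArg val (Ultrafilter.coe_le_coe.1 (le_pure_iff.2 t))).trans (val_pure j)))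

theorem rank_le {p : Ultrafilter ℕ} {α : Ordinal} (h : ∀ v, RFlt v p → ∃ a : Acc RFlt v, a.rank < α) :
    ∃ a : Acc RFlt p, a.rank ≤ α :=
  ⟨⟨_, fun v q => (h v q).1⟩, by
    rw [Acc.rank_eq]
    exact Ordinal.iSup_le fun v => Order.succ_le_of_lt (h v.1 v.2).2⟩

theorem rk0 {p : Ultrafilter ℕ} (h : ¬ Free p) : ∃ a : Acc RFlt p, a.rank ≤ 0 :=
  rank_le fun _ q => absurd (lt_pure q) h

theorem rk1 {p : Ultrafilter ℕ} (h : Min p) : ∃ a : Acc RFlt p, a.rank ≤ 1 :=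
  rank_le fun _ q => (rk0 (lt_min q h)).imp fun _ r => r.trans_lt one_pos

theorem rk2 {u : Ultrafilter ℕ} {D : ℕ → Ultrafilter ℕ} {π : ℕ → ℕ} (h : ∀ i, (D i).map π = pure i)
    (hu : Min u) (hD : ∀ i, Min (D i)) : ∃ a : Acc RFlt (u.bind D), a.rank ≤ 2 :=
  rank_le fun v q => (em (Free v)).elim (fun c => (rk1 (lt_two h hu hD q c)).imp
    fun _ r => r.trans_lt one_lt_two) fun c => (rk0 c).imp fun _ r => r.trans_lt two_pos

theorem rk_ge {v p : Ultrafilter ℕ} {α : Ordinal} (h : ∀ a : Acc RFlt v, α ≤ a.rank) (l : RFlt v p)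
    (a : Acc RFlt p) : α + 1 ≤ a.rank :=
  Order.succ_le_of_lt ((h _).trans_lt (a.rank_lt_of_rel l))

theorem map_pure {w : Ultrafilter ℕ} {g π : ℕ → ℕ} {i : ℕ} (h : ∀ n, π (g n) = i) :
    (w.map g).map π = pure i :=
  Ultrafilter.coe_le_coe.1 (le_pure_iff.2 (Eventually.of_forall (f := (w : Filter ℕ)) h))

theorem iso_map {w : Ultrafilter ℕ} {g π : ℕ → ℕ} (h : ∀ n, π (g n) = n) : Iso (w.map g) w :=
  ⟨⟨g, rfl⟩, π, (map_id' (f := π ∘ g) (Eventually.of_forall h)).symm⟩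

theorem counter : ¬ ∀ n : ℕ, 0 < n → wf (n + 1) = {p | ∃ (f : ℕ → Ultrafilter ℕ) (u : Ultrafilter ℕ),
    f.Injective ∧ IsDiscrete (range f) ∧ u ∈ wf n ∧ (∀ i, f i ∈ wf n) ∧ p = u.bind f} := by
  intro h
  obtain ⟨w, -, hw, -⟩ := exists_weakP
  have mw : Min w := DWeakP.min ⟨hw.1, fun D a _ => hw.2 D a⟩
  have pr : ∀ (w : Ultrafilter ℕ) i, Iso (w.map (Nat.pair i)) w := fun w i =>
    iso_map (π := fun n => n.unpair.2) (by simp)
  have lt : ∀ u v, Free v → RFlt u (tens u v) := fun u v q => rf_lt (π := fun n => n.unpair.1)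
    (fun i => map_pure (by simp)) fun i => (pr v i).2.free q
  obtain ⟨a, ma, la⟩ : ∃ a, Min a ∧ RFlt (pure 0) a := ⟨_, mw.iso (pr w 0), lt _ w hw.1⟩
  have two : ∀ (g : ℕ → ℕ → ℕ) (π π' : ℕ → ℕ), (∀ j n, π (g j n) = j) → (∀ j n, π' (g j n) = n) →
      (a.bind fun j => a.map (g j)) ∈ wf (2 : ℕ) := fun g π π' p q => by
    obtain ⟨c, r⟩ := rk2 (fun j => map_pure (p j)) ma fun j => ma.iso (iso_map (q j))
    refine ⟨c, r.antisymm ?_⟩
    simpa [one_add_one_eq_two] using rk_ge (rk_ge (fun _ => zero_le) la)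
      (rf_lt (fun j => map_pure (p j)) fun j => (iso_map (q j)).2.free ma.1) c
  have d := disc_iff.2 ⟨_, fun i => map_pure (w := tens a a) (g := Nat.pair i)
    (π := fun n => n.unpair.1) (by simp)⟩
  obtain ⟨c, r⟩ := (h 2 two_pos).ge ⟨_, tens a a, d.1, d.2,
    two Nat.pair (·.unpair.1) (·.unpair.2) (by simp) (by simp), fun i => two
      (fun j n => Nat.pair i (Nat.pair j n)) (·.unpair.2.unpair.1) (·.unpair.2.unpair.2) (by simp)
      (by simp), rfl⟩
  have l := rf_lt (u := tens (tens a a) a)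
    (f := fun n => a.map fun k => Nat.pair n.unpair.1 (Nat.pair n.unpair.2 k))
    (π := fun n => Nat.pair n.unpair.1 n.unpair.2.unpair.1) (fun n => map_pure (by simp))
    fun n => (iso_map (π := (·.unpair.2.unpair.2)) (by simp)).2.free ma.1
  rw [show (tens (tens a a) a).bind _ = (tens a a).bind fun i => (tens a a).map (Nat.pair i) from
    Ultrafilter.ext fun Z => by
      change (∀ᶠ i in tens a a, ∀ᶠ j in a, ∀ᶠ k in a, Nat.pair (Nat.pair i j).unpair.1
        (Nat.pair (Nat.pair i j).unpair.2 k) ∈ Z) ↔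
          ∀ᶠ i in tens a a, ∀ᶠ j in a, ∀ᶠ k in a, Nat.pair i (Nat.pair j k) ∈ Z
      simp only [Nat.unpair_pair]] at l
  have := rk_ge (rk_ge (rk_ge (rk_ge (fun _ => zero_le) la) (lt a a ma.1)) (lt _ a ma.1)) l c
  rw [r] at this
  norm_cast at this

end Pool.Agent.H34.WeakP
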