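import Mathlib

namespace Pool.Agent.H34.RbwDefs

/-- A trigraph: a finite vertex set with disjoint graphs of black and of red edges. -/
structure Tri where
  V : Type
  fin : Finite V
  black : SimpleGraph V
  red : SimpleGraph V
  disj : Disjoint black red

/-- `T'` arises from `T` by contracting two distinct vertices `u, v`; `π` merges them. A pair of
`T'` is black if all pairs above it are black, a non-edge if all are non-edges, and else red. -/
def Step (T T' : Tri) : Prop :=
  ∃ (u v : T.V) (π : T.V → T'.V), u ≠ v ∧ Function.Surjective π ∧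
    (∀ x y, π x = π y ↔ x = y ∨ (x ∈ ({u, v} : Set T.V) ∧ y ∈ ({u, v} : Set T.V))) ∧
    ∀ a b, a ≠ b →
      (T'.black.Adj a b ↔ ∀ x y, π x = a → π y = b → T.black.Adj x y) ∧
      (¬ T'.black.Adj a b ∧ ¬ T'.red.Adj a b ↔
        ∀ x y, π x = a → π y = b → ¬ T.black.Adj x y ∧ ¬ T.red.Adj x y)

/-- The graph `H` has bandwidth at most `c`. -/
def BwLE {V : Type} (H : SimpleGraph V) (c : ℕ) : Prop :=
  ∃ σ : V ≃ Fin (Nat.card V), ∀ u v, H.Adj u v → |((σ u).val : ℤ) - (σ v).val| ≤ c

/-- `T` has a contraction sequence down to one vertex in which every red graph has bandwidth at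
most `c`. -/
inductive Good (c : ℕ) : Tri → Prop
  | last (T : Tri) : Nat.card T.V = 1 → BwLE T.red c → Good c T
  | step (T T' : Tri) : BwLE T.red c → Step T T' → Good c T' → Good c T

/-- The finite graph `G` has reduced bandwidth at most `c`. -/
def RbwLE {V : Type} [Finite V] (G : SimpleGraph V) (c : ℕ) : Prop :=
  Good c ⟨V, inferInstance, G, ⊥, disjoint_bot_right⟩

/-- The `p`-subdivision of `K_n`: the edge `a < b` becomes the path
`a, (ab, 0), …, (ab, p - 1), b`. -/
def subK (n p : ℕ) : SimpleGraph (Fin n ⊕ {e : Fin n × Fin n // e.1 < e.2} × Fin p) :=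
  SimpleGraph.fromRel fun x y => match x, y with
    | .inl a, .inr (e, i) => (a = e.1.1 ∧ i.val = 0) ∨ (a = e.1.2 ∧ i.val + 1 = p)
    | .inr (e, i), .inr (f, j) => e = f ∧ i.val + 1 = j.val
    | _, _ => False

end Pool.Agent.H34.RbwDefs
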