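import Mathlib
import Pool.Agent.H34.RbwDefs

namespace Pool.Agent.H34.Rbw
open Pool.Agent.H34.RbwDefs

abbrev SV (n p : ℕ) := Fin n ⊕ {e : Fin n × Fin n // e.1 < e.2} × Fin p

variable {n p : ℕ}

theorem adj_ll (a b : Fin n) : ¬ (subK n p).Adj (.inl a) (.inl b) := by simp [subK]

theorem adj_lr (a : Fin n) (e) (i : Fin p) : (subK n p).Adj (.inl a) (.inr (e, i)) ↔
    (a = e.1.1 ∧ i.val = 0) ∨ (a = e.1.2 ∧ i.val + 1 = p) := by simp [subK]

theorem adj_rr (e f) (i j : Fin p) : (subK n p).Adj (.inr (e, i)) (.inr (f, j)) ↔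
    e = f ∧ (i.val + 1 = j.val ∨ j.val + 1 = i.val) := by
  simp only [subK, SimpleGraph.fromRel_adj, ne_eq, Sum.inr.injEq, Prod.mk.injEq, Fin.ext_iff]
  constructor
  · rintro ⟨-, h | h⟩
    · exact ⟨h.1, Or.inl h.2⟩
    · exact ⟨h.1.symm, Or.inr h.2⟩
  · rintro ⟨rfl, h⟩
    exact ⟨by omega, by simpa using h⟩

theorem no_c4 {x x' y y' : SV n p} (hx : x ≠ x') (h1 : (subK n p).Adj x y) (h2 : (subK n p).Adj x' y)
    (h3 : (subK n p).Adj x y') (h4 : (subK n p).Adj x' y') : y = y' := by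
  rcases x with a | ⟨⟨⟨e1, e2⟩, he⟩, i⟩ <;> rcases x' with a' | ⟨⟨⟨e1', e2'⟩, he'⟩, i'⟩ <;>
  rcases y with b | ⟨⟨⟨f1, f2⟩, hf⟩, j⟩ <;> rcases y' with b' | ⟨⟨⟨f1', f2'⟩, hf'⟩, j'⟩ <;>
  simp only [adj_ll, adj_lr, adj_rr, (subK n p).adj_comm (.inr _) (.inl _), ne_eq, Sum.inl.injEq,
    Sum.inr.injEq, Prod.mk.injEq, Subtype.mk.injEq, Fin.ext_iff, Fin.lt_def, reduceCtorEq] at * <;>
  (try dsimp only at *) <;> omega

def tgt (v : Fin n) : SV n p → Fin n
  | .inl a => a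
  | .inr (e, _) => if e.1.1 = v then e.1.2 else e.1.1

theorem path (hp : 1 ≤ p) (v w : Fin n) (h : v ≠ w) : ∃ x : ℕ → SV n p, x 0 = .inl v ∧
    x (p + 1) = .inl w ∧ (∀ i ≤ p, (subK n p).Adj (x i) (x (i + 1))) ∧
    ∀ i, 1 ≤ i → tgt v (x i) = w := by
  rcases lt_or_gt_of_ne h with h' | h'
  · refine ⟨fun i => if i = 0 then .inl v else if hi : i - 1 < p then .inr (⟨(v, w), h'⟩, ⟨i - 1, hi⟩)
      else .inl w, rfl, by simp, fun i hi => ?_, fun i hi => ?_⟩
    · simp only [Nat.add_sub_cancel, Nat.succ_ne_zero, if_false]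
      split_ifs <;> first | omega | (simp only [adj_lr, adj_rr, (subK n p).adj_comm (.inr _) (.inl _),
        true_and] <;> omega)
    · simp only; split_ifs <;> first | omega | simp [tgt]
  · refine ⟨fun i => if i = 0 then .inl v else if hi : i - 1 < p then
      .inr (⟨(w, v), h'⟩, ⟨p - 1 - (i - 1), by omega⟩) else .inl w, rfl, by simp, fun i hi => ?_, fun i hi => ?_⟩
    · simp only [Nat.add_sub_cancel, Nat.succ_ne_zero, if_false]
      split_ifs <;> first | omega | (simp only [adj_lr, adj_rr, (subK n p).adj_comm (.inr _) (.inl _),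
        true_and] <;> omega)
    · simp only; split_ifs <;> first | omega | simp [tgt, h.symm]

def Inv {V : Type} (G : SimpleGraph V) (T : Tri) (ρ : V → T.V) : Prop :=
  Function.Surjective ρ ∧ ∀ a b, a ≠ b →
    (T.black.Adj a b ↔ ∀ x y, ρ x = a → ρ y = b → G.Adj x y) ∧
    (¬ T.black.Adj a b ∧ ¬ T.red.Adj a b ↔ ∀ x y, ρ x = a → ρ y = b → ¬ G.Adj x y)

theorem Inv.step {V : Type} {G : SimpleGraph V} {T T' : Tri} {ρ : V → T.V} (h : Inv G T ρ)
    {π : T.V → T'.V} (hs : Function.Surjective π) (hπ : ∀ a b, a ≠ b →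
      (T'.black.Adj a b ↔ ∀ x y, π x = a → π y = b → T.black.Adj x y) ∧
      (¬ T'.black.Adj a b ∧ ¬ T'.red.Adj a b ↔
        ∀ x y, π x = a → π y = b → ¬ T.black.Adj x y ∧ ¬ T.red.Adj x y)) : Inv G T' (π ∘ ρ) := by
  refine ⟨hs.comp h.1, fun a b hab => ?_⟩
  have ne : ∀ x y, π x = a → π y = b → x ≠ y := fun x y h1 h2 e => hab (h1 ▸ h2 ▸ e ▸ rfl)
  rw [(hπ a b hab).2, (hπ a b hab).1]
  refine ⟨⟨fun k x y h1 h2 => ?_, fun k x y h1 h2 => ?_⟩, fun k x y h1 h2 => ?_, fun k x y h1 h2 => ?_⟩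
  · exact (h.2 _ _ (ne _ _ h1 h2)).1.1 (k _ _ h1 h2) x y rfl rfl
  · exact (h.2 _ _ (ne _ _ h1 h2)).1.2 fun s t a1 a2 => k s t ((congrArg π a1).trans h1) ((congrArg π a2).trans h2)
  · exact (h.2 _ _ (ne _ _ h1 h2)).2.1 (k _ _ h1 h2) x y rfl rfl
  · exact (h.2 _ _ (ne _ _ h1 h2)).2.2 fun s t a1 a2 => k s t ((congrArg π a1).trans h1) ((congrArg π a2).trans h2)

theorem count (hp : 1 ≤ p) {T : Tri} {ρ : SV n p → T.V} (h : Inv (subK n p) T ρ) {c : ℕ}
    (hb : BwLE T.red c) (v : Fin n) (hv : ∃ y, ρ y = ρ (.inl v) ∧ y ≠ .inl v) (W : Finset (Fin n))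
    (hW : ∀ w ∈ W, ∀ y, ρ y = ρ (.inl w) → y = .inl w) : W.card ≤ 2 * (c * (p + 1)) + 1 := by
  obtain ⟨σ, hσ⟩ := hb
  have charge : ∀ w ∈ W, ∃ (A : T.V) (y : SV n p),
      |((σ A).val : ℤ) - (σ (ρ (.inl v))).val| ≤ c * (p + 1) ∧ tgt v y = w ∧
      ((∀ x, ρ x = A ↔ x = y) ∨ ((∃ x x', x ≠ x' ∧ ρ x = A ∧ ρ x' = A) ∧
        ∀ x, ρ x = A → (subK n p).Adj x y)) := by
    intro w hw
    have hvw : v ≠ w := by
      rintro rfl
      obtain ⟨y, h1, h2⟩ := hv
      exact h2 (hW v hw y h1)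
    obtain ⟨x, x0, x1, x2, x3⟩ := path hp v w hvw
    by_contra hc
    have key : ∀ i ≤ p + 1, |((σ (ρ (x i))).val : ℤ) - (σ (ρ (.inl v))).val| ≤ c * i := by
      intro i
      induction i with
      | zero => intro _; simp [x0]
      | succ i ih =>
        intro hi
        have h1 := ih (by omega)
        have h0 : (0 : ℤ) ≤ c := Int.natCast_nonneg c
        by_cases e : ρ (x i) = ρ (x (i + 1))
        · rw [← e]; push_cast; linarith
        by_cases r : T.red.Adj (ρ (x i)) (ρ (x (i + 1)))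
        · have := hσ _ _ r
          rw [abs_le] at *
          push_cast
          constructor <;> linarith [this.1, this.2, h1.1, h1.2]
        have b : T.black.Adj (ρ (x i)) (ρ (x (i + 1))) := by
          by_contra b
          exact (h.2 _ _ e).2.1 ⟨b, r⟩ _ _ rfl rfl (x2 i (by omega))
        have h2 : |((σ (ρ (x i))).val : ℤ) - (σ (ρ (.inl v))).val| ≤ c * (p + 1) := by
          refine h1.trans (mul_le_mul_of_nonneg_left ?_ h0)
          exact_mod_cast (by omega : i ≤ p + 1)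
        exfalso
        by_cases s : ∀ y, ρ y = ρ (x i) → y = x i
        · refine hc ⟨_, x i, h2, x3 i (Nat.pos_of_ne_zero ?_), Or.inl fun y => ⟨s y, fun e => e ▸ rfl⟩⟩
          rintro rfl
          obtain ⟨y, h1, h2⟩ := hv
          exact h2 (x0 ▸ s y (x0 ▸ h1))
        · push Not at s
          obtain ⟨y, s1, s2⟩ := s
          exact hc ⟨_, x (i + 1), h2, x3 _ (by omega), Or.inr ⟨⟨y, x i, s2, s1, rfl⟩,
            fun z hz => (h.2 _ _ e).1.1 b z _ hz rfl⟩⟩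
    have := key (p + 1) le_rfl
    rw [x1] at this
    exact hc ⟨_, .inl w, by exact_mod_cast this, rfl, Or.inl fun y => ⟨hW w hw y, fun e => e ▸ rfl⟩⟩
  have : Nonempty T.V := ⟨ρ (.inl v)⟩
  have : Nonempty (SV n p) := ⟨.inl v⟩
  choose! A y c1 c2 c3 using charge
  have := Finset.card_le_card_of_injOn (s := W) (t := Finset.Icc
    (((σ (ρ (.inl v))).val : ℤ) - c * (p + 1)) ((σ (ρ (.inl v))).val + c * (p + 1)))
    (fun w => ((σ (A w)).val : ℤ)) (fun w hw => by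
      have := abs_le.1 (c1 w hw)
      simp only [Finset.coe_Icc, Set.mem_Icc]
      constructor <;> linarith [this.1, this.2]) (fun w hw w' hw' e => by
      have e' : A w = A w' := σ.injective (Fin.ext (Int.natCast_inj.1 e))
      rw [← c2 w hw, ← c2 w' hw']
      congr 1
      rcases c3 w hw with k | ⟨⟨s, t, k1, k2, k3⟩, k⟩ <;>
        rcases c3 w' hw' with k' | ⟨⟨s', t', k1', k2', k3'⟩, k'⟩
      · exact (k' _).1 (e' ▸ (k _).2 rfl)
      · exact absurd (((k _).1 (e' ▸ k2')).trans ((k _).1 (e' ▸ k3')).symm) k1'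
      · exact absurd (((k' _).1 (e' ▸ k2)).trans ((k' _).1 (e' ▸ k3)).symm) k1
      · exact no_c4 k1 (k _ k2) (k _ k3) (k' _ (e' ▸ k2)) (k' _ (e' ▸ k3)))
  rw [Int.card_Icc] at this
  have e : ((σ (ρ (.inl v))).val + c * (p + 1) + 1 - ((σ (ρ (.inl v))).val - c * (p + 1)) : ℤ) =
      (2 * (c * (p + 1)) + 1 : ℕ) := by push_cast; ring
  rwa [e, Int.toNat_natCast] at this

theorem Good.bw {c : ℕ} {T : Tri} (h : Good c T) : BwLE T.red c := by
  cases h <;> assumption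

theorem bound (hn : 2 ≤ n) (hp : 1 ≤ p) {c : ℕ} {T : Tri} (hT : Good c T) :
    ∀ ρ : SV n p → T.V, Inv (subK n p) T ρ → (∀ w y, ρ y = ρ (.inl w) → y = .inl w) →
      n ≤ 2 * (c * (p + 1)) + 3 := by
  classical
  induction hT with
  | last T h _ =>
    intro ρ _ hs
    have := (Nat.card_eq_one_iff_unique.1 h).1
    exact absurd (hs ⟨0, by omega⟩ (.inl ⟨1, by omega⟩) (Subsingleton.elim _ _)) (by simp)
  | step T T' _ hs hT' ih =>
    intro ρ hρ h1
    obtain ⟨u, v, π, -, h2, h3, h4⟩ := hs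
    have h5 := hρ.step h2 h4
    by_cases h6 : ∀ w y, (π ∘ ρ) y = (π ∘ ρ) (.inl w) → y = .inl w
    · exact ih _ h5 h6
    push Not at h6
    obtain ⟨w, h6⟩ := h6
    have h7 := count hp h5 (Good.bw hT') w h6
      (Finset.univ.filter fun a => ρ (.inl a) ∉ ({u, v} : Finset T.V)) fun a ha y hy => by
        rcases (h3 _ _).1 hy with e | e
        · exact h1 a y e
        · exact absurd (by simpa using e.2) (Finset.mem_filter.1 ha).2
    have h8 : (Finset.univ.filter fun a => ρ (.inl a) ∈ ({u, v} : Finset T.V)).card ≤ 2 :=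
      (Finset.card_le_card_of_injOn (fun a => ρ (.inl a)) (fun a ha => (Finset.mem_filter.1 ha).2)
        fun a _ b _ e => Sum.inl.inj (h1 b _ e)).trans Finset.card_le_two
    have h9 := Finset.card_filter_add_card_filter_not (s := Finset.univ)
      fun a => ρ (.inl a) ∈ ({u, v} : Finset T.V)
    simp only [Finset.card_univ, Fintype.card_fin] at h9
    omega

theorem main (c n p : ℕ) (hn : 2 ≤ n) (hp : 1 ≤ p) (h : RbwLE (subK n p) c) :
    n ≤ (4 * c + 3) * p := by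
  have := bound hn hp h id ⟨Function.surjective_id, fun a b _ => by simp⟩ fun _ _ h => h
  nlinarith

end Pool.Agent.H34.Rbw
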