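import Pool.Agent.H34.ReapDefs

namespace Pool.Agent.H34.Reap
open Set Filter Topology Cardinal

/-- Counting function. -/
noncomputable def c (A : Set ℕ) (n : ℕ) : ℝ := ∑ m ∈ Finset.range n, A.indicator 1 m

theorem c_eq (A : Set ℕ) (n : ℕ) : ((A ∩ Iio n).ncard : ℝ) = c A n := by
  classical
  rw [c, show A ∩ Iio n = ↑((Finset.range n).filter (· ∈ A)) by ext; simp [and_comm],
    ncard_coe_finset, Finset.card_filter]
  simp [indicator]

theorem rd_eq (B A : Set ℕ) (n : ℕ) : rd B A n = c (A ∩ B) n / c B n := by rw [rd, c_eq, c_eq]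

theorem c_nonneg (A : Set ℕ) (n : ℕ) : 0 ≤ c A n := c_eq A n ▸ Nat.cast_nonneg _

theorem c_mono {A B : Set ℕ} (h : A ⊆ B) (n : ℕ) : c A n ≤ c B n :=
  Finset.sum_le_sum fun m _ => indicator_le_indicator_of_subset h (fun _ => zero_le_one) m

theorem c_union {A B : Set ℕ} (h : Disjoint A B) (n : ℕ) : c (A ∪ B) n = c A n + c B n := by
  simp only [c, indicator_union_of_disjoint h, Finset.sum_add_distrib]

theorem c_top {A : Set ℕ} (h : A.Infinite) : Tendsto (c A) atTop atTop := by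
  refine tendsto_atTop.2 fun b => ?_
  obtain ⟨s, s1, s2⟩ := h.exists_subset_card_eq ⌈b⌉₊
  obtain ⟨M, hM⟩ := s.bddAbove
  filter_upwards [eventually_gt_atTop M] with n hn
  rw [← c_eq]
  refine (Nat.le_ceil b).trans (Nat.cast_le.2 ?_)
  rw [← s2, ← ncard_coe_finset]
  exact ncard_le_ncard (fun m q => ⟨s1 q, (hM q).trans_lt hn⟩) ((finite_Iio n).inter_of_right _)

theorem c_le {A : Set ℕ} (h : A.Finite) (n : ℕ) : c A n ≤ A.ncard :=
  c_eq A n ▸ Nat.cast_le.2 (ncard_le_ncard inter_subset_left h)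

theorem c_close {P Q : Set ℕ} {a n : ℕ} (h : ∀ m, a ≤ m → m < n → m ∈ P → m ∈ Q) :
    c P n ≤ c Q n + a := by
  rw [← c_eq, ← c_eq]
  norm_cast
  refine (ncard_le_ncard (t := Q ∩ Iio n ∪ Iio a) (fun m q => (lt_or_ge m a).elim Or.inr
    fun e => Or.inl ⟨h m e q.2 q.1, q.2⟩) (((finite_Iio n).inter_of_right _).union
    (finite_Iio a))).trans ((ncard_union_le _ _).trans ?_)
  rw [← Finset.coe_Iio a, ncard_coe_finset, Nat.card_Iio]

theorem HasD.comp {R D S : Set ℕ} {γ ρ : ℝ} (h : HasD R D γ) (h' : HasD (R ∩ D) S ρ) :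
    HasD R (D ∩ S) (γ * ρ) := by
  refine (Tendsto.mul h h').congr fun n => ?_
  rw [rd_eq, rd_eq, rd_eq, inter_comm D R, show D ∩ S ∩ R = S ∩ (R ∩ D) by ext; simp; tauto]
  by_cases e : c (R ∩ D) n = 0
  · rw [le_antisymm ((c_mono inter_subset_right n).trans e.le) (c_nonneg (S ∩ (R ∩ D)) n)]
    simp
  · field_simp

theorem HasD.union {R A B : Set ℕ} {α β : ℝ} (h : HasD R A α) (h' : HasD R B β)
    (e : Disjoint A B) : HasD R (A ∪ B) (α + β) :=
  (Tendsto.add h h').congr fun n => by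
    rw [rd_eq, rd_eq, rd_eq, union_inter_distrib_right,
      c_union (e.mono inter_subset_left inter_subset_left), add_div]

theorem HasD.diff {R A S : Set ℕ} {α β : ℝ} (h : HasD R A α) (h' : HasD R (A ∩ S) β) :
    HasD R (A \ S) (α - β) :=
  (Tendsto.sub h h').congr fun n => by
    have := c_union (A := A ∩ S ∩ R) (B := A \ S ∩ R)
      (disjoint_inf_sdiff.mono inter_subset_left inter_subset_left) n
    rw [← union_inter_distrib_right, inter_union_diff] at this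
    rw [rd_eq, rd_eq, rd_eq, ← sub_div, this, add_sub_cancel_left]

theorem hasD_one {R A : Set ℕ} (h : R.Infinite) (e : R ⊆ A) : HasD R A 1 :=
  tendsto_const_nhds.congr' (((c_top h).eventually_gt_atTop 0).mono fun n q => by
    rw [rd_eq, inter_eq_right.2 e, div_self q.ne'])

theorem HasD.infinite {R D : Set ℕ} {γ : ℝ} (h : HasD R D γ) (hR : R.Infinite) (e : 0 < γ) :
    (R ∩ D).Infinite := fun f =>
  e.not_ge (le_of_tendsto_of_tendsto' h (tendsto_const_nhds.div_atTop (c_top hR)) fun n => by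
    rw [rd_eq, inter_comm]
    exact div_le_div_of_nonneg_right (c_le f n) (c_nonneg _ _))

theorem rd_mono {R A B : Set ℕ} (h : A ⊆ B) (n : ℕ) : rd R A n ≤ rd R B n := by
  rw [rd_eq, rd_eq]
  exact div_le_div_of_nonneg_right (c_mono (inter_subset_inter_left _ h) n) (c_nonneg _ _)

theorem iter {ι : Type} {F : ι → Set ℕ} (hF : ∀ i, (F i).Infinite) {ε τ : ℝ} (e0 : 0 < ε)
    (e1 : ε ≤ 1) (t0 : 0 ≤ τ) (t1 : τ ≤ 1) (step : ∀ D, (∀ i, (F i ∩ D).Infinite) →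
      ∃ S ρ, ε ≤ ρ ∧ ρ ≤ 1 - ε ∧ ∀ i, HasD (F i ∩ D) S ρ) : ∃ B, ∀ i, HasD (F i) B τ := by
  let P : (Set ℕ × Set ℕ) × ℝ × ℝ → Prop := fun s => Disjoint s.1.1 s.1.2 ∧ 0 < s.2.2 ∧
    s.2.1 ≤ τ ∧ τ ≤ s.2.1 + s.2.2 ∧ ∀ i, HasD (F i) s.1.1 s.2.1 ∧ HasD (F i) s.1.2 s.2.2
  have : ∀ s : {s // P s}, ∃ s' : {s // P s}, s.1.1.1 ⊆ s'.1.1.1 ∧
      s'.1.1.1 ∪ s'.1.1.2 ⊆ s.1.1.1 ∪ s.1.1.2 ∧ s'.1.2.2 ≤ (1 - ε) * s.1.2.2 := by
    rintro ⟨⟨⟨B, D⟩, β, γ⟩, h1, h2, h3, h4, h5⟩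
    obtain ⟨S, ρ, r1, r2, r3⟩ := step D fun i => (h5 i).2.infinite (hF i) h2
    dsimp only at *
    rcases le_total τ (β + γ * ρ) with q | q
    · exact ⟨⟨((B, D ∩ S), β, γ * ρ), h1.mono_right inter_subset_left, mul_pos h2 (e0.trans_le r1),
        h3, q, fun i => ⟨(h5 i).1, (h5 i).2.comp (r3 i)⟩⟩, subset_rfl,
        union_subset_union_right _ inter_subset_left, by dsimp only; nlinarith⟩
    · exact ⟨⟨((B ∪ D ∩ S, D \ S), β + γ * ρ, γ - γ * ρ),
        (h1.mono_right diff_subset).union_left disjoint_inf_sdiff, by dsimp only; nlinarith,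
        q, by dsimp only; linarith, fun i => ⟨(h5 i).1.union ((h5 i).2.comp (r3 i))
          (h1.mono_right inter_subset_left), (h5 i).2.diff ((h5 i).2.comp (r3 i))⟩⟩,
        subset_union_left, by dsimp only; rw [union_assoc, inter_union_diff],
        by dsimp only; nlinarith⟩
  choose f f1 f2 f3 using this
  let s : ℕ → {s // P s} := fun n => f^[n] ⟨((∅, univ), 0, 1), empty_disjoint _, one_pos, t0,
    by simpa using t1, fun i => ⟨tendsto_const_nhds.congr fun n => by simp [rd], hasD_one (hF i) (subset_univ _)⟩⟩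
  have hs : ∀ n, s (n + 1) = f (s n) := fun n => Function.iterate_succ_apply' _ _ _
  have m1 : Monotone fun n => (s n).1.1.1 := monotone_nat_of_le_succ fun n => hs n ▸ f1 _
  have m2 : Antitone fun n => (s n).1.1.1 ∪ (s n).1.1.2 :=
    antitone_nat_of_succ_le fun n => hs n ▸ f2 _
  have m3 : ∀ n, (s n).1.2.2 ≤ (1 - ε) ^ n := fun n => by
    induction n with
    | zero => exact le_of_eq (pow_zero _).symm
    | succ n ih =>
      rw [hs, pow_succ']
      exact (f3 _).trans (mul_le_mul_of_nonneg_left ih (sub_nonneg.2 e1))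
  refine ⟨⋃ n, (s n).1.1.1, fun i => tendsto_order.2 ⟨fun a ha => ?_, fun a ha => ?_⟩⟩
  · obtain ⟨n, hn⟩ := exists_pow_lt_of_lt_one (sub_pos.2 ha) (sub_lt_self 1 e0)
    obtain ⟨-, -, -, h4, h5⟩ := (s n).2
    exact ((tendsto_order.1 (h5 i).1).1 a (by linarith [m3 n])).mono fun k q =>
      q.trans_le (rd_mono (subset_iUnion (fun n => (s n).1.1.1) n) k)
  · obtain ⟨n, hn⟩ := exists_pow_lt_of_lt_one (sub_pos.2 ha) (sub_lt_self 1 e0)
    obtain ⟨h1, -, h3, -, h5⟩ := (s n).2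
    exact ((tendsto_order.1 ((h5 i).1.union (h5 i).2 h1)).2 a (by linarith [m3 n])).mono fun k q =>
      (rd_mono (iUnion_subset fun m => (m1 (le_max_left m n)).trans
        (subset_union_left.trans (m2 (le_max_right m n)))) k).trans_lt q

theorem half {ι : Type} [Finite ι] {F : ι → Set ℕ} (hF : ∀ i, (F i).Infinite) :
    ∃ S, ∀ i, HasD (F i) S (1 / 2) := by
  classical
  haveI := Fintype.ofFinite ι
  let t : ℕ → ι → Prop := fun m i => m ∈ F i
  let S : Set ℕ := {n | ∃ k : ℕ, c {m | t m = t n} n = 2 * k}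
  have h1 : ∀ v n, ∃ k : ℕ, (c {m | t m = v} n = 2 * k ∧ c (S ∩ {m | t m = v}) n = k) ∨
      (c {m | t m = v} n = 2 * k + 1 ∧ c (S ∩ {m | t m = v}) n = k + 1) := fun v n => by
    induction n with
    | zero => exact ⟨0, by simp [c]⟩
    | succ n ih =>
      obtain ⟨k, hk⟩ := ih
      have e : ∀ A, c A (n + 1) = c A n + A.indicator 1 n := fun A => Finset.sum_range_succ _ _
      rw [e, e]
      by_cases q : t n = v
      · subst q
        rcases hk with ⟨a, b⟩ | ⟨a, b⟩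
        · exact ⟨k, Or.inr ⟨by simp [a], by
            rw [b, indicator_of_mem (show n ∈ S ∩ {m | t m = t n} from ⟨⟨k, a⟩, rfl⟩)]; rfl⟩⟩
        · refine ⟨k + 1, Or.inl ⟨by simp [a]; ring, ?_⟩⟩
          rw [b, indicator_of_notMem]
          · simp
          · rintro ⟨⟨j, hj⟩, -⟩
            rw [a] at hj
            norm_cast at hj
            omega
      · exact ⟨k, by simpa [q] using hk⟩
  have h2 : ∀ A n, c A n = ∑ v, c (A ∩ {m | t m = v}) n := fun A n => by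
    simp only [c]
    rw [Finset.sum_comm]
    exact Finset.sum_congr rfl fun m _ => by simp [indicator, ite_and]
  refine ⟨S, fun i => ?_⟩
  have h3 : ∀ n, |c (S ∩ F i) n - c (F i) n / 2| ≤ Fintype.card (ι → Prop) := fun n => by
    rw [h2, h2 (F i), Finset.sum_div, ← Finset.sum_sub_distrib]
    refine (Finset.abs_sum_le_sum_abs _ _).trans ((Finset.sum_le_card_nsmul _ _ 1 fun v _ => ?_).trans
      (by simp))
    by_cases q : v i
    · rw [inter_assoc, show F i ∩ {m | t m = v} = {m | t m = v} from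
        inter_eq_right.2 fun m (r : t m = v) => (r ▸ q : t m i)]
      obtain ⟨k, ⟨a, b⟩ | ⟨a, b⟩⟩ := h1 v n <;> rw [a, b, abs_le] <;> constructor <;> linarith
    · rw [inter_assoc, show F i ∩ {m | t m = v} = ∅ from
        eq_empty_of_forall_notMem fun m r => q (r.2 ▸ r.1 : v i)]
      simp [c]
  refine tendsto_sub_nhds_zero_iff.1 (squeeze_zero_norm' (((c_top (hF i)).eventually_gt_atTop 0).mono
    fun n q => ?_) ((tendsto_const_nhds (x := (Fintype.card (ι → Prop) : ℝ))).div_atTop (c_top (hF i))))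
  rw [rd_eq, Real.norm_eq_abs, show c (S ∩ F i) n / c (F i) n - 1 / 2 =
    (c (S ∩ F i) n - c (F i) n / 2) / c (F i) n by field_simp, abs_div, abs_of_pos q]
  exact div_le_div_of_nonneg_right (h3 n) q.le

theorem same {P Q S : Set ℕ} {ρ σ : ℝ} (hP : HasD P S ρ) (hQ : HasD Q S σ) {a n : ℕ → ℕ}
    (hn : ∀ k, k ≤ n k) (h : ∀ k m, a k ≤ m → m < n k → (m ∈ P ↔ m ∈ Q))
    (h' : ∀ k : ℕ, (k + 1) * (a k + 1 : ℝ) ≤ c Q (n k)) : ρ = σ := by
  have tn : Tendsto n atTop atTop := tendsto_atTop_mono hn tendsto_id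
  refine sub_eq_zero.1 (tendsto_nhds_unique ((Tendsto.comp hP tn).sub (Tendsto.comp hQ tn))
    (squeeze_zero_norm (fun k => ?_) (tendsto_const_nhds (x := (2 : ℝ)).div_atTop
      (tendsto_atTop_add_const_right _ 1 tendsto_natCast_atTop_atTop))))
  have x1 := c_close (P := S ∩ P) (Q := S ∩ Q) fun m p q r => ⟨r.1, (h k m p q).1 r.2⟩
  have x2 := c_close (P := S ∩ Q) (Q := S ∩ P) fun m p q r => ⟨r.1, (h k m p q).2 r.2⟩
  have y1 := c_close fun m p q => (h k m p q).1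
  have y2 := c_close fun m p q => (h k m p q).2
  have y0 : 0 < c Q (n k) := lt_of_lt_of_le (by positivity) (h' k)
  have r0 : 0 ≤ c (S ∩ P) (n k) / c P (n k) := div_nonneg (c_nonneg _ _) (c_nonneg _ _)
  have r1 : c (S ∩ P) (n k) / c P (n k) ≤ 1 :=
    div_le_one_of_le₀ (c_mono inter_subset_right _) (c_nonneg _ _)
  have r2 : c (S ∩ P) (n k) / c P (n k) * c P (n k) = c (S ∩ P) (n k) :=
    div_mul_cancel_of_imp fun e => le_antisymm (e ▸ c_mono inter_subset_right _) (c_nonneg _ _)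
  simp only [Function.comp, rd_eq]
  generalize c (S ∩ P) (n k) / c P (n k) = r at *
  rw [Real.norm_eq_abs, sub_div' y0.ne', abs_div, abs_of_pos y0, div_le_div_iff₀ y0 (by positivity)]
  have : |r * c Q (n k) - c (S ∩ Q) (n k)| ≤ 2 * a k := by
    have a0 : (0 : ℝ) ≤ a k := Nat.cast_nonneg _
    rw [abs_le]; constructor <;> nlinarith
  nlinarith [h' k, (Nat.cast_nonneg k : (0 : ℝ) ≤ k)]

theorem mix {P Q : Set ℕ} (hP : P.Infinite) (hQ : Q.Infinite) : ∃ R : Set ℕ, R.Infinite ∧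
    ∀ S ρ σ τ, HasD R S τ → HasD P S ρ → HasD Q S σ → ρ = σ := by
  have : ∀ k a : ℕ, ∃ n, a < n ∧ (k + 1) * (a + 1 : ℝ) ≤ c P n ∧ (k + 1) * (a + 1 : ℝ) ≤ c Q n :=
    fun k a => ((eventually_gt_atTop a).and (((c_top hP).eventually_ge_atTop _).and
      ((c_top hQ).eventually_ge_atTop _))).exists
  choose f f1 f2 f3 using this
  obtain ⟨a, a0⟩ : ∃ a : ℕ → ℕ, ∀ k, a (k + 1) = f k (a k) := ⟨fun k => k.rec 0 f, fun _ => rfl⟩
  have ha : StrictMono a := strictMono_nat_of_lt_succ fun k => a0 k ▸ f1 _ _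
  replace f2 := fun k => a0 k ▸ f2 k (a k)
  replace f3 := fun k => a0 k ▸ f3 k (a k)
  let R : Set ℕ := {m | ∃ k, a k ≤ m ∧ m < a (k + 1) ∧ (Even k → m ∈ P) ∧ (Odd k → m ∈ Q)}
  have hR : ∀ k m, a k ≤ m → m < a (k + 1) → (m ∈ R ↔ (Even k → m ∈ P) ∧ (Odd k → m ∈ Q)) := by
    refine fun k m p q => ⟨fun ⟨j, j1, j2, j3⟩ => ?_, fun r => ⟨k, p, q, r⟩⟩
    have := ha.lt_iff_lt.1 (p.trans_lt j2)
    have := ha.lt_iff_lt.1 (j1.trans_lt q)
    rwa [show k = j by omega]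
  have h1 : ∀ k m, a (2 * k) ≤ m → m < a (2 * k + 1) → (m ∈ R ↔ m ∈ P) := fun k m p q => by
    simp [hR _ m p q, ← Nat.not_even_iff_odd]
  have h2 : ∀ k m, a (2 * k + 1) ≤ m → m < a (2 * k + 1 + 1) → (m ∈ R ↔ m ∈ Q) := fun k m p q => by
    simp [hR _ m p q, ← Nat.not_even_iff_odd, Nat.even_add_one]
  have g : ∀ k j : ℕ, k ≤ j → (k + 1) * (a j + 1 : ℝ) ≤ (j + 1) * (a j + 1 : ℝ) := fun k j e => by
    gcongr
  refine ⟨R, fun fin => ?_, fun S ρ σ τ p q r => (same p q (fun k => by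
    have := ha.id_le (2 * k + 1); simp at this; omega) h1 fun k => (g k _ (by omega)).trans
    (f2 _)).symm.trans (same p r (fun k => by
      have := ha.id_le (2 * k + 1 + 1); simp at this; omega) h2
      fun k => (g k _ (by omega)).trans (f3 _))⟩
  have x1 := c_close fun m p q => (h1 R.ncard m p q).2
  have x2 := c_le fin (a (2 * R.ncard + 1))
  have x3 := (g R.ncard (2 * R.ncard) (by omega)).trans (f2 _)
  nlinarith [(Nat.cast_nonneg _ : (0 : ℝ) ≤ R.ncard), (Nat.cast_nonneg _ : (0 : ℝ) ≤ a (2 * R.ncard))]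

theorem uniform {κ : Cardinal} (hκ : ℵ₀ ≤ κ) (H : ∀ (ι : Type) (F : ι → Set ℕ), #ι ≤ κ →
    (∀ i, (F i).Infinite) → ∃ S, ∀ i, ∃ ρ ∈ Ioo (0 : ℝ) 1, HasD (F i) S ρ) :
    ∃ ε : ℝ, 0 < ε ∧ ε ≤ 1 ∧ ∀ (ι : Type) (F : ι → Set ℕ), #ι ≤ κ → (∀ i, (F i).Infinite) →
      ∃ S ρ, ε ≤ ρ ∧ ρ ≤ 1 - ε ∧ ∀ i, HasD (F i) S ρ := by
  by_contra! q
  choose ι F h1 h2 h3 using fun j : ℕ => q (1 / (j + 1)) Nat.one_div_pos_of_nat
    (Nat.one_div_le_one_div (Nat.zero_le j) |>.trans (by simp))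
  choose M M1 M2 using fun p : (Σ j, ι j) × (Σ j, ι j) => mix (h2 p.1.1 p.1.2) (h2 p.2.1 p.2.2)
  have k : #(Σ j, ι j) ≤ κ := by
    rw [mk_sigma]
    refine (sum_le_sum _ (fun _ => κ) h1).trans ?_
    simp [mul_eq_right hκ hκ aleph0_ne_zero]
  obtain ⟨S, hS⟩ := H ((Σ j, ι j) ⊕ (Σ j, ι j) × (Σ j, ι j)) (Sum.elim (fun p => F p.1 p.2) M)
    (by
      simp only [mk_sum, mk_prod, lift_id]
      exact (add_le_add k (mul_le_mul' k k)).trans (by rw [mul_eq_self hκ, add_eq_self hκ]))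
    (Sum.forall.2 ⟨fun p => h2 _ _, M1⟩)
  obtain ⟨i, -⟩ := h3 1 ∅ (1 / 2) (by norm_num) (by norm_num)
  obtain ⟨ρ, r1, r2⟩ := hS (Sum.inl ⟨1, i⟩)
  obtain ⟨j, hj⟩ := exists_nat_one_div_lt (lt_min r1.1 (sub_pos.2 r1.2))
  obtain ⟨i', hi⟩ := h3 j S ρ (hj.le.trans (min_le_left _ _))
    (by linarith [hj.le.trans (min_le_right _ _)])
  obtain ⟨σ, -, s2⟩ := hS (Sum.inl ⟨j, i'⟩)
  obtain ⟨τ, -, t2⟩ := hS (Sum.inr (⟨1, i⟩, ⟨j, i'⟩))
  exact hi (M2 _ S ρ σ τ t2 r2 s2 ▸ s2)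

theorem reap_ne {X : Set ℝ} (hX : X ⊆ Ioo 0 1) : {κ | ∃ F : Set (Set ℕ), #F = κ ∧
    (∀ R ∈ F, R.Infinite) ∧ ∀ S : Set ℕ, S.Infinite → Sᶜ.Infinite →
      ∃ R ∈ F, ¬ ∃ ρ ∈ X, HasD R S ρ}.Nonempty :=
  ⟨_, {R | R.Infinite}, rfl, fun _ q => q, fun S p _ => ⟨S, p, fun ⟨_, r, q⟩ =>
    (hX r).2.ne (tendsto_nhds_unique q (hasD_one p subset_rfl))⟩⟩

theorem reap_eq {X : Set ℝ} (hX : X ⊆ Ioo 0 1) (ne : X.Nonempty) : reap X = reap (Ioo 0 1) := by
  refine le_antisymm (csInf_le_csInf' (reap_ne subset_rfl) fun κ ⟨F, h1, h2, h3⟩ =>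
    ⟨F, h1, h2, fun S p q => (h3 S p q).imp fun R r =>
      ⟨r.1, fun ⟨ρ, s, t⟩ => r.2 ⟨ρ, hX s, t⟩⟩⟩) (not_lt.1 fun lt => ?_)
  obtain ⟨τ, hτ⟩ := ne
  obtain ⟨F, h1, h2, h3⟩ := csInf_mem (reap_ne hX)
  let G : Option F → Set ℕ := fun o => o.elim univ (↑)
  have hG : ∀ o, (G o).Infinite := Option.forall.2 ⟨infinite_univ, fun R => h2 _ R.2⟩
  obtain ⟨B, hB⟩ : ∃ B, ∀ o, HasD (G o) B τ := by
    rcases finite_or_infinite F with f | f
    · exact iter hG (ε := 1 / 2) (by norm_num) (by norm_num) (hX hτ).1.le (hX hτ).2.le fun D q =>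
        (half q).imp fun S r => ⟨1 / 2, le_rfl, by norm_num, r⟩
    · obtain ⟨ε, e0, e1, e2⟩ := uniform (aleph0_le_mk F) fun ι K k1 k2 => by
        by_contra! q
        refine lt.not_ge ((csInf_le' ?_).trans ((mk_range_le (f := K)).trans (k1.trans h1.le)))
        refine ⟨range K, rfl, forall_mem_range.2 k2, fun S _ _ => ?_⟩
        exact (q S).elim fun i r => ⟨_, ⟨i, rfl⟩, fun ⟨ρ, s, t⟩ => r ρ s t⟩
      exact iter hG e0 e1 (hX hτ).1.le (hX hτ).2.le fun D q => e2 _ _ (by simp) q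
  obtain ⟨R, r1, r2⟩ := h3 B (by simpa [G] using (hB none).infinite infinite_univ (hX hτ).1)
    (by simpa [G, ← compl_eq_univ_diff] using ((hasD_one infinite_univ subset_rfl).diff (S := B)
      (by simpa [G] using hB none)).infinite infinite_univ (sub_pos.2 (hX hτ).2))
  exact r2 ⟨τ, hτ, hB (some ⟨R, r1⟩)⟩

end Pool.Agent.H34.Reap
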