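import Mathlib

namespace Pool.Agent.H34.Reap
open Set Filter Topology Cardinal

/-- The quotient `|A ∩ B ∩ n| / |B ∩ n|`. -/
noncomputable def rd (B A : Set ℕ) (n : ℕ) : ℝ :=
  ((A ∩ B ∩ Iio n).ncard : ℝ) / ((B ∩ Iio n).ncard : ℝ)

/-- The relative density of `A` in `B` exists and equals `ρ`. -/
def HasD (B A : Set ℕ) (ρ : ℝ) : Prop := Tendsto (rd B A) atTop (𝓝 ρ)

/-- The `X`-reaping number for a set `X` of reals. -/
noncomputable def reap (X : Set ℝ) : Cardinal :=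
  sInf {κ | ∃ F : Set (Set ℕ), #F = κ ∧ (∀ R ∈ F, R.Infinite) ∧
    ∀ S : Set ℕ, S.Infinite → Sᶜ.Infinite → ∃ R ∈ F, ¬ ∃ ρ ∈ X, HasD R S ρ}

end Pool.Agent.H34.Reap
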