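import Mathlib

namespace Pool.Agent.H34.RevDefs

/-- The identity `(1, 2, …, n)`. -/
def idp (n : ℕ) : List ℤ := (List.range n).map fun i => (i : ℤ) + 1

/-- `π = (π_1, …, π_n)` is a signed permutation of size `n`. -/
def IsSigned (n : ℕ) (π : List ℤ) : Prop := (π.map fun x => |x|).Perm (idp n)

/-- The reversal `ρ_{i,j}` (positions counted from `1`) applied to `π`. -/
def rev (π : List ℤ) (r : ℕ × ℕ) : List ℤ :=
  π.take (r.1 - 1) ++ (((π.take r.2).drop (r.1 - 1)).reverse.map fun x => -x) ++ π.drop r.2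

/-- The sequence `l` of reversals `ρ_{i,j}`, `1 ≤ i ≤ j ≤ n`, sorts `π`. -/
def Sorts (n : ℕ) (π : List ℤ) (l : List (ℕ × ℕ)) : Prop :=
  (∀ r ∈ l, 1 ≤ r.1 ∧ r.1 ≤ r.2 ∧ r.2 ≤ n) ∧ l.foldl rev π = idp n

/-- The optimal scenarios: sorting sequences of least length. -/
def Opt (n : ℕ) (π : List ℤ) : Set (List (ℕ × ℕ)) :=
  {l | Sorts n π l ∧ ∀ l', Sorts n π l' → l.length ≤ l'.length}

/-- The graph on optimal scenarios joining two scenarios that differ in at most `4` positions,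
and also two scenarios that use a common reversal `ρ_{i,j}` at any two times. -/
def scenGraph (n : ℕ) (π : List ℤ) : SimpleGraph (Opt n π) :=
  SimpleGraph.fromRel fun a b =>
    ((a.1.zip b.1).filter fun x => x.1 ≠ x.2).length ≤ 4 ∨ ∃ r, r ∈ a.1 ∧ r ∈ b.1

end Pool.Agent.H34.RevDefs
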