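import Mathlib
import Pool.Agent.H34.RevDefs

namespace Pool.Agent.H34.Rev
open Pool.Agent.H34.RevDefs

def R : List (ℕ × ℕ) := [(1, 1), (1, 2), (2, 2), (1, 3), (2, 3), (3, 3), (1, 4), (2, 4), (3, 4),
  (4, 4), (1, 5), (2, 5), (3, 5), (4, 5), (5, 5), (1, 6), (2, 6), (3, 6), (4, 6), (5, 6), (6, 6),
  (1, 7), (2, 7), (3, 7), (4, 7), (5, 7), (6, 7), (7, 7)]

theorem mem_R {r : ℕ × ℕ} (h : 1 ≤ r.1 ∧ r.1 ≤ r.2 ∧ r.2 ≤ 7) : r ∈ R := by
  obtain ⟨i, j⟩ := r
  obtain ⟨h1, h2, h3⟩ := h
  dsimp only at *
  have : i ≤ 7 := by omega
  interval_cases i <;> interval_cases j <;> decide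

def L (x : ℤ) : ℕ := if 0 < x then (x - 1).toNat else (-x).toNat

def ok (f : ℕ) : ℕ → List ℤ → Bool
  | a, [] => f.testBit a == false
  | a, x :: p => (f.testBit a == f.testBit (L x)) && ok f (L (-x)) p

theorem ok_xor {f g : ℕ} : ∀ (p : List ℤ) (a : ℕ), ok f a p → ok g a p → ok (f ^^^ g) a p := by
  intro p
  induction p with
  | nil => intro a; simp +contextual [ok]
  | cons x p ih =>
    intro a
    simp only [ok, Bool.and_eq_true, beq_iff_eq, Nat.testBit_xor]
    exact fun h k => ⟨by rw [h.1, k.1], ih _ h.2 k.2⟩

theorem step {p : List ℤ} (hp : p.length = 7) {r : ℕ × ℕ} (h : r ∈ R) :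
    (rev p r).length = 7 ∧ ∃ a b, ∀ f : ℕ, ok f 0 (rev p r) → f.testBit a = f.testBit b → ok f 0 p := by
  refine ⟨?_, L (-(0 :: p).getD (r.1 - 1) 0), L (p.getD (r.1 - 1) 0), ?_⟩
  · match p, hp with
    | [a, b, c, d, e, f, g], _ => fin_cases h <;> simp [rev]
  · have z : L 0 = 0 := rfl
    match p, hp with
    | [a, b, c, d, e, f, g], _ => fin_cases h <;> simp [rev, ok, z] <;> grind

def cnt (p : List ℤ) : ℕ := (List.range 128).countP fun f => ok f 0 p

theorem cnt_eq (p : List ℤ) : cnt p = ((Finset.range 128).filter fun f => ok f 0 p).card := by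
  rw [cnt, List.countP_eq_length_filter, ← List.toFinset_card_of_nodup (List.nodup_range.filter _)]
  congr 1
  ext f
  simp

theorem cnt_step {p : List ℤ} (hp : p.length = 7) {r : ℕ × ℕ} (h : r ∈ R) :
    cnt (rev p r) ≤ 2 * cnt p := by
  obtain ⟨a, b, hab⟩ := (step hp h).2
  rw [cnt_eq, cnt_eq, ← Finset.card_filter_add_card_filter_not (fun f : ℕ => f.testBit a = f.testBit b)]
  have h1 : (((Finset.range 128).filter fun f => ok f 0 (rev p r)).filter
      fun f : ℕ => f.testBit a = f.testBit b).card ≤
      ((Finset.range 128).filter fun f => ok f 0 p).card := Finset.card_le_card fun f => by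
    simp only [Finset.mem_filter]
    exact fun k => ⟨k.1.1, hab f k.1.2 k.2⟩
  have h2 : (((Finset.range 128).filter fun f => ok f 0 (rev p r)).filter
      fun f : ℕ => ¬ f.testBit a = f.testBit b).card ≤
      ((Finset.range 128).filter fun f => ok f 0 p).card := by
    rcases Finset.eq_empty_or_nonempty (((Finset.range 128).filter fun f => ok f 0 (rev p r)).filter
      fun f : ℕ => ¬ f.testBit a = f.testBit b) with e | ⟨g, hg⟩
    · simp [e]
    refine Finset.card_le_card_of_injOn (· ^^^ g) (fun f => ?_) fun f _ f' _ e =>
      Nat.xor_left_inj.1 e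
    simp only [Finset.coe_filter, Finset.mem_filter, Finset.mem_range, Set.mem_setOf_eq] at hg ⊢
    refine fun k => ⟨Nat.xor_lt_two_pow (n := 7) k.1.1 hg.1.1, hab _ (ok_xor _ _ k.1.2 hg.1.2) ?_⟩
    have := k.2
    have := hg.2
    simp only [Nat.testBit_xor]
    grind
  omega

theorem cnt_bound (m : List (ℕ × ℕ)) (hm : ∀ r ∈ m, r ∈ R) :
    ∀ p : List ℤ, p.length = 7 → cnt (m.foldl rev p) ≤ 2 ^ m.length * cnt p := by
  induction m with
  | nil => simp
  | cons a m ih =>
    intro p hp
    have h1 := ih (fun r hr => hm r (by simp [hr])) _ (step hp (hm a (by simp))).1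
    have h2 := cnt_step hp (hm a (by simp))
    rw [List.foldl_cons, List.length_cons, pow_succ, mul_assoc]
    exact h1.trans (Nat.mul_le_mul_left _ h2)

def S (P : ℕ → Bool) : ℕ → ℕ → ℕ
  | 0, _ => 0
  | n + 1, s => 2 ^ 8 * S P n (s + 1) + (P s).toNat

theorem toNat_lt8 (b : Bool) : b.toNat < 2 ^ 8 := by cases b <;> decide

theorem S_or (P Q : ℕ → Bool) (n : ℕ) : ∀ s, S P n s ||| S Q n s = S (fun f => P f || Q f) n s := by
  induction n with
  | zero => simp [S]
  | succ n ih =>
    intro s
    refine Nat.eq_of_testBit_eq fun j => ?_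
    simp only [S, Nat.testBit_or, Nat.testBit_two_pow_mul_add _ (toNat_lt8 _), ← ih]
    split_ifs
    · cases P s <;> cases Q s <;> simp
    · rfl

theorem S_xor (P Q : ℕ → Bool) (n : ℕ) : ∀ s, S P n s ^^^ S Q n s = S (fun f => P f ^^ Q f) n s := by
  induction n with
  | zero => simp [S]
  | succ n ih =>
    intro s
    refine Nat.eq_of_testBit_eq fun j => ?_
    simp only [S, Nat.testBit_xor, Nat.testBit_two_pow_mul_add _ (toNat_lt8 _), ← ih]
    split_ifs
    · cases P s <;> cases Q s <;> simp
    · rfl

theorem S_mod (P : ℕ → Bool) (n : ℕ) : ∀ s, S P n s % 255 = (List.range' s n).countP P % 255 := by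
  induction n with
  | zero => simp [S]
  | succ n ih =>
    intro s
    have := ih (s + 1)
    rw [S, List.range'_succ, List.countP_cons]
    cases P s <;> simp <;> omega

def M (a : ℕ) : ℕ := if a < 8 then [702234596055165747125508703504982576953081722147296074799696357311048523784363264850436716175117558883142582639003230328231482121255674912003798615147713066921623265686512004741487269671458000985427469836480681724613818183866185971729942111825006068723853372018831042182444418406207482628181143211776934144,
  704966943004126902892739500144953441611565263340020192459551440258304537540943709981230944818855523353826339273773601625875546206290391134939864786117740178813608158689701967071302171997872420172318600111108793689454694690829975547432081899098078936684312084042036283736933078654518862582560901081667272704,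
  704977699781865826723381434758767102862312620061868821758512278586577687134582570637271376590731877106822794978601359887845509642293854897933687713016444857379783176019683683488178539610373447457569194395076931087543581329776731547015074989694190498323314618778315952049353921729755349975461147448468045824,
  704977699946006238287000804186284212870480823676435820426970804631904744799800147983099121663582014532639371735669851375785095220443219131321970505331093259452230712660917857910191470818347876594318457739075851009950392679089866031560736156875965306762761362196054154020169523532878957643732102216431960064,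
  704977699946006238325217721878048915142232954365078400106187221069867290976406542450057476506724408986595695999489885575532829754285019001821934848265013697115753355517090065092193205035918448542463436593402731917425444828438903120532597115882679284727293199258709551268689430127718504587431932348589932544,
  704977699946006238325217721878048915144304697624433950091882671206794807080389845547514418092048576633849613244377005771143815969424617923352240704654069650585274293955427209303438157162333688335736203782095171286306471046397850093199581836085444544069242942831862660501579811872659795071360101601985429504,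
  704977699946006238325217721878048915144304697624433950091882671206794807080395933853758734597676611847529858352436836696701136348291829892128813453488133768509646915616738767459910672138823398588577499449771090373634144943444834540889946308496192432391854198638149457858417224253321193561825136846961639424,
  0].getD a 0 else S (fun f => f.testBit a) 128 0

theorem M_eq (a : ℕ) : M a = S (fun f => f.testBit a) 128 0 := by
  by_cases h : a < 8
  · revert a; decide +kernel
  · exact if_neg h

def bad : ℕ → List ℤ → ℕ
  | a, [] => M a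
  | a, x :: p => (M a ^^^ M (L x)) ||| bad (L (-x)) p

theorem bad_eq : ∀ (p : List ℤ) (a : ℕ), bad a p = S (fun f => !ok f a p) 128 0 := by
  intro p
  induction p with
  | nil => intro a; simp [bad, ok, M_eq]
  | cons x p ih =>
    intro a
    rw [bad, ih, M_eq, M_eq, S_xor, S_or]
    congr 1
    funext f
    rw [ok]
    cases f.testBit a <;> cases f.testBit (L x) <;> simp

theorem cnt_bad (p : List ℤ) : cnt p = 128 - bad 0 p % 255 := by
  have := List.length_eq_countP_add_countP (fun f => ok f 0 p) (l := List.range 128)
  rw [bad_eq, S_mod, ← List.range_eq_range', cnt]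
  simp only [List.length_range, Bool.not_eq_true, Bool.decide_eq_false] at this
  omega

def chk (P : List (ℕ × ℕ) → Bool) : ℕ → List ℤ → List (ℕ × ℕ) → Bool
  | 0, p, l => if p = idp 7 then P l.reverse else true
  | k + 1, p, l => if 2 ^ (k + 1) * (128 - bad 0 p % 255) < 128 then true else
      R.all fun r => chk P k (rev p r) (r :: l)

theorem cnt_id : cnt (idp 7) = 128 := by decide +kernel

theorem chk_sound (P : List (ℕ × ℕ) → Bool)
    (m : List (ℕ × ℕ)) (hm : ∀ r ∈ m, r ∈ R) : ∀ p l, p.length = 7 → chk P m.length p l = true →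
      m.foldl rev p = idp 7 → P (l.reverse ++ m) = true := by
  induction m with
  | nil => intro p l _ h e; simpa [chk, show p = idp 7 from e] using h
  | cons a m ih =>
    intro p l hp h e
    have k := cnt_bound _ hm p hp
    rw [e, cnt_id, List.length_cons] at k
    rw [List.length_cons, chk, ← cnt_bad, if_neg (by omega)] at h
    have := ih (fun r hr => hm r (by simp [hr])) _ (a :: l) (step hp (hm a (by simp))).1
      (List.all_eq_true.1 h a (hm a (by simp))) e
    simpa using this

def p0 : List ℤ := [-1, -3, -5, -6, -4, -7, -2]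

def A : List (ℕ × ℕ) := [(1, 5), (2, 6), (2, 5), (3, 6), (2, 7)]

def P (l : List (ℕ × ℕ)) : Bool := (l.all fun r => r ∈ A) || l.all fun r => r ∉ A

theorem comp : chk P 6 p0 [] = true := by decide +kernel

theorem cnt_p0 : cnt p0 = 2 := by decide +kernel

theorem len {l : List (ℕ × ℕ)} (h : Sorts 7 p0 l) : 6 ≤ l.length := by
  have k := cnt_bound l (fun r hr => mem_R (h.1 r hr)) p0 rfl
  rw [h.2, cnt_id, cnt_p0] at k
  by_contra c
  have := Nat.pow_le_pow_right (by decide : 0 < 2) (by omega : l.length ≤ 5)
  omega

def s1 : List (ℕ × ℕ) := [(1, 5), (2, 6), (2, 5), (3, 6), (1, 5), (2, 7)]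

def s2 : List (ℕ × ℕ) := [(1, 1), (6, 7), (4, 6), (3, 5), (3, 4), (2, 3)]

theorem opt1 : s1 ∈ Opt 7 p0 := ⟨⟨by decide, by decide⟩, fun _ h => len h⟩

theorem opt2 : s2 ∈ Opt 7 p0 := ⟨⟨by decide, by decide⟩, fun _ h => len h⟩

theorem len6 (l : Opt 7 p0) : l.1.length = 6 := le_antisymm (l.2.2 _ opt1.1) (len l.2.1)

theorem cls (l : Opt 7 p0) : (∀ r ∈ l.1, r ∈ A) ∨ ∀ r ∈ l.1, r ∉ A := by
  have := chk_sound P l.1 (fun r hr => mem_R (l.2.1.1 r hr)) p0 [] rfl (len6 l ▸ comp) l.2.1.2
  simpa [P] using this

theorem share {a b : Opt 7 p0} (h : ((a.1.zip b.1).filter fun x => x.1 ≠ x.2).length ≤ 4 ∨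
    ∃ r, r ∈ a.1 ∧ r ∈ b.1) : ∃ r, r ∈ a.1 ∧ r ∈ b.1 := by
  refine h.elim (fun h => ?_) id
  by_contra c
  rw [List.filter_eq_self.2, List.length_zip, len6, len6] at h
  · omega
  · intro x hx
    have := List.of_mem_zip (a := x.1) (b := x.2) hx
    exact decide_eq_true fun e => c ⟨_, this.1, e ▸ this.2⟩

theorem main : ¬ (scenGraph 7 p0).Preconnected := by
  intro h
  have key : ∀ a b : Opt 7 p0, (scenGraph 7 p0).Reachable a b → (∀ r ∈ a.1, r ∈ A) →
      ∀ r ∈ b.1, r ∈ A := by
    rintro a b ⟨w⟩
    induction w with
    | nil => exact id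
    | @cons a b _ e _ ih =>
      refine fun k => ih ((cls b).resolve_right fun c => ?_)
      rcases e.2 with e | e <;> obtain ⟨r, h1, h2⟩ := share e
      exacts [c r h2 (k r h1), c r h1 (k r h2)]
  exact absurd (key ⟨_, opt1⟩ ⟨_, opt2⟩ (h _ _) (by decide)) (by decide)

end Pool.Agent.H34.Rev
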