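import Mathlib

namespace Pool.Agent.H34.Shift
open Finset Pointwise

theorem cop_of_primes {x y : ℕ} (h : ∀ p : ℕ, p.Prime → p ∣ x → p ∣ y → False) : x.Coprime y :=
  Nat.coprime_of_dvd fun p hp h1 h2 => h p hp h1 h2

theorem exists_A (N : ℕ) : ∃ A : Finset ℕ, A.card = N ∧ 0 ∉ A ∧
    ∀ x ∈ A * A, ∀ y ∈ A * A, x ≠ y → (x + 1).Coprime (y + 1) := by
  induction N with
  | zero => exact ⟨∅, rfl, by simp, by simp⟩
  | succ N ih =>
    obtain ⟨A, hc, h0, hA⟩ := ih
    set M := (A * A).sup id + A.sup id + 1 with hM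
    have l1 : ∀ b ∈ A, b < M := fun b hb => by
      have := le_sup (f := id) hb
      simp only [id] at this; omega
    have l2 : ∀ x ∈ A * A, x + 1 ≤ M := fun x hx => by
      have := le_sup (f := id) hx
      simp only [id] at this; omega
    set a := M.factorial with ha
    have hMa : M ≤ a := Nat.self_le_factorial M
    have dv : ∀ t, 0 < t → t ≤ M → t ∣ a := fun t h1 h2 => Nat.dvd_factorial h1 h2
    have nd : ∀ p t : ℕ, p.Prime → p ∣ a * t + 1 → ¬ p ∣ a := fun p t hp h1 h2 =>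
      hp.one_lt.ne' (Nat.dvd_one.1 ((Nat.dvd_add_right (h2.mul_right t)).1 h1))
    have haA : a ∉ A := fun h => by have := l1 a h; omega
    have k1 : ∀ y ∈ A * A, ∀ t, (y + 1).Coprime (a * t + 1) := fun y hy t =>
      cop_of_primes fun p hp h1 h2 => nd p t hp h2 (h1.trans (dv _ (by omega) (l2 y hy)))
    have k2 : ∀ b ∈ A, ∀ c ∈ A, b < c → (a * b + 1).Coprime (a * c + 1) := fun b hb c hc' hbc =>
      cop_of_primes fun p hp h1 h2 => by
        have h3 : p ∣ a * (c - b) := by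
          have := Nat.dvd_sub h2 h1
          rwa [Nat.add_sub_add_right, ← Nat.mul_sub] at this
        have h4 := ((Nat.Prime.dvd_mul hp).1 h3).resolve_left (nd p b hp h1)
        exact nd p b hp h1 (h4.trans (dv _ (by omega) (by have := l1 c hc'; omega)))
    have k3 : ∀ b ∈ A, (a * b + 1).Coprime (a * a + 1) := fun b hb =>
      cop_of_primes fun p hp h1 h2 => by
        have hba : b ≤ a := by have := l1 b hb; omega
        have h3 : p ∣ a * (a - b) := by
          have := Nat.dvd_sub h2 h1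
          rwa [Nat.add_sub_add_right, ← Nat.mul_sub] at this
        have h4 := ((Nat.Prime.dvd_mul hp).1 h3).resolve_left (nd p b hp h1)
        have h5 : p ∣ b * b + 1 := by
          obtain ⟨d, hd⟩ := Nat.exists_eq_add_of_le hba
          rw [hd, Nat.add_sub_cancel_left] at h4
          have e : a * b + 1 = d * b + (b * b + 1) := by rw [hd]; ring
          rw [e] at h1
          exact (Nat.dvd_add_right (h4.mul_right b)).1 h1
        exact nd p b hp h1 (h5.trans (dv _ (by omega) (l2 _ (mul_mem_mul hb hb))))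
    refine ⟨insert a A, by rw [card_insert_of_notMem haA, hc], ?_, ?_⟩
    · simp only [mem_insert, not_or]
      exact ⟨(Nat.factorial_pos M).ne, h0⟩
    have cases : ∀ x ∈ insert a A * insert a A, x ∈ A * A ∨ (∃ b ∈ A, x = a * b) ∨ x = a * a := by
      intro x hx
      obtain ⟨b, hb, c, hc, rfl⟩ := mem_mul.1 hx
      rcases mem_insert.1 hb with rfl | hb <;> rcases mem_insert.1 hc with rfl | hc
      · exact Or.inr (Or.inr rfl)
      · exact Or.inr (Or.inl ⟨c, hc, rfl⟩)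
      · exact Or.inr (Or.inl ⟨b, hb, mul_comm _ _⟩)
      · exact Or.inl (mul_mem_mul hb hc)
    intro x hx y hy hxy
    rcases cases x hx with h1 | ⟨b, hb, rfl⟩ | rfl <;> rcases cases y hy with h2 | ⟨c, hc, rfl⟩ | rfl
    · exact hA x h1 y h2 hxy
    · exact k1 x h1 c
    · exact k1 x h1 a
    · exact (k1 y h2 b).symm
    · rcases lt_trichotomy b c with h | rfl | h
      · exact k2 b hb c hc h
      · exact absurd rfl hxy
      · exact (k2 c hc b hb h).symm
    · exact k3 b hb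
    · exact (k1 y h2 a).symm
    · exact (k3 c hc).symm
    · exact absurd rfl hxy

theorem count (E F : Finset ℕ) (hE : ∀ e ∈ E, 0 < e) (hF : ∀ f ∈ F, 0 < f)
    (hc : ∀ e ∈ E, ∀ e' ∈ E, e ≠ e' → e.Coprime e') :
    E.card * F.card ≤ (E * F).card + F.card * F.card := by
  classical
  let B := (E ×ˢ F).filter fun p => ∃ q ∈ E ×ˢ F, q ≠ p ∧ q.1 * q.2 = p.1 * p.2
  have h1 : ((E ×ˢ F) \ B).card ≤ (E * F).card := by
    refine card_le_card_of_injOn (fun p => p.1 * p.2) ?_ ?_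
    · intro p hp
      have := mem_product.1 (mem_sdiff.1 hp).1
      exact mul_mem_mul this.1 this.2
    · intro p hp q hq h
      by_contra hne
      exact (mem_sdiff.1 hq).2 (mem_filter.2 ⟨(mem_sdiff.1 hq).1, p, (mem_sdiff.1 hp).1, hne, h⟩)
  have h2 : B.card ≤ (F ×ˢ F).card := by
    have : ∀ p ∈ B, ∃ q ∈ E ×ˢ F, q ≠ p ∧ q.1 * q.2 = p.1 * p.2 := fun p hp => (mem_filter.1 hp).2
    choose! g hg1 hg2 hg3 using this
    refine card_le_card_of_injOn (fun p => (p.2, (g p).2)) ?_ ?_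
    · intro p hp
      exact mem_product.2 ⟨(mem_product.1 (mem_filter.1 hp).1).2, (mem_product.1 (hg1 p hp)).2⟩
    · intro p hp q hq h
      simp only [Prod.mk.injEq] at h
      have cop : ∀ p ∈ B, p.1.Coprime (g p).1 := fun p hp => by
        have m := mem_product.1 (mem_filter.1 hp).1
        refine hc _ m.1 _ (mem_product.1 (hg1 p hp)).1 fun e => hg2 p hp ?_
        have := hg3 p hp
        rw [← e] at this
        exact Prod.ext e.symm (Nat.eq_of_mul_eq_mul_left (hE _ m.1) this)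
      have e1 := hg3 p hp
      have e2 := hg3 q hq
      rw [← h.1, ← h.2] at e2
      have p2 := hF _ (mem_product.1 (mem_filter.1 hp).1).2
      have e3 : p.1 * (g q).1 = q.1 * (g p).1 := by
        apply Nat.eq_of_mul_eq_mul_left p2
        calc p.2 * (p.1 * (g q).1) = (p.1 * p.2) * (g q).1 := by ring
          _ = ((g q).1 * (g p).2) * (g p).1 := by rw [← e1]; ring
          _ = _ := by rw [e2]; ring
      refine Prod.ext (Nat.dvd_antisymm ?_ ?_) h.1
      · exact (cop p hp).dvd_of_dvd_mul_right (e3 ▸ Dvd.intro _ rfl)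
      · exact (cop q hq).dvd_of_dvd_mul_right (e3 ▸ Dvd.intro _ rfl)
  have h3 : ((E ×ˢ F) \ B).card + B.card = (E ×ˢ F).card :=
    card_sdiff_add_card_eq_card (filter_subset _ _)
  rw [card_product] at h2 h3
  omega

theorem side (E F M : Finset ℕ) (K : ℕ) (hK : K + 1 ≤ F.card)
    (hM : ∀ x ∈ M, ∀ y ∈ M, x ≠ y → x.Coprime y) (he : ∀ x ∈ M, ∃ e ∈ E, 1 < e ∧ e ∣ x) :
    M.card * K ≤ (E * F).card + K * K := by
  classical
  choose! g hg1 hg2 hg3 using he
  obtain ⟨F₀, hF₀, hc⟩ := exists_subset_card_eq (s := F.erase 0) (n := K)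
    (by have := pred_card_le_card_erase (s := F) (a := 0); omega)
  have cop : ∀ x ∈ M, ∀ y ∈ M, x ≠ y → (g x).Coprime (g y) := fun x hx y hy h =>
    ((hM x hx y hy h).coprime_dvd_left (hg3 x hx)).coprime_dvd_right (hg3 y hy)
  have inj : Set.InjOn g M := fun x hx y hy h => by
    by_contra hne
    have := cop x hx y hy hne
    rw [h, Nat.coprime_self] at this
    have := hg2 y hy
    omega
  have := count (M.image g) F₀ (by
      intro e he
      obtain ⟨x, hx, rfl⟩ := mem_image.1 he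
      have := hg2 x hx
      omega) (fun f hf => Nat.pos_of_ne_zero (ne_of_mem_erase (hF₀ hf))) (by
      intro e he e' he' hne
      obtain ⟨x, hx, rfl⟩ := mem_image.1 he
      obtain ⟨y, hy, rfl⟩ := mem_image.1 he'
      exact cop x hx y hy fun h => hne (h ▸ rfl))
  rw [card_image_of_injOn inj, hc] at this
  refine this.trans (Nat.add_le_add_right (card_le_card (mul_subset_mul ?_ ?_)) _)
  · intro e he
    obtain ⟨x, hx, rfl⟩ := mem_image.1 he
    exact hg1 x hx
  · exact hF₀.trans (erase_subset _ _)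

theorem both (E F X : Finset ℕ) (K : ℕ) (hE : K + 1 ≤ E.card) (hF : K + 1 ≤ F.card)
    (hX : ∀ x ∈ X, ∀ y ∈ X, x ≠ y → x.Coprime y) (h2 : ∀ x ∈ X, 2 ≤ x) :
    (X ∩ (E * F)).card * K ≤ 2 * (E * F).card + 2 * (K * K) := by
  classical
  let M₁ := X.filter fun x => ∃ e ∈ E, 1 < e ∧ e ∣ x
  let M₂ := X.filter fun x => ∃ e ∈ F, 1 < e ∧ e ∣ x
  have s1 := side E F M₁ K hF (fun x hx y hy => hX x (mem_filter.1 hx).1 y (mem_filter.1 hy).1)
    fun x hx => (mem_filter.1 hx).2
  have s2 := side F E M₂ K hE (fun x hx y hy => hX x (mem_filter.1 hx).1 y (mem_filter.1 hy).1)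
    fun x hx => (mem_filter.1 hx).2
  rw [mul_comm F E] at s2
  have h : X ∩ (E * F) ⊆ M₁ ∪ M₂ := by
    intro x hx
    obtain ⟨hx1, hx2⟩ := mem_inter.1 hx
    obtain ⟨e, he, f, hf, rfl⟩ := mem_mul.1 hx2
    have := h2 _ hx1
    by_cases h1 : 1 < e
    · exact mem_union_left _ (mem_filter.2 ⟨hx1, e, he, h1, Dvd.intro _ rfl⟩)
    · refine mem_union_right _ (mem_filter.2 ⟨hx1, f, hf, ?_, Dvd.intro_left _ rfl⟩)
      by_contra h3
      have : e * f ≤ 1 * 1 := Nat.mul_le_mul (by omega) (by omega)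
      omega
  have h3 := (card_le_card h).trans (card_union_le _ _)
  nlinarith

theorem main (c₃ c₄ δ : ℝ) (h₃ : 0 < c₃) (h₄ : 0 < c₄) (hδ : 0 < δ) (N : ℕ) :
    ∃ A : Finset ℕ, 0 ∉ A ∧ N ≤ A.card ∧ N ≤ (A * A).card ∧ ∀ E F : Finset ℕ,
      ¬ (((A * A).card : ℝ) ^ δ ≤ E.card ∧ ((A * A).card : ℝ) ^ δ ≤ F.card ∧
        ((E * F).card : ℝ) ≤ c₃ * (A * A).card ∧
        c₄ * (A * A).card ≤ (((A * A).image (· + 1) ∩ (E * F)).card : ℝ)) := by
  obtain ⟨K, hK⟩ := exists_nat_gt (4 * c₃ / c₄)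
  obtain ⟨N₁, hN₁⟩ := exists_nat_gt (4 * K / c₄)
  obtain ⟨N₂, hN₂⟩ := exists_nat_gt (((K : ℝ) + 1) ^ δ⁻¹)
  obtain ⟨A, hc, h0, hA⟩ := exists_A (N + N₁ + N₂ + 1)
  have hAA : A.card ≤ (A * A).card := by
    obtain ⟨a, ha⟩ : A.Nonempty := card_pos.1 (by omega)
    refine card_le_card_of_injOn (a * ·) (fun b hb => mul_mem_mul ha hb) fun b _ c _ h => ?_
    exact Nat.eq_of_mul_eq_mul_left (Nat.pos_of_ne_zero fun e => h0 (e ▸ ha)) h
  refine ⟨A, h0, by omega, by omega, ?_⟩
  rintro E F ⟨h1, h2, h3, h4⟩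
  set n := (A * A).card
  have n1 : (N₁ : ℝ) ≤ n := by exact_mod_cast (by omega : N₁ ≤ n)
  have n2 : (N₂ : ℝ) ≤ n := by exact_mod_cast (by omega : N₂ ≤ n)
  have hp : (K : ℝ) + 1 ≤ (n : ℝ) ^ δ := by
    have := Real.rpow_le_rpow (by positivity) (hN₂.le.trans n2) hδ.le
    rwa [← Real.rpow_mul (by positivity), inv_mul_cancel₀ hδ.ne', Real.rpow_one] at this
  have := both E F ((A * A).image (· + 1)) K (by exact_mod_cast hp.trans h1)
    (by exact_mod_cast hp.trans h2) (by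
      intro x hx y hy hne
      obtain ⟨x', hx', rfl⟩ := mem_image.1 hx
      obtain ⟨y', hy', rfl⟩ := mem_image.1 hy
      exact hA x' hx' y' hy' fun e => hne (e ▸ rfl)) (by
      intro x hx
      obtain ⟨x', hx', rfl⟩ := mem_image.1 hx
      obtain ⟨a, ha, b, hb, rfl⟩ := mem_mul.1 hx'
      have : 0 < a * b := Nat.mul_pos (Nat.pos_of_ne_zero fun e => h0 (e ▸ ha))
        (Nat.pos_of_ne_zero fun e => h0 (e ▸ hb))
      omega)
  have h5 : ((((A * A).image (· + 1)) ∩ (E * F)).card : ℝ) * K ≤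
      2 * (E * F).card + 2 * (K * K) := by exact_mod_cast this
  rw [div_lt_iff₀ h₄] at hK hN₁
  have hK0 : (0 : ℝ) < K := by nlinarith
  have hn0 : (0 : ℝ) < n := by nlinarith
  have a1 : c₄ * n * K ≤ 2 * (c₃ * n) + 2 * (K * K) := by nlinarith
  have a2 : 4 * c₃ * n < K * c₄ * n := by nlinarith
  have a3 : 4 * K * K < n * c₄ * K := by nlinarith
  nlinarith

end Pool.Agent.H34.Shift
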