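import Mathlib

namespace Pool.Agent.H34.Sq4

noncomputable def frc {α : Type} (n : ℕ) (f : ℕ → α) : α :=
  Nat.rec (f 0) (fun k _ => f (Nat.succ k)) n

lemma frc_eq {α : Type} (n : ℕ) (f : ℕ → α) : frc n f = f n := by
  cases n <;> rfl

noncomputable def allb (p : ℕ → Bool) (k : ℕ) : Bool :=
  Nat.rec true (fun i ih => p i && ih) k

lemma allb_spec (p : ℕ → Bool) (k : ℕ) (h : allb p k = true) (i : ℕ) (hi : i < k) :
    p i = true := by
  induction k with
  | zero => omega
  | succ k ih =>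
    have e : allb p (k + 1) = (p k && allb p k) := rfl
    rw [e, Bool.and_eq_true] at h
    rcases Nat.lt_succ_iff_lt_or_eq.1 hi with h1 | rfl
    · exact ih h.2 h1
    · exact h.1

noncomputable def newt (N f : ℕ) : ℕ → ℕ :=
  Nat.rec (fun x => x) (fun _ ih x => frc (Nat.div (Nat.add x (Nat.div N x)) 2) fun y =>
    cond (Nat.blt y x) (ih y) x) f

noncomputable def ns (v : ℕ) : Bool :=
  frc (newt v 30 600000) fun s => Nat.blt (s * s) v && Nat.blt v ((s + 1) * (s + 1))

lemma ns_spec (v : ℕ) (h : ns v = true) : ¬ IsSquare v := by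
  simp only [ns, frc_eq, Bool.and_eq_true, Nat.blt_eq] at h
  generalize newt v 30 600000 = a at h
  rintro ⟨m, rfl⟩
  have h4 : a < m := Nat.mul_self_lt_mul_self_iff.1 h.1
  have h5 : m < a + 1 := Nat.mul_self_lt_mul_self_iff.1 h.2
  omega

noncomputable def mk (g : ℕ → ℕ) (k : ℕ) : ℕ :=
  Nat.rec 0 (fun i ih => Nat.lor ih (Nat.shiftLeft 1 (g i))) k

noncomputable def A : ℕ := mk (fun z => z * z) 238
noncomputable def B : ℕ := mk (fun w => 56271 - w * w) 238

lemma mk_spec (g : ℕ → ℕ) (k i : ℕ) (hi : i < k) : (mk g k).testBit (g i) = true := by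
  induction k with
  | zero => omega
  | succ k ih =>
    have e : mk g (k + 1) = mk g k ||| (1 <<< g k) := rfl
    rw [e, Nat.testBit_or, Bool.or_eq_true]
    rcases Nat.lt_succ_iff_lt_or_eq.1 hi with h1 | rfl
    · exact Or.inl (ih h1)
    · right; rw [Nat.one_shiftLeft, Nat.testBit_two_pow_self]

/-- lookup table from the lowest set bit `z * z` to `z` (only used as a guess). -/
noncomputable def T : ℕ :=
  Nat.rec 0 (fun i ih => Nat.lor ih (Nat.shiftLeft i
    (Nat.mul 8 (Nat.mod (Nat.sub (Nat.pow 2 (Nat.succ (Nat.mul i i))) 1) 1019)))) 238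

noncomputable def zl (t : ℕ) (p : ℕ → Bool) (f : ℕ) : ℕ → Bool :=
  Nat.rec (fun w => Nat.beq w 0) (fun _ ih w => cond (Nat.beq w 0) true
    (frc (Nat.mod (Nat.shiftRight t (Nat.mul 8 (Nat.mod (Nat.xor w (Nat.sub w 1)) 1019))) 256) fun z =>
      p z && frc (Nat.xor w (Nat.shiftLeft 1 (Nat.mul z z))) ih)) f

lemma zl_spec (t : ℕ) (p : ℕ → Bool) (f w : ℕ) (h : zl t p f w = true) (d : ℕ)
    (hd : w.testBit (d * d) = true) : p d = true := by
  induction f generalizing w with
  | zero =>
    have : w = 0 := Nat.eq_of_beq_eq_true h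
    simp [this] at hd
  | succ f ih =>
    have e : zl t p (f + 1) w = cond (Nat.beq w 0) true
      (frc (Nat.mod (Nat.shiftRight t (Nat.mul 8 (Nat.mod (Nat.xor w (Nat.sub w 1)) 1019))) 256) fun z =>
        p z && frc (Nat.xor w (Nat.shiftLeft 1 (Nat.mul z z))) (zl t p f)) := rfl
    rw [e] at h
    cases h0 : Nat.beq w 0
    · rw [h0, cond_false, frc_eq, frc_eq, Bool.and_eq_true] at h
      generalize Nat.mod (Nat.shiftRight t (Nat.mul 8 (Nat.mod (Nat.xor w (Nat.sub w 1)) 1019))) 256 = z at h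
      by_cases hz : z = d
      · exact hz ▸ h.1
      · refine ih (w ^^^ (1 <<< (z * z))) h.2 ?_
        rw [Nat.testBit_xor, hd, Nat.one_shiftLeft,
          Nat.testBit_two_pow_of_ne (fun h => hz (Nat.mul_self_inj.1 h))]
        rfl
    · have : w = 0 := Nat.eq_of_beq_eq_true h0
      simp [this] at hd

noncomputable def row (t a b x : ℕ) : Bool :=
  allb (fun y => frc (Nat.land a (Nat.shiftRight b (Nat.add (Nat.mul x x) (Nat.mul y y)))) fun c =>
    zl t (fun z => frc (x * y * (42 * (x * x) + 98 * (y * y) + 14 * (z * z))) ns) 40 c) 238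

noncomputable def rows (x0 k : ℕ) : Bool :=
  allb (fun x => Nat.blt x x0 || row T A B x) (Nat.add x0 k)

lemma row_spec (t a b x y z w : ℕ) (ha : ∀ z < 238, a.testBit (z * z) = true)
    (hb : ∀ w < 238, b.testBit (56271 - w * w) = true) (h : row t a b x = true)
    (e : 56271 = x * x + y * y + z * z + w * w) :
    ¬ IsSquare (x * y * (42 * (x * x) + 98 * (y * y) + 14 * (z * z))) := by
  have k : ∀ t : ℕ, t * t ≤ 56271 → t < 238 := fun t ht =>
    Nat.mul_self_lt_mul_self_iff.1 (lt_of_le_of_lt ht (by norm_num))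
  have hy : y < 238 := k y (by omega)
  have hz : z < 238 := k z (by omega)
  have hw : w < 238 := k w (by omega)
  have h4 := allb_spec _ _ h y hy
  rw [frc_eq] at h4
  have h5 := zl_spec _ _ _ _ h4 z (by
    show (a &&& (b >>> (x * x + y * y))).testBit _ = true
    rw [Nat.testBit_and, Nat.testBit_shiftRight, Bool.and_eq_true]
    refine ⟨ha z hz, ?_⟩
    have := hb w hw
    rwa [show x * x + y * y + z * z = 56271 - w * w by omega])
  rw [frc_eq] at h5
  exact ns_spec _ h5

lemma hA : ∀ z < 238, A.testBit (z * z) = true := fun z hz => mk_spec (fun z => z * z) 238 z hz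
lemma hB : ∀ w < 238, B.testBit (56271 - w * w) = true :=
  fun w hw => mk_spec (fun w => 56271 - w * w) 238 w hw

lemma rows_spec (x0 k : ℕ) (h : rows x0 k = true) (x y z w : ℕ) (h1 : x0 ≤ x) (h2 : x < x0 + k)
    (e : 56271 = x * x + y * y + z * z + w * w) :
    ¬ IsSquare (x * y * (42 * (x * x) + 98 * (y * y) + 14 * (z * z))) := by
  have h4 := allb_spec _ _ h x h2
  have h3 : row T A B x = true := by
    rcases Bool.or_eq_true _ _ ▸ h4 with h5 | h5
    · exact absurd (Nat.blt_eq ▸ h5 : x < x0) (by omega)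
    · exact h5
  exact row_spec T A B x y z w hA hB h3 e

end Pool.Agent.H34.Sq4
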