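import Pool.Agent.H34.Sq4

namespace Pool.Agent.H34.Sq4

theorem t0 : rows 0 12 = true := by decide +kernel
theorem t12 : rows 12 12 = true := by decide +kernel
theorem t24 : rows 24 12 = true := by decide +kernel
theorem t36 : rows 36 12 = true := by decide +kernel

end Pool.Agent.H34.Sq4
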