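import Pool.Agent.H34.Sq4

namespace Pool.Agent.H34.Sq4

theorem t48 : rows 48 13 = true := by decide +kernel
theorem t61 : rows 61 13 = true := by decide +kernel
theorem t74 : rows 74 13 = true := by decide +kernel
theorem t87 : rows 87 13 = true := by decide +kernel

end Pool.Agent.H34.Sq4
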