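import Pool.Agent.H34.Sq4

namespace Pool.Agent.H34.Sq4

theorem t100 : rows 100 14 = true := by decide +kernel
theorem t114 : rows 114 14 = true := by decide +kernel
theorem t128 : rows 128 14 = true := by decide +kernel
theorem t142 : rows 142 14 = true := by decide +kernel

end Pool.Agent.H34.Sq4
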