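import Pool.Agent.H34.Sq4

namespace Pool.Agent.H34.Sq4

theorem t156 : rows 156 16 = true := by decide +kernel
theorem t172 : rows 172 18 = true := by decide +kernel
theorem t190 : rows 190 20 = true := by decide +kernel
theorem t210 : rows 210 28 = true := by decide +kernel

end Pool.Agent.H34.Sq4
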