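import Mathlib

namespace Pool.Agent.H34.SubmodDefs

variable {J : Type}

/-- A bounded set function on the algebra of all subsets of `J`. -/
def Bdd (φ : Set J → ℝ) : Prop := ∃ b : ℝ, ∀ X, |φ X| ≤ b

/-- A submodular set function. -/
def Submod (φ : Set J → ℝ) : Prop := ∀ X Y, φ (X ∩ Y) + φ (X ∪ Y) ≤ φ X + φ Y

/-- Bounded variation: a difference of two increasing set functions. -/
def BV (φ : Set J → ℝ) : Prop := ∃ f g : Set J → ℝ, Monotone f ∧ Monotone g ∧ φ = f - g

end Pool.Agent.H34.SubmodDefs
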