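import Mathlib
import Pool.Agent.H34.SubmodDefs

namespace Pool.Agent.H34.Submod
open Pool.Agent.H34.SubmodDefs Finset

def box (n i j : ℕ) : Set (ℕ × Bool × ℕ) := {p | p.1 = n ∧ p.2.2 < if p.2.1 then j else i}

open Classical in
noncomputable def phi (X : Set (ℕ × Bool × ℕ)) : ℝ :=
  if ∃ n i j, i + j = n + 1 ∧ box n i j ⊆ X then 1 else 0

theorem phi_mono : Monotone phi := by
  intro X Y h
  unfold phi
  split_ifs with h1 h2
  · rfl
  · obtain ⟨n, i, j, h3, h4⟩ := h1
    exact absurd ⟨n, i, j, h3, h4.trans h⟩ h2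
  · norm_num
  · rfl

theorem phi_box (n i j : ℕ) : phi (box n i j) = if n + 1 ≤ i + j then 1 else 0 := by
  unfold phi
  congr 1
  refine propext ⟨?_, fun h => ?_⟩
  · rintro ⟨m, a, b, h1, h2⟩
    have k1 : 0 < a → m = n ∧ a ≤ i := fun ha => by
      have := h2 (show (m, false, a - 1) ∈ box m a b from ⟨rfl, by simpa⟩)
      simp only [box, Set.mem_setOf_eq, Bool.false_eq_true, if_false] at this
      omega
    have k2 : 0 < b → m = n ∧ b ≤ j := fun hb => by
      have := h2 (show (m, true, b - 1) ∈ box m a b from ⟨rfl, by simpa⟩)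
      simp only [box, Set.mem_setOf_eq, if_true] at this
      omega
    omega
  · refine ⟨n, min i (n + 1), n + 1 - min i (n + 1), by omega, ?_⟩
    rintro ⟨m, _ | _, k⟩ ⟨h1, h2⟩ <;> refine ⟨h1, ?_⟩ <;> simp at h2 ⊢ <;> omega

theorem box_inter (n i j : ℕ) : box n (i + 1) j ∩ box n i (j + 1) = box n i j := by
  ext ⟨m, _ | _, k⟩ <;> simp [box] <;> omega

theorem box_union (n i j : ℕ) : box n (i + 1) j ∪ box n i (j + 1) = box n (i + 1) (j + 1) := by
  ext ⟨m, _ | _, k⟩ <;> simp [box] <;> omega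

theorem main : BV phi ∧ ∀ ψ₁ ψ₂, Bdd ψ₁ → Submod ψ₁ → Bdd ψ₂ → Submod ψ₂ → phi ≠ ψ₁ - ψ₂ := by
  refine ⟨⟨phi, 0, phi_mono, monotone_const, by simp⟩, ?_⟩
  rintro ψ₁ ψ₂ - s1 ⟨b, hb⟩ s2 h
  obtain ⟨n, hn⟩ := exists_nat_gt (4 * b)
  let F : ℕ → ℕ → ℝ := fun i j => ψ₂ (box n i j)
  have h1 : ∀ i j, (F (i + 1) (j + 1) - F i (j + 1)) - (F (i + 1) j - F i j) ≤ 0 := fun i j => by
    have := s2 (box n (i + 1) j) (box n i (j + 1))
    rw [box_inter, box_union] at this
    simp only [F]; linarith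
  have h2 : ∀ i j, i + j + 1 = n →
      (F (i + 1) (j + 1) - F i (j + 1)) - (F (i + 1) j - F i j) ≤ -1 := fun i j e => by
    have := s1 (box n (i + 1) j) (box n i (j + 1))
    rw [box_inter, box_union] at this
    have a1 := congrFun h (box n (i + 1) (j + 1))
    have a2 := congrFun h (box n (i + 1) j)
    have a3 := congrFun h (box n i (j + 1))
    have a4 := congrFun h (box n i j)
    rw [phi_box, if_pos (by omega)] at a1
    rw [phi_box, if_neg (by omega)] at a2 a3 a4
    simp only [Pi.sub_apply] at a1 a2 a3 a4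
    simp only [F]; linarith
  have h3 : ∀ i ∈ range n, (F (i + 1) n - F (i + 1) 0) - (F i n - F i 0) ≤ -1 := fun i hi => by
    have := sum_range_sub (fun j => F (i + 1) j - F i j) n
    have hi' := mem_range.1 hi
    rw [← sum_erase_add _ _ (mem_range.2 (show n - 1 - i < n by omega))] at this
    have a := sum_nonpos (s := (range n).erase (n - 1 - i)) fun j _ => h1 i j
    have b := h2 i (n - 1 - i) (by omega)
    linarith
  have h4 := sum_le_sum h3
  rw [sum_range_sub (fun i => F i n - F i 0)] at h4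
  simp only [sum_const, card_range, nsmul_eq_mul, F] at h4
  have b1 := abs_le.1 (hb (box n n n))
  have b2 := abs_le.1 (hb (box n n 0))
  have b3 := abs_le.1 (hb (box n 0 n))
  have b4 := abs_le.1 (hb (box n 0 0))
  linarith

end Pool.Agent.H34.Submod
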