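import Pool.Agent.H39.NonBorel

namespace Pool.Agent.H34.Tame
open Set Filter Topology Pool.Agent.H39.NonBorel

variable {G : Type} [AddCommGroup G] [TopologicalSpace G]

def IsTame (G : Type) [AddCommGroup G] [TopologicalSpace G] : Prop :=
  ∀ (X : Type) [TopologicalSpace X] [PolishSpace X] [AddAction G X] [ContinuousVAdd G X],
    @MeasurableSet (X × X) (borel (X × X)) {p : X × X | ∃ g : G, g +ᵥ p.1 = p.2}

structure Chain (U : ℕ → AddSubgroup G) : Prop where
  op : ∀ n, IsOpen (U n : Set G)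
  anti : Antitone U
  base : ∀ V ∈ 𝓝 (0 : G), ∃ n, (U n : Set G) ⊆ V

theorem Chain.comp {U : ℕ → AddSubgroup G} (h : Chain U) {m : ℕ → ℕ} (hm : StrictMono m) :
    Chain (fun k => U (m k)) :=
  ⟨fun _ => h.op _, fun _ _ e => h.anti (hm.monotone e), fun V hV =>
    (h.base V hV).imp fun n q _ hx => q (h.anti (hm.id_le n) hx)⟩

theorem exists_chain [FirstCountableTopology G] [NonarchimedeanAddGroup G] :
    ∃ U : ℕ → AddSubgroup G, Chain U := by
  obtain ⟨V, hV⟩ := (𝓝 (0 : G)).exists_antitone_basis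
  choose W hW using fun n => NonarchimedeanAddGroup.is_nonarchimedean (V n) (hV.mem n)
  let U : ℕ → OpenAddSubgroup G := fun n => n.rec (W 0) fun n u => u ⊓ W (n + 1)
  refine ⟨fun n => (U n).toAddSubgroup, fun n => (U n).isOpen,
    antitone_nat_of_succ_le fun n x (hx : x ∈ U n ⊓ W (n + 1)) => hx.1,
    fun O hO => (hV.mem_iff.1 hO).imp fun n q => Subset.trans ?_ ((hW n).trans q)⟩
  cases n
  exacts [subset_rfl, fun x hx => hx.2]

theorem Chain.step {U : ℕ → AddSubgroup G} (h : Chain U) {s : ℕ → G}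
    (hs : ∀ k, s (k + 1) - s k ∈ U k) {j k : ℕ} (e : j ≤ k) : s k - s j ∈ U j := by
  induction k, e using Nat.le_induction with
  | base => simp
  | succ k e ih => simpa using add_mem (h.anti e (hs k)) ih

theorem Chain.complete [IsTopologicalAddGroup G] [PolishSpace G] {U : ℕ → AddSubgroup G}
    (h : Chain U) {s : ℕ → G} (hs : ∀ k, s (k + 1) - s k ∈ U k) : ∃ g, ∀ k, g - s k ∈ U k := by
  letI := TopologicalSpace.upgradeIsCompletelyMetrizable G
  have near : ∀ (x : G) (n k0 : ℕ), ∃ k, k0 < k ∧ ∀ z, z - x ∈ U k → dist x z ≤ 2 / 2 / 2 ^ n := by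
    intro x n k0
    obtain ⟨k, hk⟩ := h.base ((fun u => x + u) ⁻¹' Metric.ball x (2 / 2 / 2 ^ n))
      ((continuous_const.add continuous_id).continuousAt.preimage_mem_nhds
        (by simpa using Metric.ball_mem_nhds x (by positivity)))
    refine ⟨k + k0 + 1, by omega, fun z hz => ?_⟩
    simpa [dist_comm] using (Metric.mem_ball.1 (hk (h.anti (by omega) hz))).le
  choose K K1 K2 using near
  let t : ℕ → G × G × ℕ := fun n => n.rec (s (K 0 0 0), 0, K 0 0 0) fun n p =>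
    (p.1 - s (K p.1 n p.2.2) + s (K (p.1 - s (K p.1 n p.2.2)) (n + 1) (K p.1 n p.2.2)),
      p.1 - s (K p.1 n p.2.2), K (p.1 - s (K p.1 n p.2.2)) (n + 1) (K p.1 n p.2.2))
  have h1 : ∀ n, (t n).1 - (t n).2.1 = s (t n).2.2 := fun n => by cases n <;> simp [t]
  have h2 : ∀ n z, z - (t n).2.1 ∈ U (t n).2.2 → dist (t n).2.1 z ≤ 2 / 2 / 2 ^ n := fun n => by
    cases n <;> exact K2 _ _ _
  have mono : StrictMono fun n => (t n).2.2 :=
    strictMono_nat_of_lt_succ fun n => (K1 _ _ _).trans (K1 _ _ _)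
  obtain ⟨a, ha⟩ := cauchySeq_tendsto_of_complete (cauchySeq_of_le_geometric_two
    (f := fun n => (t n).1) fun n => K2 _ n (t n).2.2 _ (by
      convert h.step hs (K1 ((t n).1 - s (K (t n).1 n (t n).2.2)) (n + 1) _).le using 1
      simp only [t]; abel))
  obtain ⟨b, hb⟩ := cauchySeq_tendsto_of_complete (cauchySeq_of_le_geometric_two
    (f := fun n => (t n).2.1) fun n => h2 n _ (by
      convert neg_mem (h.step hs (K1 (t n).1 n (t n).2.2).le) using 1
      rw [← h1 n]; simp only [t]; abel))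
  refine ⟨a - b, fun k => ((U k).isClosed_of_isOpen (h.op k)).mem_of_tendsto
    ((ha.sub hb).sub_const (s k)) ((eventually_ge_atTop k).mono fun n hn => ?_)⟩
  rw [h1]
  exact h.step hs (hn.trans (mono.id_le n))

theorem Chain.countable [IsTopologicalAddGroup G] [PolishSpace G] {U : ℕ → AddSubgroup G}
    (h : Chain U) (k : ℕ) : Countable (G ⧸ U k) := by
  haveI := QuotientAddGroup.discreteTopology (h.op k)
  exact countable_of_Lindelof_of_discrete

theorem wild [IsTopologicalAddGroup G] [PolishSpace G] {U : ℕ → AddSubgroup G} (h : Chain U)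
    {κ : Type} [Countable κ] (b : κ → ℕ) (S T : Prop → κ → Set G)
    (act : (List ℕ → Bool) → κ → Prop) (ma : ∀ j, Measurable fun τ => act τ j)
    (h0 : ∀ P j, ∀ u ∈ U (b j), u ∈ S P j) (h1 : ∀ P j, ∀ g ∈ T P j, ∀ g', g' ∈ T P j ↔ g' - g ∈ S P j)
    (h2 : ∀ τ, (∃ g, ∀ j, g ∈ T (act τ j) j) ↔ τ ∈ IF) : ¬ IsTame G := by
  classical
  intro ht
  haveI := fun k => QuotientAddGroup.discreteTopology (h.op k)
  haveI := h.countable
  let X := (Σ j : κ, G ⧸ U (b j)) → Bool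
  letI : AddAction G X :=
    { vadd := fun g f ω => f ⟨ω.1, ω.2 - (g : G ⧸ U (b ω.1))⟩
      zero_vadd := fun f => funext fun ω => congrArg (fun q => f ⟨ω.1, q⟩) (sub_zero _)
      add_vadd := fun g g' f => funext fun ω => congrArg (fun q => f ⟨ω.1, q⟩)
        (by rw [QuotientAddGroup.mk_add, sub_add_eq_sub_sub]) }
  haveI : ContinuousVAdd G X := ⟨continuous_pi fun ω =>
    (continuous_prod_of_discrete_left.2 fun q => continuous_apply (⟨ω.1, q⟩ : Σ j, G ⧸ U (b j)) :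
      Continuous fun p : (G ⧸ U (b ω.1)) × X => p.2 ⟨ω.1, p.1⟩).comp
      ((continuous_const.sub (QuotientAddGroup.continuous_mk.comp continuous_fst)).prodMk continuous_snd)⟩
  have := ht X
  rw [← BorelSpace.measurable_eq (α := X × X)] at this
  let φ : (Prop → κ → Set G) → (List ℕ → Bool) → X := fun R τ ω =>
    decide (∃ g : G, (g : G ⧸ U (b ω.1)) = ω.2 ∧ g ∈ R (act τ ω.1) ω.1)
  have mφ : ∀ R, Measurable (φ R) := fun R => measurable_pi_lambda _ fun ω =>
    (measurable_of_countable fun P : Prop =>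
      decide (∃ g : G, (g : G ⧸ U (b ω.1)) = ω.2 ∧ g ∈ R P ω.1)).comp (ma ω.1)
  refine not_measurableSet_IF ?_
  convert ((mφ S).prodMk (mφ T)) this
  ext τ
  rw [← h2]
  refine exists_congr fun g => ⟨fun k => funext fun ⟨j, q⟩ => decide_eq_decide.2 ⟨?_, ?_⟩,
    fun k j => ?_⟩
  · rintro ⟨s, e, hs⟩
    exact ⟨s + g, by rw [QuotientAddGroup.mk_add, e, sub_add_cancel],
      (h1 _ _ g (k j) _).2 (by rwa [add_sub_cancel_right])⟩
  · rintro ⟨s, e, hs⟩
    exact ⟨s - g, by rw [QuotientAddGroup.mk_sub, e], (h1 _ _ g (k j) _).1 hs⟩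
  · obtain ⟨s, e, hs⟩ := (decide_eq_decide.1 (congrFun k ⟨j, g⟩)).1
      ⟨0, (sub_self _).symm, h0 _ _ 0 (zero_mem _)⟩
    exact (h1 _ _ s hs g).2 (h0 _ _ _ (QuotientAddGroup.eq_iff_sub_mem.1 e.symm))

theorem frame [IsTopologicalAddGroup G] [PolishSpace G] {U : ℕ → AddSubgroup G} (h : Chain U)
    {I κ : Type} [Countable κ] (l : I → ℕ) (x : I → G) (hx : ∀ i, x i ∈ U (l i)) (J : ℤ)
    (fr : ∀ k (a : I →₀ ℤ), (∀ i, a i ≠ 0 → l i < k) → Finsupp.linearCombination ℤ x a ∈ U k →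
      ∀ i, J ∣ a i)
    (b : κ → ℕ) (L : κ → (I →₀ ℤ) → ℤ) (hL : ∀ j a a', L j (a - a') = L j a - L j a')
    (c m : κ → ℤ) (act : (List ℕ → Bool) → κ → Prop) (ma : ∀ j, Measurable fun τ => act τ j)
    (hA : ∀ τ ∈ IF, ∃ α : I → ℤ, (∀ k, {i | l i < k ∧ α i ≠ 0}.Finite) ∧ ∀ j, act τ j →
      ∀ a : I →₀ ℤ, (∀ i, l i < b j → a i = α i) → m j ∣ L j a - c j)
    (hB : ∀ τ (a : κ → I →₀ ℤ), (∀ j j' i, l i < b j → l i < b j' → J ∣ a j i - a j' i) →
      (∀ j, act τ j → m j ∣ L j (a j) - c j) → τ ∈ IF) : ¬ IsTame G := by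
  classical
  have L0 : ∀ j, L j 0 = 0 := fun j => by simpa using hL j 0 0
  have hi : ∀ k (a : I →₀ ℤ), (∀ i, a i ≠ 0 → k ≤ l i) → Finsupp.linearCombination ℤ x a ∈ U k :=
    fun k a ha => sum_mem fun i hi => zsmul_mem (h.anti (ha i (Finsupp.mem_support_iff.1 hi)) (hx i)) _
  have ne : ∀ (a a' : I →₀ ℤ) i, (a - a') i ≠ 0 → a i ≠ 0 ∨ a' i ≠ 0 := fun a a' i q => by
    by_contra! c; simp [c.1, c.2] at q
  refine wild h b (fun P j => {g | ∃ a : I →₀ ℤ, (∀ i, a i ≠ 0 → l i < b j) ∧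
    g - Finsupp.linearCombination ℤ x a ∈ U (b j) ∧ (P → m j ∣ L j a)})
    (fun P j => {g | ∃ a : I →₀ ℤ, (∀ i, a i ≠ 0 → l i < b j) ∧
    g - Finsupp.linearCombination ℤ x a ∈ U (b j) ∧ (P → m j ∣ L j a - c j)}) act ma
    (fun P j u hu => ⟨0, by simp, by simpa using hu, by simp [L0]⟩) ?_ fun τ => ⟨?_, fun q => ?_⟩
  · rintro P j g ⟨a, a1, a2, a3⟩ g'
    refine ⟨fun ⟨a', b1, b2, b3⟩ => ⟨a' - a, fun i q => (ne _ _ i q).elim (b1 i) (a1 i), ?_,
      fun q => ?_⟩, fun ⟨a', b1, b2, b3⟩ => ⟨a - (0 - a'), fun i q => (ne _ _ i q).elim (a1 i)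
        fun q => b1 i (by simpa using q), ?_, fun q => ?_⟩⟩
    · convert sub_mem b2 a2 using 1
      rw [map_sub]; abel
    · rw [hL, ← sub_sub_sub_cancel_right _ _ (c j)]
      exact dvd_sub (b3 q) (a3 q)
    · convert add_mem b2 a2 using 1
      rw [map_sub, map_sub, map_zero]; abel
    · rw [hL, hL, L0, show L j a - (0 - L j a') - c j = L j a' + (L j a - c j) by abel]
      exact dvd_add (b3 q) (a3 q)
  · rintro ⟨g, hg⟩
    choose a a1 a2 a3 using hg
    refine hB τ a (fun j j' i p q => ?_) a3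
    have := fr (min (b j) (b j')) ((a j - a j').filter fun i => l i < min (b j) (b j'))
      (fun i q => by_contra fun c => q (Finsupp.filter_apply_neg _ _ c)) ?_ i
    · rwa [Finsupp.filter_apply, if_pos (lt_min p q)] at this
    have e := Finsupp.filter_pos_add_filter_neg (a j - a j') fun i => l i < min (b j) (b j')
    rw [eq_sub_of_add_eq e, map_sub]
    refine sub_mem ?_ (hi _ _ fun i q => not_lt.1 fun c => q (Finsupp.filter_apply_neg _ _
      (not_not.2 c)))
    convert sub_mem (h.anti (min_le_right _ _) (a2 j')) (h.anti (min_le_left _ _) (a2 j)) using 1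
    rw [map_sub]; abel
  · obtain ⟨α, h1, h2⟩ := hA τ q
    let a : ℕ → I →₀ ℤ := fun k => Finsupp.ofSupportFinite (fun i => if l i < k then α i else 0)
      ((h1 k).subset fun i hi => by simpa using hi)
    have ha : ∀ k i, a k i = if l i < k then α i else 0 := fun _ _ => rfl
    obtain ⟨g, hg⟩ := h.complete (s := fun k => Finsupp.linearCombination ℤ x (a k)) fun k => by
      rw [← map_sub]
      refine hi _ _ fun i q => not_lt.1 fun c => q ?_
      rw [Finsupp.sub_apply, ha, ha, if_pos c, if_pos (c.trans k.lt_succ_self), sub_self]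
    exact ⟨g, fun j => ⟨a (b j), fun i q => by_contra fun c => q (if_neg c), hg _,
      fun q => h2 j q _ fun i hi => if_pos hi⟩⟩

end Pool.Agent.H34.Tame
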