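import Pool.Agent.H34.TameA

namespace Pool.Agent.H34.Tame
open Set Filter Topology Pool.Agent.H39.NonBorel

variable {G : Type} [AddCommGroup G] [TopologicalSpace G] [IsTopologicalAddGroup G] [PolishSpace G]

theorem digits {q u : ℤ} (h : IsCoprime q u) (s : ℕ) (v : ℤ) : ∃ z : ℕ → ℤ, (∀ k, u ∣ z k) ∧
    (q ^ s ∣ v → (∀ k < s, z k = 0) ∧ ∀ n, q ^ (n + 1) ∣ v - ∑ k ∈ Finset.range (n + 1), q ^ k * z k) := by
  classical
  obtain ⟨a, b, e⟩ := h
  let f : ℕ → ℤ → ℤ := fun n R => if q ^ (n + 1) ∣ R then 0 else u * (b * (R / q ^ n))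
  let R : ℕ → ℤ := fun n => n.rec v fun n R => R - q ^ n * f n R
  have hR : ∀ n : ℕ, R (n + 1) = R n - q ^ n * f n (R n) := fun _ => rfl
  have h1 : ∀ n, q ^ n ∣ R n := fun n => by
    induction n with
    | zero => simp
    | succ n ih =>
      rw [hR]
      dsimp only [f]
      split_ifs with c
      · simpa using c
      · obtain ⟨t, ht⟩ := ih
        have q0 : q ^ n ≠ 0 := fun z => c (by rw [ht, z, zero_mul]; exact dvd_zero _)
        rw [ht, Int.mul_ediv_cancel_left _ q0]
        exact ⟨a * t, by linear_combination (-(q ^ n * t)) * e⟩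
  have h2 : ∀ n, R n = v - ∑ k ∈ Finset.range n, q ^ k * f k (R k) := fun n => by
    induction n with
    | zero => simp [R]
    | succ n ih => rw [Finset.sum_range_succ, ← sub_sub, ← ih]
  refine ⟨fun k => f k (R k), fun k => ?_, fun hv => ⟨fun k hk => ?_, fun n => h2 _ ▸ h1 _⟩⟩
  · change u ∣ f k (R k)
    generalize R k = w
    dsimp only [f]
    split_ifs <;> simp
  · have : ∀ k ≤ s, R k = v := fun k hk => by
      induction k with
      | zero => rfl
      | succ k ih =>
        rw [hR, ih (by omega), show f k v = 0 from if_pos ((pow_dvd_pow q hk).trans hv), mul_zero, sub_zero]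
    exact if_pos (this k hk.le ▸ (pow_dvd_pow q hk).trans hv)

theorem wild_int {U : ℕ → AddSubgroup G} (h : Chain U) (g : ℕ → G) (hg : ∀ k, g k ∈ U k)
    (fr : ∀ k (t : ℤ), t • g k ∈ U (k + 1) → t = 0) : ¬ IsTame G := by
  classical
  let q : ℕ → ℤ := fun n => if Even n then 3 else 2
  have q1 : ∀ n, IsCoprime (q n) (q (n + 1)) := fun n => by
    simp only [q, Nat.even_add_one]
    split_ifs
    exacts [⟨1, -1, by norm_num⟩, ⟨-1, 1, by norm_num⟩]
  have q2 : ∀ n, 1 < (q n).natAbs := fun n => by simp only [q]; split_ifs <;> norm_num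
  let e : List (ℕ × ℕ) → ℕ := Encodable.encode
  let ch : List (ℕ × ℕ) → ℕ → ℕ := fun σ n =>
    ∑ k' ∈ Finset.range (n + 1), ∑ k ∈ Finset.range (k' + 1), e ((k, k') :: σ)
  have hc : ∀ σ n k k', k' ∈ Finset.range (n + 1) → k ∈ Finset.range (k' + 1) →
      e ((k, k') :: σ) ≤ ch σ n := fun σ n k k' a b =>
    (Finset.single_le_sum (f := fun k => e ((k, k') :: σ)) (fun _ _ => Nat.zero_le _) b).trans
      (Finset.single_le_sum (f := fun k' => ∑ k ∈ Finset.range (k' + 1), e ((k, k') :: σ))
        (fun _ _ => Nat.zero_le _) a)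
  refine frame h (κ := Option (List (ℕ × ℕ) × Option ℕ)) e (fun i => g (e i)) (fun i => hg _) 0 ?_
    (fun j => j.elim (e [] + 1) fun p => p.2.elim (e p.1 + 1) fun n => e p.1 + ch p.1 n + 1)
    (fun j a => j.elim (a []) fun p => p.2.elim (a p.1) fun n => a p.1 -
      ∑ k' ∈ Finset.range (n + 1), q p.1.length ^ k' * ∑ k ∈ Finset.range (k' + 1), a ((k, k') :: p.1))
    ?_ (fun j => j.elim 1 fun _ => 0)
    (fun j => j.elim 2 fun p => p.2.elim 0 fun n => q p.1.length ^ (n + 1))
    (fun τ j => j.elim True fun p => p.2.elim (τ (p.1.map Prod.fst) = false) fun _ => True) ?_ ?_ ?_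
  · intro k a h1 h2
    by_contra! c
    obtain ⟨i, i1, i2⟩ := a.support.exists_min_image e
      (c.imp fun i hi => Finsupp.mem_support_iff.2 (by simpa using hi))
    refine Finsupp.mem_support_iff.1 i1 (fr (e i) _ ?_)
    have := h.anti (h1 i (Finsupp.mem_support_iff.1 i1)) h2
    rw [Finsupp.linearCombination_apply, Finsupp.sum, ← Finset.add_sum_erase _ _ i1] at this
    refine (AddSubgroup.add_mem_cancel_right _ (sum_mem fun j hj => zsmul_mem (h.anti ?_ (hg _)) _)).1
      this
    exact (i2 j (Finset.mem_of_mem_erase hj)).lt_of_ne fun q =>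
      (Finset.ne_of_mem_erase hj).symm (Encodable.encode_injective q)
  · rintro (_ | ⟨σ, _ | n⟩) a a'
    exacts [rfl, rfl, by simp [Finset.sum_sub_distrib, mul_sub]; abel]
  · rintro (_ | ⟨σ, _ | n⟩)
    exacts [measurable_const, (measurable_of_countable fun b : Bool => b = false).comp
      (measurable_pi_apply _), measurable_const]
  · rintro τ ⟨y, hy⟩
    choose z z1 z2 using fun n => digits ((q1 n).pow_right (n := y (n + 1))) (y n)
    let α : List (ℕ × ℕ) → ℤ := fun σ => σ.rec (q 0 ^ y 0) fun p σ v =>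
      if (p :: σ).map Prod.fst = res y (σ.length + 1) then z σ.length v p.2 else 0
    have a0 : ∀ p σ, α (p :: σ) = if (p :: σ).map Prod.fst = res y (σ.length + 1) then
      z σ.length (α σ) p.2 else 0 := fun _ _ => rfl
    have a1 : ∀ σ, q σ.length ^ y σ.length ∣ α σ := by
      rintro (_ | ⟨p, σ⟩)
      · exact dvd_rfl
      · rw [a0]
        split_ifs
        exacts [z1 _ _ _, dvd_zero _]
    have a2 : ∀ σ, σ.map Prod.fst ≠ res y σ.length → α σ = 0 := by
      rintro (_ | ⟨p, σ⟩) c
      exacts [absurd rfl c, if_neg c]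
    refine ⟨α, fun k => ((finite_lt_nat k).preimage Encodable.encode_injective.injOn).subset
      fun i hi => hi.1, ?_⟩
    rintro (_ | ⟨σ, _ | n⟩) ac a ha
    · change 2 ∣ a [] - 1
      rw [ha _ (Nat.lt_succ_self _)]
      change (2 : ℤ) ∣ 3 ^ y 0 - 1
      simpa using sub_dvd_pow_sub_pow (3 : ℤ) 1 (y 0)
    · change 0 ∣ a σ - 0
      rw [ha _ (Nat.lt_succ_self _), a2 σ fun c => by simp [c, hy] at ac]
      simp
    · change _ ∣ a σ - _ - 0
      rw [ha σ (by simp only [Option.elim]; omega), sub_zero, Finset.sum_congr rfl fun k' h1 => by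
        rw [Finset.sum_congr rfl fun k h2 => ha _ (by
          have := hc σ n k k' h1 h2; simp only [Option.elim]; omega)]]
      by_cases c : σ.map Prod.fst = res y σ.length
      · refine ((z2 _ _ (a1 σ)).2 n).trans (dvd_of_eq (congrArg _
          (Finset.sum_congr rfl fun k' h1 => congrArg _ (Eq.symm ?_))))
        simp only [a0, List.map_cons, res_succ, c, List.cons.injEq, and_true, Finset.sum_ite_eq',
          Finset.mem_range]
        split_ifs with d
        exacts [rfl, ((z2 _ _ (a1 σ)).1 k' (by omega)).symm]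
      · simp [a2 σ c, a0, c]
  · intro τ a h1 h2
    have k : ∀ j σ, e σ < (j.elim (e [] + 1) fun p => p.2.elim (e p.1 + 1)
        fun n => e p.1 + ch p.1 n + 1) → a j σ = a (some (σ, none)) σ := fun j σ c =>
      sub_eq_zero.1 (zero_dvd_iff.1 (h1 j (some (σ, none)) σ c (Nat.lt_succ_self _)))
    obtain ⟨y, hy⟩ := exists_branch (P := fun s => ∃ σ : List (ℕ × ℕ), σ.map Prod.fst = s ∧
      a (some (σ, none)) σ ≠ 0) ⟨[], rfl, fun c => by
        have : (2 : ℤ) ∣ a none [] - 1 := h2 none trivial
        rw [k none [] (Nat.lt_succ_self _), c] at this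
        norm_num at this⟩ (by
      rintro _ ⟨σ, rfl, hσ⟩
      by_contra! c
      have : ∀ n, q σ.length ^ (n + 1) ∣ a (some (σ, none)) σ := fun n => by
        have : _ ∣ a _ σ - _ - 0 := h2 (some (σ, some n)) trivial
        rwa [k _ σ (by simp only [Option.elim]; omega), Finset.sum_eq_zero fun k' h1 => by
          rw [Finset.sum_eq_zero fun k0 h2 => (k _ _ (by
            have := hc σ n k0 k' h1 h2; simp only [Option.elim]; omega)).trans
              (c k0 ((k0, k') :: σ) rfl), mul_zero], sub_zero, sub_zero] at this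
      refine hσ (Int.eq_zero_of_dvd_of_natAbs_lt_natAbs (this (a (some (σ, none)) σ).natAbs) ?_)
      rw [Int.natAbs_pow]
      exact (Nat.lt_succ_self _).trans (Nat.lt_pow_self (q2 _)))
    refine ⟨y, fun n => by_contra fun c => ?_⟩
    obtain ⟨σ, s1, s2⟩ := hy n
    exact s2 (by simpa using h2 (some (σ, none)) (by simpa [s1] using c))

theorem wild_p {U : ℕ → AddSubgroup G} (h : Chain U) {p : ℤ} (hp : ¬ p ∣ 1) (x : List ℕ → G)
    (hx : ∀ i, x i ∈ U i.length) (fr : ∀ k (a : List ℕ →₀ ℤ), (∀ i, a i ≠ 0 → i.length < k) →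
      Finsupp.linearCombination ℤ x a ∈ U k → ∀ i, p ∣ a i) : ¬ IsTame G := by
  classical
  have fs : ∀ (a : List ℕ →₀ ℤ) σ, (Function.support fun k => a (k :: σ)).Finite := fun a σ =>
    (a.finite_support.preimage (f := fun k => k :: σ) fun _ _ _ _ e => (List.cons.inj e).1)
  refine frame h (κ := Option (List ℕ × Bool)) List.length x hx p fr
    (fun j => j.elim 1 fun s => s.1.length + 2)
    (fun j a => j.elim (a []) fun s => cond s.2 (a s.1) (a s.1 - ∑ᶠ k, a (k :: s.1)))
    ?_ (fun j => j.elim 1 fun _ => 0) (fun _ => p)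
    (fun τ j => j.elim True fun s => cond s.2 (τ s.1 = false) True) ?_ ?_ ?_
  · rintro (_ | ⟨σ, _ | _⟩) a a'
    · rfl
    · simp only [Option.elim, cond, Finsupp.sub_apply, finsum_sub_distrib (fs a σ) (fs a' σ)]
      abel
    · rfl
  · rintro (_ | ⟨σ, _ | _⟩)
    exacts [measurable_const, measurable_const, (measurable_of_countable fun b : Bool =>
      b = false).comp (measurable_pi_apply _)]
  · rintro τ ⟨y, hy⟩
    refine ⟨fun σ => if σ = res y σ.length then 1 else 0, fun k => ((finite_lt_nat k).image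
      (res y)).subset fun i hi => ⟨_, hi.1, (by simpa using hi.2 : i = _).symm⟩, ?_⟩
    rintro (_ | ⟨σ, _ | _⟩) ac a ha
    · simp [ha [] one_pos]
    · change _ ∣ a σ - _ - 0
      rw [ha σ (by simp), finsum_congr fun k => ha (k :: σ) (by simp),
        finsum_eq_single _ (y σ.length) fun k hk => by simp [hk]]
      simp
    · change _ ∣ a σ - 0
      have c : σ ≠ res y σ.length := fun c => by rw [c] at ac; simp [hy] at ac
      simp [ha σ (by simp), c]
  · intro τ a h1 h2
    obtain ⟨y, hy⟩ := exists_branch (P := fun σ => ¬ p ∣ a (some (σ, true)) σ) (fun c => hp (by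
      have h3 : p ∣ a none [] - 1 := h2 none trivial
      simpa using dvd_sub (dvd_add (h1 none (some ([], true)) [] one_pos two_pos) c) h3)) (by
      intro σ hσ
      by_contra! c
      have h3 : p ∣ a _ σ - _ - 0 := h2 (some (σ, false)) trivial
      have h4 : p ∣ ∑ᶠ k, a (some (σ, false)) (k :: σ) :=
        finsum_induction _ (dvd_zero p) (fun _ _ => dvd_add) fun k => by
          simpa using dvd_add (h1 (some (σ, false)) (some (k :: σ, true)) (k :: σ)
            (by simp) (by simp)) (c k)
      exact hσ (by simpa using dvd_add (dvd_add (h1 (some (σ, true)) (some (σ, false)) σ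
        (by simp) (by simp)) h3) h4))
    exact ⟨y, fun n => by_contra fun c => hy n
      (by simpa using h2 (some (res y n, true)) (by simpa using c))⟩

end Pool.Agent.H34.Tame
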