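import Pool.Agent.H34.TameS

namespace Pool.Agent.H34.Tame
open Set Filter Topology

theorem prim (N t : ℤ) (ht : t ≠ 0) : ∃ (a : ℕ) (s : ℤ), IsCoprime s N ∧ t ∣ N ^ a * s := by
  induction t using UniqueFactorizationMonoid.induction_on_prime with
  | h₁ => exact absurd rfl ht
  | h₂ x hx => exact ⟨0, 1, isCoprime_one_left, hx.dvd⟩
  | h₃ t p t0 hp ih =>
    obtain ⟨a, s, h1, h2⟩ := ih t0
    by_cases c : p ∣ N
    · exact ⟨a + 1, s, h1, by rw [pow_succ', mul_assoc]; exact mul_dvd_mul c h2⟩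
    · exact ⟨a, p * s, ((hp.irreducible.coprime_iff_not_dvd).2 c).mul_left h1,
        by rw [mul_left_comm]; exact mul_dvd_mul_left p h2⟩

theorem dcc {Q : Type} [AddCommGroup Q] (B : ℕ → AddSubgroup Q) (hB : Antitone B) (N : ℤ)
    (fin : {x | N • x = 0 ∧ x ∈ B 0}.Finite) :
    ∃ J, ∀ j (a : ℕ), ∀ x ∈ B J, N ^ a • x = 0 → x ∈ B j := by
  classical
  have : ∀ x : Q, ∃ J, ∀ j (r : ℕ), (∃ y ∈ B J, N ^ r • y = x) → ∃ y ∈ B j, N ^ r • y = x := by
    intro x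
    by_cases c : ∃ r : ℕ, ∃ j, ¬ ∃ y ∈ B j, N ^ r • y = x
    · obtain ⟨J, hJ⟩ := Nat.find_spec c
      refine ⟨J, fun j r ⟨y, hy, e⟩ => by_contra fun q => ?_⟩
      obtain ⟨d, rfl⟩ := Nat.exists_eq_add_of_le (Nat.find_min' c ⟨j, q⟩)
      exact hJ ⟨N ^ d • y, zsmul_mem hy _, by rw [← mul_smul, ← pow_add, e]⟩
    · exact ⟨0, fun j r _ => by_contra fun q => c ⟨r, j, q⟩⟩
  choose J hJ using this
  obtain ⟨K, hK⟩ := (fin.image J).bddAbove
  refine ⟨K, fun j a => ?_⟩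
  wlog e : K ≤ j generalizing j
  · exact fun x hx _ => hB (not_le.1 e).le hx
  induction a with
  | zero => exact fun x _ q => by rw [pow_zero, one_smul] at q; exact q ▸ zero_mem _
  | succ a ih =>
    intro x hx q
    obtain ⟨y, hy, e'⟩ := hJ (N ^ a • x) j a ⟨x, hB (hK ⟨_, ⟨by rw [← mul_smul, ← pow_succ', q],
      zsmul_mem (hB K.zero_le hx) _⟩, rfl⟩) hx, rfl⟩
    simpa using add_mem (ih (x - y) (sub_mem hx (hB e hy)) (by rw [smul_sub, e', sub_self])) hy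

variable {G : Type} [AddCommGroup G]

theorem proj {A B : AddSubgroup G} {g h : G} {t N : ℤ} {a : ℕ} (t0 : t ≠ 0) (ht : t • h ∈ B)
    (hg : N ^ a • g ∈ A) (e : h - g ∈ A) : ∃ (c : ℤ) (b : ℕ), N ^ b • c • h ∈ B ∧ c • h - g ∈ A := by
  obtain ⟨b, s, h1, d, h2⟩ := prim N t t0
  obtain ⟨u, v, e'⟩ := h1.pow_right (n := a)
  refine ⟨u * s, b, ?_, ?_⟩
  · rw [← mul_smul, mul_left_comm, h2, mul_left_comm, mul_comm, mul_smul]
    exact zsmul_mem ht _
  · convert sub_mem (zsmul_mem e (u * s)) (zsmul_mem hg v) using 1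
    rw [← mul_smul, eq_sub_of_add_eq' e']
    module

/-- Elements that survive at level `k`. -/
def der (U : ℕ → AddSubgroup G) (T : ℕ → Set G) (k : ℕ) : Set G := {g | ∀ j, ∃ t ∈ T j, t - g ∈ U k}

/-- The same for subgroups. -/
def derS (U S : ℕ → AddSubgroup G) (k : ℕ) : AddSubgroup G where
  carrier := der U (fun j => S j) k
  zero_mem' := fun j => ⟨0, zero_mem _, by simp⟩
  add_mem' := fun {a b} p q j => by
    obtain ⟨s, s1, s2⟩ := p j
    obtain ⟨t, t1, t2⟩ := q j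
    exact ⟨s + t, add_mem s1 t1, by rw [add_sub_add_comm]; exact add_mem s2 t2⟩
  neg_mem' := fun {a} p j => by
    obtain ⟨s, s1, s2⟩ := p j
    exact ⟨-s, neg_mem s1, by rw [← neg_sub']; exact neg_mem s2⟩

/-- `T` is empty or a coset of `S`. -/
def Cos (T : Set G) (S : AddSubgroup G) : Prop := ∀ t ∈ T, ∀ g, g ∈ T ↔ g - t ∈ S

theorem Cos.der {U S : ℕ → AddSubgroup G} {T : ℕ → Set G} (h : ∀ j, Cos (T j) (S j)) (k : ℕ) :
    Cos (der U T k) (derS U S k) := by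
  refine fun t ht g => forall_congr' fun j => ?_
  obtain ⟨s, s1, s2⟩ := ht j
  refine ⟨fun ⟨u, u1, u2⟩ => ⟨u - s, (h j s s1 u).1 u1, ?_⟩,
    fun ⟨u, u1, u2⟩ => ⟨u + s, (h j s s1 _).2 (by rwa [add_sub_cancel_right]), ?_⟩⟩
  · rw [sub_sub_sub_comm]; exact sub_mem u2 s2
  · convert add_mem u2 s2 using 1; abel

theorem der_anti {U : ℕ → AddSubgroup G} (h : Antitone U) (T : ℕ → Set G) : Antitone (der U T) :=
  fun _ _ e _ q j => (q j).imp fun _ r => ⟨r.1, h e r.2⟩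

theorem lift {U S : ℕ → AddSubgroup G} (hS : Antitone S) {k : ℕ} {N : ℤ}
    (tor : ∀ g ∈ S 0, ∃ t : ℤ, t ≠ 0 ∧ t • g ∈ U (k + 1)) (fin : (soc N (U k) (U (k + 1))).Finite)
    {h : G} {a : ℕ} (h1 : h ∈ derS U S k) (h2 : N ^ a • h ∈ U k) :
    ∃ (g : G) (b : ℕ), g ∈ derS U S (k + 1) ∧ N ^ b • g ∈ U (k + 1) ∧ g - h ∈ U k := by
  have : ∀ j, ∃ (s : G) (b : ℕ), s ∈ S j ∧ N ^ b • s ∈ U (k + 1) ∧ s - h ∈ U k := fun j => by
    obtain ⟨s, s1, s2⟩ := h1 j
    obtain ⟨t, t0, ht⟩ := tor s (hS j.zero_le s1)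
    obtain ⟨c, b, p, q⟩ := proj t0 ht h2 s2
    exact ⟨c • s, b, zsmul_mem s1 c, p, q⟩
  choose s b s1 s2 s3 using this
  obtain ⟨J, hJ⟩ := dcc (fun j => (S j ⊓ U k).map (QuotientAddGroup.mk' (U (k + 1))))
    (fun i j e => AddSubgroup.map_mono (inf_le_inf_right _ (hS e))) N
    (fin.subset (by rintro _ ⟨q, u, hu, rfl⟩; exact ⟨q, u, hu.2, rfl⟩))
  refine ⟨s J, b J, fun j => ?_, s2 J, s3 J⟩
  wlog e : J ≤ j generalizing j
  · exact ⟨s J, hS (not_le.1 e).le (s1 J), by simp⟩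
  obtain ⟨u, hu, e'⟩ := hJ j (b J + b j) _ ⟨s J - s j, ⟨(S J).sub_mem (s1 J) (hS e (s1 j)),
    by simpa using sub_mem (s3 J) (s3 j)⟩, rfl⟩ (by
      rw [← map_zsmul]
      refine (QuotientAddGroup.eq_zero_iff _).2 ?_
      convert sub_mem (zsmul_mem (s2 J) (N ^ b j)) (zsmul_mem (s2 j) (N ^ b J)) using 1
      module)
  refine ⟨u + s j, add_mem hu.1 (s1 j), ?_⟩
  convert QuotientAddGroup.eq_iff_sub_mem.1 e' using 1
  abel

theorem star {U S : ℕ → AddSubgroup G} (hU : Antitone U) (hS : Antitone S) (h0 : S 0 ≤ U 0)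
    (tor : ∀ g ∈ U 0, ∀ m, ∃ t : ℤ, t ≠ 0 ∧ t • g ∈ U m)
    (fin : ∀ N : ℤ, N ≠ 0 → ∃ k0, ∀ k, k0 ≤ k → (soc N (U k) (U (k + 1))).Finite) (m : ℕ) {g : G}
    (hg : g ∈ derS U (derS U S) m) : ∃ h ∈ derS U (derS U S) (m + 1), h - g ∈ U m := by
  have l0 : ∀ k, ∀ h ∈ derS U S k, h ∈ U 0 := fun k h q => by
    obtain ⟨s, s1, s2⟩ := q 0
    simpa using sub_mem (h0 s1) (hU k.zero_le s2)
  obtain ⟨N, N0, hN⟩ := tor g (by
    obtain ⟨s, s1, s2⟩ := hg 0
    simpa using sub_mem (l0 _ s s1) (hU m.zero_le s2)) m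
  obtain ⟨k, hk⟩ := fin N N0
  obtain ⟨h, h1, h2⟩ := hg (k + m + 1)
  obtain ⟨t, t0, ht⟩ := tor h (l0 _ h h1) (k + m + 1)
  obtain ⟨c, b, p, q⟩ := proj (a := 1) t0 ht (by rwa [pow_one]) h2
  have : ∀ i, k + m + 1 ≤ i → ∃ (u : G) (a : ℕ), u ∈ derS U S i ∧ N ^ a • u ∈ U i ∧
      u - c • h ∈ U (m + 1) := fun i e => by
    induction i, e using Nat.le_induction with
    | base => exact ⟨_, b, zsmul_mem h1 c, p, by simp⟩
    | succ i e ih =>
      obtain ⟨u, a, u1, u2, u3⟩ := ih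
      obtain ⟨v, d, v1, v2, v3⟩ := lift hS (fun g q => tor g (h0 q) _) (hk i (by omega)) u1 u2
      exact ⟨v, d, v1, v2, by simpa using add_mem (hU (by omega : m + 1 ≤ i) v3) u3⟩
  refine ⟨c • h, fun i => ?_, q⟩
  obtain ⟨u, -, u1, -, u3⟩ := this (k + m + 1 + i) (by omega)
  exact ⟨u, der_anti hU _ (by omega) u1, u3⟩

variable [TopologicalSpace G] [IsTopologicalAddGroup G] [PolishSpace G]

theorem branch {U S : ℕ → AddSubgroup G} (hU : Chain U) (hS : Antitone S) (h0 : S 0 ≤ U 0)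
    (tor : ∀ g ∈ U 0, ∀ m, ∃ t : ℤ, t ≠ 0 ∧ t • g ∈ U m)
    (fin : ∀ N : ℤ, N ≠ 0 → ∃ k0, ∀ k, k0 ≤ k → (soc N (U k) (U (k + 1))).Finite)
    {T : ℕ → Set G} (hT : ∀ j, Cos (T j) (S j)) (ne : ∀ m, ∃ g, g ∈ der U (der U T) m) :
    ∃ g, ∀ j, ∃ t ∈ T j, t - g ∈ U j := by
  have : ∀ m g, ∃ h, g ∈ der U (der U T) m → h ∈ der U (der U T) (m + 1) ∧ h - g ∈ U m := by
    intro m g
    by_cases q : g ∈ der U (der U T) m
    · obtain ⟨u, hu⟩ := ne (m + 1)
      obtain ⟨s, s1, s2⟩ := star hU.anti hS h0 tor fin m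
        ((Cos.der (Cos.der hT) m u (der_anti hU.anti _ m.le_succ hu) g).1 q)
      exact ⟨s + u, fun _ => ⟨(Cos.der (Cos.der hT) _ u hu _).2 (by rwa [add_sub_cancel_right]),
        by convert s2 using 1; abel⟩⟩
    · exact ⟨0, fun c => absurd c q⟩
  choose f hf using this
  obtain ⟨g, hg⟩ := ne 0
  let s : ℕ → G := fun n => n.rec g f
  have hs : ∀ n, s n ∈ der U (der U T) n := fun n => n.rec hg fun n q => (hf n _ q).1
  obtain ⟨a, ha⟩ := hU.complete (s := s) fun n => (hf n _ (hs n)).2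
  refine ⟨a, fun j => ?_⟩
  obtain ⟨h, h1, h2⟩ := hs j j
  obtain ⟨t, t1, t2⟩ := h1 j
  exact ⟨t, t1, by simpa using sub_mem (add_mem t2 h2) (ha j)⟩

theorem tame_of {U : ℕ → AddSubgroup G} (hU : Chain U)
    (tor : ∀ g ∈ U 0, ∀ m, ∃ t : ℤ, t ≠ 0 ∧ t • g ∈ U m)
    (fin : ∀ N : ℤ, N ≠ 0 → ∃ k0, ∀ k, k0 ≤ k → (soc N (U k) (U (k + 1))).Finite) : IsTame G := by
  intro X _ _ _ _
  letI : MeasurableSpace (X × X) := borel _
  haveI : BorelSpace (X × X) := ⟨rfl⟩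
  obtain ⟨d, hd⟩ := TopologicalSpace.exists_dense_seq G
  have dn : ∀ g n, ∃ i, d i - g ∈ U n := fun g n =>
    hd.exists_mem_open ((hU.op n).preimage (continuous_sub_right g)) ⟨g, by simp⟩
  let P : ℕ → Set X → Set X := fun j O => {x | ∃ u ∈ U j, u +ᵥ x ∈ O}
  let R : ℕ → X → X → Prop := fun j x y => ∀ O, IsOpen O → (x ∈ P j O ↔ y ∈ P j O)
  have diag : ∀ j (g : G) x y, R j x y → R j (g +ᵥ x) (g +ᵥ y) := fun j g x y q O hO => by
    simpa only [P, mem_setOf_eq, mem_preimage, vadd_comm g] using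
      q _ (hO.preimage (continuous_const_vadd g))
  have inv : ∀ j, ∀ u ∈ U j, ∀ x, R j (u +ᵥ x) x := fun j u hu x O _ =>
    ⟨fun ⟨v, hv, q⟩ => ⟨v + u, add_mem hv hu, by rwa [add_vadd]⟩,
      fun ⟨v, hv, q⟩ => ⟨v - u, sub_mem hv hu, by rwa [← add_vadd, sub_add_cancel]⟩⟩
  have mono : ∀ i j, i ≤ j → ∀ x y, R j x y → R i x y := fun i j e => by
    have : ∀ x y, R j x y → ∀ O, IsOpen O → x ∈ P i O → y ∈ P i O := fun x y q O hO ⟨u, hu, r⟩ => by
      obtain ⟨v, hv, r'⟩ := (q _ (hO.preimage (continuous_const_vadd u))).1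
        ⟨0, zero_mem _, by rwa [zero_vadd]⟩
      exact ⟨u + v, add_mem hu (hU.anti e hv), by rwa [add_vadd]⟩
    exact fun x y q O hO => ⟨this x y q O hO, this y x (fun O hO => (q O hO).symm) O hO⟩
  have mR : ∀ j (g : G), Measurable fun p : X × X => R j (g +ᵥ p.1) p.2 := fun j g => by
    have oP : ∀ O, IsOpen O → IsOpen (P j O) := fun O hO => by
      simp only [P, setOf_exists, ← exists_prop]
      exact isOpen_iUnion fun u => isOpen_iUnion fun _ => hO.preimage (continuous_const_vadd u)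
    have : ∀ x y, (∀ O : TopologicalSpace.countableBasis X, x ∈ P j O ↔ y ∈ P j O) →
        ∀ O, IsOpen O → x ∈ P j O → y ∈ P j O := fun x y q O hO ⟨u, hu, r⟩ => by
      obtain ⟨B, b1, b2, b3⟩ := (TopologicalSpace.isBasis_countableBasis X).exists_subset_of_mem_open r hO
      exact ((q ⟨B, b1⟩).1 ⟨u, hu, b2⟩).imp fun v r => ⟨r.1, b3 r.2⟩
    convert Measurable.forall fun O : TopologicalSpace.countableBasis X =>
      (measurableSet_setOf.1 ((oP O (TopologicalSpace.isOpen_of_mem_countableBasis O.2)).preimage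
        ((continuous_const_vadd g).comp continuous_fst)).measurableSet).iff
      (measurableSet_setOf.1 ((oP O (TopologicalSpace.isOpen_of_mem_countableBasis O.2)).preimage
        continuous_snd).measurableSet) using 2 with p
    exact ⟨fun q O => q O (TopologicalSpace.isOpen_of_mem_countableBasis O.2),
      fun q O hO => ⟨this _ _ q O hO, this _ _ (fun O => (q O).symm) O hO⟩⟩
  convert measurableSet_setOf.2 (Measurable.exists fun σ => Measurable.forall fun m =>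
    Measurable.exists fun g => Measurable.forall fun k => Measurable.exists fun h =>
    (Measurable.forall fun j => Measurable.exists fun t =>
      ((measurable_const (a := d t - d σ ∈ U 0)).and (mR j (d t))).and
      (measurable_const (a := d t - d h ∈ U k))).and (measurable_const (a := d h - d g ∈ U m)))
    using 3 with ⟨x, y⟩
  dsimp only
  refine ⟨?_, fun ⟨σ, q⟩ => ?_⟩
  · rintro ⟨g, rfl⟩
    choose i hi using dn g
    have e : ∀ a b c, c ≤ a → c ≤ b → d (i a) - d (i b) ∈ U c := fun a b c p q => by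
      simpa using sub_mem (hU.anti p (hi a)) (hU.anti q (hi b))
    refine ⟨i 0, fun m => ⟨i m, fun k => ⟨i (m + k), fun j => ⟨i (m + k + j),
      ⟨e _ _ _ (by omega) le_rfl, ?_⟩, e _ _ _ (by omega) (by omega)⟩, e _ _ _ (by omega) le_rfl⟩⟩⟩
    simpa only [← add_vadd, sub_add_cancel] using
      inv j _ (hU.anti (by omega : j ≤ m + k + j) (hi _)) (g +ᵥ x)
  let S : ℕ → AddSubgroup G := fun j =>
    { carrier := {s | s ∈ U 0 ∧ R j (s +ᵥ x) x}
      zero_mem' := ⟨zero_mem _, fun O _ => by rw [zero_vadd]⟩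
      add_mem' := fun {a b} p q => ⟨add_mem p.1 q.1, fun O hO =>
        add_vadd a b x ▸ (diag j a _ _ q.2 O hO).trans (p.2 O hO)⟩
      neg_mem' := fun {a} p => ⟨neg_mem p.1, fun O hO => by
        simpa only [neg_vadd_vadd] using (diag j (-a) _ _ p.2 O hO).symm⟩ }
  obtain ⟨g, hg⟩ := branch (S := S) (T := fun j => {t | t - d σ ∈ U 0 ∧ R j (t +ᵥ x) y}) hU
    (fun i j e s q => ⟨q.1, mono i j e _ _ q.2⟩) (fun s q => q.1) tor fin
    (fun j t p g => ⟨fun q => ⟨by simpa using sub_mem q.1 p.1, fun O hO => by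
      simpa only [← add_vadd, neg_add_eq_sub, sub_self, zero_vadd] using
        diag j (-t) _ _ (fun O hO => (q.2 O hO).trans (p.2 O hO).symm) O hO⟩,
      fun q => ⟨by simpa using add_mem q.1 p.1, fun O hO => by
        simpa only [← add_vadd, add_sub_cancel] using (diag j t _ _ q.2 O hO).trans (p.2 O hO)⟩⟩)
    fun m => by
      obtain ⟨g, hg⟩ := q m
      refine ⟨d g, fun k => ?_⟩
      obtain ⟨h, h1, h2⟩ := hg k
      exact ⟨d h, fun j => (h1 j).elim fun t r => ⟨d t, r⟩, h2⟩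
  refine ⟨g, by_contra fun c => ?_⟩
  obtain ⟨A, B, a1, b1, a2, b2, e⟩ := t2_separation c
  obtain ⟨j, hj⟩ := hU.base ((· +ᵥ g +ᵥ x) ⁻¹' A) ((continuous_id.vadd continuous_const).continuousAt.preimage_mem_nhds
    (by simpa using a1.mem_nhds a2))
  obtain ⟨t, t1, t2⟩ := hg j
  obtain ⟨u, u1, u2⟩ := (t1.2 B b1).2 ⟨0, zero_mem _, by rwa [zero_vadd]⟩
  refine disjoint_left.1 e (hj (add_mem u1 t2)) ?_
  simpa only [← add_vadd, add_assoc, sub_add_cancel] using u2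

end Pool.Agent.H34.Tame
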