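import Pool.Agent.H34.TameC

namespace Pool.Agent.H34.Tame
open Set Filter Topology

/-- The rationals times the rational circle. -/
abbrev B : Type := ℚ × AddCircle (1 : ℚ)

/-- Elements killed by an integer prime to `(n+1)!`. -/
def D (n : ℕ) : AddSubgroup B where
  carrier := {x | ∃ d : ℤ, IsCoprime d (n + 1).factorial ∧ d • x = 0}
  zero_mem' := ⟨1, isCoprime_one_left, smul_zero _⟩
  add_mem' := fun {a b} ⟨d, d1, d2⟩ ⟨e, e1, e2⟩ => ⟨d * e, d1.mul_left e1, by
    rw [smul_add, mul_smul d e b, e2, mul_comm, mul_smul, d2, smul_zero, smul_zero, add_zero]⟩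
  neg_mem' := fun {a} ⟨d, d1, d2⟩ => ⟨d, d1, by rw [smul_neg, d2, neg_zero]⟩

theorem retr (n : ℕ) : ∃ ρ : B →+ D n, ∀ x ∈ D n, (ρ x : B) = x := by
  letI : DivisibleBy (D n) ℤ := divisibleByOfSMulRightSurj _ _ fun {t} t0 ⟨x, d, d1, d2⟩ => by
    obtain ⟨a, s, s1, e, s2⟩ := prim (n + 1).factorial t t0
    obtain ⟨u, v, h⟩ := d1.pow_right (n := a)
    have hy := DivisibleBy.div_cancel x t0
    refine ⟨⟨(v * (n + 1).factorial ^ a : ℤ) • DivisibleBy.div x t, d * s, d1.mul_left s1, ?_⟩,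
      Subtype.ext ?_⟩
    · rw [← mul_smul, show d * s * (v * (n + 1).factorial ^ a) = v * e * d * t by
        linear_combination d * v * s2, mul_smul, hy, mul_smul, d2, smul_zero]
    · change t • _ = x
      rw [smul_comm, hy, eq_sub_of_add_eq' h, sub_smul, one_smul, mul_smul, d2, smul_zero, sub_zero]
  obtain ⟨ρ, h⟩ := (Module.Baer.of_divisible (D n)).extension_property_addMonoidHom (D n).subtype
    Subtype.val_injective (AddMonoidHom.id _)
  exact ⟨ρ, fun x hx => congrArg Subtype.val (DFunLike.congr_fun h ⟨x, hx⟩)⟩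

theorem cyc {A : Type} [AddCommGroup A] (a : A) : ∃ φ : A →+ B, ∀ t : ℤ, φ (t • a) = 0 → t • a = 0 := by
  obtain ⟨b, hb⟩ : ∃ b : B, addOrderOf b = addOrderOf a := by
    rcases (addOrderOf a).eq_zero_or_pos with h | h
    · exact ⟨(1, 0), h ▸ addOrderOf_eq_zero_iff'.2 fun n hn c => by simp at c; omega⟩
    · haveI : Fact ((0 : ℚ) < 1) := ⟨one_pos⟩
      exact ⟨(0, ((1 / addOrderOf a : ℚ) : AddCircle (1 : ℚ))), by
        rw [Prod.addOrderOf, addOrderOf_zero, Nat.lcm_one_left, AddCircle.addOrderOf_period_div h]⟩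
  have e : ∀ t : ℤ, t • a = 0 ↔ t • b = 0 := fun t => by
    rw [← addOrderOf_dvd_iff_zsmul_eq_zero, ← addOrderOf_dvd_iff_zsmul_eq_zero, hb]
  obtain ⟨φ, h⟩ := (Module.Baer.of_divisible B).extension_property_addMonoidHom _
    (QuotientAddGroup.kerLift_injective (zmultiplesHom A a))
    (QuotientAddGroup.lift _ (zmultiplesHom B b) fun t q => (e t).1 q)
  exact ⟨φ, fun t q => (e t).2 ((DFunLike.congr_fun h (t : ℤ ⧸ (zmultiplesHom A a).ker)).symm.trans q)⟩

theorem univ_hom (Q : Type) [AddCommGroup Q] [Countable Q] :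
    ∃ θ : Q →+ (ℕ →₀ B), ∀ x, θ x = 0 → x = 0 := by
  obtain ⟨e, he⟩ := exists_surjective_nat Q
  obtain ⟨K, K0, K1⟩ : ∃ K : ℕ → AddSubgroup Q, K 0 = ⊥ ∧
      ∀ n, K (n + 1) = K n ⊔ AddSubgroup.zmultiples (e n) :=
    ⟨fun n => n.rec ⊥ fun n K => K ⊔ AddSubgroup.zmultiples (e n), rfl, fun _ => rfl⟩
  have mono : Monotone K := monotone_nat_of_le_succ fun n => K1 n ▸ le_sup_left
  have hK : ∀ x, ∃ n, x ∈ K n := fun x => (he x).elim fun n q =>
    ⟨n + 1, K1 n ▸ AddSubgroup.mem_sup_right (q ▸ AddSubgroup.mem_zmultiples _)⟩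
  choose φ hφ using fun n : ℕ => cyc (QuotientAddGroup.mk (s := K n) (e n))
  refine ⟨AddMonoidHom.mk' (fun x => Finsupp.ofSupportFinite (fun n => φ n x) ((hK x).elim fun n q =>
    (finite_lt_nat n).subset fun m hm => not_le.1 fun c : n ≤ m => hm
      ((congrArg (φ m) ((QuotientAddGroup.eq_zero_iff _).2 (mono c q))).trans (map_zero _))))
    fun x y => Finsupp.ext fun n => map_add (φ n) (x : Q ⧸ K n) y, fun x hx => ?_⟩
  obtain ⟨n, hn⟩ := hK x
  induction n with
  | zero => rwa [K0] at hn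
  | succ n ih =>
    obtain ⟨y, hy, _, ⟨t, rfl⟩, q⟩ := AddSubgroup.mem_sup.1 (K1 n ▸ hn)
    have : (x : Q ⧸ K n) = t • ((e n : Q) : Q ⧸ K n) := by
      rw [← q, QuotientAddGroup.mk_add, (QuotientAddGroup.eq_zero_iff _).2 hy, zero_add]; rfl
    exact ih ((QuotientAddGroup.eq_zero_iff _).1 (this ▸ hφ n t (this ▸ DFunLike.congr_fun hx n)))

theorem prime_mul {Q : Type} [AddCommGroup Q] {x : Q} (hx : x ≠ 0) (N : ℕ) (N0 : N ≠ 0)
    (h : (N : ℤ) • x = 0) : ∃ (t : ℤ) (p : ℕ), p.Prime ∧ t • x ≠ 0 ∧ (p : ℤ) • t • x = 0 := by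
  induction N using induction_on_primes with
  | zero => exact absurd rfl N0
  | one => exact absurd (by simpa using h) hx
  | prime_mul p a hp ih =>
    by_cases c : (a : ℤ) • x = 0
    · exact ih (right_ne_zero_of_mul N0) c
    · exact ⟨a, p, hp, c, by rwa [← mul_smul, ← Nat.cast_mul]⟩

/-- The factors of the universal group. -/
def H (n : ℕ) : Type := (ℕ →₀ D n) × AddCircle (1 : ℚ)

noncomputable instance (n : ℕ) : AddCommGroup (H n) := inferInstanceAs (AddCommGroup (_ × _))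
instance (n : ℕ) : TopologicalSpace (H n) := ⊥
instance (n : ℕ) : DiscreteTopology (H n) := ⟨rfl⟩
instance : Countable (AddCircle (1 : ℚ)) := QuotientAddGroup.mk_surjective.countable
instance (n : ℕ) : Countable (H n) := inferInstanceAs (Countable (_ × _))

/-- Tails of the product. -/
def W (k : ℕ) : AddSubgroup (∀ n, H n) where
  carrier := {f | ∀ n ≤ k, f n = 0}
  zero_mem' := fun _ _ => rfl
  add_mem' := fun {a b} p q n e => by rw [Pi.add_apply, p n e, q n e, add_zero]
  neg_mem' := fun {a} p n e => by rw [Pi.neg_apply, p n e, neg_zero]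

theorem chainW : Chain W := by
  refine ⟨fun k => ?_, fun i j e f q n c => q n (c.trans e), fun V hV => ?_⟩
  · exact isOpen_set_pi (finite_le_nat k) (s := fun n => {0}) fun _ _ => isOpen_discrete _
  · rw [nhds_pi] at hV
    obtain ⟨I, h1, t, h2, h3⟩ := mem_pi.1 hV
    obtain ⟨k, hk⟩ := h1.bddAbove
    exact ⟨k, fun f q => h3 fun n hn => q n (hk hn) ▸ mem_of_mem_nhds (h2 n)⟩

theorem killD {n : ℕ} (f : ℕ →₀ D n) : ∃ d : ℤ, IsCoprime d (n + 1).factorial ∧ d • f = 0 := by
  induction f using Finsupp.induction_linear with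
  | zero => exact ⟨1, isCoprime_one_left, smul_zero _⟩
  | add a b p q =>
    obtain ⟨d, d1, d2⟩ := p
    obtain ⟨e, e1, e2⟩ := q
    exact ⟨d * e, d1.mul_left e1, by
      rw [smul_add, mul_smul d e b, e2, mul_comm, mul_smul, d2, smul_zero, smul_zero, add_zero]⟩
  | single i x =>
    obtain ⟨d, d1, d2⟩ := x.2
    exact ⟨d, d1, by rw [Finsupp.smul_single, show d • x = 0 from Subtype.ext d2, Finsupp.single_zero]⟩

theorem cop_zero {A : Type} [AddCommGroup A] {d N : ℤ} (h : IsCoprime d N) {x : A} (p : d • x = 0)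
    (q : N • x = 0) : x = 0 := by
  obtain ⟨a, b, e⟩ := h
  rw [← one_smul ℤ x, ← e, add_smul, mul_smul, mul_smul, p, q, smul_zero, smul_zero, add_zero]

theorem tameU : IsTame (∀ n, H n) := by
  classical
  refine tame_of chainW (fun g hg m => ?_) fun N N0 => ⟨N.natAbs, fun k hk => ?_⟩
  · induction m with
    | zero => exact ⟨1, one_ne_zero, zsmul_mem hg 1⟩
    | succ m ih =>
      obtain ⟨t, t0, ht⟩ := ih
      obtain ⟨d, d1, d2⟩ := killD (g (m + 1)).1
      obtain ⟨r, hr⟩ := QuotientAddGroup.mk_surjective (g (m + 1)).2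
      have d0 : d ≠ 0 := by
        rintro rfl
        have := Int.isUnit_iff_natAbs_eq.1 (isCoprime_zero_left.1 d1)
        rw [Int.natAbs_natCast, Nat.factorial_eq_one] at this
        omega
      refine ⟨t * (d * r.den), mul_ne_zero t0 (mul_ne_zero d0 (Int.natCast_ne_zero.2 r.den_nz)),
        fun n hn => ?_⟩
      rcases hn.eq_or_lt with rfl | c
      · refine (mul_smul t _ (g (m + 1))).trans (smul_eq_zero_of_right t
          (show _ • g (m + 1) = 0 from Prod.ext ?_ ?_))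
        · change (d * r.den) • (g (m + 1)).1 = 0
          rw [mul_comm, mul_smul, d2, smul_zero]
        · change (d * r.den) • (g (m + 1)).2 = 0
          rw [mul_smul, ← hr, ← QuotientAddGroup.mk_zsmul, (AddCircle.coe_eq_zero_iff _).2
            ⟨r.num, by simp⟩, smul_zero]
      · rw [mul_comm, mul_smul]
        exact zsmul_mem ht _ n (by omega)
  · haveI : Fact ((0 : ℚ) < 1) := ⟨one_pos⟩
    refine ((AddCircle.finite_torsion (1 : ℚ) (Int.natAbs_pos.2 N0)).image fun c =>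
      ((Pi.single (k + 1) ((0, c) : H (k + 1)) : ∀ n, H n) : (∀ n, H n) ⧸ W (k + 1))).subset ?_
    rintro _ ⟨q, u, hu, rfl⟩
    have q' : N • u (k + 1) = 0 := (QuotientAddGroup.eq_zero_iff (N • u)).1 q (k + 1) le_rfl
    refine ⟨(u (k + 1)).2, natAbs_nsmul_eq_zero.2 (congrArg Prod.snd q'),
      QuotientAddGroup.eq_iff_sub_mem.2 fun n hn => ?_⟩
    rcases hn.eq_or_lt with rfl | c
    · rw [Pi.sub_apply, Pi.single_eq_same, sub_eq_zero]
      obtain ⟨d, d1, d2⟩ := killD (u (k + 1)).1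
      exact Prod.ext (cop_zero (d1.of_isCoprime_of_dvd_right (Int.natAbs_dvd.1
        (Int.natCast_dvd_natCast.2 (Nat.dvd_factorial (Int.natAbs_pos.2 N0) (by omega))))) d2
        (congrArg Prod.fst q')).symm rfl
    · rw [Pi.sub_apply, Pi.single_eq_of_ne c.ne, hu n (by omega), sub_zero]

variable {G : Type} [AddCommGroup G] [TopologicalSpace G] [PolishSpace G]

theorem closed_emb [IsTopologicalAddGroup G] {V : ℕ → AddSubgroup G} (h : Chain V)
    (φ : G →+ ∀ n, H n) (hA : ∀ n, ∃ j, ∀ g ∈ V j, φ g n = 0)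
    (hB : ∀ k, ∃ m, ∀ g, φ g ∈ W m → g ∈ V k) : IsClosedEmbedding φ := by
  have c : Continuous φ := continuous_pi fun n => (hA n).elim fun j q =>
    continuous_of_continuousAt_zero ((Pi.evalAddMonoidHom H n).comp φ)
      (continuousAt_const.congr (mem_of_superset ((h.op j).mem_nhds (zero_mem _))
        fun g hg => (q g hg).symm))
  choose m hm using hB
  refine ⟨⟨IsTopologicalAddGroup.isInducing_iff_nhds_zero.2 (le_antisymm
    (map_zero φ ▸ c.continuousAt.le_comap) fun O hO => (h.base O hO).elim fun k q =>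
      ⟨W (m k), (chainW.op _).mem_nhds (zero_mem _), fun g hg => q (hm k g hg)⟩),
    (injective_iff_map_eq_zero φ).2 fun g hg => by_contra fun q => ?_⟩,
    isClosed_of_closure_subset fun y hy => ?_⟩
  · obtain ⟨k, hk⟩ := h.base {g}ᶜ (isOpen_compl_singleton.mem_nhds (Ne.symm q))
    exact hk (hm k g (hg ▸ zero_mem _)) rfl
  have : ∀ k, ∃ g, φ g - y ∈ W (k + ∑ i ∈ Finset.range (k + 1), m i) := fun k => by
    obtain ⟨_, q, g, rfl⟩ := mem_closure_iff.1 hy _ ((chainW.op (k + ∑ i ∈ Finset.range (k + 1),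
      m i)).preimage (continuous_sub_right y)) (by simp)
    exact ⟨g, q⟩
  choose s hs using this
  obtain ⟨g, hg⟩ := h.complete (s := s) fun k => hm k _ (by
    simpa using sub_mem (chainW.anti (by simp only [Finset.sum_range_succ]; omega) (hs (k + 1)))
      (chainW.anti (show m k ≤ _ by simp only [Finset.sum_range_succ]; omega) (hs k)))
  refine ⟨g, funext fun n => (hA n).elim fun j q => ?_⟩
  have := q _ (h.anti (Nat.le_add_left j n) (hg _))
  rw [map_sub, Pi.sub_apply, sub_eq_zero] at this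
  exact this.trans (sub_eq_zero.1 (hs (n + j) n (by omega)))

theorem embed [NonarchimedeanAddGroup G] (ht : IsTame G) :
    ∃ φ : G →+ ∀ n, H n, IsClosedEmbedding φ := by
  obtain ⟨V, h, tor, fin⟩ := structure_thm ht
  haveI := h.countable
  choose ρ hρ using retr
  choose θ hθ using fun n => univ_hom (G ⧸ V n)
  obtain ⟨e, he⟩ := exists_surjective_nat (Σ k, G ⧸ V k)
  have : ∀ z : Σ k, G ⧸ V k, ∃ c : G ⧸ V z.1 →+ AddCircle (1 : ℚ), z.2 ≠ 0 → c z.2 ≠ 0 := fun z => by
    by_cases q : z.2 = 0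
    · exact ⟨0, fun c => absurd q c⟩
    · exact (CharacterModule.exists_character_apply_ne_zero_of_ne_zero q).elim fun c r => ⟨c, fun _ => r⟩
  choose χ hχ using this
  let φ : G →+ ∀ n, H n := Pi.addMonoidHom fun n => AddMonoidHom.prod
    (((Finsupp.mapRange.addMonoidHom (ρ n)).comp (θ n)).comp (QuotientAddGroup.mk' _))
    ((χ (e n)).comp (QuotientAddGroup.mk' _))
  have key : ∀ n g (d : ℤ), φ g n = 0 → IsCoprime d (n + 1).factorial → d • g ∈ V n → g ∈ V n := by
    refine fun n g d p q r => (QuotientAddGroup.eq_zero_iff _).1 (hθ n _ (Finsupp.ext fun i => ?_))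
    refine (hρ n _ ⟨d, q, ?_⟩).symm.trans
      (congrArg Subtype.val (DFunLike.congr_fun (congrArg Prod.fst p) i))
    rw [← Finsupp.smul_apply, ← map_zsmul, ← QuotientAddGroup.mk_zsmul,
      (QuotientAddGroup.eq_zero_iff _).2 r, map_zero, Finsupp.zero_apply]
  refine ⟨φ, closed_emb h φ (fun n => ⟨n + (e n).1, fun g hg => Prod.ext ?_ ?_⟩) fun k => ?_⟩
  · change Finsupp.mapRange.addMonoidHom (ρ n) (θ n g) = 0
    rw [(QuotientAddGroup.eq_zero_iff _).2 (h.anti (by omega) hg), map_zero, map_zero]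
  · change χ (e n) g = 0
    rw [(QuotientAddGroup.eq_zero_iff _).2 (h.anti (by omega) hg), map_zero]
  induction k with
  | zero => exact ⟨0, fun g q => key 0 g 0 (q 0 le_rfl) (by simpa using isCoprime_one_right)
      (by simp)⟩
  | succ k ih =>
    obtain ⟨m, hm⟩ := ih
    choose ι hι using he
    obtain ⟨M, hM⟩ := (((finite_le_nat (k + 2)).inter_of_left {p | p.Prime}).biUnion
      (fun p hp => fin k p hp.2 hp.1)).image (fun x => ι ⟨k + 1, x⟩) |>.bddAbove
    refine ⟨m + M + k + 1, fun g q => by_contra fun c => ?_⟩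
    have g0 := hm g (chainW.anti (by omega) q)
    obtain ⟨N, N0, hN⟩ := tor g (h.anti k.zero_le g0) (k + 1)
    obtain ⟨t, p, hp, t1, t2⟩ := prime_mul (x := (g : G ⧸ V (k + 1)))
      (mt (QuotientAddGroup.eq_zero_iff _).1 c) N.natAbs (Int.natAbs_ne_zero.2 N0) (by
        rw [natCast_zsmul, natAbs_nsmul_eq_zero]; exact (QuotientAddGroup.eq_zero_iff _).2 hN)
    have q' : φ (t • g) ∈ W (m + M + k + 1) := map_zsmul φ t g ▸ zsmul_mem q t
    by_cases d : p ≤ k + 2
    · have := hM ⟨_, mem_biUnion (x := p) ⟨d, hp⟩ ⟨t2, t • g, zsmul_mem g0 t, rfl⟩, rfl⟩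
      have r : χ (e (ι ⟨k + 1, t • g⟩)) (t • g : G) = 0 :=
        congrArg Prod.snd (q' _ (this.trans (by omega)))
      rw [hι] at r
      exact hχ ⟨k + 1, t • g⟩ t1 r
    · exact t1 ((QuotientAddGroup.eq_zero_iff (t • g)).2 (key (k + 1) _ p (q' _ (by omega))
        (Nat.isCoprime_iff_coprime.2 (hp.coprime_iff_not_dvd.2 (mt hp.dvd_factorial.1 d)))
        ((QuotientAddGroup.eq_zero_iff (_ • t • g)).1 t2)))

end Pool.Agent.H34.Tame
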