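import Pool.Agent.H34.TameB

namespace Pool.Agent.H34.Tame
open Set Filter Topology

theorem exists_rel {G : Type} [AddCommGroup G] (χ : G →+ AddCircle (1 : ℚ)) (v w : G) :
    ∃ a b : ℤ, IsCoprime a b ∧ χ (a • v + b • w) = 0 := by
  obtain ⟨r, hr⟩ := QuotientAddGroup.mk_surjective (χ v)
  obtain ⟨s, hs⟩ := QuotientAddGroup.mk_surjective (χ w)
  by_cases h : r = 0
  · exact ⟨1, 0, isCoprime_one_left, by simp [← hr, h]⟩
  refine ⟨-(s / r).num, (s / r).den, (Rat.isCoprime_num_den _).neg_left, ?_⟩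
  rw [map_add, map_zsmul, map_zsmul, ← hr, ← hs, ← QuotientAddGroup.mk_zsmul,
    ← QuotientAddGroup.mk_zsmul, ← QuotientAddGroup.mk_add]
  have : (-(s / r).num) • r + ((s / r).den : ℤ) • s = 0 := by
    have := Rat.mul_den_eq_num (s / r)
    simp only [zsmul_eq_mul, Int.cast_neg, Int.cast_natCast, ← this]
    field_simp
    ring
  rw [this, QuotientAddGroup.mk_zero]

theorem ker_infinite {G Q : Type} [AddCommGroup G] [AddCommGroup Q] (π : G →+ Q) {p : ℤ}
    (hp : Prime p) (W : AddSubgroup G) (hW : ∀ w ∈ W, p • π w = 0) (χ : G →+ AddCircle (1 : ℚ))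
    (h : (W.map π : Set Q).Infinite) : ((W ⊓ χ.ker).map π : Set Q).Infinite := by
  intro f
  obtain ⟨_, ⟨v, hv, rfl⟩, nv⟩ := h.exists_notMem_finite f
  have un : ∀ w ∈ W, ∀ b : ℤ, ¬ p ∣ b → ∃ c : ℤ, π w = c • b • π w := fun w hw b hb => by
    obtain ⟨d, c, e⟩ := (hp.irreducible.coprime_iff_not_dvd).2 hb
    exact ⟨c, by rw [smul_smul, eq_sub_of_add_eq' e, sub_smul, one_smul, mul_smul, hW w hw,
      smul_zero, sub_zero]⟩
  have fz : (AddSubgroup.zmultiples (π v) : Set Q).Finite :=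
    (isOfFinAddOrder_iff_zsmul_eq_zero.2 ⟨p, hp.ne_zero, hW v hv⟩).finite_zmultiples
  refine h ((f.image2 (· - ·) fz).subset ?_)
  rintro _ ⟨w, hw, rfl⟩
  obtain ⟨a, b, ab, e⟩ := exists_rel χ v w
  have m : a • π v + b • π w ∈ (W ⊓ χ.ker).map π :=
    ⟨_, ⟨add_mem (zsmul_mem hv a) (zsmul_mem hw b), e⟩, by simp⟩
  by_cases c : p ∣ b
  · obtain ⟨d, hd⟩ := un v hv a fun c' => hp.not_unit (ab.isUnit_of_dvd' c' c)
    obtain ⟨t, rfl⟩ := c
    rw [mul_comm, mul_smul, hW w hw, smul_zero, add_zero] at m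
    exact absurd (hd ▸ zsmul_mem m d) nv
  · obtain ⟨d, hd⟩ := un w hw b c
    exact ⟨_, zsmul_mem m d, d • a • π v, zsmul_mem (zsmul_mem (AddSubgroup.mem_zmultiples _) a) d,
      by simp only [smul_add, add_sub_cancel_left, ← hd]⟩

theorem bio_step {G Q : Type} [AddCommGroup G] [AddCommGroup Q] (π : G →+ Q) {p : ℤ}
    (hp : Prime p) (W : AddSubgroup G) (hW : ∀ w ∈ W, p • π w = 0)
    (h : (W.map π : Set Q).Infinite) (L : List (G × (G →+ AddCircle (1 : ℚ)))) :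
    ∃ y : G × (G →+ AddCircle (1 : ℚ)), y.1 ∈ W ∧ (∀ u, π u = 0 → y.2 u = 0) ∧ y.2 y.1 ≠ 0 ∧
      ∀ z ∈ L, y.2 z.1 = 0 ∧ z.2 y.1 = 0 := by
  obtain ⟨W', h1, h2, h3⟩ : ∃ W' ≤ W, (W'.map π : Set Q).Infinite ∧ ∀ z ∈ L, ∀ w ∈ W', z.2 w = 0 := by
    induction L with
    | nil => exact ⟨W, le_rfl, h, by simp⟩
    | cons z L ih =>
      obtain ⟨W', h1, h2, h3⟩ := ih
      exact ⟨W' ⊓ z.2.ker, inf_le_left.trans h1, ker_infinite π hp W' (fun w q => hW w (h1 q)) _ h2,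
        List.forall_mem_cons.2 ⟨fun w q => q.2, fun z q w r => h3 z q w r.1⟩⟩
  let Y : Submodule ℤ Q := Submodule.span ℤ ((fun z => π z.1) '' {z | z ∈ L})
  have fg : (Y ⊓ Submodule.torsionBy ℤ Q p).FG :=
    (Submodule.fg_span ((List.finite_toSet L).image _)).of_le inf_le_left
  haveI := Module.Finite.iff_fg.2 fg
  have fin : ((Y ⊓ Submodule.torsionBy ℤ Q p : Submodule ℤ Q) : Set Q).Finite :=
    Module.finite_of_fg_torsion (Y ⊓ Submodule.torsionBy ℤ Q p : Submodule ℤ Q) fun y =>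
      ⟨⟨p, mem_nonZeroDivisors_of_ne_zero hp.ne_zero⟩, Subtype.ext y.2.2⟩
  obtain ⟨_, ⟨x, hx, rfl⟩, nx⟩ := h2.exists_notMem_finite fin
  obtain ⟨c, hc⟩ := CharacterModule.exists_character_apply_ne_zero_of_ne_zero
    (a := Y.mkQ (π x)) fun e => nx ⟨(Submodule.Quotient.mk_eq_zero _).1 e, hW x (h1 hx)⟩
  refine ⟨(x, (AddMonoidHom.comp c Y.mkQ.toAddMonoidHom).comp π), h1 hx, fun u e => by simp [e], hc,
    fun z q => ⟨?_, h3 z q x hx⟩⟩
  change c (Y.mkQ (π z.1)) = 0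
  rw [show Y.mkQ (π z.1) = 0 from (Submodule.Quotient.mk_eq_zero _).2
    (Submodule.subset_span ⟨z, q, rfl⟩), map_zero]

variable {G : Type} [AddCommGroup G] [TopologicalSpace G] [PolishSpace G]

/-- Elements of `A` whose `p`-multiple is in `B`, modulo `B`. -/
def soc (p : ℤ) (A B : AddSubgroup G) : Set (G ⧸ B) := {x | p • x = 0 ∧ ∃ u ∈ A, (u : G ⧸ B) = x}

theorem wild_soc [IsTopologicalAddGroup G] {U : ℕ → AddSubgroup G} (h : Chain U) {p : ℤ} (hp : Prime p)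
    (hs : ∀ k, (soc p (U k) (U (k + 1))).Infinite) : ¬ IsTame G := by
  classical
  choose F F1 F2 F3 F4 using fun k => bio_step (QuotientAddGroup.mk' (U (k + 1))) hp
    (U k ⊓ (U (k + 1)).comap (zsmulAddGroupHom p))
    (fun w q => (QuotientAddGroup.eq_zero_iff _).2 q.2)
    ((hs k).mono (by rintro _ ⟨q, u, hu, rfl⟩; exact ⟨u, ⟨hu, (QuotientAddGroup.eq_zero_iff (p • u)).1 q⟩, rfl⟩))
  let l : ℕ → ℕ := fun t => ((Encodable.decode t : Option (List ℕ)).getD []).length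
  let L : ℕ → List (G × (G →+ AddCircle (1 : ℚ))) := fun t => t.rec [] fun t L => F (l t) L :: L
  have hL : ∀ s t, s < t → F (l s) (L s) ∈ L t := fun s t e => by
    induction t, e using Nat.le_induction with
    | base => exact List.mem_cons_self
    | succ t e ih => exact List.mem_cons_of_mem _ ih
  have hl : ∀ i : List ℕ, l (Encodable.encode i) = i.length := fun i => by simp [l]
  refine wild_p h hp.not_dvd_one (fun i => (F i.length (L (Encodable.encode i))).1)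
    (fun i => (F1 _ _).1) fun k a h1 h2 i => by_contra fun c => ?_
  have i0 : a i ≠ 0 := fun e => c (e ▸ dvd_zero p)
  have := F2 i.length (L (Encodable.encode i)) _ ((QuotientAddGroup.eq_zero_iff _).2 (h.anti (h1 i i0) h2))
  rw [Finsupp.linearCombination_apply, Finsupp.sum, map_sum, Finset.sum_eq_single i
    (fun j _ ji => by
      rw [map_zsmul]
      rcases lt_or_gt_of_ne (Encodable.encode_injective.ne ji) with q | q
      · rw [(F4 _ _ _ (hl j ▸ hL _ _ q)).1, smul_zero]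
      · rw [(F4 _ _ _ (hl i ▸ hL _ _ q)).2, smul_zero])
    (fun q => absurd (Finsupp.mem_support_iff.2 i0) q), map_zsmul] at this
  obtain ⟨d, e, de⟩ := (hp.irreducible.coprime_iff_not_dvd).2 c
  refine F3 i.length (L (Encodable.encode i)) ?_
  refine (one_smul ℤ _).symm.trans ?_
  rw [← de, add_smul, mul_smul, mul_smul, this, ← map_zsmul _ p,
    F2 _ _ (p • _) ((QuotientAddGroup.eq_zero_iff _).2 (F1 _ _).2), smul_zero, smul_zero, add_zero]

theorem subseq {P : ℕ → ℕ → Prop} (h : ∀ n, ∃ m, n < m ∧ P n m) :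
    ∃ μ : ℕ → ℕ, StrictMono μ ∧ ∀ k, P (μ k) (μ (k + 1)) := by
  choose f f1 f2 using h
  exact ⟨fun k => k.rec 0 fun _ n => f n, strictMono_nat_of_lt_succ fun k => f1 _, fun k => f2 _⟩

theorem structure_thm [NonarchimedeanAddGroup G] (ht : IsTame G) : ∃ V : ℕ → AddSubgroup G, Chain V ∧
    (∀ g ∈ V 0, ∀ m, ∃ N : ℤ, N ≠ 0 ∧ N • g ∈ V m) ∧
    ∀ k (p : ℕ), p.Prime → p ≤ k + 2 → (soc p (V k) (V (k + 1))).Finite := by
  obtain ⟨U, h⟩ := exists_chain (G := G)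
  obtain ⟨n, hn⟩ : ∃ n, ∀ m, ∀ g ∈ U n, ∃ N : ℤ, N ≠ 0 ∧ N • g ∈ U m := by
    by_contra! c
    obtain ⟨μ, h1, h2⟩ := subseq (P := fun n m => ∃ g ∈ U n, ∀ N : ℤ, N ≠ 0 → N • g ∉ U m)
      fun n => (c n).imp fun m q => ⟨not_le.1 fun e => by
        obtain ⟨g, g1, g2⟩ := q
        exact g2 1 one_ne_zero (zsmul_mem (h.anti e g1) 1), q⟩
    choose g g1 g2 using h2
    exact wild_int (h.comp h1) g g1 (fun k t q => by_contra fun e => g2 k t e q) ht
  have : ∀ p : ℕ, ∃ n, p.Prime → ∀ m, (soc p (U n) (U m)).Finite := fun p => by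
    by_contra! c
    obtain ⟨μ, h1, h2⟩ := subseq (P := fun n m => (soc p (U n) (U m)).Infinite)
      fun n => (c n).2.imp fun m q => ⟨not_le.1 fun e => q ((finite_singleton 0).subset (by
        rintro _ ⟨-, u, hu, rfl⟩
        exact (QuotientAddGroup.eq_zero_iff _).2 (h.anti e hu))), q⟩
    exact wild_soc (h.comp h1) (Nat.prime_iff_prime_int.1 (c 0).1) h2 ht
  choose ν hν using this
  refine ⟨_, h.comp (m := fun k => n + k + ∑ p ∈ Finset.range (k + 3), ν p)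
    (strictMono_nat_of_lt_succ fun k => by rw [Finset.sum_range_succ _ (k + 3)]; omega),
    fun g hg m => hn _ g (h.anti (by omega) hg), fun k p hp e => (hν p hp _).subset ?_⟩
  rintro _ ⟨q, u, hu, rfl⟩
  refine ⟨q, u, h.anti ?_ hu, rfl⟩
  have := Finset.single_le_sum (f := ν) (fun _ _ => Nat.zero_le _)
    (Finset.mem_range.2 (show p < k + 3 by omega))
  omega

end Pool.Agent.H34.Tame
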