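import Mathlib

namespace Pool.Agent.H34.TensorDefs

variable {F : Type} [Field F] {d : ℕ} {ι : Type} [Fintype ι] [DecidableEq ι]

/-- The multilinear form `f_A` of a `d`-dimensional tensor `A` with side `ι`. -/
def form (A : (Fin d → ι) → F) (X : Fin d → ι → F) : F := ∑ I, A I * ∏ j, X j (I j)

/-- The partition rank. -/
noncomputable def prank (A : (Fin d → ι) → F) : ℕ :=
  sInf {r : ℕ | ∃ (S : Fin r → Set (Fin d)) (g h : Fin r → (Fin d → ι → F) → F),
    (∀ j, S j ≠ ∅ ∧ S j ≠ Set.univ ∧ DependsOn (g j) (S j) ∧ DependsOn (h j) (S j)ᶜ) ∧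
    ∀ X, form A X = ∑ j, g j X * h j X}

/-- The bias `𝔼 ω ^ f_A(X)` over `𝔽_p`, `ω = exp (2 π i / p)` (the average is a real number). -/
noncomputable def bias {p : ℕ} [Fact p.Prime] (A : (Fin d → ι) → ZMod p) : ℝ :=
  (∑ X, ZMod.stdAddChar (form A X)).re / Fintype.card (Fin d → ι → ZMod p)

/-- The analytic rank. -/
noncomputable def arank {p : ℕ} [Fact p.Prime] (A : (Fin d → ι) → ZMod p) : ℝ :=
  -Real.logb p (bias A)

/-- The identity tensor. -/
def idT (F : Type) [Field F] (d : ℕ) (ι : Type) [DecidableEq ι] (I : Fin d → ι) : F :=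
  if ∀ j k, I j = I k then 1 else 0

/-- The tensor power `A^{⊗ m}`, with side `Fin m → ι`. -/
def tpow (A : (Fin d → ι) → F) (m : ℕ) (I : Fin d → Fin m → ι) : F := ∏ k, A fun j => I j k

end Pool.Agent.H34.TensorDefs
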