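import Mathlib
import Pool.Agent.H34.TensorDefs

namespace Pool.Agent.H34.TensorA
open Finset Pool.Agent.H34.TensorDefs

variable {F : Type} [Field F] {d : ℕ} {ι : Type} [Fintype ι] [DecidableEq ι]

theorem big_support {T J : Type} [Fintype T] [Fintype J] (γ : J → T → F) :
    ∃ v : T → F, (∀ j, ∑ t, v t * γ j t = 0) ∧
      Fintype.card T ≤ Nat.card {t // v t ≠ 0} + Fintype.card J := by
  classical
  obtain ⟨v, hv, hmax⟩ := Set.Finite.exists_maximalFor' (fun v : T → F => Nat.card {t // v t ≠ 0})
    {v | ∀ j, ∑ t, v t * γ j t = 0} ((Set.finite_le_nat (Fintype.card T)).subset (by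
      rintro _ ⟨v, -, rfl⟩
      simpa using Fintype.card_subtype_le _)) ⟨0, by simp⟩
  refine ⟨v, hv, ?_⟩
  by_contra hc
  let φ : (T → F) →ₗ[F] (({t // v t ≠ 0} ⊕ J) → F) :=
    { toFun := fun u => Sum.elim (fun t => u t) fun j => ∑ t, u t * γ j t
      map_add' := fun x y => by ext (t | j) <;> simp [add_mul, sum_add_distrib]
      map_smul' := fun a x => by ext (t | j) <;> simp [mul_sum, mul_assoc] }
  have hni : ¬ Function.Injective φ := fun h => by
    have := LinearMap.finrank_le_finrank_of_injective h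
    simp only [Module.finrank_fintype_fun_eq_card, Fintype.card_sum] at this
    rw [Nat.card_eq_fintype_card] at hc
    omega
  rw [injective_iff_map_eq_zero] at hni
  push Not at hni
  obtain ⟨u, hu, hu0⟩ := hni
  have h1 : ∀ t, v t ≠ 0 → u t = 0 := fun t ht => congrFun hu (.inl ⟨t, ht⟩)
  have h2 : ∀ j, ∑ t, u t * γ j t = 0 := fun j => congrFun hu (.inr j)
  obtain ⟨t, ht⟩ := Function.ne_iff.1 hu0
  have h3 : Nat.card {t // v t ≠ 0} < Nat.card {t // (v + u) t ≠ 0} := by
    simp only [Nat.card_eq_fintype_card, Fintype.card_subtype]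
    refine card_lt_card ⟨fun s hs => ?_, fun h => ?_⟩
    · simp only [mem_filter, mem_univ, true_and] at hs ⊢
      simpa [h1 s hs] using hs
    · have h4 : v t = 0 := by by_contra h5; exact ht (h1 t h5)
      have := h (mem_filter.2 ⟨mem_univ t, by simpa [h4] using ht⟩)
      simp [h4] at this
  have := hmax (j := v + u) (fun j => by simp [add_mul, sum_add_distrib, hv j, h2 j]) h3.le
  exact absurd this (not_le.2 h3)

theorem naslund (d : ℕ) : ∀ (T J : Type) [Fintype T] [DecidableEq T] [Fintype J] (w : T → F)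
    (S : J → Set (Fin (d + 1))) (g h : J → (Fin (d + 1) → T) → F), (∀ t, w t ≠ 0) →
    (∀ j, S j ≠ ∅ ∧ S j ≠ Set.univ ∧ DependsOn (g j) (S j) ∧ DependsOn (h j) (S j)ᶜ) →
    (∀ s, ∑ t, w t * ∏ i, (if s i = t then 1 else 0) = ∑ j, g j s * h j s) →
    Fintype.card T ≤ Fintype.card J := by
  induction d with
  | zero =>
    intro T J _ _ _ w S g h hw hS he
    have : IsEmpty J := ⟨fun j => by
      rcases Set.eq_empty_or_nonempty (S j) with h | ⟨x, hx⟩
      · exact (hS j).1 h
      · exact (hS j).2.1 (Set.eq_univ_of_forall fun y => Subsingleton.elim (α := Fin 1) x y ▸ hx)⟩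
    have : IsEmpty T := ⟨fun t => hw t (by simpa using he fun _ => t)⟩
    simp
  | succ d ih =>
    intro T J _ _ _ w S g h hw hS he
    classical
    wlog h0 : ∀ j, (0 : Fin (d + 2)) ∈ S j generalizing S g h
    · refine this (fun j => if 0 ∈ S j then S j else (S j)ᶜ) (fun j => if 0 ∈ S j then g j else h j)
        (fun j => if 0 ∈ S j then h j else g j) (fun j => ?_) (fun s => ?_) fun j => ?_
      · split_ifs
        · exact hS j
        · exact ⟨by simpa using (hS j).2.1, by simpa using (hS j).1, (hS j).2.2.2,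
            by simpa using (hS j).2.2.1⟩
      · rw [he]
        exact sum_congr rfl fun j _ => by split_ifs <;> simp [mul_comm]
      · split_ifs with h <;> simp [h]
    rcases isEmpty_or_nonempty T with hT | ⟨⟨t₀⟩⟩
    · simp
    obtain ⟨v, hv, hc⟩ := big_support (J := {j // S j = {0}}) fun j t => g j fun _ => t
    have := ih {t // v t ≠ 0} {j // S j ≠ {0}} (fun t => w t * v t) (fun j => Fin.succ ⁻¹' S j)
      (fun j s => ∑ t, v t * g j (Fin.cons t fun i => s i)) (fun j s => h j (Fin.cons t₀ fun i => s i))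
      (fun t => mul_ne_zero (hw t) t.2) (fun j => ⟨fun e => j.2 ?_, fun e => (hS j).2.1 ?_, ?_, ?_⟩)
      (fun s => ?_)
    · rw [Nat.card_eq_fintype_card] at hc
      have h1 := Fintype.card_subtype_compl fun j => S j = {0}
      have h2 := Fintype.card_subtype_le fun j => S j = {0}
      simp only [ne_eq] at this hc
      omega
    · ext x
      refine Fin.cases (by simp [h0]) (fun i => ?_) x
      simpa [Fin.succ_ne_zero] using Set.eq_empty_iff_forall_notMem.1 e i
    · refine Set.eq_univ_of_forall fun x => Fin.cases (h0 _) (fun i => ?_) x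
      exact e.ge (Set.mem_univ i)
    · intro x y hxy
      refine sum_congr rfl fun t _ => congrArg _ ((hS j).2.2.1 fun i => ?_)
      refine Fin.cases (fun _ => rfl) (fun i hi => ?_) i
      simp [hxy i hi]
    · intro x y hxy
      refine (hS j).2.2.2 fun i => ?_
      refine Fin.cases (fun _ => rfl) (fun i hi => ?_) i
      simp [hxy i hi]
    · have e1 : ∑ t, v t * ∑ j, g j (Fin.cons t fun i => s i) * h j (Fin.cons t fun i => s i) =
          ∑ t, w t * v t * ∏ i, (if (s i : T) = t then 1 else 0) := by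
        refine sum_congr rfl fun t _ => ?_
        rw [← he, sum_eq_single t]
        · simp [Fin.prod_univ_succ]; ring_nf
        · intro b _ hb
          simp [Fin.prod_univ_succ, hb.symm]
        · simp
      have e2 : ∀ j t, h j (Fin.cons t fun i => s i) = h j (Fin.cons t₀ fun i => s i) := by
        intro j t
        refine (hS j).2.2.2 fun i => Fin.cases (fun hi => absurd (h0 j) hi) (fun i _ => rfl) i
      simp only [e2, mul_sum, ← mul_assoc] at e1
      rw [sum_comm] at e1
      simp only [← sum_mul] at e1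
      rw [← Fintype.sum_subtype_add_sum_subtype (fun j => S j = {0}),
        ← Fintype.sum_subtype_add_sum_subtype (fun t => v t ≠ 0)] at e1
      rw [sum_eq_zero, zero_add, sum_eq_zero (s := (univ : Finset {t // ¬ v t ≠ 0})), add_zero] at e1
      · rw [e1]
        simp [Subtype.ext_iff]
      · intro t _
        simp [not_not.1 t.2]
      · intro j _
        refine mul_eq_zero_of_left (Eq.trans ?_ (hv j)) _
        refine sum_congr rfl fun t _ => congrArg _ ((hS j).2.2.1 fun i hi => ?_)
        rw [j.2] at hi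
        rw [hi]; rfl

def slice (A : (Fin d → ι) → F) (i : Fin d) (X : Fin d → ι → F) (a : ι) : F :=
  ∑ I with I i = a, A I * ∏ j ∈ univ.erase i, X j (I j)

theorem form_eq (A : (Fin d → ι) → F) (i : Fin d) (X : Fin d → ι → F) :
    form A X = ∑ a, X i a * slice A i X a := by
  unfold form slice
  rw [← sum_fiberwise (s := univ) (g := fun I : Fin d → ι => I i)]
  refine sum_congr rfl fun a _ => ?_
  rw [mul_sum]
  refine sum_congr rfl fun I hI => ?_
  rw [← mul_prod_erase _ _ (mem_univ i), (mem_filter.1 hI).2]; ring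

theorem slice_dep (A : (Fin d → ι) → F) (i : Fin d) {X Y : Fin d → ι → F}
    (h : ∀ j, j ≠ i → X j = Y j) : slice A i X = slice A i Y := by
  funext a
  exact sum_congr rfl fun I _ => congrArg _ (prod_congr rfl fun j hj => by
    rw [h j (ne_of_mem_erase hj)])

theorem card_mem (A : (Fin (d + 2) → ι) → F) : Fintype.card ι ∈
    {r : ℕ | ∃ (S : Fin r → Set (Fin (d + 2))) (g h : Fin r → (Fin (d + 2) → ι → F) → F),
    (∀ j, S j ≠ ∅ ∧ S j ≠ Set.univ ∧ DependsOn (g j) (S j) ∧ DependsOn (h j) (S j)ᶜ) ∧
    ∀ X, form A X = ∑ j, g j X * h j X} := by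
  let e := (Fintype.equivFin ι).symm
  refine ⟨fun _ => {0}, fun j X => X 0 (e j), fun j X => slice A 0 X (e j),
    fun j => ⟨by simp, fun h => ?_, ?_, ?_⟩, fun X => ?_⟩
  · simpa using h.ge (Set.mem_univ 1)
  · intro X Y h; simp only; rw [h 0 rfl]
  · intro X Y h; simp only; rw [slice_dep A 0 h]
  · rw [form_eq A 0, ← e.sum_comp]

theorem prank_le (A : (Fin (d + 2) → ι) → F) : prank A ≤ Fintype.card ι := Nat.sInf_le (card_mem A)

/-- `B` restricts to the identity tensor on `T`. -/
def Diag (B : (Fin d → ι) → F) {T : Type} [DecidableEq T] (π : Fin d → T → ι) : Prop :=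
  ∀ s : Fin d → T, B (fun i => π i (s i)) = idT F d T s

theorem idT_eq {T : Type} [Fintype T] [DecidableEq T] (s : Fin (d + 1) → T) :
    idT F (d + 1) T s = ∑ t, ∏ i, (if s i = t then 1 else 0) := by
  rw [sum_eq_single (s 0)]
  · unfold idT
    split_ifs with h
    · simp [h _ 0]
    · push Not at h
      obtain ⟨j, k, h⟩ := h
      by_cases a : s j = s 0
      · exact (prod_eq_zero (mem_univ k) (if_neg fun e => h (a.trans e.symm))).symm
      · exact (prod_eq_zero (mem_univ j) (if_neg a)).symm
  · intro b _ hb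
    exact prod_eq_zero (mem_univ 0) (if_neg hb.symm)
  · simp

theorem form_single (A : (Fin d → ι) → F) (I : Fin d → ι) :
    form A (fun i => Pi.single (I i) 1) = A I := by
  unfold form
  rw [sum_eq_single I]
  · simp
  · intro J _ hJ
    obtain ⟨i, hi⟩ := Function.ne_iff.1 hJ
    rw [prod_eq_zero (mem_univ i) (by simp [hi]), mul_zero]
  · simp

theorem le_prank {B : (Fin (d + 2) → ι) → F} {T : Type} [Fintype T] [DecidableEq T]
    {π : Fin (d + 2) → T → ι} (h : Diag B π) : Fintype.card T ≤ prank B := by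
  obtain ⟨S, g, k, hS, he⟩ := Nat.sInf_mem ⟨_, card_mem B⟩
  have := naslund (F := F) (d + 1) T (Fin (prank B)) (fun _ => 1) S
    (fun j s => g j fun i => Pi.single (π i (s i)) 1) (fun j s => k j fun i => Pi.single (π i (s i)) 1)
    (fun _ => one_ne_zero) (fun j => ⟨(hS j).1, (hS j).2.1,
      fun x y hxy => (hS j).2.2.1 fun i hi => by rw [hxy i hi],
      fun x y hxy => (hS j).2.2.2 fun i hi => by rw [hxy i hi]⟩) (fun s => by
        simp only [one_mul]
        rw [← idT_eq, ← h s, ← form_single B, he]; rfl)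
  simpa using this

section bias
variable {p : ℕ} [Fact p.Prime]

theorem char_sum {κ : Type} (s : Finset κ) (f : κ → ZMod p) :
    ZMod.stdAddChar (∑ a ∈ s, f a) = ∏ a ∈ s, ZMod.stdAddChar (f a) := by
  classical
  induction s using Finset.induction_on with
  | empty => simp
  | insert a s ha ih => rw [sum_insert ha, prod_insert ha, AddChar.map_add_eq_mul, ih]

theorem sum_char (A : (Fin d → ι) → ZMod p) (i : Fin d) : ∑ X, ZMod.stdAddChar (form A X) =
    ((univ.filter fun X => ∀ a, slice A i X a = 0).card : ℂ) := by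
  have hp : (0 : ℕ) < p := (Fact.out : p.Prime).pos
  have inner : ∀ s : ι → ZMod p, ∑ y : ι → ZMod p, ZMod.stdAddChar (∑ a, y a * s a) =
      if ∀ a, s a = 0 then (Fintype.card (ι → ZMod p) : ℂ) else 0 := by
    intro s
    simp only [char_sum]
    rw [← Fintype.piFinset_univ, ← prod_univ_sum (fun _ => univ) fun a z => ZMod.stdAddChar (z * s a)]
    simp only [AddChar.sum_mulShift _ (ZMod.isPrimitive_stdAddChar p)]
    split_ifs with h
    · simp [h]
    · push Not at h
      obtain ⟨a, ha⟩ := h
      exact prod_eq_zero (mem_univ a) (by simp [ha])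
  let e : (Fin d → ι → ZMod p) × (ι → ZMod p) ≃ (Fin d → ι → ZMod p) × (ι → ZMod p) :=
    Function.Involutive.toPerm (fun q => (Function.update q.1 i q.2, q.1 i)) fun q => by simp
  have h1 := e.sum_comp fun q => ZMod.stdAddChar (form A q.1)
  simp only [Fintype.sum_prod_type, e, Function.Involutive.coe_toPerm, sum_const, card_univ,
    nsmul_eq_mul, ← mul_sum] at h1
  have h2 : ∀ X y, form A (Function.update X i y) = ∑ a, y a * slice A i X a := fun X y => by
    rw [form_eq A i, slice_dep A i (Y := X) fun j hj => Function.update_of_ne hj _ _]; simp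
  simp only [h2, inner] at h1
  have h3 : (Fintype.card (ι → ZMod p) : ℂ) ≠ 0 := by exact_mod_cast Fintype.card_ne_zero
  apply mul_left_cancel₀ h3
  rw [← h1, ← sum_filter, sum_const, nsmul_eq_mul, mul_comm]

theorem bias_eq (A : (Fin d → ι) → ZMod p) (i : Fin d) : bias A =
    (univ.filter fun X => ∀ a, slice A i X a = 0).card / Fintype.card (Fin d → ι → ZMod p) := by
  rw [bias, sum_char A i]; simp

theorem bias_pos (A : (Fin (d + 2) → ι) → ZMod p) : 0 < bias A := by
  rw [bias_eq A 0]
  refine div_pos (Nat.cast_pos.2 (card_pos.2 ⟨0, mem_filter.2 ⟨mem_univ _, fun a => ?_⟩⟩))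
    (Nat.cast_pos.2 Fintype.card_pos)
  exact sum_eq_zero fun I _ => by rw [prod_eq_zero (i := 1) (by simp) (by simp), mul_zero]

theorem bias_restr (A : (Fin d → ι) → ZMod p) (i : Fin d) (W : Finset ι) :
    bias A ≤ bias fun I => if I i ∈ W then A I else 0 := by
  rw [bias_eq _ i, bias_eq _ i]
  refine div_le_div_of_nonneg_right (Nat.cast_le.2 (card_le_card fun X hX => ?_)) (Nat.cast_nonneg _)
  simp only [mem_filter, mem_univ, true_and] at hX ⊢
  intro a
  by_cases ha : a ∈ W
  · refine Eq.trans ?_ (hX a)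
    exact sum_congr rfl fun I hI => by simp only [(mem_filter.1 hI).2, if_pos ha]
  · exact sum_eq_zero fun I hI => by simp only [(mem_filter.1 hI).2, if_neg ha, zero_mul]

theorem bias_restr_all (A : (Fin d → ι) → ZMod p) (W : Fin d → Finset ι) (s : Finset (Fin d)) :
    bias A ≤ bias fun I => if ∀ i ∈ s, I i ∈ W i then A I else 0 := by
  induction s using Finset.induction_on with
  | empty => simp
  | insert a s _ ih =>
    refine ih.trans ((bias_restr _ a (W a)).trans (le_of_eq ?_))
    congr 1; funext I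
    by_cases h : I a ∈ W a <;> simp [h]

theorem sum_surj {G H : Type} [AddCommGroup G] [AddCommGroup H] [Fintype G] [Fintype H]
    (ψ : G →+ H) (hs : Function.Surjective ψ) (f : H → ℂ) :
    (∑ x, f (ψ x)) / Fintype.card G = (∑ y, f y) / Fintype.card H := by
  classical
  have key : ∀ f : H → ℂ, ∑ x, f (ψ x) = (univ.filter fun x => ψ x = 0).card * ∑ y, f y := by
    intro f
    rw [← sum_fiberwise (s := univ) (g := ψ), mul_sum]
    refine sum_congr rfl fun y _ => ?_
    rw [sum_congr rfl (g := fun _ => f y) fun x hx => by rw [(mem_filter.1 hx).2], sum_const,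
      nsmul_eq_mul, AddMonoidHom.card_fiber_eq_of_mem_range ψ (hs y) (hs 0)]
  have h1 := key fun _ => 1
  simp only [sum_const, card_univ, nsmul_eq_mul, mul_one] at h1
  have h2 : (Fintype.card G : ℂ) ≠ 0 := by exact_mod_cast Fintype.card_ne_zero
  rw [key f, h1, mul_div_mul_left]
  intro h; rw [h1, h] at h2; simp at h2

noncomputable def beta (p : ℕ) [Fact p.Prime] (d : ℕ) : ℂ :=
  (∑ x : Fin d → ZMod p, ZMod.stdAddChar (∏ i, x i)) / Fintype.card (Fin d → ZMod p)

theorem avg_diag {B : (Fin d → ι) → ZMod p} {T : Type} [Fintype T] [DecidableEq T]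
    (π : Fin d → T → ι) (hπ : ∀ i, Function.Injective (π i))
    (h : ∀ X, form B X = ∑ t, ∏ i, X i (π i t)) :
    (∑ X, ZMod.stdAddChar (form B X)) / Fintype.card (Fin d → ι → ZMod p) =
      beta p d ^ Fintype.card T := by
  let ψ : (Fin d → ι → ZMod p) →+ (T → Fin d → ZMod p) :=
    { toFun := fun X t i => X i (π i t), map_zero' := rfl, map_add' := fun _ _ => rfl }
  have hs : Function.Surjective ψ := fun Y =>
    ⟨fun i => Function.extend (π i) (fun t => Y t i) 0, by
      funext t i; exact (hπ i).extend_apply (fun t => Y t i) 0 t⟩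
  have := sum_surj ψ hs fun Y => ∏ t, ZMod.stdAddChar (∏ i, Y t i)
  simp only [h, char_sum]
  refine this.trans ?_
  rw [← Fintype.piFinset_univ, ← prod_univ_sum (fun _ => univ)
    fun (_ : T) (x : Fin d → ZMod p) => ZMod.stdAddChar (∏ i, x i)]
  simp [beta, div_pow]

theorem form_diag {T : Type} [Fintype T] [DecidableEq T] (π : Fin d → T → ι) (X : Fin d → ι → F) :
    form (fun I => ∑ t, ∏ i, if I i = π i t then 1 else 0) X = ∑ t, ∏ i, X i (π i t) := by
  unfold form
  simp only [sum_mul]
  rw [sum_comm]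
  refine sum_congr rfl fun t _ => ?_
  rw [sum_eq_single fun i => π i t]
  · simp
  · intro I _ hI
    obtain ⟨i, hi⟩ := Function.ne_iff.1 hI
    rw [prod_eq_zero (mem_univ i) (if_neg hi), zero_mul]
  · simp

noncomputable def b0 (p : ℕ) [Fact p.Prime] (d : ℕ) : ℝ := bias (idT (ZMod p) d Unit)

theorem form_id (X : Fin (d + 1) → ι → F) : form (idT F (d + 1) ι) X = ∑ t, ∏ i, X i t := by
  refine Eq.trans ?_ (form_diag (fun _ => id) X)
  congr 1; funext I; exact idT_eq I

theorem beta_eq : beta p (d + 1) = b0 p (d + 1) := by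
  have := avg_diag (p := p) (fun _ => id) (fun _ => Function.injective_id) (form_id (ι := Unit) (d := d))
  rw [b0, bias_eq _ 0, Fintype.card_unit, pow_one, sum_char _ 0] at *
  rw [← this]; push_cast; rfl

theorem bias_of_diag {B : (Fin (d + 1) → ι) → ZMod p} {T : Type} [Fintype T] [DecidableEq T]
    (π : Fin (d + 1) → T → ι) (hπ : ∀ i, Function.Injective (π i))
    (h : ∀ X, form B X = ∑ t, ∏ i, X i (π i t)) : bias B = b0 p (d + 1) ^ Fintype.card T := by
  have := avg_diag π hπ h
  rw [beta_eq, sum_char _ 0] at this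
  rw [bias_eq _ 0]
  exact_mod_cast this

theorem b0_lt : b0 p (d + 1) < 1 := by
  rw [b0, bias_eq _ 0, div_lt_one (Nat.cast_pos.2 Fintype.card_pos), Nat.cast_lt, ← card_univ]
  refine card_lt_card (filter_ssubset.2 ⟨1, mem_univ _, fun h => ?_⟩)
  simpa [slice, idT] using h ()

theorem Diag.inj {B : (Fin (d + 2) → ι) → F} {T : Type} [DecidableEq T]
    {π : Fin (d + 2) → T → ι} (h : Diag B π) (i : Fin (d + 2)) : Function.Injective (π i) := by
  intro t t' e
  have h1 := h (Function.update (fun _ => t') i t)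
  have h2 := h fun _ => t'
  have : (fun j => π j (Function.update (fun _ => t') i t j)) = fun j => π j t' := by
    funext j
    by_cases hj : j = i
    · subst hj; simpa using e
    · simp [hj]
  rw [this, h2] at h1
  simp only [idT, implies_true, if_true] at h1
  obtain ⟨j, hj⟩ := exists_ne i
  by_contra hne
  rw [if_neg fun h => hne (by simpa [hj] using h i j)] at h1
  exact one_ne_zero h1

theorem bias_le {B : (Fin (d + 2) → ι) → ZMod p} {T : Type} [Fintype T] [DecidableEq T]
    {π : Fin (d + 2) → T → ι} (h : Diag B π) : bias B ≤ b0 p (d + 2) ^ Fintype.card T := by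
  refine (bias_restr_all B (fun i => univ.image (π i)) univ).trans
    (le_of_eq (bias_of_diag π h.inj fun X => ?_))
  rw [← form_diag]
  congr 1; funext I
  split_ifs with hI
  · simp only [mem_univ, mem_image, true_and, forall_true_left] at hI
    choose s hs using hI
    obtain rfl : I = fun i => π i (s i) := funext fun i => (hs i).symm
    rw [h s, idT_eq]
    simp [(h.inj _).eq_iff]
  · refine (sum_eq_zero fun t _ => ?_).symm
    push Not at hI
    obtain ⟨i, -, hi⟩ := hI
    exact prod_eq_zero (mem_univ i) (if_neg fun e => hi (mem_image.2 ⟨t, mem_univ t, e.symm⟩))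

noncomputable def kap (p : ℕ) [Fact p.Prime] (d : ℕ) : ℝ := -Real.logb p (b0 p d)

theorem one_lt_p : (1 : ℝ) < p := by exact_mod_cast (Fact.out : p.Prime).one_lt

theorem kap_pos : 0 < kap p (d + 2) :=
  neg_pos.2 (Real.logb_neg one_lt_p (bias_pos _) b0_lt)

theorem arank_id : arank (idT (ZMod p) (d + 2) ι) = Fintype.card ι * kap p (d + 2) := by
  rw [arank, bias_of_diag (fun _ => id) (fun _ => Function.injective_id) form_id, Real.logb_pow, kap]
  ring

theorem le_arank {B : (Fin (d + 2) → ι) → ZMod p} {T : Type} [Fintype T] [DecidableEq T]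
    {π : Fin (d + 2) → T → ι} (h : Diag B π) : Fintype.card T * kap p (d + 2) ≤ arank B := by
  have := Real.logb_le_logb_of_le (one_lt_p (p := p)) (bias_pos B) (bias_le h)
  rw [Real.logb_pow] at this
  rw [arank, kap]; linarith

end bias

theorem tpow_id (m : ℕ) : tpow (idT F d ι) m = idT F d (Fin m → ι) := by
  funext I
  simp only [tpow, idT]
  split_ifs with h
  · exact prod_eq_one fun k _ => if_pos fun i j => by rw [h i j]
  · push Not at h
    obtain ⟨i, j, h⟩ := h
    obtain ⟨k, hk⟩ := Function.ne_iff.1 h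
    exact prod_eq_zero (mem_univ k) (if_neg fun e => hk (e i j))

end Pool.Agent.H34.TensorA
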