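import Mathlib
import Pool.Agent.H34.TensorA

namespace Pool.Agent.H34.TensorB
open Finset Pool.Agent.H34.TensorDefs Pool.Agent.H34.TensorA

section behrend
variable (h r : ℕ)

abbrev Q := (Fin r → Fin h) × (Fin r → Fin h)

variable {h r}

def cc (x : Q h r) (i : Fin r) : ℤ := 2 * h - 2 - x.1 i - x.2 i
def dd (x : Q h r) (i : Fin r) : ℤ := h - 1 - x.1 i + x.2 i

def f0 (h a c : ℤ) : ℤ := 2 * a ^ 2 + c ^ 2 + 2 * a * c - 2 * (2 * h - 2) * a - 2 * (2 * h - 2) * c
  - 2 * (h - 1) * a + (2 * h - 2) ^ 2 + (h - 1) ^ 2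
def f1 (h a d : ℤ) : ℤ := d ^ 2 + 2 * a * d - 2 * (h - 1) * d
def f2 (h b c : ℤ) : ℤ := 2 * b ^ 2 + 2 * b * c - 2 * (2 * h - 2) * b + 2 * (h - 1) * b
def f3 (b d : ℤ) : ℤ := -2 * b * d

theorem fsum (h a b c d : ℤ) : f0 h a c + f1 h a d + f2 h b c + f3 b d =
    (a + b + c - (2 * h - 2)) ^ 2 + (a - b + d - (h - 1)) ^ 2 := by
  unfold f0 f1 f2 f3; ring

def lev (x : Q h r) : ℤ × ℤ × ℤ × ℤ :=
  (∑ i, f0 h (x.1 i) (cc x i), ∑ i, f1 h (x.1 i) (dd x i), ∑ i, f2 h (x.2 i) (cc x i),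
    ∑ i, f3 (x.2 i) (dd x i))

theorem lev_eq {x y z w : Q h r} (h1 : lev x = lev y) (h2 : lev x = lev z) (h3 : lev x = lev w)
    (a : x.1 = y.1) (b : z.2 = w.2) (c : cc x = cc z) (d : dd y = dd w) :
    x = y ∧ x = z ∧ x = w := by
  have e0 : (lev x).1 + (lev x).2.1 + (lev x).2.2.1 + (lev x).2.2.2 = 0 := by
    simp only [lev, ← sum_add_distrib, fsum]
    exact sum_eq_zero fun i _ => by simp only [cc, dd]; ring
  have e1 : (lev x).1 + (lev y).2.1 + (lev z).2.2.1 + (lev w).2.2.2 = 0 := by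
    rw [← h1, ← h2, ← h3, e0]
  simp only [lev, ← a, ← b, ← c, ← d, ← sum_add_distrib, fsum] at e1
  have e2 := (sum_eq_zero_iff_of_nonneg fun i _ => by positivity).1 e1
  have k : ∀ i, (x.1 i : ℤ) + z.2 i + cc x i = 2 * h - 2 ∧ (x.1 i : ℤ) - z.2 i + dd y i = h - 1 := by
    intro i
    have := e2 i (mem_univ i)
    constructor <;> nlinarith [sq_nonneg ((x.1 i : ℤ) + z.2 i + cc x i - (2 * h - 2)),
      sq_nonneg ((x.1 i : ℤ) - z.2 i + dd y i - (h - 1))]
  have k2 : ∀ i, (x.1 i = y.1 i ∧ x.2 i = y.2 i) ∧ (x.1 i = z.1 i ∧ x.2 i = z.2 i) ∧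
      x.1 i = w.1 i ∧ x.2 i = w.2 i := by
    intro i
    have := k i
    have a := congrFun a i
    have b := congrFun b i
    have c := congrFun c i
    have d := congrFun d i
    simp only [cc, dd, Fin.ext_iff] at *
    omega
  exact ⟨Prod.ext (funext fun i => (k2 i).1.1) (funext fun i => (k2 i).1.2),
    Prod.ext (funext fun i => (k2 i).2.1.1) (funext fun i => (k2 i).2.1.2),
    Prod.ext (funext fun i => (k2 i).2.2.1) (funext fun i => (k2 i).2.2.2)⟩

theorem rng (x : Q h r) (i : Fin r) : (0 ≤ (x.1 i : ℤ) ∧ (x.1 i : ℤ) < h) ∧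
    (0 ≤ (x.2 i : ℤ) ∧ (x.2 i : ℤ) < h) ∧ (0 ≤ cc x i ∧ cc x i < 2 * h - 1) ∧
    0 ≤ dd x i ∧ dd x i < 2 * h - 1 := by
  have := (x.1 i).isLt
  have := (x.2 i).isLt
  simp only [cc, dd]
  omega

theorem sum_mem (g : Fin r → ℤ) (B : ℤ) (hg : ∀ i, -B ≤ g i ∧ g i ≤ B) :
    ∑ i, g i ∈ Icc (-(r * B)) (r * B) := by
  rw [mem_Icc]
  constructor
  · simpa using sum_le_sum (s := univ) fun i _ => (hg i).1
  · simpa using sum_le_sum (s := univ) fun i _ => (hg i).2

theorem exists_M (h r : ℕ) : ∃ M : Finset (Q h r), (∀ x ∈ M, ∀ y ∈ M, lev x = lev y) ∧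
    h ^ r * h ^ r ≤ M.card * (40 * h ^ 2 * r + 1) ^ 4 := by
  let I := Icc (-(r * (20 * h ^ 2) : ℤ)) (r * (20 * h ^ 2))
  have hI : ∀ x : Q h r, lev x ∈ I ×ˢ I ×ˢ I ×ˢ I := fun x => by
    simp only [mem_product, lev]
    refine ⟨sum_mem _ _ fun i => ?_, sum_mem _ _ fun i => ?_, sum_mem _ _ fun i => ?_,
      sum_mem _ _ fun i => ?_⟩ <;> obtain ⟨⟨a1, a2⟩, ⟨b1, b2⟩, ⟨c1, c2⟩, d1, d2⟩ := rng x i <;>
      simp only [f0, f1, f2, f3] <;> constructor <;> nlinarith
  obtain ⟨t, -, ht⟩ := exists_max_image (I ×ˢ I ×ˢ I ×ˢ I)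
    (fun t => (univ.filter fun x : Q h r => lev x = t).card) ⟨0, by simp [I]; positivity⟩
  refine ⟨univ.filter fun x => lev x = t, fun x hx y hy =>
    (mem_filter.1 hx).2.trans (mem_filter.1 hy).2.symm, ?_⟩
  have := card_le_mul_card_image_of_maps_to (s := univ) (fun x _ => hI x) _ ht
  have cI : I.card = 40 * h ^ 2 * r + 1 := by
    simp only [I, Int.card_Icc]
    have : (r * (20 * h ^ 2) + 1 - -(r * (20 * h ^ 2)) : ℤ) = (40 * h ^ 2 * r + 1 : ℕ) := by
      push_cast; ring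
    rw [this, Int.toNat_natCast]
  simp only [card_product, cI, card_univ, Fintype.card_prod, Fintype.card_fun,
    Fintype.card_fin] at this
  calc _ ≤ _ := this
    _ = _ := by ring

end behrend

variable {F : Type} [Field F]

def A0 (F : Type) [Field F] (k : ℕ) (I : Fin 4 → Bool × Fin k) : F :=
  if ((∀ j, (I j).1 = false) ∧ (I 0).2 = (I 1).2 ∧ (I 2).2 = (I 3).2) ∨
    ((∀ j, (I j).1 = true) ∧ (I 0).2 = (I 2).2 ∧ (I 1).2 = (I 3).2) then 1 else 0

theorem exists_diag (k u h r : ℕ) (hh : 1 ≤ h) (hk : (2 * h - 1) ^ r ≤ k ^ u) :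
    ∃ (T : Type) (_ : Fintype T) (_ : DecidableEq T) (π : Fin 4 → T → Fin (2 * u) → Bool × Fin k),
      Diag (tpow (A0 F k) (2 * u)) π ∧
      4 ^ u * (h ^ r * h ^ r) ≤ Fintype.card T * ((2 * u + 1) * (40 * h ^ 2 * r + 1) ^ 4) := by
  classical
  obtain ⟨M, hM, cM⟩ := exists_M h r
  obtain ⟨E⟩ : Nonempty ((Fin r → Fin (2 * h - 1)) ↪ (Fin u → Fin k)) :=
    Function.Embedding.nonempty_of_card_le (by simpa using hk)
  let enc : (Fin r → ℤ) → Fin u → Fin k := fun v => E fun i =>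
    ⟨(v i).toNat % (2 * h - 1), Nat.mod_lt _ (by omega)⟩
  have enc_inj : ∀ v w : Fin r → ℤ, (∀ i, 0 ≤ v i ∧ v i < 2 * h - 1) →
      (∀ i, 0 ≤ w i ∧ w i < 2 * h - 1) → enc v = enc w → v = w := by
    intro v w hv hw e
    funext i
    have := congrArg Fin.val (congrFun (E.injective e) i)
    have := hv i
    have := hw i
    simp only at *
    rw [Nat.mod_eq_of_lt (by omega), Nat.mod_eq_of_lt (by omega)] at *
    omega
  let SS := {S : Finset (Fin (2 * u)) // S.card = u}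
  have ex : ∀ S : SS, ∃ σ : Fin (2 * u) → Fin u, (∀ y, ∃ q ∈ S.1, σ q = y) ∧
      ∀ y, ∃ q ∉ S.1, σ q = y := by
    intro S
    let e1 : S.1 ≃ Fin u := S.1.equivFinOfCardEq S.2
    let e2 : (S.1ᶜ : Finset _) ≃ Fin u := S.1ᶜ.equivFinOfCardEq (by
      rw [card_compl, S.2]; simp; omega)
    refine ⟨fun q => if hq : q ∈ S.1 then e1 ⟨q, hq⟩ else e2 ⟨q, mem_compl.2 hq⟩, fun y => ?_,
      fun y => ?_⟩
    · exact ⟨e1.symm y, (e1.symm y).2, by simp⟩
    · refine ⟨e2.symm y, mem_compl.1 (e2.symm y).2, ?_⟩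
      simp [mem_compl.1 (e2.symm y).2]
  choose σ σ1 σ2 using ex
  let lo : Fin 4 → Q h r → Fin r → ℤ := ![fun x i => x.1 i, fun x i => x.1 i, fun x i => x.2 i,
    fun x i => x.2 i]
  let hi : Fin 4 → Q h r → Fin r → ℤ := ![cc, dd, cc, dd]
  have rlo : ∀ j x i, 0 ≤ lo j x i ∧ lo j x i < 2 * h - 1 := fun j x i => by
    have := rng x i
    fin_cases j <;> simp [lo] <;> omega
  have rhi : ∀ j x i, 0 ≤ hi j x i ∧ hi j x i < 2 * h - 1 := fun j x i => by
    have := rng x i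
    fin_cases j <;> simp [hi] <;> omega
  refine ⟨SS × M, inferInstance, inferInstance, fun j t q => (decide (q ∈ t.1.1),
    if q ∈ t.1.1 then enc (hi j t.2) (σ t.1 q) else enc (lo j t.2) (σ t.1 q)), fun s => ?_, ?_⟩
  · simp only [tpow, idT]
    split_ifs with hs
    · obtain ⟨t, rfl⟩ : ∃ t, s = fun _ => t := ⟨s 0, funext fun j => hs j 0⟩
      refine prod_eq_one fun q _ => if_pos ?_
      by_cases hq : q ∈ t.1.1 <;> simp [hq, lo, hi]
    · by_contra hne
      have hall := fun q => ite_ne_right_iff.1 (prod_ne_zero_iff.1 hne q (mem_univ q)) |>.1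
      have hS : ∀ j, (s j).1 = (s 0).1 := fun j => Subtype.ext (Finset.ext fun q => by
        rcases hall q with h | h
        · have h1 := h.1 j; have h2 := h.1 0; simp_all
        · have h1 := h.1 j; have h2 := h.1 0; simp_all)
      simp only [hS] at hall
      have l : enc (lo 0 (s 0).2) = enc (lo 1 (s 1).2) ∧ enc (lo 2 (s 2).2) = enc (lo 3 (s 3).2) := by
        constructor <;> funext y <;> obtain ⟨q, hq, rfl⟩ := σ2 (s 0).1 y <;>
          have := hall q <;> simp [hq] at this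
        · exact this.1
        · exact this.2
      have l' : enc (hi 0 (s 0).2) = enc (hi 2 (s 2).2) ∧ enc (hi 1 (s 1).2) = enc (hi 3 (s 3).2) := by
        constructor <;> funext y <;> obtain ⟨q, hq, rfl⟩ := σ1 (s 0).1 y <;>
          have := hall q <;> simp [hq] at this
        · exact this.1
        · exact this.2
      have a := enc_inj _ _ (rlo _ _) (rlo _ _) l.1
      have b := enc_inj _ _ (rlo _ _) (rlo _ _) l.2
      have c := enc_inj _ _ (rhi _ _) (rhi _ _) l'.1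
      have d := enc_inj _ _ (rhi _ _) (rhi _ _) l'.2
      have := lev_eq (hM _ (s 0).2.2 _ (s 1).2.2) (hM _ (s 0).2.2 _ (s 2).2.2)
        (hM _ (s 0).2.2 _ (s 3).2.2)
        (funext fun i => Fin.ext (by simpa [lo] using congrFun a i))
        (funext fun i => Fin.ext (by simpa [lo] using congrFun b i)) c d
      have e : ∀ j, s j = s 0 := fun j => Prod.ext (hS j) (Subtype.ext (by
        fin_cases j
        · rfl
        · exact this.1.symm
        · exact this.2.1.symm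
        · exact this.2.2.symm))
      exact hs fun i j => (e i).trans (e j).symm
  · have c1 : Fintype.card SS = (2 * u).choose u := by simp [SS]
    rw [Fintype.card_prod, c1, Fintype.card_coe]
    have := Nat.mul_le_mul (Nat.four_pow_le_two_mul_add_one_mul_central_binom u) cM
    calc _ ≤ _ := this
      _ = _ := by ring

theorem exists_big (k : ℕ) (hk : 1 ≤ k) (c : ℝ) (hc : c < 1) :
    ∃ (m : ℕ) (T : Type) (_ : Fintype T) (_ : DecidableEq T) (π : Fin 4 → T → Fin m → Bool × Fin k),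
      1 ≤ m ∧ Diag (tpow (A0 F k) m) π ∧ c ^ m * (2 * k) ^ m ≤ Fintype.card T := by
  by_cases h0 : c ≤ 0
  · refine ⟨1, Empty, inferInstance, inferInstance, fun _ => Empty.elim, le_rfl,
      fun s => (s 0).elim, ?_⟩
    simp only [pow_one, Fintype.card_eq_zero, Nat.cast_zero]
    exact mul_nonpos_of_nonpos_of_nonneg h0 (by positivity)
  push Not at h0
  obtain ⟨j, hj, j1⟩ := (((tendsto_pow_atTop_nhds_zero_of_lt_one h0.le hc).eventually
    (gt_mem_nhds (show (0 : ℝ) < 1 / 3 by norm_num))).and (Filter.eventually_ge_atTop 1)).exists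
  set L := k ^ j
  have L1 : 1 ≤ L := Nat.one_le_pow _ _ hk
  set h := (L + 1) / 2
  set C : ℝ := (2 * j + 1) * (40 * h ^ 2 + 1) ^ 4
  have C0 : 0 < C := by positivity
  obtain ⟨r, hr, r1⟩ := (((tendsto_pow_const_div_const_pow_of_one_lt 5 one_lt_two).eventually
    (gt_mem_nhds (inv_pos.2 C0))).and (Filter.eventually_ge_atTop 1)).exists
  obtain ⟨T, _, _, π, h1, h2⟩ := exists_diag (F := F) k (j * r) h r (by omega) (by
    rw [pow_mul]; exact Nat.pow_le_pow_left (by omega) r)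
  refine ⟨_, T, inferInstance, inferInstance, π, by nlinarith [Nat.mul_le_mul j1 r1], h1, ?_⟩
  have h3 : (4 : ℝ) ^ (j * r) * (h ^ r * h ^ r) ≤
      Fintype.card T * ((2 * (j * r) + 1) * (40 * h ^ 2 * r + 1) ^ 4) := by exact_mod_cast h2
  have r1' : (1 : ℝ) ≤ r := by exact_mod_cast r1
  have b1 : ((2 * (j * r) + 1) * (40 * h ^ 2 * r + 1) ^ 4 : ℝ) ≤ 2 ^ r := by
    have a1 : (2 * (j * r) + 1 : ℝ) ≤ (2 * j + 1) * r := by nlinarith
    have a2 : (40 * h ^ 2 * r + 1 : ℝ) ≤ (40 * h ^ 2 + 1) * r := by nlinarith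
    have a3 : C * r ^ 5 ≤ 2 ^ r := by
      rw [div_lt_iff₀ (by positivity), inv_mul_eq_div, lt_div_iff₀ C0] at hr
      linarith
    calc _ ≤ ((2 * j + 1) * r) * ((40 * h ^ 2 + 1) * r : ℝ) ^ 4 := by gcongr
      _ = C * r ^ 5 := by ring
      _ ≤ _ := a3
  have b2 : (k : ℝ) ^ j ≤ 2 * h := by
    have : L ≤ 2 * h := by omega
    exact_mod_cast this
  have b3 : c ^ (2 * (j * r)) * (2 * k) ^ (2 * (j * r)) * 2 ^ r ≤
      (4 : ℝ) ^ (j * r) * (h ^ r * h ^ r) := by
    have e1 : c ^ (2 * (j * r)) * (2 * k) ^ (2 * (j * r)) * 2 ^ r =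
        4 ^ (j * r) * ((c ^ j) ^ 2 * ((k : ℝ) ^ j) ^ 2 * 2) ^ r := by
      rw [show (4 : ℝ) = 2 ^ 2 by norm_num]
      simp only [mul_pow, ← pow_mul]
      ring_nf
    rw [e1, ← mul_pow (h : ℝ)]
    refine mul_le_mul_of_nonneg_left (pow_le_pow_left₀ (by positivity) ?_ r) (by positivity)
    calc _ ≤ (1 / 3) ^ 2 * (2 * h : ℝ) ^ 2 * 2 := by gcongr
      _ ≤ _ := by nlinarith [sq_nonneg (h : ℝ)]
  have b4 := mul_le_mul_of_nonneg_left b1 (Nat.cast_nonneg (α := ℝ) (Fintype.card T))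
  exact le_of_mul_le_mul_right (b3.trans (h3.trans b4)) (by positivity)

def AA (F : Type) [Field F] {k n : ℕ} (e : Fin n ≃ Bool × Fin k) (I : Fin 4 → Fin n) : F :=
  A0 F k fun j => e (I j)

def ip {k n : ℕ} (e : Fin n ≃ Bool × Fin k) (b : Bool) (x y : Fin n → F) : F :=
  ∑ a, x (e.symm (b, a)) * y (e.symm (b, a))

theorem A0_eq {k : ℕ} (J : Fin 4 → Bool × Fin k) : A0 F k J =
    (∑ x, ∑ y, (((if J 0 = (false, x) then 1 else 0) * if J 1 = (false, x) then 1 else 0) *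
      if J 2 = (false, y) then 1 else 0) * if J 3 = (false, y) then 1 else 0) +
    ∑ x, ∑ y, (((if J 0 = (true, x) then 1 else 0) * if J 1 = (true, y) then 1 else 0) *
      if J 2 = (true, x) then 1 else 0) * if J 3 = (true, y) then 1 else 0 := by
  obtain ⟨⟨b0, a0⟩, ⟨b1, a1⟩, ⟨b2, a2⟩, ⟨b3, a3⟩, rfl⟩ : ∃ p0 p1 p2 p3, J = ![p0, p1, p2, p3] :=
    ⟨J 0, J 1, J 2, J 3, by funext i; fin_cases i <;> rfl⟩
  cases b0 <;> cases b1 <;> cases b2 <;> cases b3 <;> simp [A0, Fin.forall_fin_succ, ite_and] <;>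
    split_ifs <;> simp_all

theorem form_AA {k n : ℕ} (e : Fin n ≃ Bool × Fin k) (X : Fin 4 → Fin n → F) :
    form (AA F e) X = ip e false (X 0) (X 1) * ip e false (X 2) (X 3) +
      ip e true (X 0) (X 2) * ip e true (X 1) (X 3) := by
  let π : Fin 4 → (Fin k × Fin k) ⊕ (Fin k × Fin k) → Fin n := fun j => Sum.elim
    (fun p => e.symm (false, ![p.1, p.1, p.2, p.2] j)) fun p => e.symm (true, ![p.1, p.2, p.1, p.2] j)
  have := form_diag π X
  simp only [Fintype.sum_sum_type, Fintype.sum_prod_type, Fin.prod_univ_four, π, Sum.elim_inl,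
    Sum.elim_inr] at this
  simp only [ip, sum_mul_sum]
  convert this using 2
  · funext I
    simp only [AA, ← e.apply_eq_iff_eq_symm_apply, Matrix.cons_val]
    exact A0_eq _
  · simp [mul_assoc]
  · refine sum_congr rfl fun a _ => sum_congr rfl fun b _ => ?_
    simp only [Matrix.cons_val]; ring

theorem prank_AA {k n : ℕ} (e : Fin n ≃ Bool × Fin k) : prank (AA F e) ≤ 2 := by
  refine Nat.sInf_le ⟨![{0, 1}, {0, 2}],
    ![fun X => ip e false (X 0) (X 1), fun X => ip e true (X 0) (X 2)],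
    ![fun X => ip e false (X 2) (X 3), fun X => ip e true (X 1) (X 3)], fun j => ?_, fun X => ?_⟩
  · fin_cases j
    · refine ⟨(Set.insert_nonempty _ _).ne_empty, fun h => by simpa using h.ge (Set.mem_univ 3), fun X Y h => ?_, fun X Y h => ?_⟩
      · simp [h 0 (by simp), h 1 (by simp)]
      · simp [h 2 (by simp), h 3 (by simp)]
    · refine ⟨(Set.insert_nonempty _ _).ne_empty, fun h => by simpa using h.ge (Set.mem_univ 3), fun X Y h => ?_, fun X Y h => ?_⟩
      · simp [h 0 (by simp), h 2 (by simp)]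
      · simp [h 1 (by simp), h 3 (by simp)]
  · simp [form_AA]

theorem arank_AA {p : ℕ} [Fact p.Prime] {k n : ℕ} (e : Fin n ≃ Bool × Fin k) :
    arank (AA (ZMod p) e) ≤ 2 := by
  classical
  have hp := one_lt_p (p := p)
  have key : ((p : ℝ) ^ 2)⁻¹ ≤ bias (AA (ZMod p) e) := by
    rw [bias_eq _ 0, le_div_iff₀ (Nat.cast_pos.2 Fintype.card_pos), inv_mul_le_iff₀ (by positivity)]
    norm_cast
    have h1 : ∀ z : Fin n → ZMod p, (univ.filter fun X : Fin 4 → Fin n → ZMod p => X 3 = z).card ≤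
        p ^ 2 * (univ.filter fun X : Fin 4 → Fin n → ZMod p => X 3 = z ∧
          ip e false (X 2) (X 3) = 0 ∧ ip e true (X 1) (X 3) = 0).card := by
      intro z
      let ψ : (Fin 4 → Fin n → ZMod p) →+ (Fin n → ZMod p) × ZMod p × ZMod p :=
        { toFun := fun X => (X 3, ip e false (X 2) z, ip e true (X 1) z)
          map_zero' := by simp [ip]
          map_add' := fun X Y => by simp [ip, add_mul, sum_add_distrib] }
      have := card_le_mul_card_image_of_maps_to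
        (s := univ.filter fun X : Fin 4 → Fin n → ZMod p => X 3 = z)
        (t := {z} ×ˢ univ) (f := ψ) (fun X hX => by simpa [ψ, eq_comm] using hX)
        (univ.filter fun X => ψ X = (z, 0, 0)).card (fun b hb => by
          refine (card_le_card (monotone_filter_left _ (filter_subset _ _))).trans ?_
          by_cases hb' : b ∈ Set.range ψ
          · exact (AddMonoidHom.card_fiber_eq_of_mem_range ψ hb'
              ⟨Function.update 0 3 z, by simp [ψ, ip]⟩).le
          · rw [filter_false_of_mem fun x _ h => hb' ⟨x, h⟩]; simp)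
      rw [mul_comm] at this
      convert this using 2
      · simp [sq]
      · refine congrArg card (filter_congr fun X _ => ?_)
        simp only [ψ, AddMonoidHom.coe_mk, ZeroHom.coe_mk, Prod.mk.injEq]
        exact and_congr_right fun h => by rw [h]
    rw [← card_univ, card_eq_sum_card_fiberwise (f := fun X => X 3) (t := univ) (by simp),
      card_eq_sum_card_fiberwise (f := fun X => X 3) (t := univ) (by simp), mul_sum]
    refine sum_le_sum fun z _ => (h1 z).trans (Nat.mul_le_mul_left _ (card_le_card fun X hX => ?_))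
    simp only [mem_filter, mem_univ, true_and] at hX ⊢
    refine ⟨fun a => ?_, hX.1⟩
    have h2 := form_eq (AA (ZMod p) e) 0 (Function.update X 0 (Pi.single a 1))
    rw [form_AA, slice_dep _ 0 (Y := X) fun j hj => Function.update_of_ne hj _ _] at h2
    simpa [hX.2.1, hX.2.2, Pi.single_apply] using h2.symm
  have := Real.logb_le_logb_of_le hp (by positivity) key
  rw [Real.logb_inv, Real.logb_pow, Real.logb_self_eq_one hp] at this
  rw [arank]; push_cast at this; linarith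

theorem diag_AA {k n m : ℕ} (e : Fin n ≃ Bool × Fin k) {T : Type} [DecidableEq T]
    {π : Fin 4 → T → Fin m → Bool × Fin k} (h : Diag (tpow (A0 F k) m) π) :
    Diag (tpow (AA F e) m) fun i t q => e.symm (π i t q) := fun s => by
  rw [← h s]; simp [tpow, AA]

theorem prank_id {ι : Type} [Fintype ι] [DecidableEq ι] : prank (idT F 4 ι) = Fintype.card ι :=
  le_antisymm (prank_le _) (le_prank (π := fun _ => id) fun _ => rfl)

theorem main_p (F : Type) [Field F] : ∃ (n : ℕ) (A : (Fin 4 → Fin n) → F), 1 ≤ n ∧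
    prank A < prank (idT F 4 (Fin n)) ∧ ∀ c : ℝ, c < 1 → ∃ m : ℕ, 1 ≤ m ∧
      c ^ m * prank (tpow (idT F 4 (Fin n)) m) ≤ prank (tpow A m) := by
  let e : Fin 4 ≃ Bool × Fin 2 := Fintype.equivOfCardEq (by simp)
  refine ⟨4, AA F e, by norm_num, (prank_AA e).trans_lt (by simp [prank_id]), fun c hc => ?_⟩
  obtain ⟨m, T, _, _, π, h1, h2, h3⟩ := exists_big (F := F) 2 (by norm_num) c hc
  refine ⟨m, h1, ?_⟩
  rw [tpow_id, prank_id]
  have : (Fintype.card T : ℝ) ≤ prank (tpow (AA F e) m) := by exact_mod_cast le_prank (diag_AA e h2)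
  refine le_trans ?_ (h3.trans this)
  simp; norm_num

theorem main_a (p : ℕ) [Fact p.Prime] : ∃ (n : ℕ) (A : (Fin 4 → Fin n) → ZMod p), 1 ≤ n ∧
    arank A < arank (idT (ZMod p) 4 (Fin n)) ∧ ∀ c : ℝ, c < 1 → ∃ m : ℕ, 1 ≤ m ∧
      c ^ m * arank (tpow (idT (ZMod p) 4 (Fin n)) m) ≤ arank (tpow A m) := by
  have k0 : 0 < kap p 4 := kap_pos
  obtain ⟨k, hk⟩ := exists_nat_gt (1 / kap p 4)
  have k1 : 1 ≤ k := by
    have : (0 : ℝ) < k := lt_trans (by positivity) hk
    exact_mod_cast this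
  rw [div_lt_iff₀ k0] at hk
  let e : Fin (2 * k) ≃ Bool × Fin k := Fintype.equivOfCardEq (by simp)
  refine ⟨2 * k, AA _ e, by omega, (arank_AA e).trans_lt ?_, fun c hc => ?_⟩
  · rw [arank_id (d := 2)]; simp only [Fintype.card_fin]; push_cast; linarith
  obtain ⟨m, T, _, _, π, h1, h2, h3⟩ := exists_big (F := ZMod p) k k1 c hc
  refine ⟨m, h1, ?_⟩
  rw [tpow_id, arank_id (d := 2), ← mul_assoc]
  refine le_trans (mul_le_mul_of_nonneg_right ?_ k0.le) (le_arank (d := 2) (diag_AA e h2))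
  simpa using h3

end Pool.Agent.H34.TensorB
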