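import Mathlib

namespace Pool.Agent.H34.ThreshDefs

variable {ι : Type} [Fintype ι]

/-- `f` is a weighted threshold function. -/
def Weighted (f : (ι → Bool) → Bool) : Prop :=
  ∃ (w : ι → ℝ) (q : ℝ), ∀ x, f x = true ↔ q ≤ ∑ i, w i * ((x i).toNat : ℝ)

/-- There are `j` true vectors and `j` false vectors (repetitions allowed) with the same sum. -/
def Trade (f : (ι → Bool) → Bool) (j : ℕ) : Prop :=
  ∃ x y : Fin j → ι → Bool, (∀ t, f (x t) = true) ∧ (∀ t, f (y t) = false) ∧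
    ∀ i, ∑ t, ((x t i).toNat : ℤ) = ∑ t, ((y t i).toNat : ℤ)

/-- `f` is `m`-asummable: no such lists exist for any length `j` with `1 ≤ j ≤ m`. -/
def Asummable (f : (ι → Bool) → Bool) (m : ℕ) : Prop :=
  ∀ j, 1 ≤ j → j ≤ m → ¬ Trade f j

end Pool.Agent.H34.ThreshDefs
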