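import Mathlib
import Pool.Agent.H34.ThreshDefs

namespace Pool.Agent.H34.Thresh
open Finset Pool.Agent.H34.ThreshDefs

def vec {ι : Type} (x : ι → Bool) : ι → ℝ := fun k => ((x k).toNat : ℝ)

section circuit
variable {I C : Type} [Fintype I] [Fintype C] [DecidableEq I] [DecidableEq C] (H : C → I → ℤ)

def pt (j : I) (s : Bool) : I ⊕ C → Bool :=
  Sum.elim (fun i => decide (i = j)) fun c => decide (H c j = if s then 1 else -1)

def cnt (j : I) (s : Bool) : ℕ := (univ.filter fun c => H c j = if s then 1 else -1).card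

noncomputable def w0 : ((I ⊕ C) → ℝ) →ₗ[ℝ] ℝ where
  toFun v := ∑ i, ((Fintype.card C + 1 : ℝ) - cnt H i true) * v (.inl i) + ∑ c, v (.inr c)
  map_add' u v := by simp only [Pi.add_apply, mul_add, sum_add_distrib]; ring
  map_smul' a v := by
    simp only [Pi.smul_apply, smul_eq_mul, RingHom.id_apply, mul_add, mul_sum]
    congr 1; exact sum_congr rfl fun _ _ => by ring

variable {H}

theorem cnt_eq (ng : C ≃ C) (hng : ∀ c i, H (ng c) i = -H c i) (j : I) (s : Bool) :
    cnt H j s = cnt H j true := by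
  cases s
  · refine card_bij (fun c _ => ng c) ?_ (fun _ _ _ _ h => ng.injective h) ?_
    · intro c hc
      simp only [mem_filter, mem_univ, true_and, Bool.false_eq_true, if_false, if_true] at hc ⊢
      rw [hng, hc]; rfl
    · intro c hc
      refine ⟨ng.symm c, ?_, by simp⟩
      simp only [mem_filter, mem_univ, true_and, Bool.false_eq_true, if_false, if_true] at hc ⊢
      have := hng (ng.symm c) j
      rw [ng.apply_symm_apply, hc] at this
      omega
  · rfl

theorem w0_pt (ng : C ≃ C) (hng : ∀ c i, H (ng c) i = -H c i) (j : I) (s : Bool) :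
    w0 H (vec (pt H j s)) = Fintype.card C + 1 := by
  have h1 : ∑ c, vec (pt H j s) (.inr c) = cnt H j s := by
    simp only [vec, pt, cnt, Sum.elim_inr, card_filter]
    push_cast
    exact sum_congr rfl fun c _ => by split_ifs <;> simp [*]
  have h2 : ∀ i, vec (pt H j s) (.inl i) = if i = j then 1 else 0 := by
    intro i; simp only [vec, pt, Sum.elim_inl]; split_ifs with h <;> simp [h]
  simp only [w0, LinearMap.coe_mk, AddHom.coe_mk, h1, h2, cnt_eq ng hng j s]
  simp

theorem w0_lt {x y : I ⊕ C → Bool} (h : x ≤ y) (hne : x ≠ y) : w0 H (vec x) < w0 H (vec y) := by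
  have le : ∀ k, vec x k ≤ vec y k := fun k => by
    have := h k
    simp only [vec]
    revert this; cases x k <;> cases y k <;> simp
  have pos : ∀ i, (0 : ℝ) < (Fintype.card C + 1 : ℝ) - cnt H i true := fun i => by
    have : cnt H i true ≤ Fintype.card C := card_le_univ _
    have : (cnt H i true : ℝ) ≤ Fintype.card C := by exact_mod_cast this
    linarith
  obtain ⟨k, hk⟩ := Function.ne_iff.1 hne
  have lt : vec x k < vec y k := by
    have := h k
    simp only [vec]
    revert this hk; cases x k <;> cases y k <;> simp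
  simp only [w0, LinearMap.coe_mk, AddHom.coe_mk]
  rcases k with k | k
  · exact add_lt_add_of_lt_of_le (sum_lt_sum (fun i _ => mul_le_mul_of_nonneg_left (le _) (pos i).le)
      ⟨k, mem_univ _, mul_lt_mul_of_pos_left lt (pos k)⟩) (sum_le_sum fun c _ => le _)
  · exact add_lt_add_of_le_of_lt (sum_le_sum fun i _ => mul_le_mul_of_nonneg_left (le _) (pos i).le)
      (sum_lt_sum (fun c _ => le _) ⟨k, mem_univ _, lt⟩)

def Rigid (H : C → I → ℤ) : Prop :=
  ∀ (j : I) (d : I → ℝ), (∀ c, H c j = 0 → ∑ i, H c i * d i = 0) →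
    (∀ c, H c j = 1 → ∑ i, H c i * d i = 1 ∨ ∑ i, H c i * d i = -1) →
    ∃ σ : ℝ, (σ = 1 ∨ σ = -1) ∧ ∀ c, ∑ i, H c i * d i = σ * H c j

theorem zero_set (ng : C ≃ C) (hng : ∀ c i, H (ng c) i = -H c i)
    (hv : ∀ c i, H c i = 0 ∨ H c i = 1 ∨ H c i = -1) (hr : Rigid H) (x : I ⊕ C → Bool)
    (h0 : w0 H (vec x) = Fintype.card C + 1)
    (hD : vec x ∈ Submodule.span ℝ (Set.range fun p : I × Bool => vec (pt H p.1 p.2))) :
    ∃ j s, x = pt H j s := by
  obtain ⟨l, hl⟩ := (Submodule.mem_span_range_iff_exists_fun ℝ).1 hD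
  have h1 : ∑ p, l p = 1 := by
    rw [← hl, map_sum] at h0
    simp only [map_smul, w0_pt ng hng, smul_eq_mul, ← sum_mul] at h0
    have : (Fintype.card C + 1 : ℝ) ≠ 0 := by positivity
    exact mul_right_cancel₀ this (by rw [h0, one_mul])
  have ha : ∀ i, vec x (.inl i) = l (i, true) + l (i, false) := by
    intro i
    rw [← hl]
    simp only [Finset.sum_apply, Pi.smul_apply, smul_eq_mul, vec, pt, Sum.elim_inl,
      Fintype.sum_prod_type, Fintype.sum_bool]
    rw [sum_eq_single i] <;> simp +contextual [eq_comm]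
  have hc : ∀ c, 2 * vec x (.inr c) = ∑ i, |(H c i : ℝ)| * vec x (.inl i) +
      ∑ i, H c i * (l (i, true) - l (i, false)) := by
    intro c
    simp only [ha]
    rw [← hl]
    simp only [Finset.sum_apply, Pi.smul_apply, smul_eq_mul, vec, pt, Sum.elim_inr,
      Fintype.sum_prod_type, Fintype.sum_bool, mul_sum, ← sum_add_distrib]
    refine sum_congr rfl fun i _ => ?_
    rcases hv c i with h | h | h <;> simp [h] <;> ring
  have h2 : ∑ i, vec x (.inl i) = 1 := by
    simp only [ha]; rw [← h1]; simp [Fintype.sum_prod_type]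
  have h3 : (univ.filter fun i => x (.inl i) = true).card = 1 := by
    have : ((univ.filter fun i => x (.inl i) = true).card : ℝ) = 1 := by
      rw [← h2, card_filter]; push_cast
      exact sum_congr rfl fun i _ => by simp only [vec]; cases x (.inl i) <;> simp
    exact_mod_cast this
  obtain ⟨j, hj⟩ := card_eq_one.1 h3
  have hx : ∀ i, x (.inl i) = decide (i = j) := by
    intro i
    have := Finset.ext_iff.1 hj i
    simp only [mem_filter, mem_univ, true_and, mem_singleton] at this
    by_cases h : i = j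
    · simp [h, (h ▸ this).2 rfl]
    · simp only [h, iff_false] at this; simp [h, this]
  have hc' : ∀ c, 2 * vec x (.inr c) = |(H c j : ℝ)| +
      ∑ i, H c i * (l (i, true) - l (i, false)) := by
    intro c
    rw [hc]
    congr 1
    rw [sum_eq_single j] <;> simp +contextual [vec, hx]
  have v01 : ∀ k, vec x k = 0 ∨ vec x k = 1 := fun k => by simp only [vec]; cases x k <;> simp
  obtain ⟨σ, hσ, hs⟩ := hr j (fun i => l (i, true) - l (i, false)) (by
    intro c h
    have a1 := hc' c
    have a2 := hc' (ng c)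
    simp only [hng, h, Int.cast_neg, neg_mul, sum_neg_distrib, Int.cast_zero, abs_zero, neg_zero] at a1 a2
    rcases v01 (.inr c) with h1 | h1 <;> rcases v01 (.inr (ng c)) with h2 | h2 <;> linarith) (by
    intro c h
    have a1 := hc' c
    simp only [h, Int.cast_one, abs_one] at a1
    rcases v01 (.inr c) with h1 | h1
    · right; linarith
    · left; linarith)
  refine ⟨j, decide (σ = 1), funext ?_⟩
  rintro (i | c)
  · exact hx i
  · have a1 := hc' c
    rw [hs] at a1
    simp only [vec, pt, Sum.elim_inr] at a1 ⊢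
    have n1 : (-1 : ℝ) ≠ 1 := by norm_num
    rcases hσ with rfl | rfl <;> rcases hv c j with h | h | h <;> revert a1 <;>
      cases x (.inr c) <;> simp [h, n1] <;> norm_num

theorem sum_comp {L : ℕ} (α : Fin L → I) (g : I → ℤ) :
    ∑ t, g (α t) = ∑ i, (∑ t, if i = α t then 1 else 0 : ℤ) * g i := by
  simp only [sum_mul, ite_mul, one_mul, zero_mul]
  rw [sum_comm]; simp

theorem circuit (ng : C ≃ C) (hng : ∀ c i, H (ng c) i = -H c i)
    (hv : ∀ c i, H c i = 0 ∨ H c i = 1 ∨ H c i = -1) (hr : Rigid H) (hn : ∀ j, ∃ c, H c j = 1) :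
    ∃ f : (I ⊕ C → Bool) → Bool, Monotone f ∧
      ((∃ m : I → ℕ, 0 < ∑ i, m i ∧ ∀ c, ∑ i, H c i * m i = 0) → ¬ Weighted f) ∧
      ∀ L, Trade f L → ∃ m : I → ℕ, ∑ i, m i = L ∧ ∀ c, ∑ i, H c i * m i = 0 := by
  classical
  set D := Submodule.span ℝ (Set.range fun p : I × Bool => vec (pt H p.1 p.2))
  obtain ⟨g, hg⟩ := Module.exists_dual_forall_apply_ne_zero (K := ℝ)
    (fun x : {x : I ⊕ C → Bool // vec x ∉ D} => D.mkQ (vec x.1))
    fun x hx => x.2 ((Submodule.Quotient.mk_eq_zero D).1 hx)
  let w1 : ((I ⊕ C) → ℝ) →ₗ[ℝ] ℝ := g ∘ₗ D.mkQ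
  have w1pt : ∀ j s, w1 (vec (pt H j s)) = 0 := fun j s => by
    have : D.mkQ (vec (pt H j s)) = 0 :=
      (Submodule.Quotient.mk_eq_zero D).2 (Submodule.subset_span ⟨(j, s), rfl⟩)
    simp [w1, this]
  have w1z : ∀ x, w1 (vec x) = 0 → vec x ∈ D := fun x h => by
    by_contra hx; exact hg ⟨x, hx⟩ h
  set W : ℝ := Fintype.card C + 1
  let f : (I ⊕ C → Bool) → Bool := fun x => decide (W < w0 H (vec x) ∨
    (w0 H (vec x) = W ∧ (0 < w1 (vec x) ∨ ∃ j, x = pt H j true)))
  have ft : ∀ j, f (pt H j true) = true := fun j => by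
    simp only [f, decide_eq_true_eq]
    exact Or.inr ⟨w0_pt ng hng _ _, Or.inr ⟨j, rfl⟩⟩
  have ff : ∀ j, f (pt H j false) = false := fun j => by
    simp only [f, decide_eq_false_iff_not, w0_pt ng hng, w1pt, lt_self_iff_false, false_or]
    rintro (h | ⟨-, j', h⟩)
    · exact lt_irrefl _ h
    have h1 := congrFun h (.inl j)
    simp only [pt, Sum.elim_inl, decide_true, Bool.true_eq, decide_eq_true_eq] at h1
    subst h1
    obtain ⟨c, hc⟩ := hn j
    have h2 := congrFun h (.inr c)
    simp [pt, hc] at h2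
  refine ⟨f, ?_, ?_, ?_⟩
  · intro x y hxy
    by_cases e : x = y
    · exact e ▸ le_rfl
    have := w0_lt (H := H) hxy e
    rw [Bool.le_iff_imp]
    simp only [f, decide_eq_true_eq]
    rintro (h | h)
    · exact Or.inl (h.trans this)
    · exact Or.inl (h.1 ▸ this)
  · rintro ⟨m, hm, hH⟩ ⟨w, q, hw⟩
    have a1 : ∀ j, q ≤ ∑ k, w k * vec (pt H j true) k := fun j => (hw _).1 (ft j)
    have a2 : ∀ j, ∑ k, w k * vec (pt H j false) k < q := fun j =>
      lt_of_not_ge fun h => by have := (hw _).2 h; rw [ff] at this; cases this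
    have e : ∀ k, ∑ j, (m j : ℝ) * vec (pt H j true) k = ∑ j, (m j : ℝ) * vec (pt H j false) k := by
      rintro (i | c)
      · rfl
      · rw [← sub_eq_zero, ← sum_sub_distrib]
        have : ∑ i, (H c i : ℝ) * m i = 0 := by exact_mod_cast hH c
        rw [← this]
        refine sum_congr rfl fun i _ => ?_
        rcases hv c i with h | h | h <;> simp [vec, pt, h]
    have e2 : ∑ j, (m j : ℝ) * ∑ k, w k * vec (pt H j true) k =
        ∑ j, (m j : ℝ) * ∑ k, w k * vec (pt H j false) k := by
      simp only [mul_sum]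
      rw [sum_comm, sum_comm (f := fun j k => (m j : ℝ) * (w k * vec (pt H j false) k))]
      refine sum_congr rfl fun k _ => ?_
      simp only [mul_left_comm _ (w k), ← mul_sum, e]
    obtain ⟨j, -, hj⟩ := exists_ne_zero_of_sum_ne_zero hm.ne'
    refine absurd e2 (ne_of_gt (sum_lt_sum (fun i _ => ?_) ⟨j, mem_univ _, ?_⟩))
    · exact mul_le_mul_of_nonneg_left ((a2 i).le.trans (a1 i)) (Nat.cast_nonneg _)
    · exact mul_lt_mul_of_pos_left ((a2 j).trans_le (a1 j)) (by positivity)
  · rintro L ⟨x, y, hx, hy, hs⟩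
    simp only [f, decide_eq_true_eq, decide_eq_false_iff_not] at hx hy
    have hs' : ∑ t, vec (x t) = ∑ t, vec (y t) := by
      funext k
      simp only [Finset.sum_apply, vec]
      exact_mod_cast hs k
    have sq : ∀ (a b : Fin L → ℝ) (c : ℝ), (∀ t, c ≤ a t) → (∀ t, b t ≤ c) → ∑ t, a t = ∑ t, b t →
        ∀ t, a t = c ∧ b t = c := by
      intro a b c h1 h2 h3 t
      have := (sum_eq_sum_iff_of_le fun t _ => (h2 t).trans (h1 t)).1 h3.symm t (mem_univ _)
      have := h1 t
      have := h2 t
      constructor <;> linarith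
    have b0 := sq (fun t => w0 H (vec (x t))) (fun t => w0 H (vec (y t))) W
      (fun t => (hx t).elim le_of_lt fun h => h.1.ge)
      (fun t => le_of_not_gt fun h => hy t (Or.inl h)) (by rw [← map_sum, ← map_sum, hs'])
    have b1 := sq (fun t => w1 (vec (x t))) (fun t => w1 (vec (y t))) 0
      (fun t => by
        rcases hx t with h | ⟨-, h | ⟨j, h⟩⟩
        · exact absurd (b0 t).1 h.ne'
        · exact h.le
        · rw [h, w1pt])
      (fun t => le_of_not_gt fun h => hy t (Or.inr ⟨(b0 t).2, Or.inl h⟩))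
      (by rw [← map_sum, ← map_sum, hs'])
    have c1 : ∀ t, ∃ j, x t = pt H j true := fun t => by
      rcases hx t with h | ⟨-, h | h⟩
      · exact absurd (b0 t).1 h.ne'
      · exact absurd (b1 t).1 h.ne'
      · exact h
    have c2 : ∀ t, ∃ j, y t = pt H j false := fun t => by
      obtain ⟨j, s, h⟩ := zero_set ng hng hv hr (y t) (b0 t).2 (w1z _ (b1 t).2)
      cases s
      · exact ⟨j, h⟩
      · exact absurd (Or.inr ⟨(b0 t).2, Or.inr ⟨j, h⟩⟩) (hy t)
    choose α hα using c1
    choose β hβ using c2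
    have mm : ∀ i, (∑ t, if i = α t then 1 else 0 : ℤ) = ∑ t, if i = β t then 1 else 0 := by
      intro i
      have := hs (.inl i)
      simp only [hα, hβ, pt, Sum.elim_inl] at this
      convert this using 2 <;> split_ifs with h <;> simp [h]
    refine ⟨fun i => ∑ t, if i = α t then 1 else 0, by rw [sum_comm]; simp, fun c => ?_⟩
    have := hs (.inr c)
    simp only [hα, hβ, pt, Sum.elim_inr, if_true, Bool.false_eq_true, if_false] at this
    rw [sum_comp α fun j => ((decide (H c j = 1)).toNat : ℤ),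
      sum_comp β fun j => ((decide (H c j = -1)).toNat : ℤ),
      ← sub_eq_zero, ← sum_sub_distrib] at this
    rw [← this]
    refine sum_congr rfl fun i _ => ?_
    rw [← mm]
    push_cast
    rcases hv c i with h | h | h <;> simp [h]

end circuit

theorem pad {ι κ : Type} [Fintype ι] [Fintype κ] (e : ι ↪ κ) (f : (ι → Bool) → Bool)
    (h1 : Monotone f) (h2 : ¬ Weighted f) :
    ∃ g : (κ → Bool) → Bool, Monotone g ∧ ¬ Weighted g ∧ ∀ L, Trade g L → Trade f L := by
  classical
  refine ⟨fun x => f (x ∘ e), fun x y h => h1 fun i => h _, ?_, ?_⟩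
  · rintro ⟨w, q, hw⟩
    refine h2 ⟨w ∘ e, q, fun x => ?_⟩
    have := hw (Function.extend e x fun _ => false)
    simp only [Function.extend_comp e.injective] at this
    rw [this, ← sum_subset (subset_univ (univ.map e)), sum_map]
    · simp [e.injective.extend_apply]
    · intro k _ hk
      rw [Function.extend_apply' _ _ _ (by simpa using hk)]; simp
  · rintro L ⟨x, y, hx, hy, hs⟩
    exact ⟨fun t => x t ∘ e, fun t => y t ∘ e, hx, hy, fun i => hs _⟩

section padovan
variable (N : ℕ)

def un (a : ℕ) (j : Fin N) : ℤ := if j.val = a then 1 else 0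

def eta (i : ℕ) (j : Fin N) : ℤ := un N (i + 3) j - un N (i + 1) j - un N i j

def base (i : ℕ) (t : Fin 3) (j : Fin N) : ℤ :=
  if t = 0 then (if i + 3 < N then eta N i j else 0)
  else if t = 1 then (if i + 4 < N then eta N (i + 1) j - eta N i j else 0)
  else (if i + 5 < N then eta N (i + 2) j + eta N i j else 0)

def HH (c : (Fin N × Fin 3) × Bool) (j : Fin N) : ℤ :=
  (if c.2 then 1 else -1) * base N c.1.1 c.1.2 j

def ngg : (Fin N × Fin 3) × Bool ≃ (Fin N × Fin 3) × Bool :=
  Equiv.prodCongr (Equiv.refl _) Equiv.boolNot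

theorem hng (c) (i : Fin N) : HH N (ngg N c) i = -HH N c i := by
  obtain ⟨c, s⟩ := c
  cases s <;> simp [HH, ngg]

theorem hv (c) (j : Fin N) : HH N c j = 0 ∨ HH N c j = 1 ∨ HH N c j = -1 := by
  obtain ⟨⟨i, t⟩, s⟩ := c
  have : base N i t j = 0 ∨ base N i t j = 1 ∨ base N i t j = -1 := by
    simp only [base, eta, un]
    split_ifs <;> omega
  cases s <;> simp only [HH] <;> rcases this with h | h | h <;> simp [h]

variable {N}

theorem hn (hN : 6 ≤ N) (j : Fin N) : ∃ c, HH N c j = 1 := by
  by_cases h : 3 ≤ j.val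
  · refine ⟨((⟨j.val - 3, by omega⟩, 0), true), ?_⟩
    simp only [HH, base, eta, un]
    have := j.isLt
    split_ifs <;> omega
  · refine ⟨((j, 0), false), ?_⟩
    simp only [HH, base, eta, un]
    split_ifs <;> first | omega | contradiction

def ext {R : Type} [Zero R] (d : Fin N → R) (a : ℕ) : R := if h : a < N then d ⟨a, h⟩ else 0

theorem sum_un (d : Fin N → ℝ) (a : ℕ) : ∑ j, (un N a j : ℝ) * d j = ext d a := by
  unfold ext
  split_ifs with h
  · rw [sum_eq_single ⟨a, h⟩]
    · simp [un]
    · intro b _ hb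
      have : b.val ≠ a := fun e => hb (Fin.ext e)
      simp [un, this]
    · simp
  · refine sum_eq_zero fun b _ => ?_
    have : b.val ≠ a := fun e => h (e ▸ b.isLt)
    simp [un, this]

def yy (d : Fin N → ℝ) (i : ℕ) : ℝ := ext d (i + 3) - ext d (i + 1) - ext d i

theorem sum_eta (d : Fin N → ℝ) (i : ℕ) : ∑ j, (eta N i j : ℝ) * d j = yy d i := by
  simp only [eta, Int.cast_sub, sub_mul, sum_sub_distrib, sum_un, yy]

theorem sum_base (d : Fin N → ℝ) (i : ℕ) (t : Fin 3) : ∑ j, (base N i t j : ℝ) * d j =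
    if t = 0 then (if i + 3 < N then yy d i else 0)
    else if t = 1 then (if i + 4 < N then yy d (i + 1) - yy d i else 0)
    else (if i + 5 < N then yy d (i + 2) + yy d i else 0) := by
  unfold base
  split_ifs <;> simp [sub_mul, add_mul, sum_sub_distrib, sum_add_distrib, sum_eta]

theorem sum_HH (d : Fin N → ℝ) (c) : ∑ j, (HH N c j : ℝ) * d j =
    (if c.2 then 1 else -1) * ∑ j, (base N c.1.1 c.1.2 j : ℝ) * d j := by
  rw [mul_sum]
  refine sum_congr rfl fun j _ => ?_
  simp only [HH]; push_cast; ring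

theorem rigid (hN : 6 ≤ N) : Rigid (HH N) := by
  intro j d h0 h1
  have hj := j.isLt
  have z : ∀ i, i + 3 < N → eta N i j = 0 → yy d i = 0 := fun i hi h => by
    have := h0 ((⟨i, by omega⟩, 0), true) (by simp [HH, base, hi, h])
    simpa [sum_HH, sum_base, hi] using this
  have la : ∀ i, i + 1 = j.val → i + 4 < N → yy d (i + 1) = yy d i := fun i h hi => by
    have := h0 ((⟨i, by omega⟩, 1), true) (by
      simp only [HH, base, eta, un]; split_ifs <;> first | omega | contradiction)
    simpa [sum_HH, sum_base, hi, sub_eq_zero] using this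
  have lb : ∀ i, i + 3 = j.val → i + 5 < N → yy d (i + 2) + yy d i = 0 := fun i h hi => by
    have := h0 ((⟨i, by omega⟩, 2), true) (by
      simp only [HH, base, eta, un]; split_ifs <;> first | omega | contradiction)
    simpa [sum_HH, sum_base, hi] using this
  have key : ∃ σ : ℝ, (σ = 1 ∨ σ = -1) ∧ ∀ i, i + 3 < N → yy d i = σ * eta N i j := by
    by_cases h3 : 3 ≤ j.val
    · obtain ⟨k, hk⟩ : ∃ k, k + 3 = j.val := ⟨j.val - 3, by omega⟩
      have := h1 ((⟨k, by omega⟩, 0), true) (by
        simp only [HH, base, eta, un]; split_ifs <;> first | omega | contradiction)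
      have hk' : k + 3 < N := by omega
      simp only [sum_HH, sum_base, if_true, one_mul, hk'] at this
      refine ⟨yy d k, this, fun i hi => ?_⟩
      by_cases e1 : i = k
      · have : eta N i j = 1 := by simp only [eta, un]; split_ifs <;> omega
        rw [this, e1]; simp
      by_cases e2 : i = k + 2
      · have h4 : eta N i j = -1 := by simp only [eta, un]; split_ifs <;> omega
        have h5 := lb k hk (by omega)
        rw [h4, e2]; push_cast; linarith
      by_cases e3 : i = k + 3
      · have h4 : eta N i j = -1 := by simp only [eta, un]; split_ifs <;> omega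
        have h5 := lb k hk (by omega)
        have h6 := la (k + 2) hk (by omega)
        rw [h4, e3]; push_cast; linarith
      · have : eta N i j = 0 := by simp only [eta, un]; split_ifs <;> omega
        rw [z i hi this, this]; simp
    · have := h1 ((j, 0), false) (by
        simp only [HH, base, eta, un]; split_ifs <;> first | omega | contradiction)
      have hk' : j.val + 3 < N := by omega
      simp only [sum_HH, sum_base, if_true, hk', Bool.false_eq_true, if_false, neg_mul, one_mul] at this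
      refine ⟨-yy d j, this, fun i hi => ?_⟩
      by_cases e1 : i = j.val
      · have : eta N i j = -1 := by simp only [eta, un]; split_ifs <;> omega
        rw [this, e1]; simp
      by_cases e2 : i + 1 = j.val
      · have h4 : eta N i j = -1 := by simp only [eta, un]; split_ifs <;> omega
        have h6 := la i e2 (by omega)
        rw [h4, ← e2, h6]; simp
      · have : eta N i j = 0 := by simp only [eta, un]; split_ifs <;> omega
        rw [z i hi this, this]; simp
  obtain ⟨σ, hσ, hy⟩ := key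
  refine ⟨σ, hσ, fun c => ?_⟩
  rw [sum_HH, sum_base]
  simp only [HH, base]
  split_ifs with a b c <;> (try rw [hy _ (by omega)]) <;> (try rw [hy _ (by omega)]) <;>
    push_cast <;> ring

def pado : ℕ → ℕ
  | 0 => 1
  | 1 => 1
  | 2 => 1
  | n + 3 => pado (n + 1) + pado n

theorem exists_sol (hN : 6 ≤ N) :
    ∃ m : Fin N → ℕ, 0 < ∑ i, m i ∧ ∀ c, ∑ i, HH N c i * m i = 0 := by
  refine ⟨fun i => pado i, sum_pos' (fun _ _ => Nat.zero_le _) ⟨⟨0, by omega⟩, mem_univ _, by
    simp [pado]⟩, fun c => ?_⟩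
  have hy : ∀ i, i + 3 < N → yy (fun i : Fin N => (pado i : ℝ)) i = 0 := fun i hi => by
    simp only [yy, ext, hi, (by omega : i + 1 < N), (by omega : i < N), dif_pos, pado]
    push_cast; ring
  have : ∑ i, (HH N c i : ℝ) * (pado i : ℝ) = 0 := by
    rw [sum_HH (fun i : Fin N => (pado i : ℝ)), sum_base]
    split_ifs <;> (try rw [hy _ (by omega)]) <;> (try rw [hy _ (by omega)]) <;> simp
  exact_mod_cast this

theorem growth (t : ℕ) (m : Fin (3 * t + 3) → ℕ) (hm : 0 < ∑ i, m i)
    (h : ∀ c, ∑ i, HH (3 * t + 3) c i * m i = 0) : 2 ^ t ≤ ∑ i, m i := by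
  have hy : ∀ i, i + 3 < 3 * t + 3 → ext m (i + 3) = ext m (i + 1) + ext m i := fun i hi => by
    have h1 : ∑ j, (HH (3 * t + 3) ((⟨i, by omega⟩, 0), true) j : ℝ) * (m j : ℝ) = 0 := by
      exact_mod_cast h _
    rw [sum_HH (fun j => (m j : ℝ)), sum_base] at h1
    simp only [if_true, one_mul, hi, yy, ext, (by omega : i + 1 < 3 * t + 3),
      (by omega : i < 3 * t + 3), dif_pos] at h1 ⊢
    have : (m ⟨i + 3, hi⟩ : ℝ) = m ⟨i + 1, by omega⟩ + m ⟨i, by omega⟩ := by linarith
    exact_mod_cast this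
  have s0 : 1 ≤ ext m 0 + ext m 1 + ext m 2 := by
    by_contra hc
    have : ∀ i, i < 3 * t + 3 → ext m i = 0 := by
      intro i
      induction i using Nat.strong_induction_on with
      | _ i ih =>
        intro hi
        match i with
        | 0 => omega
        | 1 => omega
        | 2 => omega
        | k + 3 => rw [hy k hi, ih _ (by omega) (by omega), ih _ (by omega) (by omega)]
    refine hm.ne' (sum_eq_zero fun i _ => ?_)
    simpa [ext] using this i i.isLt
  have s1 : ∀ k, k ≤ t → 2 ^ k ≤ ext m (3 * k) + ext m (3 * k + 1) + ext m (3 * k + 2) := by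
    intro k
    induction k with
    | zero => intro _; simpa using s0
    | succ k ih =>
      intro hk
      have := ih (by omega)
      have a := hy (3 * k) (by omega)
      have b := hy (3 * k + 1) (by omega)
      have c := hy (3 * k + 2) (by omega)
      have e : 3 * (k + 1) = 3 * k + 3 := by ring
      rw [e, pow_succ]
      simp only [add_assoc, Nat.reduceAdd] at *
      omega
  refine (s1 t le_rfl).trans ?_
  rw [Fin.sum_univ_castSucc, Fin.sum_univ_castSucc, Fin.sum_univ_castSucc]
  simp only [ext, (by omega : 3 * t < 3 * t + 3), (by omega : 3 * t + 1 < 3 * t + 3),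
    (by omega : 3 * t + 2 < 3 * t + 3), dif_pos]
  exact Nat.add_le_add (Nat.add_le_add (Nat.le_add_left _ _) le_rfl) le_rfl

end padovan

theorem main (n : ℕ) (hn' : 42 ≤ n) : ∃ f : (Fin n → Bool) → Bool, Monotone f ∧ ¬ Weighted f ∧
    Asummable f (2 ^ (n / 21 - 1) - 1) := by
  set t := n / 21 - 1
  have hN : 6 ≤ 3 * t + 3 := by omega
  obtain ⟨f, h1, h2, h3⟩ := circuit (ngg _) (hng _) (hv _) (rigid hN) (hn hN)
  obtain ⟨e⟩ : Nonempty (Fin (3 * t + 3) ⊕ (Fin (3 * t + 3) × Fin 3) × Bool ↪ Fin n) :=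
    Function.Embedding.nonempty_of_card_le (by simp; omega)
  obtain ⟨g, g1, g2, g3⟩ := pad e f h1 (h2 (exists_sol hN))
  refine ⟨g, g1, g2, fun j j1 j2 hj => ?_⟩
  obtain ⟨m, m1, m2⟩ := h3 j (g3 j hj)
  have := growth t m (by omega) m2
  have : 0 < 2 ^ t := by positivity
  omega

theorem poly (p : Polynomial ℝ) : ∃ (n : ℕ) (f : (Fin n → Bool) → Bool), Monotone f ∧
    ¬ Weighted f ∧ ∀ k : ℕ, (k : ℝ) ≤ p.eval (n : ℝ) → Asummable f k := by
  have l2 : 0 < Real.log 2 := Real.log_pos one_lt_two
  have h := (p.comp (Polynomial.C 21 *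
    (Polynomial.C (Real.log 2)⁻¹ * Polynomial.X + 1))).tendsto_div_exp_atTop.comp
    (f := fun t : ℕ => Real.log 2 * (t : ℝ)) (tendsto_natCast_atTop_atTop.const_mul_atTop l2)
  obtain ⟨t, h1, h2⟩ := ((h.eventually (gt_mem_nhds one_pos)).and (Filter.eventually_ge_atTop 1)).exists
  simp only [Function.comp, Polynomial.eval_comp, Polynomial.eval_mul, Polynomial.eval_C,
    Polynomial.eval_add, Polynomial.eval_X, Polynomial.eval_one] at h1
  rw [inv_mul_cancel_left₀ l2.ne', div_lt_one (Real.exp_pos _), Real.exp_mul,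
    Real.exp_log two_pos, Real.rpow_natCast] at h1
  obtain ⟨f, f1, f2, f3⟩ := main (21 * (t + 1)) (by omega)
  refine ⟨_, f, f1, f2, fun k hk j j1 j2 => f3 j j1 ?_⟩
  have e : 21 * (t + 1) / 21 - 1 = t := by omega
  rw [e]
  push_cast at hk
  have : k < 2 ^ t := by exact_mod_cast hk.trans_lt h1
  omega

end Pool.Agent.H34.Thresh
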