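import Mathlib
import Pool.Agent.H34.Thresh

namespace Pool.Agent.H34.Thresh2
open Finset Pool.Agent.H34.ThreshDefs Pool.Agent.H34.Thresh

section dup
variable {K C : Type} [Fintype K] [Fintype C] [DecidableEq K] [DecidableEq C] (H : C → K → ℤ)

def dbase : (C × Bool) ⊕ K → K × Bool → ℤ
  | .inl c, j => if j.2 = c.2 then H c.1 j.1 else 0
  | .inr i, j => if j.1 = i then (if j.2 then 1 else -1) else 0

def dH (c : ((C × Bool) ⊕ K) × Bool) (j : K × Bool) : ℤ := (if c.2 then 1 else -1) * dbase H c.1 j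

theorem sum_dH {R : Type} [CommRing R] (d : K × Bool → R) (c) : ∑ j, (dH H c j : R) * d j =
    (if c.2 then 1 else -1) * ∑ j, (dbase H c.1 j : R) * d j := by
  rw [mul_sum]
  refine sum_congr rfl fun j _ => ?_
  simp only [dH]; push_cast; ring

theorem sum_inl {R : Type} [CommRing R] (d : K × Bool → R) (c : C) (b : Bool) :
    ∑ j, (dbase H (.inl (c, b)) j : R) * d j = ∑ i, (H c i : R) * d (i, b) := by
  simp only [dbase, Fintype.sum_prod_type, Fintype.sum_bool]
  cases b <;> simp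

theorem sum_inr {R : Type} [CommRing R] (d : K × Bool → R) (i : K) :
    ∑ j, (dbase H (.inr i) j : R) * d j = d (i, true) - d (i, false) := by
  simp only [dbase, Fintype.sum_prod_type, Fintype.sum_bool]
  rw [sum_eq_single i] <;> simp +contextual [sub_eq_add_neg]

theorem drigid : Rigid (dH H) := by
  rintro ⟨j, b⟩ d h0 h1
  have e1 : ∀ i, i ≠ j → d (i, true) = d (i, false) := fun i hi => by
    have := h0 (.inr i, true) (by simp [dH, dbase, hi.symm])
    simpa [sum_dH, sum_inr, sub_eq_zero] using this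
  have e2 : ∀ c, ∑ i, (H c i : ℝ) * d (i, !b) = 0 := fun c => by
    have := h0 (.inl (c, !b), true) (by simp [dH, dbase])
    simpa [sum_dH, sum_inl] using this
  have e3 := h1 (.inr j, b) (by cases b <;> simp [dH, dbase])
  rw [sum_dH, sum_inr] at e3
  refine ⟨d (j, b) - d (j, !b), by cases b <;> simpa using e3, ?_⟩
  rintro ⟨⟨c, b'⟩ | i, s⟩
  · rw [sum_dH, sum_inl]
    by_cases hb : b' = b
    · subst hb
      have : ∑ i, (H c i : ℝ) * d (i, b') = (d (j, b') - d (j, !b')) * H c j := by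
        rw [← sub_zero (∑ i, _), ← e2 c, ← sum_sub_distrib, sum_eq_single j]
        · ring
        · intro i _ hi
          cases b' <;> simp [e1 i hi]
        · simp
      rw [this]; simp only [dH, dbase, if_true]; push_cast; ring
    · have : b' = !b := by cases b <;> cases b' <;> simp_all
      subst this
      rw [e2]; simp [dH, dbase]
  · rw [sum_dH, sum_inr]
    by_cases hi : i = j
    · subst hi
      cases b <;> cases s <;> simp [dH, dbase]
    · simp [dH, dbase, e1 i hi, Ne.symm hi]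

theorem dup (hv : ∀ c i, H c i = 0 ∨ H c i = 1 ∨ H c i = -1) (m₀ : K → ℕ) (h₀ : 0 < ∑ i, m₀ i)
    (hm₀ : ∀ c, ∑ i, H c i * m₀ i = 0) :
    ∃ f : ((K × Bool) ⊕ ((C × Bool) ⊕ K) × Bool → Bool) → Bool, Monotone f ∧ ¬ Weighted f ∧
      ∀ L, 1 ≤ L → Trade f L →
        ∃ m : K → ℕ, 0 < ∑ i, m i ∧ ∑ i, m i ≤ L ∧ ∀ c, ∑ i, H c i * m i = 0 := by
  obtain ⟨f, h1, h2, h3⟩ := circuit (H := dH H) (Equiv.prodCongr (Equiv.refl _) Equiv.boolNot)
    (by rintro ⟨c, s⟩ i; cases s <;> simp [dH])
    (by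
      rintro ⟨c | i, s⟩ j
      · rcases hv c.1 j.1 with h | h | h <;> cases s <;> simp only [dH, dbase, h] <;>
          split_ifs <;> simp
      · cases s <;> simp only [dH, dbase] <;> split_ifs <;> simp)
    (drigid H) (by rintro ⟨j, b⟩; exact ⟨(.inr j, b), by cases b <;> simp [dH, dbase]⟩)
  refine ⟨f, h1, h2 ⟨fun j => m₀ j.1, ?_, ?_⟩, fun L hL hT => ?_⟩
  · simp only [Fintype.sum_prod_type, Fintype.sum_bool, sum_add_distrib]; omega
  · rintro ⟨⟨c, b⟩ | i, s⟩
    · have := sum_dH H (R := ℤ) (fun j => m₀ j.1) (.inl (c, b), s)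
      simp only [Int.cast_id] at this
      have h := sum_inl H (R := ℤ) (fun j => m₀ j.1) c b
      simp only [Int.cast_id] at h
      rw [this, h, hm₀, mul_zero]
    · have := sum_dH H (R := ℤ) (fun j => m₀ j.1) (.inr i, s)
      simp only [Int.cast_id] at this
      have h := sum_inr H (R := ℤ) (fun j => m₀ j.1) i
      simp only [Int.cast_id] at h
      rw [this, h, sub_self, mul_zero]
  · obtain ⟨m, m1, m2⟩ := h3 L hT
    have e : ∀ i, m (i, true) = m (i, false) := fun i => by
      have := sum_dH H (R := ℤ) (fun j => m j) (.inr i, true)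
      have h := sum_inr H (R := ℤ) (fun j => m j) i
      simp only [Int.cast_id] at this h
      rw [m2, h] at this
      simp only [if_true, one_mul] at this
      omega
    simp only [Fintype.sum_prod_type, Fintype.sum_bool, sum_add_distrib, ← e] at m1
    refine ⟨fun i => m (i, true), by simp only; omega, by simp only; omega, fun c => ?_⟩
    have := sum_dH H (R := ℤ) (fun j => m j) (.inl (c, true), true)
    have h := sum_inl H (R := ℤ) (fun j => m j) c true
    simp only [Int.cast_id] at this h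
    rw [m2, h] at this
    simpa using this.symm

/-- From an integer kernel vector to a function with long trades. -/
theorem dup' (hv : ∀ c i, H c i = 0 ∨ H c i = 1 ∨ H c i = -1) (c₀ : C) (h₀ : ∀ i, H c₀ i = 0)
    (hc : Fintype.card C ≤ Fintype.card K) (B : ℕ)
    (hB : ∀ x : K → ℤ, x ≠ 0 → (∀ c, ∑ i, H c i * x i = 0) → (B : ℤ) ≤ ∑ i, |x i|) :
    ∃ f : ((K × Bool) ⊕ ((C × Bool) ⊕ K) × Bool → Bool) → Bool, Monotone f ∧ ¬ Weighted f ∧
      ∀ L, 1 ≤ L → Trade f L → B ≤ L := by
  let φ : (K → ℤ) →ₗ[ℤ] ({c // c ≠ c₀} → ℤ) :=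
    { toFun := fun x c => ∑ i, H c i * x i
      map_add' := fun x y => by ext c; simp [mul_add, sum_add_distrib]
      map_smul' := fun a x => by ext c; simp [mul_sum, mul_left_comm] }
  have hni : ¬ Function.Injective φ := fun h => by
    have := LinearMap.finrank_le_finrank_of_injective h
    simp only [Module.finrank_fintype_fun_eq_card, Fintype.card_subtype_compl,
      Fintype.card_subtype_eq, ne_eq] at this
    have : 0 < Fintype.card C := Fintype.card_pos_iff.2 ⟨c₀⟩
    omega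
  rw [injective_iff_map_eq_zero] at hni
  push Not at hni
  obtain ⟨x, hx, hx0⟩ := hni
  have hx' : ∀ c, ∑ i, H c i * x i = 0 := fun c => by
    by_cases h : c = c₀
    · simp [h, h₀]
    · exact congrFun hx ⟨c, h⟩
  let ε : K → ℤ := fun i => if 0 ≤ x i then 1 else -1
  obtain ⟨f, f1, f2, f3⟩ := dup (fun c i => H c i * ε i) (fun c i => by
      rcases hv c i with h | h | h <;> simp only [h, ε] <;> split_ifs <;> simp)
    (fun i => (x i).natAbs) (by
      obtain ⟨i, hi⟩ := Function.ne_iff.1 hx0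
      exact sum_pos' (fun _ _ => Nat.zero_le _) ⟨i, mem_univ _, Int.natAbs_pos.2 hi⟩) (fun c => by
      rw [← hx' c]
      refine sum_congr rfl fun i _ => ?_
      rw [mul_assoc]; congr 1
      simp only [ε]; split_ifs <;> omega)
  refine ⟨f, f1, f2, fun L hL hT => ?_⟩
  obtain ⟨m, m1, m2, m3⟩ := f3 L hL hT
  have ab : ∀ i, |ε i * m i| = m i := fun i => by simp only [ε]; split_ifs <;> simp
  have := hB (fun i => ε i * m i) (by
    intro h
    obtain ⟨i, -, hi⟩ := exists_ne_zero_of_sum_ne_zero m1.ne'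
    have h1 := ab i
    rw [show ε i * m i = 0 from congrFun h i] at h1
    simp only [abs_zero] at h1
    omega) (fun c => by simpa only [mul_assoc] using m3 c)
  simp only [ab] at this
  have : B ≤ ∑ i, m i := by exact_mod_cast this
  omega

end dup

section fourier
variable {ι : Type} [Fintype ι] [DecidableEq ι]

def chi (u β : Finset ι) : ℤ := ∏ i ∈ u, if i ∈ β then -1 else 1

theorem chi_pm (u β : Finset ι) : chi u β = 1 ∨ chi u β = -1 := by
  unfold chi
  induction u using Finset.induction_on with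
  | empty => simp
  | insert a s ha ih =>
    rw [prod_insert ha]
    split_ifs <;> rcases ih with h | h <;> simp [h]

theorem sum_chi (u β : Finset ι) :
    ∑ v ∈ u.powerset, chi v β = if Disjoint u β then 2 ^ u.card else 0 := by
  unfold chi
  rw [← prod_one_add]
  split_ifs with h
  · rw [prod_congr rfl (g := fun _ => 2), prod_const]
    intro i hi
    simp [disjoint_left.1 h hi]
  · obtain ⟨i, h1, h2⟩ := not_disjoint_iff.1 h
    exact prod_eq_zero h1 (by simp [h2])

theorem chi_disj {u β : Finset ι} (h : Disjoint u β) : chi u β = 1 :=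
  prod_eq_one fun i hi => by simp [disjoint_left.1 h hi]

theorem orth (β γ : Finset ι) :
    ∑ u, chi u β * chi u γ = if β = γ then 2 ^ Fintype.card ι else 0 := by
  unfold chi
  simp only [← prod_mul_distrib]
  rw [← powerset_univ, ← prod_one_add]
  split_ifs with h
  · subst h
    rw [prod_congr rfl (g := fun _ => 2), prod_const, card_univ]
    intro i _
    split_ifs <;> simp
  · obtain ⟨i, hi⟩ : ∃ i, ¬ (i ∈ β ↔ i ∈ γ) := by
      by_contra hc; push Not at hc; exact h (Finset.ext hc)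
    refine prod_eq_zero (mem_univ i) ?_
    by_cases h1 : i ∈ β <;> by_cases h2 : i ∈ γ <;> simp_all

end fourier

section system
variable (r : ℕ)

abbrev KK := Finset (Fin r) × Finset (Fin 3)

def ch (u β : KK r) : ℤ := chi u.1 β.1 * chi u.2 β.2

def TT : Finset (Fin 3) := {1, 2}

variable {r} (e : Fin (2 ^ r) ≃ Finset (Fin r))

def row (c : Fin (2 ^ r) × Finset (Fin 3)) (β : KK r) : ℤ :=
  if c.2 = univ then ch r (e c.1, TT) β - (if Disjoint (e c.1) β.1 ∧ β.2 = ∅ then 1 else 0)
  else if c.2 = TT then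
    (if c.1.val = 0 then 0 else
      (ch r (e c.1, TT) β - ch r (e ⟨c.1.val - 1, by have := c.1.isLt; omega⟩, univ) β) / 2)
  else ch r (e c.1, c.2) β

theorem ch_pm (u β : KK r) : ch r u β = 1 ∨ ch r u β = -1 := by
  unfold ch
  rcases chi_pm u.1 β.1 with h | h <;> rcases chi_pm u.2 β.2 with h' | h' <;> simp [h, h']

theorem row_val (c β) : row e c β = 0 ∨ row e c β = 1 ∨ row e c β = -1 := by
  unfold row
  split_ifs with h1 h2 h3 h4
  · left
    rw [ch, chi_disj h2.1, chi_disj (by simp [h2.2])]; rfl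
  · rcases ch_pm (e c.1, TT) β with h | h <;> simp [h]
  · simp
  · rcases ch_pm (e c.1, TT) β with h | h <;>
      rcases ch_pm (e ⟨c.1.val - 1, by have := c.1.isLt; omega⟩, univ) β with h' | h' <;>
      simp [h, h']
  · rcases ch_pm (e c.1, c.2) β with h | h <;> simp [h]

def ft (x : KK r → ℤ) (u : KK r) : ℤ := ∑ β, ch r u β * x β

theorem ft_le (x : KK r → ℤ) (u : KK r) : ft x u ≤ ∑ β, |x β| :=
  sum_le_sum fun β _ => by
    rcases ch_pm u β with h | h <;> simp [h, le_abs_self, neg_le_abs]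

theorem ft_inj (x : KK r → ℤ) (h : ∀ u, ft x u = 0) : x = 0 := by
  funext γ
  have h1 : ∑ u, ch r u γ * ft x u = 0 := by simp [h]
  simp only [ft, mul_sum] at h1
  rw [sum_comm] at h1
  have h2 : ∀ β, ∑ u, ch r u γ * (ch r u β * x β) =
      (if γ = β then 2 ^ r * 2 ^ 3 else 0) * x β := by
    intro β
    simp only [← mul_assoc, ← sum_mul]
    congr 1
    simp only [ch, Fintype.sum_prod_type]
    have : ∀ (a : Finset (Fin r)) (b : Finset (Fin 3)),
        chi a γ.1 * chi b γ.2 * (chi a β.1 * chi b β.2) =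
        (chi a γ.1 * chi a β.1) * (chi b γ.2 * chi b β.2) := fun a b => by ring
    simp only [this]
    rw [← sum_mul_sum, orth, orth]
    simp only [Fintype.card_fin, Prod.ext_iff]
    by_cases a : γ.1 = β.1 <;> by_cases b : γ.2 = β.2 <;> simp [a, b]
  simp only [h2, ite_mul, zero_mul, sum_ite_eq, mem_univ, if_true] at h1
  simpa using h1

variable {e}

theorem eqs {x : KK r → ℤ} (hx : ∀ c, ∑ β, row e c β * x β = 0) :
    (∀ u w, w ≠ univ → w ≠ TT → ft x (u, w) = 0) ∧
    (∀ (t : ℕ) (h : t + 1 < 2 ^ r), ft x (e ⟨t + 1, h⟩, TT) = ft x (e ⟨t, by omega⟩, univ)) ∧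
    ∀ u, ∑ v ∈ u.powerset, (ft x (v, TT) + ft x (v, univ)) = 2 ^ (u.card + 3) * ft x (u, TT) := by
  have a : ∀ u w, w ≠ univ → w ≠ TT → ft x (u, w) = 0 := fun u w h1 h2 => by
    have := hx (e.symm u, w)
    simpa [row, h1, h2, ft] using this
  refine ⟨a, fun t h => ?_, fun u => ?_⟩
  · have := hx (⟨t + 1, h⟩, TT)
    have n : TT ≠ univ := by decide
    simp only [row, n, if_false, if_true, Nat.add_sub_cancel, Nat.succ_ne_zero] at this
    rw [← sub_eq_zero, ft, ft, ← sum_sub_distrib, ← mul_zero 2, ← this, mul_sum]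
    refine sum_congr rfl fun β _ => ?_
    rcases ch_pm (e ⟨t + 1, h⟩, TT) β with h | h <;>
      rcases ch_pm (e ⟨t, by omega⟩, univ) β with h' | h' <;> simp [h, h'] <;> ring
  · have := hx (e.symm u, univ)
    simp only [row, if_true, Equiv.apply_symm_apply, sub_mul, sum_sub_distrib, sub_eq_zero] at this
    have h1 : ∀ v, ft x (v, TT) + ft x (v, univ) = ∑ w ∈ (univ : Finset (Fin 3)).powerset, ft x (v, w) := by
      intro v
      have n : TT ≠ univ := by decide
      rw [← sum_pair (f := fun w => ft x (v, w)) n]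
      refine sum_subset (by simp) fun w _ hw => ?_
      simp only [mem_insert, mem_singleton, not_or] at hw
      exact a v w hw.2 hw.1
    simp only [h1]
    rw [ft, this, mul_sum]
    simp only [ft, ch]
    rw [sum_congr rfl fun v _ => sum_comm, sum_comm]
    refine sum_congr rfl fun β _ => ?_
    simp only [← sum_mul]
    rw [← sum_mul_sum, sum_chi, sum_chi]
    have b3 : Disjoint univ β.2 ↔ β.2 = ∅ := by rw [disjoint_iff_inter_eq_empty, univ_inter]
    simp only [b3]
    by_cases b1 : Disjoint u β.1 <;> by_cases b2 : β.2 = ∅ <;> simp [b1, b2, pow_add]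

theorem grow (he : ∀ s t, e s ⊆ e t → s ≤ t) {x : KK r → ℤ} (hx : ∀ c, ∑ β, row e c β * x β = 0)
    (h0 : 0 ≤ ft x (e ⟨0, by positivity⟩, TT)) (t : ℕ) (ht : t < 2 ^ r) :
    (∀ s : Fin (2 ^ r), s.val ≤ t → 0 ≤ ft x (e s, TT) ∧ 0 ≤ ft x (e s, univ)) ∧
    (∑ s : Fin (2 ^ r) with s.val ≤ t, (ft x (e s, TT) + ft x (e s, univ)) ≤
      2 * ft x (e ⟨t, ht⟩, univ)) ∧
    2 ^ (∑ s : Fin (2 ^ r) with s.val ≤ t, (e s).card) * ft x (e ⟨0, by positivity⟩, TT) ≤
      ft x (e ⟨t, ht⟩, univ) := by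
  obtain ⟨-, e2, e3⟩ := eqs hx
  have split : ∀ {M : Type} [AddCommMonoid M] (g : Fin (2 ^ r) → M) (t : ℕ) (ht : t < 2 ^ r),
      ∑ s : Fin (2 ^ r) with s.val ≤ t, g s = ∑ s : Fin (2 ^ r) with s.val < t, g s + g ⟨t, ht⟩ := by
    intro M _ g t ht
    rw [add_comm, ← sum_insert (by simp)]
    congr 1; ext s; simp [Fin.ext_iff]; omega
  have step : ∀ (t : ℕ) (ht : t < 2 ^ r), 0 ≤ ft x (e ⟨t, ht⟩, TT) →
      (∀ s : Fin (2 ^ r), s.val < t → 0 ≤ ft x (e s, TT) ∧ 0 ≤ ft x (e s, univ)) →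
      (∑ s : Fin (2 ^ r) with s.val < t, (ft x (e s, TT) + ft x (e s, univ)) ≤
        2 * ft x (e ⟨t, ht⟩, TT)) →
      3 * ft x (e ⟨t, ht⟩, TT) ≤ ft x (e ⟨t, ht⟩, univ) ∧
        2 ^ (e ⟨t, ht⟩).card * ft x (e ⟨t, ht⟩, TT) ≤ ft x (e ⟨t, ht⟩, univ) := by
    intro t ht a0 pos sm
    have h1 := e3 (e ⟨t, ht⟩)
    have h2 : ∑ v ∈ (e ⟨t, ht⟩).powerset, (ft x (v, TT) + ft x (v, univ)) ≤
        ∑ s : Fin (2 ^ r) with s.val < t, (ft x (e s, TT) + ft x (e s, univ)) +
          (ft x (e ⟨t, ht⟩, TT) + ft x (e ⟨t, ht⟩, univ)) := by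
      rw [← sum_erase_add _ _ (mem_powerset_self _)]
      refine add_le_add_left ?_ _
      refine le_of_le_of_eq ?_
        (sum_map _ e.toEmbedding fun v => ft x (v, TT) + ft x (v, univ))
      refine sum_le_sum_of_subset_of_nonneg (fun v hv => ?_) fun v hv _ => ?_
      · obtain ⟨s, rfl⟩ := e.surjective v
        simp only [mem_erase, mem_powerset, ne_eq, EmbeddingLike.apply_eq_iff_eq] at hv
        refine mem_map_of_mem _ (mem_filter.2 ⟨mem_univ _, ?_⟩)
        exact lt_of_le_of_ne (he _ _ hv.2) fun h => hv.1 (Fin.ext h)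
      · obtain ⟨s, hs, rfl⟩ := mem_map.1 hv
        have := pos s (mem_filter.1 hs).2
        exact add_nonneg this.1 this.2
    have h3 : (1 : ℤ) ≤ 2 ^ (e ⟨t, ht⟩).card := one_le_pow₀ (by norm_num)
    rw [pow_add] at h1
    constructor <;> nlinarith
  induction t with
  | zero =>
    have := step 0 ht h0 (by simp) (by simpa using h0)
    refine ⟨fun s hs => ?_, ?_, ?_⟩
    · have : s = ⟨0, ht⟩ := Fin.ext (by simpa using hs)
      subst this
      exact ⟨h0, by linarith⟩
    · rw [split _ 0 ht, filter_false_of_mem (by simp), sum_empty]; linarith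
    · rw [split _ 0 ht]; simpa using this.2
  | succ t ih =>
    obtain ⟨i1, i2, i3⟩ := ih (by omega)
    have a := e2 t ht
    have a0 : 0 ≤ ft x (e ⟨t + 1, ht⟩, TT) := a ▸ (i1 ⟨t, by omega⟩ le_rfl).2
    have := step (t + 1) ht a0 (fun s hs => i1 s (by omega)) (by
      simpa only [Nat.lt_succ_iff, a] using i2)
    refine ⟨fun s hs => ?_, ?_, ?_⟩
    · by_cases h : s.val ≤ t
      · exact i1 s h
      · have : s = ⟨t + 1, ht⟩ := Fin.ext (by simp only; omega)
        subst this
        exact ⟨a0, by linarith⟩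
    · rw [split _ _ ht]
      simp only [Nat.lt_succ_iff]
      linarith
    · rw [split _ _ ht, pow_add]
      simp only [Nat.lt_succ_iff]
      have h3 : (0 : ℤ) ≤ 2 ^ (e ⟨t + 1, ht⟩).card := by positivity
      have := mul_le_mul_of_nonneg_left i3 h3
      nlinarith

theorem sum_card (r : ℕ) : 2 * ∑ u : Finset (Fin r), u.card = r * 2 ^ r := by
  have : ∑ u : Finset (Fin r), u.card = ∑ u : Finset (Fin r), uᶜ.card :=
    (Fintype.sum_bijective compl compl_bijective _ _ fun _ => rfl).symm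
  rw [two_mul]
  nth_rewrite 2 [this]
  rw [← sum_add_distrib]
  simp [card_add_card_compl, mul_comm]

theorem big (he : ∀ s t, e s ⊆ e t → s ≤ t) (x : KK r → ℤ) (hx0 : x ≠ 0)
    (hx : ∀ c, ∑ β, row e c β * x β = 0) :
    ((2 ^ (∑ u : Finset (Fin r), u.card) : ℕ) : ℤ) ≤ ∑ β, |x β| := by
  have p : 0 < 2 ^ r := by positivity
  have neg : ∀ u, ft (-x) u = -ft x u := fun u => by simp [ft]
  have hx' : ∀ c, ∑ β, row e c β * (-x) β = 0 := fun c => by simpa using hx c
  have key : ∀ x : KK r → ℤ, (∀ c, ∑ β, row e c β * x β = 0) → 0 < ft x (e ⟨0, p⟩, TT) →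
      ((2 ^ (∑ u : Finset (Fin r), u.card) : ℕ) : ℤ) ≤ ∑ β, |x β| := by
    intro x hx h
    have h1 := (grow he hx h.le (2 ^ r - 1) (by omega)).2.2
    rw [filter_true_of_mem (fun s _ => by have := s.isLt; omega),
      Equiv.sum_comp e fun u => u.card] at h1
    refine le_trans ?_ (h1.trans (ft_le _ _))
    push_cast
    exact le_mul_of_one_le_right (by positivity) h
  rcases lt_trichotomy 0 (ft x (e ⟨0, p⟩, TT)) with h | h | h
  · exact key x hx h
  · refine absurd (ft_inj x ?_) hx0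
    rintro ⟨u, w⟩
    obtain ⟨s, rfl⟩ := e.surjective u
    have h1 := (grow he hx h.le s s.isLt).1 s le_rfl
    have h2 := (grow he hx' (by rw [neg, ← h]; simp) s s.isLt).1 s le_rfl
    simp only [neg] at h2
    by_cases a : w = univ
    · subst a; linarith [h1.2, h2.2]
    by_cases b : w = TT
    · subst b; linarith [h1.1, h2.1]
    exact (eqs hx).1 _ _ a b
  · simpa using key (-x) hx' (by rw [neg]; linarith)

end system

theorem exists_enum (r : ℕ) : ∃ e : Fin (2 ^ r) ≃ Finset (Fin r), ∀ s t, e s ⊆ e t → s ≤ t := by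
  let i : Fintype (LinearExtension (Finset (Fin r))) := inferInstanceAs (Fintype (Finset (Fin r)))
  let o := monoEquivOfFin (LinearExtension (Finset (Fin r))) (k := 2 ^ r)
    (show Fintype.card (Finset (Fin r)) = 2 ^ r by simp)
  refine ⟨o.toEquiv, fun s t h => ?_⟩
  have h' : o s ≤ o t := (toLinearExtension (α := Finset (Fin r))).monotone h
  exact o.le_iff_le.1 h'

theorem main (n m : ℕ)
    (h : ∀ f : (Fin n → Bool) → Bool, Monotone f → Asummable f m → Weighted f) (hn : 64 ≤ n) :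
    2 ^ (n / 256 * (Nat.log 2 n - 6)) ≤ m := by
  set r := Nat.log 2 n - 6
  have l1 : 6 ≤ Nat.log 2 n := Nat.le_log_of_pow_le one_lt_two hn
  have l2 : 2 ^ (r + 6) ≤ n := by
    rw [Nat.sub_add_cancel l1]; exact Nat.pow_log_le_self 2 (by omega)
  have l3 : n < 2 ^ (r + 7) := by
    have := Nat.lt_pow_succ_log_self one_lt_two n
    rwa [show (Nat.log 2 n).succ = r + 7 by omega] at this
  rw [pow_add] at l2 l3
  obtain ⟨e, he⟩ := exists_enum r
  obtain ⟨f, f1, f2, f3⟩ := dup' (row e) (row_val e) (⟨0, by positivity⟩, TT)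
    (fun i => by
      have n : TT ≠ univ := by decide
      simp [row, n]) (by simp) _ (big he)
  obtain ⟨j⟩ : Nonempty ((KK r × Bool) ⊕ (((Fin (2 ^ r) × Finset (Fin 3)) × Bool) ⊕ KK r) × Bool ↪
      Fin n) := Function.Embedding.nonempty_of_card_le (by simp; omega)
  obtain ⟨g, g1, g2, g3⟩ := pad j f f1 f2
  by_contra hc
  refine g2 (h g g1 fun L L1 L2 hL => ?_)
  have h1 := f3 L L1 (g3 L hL)
  have h2 : n / 256 * r ≤ ∑ u : Finset (Fin r), u.card := by
    have := sum_card r
    have h3 : 2 * (n / 256) ≤ 2 ^ r := by omega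
    nlinarith
  have := Nat.pow_le_pow_right two_pos h2
  omega

end Pool.Agent.H34.Thresh2
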