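import Mathlib

namespace Pool.Agent.H34.TreeLikeDefs
open MeasureTheory

/-- `B` induces a connected subgraph without a cut vertex of its own. -/
def NoCutVertex {V : Type} (G : SimpleGraph V) (B : Set V) : Prop :=
  (G.induce B).Connected ∧ ∀ v ∈ B, (G.induce (B \ {v})).Preconnected

/-- A block: a maximal connected subgraph without a cut vertex of its own. -/
def IsBlock {V : Type} (G : SimpleGraph V) (B : Set V) : Prop :=
  Maximal (NoCutVertex G) B

/-- The defining property of the tree-like graph `T_{m,n}`. -/
def IsTreeLike {V : Type} (G : SimpleGraph V) (m n : Cardinal) : Prop :=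
  G.Connected ∧ (∀ B, IsBlock G B → G.IsClique B ∧ Cardinal.mk B = n) ∧
    ∀ v, Cardinal.mk {B : Set V | IsBlock G B ∧ v ∈ B} = m

/-- The topology of pointwise convergence on `Aut(G)`, the vertex set being discrete. -/
def autTop {V : Type} (G : SimpleGraph V) : TopologicalSpace (G ≃g G) :=
  TopologicalSpace.induced (fun (g : G ≃g G) (v : V) => g v)
    (@Pi.topologicalSpace V (fun _ => V) (fun _ => ⊥))

/-- Amenability of a topological group: every continuous action on a nonempty compact Hausdorff
space has an invariant Borel probability measure. -/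
def IsAmenable (Γ : Type) [Group Γ] [TopologicalSpace Γ] : Prop :=
  ∀ (X : Type) [TopologicalSpace X] [CompactSpace X] [T2Space X] [Nonempty X]
    [MulAction Γ X] [ContinuousSMul Γ X] [MeasurableSpace X] [BorelSpace X],
    ∃ μ : Measure X, IsProbabilityMeasure μ ∧
      ∀ (g : Γ) (s : Set X), MeasurableSet s → μ ((fun x => g • x) ⁻¹' s) = μ s

end Pool.Agent.H34.TreeLikeDefs
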