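import Mathlib
import Pool.Agent.H34.TreeLikeDefs

namespace Pool.Agent.H34.TreeLike
open Pool.Agent.H34.TreeLikeDefs MeasureTheory Monoid Monoid.CoprodI

section general
variable {V : Type} (G : SimpleGraph V)

def R1 (p q : V × V) : Prop :=
  p.1 = q.1 ∧ G.Adj p.1 p.2 ∧ G.Adj q.1 q.2 ∧ p.2 ≠ q.2 ∧ ¬ G.Adj p.2 q.2

def R2 (p q : V × V) : Prop :=
  G.Adj p.1 q.1 ∧ G.Adj p.1 p.2 ∧ G.Adj q.1 q.2 ∧ (p.2 = q.1 ∨ G.Adj p.2 q.1) ∧
    (p.1 = q.2 ∨ G.Adj p.1 q.2) ∧ (p.2 = q.2 ∨ G.Adj p.2 q.2)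

def Ori : Set (V × V → Bool) :=
  {o | (∀ p q, R1 G p q → o p = false ∨ o q = false) ∧ ∀ p q, R2 G p q → o p = true ∨ o q = true}

theorem R1_map (g : G ≃g G) {p q : V × V} (h : R1 G p q) :
    R1 G (g p.1, g p.2) (g q.1, g q.2) := by
  simpa [R1, g.map_adj_iff] using h

theorem R2_map (g : G ≃g G) {p q : V × V} (h : R2 G p q) :
    R2 G (g p.1, g p.2) (g q.1, g q.2) := by
  simpa [R2, g.map_adj_iff] using h

instance : MulAction (G ≃g G) (Ori G) where
  smul g o := ⟨fun p => o.1 (g⁻¹ p.1, g⁻¹ p.2), fun _ _ h => o.2.1 _ _ (R1_map G g⁻¹ h),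
    fun _ _ h => o.2.2 _ _ (R2_map G g⁻¹ h)⟩
  one_smul _ := rfl
  mul_smul _ _ _ := rfl

theorem isClosed_ori : IsClosed (Ori G) := by
  have : Ori G = (⋂ p, ⋂ q, ⋂ _ : R1 G p q, {o | o p = false} ∪ {o | o q = false}) ∩
      (⋂ p, ⋂ q, ⋂ _ : R2 G p q, {o | o p = true} ∪ {o | o q = true}) := by
    ext o
    simp only [Ori, Set.mem_setOf_eq, Set.mem_inter_iff, Set.mem_iInter, Set.mem_union]
  rw [this]
  refine IsClosed.inter ?_ ?_ <;>
    exact isClosed_iInter fun p => isClosed_iInter fun q => isClosed_iInter fun _ =>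
      (isClosed_eq (continuous_apply p) continuous_const).union
        (isClosed_eq (continuous_apply q) continuous_const)

theorem cont_smul : letI := autTop G; ContinuousSMul (G ≃g G) (Ori G) := by
  letI := autTop G
  letI : TopologicalSpace V := ⊥
  haveI : DiscreteTopology V := ⟨rfl⟩
  have h0 : Continuous (fun (g : G ≃g G) (v : V) => g v) := continuous_induced_dom
  have h1 : ∀ v : V, Continuous fun g : G ≃g G => g⁻¹ v := by
    intro v
    rw [continuous_discrete_rng]
    intro u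
    have : (fun g : G ≃g G => g⁻¹ v) ⁻¹' {u} = (fun g : G ≃g G => g u) ⁻¹' {v} := by
      ext g
      simp only [Set.mem_preimage, Set.mem_singleton_iff]
      constructor
      · rintro rfl; simp
      · rintro rfl; simp
    rw [this]
    exact (isOpen_discrete _).preimage ((continuous_apply u).comp h0)
  refine ⟨Continuous.subtype_mk (continuous_pi fun p => ?_) _⟩
  have h2 : Continuous fun z : (V × V) × Ori G => z.2.1 z.1 :=
    continuous_prod_of_discrete_left.2 fun q => (continuous_apply q).comp continuous_subtype_val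
  exact h2.comp ((((h1 p.1).comp continuous_fst).prodMk ((h1 p.2).comp continuous_fst)).prodMk
    continuous_snd)

theorem zero_of_disjoint {X : Type} [MeasurableSpace X] (μ : Measure X) [IsProbabilityMeasure μ]
    (s : ℕ → Set X) (hs : ∀ k, MeasurableSet (s k)) (hd : Pairwise (Function.onFun Disjoint s))
    (c : ENNReal) (hc : ∀ k, μ (s k) = c) : c = 0 := by
  by_contra h
  have h1 := measure_iUnion (μ := μ) hd hs
  simp only [hc] at h1
  rw [ENNReal.tsum_const_eq_top_of_ne_zero h] at h1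
  exact measure_ne_top μ _ h1

/-- the measure argument -/
theorem not_amenable (hne : (Ori G).Nonempty) (b : Bool) (p q : V × V)
    (hpq : ∀ o ∈ Ori G, o p = b ∨ o q = b)
    (h : ∀ r, r = p ∨ r = q → ∃ g : ℕ → G ≃g G, ∀ k l, k ≠ l → ∀ o ∈ Ori G,
      ¬ (o (g k r.1, g k r.2) = b ∧ o (g l r.1, g l r.2) = b)) :
    ¬ @IsAmenable (G ≃g G) _ (autTop G) := by
  intro ham
  letI := autTop G
  haveI := cont_smul G
  haveI : CompactSpace (Ori G) := isCompact_iff_compactSpace.1 (isClosed_ori G).isCompact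
  haveI : Nonempty (Ori G) := hne.to_subtype
  letI : MeasurableSpace (Ori G) := borel _
  haveI : BorelSpace (Ori G) := ⟨rfl⟩
  obtain ⟨μ, hμ, hinv⟩ := ham (Ori G)
  have hm : ∀ r : V × V, MeasurableSet {o : Ori G | o.1 r = b} := fun r =>
    (isClosed_eq ((continuous_apply r).comp continuous_subtype_val) continuous_const).measurableSet
  have hz : ∀ r, r = p ∨ r = q → μ {o : Ori G | o.1 r = b} = 0 := by
    intro r hr
    obtain ⟨g, hg⟩ := h r hr
    refine zero_of_disjoint μ (fun k => {o : Ori G | o.1 (g k r.1, g k r.2) = b}) (fun k => hm _)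
      (fun k l hkl => Set.disjoint_left.2 fun o h1 h2 => hg k l hkl o.1 o.2 ⟨h1, h2⟩) _
      fun k => ?_
    exact hinv (g k)⁻¹ _ (hm r)
  have h1 : (Set.univ : Set (Ori G)) ⊆ {o | o.1 p = b} ∪ {o | o.1 q = b} :=
    fun o _ => hpq o.1 o.2
  have h2 := (measure_mono (μ := μ) h1).trans (measure_union_le _ _)
  rw [hz p (.inl rfl), hz q (.inr rfl)] at h2
  simp at h2

end general

section model
variable (ι A : Type) [Group A]

abbrev F := CoprodI (fun _ : ι => A)

variable {ι A}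

abbrev o (i : ι) (a : A) : F ι A := CoprodI.of (M := fun _ : ι => A) (i := i) a

open Classical in
noncomputable def idx (g : F ι A) : Option ι := (Word.equiv g).fstIdx

open Classical in
theorem idx_prod (w : Word (fun _ : ι => A)) : idx w.prod = w.fstIdx := by
  have : Word.equiv w.prod = w := Word.equiv.apply_symm_apply w
  rw [idx, this]

open Classical in
theorem exists_word (g : F ι A) : ∃ w : Word (fun _ : ι => A), w.prod = g :=
  ⟨Word.equiv g, Word.equiv.symm_apply_apply g⟩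

theorem idx_one : idx (1 : F ι A) = none := idx_prod Word.empty

theorem idx_mul {i : ι} {a : A} (ha : a ≠ 1) {g : F ι A} (hg : idx g ≠ some i) :
    idx (o i a * g) = some i := by
  obtain ⟨w, rfl⟩ := exists_word g
  rw [idx_prod] at hg
  rw [← Word.prod_cons i a w ha hg, idx_prod, Word.fstIdx_cons]

theorem idx_o {i : ι} {a : A} (ha : a ≠ 1) : idx (o i a) = some i := by
  simpa using idx_mul (i := i) ha (g := 1) (by simp [idx_one])

theorem idx_decomp {i : ι} {g : F ι A} (hg : idx g = some i) :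
    ∃ a g', a ≠ 1 ∧ idx g' ≠ some i ∧ g = o i a * g' := by
  obtain ⟨w, rfl⟩ := exists_word g
  rw [idx_prod] at hg
  induction w using Word.consRecOn with
  | empty => simp [Word.fstIdx] at hg
  | cons j a w h1 h2 _ =>
    rw [Word.fstIdx_cons] at hg
    cases hg
    exact ⟨a, w.prod, h2, by rwa [idx_prod], Word.prod_cons _ _ _ _ _⟩

theorem idx_mul_right (j : ι) (a : A) (g : F ι A) (h1 : g ≠ 1) (h2 : g * o j a ≠ 1) :
    idx (g * o j a) = idx g := by
  obtain ⟨w, rfl⟩ := exists_word g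
  induction w using Word.consRecOn with
  | empty => simp at h1
  | cons i m w k1 k2 ih =>
    rw [idx_prod, Word.fstIdx_cons]
    rw [Word.prod_cons, mul_assoc] at h2 ⊢
    by_cases hw : w.prod = 1
    · rw [hw, one_mul] at h2 ⊢
      by_cases hij : i = j
      · subst hij
        rw [← map_mul] at h2 ⊢
        exact idx_o fun h => h2 (by rw [h, map_one])
      · apply idx_mul k2
        by_cases ha : a = 1
        · simp [ha, idx_one]
        · rw [idx_o ha]
          exact fun h => hij (Option.some.inj h).symm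
    · apply idx_mul k2
      by_cases hh : w.prod * o j a = 1
      · simp [hh, idx_one]
      · rw [ih hw hh, idx_prod]
        exact k1

variable (ι A)

def Gr : SimpleGraph (F ι A) where
  Adj x y := x ≠ y ∧ ∃ i a, y = x * o i a
  symm := ⟨fun x y h => ⟨h.1.symm, by
    obtain ⟨i, a, rfl⟩ := h.2
    exact ⟨i, a⁻¹, by simp⟩⟩⟩
  loopless := ⟨fun _ h => h.1 rfl⟩

variable {ι A}

def C (i : ι) (x : F ι A) : Set (F ι A) := Set.range fun a => x * o i a

theorem self_mem (i : ι) (x : F ι A) : x ∈ C i x := ⟨1, by simp⟩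

theorem C_eq {i : ι} {x y : F ι A} (h : y ∈ C i x) : C i y = C i x := by
  obtain ⟨a, rfl⟩ := h
  ext z
  constructor
  · rintro ⟨b, rfl⟩
    exact ⟨a * b, by simp [mul_assoc]⟩
  · rintro ⟨b, rfl⟩
    exact ⟨a⁻¹ * b, by simp [mul_assoc]⟩

theorem clique_C (i : ι) (x : F ι A) : (Gr ι A).IsClique (C i x) := by
  rintro _ ⟨a, rfl⟩ _ ⟨b, rfl⟩ h
  exact ⟨h, i, a⁻¹ * b, by simp [mul_assoc]⟩

theorem pre_of_clique {V : Type} {G : SimpleGraph V} {S : Set V} (h : G.IsClique S) :
    (G.induce S).Preconnected := by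
  intro x y
  by_cases hxy : x = y
  · rw [hxy]
  · exact SimpleGraph.Adj.reachable (h x.2 y.2 fun e => hxy (Subtype.ext e))

theorem noCut_C (i : ι) (x : F ι A) : NoCutVertex (Gr ι A) (C i x) :=
  ⟨@SimpleGraph.Connected.mk _ _ (pre_of_clique (clique_C i x)) ⟨⟨x, self_mem i x⟩⟩,
    fun _ _ => pre_of_clique ((clique_C i x).subset Set.diff_subset)⟩

theorem sep_const {S : Set (F ι A)} (hS : ((Gr ι A).induce S).Preconnected) (c : F ι A)
    (hc : c ∉ S) (x y : S) : idx (c⁻¹ * x.1) = idx (c⁻¹ * y.1) := by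
  obtain ⟨w⟩ := hS x y
  induction w with
  | nil => rfl
  | @cons u v _ h _ ih =>
    rw [← ih]
    obtain ⟨-, i, a, h⟩ : (Gr ι A).Adj u.1 v.1 := h
    have hu : c⁻¹ * u.1 ≠ 1 := fun e => hc (inv_mul_eq_one.1 e ▸ u.2)
    have hv : c⁻¹ * v.1 ≠ 1 := fun e => hc (inv_mul_eq_one.1 e ▸ v.2)
    rw [h, ← mul_assoc] at hv ⊢
    exact (idx_mul_right i a _ hu hv).symm

theorem sep_noCut {B : Set (F ι A)} (hB : NoCutVertex (Gr ι A) B) (c : F ι A) {x y : F ι A}
    (hx : x ∈ B) (hy : y ∈ B) (hxc : x ≠ c) (hyc : y ≠ c) : idx (c⁻¹ * x) = idx (c⁻¹ * y) := by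
  by_cases hc : c ∈ B
  · exact sep_const (hB.2 c hc) c (by simp) ⟨x, hx, hxc⟩ ⟨y, hy, hyc⟩
  · exact sep_const hB.1.preconnected c hc ⟨x, hx⟩ ⟨y, hy⟩

theorem sub_C {B : Set (F ι A)} (hB : NoCutVertex (Gr ι A) B) {i : ι} {x : F ι A} {a : A}
    (ha : a ≠ 1) (hx : x ∈ B) (hy : x * o i a ∈ B) : B ⊆ C i x := by
  intro z hz
  by_cases hzx : z = x
  · rw [hzx]; exact self_mem i x
  have hne : ∀ b : A, b ≠ 1 → x * o i b ≠ x := by
    intro b hb h
    have := idx_o (i := i) hb
    rw [mul_eq_left.1 h, idx_one] at this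
    cases this
  have h1 := sep_noCut hB x hz hy hzx (hne a ha)
  rw [inv_mul_cancel_left, idx_o ha] at h1
  obtain ⟨b, g, hb, hg, h⟩ := idx_decomp h1
  by_cases hzc : z = x * o i b
  · exact ⟨b, hzc.symm⟩
  exfalso
  have h2 := sep_noCut hB (x * o i b) hz hx hzc (hne b hb).symm
  have e1 : (x * o i b)⁻¹ * z = g := by
    rw [mul_inv_rev, mul_assoc, h, inv_mul_cancel_left]
  have e2 : (x * o i b)⁻¹ * x = o i b⁻¹ := by simp
  rw [e1, e2, idx_o (inv_ne_one.2 hb)] at h2
  exact hg h2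

theorem isBlock_iff [Nonempty ι] [Nontrivial A] (B : Set (F ι A)) :
    IsBlock (Gr ι A) B ↔ ∃ i x, B = C i x := by
  constructor
  · intro hB
    obtain ⟨⟨x, hx⟩⟩ := hB.1.1.nonempty
    have : ∃ i, B ⊆ C i x := by
      by_cases h : ∃ y ∈ B, y ≠ x
      · obtain ⟨y, hy, hyx⟩ := h
        obtain ⟨w⟩ := hB.1.1.preconnected ⟨x, hx⟩ ⟨y, hy⟩
        cases w with
        | nil => exact absurd rfl hyx
        | @cons _ v _ h _ =>
          obtain ⟨h1, i, a, h⟩ : (Gr ι A).Adj x v.1 := h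
          refine ⟨i, sub_C hB.1 (a := a) ?_ hx (h ▸ v.2)⟩
          rintro rfl
          simp at h
          exact h1 h.symm
      · push Not at h
        exact ⟨Classical.arbitrary ι, fun y hy => h y hy ▸ self_mem _ _⟩
    obtain ⟨i, hi⟩ := this
    exact ⟨i, x, hi.antisymm (hB.2 (noCut_C i x) hi)⟩
  · rintro ⟨i, x, rfl⟩
    obtain ⟨a, ha⟩ := exists_ne (1 : A)
    exact ⟨noCut_C i x, fun B hB h => sub_C hB ha (h (self_mem i x)) (h ⟨a, rfl⟩)⟩

theorem o_eq {i j : ι} {a b : A} (ha : a ≠ 1) (h : o i a = o j b) : i = j := by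
  have h1 := idx_o (i := i) ha
  by_cases hb : b = 1
  · rw [h, hb] at h1
    simp [idx_one] at h1
  · rw [h, idx_o hb] at h1
    exact (Option.some.inj h1).symm

theorem treeLike [Nonempty ι] [Nontrivial A] :
    IsTreeLike (Gr ι A) (Cardinal.mk ι) (Cardinal.mk A) := by
  refine ⟨⟨fun x y => ?_⟩, fun B hB => ?_, fun v => ?_⟩
  · have : ∀ g x : F ι A, (Gr ι A).Reachable x (x * g) := by
      intro g
      induction g using CoprodI.induction_on with
      | one => intro x; rw [mul_one]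
      | of i a =>
        intro x
        by_cases h : x = x * o i a
        · exact h ▸ SimpleGraph.Reachable.refl x
        · exact SimpleGraph.Adj.reachable ⟨h, i, a, rfl⟩
      | mul g h hg hh => intro x; rw [← mul_assoc]; exact (hg x).trans (hh _)
    simpa using this (x⁻¹ * y) x
  · obtain ⟨i, x, rfl⟩ := (isBlock_iff B).1 hB
    refine ⟨clique_C i x, Cardinal.mk_range_eq _ fun a b h => ?_⟩
    exact CoprodI.of_injective (M := fun _ : ι => A) i (mul_left_cancel h)
  · have : {B | IsBlock (Gr ι A) B ∧ v ∈ B} = Set.range fun i => C i v := by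
      ext B
      simp only [Set.mem_setOf_eq, isBlock_iff, Set.mem_range]
      constructor
      · rintro ⟨⟨i, x, rfl⟩, h⟩
        exact ⟨i, C_eq h⟩
      · rintro ⟨i, rfl⟩
        exact ⟨⟨i, v, rfl⟩, self_mem i v⟩
    rw [this]
    refine Cardinal.mk_range_eq _ fun i j h => ?_
    obtain ⟨a, ha⟩ := exists_ne (1 : A)
    have : v * o i a ∈ C j v := by
      have h' : C i v = C j v := h
      exact h' ▸ ⟨a, rfl⟩
    obtain ⟨b, hb⟩ := this
    exact o_eq ha (mul_left_cancel hb).symm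

theorem adj_o {i j : ι} {a b : A} (ha : a ≠ 1) (hb : b ≠ 1) (x : F ι A)
    (h : x * o i a = x * o j b ∨ (Gr ι A).Adj (x * o i a) (x * o j b)) : i = j := by
  rcases h with h | ⟨-, k, c, h⟩
  · exact o_eq ha (mul_left_cancel h)
  · rw [mul_assoc] at h
    have h := mul_left_cancel h
    have h1 : o i a ≠ 1 := fun e => by simpa [e, idx_one] using idx_o (i := i) ha
    have h2 : o j b ≠ 1 := fun e => by simpa [e, idx_one] using idx_o (i := j) hb
    have := idx_mul_right k c _ h1 (h ▸ h2)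
    rw [← h, idx_o ha, idx_o hb] at this
    exact (Option.some.inj this).symm

theorem adj_elim {x y : F ι A} (h : (Gr ι A).Adj x y) : ∃ i a, a ≠ 1 ∧ y = x * o i a := by
  obtain ⟨h1, i, a, rfl⟩ := h
  exact ⟨i, a, fun e => h1 (by simp [e]), rfl⟩

theorem adj_intro (x : F ι A) (i : ι) {a : A} (ha : a ≠ 1) : (Gr ι A).Adj x (x * o i a) := by
  refine ⟨fun h => ?_, i, a, rfl⟩
  have := idx_o (i := i) ha
  rw [mul_eq_left.1 h.symm, idx_one] at this
  cases this

open Classical in
theorem ori_nonempty : (Ori (Gr ι A)).Nonempty := by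
  refine ⟨fun p => decide (idx p.1⁻¹ = idx (p.1⁻¹ * p.2)), ?_, ?_⟩
  · rintro ⟨x, y⟩ ⟨_, z⟩ ⟨rfl, h1, h2, h3, h4⟩
    dsimp only at h1 h2 h3 h4 ⊢
    obtain ⟨i, a, ha, rfl⟩ := adj_elim h1
    obtain ⟨j, b, hb, rfl⟩ := adj_elim h2
    by_contra hc
    simp only [inv_mul_cancel_left, idx_o ha, idx_o hb, decide_eq_false_iff_not, not_or,
      not_not] at hc
    have : i = j := Option.some.inj (hc.1.symm.trans hc.2)
    subst this
    exact h4 (clique_C i x ⟨a, rfl⟩ ⟨b, rfl⟩ h3)
  · rintro ⟨x, y⟩ ⟨z, w⟩ ⟨h1, h2, h3, h4, h5, h6⟩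
    dsimp only at h1 h2 h3 h4 h5 h6 ⊢
    obtain ⟨i, a, ha, rfl⟩ := adj_elim h1
    obtain ⟨j, b, hb, rfl⟩ := adj_elim h2
    obtain ⟨k, c, hc, rfl⟩ := adj_elim h3
    have e1 : j = i := adj_o hb ha x h4
    have e2 : i = k := by
      apply adj_o (inv_ne_one.2 ha) hc (x * o i a)
      simpa using h5
    subst e1 e2
    by_contra hcon
    simp only [inv_mul_cancel_left, idx_o hb, idx_o hc, decide_eq_true_eq, not_or] at hcon
    apply hcon.2
    rw [mul_inv_rev, ← map_inv]
    exact idx_mul (inv_ne_one.2 ha) hcon.1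

def lmul (g : F ι A) : Gr ι A ≃g Gr ι A where
  toEquiv := Equiv.mulLeft g
  map_rel_iff' := by
    intro x y
    simp [Gr, mul_assoc]

def phi (s : Equiv.Perm ι) : F ι A →* F ι A :=
  CoprodI.lift fun i => CoprodI.of (M := fun _ : ι => A) (i := s i)

theorem phi_o (s : Equiv.Perm ι) (i : ι) (a : A) : phi s (o i a) = o (s i) a := by
  simp [phi]

theorem phi_phi (s : Equiv.Perm ι) (x : F ι A) : phi s.symm (phi s x) = x := by
  have : (phi s.symm).comp (phi (A := A) s) = MonoidHom.id _ := by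
    apply CoprodI.ext_hom
    intro i
    ext a
    simp [phi]
  exact DFunLike.congr_fun this x

theorem phi_adj (s : Equiv.Perm ι) {x y : F ι A} (h : (Gr ι A).Adj x y) :
    (Gr ι A).Adj (phi s x) (phi s y) := by
  obtain ⟨i, a, ha, rfl⟩ := adj_elim h
  rw [map_mul, phi_o]
  exact adj_intro _ _ ha

def perm (s : Equiv.Perm ι) : Gr ι A ≃g Gr ι A where
  toFun := phi s
  invFun := phi s.symm
  left_inv := phi_phi s
  right_inv := phi_phi s.symm
  map_rel_iff' := by
    intro x y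
    refine ⟨fun h => ?_, phi_adj s⟩
    have := phi_adj s.symm h
    simp only [Equiv.coe_fn_mk, phi_phi] at this
    exact this

theorem case_m [Infinite ι] [Nontrivial A] :
    ¬ @IsAmenable (Gr ι A ≃g Gr ι A) _ (autTop (Gr ι A)) := by
  classical
  obtain ⟨a, ha⟩ := exists_ne (1 : A)
  let e := Infinite.natEmbedding ι
  have key : ∀ b : A, b ≠ 1 → ∀ k l, k ≠ l → ∀ s ∈ Ori (Gr ι A),
      ¬ (s (1, o (e k) b) = true ∧ s (1, o (e l) b) = true) := by
    intro b hb k l hkl s hs h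
    have hne : ¬ (1 * o (e k) b = 1 * o (e l) b ∨ (Gr ι A).Adj (1 * o (e k) b) (1 * o (e l) b)) :=
      fun h => hkl (e.injective (adj_o hb hb 1 h))
    simp only [one_mul, not_or] at hne
    have := hs.1 (1, o (e k) b) (1, o (e l) b)
      ⟨rfl, by simpa using adj_intro 1 (e k) hb, by simpa using adj_intro 1 (e l) hb, hne.1, hne.2⟩
    simp [h.1, h.2] at this
  have had : (Gr ι A).Adj 1 (o (e 0) a) := by simpa using adj_intro 1 (e 0) ha
  apply not_amenable _ ori_nonempty true (1, o (e 0) a) (o (e 0) a, 1)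
  · intro s hs
    exact hs.2 _ _ ⟨had, had, had.symm, .inl rfl, .inl rfl, .inr had.symm⟩
  · rintro r (rfl | rfl)
    · refine ⟨fun k => perm (Equiv.swap (e 0) (e k)), fun k l hkl s hs => ?_⟩
      have := key a ha k l hkl s hs
      simpa [perm, phi_o] using this
    · refine ⟨fun k => perm (Equiv.swap (e 0) (e k)) * lmul (o (e 0) a⁻¹), fun k l hkl s hs => ?_⟩
      have := key a⁻¹ (inv_ne_one.2 ha) k l hkl s hs
      simpa [perm, lmul, phi_o, -map_inv, ← map_mul] using this

theorem case_n [Nontrivial ι] [Infinite A] :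
    ¬ @IsAmenable (Gr ι A ≃g Gr ι A) _ (autTop (Gr ι A)) := by
  classical
  obtain ⟨a, ha⟩ := exists_ne (1 : A)
  obtain ⟨i, j, hij⟩ := exists_pair_ne ι
  let e := Infinite.natEmbedding A
  have key : ∀ i : ι, ∃ g : ℕ → Gr ι A ≃g Gr ι A, ∀ k l, k ≠ l → ∀ s ∈ Ori (Gr ι A),
      ¬ (s (g k 1, g k (o i a)) = false ∧ s (g l 1, g l (o i a)) = false) := by
    intro i
    refine ⟨fun k => lmul (o i (e k)), fun k l hkl s hs h => ?_⟩
    have hc := clique_C i (1 : F ι A)
    have m : ∀ b, o i b ∈ C i (1 : F ι A) := fun b => ⟨b, by simp⟩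
    have or : ∀ b c, o i b = o i c ∨ (Gr ι A).Adj (o i b) (o i c) := fun b c => by
      by_cases h : o i b = o i c
      · exact .inl h
      · exact .inr (hc (m b) (m c) h)
    have := hs.2 (o i (e k), o i (e k * a)) (o i (e l), o i (e l * a))
      ⟨hc (m _) (m _) fun h => hkl (e.injective
          (CoprodI.of_injective (M := fun _ : ι => A) i h)),
        by simpa using adj_intro (o i (e k)) i ha, by simpa using adj_intro (o i (e l)) i ha,
        or _ _, or _ _, or _ _⟩
    simp [lmul] at h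
    simp [h.1, h.2] at this
  apply not_amenable _ ori_nonempty false (1, o i a) (1, o j a)
  · intro s hs
    have hne : ¬ (1 * o i a = 1 * o j a ∨ (Gr ι A).Adj (1 * o i a) (1 * o j a)) :=
      fun h => hij (adj_o ha ha 1 h)
    simp only [one_mul, not_or] at hne
    exact hs.1 (1, o i a) (1, o j a)
      ⟨rfl, by simpa using adj_intro 1 i ha, by simpa using adj_intro 1 j ha, hne.1, hne.2⟩
  · rintro r (rfl | rfl)
    · exact key i
    · exact key j

end model

open Cardinal in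
theorem main (m n : Cardinal.{0}) (hm2 : 2 ≤ m) (hn2 : 2 ≤ n) (hn : n ≤ ℵ₀)
    (h : m = ℵ₀ ∨ n = ℵ₀) : ∃ (V : Type) (G : SimpleGraph V), IsTreeLike G m n ∧
      ¬ @IsAmenable (G ≃g G) _ (autTop G) := by
  obtain ⟨k, hk⟩ : ∃ k : ℕ, Cardinal.mk (Multiplicative (ZMod k)) = n := by
    rcases hn.lt_or_eq with hn | rfl
    · obtain ⟨k, rfl⟩ := Cardinal.lt_aleph0.1 hn
      have : 2 ≤ k := by exact_mod_cast hn2
      haveI : NeZero k := ⟨by omega⟩
      exact ⟨k, by simp⟩
    · exact ⟨0, (Cardinal.mk_congr Multiplicative.toAdd).trans Cardinal.mk_int⟩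
  have hι : Cardinal.mk m.out = m := Cardinal.mk_out m
  haveI : Nontrivial m.out := Cardinal.one_lt_iff_nontrivial.1 (by
    rw [hι]; exact lt_of_lt_of_le (by norm_num) hm2)
  haveI : Nontrivial (Multiplicative (ZMod k)) := Cardinal.one_lt_iff_nontrivial.1 (by
    rw [hk]; exact lt_of_lt_of_le (by norm_num) hn2)
  refine ⟨_, Gr m.out (Multiplicative (ZMod k)), ?_, ?_⟩
  · have := treeLike (ι := m.out) (A := Multiplicative (ZMod k))
    rwa [hι, hk] at this
  · rcases h with h | h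
    · haveI : Infinite m.out := Cardinal.infinite_iff.2 (by rw [hι, h])
      exact case_m
    · haveI : Infinite (Multiplicative (ZMod k)) := Cardinal.infinite_iff.2 (by rw [hk, h])
      exact case_n

end Pool.Agent.H34.TreeLike
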