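import Mathlib
import Pool.Agent.H60.PrimeWalk

namespace Pool.Agent.H34.Tri
open Pool.Agent.H60.PrimeWalk

/-- count the set bits of the word `w`; the top bit only marks the end of the word. -/
noncomputable def walkc (k : ℕ → Bool) (f : ℕ) : ℕ → ℕ → Bool :=
  Nat.rec (fun _ _ => false) (fun _ ih w c =>
    frc (Nat.succ (Nat.xor w (Nat.sub w 1))) fun z =>
      Nat.rec (k c) (fun u _ => frc (Nat.succ c) fun c' => ih (Nat.succ u) c') (Nat.div w z)) f

lemma count_skip (x t : ℕ) (ht : ∀ j < t, ¬ (x + j).Prime) :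
    Nat.count Nat.Prime (x + t) = Nat.count Nat.Prime x := by
  induction t with
  | zero => rfl
  | succ t ih =>
    rw [← add_assoc, Nat.count_succ, if_neg (ht t (by omega)), add_zero]
    exact ih fun j hj => ht j (by omega)

lemma walkc_spec (k : ℕ → Bool) (f r w x c : ℕ)
    (hw : ∀ i, w.testBit i = true ↔ i = r ∨ (i < r ∧ (x + i).Prime))
    (h : Nat.count Nat.Prime x = c) (hr : walkc k f w c = true) :
    k (Nat.count Nat.Prime (x + r)) = true := by
  induction f generalizing r w x c with
  | zero => simp [walkc] at hr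
  | succ f ih =>
    have hw0 : w ≠ 0 := by
      rintro rfl
      simpa using (hw r).2 (Or.inl rfl)
    obtain ⟨t, h0, h1, h2⟩ := ctz_spec w hw0
    have e : walkc k (f + 1) w c = frc (Nat.succ (Nat.xor w (Nat.sub w 1))) fun z =>
        Nat.rec (k c) (fun u _ => frc (Nat.succ c) fun c' => walkc k f (Nat.succ u) c')
          (Nat.div w z) := rfl
    rw [e] at hr
    simp only [frc_eq] at hr
    rw [h0] at hr
    have h3 : t ≤ r := by
      rcases (hw t).1 h1 with h | h <;> omega
    have h4 := count_skip x t fun j hj hp => by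
      have := (hw j).2 (Or.inr ⟨by omega, hp⟩)
      rw [h2 j hj] at this
      exact absurd this (by simp)
    have h5 : ∀ i, (Nat.div w (2 ^ (t + 1))).testBit i = w.testBit (t + 1 + i) := fun i => by
      rw [add_comm (t + 1)]
      exact Nat.testBit_div_two_pow w i
    generalize Nat.div w (2 ^ (t + 1)) = w' at hr h5
    cases w' with
    | zero =>
      have h6 : t = r := by
        by_contra h7
        have := h5 (r - (t + 1))
        rw [show t + 1 + (r - (t + 1)) = r by omega, (hw r).2 (Or.inl rfl)] at this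
        simp at this
      rw [← h6, h4, h]; exact hr
    | succ u =>
      have h6 : t < r := by
        obtain ⟨i, hi⟩ := Nat.exists_testBit_of_ne_zero (Nat.succ_ne_zero u)
        have h7 := h5 i
        rw [hi] at h7
        rcases (hw _).1 h7.symm with h | h <;> omega
      have h7 : (x + t).Prime := by
        rcases (hw t).1 h1 with h | h
        · omega
        · exact h.2
      have := ih (r - (t + 1)) (u + 1) (x + t + 1) (c + 1) (fun i => by
        rw [h5, hw, show x + (t + 1 + i) = x + t + 1 + i by ring]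
        constructor
        · rintro (h | ⟨h, h'⟩)
          · exact Or.inl (by omega)
          · exact Or.inr ⟨by omega, h'⟩
        · rintro (h | ⟨h, h'⟩)
          · exact Or.inl (by omega)
          · exact Or.inr ⟨by omega, h'⟩) (by rw [Nat.count_succ, if_pos h7, h4, h]) hr
      rwa [show x + t + 1 + (r - (t + 1)) = x + r by omega] at this

/-- run through `n` words of `W` bits of `m`, testing `T` on the count after each word. -/
noncomputable def wordsc (W : ℕ) (T k : ℕ → Bool) (n : ℕ) : ℕ → ℕ → Bool :=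
  Nat.rec (fun _ c => k c) (fun _ ih m c =>
    frc (Nat.add (Nat.pow 2 W) (Nat.mod m (Nat.pow 2 W))) fun w =>
      frc (Nat.shiftRight m W) fun m' =>
        walkc (fun c' => T c' && ih m' c') (Nat.succ W) w c) n

lemma wordsc_spec (W : ℕ) (T k : ℕ → Bool) (n m x c : ℕ)
    (hm : ∀ i < n * W, m.testBit i = true ↔ (x + i).Prime) (h : Nat.count Nat.Prime x = c)
    (hr : wordsc W T k n m c = true) :
    k (Nat.count Nat.Prime (x + n * W)) = true ∧
      ∀ j, 1 ≤ j → j ≤ n → T (Nat.count Nat.Prime (x + j * W)) = true := by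
  induction n generalizing m x c with
  | zero => exact ⟨by rw [zero_mul, add_zero, h]; exact hr, fun j h1 h2 => by omega⟩
  | succ n ih =>
    have e : wordsc W T k (n + 1) m c =
        frc (Nat.add (Nat.pow 2 W) (Nat.mod m (Nat.pow 2 W))) fun w =>
          frc (Nat.shiftRight m W) fun m' =>
            walkc (fun c' => T c' && wordsc W T k n m' c') (Nat.succ W) w c := rfl
    rw [e] at hr
    simp only [frc_eq] at hr
    have h2 := walkc_spec _ _ W (2 ^ W + m % 2 ^ W) x c
      (fun i => by
        have h0 : m % 2 ^ W < 2 ^ W := Nat.mod_lt _ (by positivity)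
        have := Nat.testBit_two_pow_mul_add 1 h0 i
        rw [mul_one] at this
        rw [this]
        split_ifs with hi
        · rw [Nat.testBit_mod_two_pow, Bool.and_eq_true, decide_eq_true_iff, hm i (by nlinarith)]
          constructor
          · exact fun h => Or.inr h
          · rintro (h | h)
            · omega
            · exact h
        · rw [Nat.testBit_one_eq_true_iff_self_eq_zero]
          constructor
          · intro h; left; omega
          · rintro (h | h) <;> omega) h hr
    simp only [Bool.and_eq_true] at h2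
    obtain ⟨h3, h4⟩ := ih (m >>> W) (x + W) _ (fun i hi => by
      rw [Nat.testBit_shiftRight, hm _ (by nlinarith), add_assoc]) rfl h2.2
    refine ⟨by rwa [show x + (n + 1) * W = x + W + n * W by ring], fun j h5 h6 => ?_⟩
    rcases Nat.eq_or_lt_of_le h5 with rfl | h7
    · rw [one_mul]; exact h2.1
    · have := h4 (j - 1) (by omega) (by omega)
      obtain ⟨j, rfl⟩ : ∃ i, j = i + 1 := ⟨j - 1, by omega⟩
      rwa [Nat.add_sub_cancel, show x + W + j * W = x + (j + 1) * W by ring] at this

noncomputable def segc (T : ℕ → Bool) (A e K W n c c' : ℕ) : Bool :=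
  (Nat.ble (K + 2) A && (Nat.ble (A + 2 ^ e) ((K + 2) ^ 2) && Nat.ble (n * W) (2 ^ e))) &&
    frc (mask A e K) fun m => wordsc W T (fun z => Nat.beq z c') n m c

theorem segc_spec (T : ℕ → Bool) (A e K W n c c' : ℕ) (h : Nat.count Nat.Prime A = c)
    (hr : segc T A e K W n c c' = true) : Nat.count Nat.Prime (A + n * W) = c' ∧
      ∀ j, 1 ≤ j → j ≤ n → T (Nat.count Nat.Prime (A + j * W)) = true := by
  simp only [segc, frc_eq, Bool.and_eq_true, Nat.ble_eq] at hr
  obtain ⟨⟨h1, h2, h3⟩, h4⟩ := hr
  obtain ⟨h5, h6⟩ := wordsc_spec W T _ n _ A c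
    (fun i hi => testBit_mask A e K h1 h2 i (by omega)) h h4
  exact ⟨Nat.eq_of_beq_eq_true h5, h6⟩

/-- Newton steps towards the square root of `N`. -/
noncomputable def newt (N f : ℕ) : ℕ → ℕ :=
  Nat.rec (fun x => x) (fun _ ih x => frc (Nat.div (Nat.add x (Nat.div N x)) 2) ih) f

/-- `c` lies strictly between two consecutive triangular numbers. -/
noncomputable def nt (c : ℕ) : Bool :=
  frc (Nat.div (Nat.sub (newt (Nat.succ (Nat.mul 8 c)) 13 2400) 1) 2) fun m =>
    Nat.blt (m * (m + 1)) (2 * c) && Nat.blt (2 * c) ((m + 1) * (m + 2))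

lemma nt_spec (c : ℕ) (h : nt c = true) (m : ℕ) : c ≠ m * (m + 1) / 2 := by
  simp only [nt, frc_eq, Bool.and_eq_true, Nat.blt_eq] at h
  generalize Nat.div (Nat.sub (newt (Nat.succ (Nat.mul 8 c)) 13 2400) 1) 2 = a at h
  obtain ⟨h1, h2⟩ := h
  intro e
  have h3 : 2 * c = m * (m + 1) := by
    rw [e]; exact Nat.mul_div_cancel' (Nat.even_mul_succ_self m).two_dvd
  rw [h3] at h1 h2
  have h4 : a < m := by by_contra h; have h := Nat.le_of_not_lt h; nlinarith
  have h5 : m < a + 1 := by by_contra h; have h := Nat.le_of_not_lt h; nlinarith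
  omega

/-- the invariant after `j` blocks of length `1471`. -/
def Q (j c : ℕ) : Prop := Nat.count Nat.Prime (j * 1471 + 1) = c ∧
  ∀ k, 1 ≤ k → k ≤ j → nt (Nat.count Nat.Prime (k * 1471 + 1)) = true

theorem Q.step {j c : ℕ} (h : Q j c) (K n c' : ℕ)
    (hr : segc nt (j * 1471 + 1) 17 K 1471 n c c' = true) : Q (j + n) c' := by
  obtain ⟨h1, h2⟩ := segc_spec _ _ _ _ _ _ _ _ h.1 hr
  refine ⟨by rwa [show (j + n) * 1471 + 1 = j * 1471 + 1 + n * 1471 by ring], fun k h3 h4 => ?_⟩
  by_cases h5 : k ≤ j
  · exact h.2 k h3 h5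
  · have := h2 (k - j) (by omega) (by omega)
    rwa [show j * 1471 + 1 + (k - j) * 1471 = k * 1471 + 1 by omega] at this

theorem c1472 : Nat.count Nat.Prime 1472 = 233 := by
  have a0 : Nat.count Nat.Prime 16 = 6 := by decide
  have a1 := (segc_spec (fun _ => true) 16 7 10 128 1 6 34 a0 (by decide +kernel)).1
  have a2 := (segc_spec (fun _ => true) 144 11 48 1328 1 34 233 a1 (by decide +kernel)).1
  exact a2

theorem q1 : Q 1 233 := ⟨c1472, fun k h1 h2 => by
  obtain rfl : k = 1 := by omega
  rw [show 1 * 1471 + 1 = 1472 from rfl, c1472]; decide +kernel⟩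

theorem nth_lt : Nat.nth Nat.Prime 1470 < 12302 := by
  have a2 := (segc_spec (fun _ => true) 1472 14 140 10830 1 233 1471 c1472 (by decide +kernel)).1
  exact Nat.nth_lt_of_lt_count (by rw [show 12302 = 1472 + 1 * 10830 from rfl, a2]; norm_num)

end Pool.Agent.H34.Tri
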