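import Pool.Agent.H34.Tri

namespace Pool.Agent.H34.Tri

theorem s1 (h : Q 1 233) : Q 90 12359 := h.step 363 89 12359 (by decide +kernel)
theorem s90 (h : Q 90 12359) : Q 179 23094 := h.step 512 89 23094 (by decide +kernel)
theorem s179 (h : Q 179 23094) : Q 268 33416 := h.step 626 89 33416 (by decide +kernel)
theorem s268 (h : Q 268 33416) : Q 357 43451 := h.step 723 89 43451 (by decide +kernel)
theorem s357 (h : Q 357 43451) : Q 446 53274 := h.step 809 89 53274 (by decide +kernel)
theorem s446 (h : Q 446 53274) : Q 535 62985 := h.step 886 89 62985 (by decide +kernel)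
theorem s535 (h : Q 535 62985) : Q 624 72583 := h.step 957 89 72583 (by decide +kernel)
theorem s624 (h : Q 624 72583) : Q 713 82043 := h.step 1023 89 82043 (by decide +kernel)
theorem s713 (h : Q 713 82043) : Q 802 91468 := h.step 1085 89 91468 (by decide +kernel)
theorem s802 (h : Q 802 91468) : Q 891 100782 := h.step 1143 89 100782 (by decide +kernel)
theorem s891 (h : Q 891 100782) : Q 980 110039 := h.step 1199 89 110039 (by decide +kernel)
theorem s980 (h : Q 980 110039) : Q 1069 119240 := h.step 1253 89 119240 (by decide +kernel)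
theorem s1069 (h : Q 1069 119240) : Q 1158 128383 := h.step 1304 89 128383 (by decide +kernel)
theorem s1158 (h : Q 1158 128383) : Q 1247 137476 := h.step 1353 89 137476 (by decide +kernel)
theorem r0 (h : Q 1 233) : Q 1247 137476 :=
  (s1158 (s1069 (s980 (s891 (s802 (s713 (s624 (s535 (s446 (s357 (s268 (s179 (s90 (s1 h))))))))))))))

end Pool.Agent.H34.Tri
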