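import Pool.Agent.H34.Tri

namespace Pool.Agent.H34.Tri

theorem s1247 (h : Q 1247 137476) : Q 1336 146543 := h.step 1400 89 146543 (by decide +kernel)
theorem s1336 (h : Q 1336 146543) : Q 1425 155547 := h.step 1446 89 155547 (by decide +kernel)
theorem s1425 (h : Q 1425 155547) : Q 1514 164509 := h.step 1491 89 164509 (by decide +kernel)
theorem s1514 (h : Q 1514 164509) : Q 1603 173423 := h.step 1534 89 173423 (by decide +kernel)
theorem s1603 (h : Q 1603 173423) : Q 1692 182329 := h.step 1576 89 182329 (by decide +kernel)
theorem s1692 (h : Q 1692 182329) : Q 1781 191204 := h.step 1617 89 191204 (by decide +kernel)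
theorem s1781 (h : Q 1781 191204) : Q 1870 200042 := h.step 1657 89 200042 (by decide +kernel)
theorem s1870 (h : Q 1870 200042) : Q 1959 208887 := h.step 1696 89 208887 (by decide +kernel)
theorem s1959 (h : Q 1959 208887) : Q 2048 217676 := h.step 1734 89 217676 (by decide +kernel)
theorem s2048 (h : Q 2048 217676) : Q 2137 226403 := h.step 1772 89 226403 (by decide +kernel)
theorem s2137 (h : Q 2137 226403) : Q 2226 235206 := h.step 1808 89 235206 (by decide +kernel)
theorem s2226 (h : Q 2226 235206) : Q 2315 243912 := h.step 1844 89 243912 (by decide +kernel)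
theorem s2315 (h : Q 2315 243912) : Q 2404 252527 := h.step 1879 89 252527 (by decide +kernel)
theorem s2404 (h : Q 2404 252527) : Q 2493 261192 := h.step 1914 89 261192 (by decide +kernel)
theorem r1 (h : Q 1247 137476) : Q 2493 261192 :=
  (s2404 (s2315 (s2226 (s2137 (s2048 (s1959 (s1870 (s1781 (s1692 (s1603 (s1514 (s1425 (s1336 (s1247 h))))))))))))))

end Pool.Agent.H34.Tri
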