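import Pool.Agent.H34.Tri

namespace Pool.Agent.H34.Tri

theorem s2493 (h : Q 2493 261192) : Q 2582 269858 := h.step 1947 89 269858 (by decide +kernel)
theorem s2582 (h : Q 2582 269858) : Q 2671 278524 := h.step 1981 89 278524 (by decide +kernel)
theorem s2671 (h : Q 2671 278524) : Q 2760 287133 := h.step 2013 89 287133 (by decide +kernel)
theorem s2760 (h : Q 2760 287133) : Q 2849 295727 := h.step 2046 89 295727 (by decide +kernel)
theorem s2849 (h : Q 2849 295727) : Q 2938 304257 := h.step 2077 89 304257 (by decide +kernel)
theorem s2938 (h : Q 2938 304257) : Q 3027 312839 := h.step 2109 89 312839 (by decide +kernel)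
theorem s3027 (h : Q 3027 312839) : Q 3116 321378 := h.step 2139 89 321378 (by decide +kernel)
theorem s3116 (h : Q 3116 321378) : Q 3205 329901 := h.step 2170 89 329901 (by decide +kernel)
theorem s3205 (h : Q 3205 329901) : Q 3294 338397 := h.step 2200 89 338397 (by decide +kernel)
theorem s3294 (h : Q 3294 338397) : Q 3383 346964 := h.step 2229 89 346964 (by decide +kernel)
theorem s3383 (h : Q 3383 346964) : Q 3472 355424 := h.step 2258 89 355424 (by decide +kernel)
theorem s3472 (h : Q 3472 355424) : Q 3561 363899 := h.step 2287 89 363899 (by decide +kernel)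
theorem s3561 (h : Q 3561 363899) : Q 3650 372362 := h.step 2316 89 372362 (by decide +kernel)
theorem s3650 (h : Q 3650 372362) : Q 3739 380804 := h.step 2344 89 380804 (by decide +kernel)
theorem r2 (h : Q 2493 261192) : Q 3739 380804 :=
  (s3650 (s3561 (s3472 (s3383 (s3294 (s3205 (s3116 (s3027 (s2938 (s2849 (s2760 (s2671 (s2582 (s2493 h))))))))))))))

end Pool.Agent.H34.Tri
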