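import Pool.Agent.H34.Tri

namespace Pool.Agent.H34.Tri

theorem s3739 (h : Q 3739 380804) : Q 3828 389178 := h.step 2372 89 389178 (by decide +kernel)
theorem s3828 (h : Q 3828 389178) : Q 3917 397583 := h.step 2399 89 397583 (by decide +kernel)
theorem s3917 (h : Q 3917 397583) : Q 4006 405962 := h.step 2426 89 405962 (by decide +kernel)
theorem s4006 (h : Q 4006 405962) : Q 4095 414394 := h.step 2453 89 414394 (by decide +kernel)
theorem s4095 (h : Q 4095 414394) : Q 4184 422761 := h.step 2479 89 422761 (by decide +kernel)
theorem s4184 (h : Q 4184 422761) : Q 4273 431129 := h.step 2506 89 431129 (by decide +kernel)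
theorem s4273 (h : Q 4273 431129) : Q 4362 439450 := h.step 2532 89 439450 (by decide +kernel)
theorem s4362 (h : Q 4362 439450) : Q 4451 447795 := h.step 2557 89 447795 (by decide +kernel)
theorem s4451 (h : Q 4451 447795) : Q 4540 456123 := h.step 2583 89 456123 (by decide +kernel)
theorem s4540 (h : Q 4540 456123) : Q 4629 464459 := h.step 2608 89 464459 (by decide +kernel)
theorem s4629 (h : Q 4629 464459) : Q 4718 472840 := h.step 2633 89 472840 (by decide +kernel)
theorem s4718 (h : Q 4718 472840) : Q 4807 481169 := h.step 2658 89 481169 (by decide +kernel)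
theorem s4807 (h : Q 4807 481169) : Q 4896 489453 := h.step 2682 89 489453 (by decide +kernel)
theorem s4896 (h : Q 4896 489453) : Q 4985 497737 := h.step 2706 89 497737 (by decide +kernel)
theorem r3 (h : Q 3739 380804) : Q 4985 497737 :=
  (s4896 (s4807 (s4718 (s4629 (s4540 (s4451 (s4362 (s4273 (s4184 (s4095 (s4006 (s3917 (s3828 (s3739 h))))))))))))))

end Pool.Agent.H34.Tri
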