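import Pool.Agent.H34.Tri

namespace Pool.Agent.H34.Tri

theorem s4985 (h : Q 4985 497737) : Q 5074 505995 := h.step 2731 89 505995 (by decide +kernel)
theorem s5074 (h : Q 5074 505995) : Q 5163 514229 := h.step 2754 89 514229 (by decide +kernel)
theorem s5163 (h : Q 5163 514229) : Q 5252 522529 := h.step 2778 89 522529 (by decide +kernel)
theorem s5252 (h : Q 5252 522529) : Q 5341 530755 := h.step 2801 89 530755 (by decide +kernel)
theorem s5341 (h : Q 5341 530755) : Q 5430 539016 := h.step 2825 89 539016 (by decide +kernel)
theorem s5430 (h : Q 5430 539016) : Q 5519 547178 := h.step 2848 89 547178 (by decide +kernel)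
theorem s5519 (h : Q 5519 547178) : Q 5608 555441 := h.step 2871 89 555441 (by decide +kernel)
theorem s5608 (h : Q 5608 555441) : Q 5697 563644 := h.step 2893 89 563644 (by decide +kernel)
theorem s5697 (h : Q 5697 563644) : Q 5786 571833 := h.step 2916 89 571833 (by decide +kernel)
theorem s5786 (h : Q 5786 571833) : Q 5875 580098 := h.step 2938 89 580098 (by decide +kernel)
theorem s5875 (h : Q 5875 580098) : Q 5964 588323 := h.step 2960 89 588323 (by decide +kernel)
theorem s5964 (h : Q 5964 588323) : Q 6053 596453 := h.step 2982 89 596453 (by decide +kernel)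
theorem s6053 (h : Q 6053 596453) : Q 6142 604613 := h.step 3004 89 604613 (by decide +kernel)
theorem s6142 (h : Q 6142 604613) : Q 6150 605350 := h.step 3026 8 605350 (by decide +kernel)
theorem r4 (h : Q 4985 497737) : Q 6150 605350 :=
  (s6142 (s6053 (s5964 (s5875 (s5786 (s5697 (s5608 (s5519 (s5430 (s5341 (s5252 (s5163 (s5074 (s4985 h))))))))))))))

end Pool.Agent.H34.Tri
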