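import Mathlib

namespace Pool.Agent.H34.VMad
open Set

variable {F : Type} [Field F]

def Far (n : ℕ) (x : ℕ →₀ F) : Prop := ∀ i < n, x i = 0

def Bel (n : ℕ) (x : ℕ →₀ F) : Prop := ∀ i, n ≤ i → x i = 0

def Top (x : ℕ →₀ F) (t : ℕ) : Prop := x t ≠ 0 ∧ Bel (t + 1) x

noncomputable def lo (x : ℕ →₀ F) : ℕ := sInf {i | x i ≠ 0}

noncomputable def sf (a : ℕ) (x : ℕ →₀ F) : ℕ →₀ F := x.filter (a ≤ ·)

noncomputable def fc (x : ℕ →₀ F) : F := x (lo x)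

noncomputable def osc (x : ℕ →₀ F) : ℕ := {i | x i ≠ 0 ∧ fc (sf (i + 1) x) ≠ x i}.ncard

theorem Far.mono {n k : ℕ} {x : ℕ →₀ F} (h : Far n x) (e : k ≤ n) : Far k x :=
  fun i hi => h i (hi.trans_le e)

theorem Bel.mono {n k : ℕ} {x : ℕ →₀ F} (h : Bel n x) (e : n ≤ k) : Bel k x :=
  fun i hi => h i (e.trans hi)

theorem Far.smul {n : ℕ} {x : ℕ →₀ F} (h : Far n x) (c : F) : Far n (c • x) :=
  fun i hi => by simp [h i hi]

theorem Bel.smul {n : ℕ} {x : ℕ →₀ F} (h : Bel n x) (c : F) : Bel n (c • x) :=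
  fun i hi => by simp [h i hi]

theorem Far.add {n : ℕ} {x y : ℕ →₀ F} (h : Far n x) (k : Far n y) : Far n (x + y) :=
  fun i hi => by simp [h i hi, k i hi]

theorem Bel.add {n : ℕ} {x y : ℕ →₀ F} (h : Bel n x) (k : Bel n y) : Bel n (x + y) :=
  fun i hi => by simp [h i hi, k i hi]

theorem exists_bel (x : ℕ →₀ F) : ∃ n, Bel n x := by
  obtain ⟨n, hn⟩ := x.support.bddAbove
  exact ⟨n + 1, fun i hi => by_contra fun c => by
    have := hn (Finsupp.mem_support_iff.2 c); omega⟩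

theorem exists_top {x : ℕ →₀ F} (h : x ≠ 0) : ∃ t, Top x t :=
  ⟨x.support.max' (Finsupp.support_nonempty_iff.2 h),
    Finsupp.mem_support_iff.1 (Finset.max'_mem _ _), fun i hi => by_contra fun c => by
      have := Finset.le_max' _ _ (Finsupp.mem_support_iff.2 c); omega⟩

theorem lo_le {x : ℕ →₀ F} {a : ℕ} (h : x a ≠ 0) : lo x ≤ a := Nat.sInf_le h

theorem fc_ne {x : ℕ →₀ F} (h : x ≠ 0) : x (lo x) ≠ 0 :=
  Nat.sInf_mem (s := {i | x i ≠ 0}) (Finsupp.ne_iff.1 h)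

theorem far_lo (x : ℕ →₀ F) : Far (lo x) x := fun _ hi => by_contra fun c => (lo_le c).not_gt hi

theorem ne_of_apply {x : ℕ →₀ F} {a : ℕ} (h : x a ≠ 0) : x ≠ 0 := fun e => h (by simp [e])

theorem le_lo {x : ℕ →₀ F} {n : ℕ} (h : x ≠ 0) (k : Far n x) : n ≤ lo x :=
  not_lt.1 fun c => fc_ne h (k _ c)

theorem lo_eq {x : ℕ →₀ F} {a : ℕ} (h : x a ≠ 0) (k : Far a x) : lo x = a :=
  le_antisymm (lo_le h) (le_lo (ne_of_apply h) k)

theorem lo_lt {x : ℕ →₀ F} {n : ℕ} (h : x ≠ 0) (k : Bel n x) : lo x < n :=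
  not_le.1 fun c => fc_ne h (k _ c)

theorem sf_apply (a : ℕ) (x : ℕ →₀ F) (i : ℕ) : sf a x i = if a ≤ i then x i else 0 := rfl

theorem sf_far (a : ℕ) (x : ℕ →₀ F) : Far a (sf a x) := fun _ hi => if_neg (not_le.2 hi)

theorem sf_of_le {a i : ℕ} (x : ℕ →₀ F) (h : a ≤ i) : sf a x i = x i := if_pos h

theorem sf_add (a : ℕ) (x y : ℕ →₀ F) : sf a (x + y) = sf a x + sf a y := Finsupp.filter_add

theorem sf_smul (a : ℕ) (c : F) (x : ℕ →₀ F) : sf a (c • x) = c • sf a x := Finsupp.filter_smul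

theorem Far.sf {a : ℕ} {x : ℕ →₀ F} (h : Far a x) : sf a x = x := by
  ext i
  rw [sf_apply]
  split_ifs with c
  exacts [rfl, (h i (not_le.1 c)).symm]

theorem Bel.sf {a : ℕ} {x : ℕ →₀ F} (h : Bel a x) : sf a x = 0 := by
  ext i
  rw [sf_apply]
  split_ifs with c
  exacts [h i c, rfl]

theorem sf_sf {a b : ℕ} (h : a ≤ b) (x : ℕ →₀ F) : sf b (sf a x) = sf b x := by
  ext i
  simp only [sf_apply]
  split_ifs with c d
  exacts [rfl, by omega, rfl]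

theorem lo_sf {a : ℕ} {x : ℕ →₀ F} (h : x a ≠ 0) : lo (sf a x) = a :=
  lo_eq (by rwa [sf_of_le x le_rfl]) (sf_far a x)

theorem Top.sf {x : ℕ →₀ F} {t a : ℕ} (h : Top x t) (e : a ≤ t) : Top (sf a x) t :=
  ⟨by rw [sf_of_le x e]; exact h.1, fun i hi => by rw [sf_of_le x (by omega)]; exact h.2 i hi⟩

theorem Top.smul {x : ℕ →₀ F} {t : ℕ} (h : Top x t) {c : F} (hc : c ≠ 0) : Top (c • x) t :=
  ⟨by simp [hc, h.1], h.2.smul c⟩

theorem lo_smul {c : F} (hc : c ≠ 0) (x : ℕ →₀ F) : lo (c • x) = lo x := by simp [lo, hc]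

theorem fc_smul {c : F} (hc : c ≠ 0) (x : ℕ →₀ F) : fc (c • x) = c * fc x := by
  simp [fc, lo_smul hc]

theorem osc_smul {c : F} (hc : c ≠ 0) (x : ℕ →₀ F) : osc (c • x) = osc x := by
  simp [osc, sf_smul, fc_smul hc, hc]

theorem lo_add {p r : ℕ →₀ F} {n : ℕ} (h : p ≠ 0) (hp : Bel n p) (hr : Far n r) :
    lo (p + r) = lo p :=
  lo_eq (by simp [hr _ (lo_lt h hp), fc_ne h])
    ((far_lo p).add (hr.mono (lo_lt h hp).le))

theorem fc_add {p r : ℕ →₀ F} {n : ℕ} (h : p ≠ 0) (hp : Bel n p) (hr : Far n r) :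
    fc (p + r) = fc p := by
  simp [fc, lo_add h hp hr, hr _ (lo_lt h hp)]

open Classical in
theorem osc_add {p r : ℕ →₀ F} {t : ℕ} (hp : Top p t) (hr : Far (t + 1) r) (h : r ≠ 0) :
    osc (p + r) + (if fc r = p t then 1 else 0) = osc p + osc r := by
  have fin : ∀ x : ℕ →₀ F, {i | x i ≠ 0 ∧ fc (sf (i + 1) x) ≠ x i}.Finite := fun x =>
    x.support.finite_toSet.subset fun i hi => Finsupp.mem_support_iff.2 hi.1
  have k : ∀ i, i ≠ t → ((p + r) i ≠ 0 ∧ fc (sf (i + 1) (p + r)) ≠ (p + r) i ↔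
      (p i ≠ 0 ∧ fc (sf (i + 1) p) ≠ p i) ∨ (r i ≠ 0 ∧ fc (sf (i + 1) r) ≠ r i)) := by
    intro i hi
    rcases hi.lt_or_gt with c | c
    · rw [sf_add, (hr.mono (by omega)).sf, fc_add (ne_of_apply (hp.sf c).1) (hp.sf c).2 hr]
      simp [hr i (by omega)]
    · rw [sf_add, (hp.2.mono (by omega)).sf]
      simp [hp.2 i c]
  have kt : (p + r) t ≠ 0 ∧ fc (sf (t + 1) (p + r)) ≠ (p + r) t ↔ fc r ≠ p t := by
    rw [sf_add, hp.2.sf, hr.sf]
    simp [hr t (by omega), hp.1]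
  have pt : p t ≠ 0 ∧ fc (sf (t + 1) p) ≠ p t := ⟨hp.1, by rw [hp.2.sf]; simpa [fc] using hp.1.symm⟩
  rw [osc, osc, osc, ← ncard_union_eq (disjoint_left.2 fun i a b => by
    rcases le_or_gt i t with c | c
    exacts [b.1 (hr i (by omega)), a.1 (hp.2 i c)]) (fin p) (fin r)]
  split_ifs with c
  · rw [← ncard_insert_of_notMem (a := t) (fun q => kt.1 q c) (fin _)]
    congr 1
    ext i
    by_cases e : i = t
    · subst e
      exact ⟨fun _ => Or.inl pt, fun _ => Or.inl rfl⟩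
    · exact (or_iff_right e).trans (k i e)
  · rw [add_zero]
    congr 1
    ext i
    by_cases e : i = t
    · subst e
      exact ⟨fun _ => Or.inl pt, fun _ => kt.2 c⟩
    · exact k i e

theorem osc_eq {p r : ℕ →₀ F} {t : ℕ} (hp : Top p t) (hr : Far (t + 1) r) (h : r ≠ 0)
    (e : fc r = p t) : osc (p + r) + 1 = osc p + osc r := by
  rw [← osc_add hp hr h, if_pos e]

theorem exists_scal {r : ℕ →₀ F} (h : r ≠ 0) {a : F} (ha : a ≠ 0) :
    ∃ c : F, c ≠ 0 ∧ fc (c • r) = a :=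
  have k : fc r ≠ 0 := fc_ne h
  ⟨a / fc r, div_ne_zero ha k, by rw [fc_smul (div_ne_zero ha k), div_mul_cancel₀ _ k]⟩

theorem exists_osc (h3 : ∃ c : F, c ≠ 0 ∧ c ≠ 1) {U : Submodule F (ℕ →₀ F)}
    (hU : ∀ n, ∃ x ∈ U, x ≠ 0 ∧ Far n x) {M : ℕ} (hM : M ≠ 0) (N n : ℕ) :
    ∃ x ∈ U, x ≠ 0 ∧ Far n x ∧ osc x ≡ N [MOD M] := by
  haveI : NeZero M := ⟨hM⟩
  obtain ⟨d, d0, d1⟩ := h3
  let R : Set (ZMod M) := {ρ | ∀ n, ∃ x ∈ U, x ≠ 0 ∧ Far n x ∧ (osc x : ZMod M) = ρ}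
  obtain ⟨ρ, hρ⟩ : R.Nonempty := by
    by_contra c
    have : ∀ ρ : ZMod M, ∃ n, ∀ x ∈ U, x ≠ 0 → Far n x → (osc x : ZMod M) ≠ ρ := fun ρ => by
      by_contra! k
      exact c ⟨ρ, k⟩
    choose n hn using this
    obtain ⟨K, hK⟩ := (finite_range n).bddAbove
    obtain ⟨x, h1, h2, h3⟩ := hU K
    exact hn _ x h1 h2 (h3.mono (hK (mem_range_self _))) rfl
  have add : ∀ ρ ∈ R, ∀ σ ∈ R, ρ + σ ∈ R ∧ ρ + σ - 1 ∈ R := by
    intro ρ hρ σ hσ
    have : ∀ n (e : F), e ≠ 0 → ∃ x ∈ U, x ≠ 0 ∧ Far n x ∧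
        (osc x : ZMod M) + (open Classical in if e = 1 then 1 else 0) = ρ + σ := fun n e e0 => by
      obtain ⟨p, p1, p2, p3, p4⟩ := hρ n
      obtain ⟨t, ht⟩ := exists_top p2
      obtain ⟨r, r1, r2, r3, r4⟩ := hσ (t + 1)
      obtain ⟨c, c0, hc⟩ := exists_scal r2 (mul_ne_zero e0 ht.1)
      have := osc_add ht (r3.smul c) (smul_ne_zero c0 r2)
      rw [hc, osc_smul c0] at this
      refine ⟨p + c • r, U.add_mem p1 (U.smul_mem c r1), ne_of_apply (a := t)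
        (by simp [r3 t, ht.1]), p3.add ((r3.smul c).mono ?_), ?_⟩
      · exact (not_lt.1 fun q => ht.1 (p3 t (by omega)))
      · rw [← p4, ← r4, ← Nat.cast_add, ← this]
        by_cases q : e = 1
        · simp [q]
        · simp [q, mt (mul_eq_right₀ ht.1).1 q]
    refine ⟨fun n => ?_, fun n => ?_⟩
    · simpa [d1] using this n d d0
    · simpa [eq_sub_iff_add_eq] using this n 1 one_ne_zero
  have mul : ∀ ρ ∈ R, ∀ j : ℕ, ((j + 1 : ℕ) : ZMod M) * ρ ∈ R := fun ρ hρ j => by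
    induction j with
    | zero => simpa using hρ
    | succ j ih => simpa [add_mul] using (add _ ih _ hρ).1
  have z : (0 : ZMod M) ∈ R := by
    simpa [Nat.sub_add_cancel (Nat.pos_of_ne_zero hM)] using mul ρ hρ (M - 1)
  have o : (1 : ZMod M) ∈ R := by
    have := mul _ (mul _ (add _ z _ z).2 0) ((M - 1) + (M - 1) * M + M - 1)
    convert this using 1
    rw [Nat.sub_add_cancel (by omega)]
    simp [Nat.cast_sub (Nat.pos_of_ne_zero hM)]
  obtain ⟨x, h1, h2, h3, h4⟩ := mul 1 o (N + M - 1) n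
  refine ⟨x, h1, h2, h3, (ZMod.natCast_eq_natCast_iff _ _ _).1 ?_⟩
  rw [h4, Nat.sub_add_cancel (by omega)]
  simp

end Pool.Agent.H34.VMad
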