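import Pool.Agent.H34.VMadA

namespace Pool.Agent.H34.VMad
open Set

variable {F : Type} [Field F]

noncomputable def Sp (v : ℕ → ℕ →₀ F) (k : ℕ) : Submodule F (ℕ →₀ F) := Submodule.span F (v '' Iio k)

theorem Sp.congr {v w : ℕ → ℕ →₀ F} {k : ℕ} (h : ∀ i < k, v i = w i) : Sp v k = Sp w k :=
  congrArg _ (image_congr h)

theorem Sp.mono (v : ℕ → ℕ →₀ F) {k l : ℕ} (h : k ≤ l) : Sp v k ≤ Sp v l :=
  Submodule.span_mono (image_mono (Iio_subset_Iio h))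

theorem Sp.mem (v : ℕ → ℕ →₀ F) {k i : ℕ} (h : i < k) : v i ∈ Sp v k :=
  Submodule.subset_span ⟨i, h, rfl⟩

theorem Sp.succ {v : ℕ → ℕ →₀ F} {k : ℕ} {x : ℕ →₀ F} (h : x ∈ Sp v (k + 1)) :
    ∃ c : F, ∃ w ∈ Sp v k, x = c • v k + w := by
  rwa [Sp, ← Order.succ_eq_add_one, Order.Iio_succ, ← Iio_insert,
    image_insert_eq, Submodule.mem_span_insert] at h

theorem Sp.zero {v : ℕ → ℕ →₀ F} {x : ℕ →₀ F} (h : x ∈ Sp v 0) : x = 0 := by simpa [Sp] using h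

theorem Sp.bel {v : ℕ → ℕ →₀ F} {k n : ℕ} (h : ∀ i < k, Bel n (v i)) {x : ℕ →₀ F}
    (hx : x ∈ Sp v k) : Bel n x := by
  induction hx using Submodule.span_induction with
  | mem x hx => obtain ⟨i, hi, rfl⟩ := hx; exact h i hi
  | zero => exact fun _ _ => rfl
  | add x y _ _ a b => exact a.add b
  | smul c x _ a => exact a.smul c

theorem Sp.decomp {v : ℕ → ℕ →₀ F} {k : ℕ} {x : ℕ →₀ F} (hx : x ∈ Sp v k) (h : x ≠ 0) :
    ∃ i < k, ∃ c : F, c ≠ 0 ∧ ∃ w ∈ Sp v i, x = c • v i + w := by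
  induction k with
  | zero => exact absurd (Sp.zero hx) h
  | succ k ih =>
    obtain ⟨c, w, hw, rfl⟩ := Sp.succ hx
    by_cases e : c = 0
    · obtain ⟨i, hi, q⟩ := ih (by simpa [e] using hw)
      exact ⟨i, by omega, q⟩
    · exact ⟨k, by omega, c, e, w, hw, rfl⟩

theorem exists_Sp {v : ℕ → ℕ →₀ F} {x : ℕ →₀ F} (h : x ∈ Submodule.span F (range v)) :
    ∃ k, x ∈ Sp v k := by
  induction h using Submodule.span_induction with
  | mem x hx => obtain ⟨i, rfl⟩ := hx; exact ⟨i + 1, Sp.mem v (Nat.lt_succ_self i)⟩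
  | zero => exact ⟨0, zero_mem _⟩
  | add x y _ _ a b =>
    obtain ⟨k, a⟩ := a
    obtain ⟨l, b⟩ := b
    exact ⟨k + l, add_mem (Sp.mono v (by omega) a) (Sp.mono v (by omega) b)⟩
  | smul c x _ a => exact a.imp fun k => Submodule.smul_mem _ c

theorem Sp.le (v : ℕ → ℕ →₀ F) (k : ℕ) : Sp v k ≤ Submodule.span F (range v) :=
  Submodule.span_mono (image_subset_range _ _)

def Blk (v : ℕ → ℕ →₀ F) (k : ℕ) : Prop := ∀ i < k, v i ≠ 0 ∧ ∀ j < i, Bel (lo (v i)) (v j)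

theorem Blk.cut {v : ℕ → ℕ →₀ F} {n m : ℕ} (mn : m < n) (k : ℕ) : Blk v k → ∀ z ∈ Sp v k,
    ∀ z' ∈ Sp v k, z n = 0 → z' n ≠ 0 → z m ≠ 0 → (∀ j, m ≤ j → j < n → z' j ≠ 0 → z j ≠ 0) →
    ∀ y ∈ Sp v k, sf n y ∈ Sp v k := by
  induction k with
  | zero => exact fun _ z hz _ _ _ _ h => absurd (by simp [Sp.zero hz]) h
  | succ k ih =>
    intro hb z hz z' hz' h1 h2 h3 h4 y hy
    obtain ⟨c, w, hw, rfl⟩ := Sp.succ hz
    obtain ⟨c', w', hw', rfl⟩ := Sp.succ hz'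
    obtain ⟨d, u, hu, rfl⟩ := Sp.succ hy
    obtain ⟨g0, g1⟩ := hb k (Nat.lt_succ_self k)
    have b1 := Sp.bel g1 hw
    have b2 := Sp.bel g1 hw'
    have f := far_lo (v k)
    simp only [Finsupp.add_apply, Finsupp.smul_apply, smul_eq_mul] at h1 h2 h3 h4
    rcases lt_or_ge (lo (v k)) n with q | q
    · rw [b1 n q.le, add_zero] at h1
      rw [b2 n q.le, add_zero] at h2
      obtain rfl : c = 0 := (mul_eq_zero.1 h1).resolve_right (right_ne_zero_of_mul h2)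
      rcases le_total m (lo (v k)) with r | r
      · exact absurd (by simp [b1 _ le_rfl]) (h4 _ r q (by
          simp [b2 _ le_rfl, fc_ne g0, left_ne_zero_of_mul h2]))
      · exact absurd (by simp [b1 _ r]) h3
    rw [sf_add, ((f.mono q).smul d).sf]
    refine add_mem (Submodule.smul_mem _ d (Sp.mem v (Nat.lt_succ_self k))) ?_
    rcases q.eq_or_lt with q | q
    · rw [((Sp.bel g1 hu).mono q.ge).sf]
      exact zero_mem _
    · refine Sp.mono v k.le_succ (ih (fun i hi => hb i (by omega)) w hw w' hw' ?_ ?_ ?_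
        (fun j a b => ?_) u hu)
      · simpa [f n q] using h1
      · simpa [f n q] using h2
      · simpa [f m (by omega)] using h3
      · simpa [f j (by omega)] using h4 j a b

theorem Blk.low {v : ℕ → ℕ →₀ F} {k l : ℕ} (hb : Blk v k) (hl : l < k) {x : ℕ →₀ F}
    (hx : x ∈ Sp v k) (h : Bel (lo (v l)) x) : x ∈ Sp v l := by
  by_cases e : x = 0
  · exact e ▸ zero_mem _
  obtain ⟨i, hi, c, c0, w, hw, rfl⟩ := Sp.decomp hx e
  rcases lt_or_ge i l with q | q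
  · exact add_mem (Submodule.smul_mem _ c (Sp.mem v q)) (Sp.mono v q.le hw)
  have : lo (v l) ≤ lo (v i) := by
    rcases q.eq_or_lt with rfl | q
    exacts [le_rfl, (lo_lt (hb l hl).1 ((hb i hi).2 l q)).le]
  have := h _ this
  simp [Sp.bel (hb i hi).2 hw _ le_rfl, c0, fc_ne (hb i hi).1] at this

variable (dec : ℕ → ℕ × (ℕ → ℕ →₀ F))

noncomputable def cd (y : ℕ →₀ F) : ℕ × (ℕ → ℕ →₀ F) := dec (osc y % (lo y).fermatNumber)

def Cl (y : ℕ →₀ F) (v : ℕ → ℕ →₀ F) (k : ℕ) : Prop :=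
  (cd dec y).1 = k ∧ ∀ i < k, (cd dec y).2 i = v i

theorem ms_bel {x y : ℕ →₀ F} (h : y ≠ 0) (k : Bel (lo y) x) :
    ∑ i ∈ x.support, 2 ^ i < ∑ i ∈ y.support, 2 ^ i :=
  (Nat.geomSum_lt le_rfl fun i hi => not_le.1 fun c => Finsupp.mem_support_iff.1 hi (k i c)).trans_le
    (Finset.single_le_sum (f := fun i => 2 ^ i) (fun _ _ => Nat.zero_le _)
      (Finsupp.mem_support_iff.2 (fc_ne h)))

theorem ms_sf {y : ℕ →₀ F} {a : ℕ} (h : y ≠ 0) (k : lo y < a) :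
    ∑ i ∈ (sf a y).support, 2 ^ i < ∑ i ∈ y.support, 2 ^ i :=
  Finset.sum_lt_sum_of_subset (Finset.filter_subset _ _) (Finsupp.mem_support_iff.2 (fc_ne h))
    (fun c => Finsupp.mem_support_iff.1 c (sf_far a y _ k)) (by positivity)
    fun _ _ _ => Nat.zero_le _

def Good (y : ℕ →₀ F) : Prop :=
  ∃ _ : y ≠ 0, (∀ i < (cd dec y).1, ∃ _ : Bel (lo y) ((cd dec y).2 i),
    Good ((cd dec y).2 i) ∧ Cl dec ((cd dec y).2 i) (cd dec y).2 i) ∧
    ∀ a, ∀ _ : lo y < a, y a ≠ 0 → Good (sf a y) →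
      ∀ z ∈ Sp (cd dec (sf a y)).2 (cd dec (sf a y)).1, ¬ ∀ i, lo y ≤ i → i < a → z i = y i
termination_by ∑ i ∈ y.support, 2 ^ i
decreasing_by
  · exact ms_bel ‹_› ‹_›
  · exact ms_sf ‹_› ‹_›

def Leg (v : ℕ → ℕ →₀ F) (k : ℕ) : Prop := ∀ i < k, Good dec (v i) ∧ Cl dec (v i) v i

variable {dec}

theorem cd_smul {c : F} (hc : c ≠ 0) (y : ℕ →₀ F) : cd dec (c • y) = cd dec y := by
  rw [cd, cd, osc_smul hc, lo_smul hc]

theorem Cl.self (y : ℕ →₀ F) : Cl dec y (cd dec y).2 (cd dec y).1 := ⟨rfl, fun _ _ => rfl⟩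

theorem Cl.sp {y : ℕ →₀ F} {v : ℕ → ℕ →₀ F} {k : ℕ} (h : Cl dec y v k) :
    Sp (cd dec y).2 (cd dec y).1 = Sp v k := by rw [h.1, Sp.congr h.2]

theorem Leg.congr {v w : ℕ → ℕ →₀ F} {k : ℕ} (h : Leg dec v k) (e : ∀ i < k, v i = w i) :
    Leg dec w k := fun i hi => e i hi ▸ ⟨(h i hi).1, (h i hi).2.1, fun j hj =>
      ((h i hi).2.2 j hj).trans (e j (hj.trans hi))⟩

theorem Good.ne {y : ℕ →₀ F} (h : Good dec y) : y ≠ 0 := by rw [Good] at h; exact h.1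

theorem Good.leg {y : ℕ →₀ F} (h : Good dec y) {v : ℕ → ℕ →₀ F} {k : ℕ} (c : Cl dec y v k) :
    Leg dec v k ∧ ∀ i < k, Bel (lo y) (v i) := by
  rw [Good] at h
  obtain ⟨rfl, c⟩ := c
  exact ⟨Leg.congr (fun i hi => (h.2.1 i hi).2) c, fun i hi => c i hi ▸ (h.2.1 i hi).1⟩

theorem Good.cap {y : ℕ →₀ F} (h : Good dec y) {a : ℕ} (h1 : lo y < a) (h2 : y a ≠ 0)
    (h3 : Good dec (sf a y)) {z : ℕ →₀ F} (hz : z ∈ Sp (cd dec (sf a y)).2 (cd dec (sf a y)).1) :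
    ¬ ∀ i, lo y ≤ i → i < a → z i = y i := by
  rw [Good] at h
  exact h.2.2 a h1 h2 h3 z hz

theorem Leg.blk {v : ℕ → ℕ →₀ F} {k : ℕ} (h : Leg dec v k) : Blk v k :=
  fun i hi => ⟨(h i hi).1.ne, ((h i hi).1.leg (h i hi).2).2⟩

theorem Good.smul (y : ℕ →₀ F) : ∀ c : F, c ≠ 0 → Good dec y → Good dec (c • y) := by
  induction h : y.support.card using Nat.strong_induction_on generalizing y with
  | _ n ih =>
    intro c hc k
    have k0 := k.ne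
    rw [Good] at k ⊢
    rw [cd_smul hc, lo_smul hc]
    refine ⟨smul_ne_zero hc k0, k.2.1, fun a h1 h2 h3 z hz e => ?_⟩
    rw [sf_smul, cd_smul hc] at hz
    have := ih _ ?_ _ rfl c⁻¹ (inv_ne_zero hc) h3
    · rw [sf_smul, inv_smul_smul₀ hc] at this
      exact k.2.2 a h1 (by simpa [hc] using h2) this _ (Submodule.smul_mem _ c⁻¹ hz)
        fun i a b => by simp [e i a b, hc]
    · rw [← h]
      refine Finset.card_lt_card ⟨(Finset.filter_subset _ _).trans Finsupp.support_smul,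
        fun q => Finsupp.mem_support_iff.1 (q (Finsupp.mem_support_iff.2 (fc_ne k0))) ?_⟩
      exact sf_far _ _ _ h1

theorem uniq0 {v v' w w' : ℕ →₀ F} (h : Good dec v) (h' : Good dec v')
    (hw : w ∈ Sp (cd dec v).2 (cd dec v).1) (hw' : w' ∈ Sp (cd dec v').2 (cd dec v').1)
    (e : v + w = v' + w') : v = v' := by
  wlog q : lo v ≤ lo v' generalizing v v' w w'
  · exact (this h' h hw' hw e.symm (le_of_not_ge q)).symm
  have b := Sp.bel (h.leg (Cl.self v)).2 hw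
  have b' := Sp.bel (h'.leg (Cl.self v')).2 hw'
  have s : sf (lo v') v = v' := by
    have := congrArg (sf (lo v')) e
    rwa [sf_add, sf_add, (b.mono q).sf, b'.sf, (far_lo v').sf, add_zero, add_zero] at this
  rcases q.eq_or_lt with q | q
  · rw [← s, ← q, (far_lo v).sf]
  refine absurd (fun i h1 h2 => ?_) (h.cap q (by
    rw [← sf_of_le v le_rfl, s]; exact fc_ne h'.ne) (s.symm ▸ h') (s.symm ▸ hw'))
  have := DFunLike.congr_fun e i
  simpa [b i h1, far_lo v' i h2, eq_comm] using this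

def Rd (dec : ℕ → ℕ × (ℕ → ℕ →₀ F)) (x : ℕ →₀ F) (v : ℕ → ℕ →₀ F) (l : ℕ) : Prop :=
  Good dec (v l) ∧ Cl dec (v l) v l ∧ ∃ c : F, c ≠ 0 ∧ ∃ w ∈ Sp v l, x = c • v l + w

theorem Rd.uniq {x : ℕ →₀ F} {v v' : ℕ → ℕ →₀ F} {l l' : ℕ} (h : Rd dec x v l)
    (h' : Rd dec x v' l') : l = l' ∧ ∀ i < l, v i = v' i := by
  obtain ⟨a1, a2, c, c0, w, hw, rfl⟩ := h
  obtain ⟨b1, b2, d, d0, u, hu, e⟩ := h'
  have := congrArg (cd dec) (uniq0 (a1.smul _ c c0) (b1.smul _ d d0)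
    (by rwa [cd_smul c0, a2.sp]) (by rwa [cd_smul d0, b2.sp]) e)
  rw [cd_smul c0, cd_smul d0] at this
  obtain rfl : l = l' := by rw [← a2.1, this, b2.1]
  exact ⟨rfl, fun i hi => by rw [← a2.2 i hi, this, b2.2 i hi]⟩

theorem Leg.rd {x : ℕ →₀ F} {v : ℕ → ℕ →₀ F} {k : ℕ} (h : Leg dec v k) (hx : x ∈ Sp v k)
    (e : x ≠ 0) : ∃ l < k, Rd dec x v l :=
  (Sp.decomp hx e).imp fun l q => ⟨q.1, (h l q.1).1, (h l q.1).2, q.2⟩

theorem ad {v v' : ℕ → ℕ →₀ F} (h : ∀ k, Leg dec v k) (h' : ∀ k, Leg dec v' k) {j : ℕ}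
    (e : v j ≠ v' j) :
    Submodule.span F (range v) ⊓ Submodule.span F (range v') ≤ Sp v (j + 1) := by
  rintro x ⟨a, b⟩
  by_cases x0 : x = 0
  · exact x0 ▸ zero_mem _
  obtain ⟨k, a⟩ := exists_Sp a
  obtain ⟨k', b⟩ := exists_Sp b
  obtain ⟨l, -, r⟩ := (h k).rd a x0
  obtain ⟨l', -, r'⟩ := (h' k').rd b x0
  have : l ≤ j := not_lt.1 fun c => e ((r.uniq r').2 j c)
  obtain ⟨-, -, c, -, w, hw, rfl⟩ := r
  exact add_mem (Submodule.smul_mem _ c (Sp.mem v (by omega))) (Sp.mono v (by omega) hw)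

def Sim (dec : ℕ → ℕ × (ℕ → ℕ →₀ F)) (b c : ℕ →₀ F) : Prop :=
  ∃ v k, Leg dec v k ∧ b ∈ Sp v k ∧ c ∈ Sp v k

theorem caught {u : ℕ → ℕ →₀ F} (h0 : ∀ i, u i ≠ 0) (h1 : ∀ i j, i < j → Bel (lo (u j)) (u i))
    (h2 : ∀ i j, i < j → Sim dec (u i) (u j)) :
    ∃ v, (∀ k, Leg dec v k) ∧ ∀ i, u i ∈ Submodule.span F (range v) := by
  have : ∀ i, ∃ v l, Rd dec (u i) v l := fun i => by
    obtain ⟨v, k, a, b, -⟩ := h2 i (i + 1) (Nat.lt_succ_self i)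
    obtain ⟨l, -, r⟩ := a.rd b (h0 i)
    exact ⟨v, l, r⟩
  choose V L hV using this
  have k1 : ∀ i j, i < j → u i ∈ Sp (V j) (L j) := fun i j ij => by
    obtain ⟨v, k, a, b, c⟩ := h2 i j ij
    obtain ⟨l, hl, r⟩ := a.rd c (h0 j)
    rw [((hV j).uniq r).1, Sp.congr (((hV j).uniq r).1 ▸ ((hV j).uniq r).2)]
    refine a.blk.low hl b ((h1 i j ij).mono (lo_le ?_))
    obtain ⟨g, -, d, d0, w, hw, e⟩ := r
    simp [e, Sp.bel (a.blk l hl).2 hw _ le_rfl, d0, fc_ne g.ne]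
  have lg : ∀ j, Leg dec (V j) (L j) := fun j => ((hV j).1.leg (hV j).2.1).1
  have k2 : ∀ i j, i < j → L i < L j ∧ ∀ m < L i, V i m = V j m := fun i j ij => by
    obtain ⟨l, hl, r⟩ := (lg j).rd (k1 i j ij) (h0 i)
    exact ⟨((hV i).uniq r).1 ▸ hl, ((hV i).uniq r).2⟩
  have mono : StrictMono L := fun i j h => (k2 i j h).1
  have k3 : ∀ j, ∀ m < L j, V j m = V (m + 1) m := fun j m hm => by
    rcases lt_trichotomy j (m + 1) with q | q | q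
    exacts [(k2 _ _ q).2 m hm, by rw [q], ((k2 _ _ q).2 m (mono.id_le (m + 1))).symm]
  refine ⟨fun m => V (m + 1) m, fun k i hi => (lg k).congr (k3 k) i (hi.trans_le (mono.id_le k)),
    fun i => Sp.le _ (L (i + 1)) ?_⟩
  rw [← Sp.congr (k3 (i + 1))]
  exact k1 i _ (Nat.lt_succ_self i)

end Pool.Agent.H34.VMad
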