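import Pool.Agent.H34.VMadB

namespace Pool.Agent.H34.VMad
open Set

variable {F : Type} [Field F] {dec : ℕ → ℕ × (ℕ → ℕ →₀ F)}

def NC (dec : ℕ → ℕ × (ℕ → ℕ →₀ F)) (U : Submodule F (ℕ →₀ F)) : Prop :=
  ∀ n M : ℕ, M ≠ 0 → ∃ b ∈ U, ∃ c ∈ U, b ≠ 0 ∧ c ≠ 0 ∧ Far n b ∧ Bel (lo c) b ∧
    osc b ≡ 1 [MOD M] ∧ osc c ≡ 1 [MOD M] ∧ ¬ Sim dec b c

theorem dodge {s q r z z' : ℕ →₀ F} {V : ℕ → ℕ →₀ F} {K t T a : ℕ} {l l' : F} (hb : Blk V K)
    (hs : Top s t) (q0 : q ≠ 0) (q1 : Far (t + 1) q) (q2 : Bel T q) (hr : Far T r) (Ta : T ≤ a)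
    (ha : ∀ i < K, Bel a (V i)) (l0 : l ≠ 0) (l1 : l' ≠ 0) (hz : z ∈ Sp V K) (hz' : z' ∈ Sp V K)
    (e : ∀ i, lo s ≤ i → i < a → z i = (l • s + r) i)
    (e' : ∀ i, lo s ≤ i → i < a → z' i = (l' • (s + q) + r) i) : q ∈ Sp V K := by
  have s0 := ne_of_apply hs.1
  have a1 := lo_lt s0 hs.2
  have a2 := le_lo q0 q1
  have a3 := lo_lt q0 q2
  have := hb.cut (n := lo q) (m := lo s) (by omega) K z hz z' hz'
    (by simp [e (lo q) (by omega) (by omega), hs.2 _ a2, hr _ a3])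
    (by simp [e' (lo q) (by omega) (by omega), hs.2 _ a2, hr _ a3, l1, fc_ne q0])
    (by simp [e (lo s) le_rfl (by omega), hr (lo s) (by omega), l0, fc_ne s0])
    (fun j h1 h2 h3 => by
      simp [e' j h1 (by omega), hr j (by omega), far_lo q j h2] at h3
      simp [e j h1 (by omega), hr j (by omega), l0, h3]) _ (sub_mem hz' hz)
  convert Submodule.smul_mem _ l'⁻¹ this
  rw [eq_inv_smul_iff₀ l1]
  ext i
  rw [sf_apply]
  split_ifs with c
  · rcases lt_or_ge i a with d | d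
    · simp [e i (by omega) d, e' i (by omega) d, hs.2 i (by omega)]
    · simp [Sp.bel ha hz i d, Sp.bel ha hz' i d, q2 i (by omega)]
  · simp [far_lo q i (not_le.1 c)]

theorem writer (h3 : ∃ c : F, c ≠ 0 ∧ c ≠ 1)
    (hdec : ∀ k (v : ℕ → ℕ →₀ F), ∃ e, (dec e).1 = k ∧ ∀ i < k, (dec e).2 i = v i)
    {U : Submodule F (ℕ →₀ F)} (hU : ∀ n, ∃ x ∈ U, x ≠ 0 ∧ Far n x) (nc : NC dec U)
    {v : ℕ → ℕ →₀ F} {k : ℕ} (hv : Leg dec v k) (n : ℕ) :
    ∃ y ∈ U, Far n y ∧ Good dec y ∧ Cl dec y v k := by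
  obtain ⟨e, he⟩ := hdec k v
  obtain ⟨j, hj⟩ := hdec 1 fun _ => 0
  choose B hB using fun i => exists_bel (v i)
  obtain ⟨B', hB'⟩ := ((finite_lt_nat k).image B).bddAbove
  obtain ⟨s, s1, s0, s2⟩ := hU (n + e + j + B' + 1)
  obtain ⟨t, ht⟩ := exists_top s0
  have fp : ∀ a : ℕ, a.fermatNumber ≠ 0 := fun a => (zero_lt_two.trans a.two_lt_fermatNumber).ne'
  have dv : ∀ a N, a < N → a.fermatNumber ∣ ∏ a ∈ Finset.range N, a.fermatNumber :=
    fun a N h => Finset.dvd_prod_of_mem _ (Finset.mem_range.2 h)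
  obtain ⟨b', b1, c', c1, b0, c0, b2, bc, b3, c3, ns⟩ := nc (t + 1) _
    (Finset.prod_ne_zero_iff.2 fun a (_ : a ∈ Finset.range (t + 1)) => fp a)
  obtain ⟨β, β0, hβ⟩ := exists_scal b0 ht.1
  obtain ⟨γ, γ0, hγ⟩ := exists_scal c0 ht.1
  have lb := le_lo b0 b2
  have lc := lo_lt b0 bc
  obtain ⟨T, hT⟩ := exists_bel c'
  have lT := lo_lt c0 hT
  have ls := le_lo s0 s2
  have lt := lo_lt s0 ht.2
  let o : ℕ → ℕ := fun a => osc (sf a (if a ≤ t then s else if a < lo c' then β • b' else γ • c'))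
  let tg : ℕ → ℕ := fun a => if a = lo s then e else j
  obtain ⟨N, hN⟩ := Nat.chineseRemainderOfFinset
    (fun a => tg a + 1 + (a.fermatNumber - 1) * o a) Nat.fermatNumber (Finset.range T)
    (fun a _ => fp a) fun a _ b _ h => Nat.coprime_fermatNumber_fermatNumber h
  obtain ⟨r, r1, r0, r2, r3⟩ := exists_osc h3 hU
    (Finset.prod_ne_zero_iff.2 fun a (_ : a ∈ Finset.range T) => fp a) N T
  by_contra! con
  have opt : ∀ p ∈ U, p ≠ 0 → lo p = lo s → Bel T p →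
      (∀ a, p a ≠ 0 → osc (sf a p) ≡ o a [MOD a.fermatNumber]) →
      ∃ l : F, l ≠ 0 ∧ ∃ a, r a ≠ 0 ∧ Good dec (sf a r) ∧ ∃ z ∈ Sp (cd dec (sf a r)).2
        (cd dec (sf a r)).1, ∀ i, lo s ≤ i → i < a → z i = (l • p + r) i := by
    intro p p1 p0 p2 p3 p4
    obtain ⟨u, hu⟩ := exists_top p0
    have uT : u < T := not_le.1 fun c => hu.1 (p3 u c)
    have l0 : fc r / p u ≠ 0 := div_ne_zero (fc_ne r0) hu.1
    set l := fc r / p u with hl
    have key : ∀ a, p a ≠ 0 → cd dec (sf a (l • p + r)) = dec (tg a) := by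
      intro a ha
      have au : a ≤ u := not_lt.1 fun c => ha (hu.2 a c)
      have sa : lo s ≤ a := p2 ▸ lo_le ha
      have h1 := osc_eq ((hu.sf au).smul l0) (r2.mono uT) r0
        (by simp [sf_of_le p au, hl, hu.1])
      rw [cd, lo_sf (by simp [r2 a (by omega), l0, ha]), sf_add, sf_smul, (r2.mono (by omega)).sf]
      have h2 : tg a < a.fermatNumber := lt_of_lt_of_le (show tg a < a by
        simp only [tg]; split_ifs <;> omega) (Nat.fermatNumber_strictMono.id_le a)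
      rw [← Nat.mod_eq_of_lt h2]
      congr 1
      refine Nat.ModEq.add_right_cancel' 1 ?_
      rw [h1, osc_smul l0]
      refine ((p4 a ha).add ((r3.of_dvd (dv a T (by omega))).trans
        (hN a (Finset.mem_range.2 (by omega))))).trans ?_
      obtain ⟨m, hm⟩ := Nat.exists_eq_succ_of_ne_zero (fp a)
      rw [hm, Nat.succ_sub_one, show o a + (tg a + 1 + m * o a) = tg a + 1 + m.succ * o a by
        rw [Nat.succ_eq_add_one]; ring]
      exact Nat.add_mul_mod_self_left _ _ _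
    have y0 : lo (l • p + r) = lo s := by
      rw [lo_add (smul_ne_zero l0 p0) (p3.smul l) r2, lo_smul l0, p2]
    have y1 : cd dec (l • p + r) = dec e := by
      have := key _ (fc_ne p0)
      rwa [p2, ← y0, (far_lo _).sf, y0, show tg (lo s) = e from if_pos rfl] at this
    refine ⟨l, l0, ?_⟩
    by_contra! cap
    refine con _ (add_mem (U.smul_mem l p1) r1) ((far_lo _).mono (by omega)) ?_
      ⟨y1 ▸ he.1, y1 ▸ he.2⟩
    rw [Good, y1, y0, he.1]
    refine ⟨ne_of_apply (a := u) (by simp [r2 u uT, l0, hu.1]), fun i hi => ?_,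
      fun a h1 h2 h3 z hz q => ?_⟩
    · have := (hv.congr fun i hi => (he.2 i hi).symm) i hi
      exact ⟨he.2 i hi ▸ (hB i).mono ((hB' ⟨i, hi, rfl⟩).trans (by omega)), this⟩
    rcases lt_or_ge a T with c | c
    · have := key a (by simpa [r2 a c, l0] using h2)
      rw [show tg a = j from if_neg h1.ne'] at this
      exact ((h3.leg ⟨this ▸ hj.1, this ▸ hj.2⟩).1 0 one_pos).1.ne rfl
    · have h4 : sf a (l • p + r) = sf a r := by rw [sf_add, ((p3.smul l).mono c).sf, zero_add]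
      rw [h4] at h3 hz
      obtain ⟨i, i1, i2, i3⟩ := cap a (by simpa [p3 a c] using h2) h3 z hz
      exact i3 (q i i1 i2)
  have sT : Bel T s := ht.2.mono (by omega)
  have oq : ∀ q ∈ U, q ≠ 0 → Far (t + 1) q → Bel T q → fc q = s t →
      osc q ≡ 1 [MOD ∏ a ∈ Finset.range (t + 1), a.fermatNumber] →
      (∀ a, t < a → q a ≠ 0 → o a = osc (sf a q)) → _ := fun q q1 q0 q2 q3 q4 q5 q6 =>
    opt (s + q) (add_mem s1 q1) (ne_of_apply (a := t) (by simp [q2 t, ht.1]))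
      (lo_add s0 ht.2 q2) (sT.add q3) fun a ha => by
        rcases le_or_gt a t with c | c
        · refine Nat.ModEq.add_right_cancel' 1 ?_
          rw [sf_add, (q2.mono (by omega)).sf, osc_eq (ht.sf c) q2 q0 (by rw [sf_of_le s c, q4])]
          simp only [o, if_pos c]
          exact (q5.of_dvd (dv a _ (by omega))).add_left _
        · rw [sf_add, (ht.2.mono c).sf, zero_add, q6 a c (by simpa [ht.2 a c] using ha)]
  obtain ⟨l0, m0, a0, u0, g0, z0, w0, e0⟩ := opt s s1 s0 rfl sT fun a ha => by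
    simp only [o, if_pos (show a ≤ t from not_lt.1 fun c => ha (ht.2 a c))]; rfl
  obtain ⟨l1, m1, a1, u1, g1, z1, w1, e1⟩ := oq _ (U.smul_mem β b1) (smul_ne_zero β0 b0)
    (b2.smul β) ((bc.mono lT.le).smul β) hβ (by rwa [osc_smul β0]) fun a h1 h2 => by
      simp only [o, if_neg h1.not_ge, if_pos (not_le.1 fun c => h2 (bc.smul β a c))]
  obtain ⟨l2, m2, a2, u2, g2, z2, w2, e2⟩ := oq _ (U.smul_mem γ c1) (smul_ne_zero γ0 c0)
    (((far_lo c').mono (by omega)).smul γ) (hT.smul γ) hγ (by rwa [osc_smul γ0]) fun a h1 h2 => by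
      simp only [o, if_neg h1.not_ge, if_neg fun c => h2 ((far_lo c').smul γ a c)]
  have un : ∀ a a' (p z : ℕ →₀ F), Bel T p → r a ≠ 0 → Good dec (sf a r) → r a' ≠ 0 →
      Good dec (sf a' r) → z ∈ Sp (cd dec (sf a' r)).2 (cd dec (sf a' r)).1 →
      (∀ i, lo s ≤ i → i < a' → z i = (p + r) i) → a' ≤ a := by
    intro a a' p z hp h1 h2 h3 h4 h5 h6
    have : T ≤ a := not_lt.1 fun c => h1 (r2 a c)
    refine not_lt.1 fun c => h2.cap (a := a') (by rwa [lo_sf h1]) (by rwa [sf_of_le r c.le])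
      (by rwa [sf_sf c.le]) (by rwa [sf_sf c.le]) fun i i1 i2 => ?_
    rw [lo_sf h1] at i1
    simp [h6 i (by omega) i2, sf_of_le r i1, hp i (by omega)]
  have bT : Bel T (β • b') := (bc.mono lT.le).smul β
  obtain rfl : a1 = a0 := le_antisymm (un _ _ _ _ ((sT.add bT).smul l1) u0 g0 u1 g1 w1 e1)
    (un _ _ _ _ (sT.smul l0) u1 g1 u0 g0 w0 e0)
  obtain rfl : a2 = a1 := le_antisymm (un _ _ _ _ ((sT.add (hT.smul γ)).smul l2) u0 g0 u2 g2 w2 e2)
    (un _ _ _ _ (sT.smul l0) u2 g2 u0 g0 w0 e0)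
  obtain ⟨lg, bl⟩ := g0.leg (Cl.self _)
  rw [lo_sf u0] at bl
  have Ta : T ≤ a2 := not_lt.1 fun c => u0 (r2 _ c)
  refine ns ⟨_, _, lg, ?_, ?_⟩
  · simpa [β0] using Submodule.smul_mem _ β⁻¹ (dodge lg.blk ht (smul_ne_zero β0 b0) (b2.smul β)
      bT r2 Ta bl m0 m1 w0 w1 e0 e1)
  · simpa [γ0] using Submodule.smul_mem _ γ⁻¹ (dodge lg.blk ht (smul_ne_zero γ0 c0)
      (((far_lo c').mono (by omega)).smul γ) (hT.smul γ) r2 Ta bl m0 m2 w0 w2 e0 e2)

theorem build (h3 : ∃ c : F, c ≠ 0 ∧ c ≠ 1)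
    (hdec : ∀ k (v : ℕ → ℕ →₀ F), ∃ e, (dec e).1 = k ∧ ∀ i < k, (dec e).2 i = v i)
    {U : Submodule F (ℕ →₀ F)} (hU : ∀ n, ∃ x ∈ U, x ≠ 0 ∧ Far n x) (nc : NC dec U) (n : ℕ) :
    ∃ v, (∀ k, Leg dec v k) ∧ ∀ i, v i ∈ U ∧ Far n (v i) := by
  choose! y h1 h2 h3 h4 using fun k v (hv : Leg dec v k) => writer h3 hdec hU nc hv n
  let w : ℕ → ℕ → ℕ →₀ F := fun k => k.rec 0 fun k v => Function.update v k (y k v)
  have e : ∀ k, ∀ i < k, w k i = y i (w i) := fun k => by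
    induction k with
    | zero => simp
    | succ k ih =>
      intro i hi
      rcases (Nat.lt_succ_iff.1 hi).eq_or_lt with rfl | q
      · exact Function.update_self ..
      · exact (Function.update_of_ne q.ne ..).trans (ih i q)
  have l : ∀ k, Leg dec (fun i => y i (w i)) k := fun k => by
    induction k with
    | zero => exact fun _ h => absurd h (by simp)
    | succ k ih =>
      intro i hi
      rcases (Nat.lt_succ_iff.1 hi).eq_or_lt with rfl | q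
      · have := ih.congr fun j hj => (e i j hj).symm
        exact ⟨h3 _ _ this, (h4 _ _ this).1, fun j hj => ((h4 _ _ this).2 j hj).trans (e i j hj)⟩
      · exact ih i q
  exact ⟨_, l, fun i => have := (l i).congr fun j hj => (e i j hj).symm
    ⟨h1 _ _ this, h2 _ _ this⟩⟩

theorem Leg.far {v : ℕ → ℕ →₀ F} (h : ∀ k, Leg dec v k) (i : ℕ) : v i ≠ 0 ∧ Far i (v i) := by
  refine ⟨(h (i + 1) i (by omega)).1.ne, (far_lo _).mono ?_⟩
  induction i with
  | zero => exact Nat.zero_le _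
  | succ i ih =>
    exact ih.trans_lt (lo_lt (h (i + 1) i (by omega)).1.ne
      (((h (i + 2)).blk (i + 1) (by omega)).2 i (by omega)))

theorem maximal (h3 : ∃ c : F, c ≠ 0 ∧ c ≠ 1)
    (hdec : ∀ k (v : ℕ → ℕ →₀ F), ∃ e, (dec e).1 = k ∧ ∀ i < k, (dec e).2 i = v i)
    {U : Submodule F (ℕ →₀ F)} (hU : ∀ n, ∃ x ∈ U, x ≠ 0 ∧ Far n x) :
    ∃ v, (∀ k, Leg dec v k) ∧
      ∀ n, ∃ x ∈ Submodule.span F (range v) ⊓ U, x ≠ 0 ∧ Far n x := by
  by_cases nc : NC dec U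
  · obtain ⟨v, h1, h2⟩ := build h3 hdec hU nc 0
    exact ⟨v, h1, fun n => ⟨v n, ⟨Submodule.subset_span (mem_range_self n), (h2 n).1⟩,
      Leg.far h1 n⟩⟩
  simp only [NC] at nc
  push Not at nc
  obtain ⟨n, M, hM, nc⟩ := nc
  choose x x1 x2 x3 x4 using exists_osc h3 hU hM 1
  choose B hB using fun i => exists_bel (x i)
  let p : ℕ → ℕ := fun k => k.rec n fun _ a => a + B a + 1
  have mono : StrictMono p := strictMono_nat_of_lt_succ fun k => show p k < p k + _ + 1 by omega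
  have bl : ∀ i j, i < j → Bel (lo (x (p j))) (x (p i)) := fun i j h =>
    (hB _).mono (le_trans (le_trans (show _ ≤ p i + B (p i) + 1 by omega)
      (mono.monotone (show i + 1 ≤ j from h))) (le_lo (x2 _) (x3 _)))
  obtain ⟨v, h1, h2⟩ := caught (dec := dec) (fun i => x2 (p i)) bl fun i j h => nc _ (x1 _) _ (x1 _)
    (x2 _) (x2 _) ((x3 _).mono (mono.monotone i.zero_le)) (bl i j h) (x4 _) (x4 _)
  exact ⟨v, h1, fun m => ⟨x (p m), ⟨h2 m, x1 _⟩, x2 _, (x3 _).mono (mono.id_le m)⟩⟩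

theorem nc_top : NC dec ⊤ := by
  have o : ∀ n, lo (Finsupp.single n (1 : F)) = n := fun n =>
    lo_eq (by simp) fun i hi => Finsupp.single_eq_of_ne hi.ne
  have os : ∀ n, osc (Finsupp.single n (1 : F)) = 1 := fun n => by
    have b : Bel (n + 1) (Finsupp.single n (1 : F)) := fun i hi => Finsupp.single_eq_of_ne (by omega)
    rw [osc, ncard_eq_one]
    refine ⟨n, eq_singleton_iff_unique_mem.2 ⟨⟨by simp, by simp [b.sf, fc]⟩, fun i hi => ?_⟩⟩
    exact by_contra fun c => hi.1 (Finsupp.single_eq_of_ne c)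
  have c : ∀ n v l, Rd dec (Finsupp.single n (1 : F)) v l → (dec 1).1 = l ∧ lo (v l) = n := by
    rintro n v l ⟨a1, a2, c, c0, w, hw, e⟩
    have b := Sp.bel (a1.leg a2).2 hw
    have h1 : lo (v l) = n := by_contra fun q => by
      have := DFunLike.congr_fun e (lo (v l))
      simp [Finsupp.single_eq_of_ne q, b _ le_rfl, c0, fc_ne a1.ne] at this
    have h2 := congrArg (sf n) e
    have h3 : Far n (c • v l) := h1 ▸ (far_lo _).smul c
    have h4 : Far n (Finsupp.single n (1 : F)) := fun i hi => Finsupp.single_eq_of_ne hi.ne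
    rw [sf_add, (b.mono h1.le).sf, h3.sf, add_zero, h4.sf] at h2
    refine ⟨?_, h1⟩
    rw [← a2.1, ← cd_smul c0, ← h2, cd, os,
      Nat.mod_eq_of_lt (one_lt_two.trans (Nat.two_lt_fermatNumber _))]
  refine fun n M _ => ⟨.single n 1, trivial, .single (n + 1) 1, trivial, by simp, by simp,
    fun i hi => Finsupp.single_eq_of_ne hi.ne, fun i hi => Finsupp.single_eq_of_ne
      (by rw [o] at hi; omega), by rw [os], by rw [os], ?_⟩
  rintro ⟨v, k, h1, h2, h3⟩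
  obtain ⟨l, -, r⟩ := h1.rd h2 (by simp)
  obtain ⟨l', -, r'⟩ := h1.rd h3 (by simp)
  obtain rfl : l = l' := (c _ _ _ r).1.symm.trans (c _ _ _ r').1
  have := (c _ _ _ r).2.symm.trans (c _ _ _ r').2
  omega

end Pool.Agent.H34.VMad
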