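import Mathlib

namespace Pool.Agent.H34.VMad

variable {F : Type} [Field F] {E : Type} [AddCommGroup E] [Module F E]

/-- An almost disjoint family of infinite-dimensional subspaces. -/
def AD (𝒜 : Set (Submodule F E)) : Prop :=
  (∀ X ∈ 𝒜, ¬ Module.Finite F X) ∧ ∀ X ∈ 𝒜, ∀ Y ∈ 𝒜, X ≠ Y → Module.Finite F ↥(X ⊓ Y)

/-- A mad family: almost disjoint and not properly contained in an almost disjoint family. -/
def Mad (𝒜 : Set (Submodule F E)) : Prop := AD 𝒜 ∧ ∀ ℬ, AD ℬ → 𝒜 ⊆ ℬ → ℬ = 𝒜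

/-- The family as a subset of the Cantor space `E → Bool` (characteristic functions). -/
def chi (𝒜 : Set (Submodule F E)) : Set (E → Bool) := {χ | ∃ X ∈ 𝒜, ∀ x, χ x = true ↔ x ∈ X}

end Pool.Agent.H34.VMad
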