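import Pool.Agent.H34.VMadC
import Pool.Agent.H34.VMadDefs
import Pool.Agent.H34.IMedC

namespace Pool.Agent.H34.VMad
open Set Filter

variable {F : Type} [Field F]

theorem mad_iff {E : Type} [AddCommGroup E] [Module F E] {𝒜 : Set (Submodule F E)} :
    Mad 𝒜 ↔ AD 𝒜 ∧ ∀ U : Submodule F E, ¬ Module.Finite F U →
      ∃ X ∈ 𝒜, ¬ Module.Finite F ↥(X ⊓ U) := by
  refine and_congr_right fun h => ⟨fun k U hU => ?_, fun k ℬ h1 h2 => h2.antisymm' fun U hU => ?_⟩
  · by_contra! c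
    have := k (insert U 𝒜) ⟨forall_mem_insert.2 ⟨hU, h.1⟩, ?_⟩ (subset_insert _ _)
    · exact hU (by have := c U (this ▸ mem_insert U 𝒜); rwa [inf_idem] at this)
    · rintro X (rfl | hX) Y (rfl | hY) e
      exacts [absurd rfl e, inf_comm X Y ▸ c Y hY, c X hX, h.2 X hX Y hY e]
  · obtain ⟨X, h3, h4⟩ := k U (h1.1 U hU)
    exact by_contra fun c => h4 (h1.2 X (h2 h3) U hU fun e => c (e ▸ h3))

theorem fin_of {E : Type} [AddCommGroup E] [Module F E] {V W B : Submodule F E}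
    [Module.Finite F W] (h : V ≤ W ⊔ B) (hd : ∀ x ∈ V, x ∈ B → x = 0) : Module.Finite F V := by
  refine Module.Finite.of_injective ((B.mkQ.domRestrict V).codRestrict (W.map B.mkQ) fun x => ?_)
    ((injective_iff_map_eq_zero _).2 fun x hx => Subtype.ext (hd x x.2
      ((Submodule.Quotient.mk_eq_zero B).1 (congrArg Subtype.val hx))))
  obtain ⟨w, hw, b, hb, e⟩ := Submodule.mem_sup.1 (h x.2)
  exact ⟨w, hw, by simp [← e, (Submodule.Quotient.mk_eq_zero B).2 hb]⟩

theorem far_of_inf {U : Submodule F (ℕ →₀ F)} (h : ¬ Module.Finite F U) (n : ℕ) :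
    ∃ x ∈ U, x ≠ 0 ∧ Far n x := by
  by_contra! c
  haveI : Module.Finite F (Finsupp.supported F F (Iio n)) := by
    rw [Finsupp.supported_eq_span_single]
    exact Module.Finite.span_of_finite F ((finite_Iio n).image _)
  refine h (fin_of (W := Finsupp.supported F F (Iio n)) (B := Finsupp.supported F F (Ici n))
    (by rw [← Finsupp.supported_union, Iio_union_Ici, Finsupp.supported_univ]; exact le_top)
    fun x h1 h2 => by_contra fun q => c x h1 q fun i hi =>
      (Finsupp.mem_supported' F x).1 h2 i (not_le.2 hi))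

theorem bel_of_fin {U : Submodule F (ℕ →₀ F)} (h : Module.Finite F U) : ∃ n, ∀ x ∈ U, Bel n x := by
  obtain ⟨S, rfl⟩ := Module.Finite.iff_fg.1 h
  choose B hB using fun x : ℕ →₀ F => exists_bel x
  obtain ⟨n, hn⟩ := (S.finite_toSet.image B).bddAbove
  have : Submodule.span F (S : Set (ℕ →₀ F)) ≤ Finsupp.supported F F (Iio n) :=
    Submodule.span_le.2 fun x hx => (Finsupp.mem_supported' F x).2 fun i hi =>
      hB x i ((hn ⟨x, hx, rfl⟩).trans (not_lt.1 hi))
  exact ⟨n, fun x hx i hi => (Finsupp.mem_supported' F x).1 (this hx) i (not_lt.2 hi)⟩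

theorem inf_of_far {U : Submodule F (ℕ →₀ F)} (h : ∀ n, ∃ x ∈ U, x ≠ 0 ∧ Far n x) :
    ¬ Module.Finite F U := fun c => by
  obtain ⟨n, hn⟩ := bel_of_fin c
  obtain ⟨x, h1, h2, h3⟩ := h n
  exact (le_lo h2 h3).not_gt (lo_lt h2 (hn x h1))

theorem exists_dec {α : Type} [Countable α] [Inhabited α] : ∃ dec : ℕ → ℕ × (ℕ → α),
    ∀ k (v : ℕ → α), ∃ e, (dec e).1 = k ∧ ∀ i < k, (dec e).2 i = v i := by
  obtain ⟨q, hq⟩ := exists_surjective_nat (List α)
  refine ⟨fun e => ((q e).length, fun i => (q e).getD i default), fun k v => ?_⟩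
  obtain ⟨e, he⟩ := hq ((List.range k).map v)
  exact ⟨e, by simp [he], fun i hi => by simp [he, hi]⟩

theorem exists_mad [Countable F] (h3 : ∃ c : F, c ≠ 0 ∧ c ≠ 1) :
    ∃ 𝒜 : Set (Submodule F (ℕ →₀ F)), 𝒜.Infinite ∧ Mad 𝒜 ∧ MeasurableSet (chi 𝒜) ∧
      ∀ X ∈ 𝒜, ∃ v : ℕ → ℕ →₀ F, X = Submodule.span F (range v) ∧ (∀ i, v i ≠ 0) ∧
        ∀ i, ∀ a ∈ (v i).support, ∀ b ∈ (v (i + 1)).support, a < b := by
  classical
  obtain ⟨dec, hdec⟩ := exists_dec (α := ℕ →₀ F)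
  let L : Set (ℕ → ℕ →₀ F) := {v | ∀ k, Leg dec v k}
  let φ : (ℕ → ℕ →₀ F) → Submodule F (ℕ →₀ F) := fun v => Submodule.span F (range v)
  have inf : ∀ v ∈ L, ¬ Module.Finite F (φ v) := fun v hv => inf_of_far fun n =>
    ⟨v n, Submodule.subset_span (mem_range_self n), Leg.far hv n⟩
  have fin : ∀ v ∈ L, ∀ w ∈ L, v ≠ w → Module.Finite F ↥(φ v ⊓ φ w) := fun v hv w hw e => by
    obtain ⟨j, hj⟩ := Function.ne_iff.1 e
    haveI : Module.Finite F (Sp v (j + 1)) :=
      Module.Finite.span_of_finite F ((finite_Iio _).image _)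
    exact Submodule.finiteDimensional_of_le (ad hv hw hj)
  have inj : InjOn φ L := fun v hv w hw e => by_contra fun c => inf v hv (by
    have := fin v hv w hw c; rwa [← e, inf_idem] at this)
  refine ⟨φ '' L, fun c => ?_, mad_iff.2 ⟨⟨forall_mem_image.2 inf, ?_⟩, fun U hU => ?_⟩, ?_, ?_⟩
  · obtain ⟨n, hn⟩ := ((c.of_finite_image inj).image fun v => lo (v 0)).bddAbove
    obtain ⟨v, h1, h2⟩ := build h3 hdec (U := ⊤) (fun n => ⟨.single n 1, trivial, by simp,
      fun i hi => Finsupp.single_eq_of_ne hi.ne⟩) nc_top (n + 1)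
    have := (le_lo (Leg.far h1 0).1 (h2 0).2).trans (hn ⟨v, h1, rfl⟩)
    omega
  · rintro _ ⟨v, hv, rfl⟩ _ ⟨w, hw, rfl⟩ e
    exact fin v hv w hw fun q => e (by rw [q])
  · obtain ⟨v, h1, h2⟩ := maximal h3 hdec (far_of_inf hU)
    exact ⟨_, ⟨v, h1, rfl⟩, inf_of_far h2⟩
  · letI : MeasurableSpace (ℕ →₀ F) := ⊤
    haveI : DiscreteMeasurableSpace (ℕ →₀ F) := ⟨fun _ => trivial⟩
    have : chi (φ '' L) = (fun v x => decide (x ∈ φ v)) '' L := by
      ext χ
      refine ⟨?_, ?_⟩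
      · rintro ⟨_, ⟨v, hv, rfl⟩, h⟩
        exact ⟨v, hv, funext fun x => Bool.eq_iff_iff.2 (by simp [h])⟩
      · rintro ⟨v, hv, rfl⟩
        exact ⟨_, ⟨v, hv, rfl⟩, fun x => by simp⟩
    rw [this]
    refine MeasurableSet.image_of_measurable_injOn (measurableSet_setOf.2 (.forall fun k =>
      IMed.meas_loc k fun x y h a => a.congr h)) (measurable_pi_lambda _ fun x =>
      (measurable_of_countable fun p : Prop => decide p).comp ?_) fun v hv w hw e =>
        inj hv hw (Submodule.ext fun x => by simpa using congrFun e x)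
    have : (fun v => x ∈ φ v) = fun v => ∃ k, x ∈ Sp v k := funext fun v =>
      propext ⟨exists_Sp, fun ⟨k, h⟩ => Sp.le v k h⟩
    rw [this]
    exact .exists fun k => IMed.meas_loc k fun v w h a => Sp.congr h ▸ a
  · rintro _ ⟨v, hv, rfl⟩
    refine ⟨v, rfl, fun i => (Leg.far hv i).1, fun i a ha b hb => ?_⟩
    exact (not_le.1 fun c => Finsupp.mem_support_iff.1 ha
      (((hv (i + 2)).blk (i + 1) (by omega)).2 i (by omega) a c)).trans_le
      (lo_le (Finsupp.mem_support_iff.1 hb))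

end Pool.Agent.H34.VMad
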