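import Pool.Agent.H34.VMadD

namespace Pool.Agent.H34.VMad
open Set Filter

attribute [local instance] Ultrafilter.add Ultrafilter.addSemigroup

variable {F : Type} [Field F]

theorem exists_idem {𝒜 : Set (Submodule F (ℕ →₀ F))} (hi : 𝒜.Infinite) (h : AD 𝒜) :
    ∃ U : Ultrafilter (ℕ →₀ F), (∀ n, ∀ᶠ x : ℕ →₀ F in U, Far n x) ∧
      (∀ A ∈ 𝒜, ∀ᶠ x : ℕ →₀ F in U, x ∉ A) ∧
      U + U = U := by
  let S : Set (Ultrafilter (ℕ →₀ F)) := (⋂ n, {U | {x | Far n x} ∈ U}) ∩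
    ⋂ A ∈ 𝒜, ⋂ w, {U | {x | w + x ∉ A} ∈ U}
  refine (exists_idempotent_in_compact_add_subsemigroup Ultrafilter.continuous_add_left S ?_
    (((isClosed_iInter fun _ => ultrafilter_isClosed_basic _).inter (isClosed_biInter fun _ _ =>
      isClosed_iInter fun _ => ultrafilter_isClosed_basic _)).isCompact) ?_).imp
    fun U ⟨hU, e⟩ => ⟨mem_iInter.1 hU.1, fun A hA => Eventually.mono
      (mem_iInter.1 (mem_iInter₂.1 hU.2 A hA) 0) fun x hx => by rwa [zero_add] at hx, e⟩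
  · let a := hi.natEmbedding
    let f : Filter (ℕ →₀ F) :=
      { sets := {s | ∀ᶠ k in atTop, ∃ n, ∀ x ∈ (a k).1, x ≠ 0 → Far n x → x ∈ s}
        univ_sets := Eventually.of_forall fun _ => ⟨0, fun _ _ _ _ => trivial⟩
        sets_of_superset := fun h k => Eventually.mono h fun _ => Exists.imp fun _ q x a b c =>
          k (q x a b c)
        inter_sets := fun h k => (Eventually.and h k).mono fun _ ⟨⟨n, p⟩, m, q⟩ =>
          ⟨n + m, fun x a b c => ⟨p x a b (c.mono (by omega)), q x a b (c.mono (by omega))⟩⟩ }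
    haveI : f.NeBot := ⟨fun c => by
      obtain ⟨k, n, q⟩ := Eventually.exists (f := atTop)
        (show (∅ : Set (ℕ →₀ F)) ∈ f from c ▸ mem_bot)
      obtain ⟨x, h1, h2, h3⟩ := far_of_inf (h.1 _ (a k).2) n
      exact q x h1 h2 h3⟩
    refine ⟨Ultrafilter.of f, mem_iInter.2 fun n => Ultrafilter.of_le f
      (Eventually.of_forall (f := atTop) fun _ => ⟨n, fun _ _ _ c => c⟩), mem_iInter₂.2 fun A hA =>
        mem_iInter.2 fun w => Ultrafilter.of_le f ?_⟩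
    have : ∀ᶠ k in atTop, a k ≠ ⟨A, hA⟩ := by
      rw [← Nat.cofinite_eq_atTop]
      exact (subsingleton_singleton.preimage a.injective).finite.subset fun k hk => not_not.1 hk
    refine this.mono fun k hk => ?_
    obtain ⟨n, hn⟩ := bel_of_fin (h.2 _ (a k).2 A hA fun e => hk (Subtype.ext e))
    by_contra! c
    obtain ⟨y, y1, -, -, y2⟩ := c 0
    obtain ⟨m, hm⟩ := exists_bel y
    obtain ⟨x, x1, x2, x3, x4⟩ := c (n + m)
    have := ((hn (x - y) ⟨sub_mem x1 y1, by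
      simpa using sub_mem (not_not.1 x4) (not_not.1 y2)⟩).mono (n.le_add_right m)).add
        (hm.mono (m.le_add_left n))
    rw [sub_add_cancel] at this
    exact (le_lo x2 x3).not_gt (lo_lt x2 this)
  · intro U hU V hV
    refine ⟨mem_iInter.2 fun n => (Ultrafilter.eventually_add U V _).2 ?_, mem_iInter₂.2 fun A hA =>
      mem_iInter.2 fun w => (Ultrafilter.eventually_add U V _).2 (Eventually.of_forall fun x => ?_)⟩
    · exact Eventually.mono (mem_iInter.1 hU.1 n) fun x hx =>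
        Eventually.mono (mem_iInter.1 hV.1 n) fun y hy => Far.add hx hy
    · exact Eventually.mono (mem_iInter.1 (mem_iInter₂.1 hV.2 A hA) (w + x)) fun y hy => by
        rwa [← add_assoc]

theorem Sp.succ' {v : ℕ → ℕ →₀ F} {k : ℕ} {x : ℕ →₀ F} (h : x ∈ Sp v (k + 1)) :
    ∃ c : F, ∃ w ∈ Sp (fun i => v (i + 1)) k, x = c • v 0 + w := by
  refine Submodule.mem_span_insert.1 (Submodule.span_mono ?_ h)
  rintro _ ⟨_ | i, hi, rfl⟩
  exacts [Or.inl rfl, Or.inr ⟨i, Nat.lt_of_succ_lt_succ hi, rfl⟩]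

theorem exists_FS (h2 : ∀ c : F, c = 0 ∨ c = 1) {U : Ultrafilter (ℕ →₀ F)} (e : U + U = U)
    {X : ℕ → Set (ℕ →₀ F)} (hX : ∀ k, X k ∈ U) : ∃ b : ℕ → ℕ →₀ F, (∀ k, b k ∈ X k) ∧
      ∀ k, ∀ x ∈ Submodule.span F (range fun i => b (k + i)), x = 0 ∨ x ∈ X k := by
  have : ∀ Y ∈ U, ∃ g ∈ Y, {y | g + y ∈ Y} ∈ U := fun Y hY =>
    (Eventually.and hY ((Ultrafilter.eventually_add U U (· ∈ Y)).1 (by rwa [e]))).exists
  choose! g g1 g2 using this
  let Y : ℕ → Set (ℕ →₀ F) := fun k => k.rec (X 0) fun k Y => Y ∩ {y | g Y + y ∈ Y} ∩ X (k + 1)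
  have hY : ∀ k, Y k ∈ U := fun k => k.rec (hX 0) fun k ih =>
    inter_mem (inter_mem ih (g2 _ ih)) (hX _)
  have sub : ∀ k, Y k ⊆ X k := fun k => k.rec subset_rfl fun _ _ => inter_subset_right
  have : ∀ m k, ∀ x ∈ Sp (fun i => g (Y (k + i))) m, x = 0 ∨ x ∈ Y k := by
    intro m
    induction m with
    | zero => exact fun k x hx => Or.inl (Sp.zero hx)
    | succ m ih =>
      intro k x hx
      obtain ⟨c, w, hw, rfl⟩ := Sp.succ' hx
      have := ih (k + 1) w (by simpa only [add_assoc, add_comm 1] using hw)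
      rcases h2 c with rfl | rfl
      · rw [zero_smul, zero_add]
        exact this.imp id fun q => q.1.1
      · rw [one_smul]
        rcases this with rfl | q
        exacts [Or.inr (by simpa using g1 _ (hY k)), Or.inr q.1.2]
  exact ⟨fun k => g (Y k), fun k => sub k (g1 _ (hY k)), fun k x hx =>
    ((exists_Sp hx).elim fun m => this m k x).imp id fun q => sub k q⟩

section
variable {E : Type} (U : Ultrafilter E) (π : (ℕ → ℕ) → E → Bool)

def Ag (k : ℕ) (z w : ℕ → ℕ) : Prop := ∀ i < k, z i = w i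

def Dc (z : ℕ → ℕ) (k : ℕ) (x : E) : Prop := ∀ w, Ag k w z → π w x = true

def Sm (α : Ordinal.{0}) (z : ℕ → ℕ) (k : ℕ) : Prop :=
  ∀ᶠ x in U, ∀ w l, k < l → Ag k w z → Dc π w l x → ∃ β, ∃ _ : β < α, Sm β w l
termination_by α

variable {U π}

theorem Sm.congr {α : Ordinal.{0}} {z w : ℕ → ℕ} {k : ℕ} (h : Sm U π α z k) (e : Ag k z w) :
    Sm U π α w k := by
  rw [Sm] at h ⊢
  exact h.mono fun x hx y l a b => hx y l a fun i hi => (b i hi).trans (e i hi).symm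

theorem sm_step {z : ℕ → ℕ} {k : ℕ} (h : ∀ α, ¬ Sm U π α z k) :
    ∀ᶠ x in U, ∃ w l, k < l ∧ Ag k w z ∧ Dc π w l x ∧ ∀ α, ¬ Sm U π α w l := by
  by_contra c
  have : ∀ p : (ℕ → ℕ) × ℕ, ∃ β, (∃ α, Sm U π α p.1 p.2) → Sm U π β p.1 p.2 := fun p => by
    by_cases q : ∃ α, Sm U π α p.1 p.2
    exacts [q.imp fun _ a _ => a, ⟨0, fun a => absurd a q⟩]
  choose ρ hρ using this
  obtain ⟨γ, hγ⟩ := Ordinal.bddAbove_range ρ
  refine h (Order.succ γ) ?_
  rw [Sm]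
  refine (Ultrafilter.eventually_not.2 c).mono fun x hx w l a b d => ⟨ρ (w, l),
    Order.lt_succ_iff.2 (hγ (mem_range_self _)), hρ (w, l) ?_⟩
  by_contra! q
  exact hx ⟨w, l, a, b, d, q⟩

theorem ag_limit {z : ℕ → ℕ → ℕ} {k : ℕ → ℕ} (h1 : ∀ n, k n < k (n + 1))
    (h2 : ∀ n, Ag (k n) (z (n + 1)) (z n)) : ∃ w, ∀ n, n ≤ k n ∧ Ag (k n) w (z n) := by
  have mono := strictMono_nat_of_lt_succ h1
  have : ∀ n m, n ≤ m → Ag (k n) (z m) (z n) := fun n m h => by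
    induction m, h using Nat.le_induction with
    | base => exact fun _ _ => rfl
    | succ m h ih => exact fun i hi => (h2 m i (hi.trans_le (mono.monotone h))).trans (ih i hi)
  refine ⟨fun i => z (i + 1) i, fun n => ⟨mono.id_le n, fun i hi => ?_⟩⟩
  rcases le_total n (i + 1) with q | q
  exacts [this _ _ q i hi, (this _ _ q i (mono.id_le (i + 1))).symm]

theorem sm_pair {P : ℕ → E → Prop} (hP : ∀ n, ∀ᶠ x in U, P n x) {z y : ℕ → ℕ} {k l : ℕ}
    (h : ∀ α, ¬ Sm U π α z k) (h' : ∀ α, ¬ Sm U π α y l) : ∃ z' y', Ag k z' z ∧ Ag l y' y ∧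
      (∀ n, ∃ x, P n x ∧ π z' x = true ∧ π y' x = true) ∧
      ∀ j, ∃ m, j ≤ m ∧ ∀ α, ¬ Sm U π α z' m := by
  let T := {p : ((ℕ → ℕ) × ℕ) × (ℕ → ℕ) × ℕ //
    (∀ α, ¬ Sm U π α p.1.1 p.1.2) ∧ ∀ α, ¬ Sm U π α p.2.1 p.2.2}
  have : ∀ (n : ℕ) (p : T), ∃ q : T, (p.1.1.2 < q.1.1.2 ∧ Ag p.1.1.2 q.1.1.1 p.1.1.1) ∧
      (p.1.2.2 < q.1.2.2 ∧ Ag p.1.2.2 q.1.2.1 p.1.2.1) ∧
      ∃ x, P n x ∧ Dc π q.1.1.1 q.1.1.2 x ∧ Dc π q.1.2.1 q.1.2.2 x := fun n p => by
    obtain ⟨x, a, ⟨w, m, b1, b2, b3, b4⟩, w', m', c1, c2, c3, c4⟩ :=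
      ((hP n).and ((sm_step p.2.1).and (sm_step p.2.2))).exists
    exact ⟨⟨((w, m), w', m'), b4, c4⟩, ⟨b1, b2⟩, ⟨c1, c2⟩, x, a, b3, c3⟩
  choose f f1 f2 f3 using this
  let s : ℕ → T := fun n => n.rec ⟨((z, k), y, l), h, h'⟩ f
  obtain ⟨z', hz⟩ := ag_limit (z := fun n => (s n).1.1.1) (k := fun n => (s n).1.1.2)
    (fun n => (f1 n _).1) fun n => (f1 n _).2
  obtain ⟨y', hy⟩ := ag_limit (z := fun n => (s n).1.2.1) (k := fun n => (s n).1.2.2)
    (fun n => (f2 n _).1) fun n => (f2 n _).2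
  refine ⟨z', y', (hz 0).2, (hy 0).2, fun n => (f3 n (s n)).imp fun x q =>
    ⟨q.1, q.2.1 _ (hz (n + 1)).2, q.2.2 _ (hy (n + 1)).2⟩, fun j => ⟨_, (hz j).1, fun α c =>
      (s j).2.1 α (c.congr (hz j).2)⟩⟩

theorem ag_loc (hπ : Continuous π) (z : ℕ → ℕ) (x : E) : ∃ j, ∀ w, Ag j w z → π w x = π z x :=
  IMed.exists_cyl (U := {w | π w x = π z x})
    (((isOpen_discrete {π z x}).preimage ((continuous_apply x).comp hπ)).mem_nhds rfl)

end

theorem no_mad (h2 : ∀ c : F, c = 0 ∨ c = 1) {𝒜 : Set (Submodule F (ℕ →₀ F))} (hi : 𝒜.Infinite)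
    (hm : Mad 𝒜) (ha : MeasureTheory.AnalyticSet (chi 𝒜)) : False := by
  classical
  obtain ⟨h, mx⟩ := mad_iff.1 hm
  obtain ⟨U, u1, u2, u3⟩ := exists_idem hi h
  obtain ⟨A0, a0⟩ := hi.nonempty
  rw [MeasureTheory.AnalyticSet] at ha
  obtain ⟨π, hπ, e⟩ := ha.resolve_left
    (Nonempty.ne_empty ⟨fun x => decide (x ∈ A0), A0, a0, fun x => by simp⟩)
  choose A a1 a2 using fun z => e.le (mem_range_self z)
  have hP : ∀ n, ∀ᶠ x : ℕ →₀ F in U, x ≠ 0 ∧ Far n x := fun n =>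
    ((u2 A0 a0).mono fun x hx (q : x = 0) => hx (q ▸ zero_mem _)).and (u1 n)
  have all : ∀ z k, ∃ α, Sm U π α z k := by
    intro z k
    by_contra! c
    obtain ⟨s, -, -, -, -, hs⟩ := sm_pair hP c c
    obtain ⟨m0, -, g0⟩ := hs 0
    obtain ⟨x, x1, w, l, -, -, x2, x3⟩ := ((u2 _ (a1 s)).and (sm_step g0)).exists
    obtain ⟨j, hj⟩ := ag_loc hπ s x
    obtain ⟨m, m1, m2⟩ := hs j
    obtain ⟨p, q, p1, q1, r, -⟩ := sm_pair hP x3 m2
    have : A p = A q := by_contra fun c => inf_of_far (U := A p ⊓ A q) (fun n => (r n).imp fun y t =>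
      ⟨⟨(a2 p y).1 t.2.1, (a2 q y).1 t.2.2⟩, t.1⟩) (h.2 _ (a1 p) _ (a1 q) c)
    exact x1 ((a2 s x).1 ((hj q fun i hi => q1 i (hi.trans_le m1)).symm.trans
      ((a2 q x).2 (this ▸ (a2 p x).1 (x2 p p1)))))
  let ρ : (ℕ → ℕ) → ℕ → Ordinal.{0} := fun z k => sInf {α | Sm U π α z k}
  obtain ⟨dec, hdec⟩ := exists_dec (α := ℕ)
  obtain ⟨b, b1, b2⟩ := exists_FS h2 u3 (X := fun e => {x | (x ≠ 0 ∧ Far e x) ∧ ∀ w l,
    (dec e).1 < l → Ag (dec e).1 w (dec e).2 → Dc π w l x → ρ w l < ρ (dec e).2 (dec e).1})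
    fun e => (hP e).and (by
      have : Sm U π (ρ (dec e).2 (dec e).1) (dec e).2 (dec e).1 :=
        csInf_mem (s := {α | Sm U π α (dec e).2 (dec e).1}) (all (dec e).2 (dec e).1)
      rw [Sm] at this
      exact this.mono fun x hx w l a b c => (hx w l a b c).elim fun β q =>
        (csInf_le' (s := {α | Sm U π α w l}) q.2).trans_lt q.1)
  obtain ⟨X, x1, x2⟩ := mx (Submodule.span F (range b)) (inf_of_far fun n =>
    ⟨b n, Submodule.subset_span (mem_range_self n), (b1 n).1⟩)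
  obtain ⟨z, hz⟩ := e.ge ⟨X, x1, fun x => (by simp : decide (x ∈ X) = true ↔ _)⟩
  obtain ⟨_, ⟨k, rfl⟩, hk⟩ := wellFounded_lt.has_min (range (ρ z)) (range_nonempty _)
  obtain ⟨n, n1, n2⟩ := hdec k z
  haveI : Module.Finite F (Sp b n) := Module.Finite.span_of_finite F ((finite_Iio _).image _)
  refine x2 (fin_of (W := Sp b n) (B := Submodule.span F (range fun i => b (n + i)))
    (inf_le_right.trans (Submodule.span_le.2 ?_)) fun x hx hb => (b2 n x hb).resolve_right fun q => ?_)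
  · rintro _ ⟨i, rfl⟩
    rcases lt_or_ge i n with q | q
    · exact Submodule.mem_sup_left (Sp.mem b q)
    · exact Submodule.mem_sup_right (Submodule.subset_span ⟨i - n, by simp [q]⟩)
  obtain ⟨j, hj⟩ := ag_loc hπ z x
  have := q.2 z (j + k + 1) (by omega) (fun i hi => (n2 i (n1 ▸ hi)).symm) fun w hw =>
    (hj w fun i hi => hw i (by omega)).trans (by simpa [hz] using hx.1)
  refine hk _ (mem_range_self (j + k + 1)) (this.trans_le (le_of_eq ?_))
  rw [n1]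
  exact congrArg sInf (Set.ext fun α => ⟨fun c => c.congr n2, fun c => c.congr fun i hi =>
    (n2 i hi).symm⟩)

theorem Mad.map {E E' : Type} [AddCommGroup E] [Module F E] [AddCommGroup E'] [Module F E']
    (e : E ≃ₗ[F] E') {𝒜 : Set (Submodule F E)} (h : Mad 𝒜) :
    Mad ((Submodule.orderIsoMapComap e) '' 𝒜) := by
  have k : ∀ X : Submodule F E, Module.Finite F (Submodule.orderIsoMapComap e X) ↔
      Module.Finite F X := fun X =>
    (Module.Finite.equiv_iff (e.submoduleMap X)).symm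
  obtain ⟨h, mx⟩ := mad_iff.1 h
  refine mad_iff.2 ⟨⟨forall_mem_image.2 fun X hX => mt (k X).1 (h.1 X hX), ?_⟩, fun U hU => ?_⟩
  · rintro _ ⟨X, hX, rfl⟩ _ ⟨Y, hY, rfl⟩ q
    rw [← OrderIso.map_inf, k]
    exact h.2 X hX Y hY fun c => q (by rw [c])
  · obtain ⟨U, rfl⟩ := (Submodule.orderIsoMapComap e).surjective U
    obtain ⟨X, h1, h2⟩ := mx U (mt (k U).2 hU)
    exact ⟨_, ⟨X, h1, rfl⟩, by rwa [← OrderIso.map_inf, k]⟩

theorem chi_map {E E' : Type} [AddCommGroup E] [Module F E] [AddCommGroup E'] [Module F E']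
    (e : E ≃ₗ[F] E') (𝒜 : Set (Submodule F E)) :
    chi ((Submodule.orderIsoMapComap e) '' 𝒜) = (fun χ => χ ∘ e) ⁻¹' chi 𝒜 := by
  ext χ
  refine ⟨?_, fun ⟨X, h1, h2⟩ => ⟨_, ⟨X, h1, rfl⟩, fun x => ?_⟩⟩
  · rintro ⟨_, ⟨X, h1, rfl⟩, h2⟩
    exact ⟨X, h1, fun x => (h2 (e x)).trans (by simp)⟩
  · obtain ⟨x, rfl⟩ := e.surjective x
    exact (h2 x).trans (by simp)

theorem exists_borel [Countable F] {E : Type} [AddCommGroup E] [Module F E]
    (b : Module.Basis ℕ F E) (h3 : ∃ c : F, c ≠ 0 ∧ c ≠ 1) :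
    ∃ 𝒜 : Set (Submodule F E), 𝒜.Infinite ∧ Mad 𝒜 ∧
      @MeasurableSet (E → Bool) (borel (E → Bool)) (chi 𝒜) ∧ MeasureTheory.AnalyticSet (chi 𝒜) ∧
      ∀ X ∈ 𝒜, ∃ v : ℕ → E, X = Submodule.span F (range v) ∧ (∀ i, v i ≠ 0) ∧
        ∀ i, ∀ m ∈ (b.repr (v i)).support, ∀ n ∈ (b.repr (v (i + 1))).support, m < n := by
  obtain ⟨𝒜, h1, h2, h3, h4⟩ := exists_mad h3
  haveI : Countable E := b.repr.injective.countable
  haveI : PolishSpace (E → Bool) := PolishSpace.mk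
  have m : MeasurableSet (chi ((Submodule.orderIsoMapComap b.repr.symm) '' 𝒜)) := by
    rw [chi_map]
    exact (measurable_pi_lambda _ fun _ => measurable_pi_apply _) h3
  refine ⟨_, h1.image (OrderIso.injective _).injOn, h2.map b.repr.symm,
    by rwa [← BorelSpace.measurable_eq (α := E → Bool)], m.analyticSet, ?_⟩
  rintro _ ⟨X, hX, rfl⟩
  obtain ⟨v, rfl, a, c⟩ := h4 X hX
  exact ⟨fun i => b.repr.symm (v i), (Submodule.map_span _ _).trans (by rw [← range_comp]; rfl),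
    fun i => (map_ne_zero_iff _ b.repr.symm.injective).2 (a i), fun i => by simpa using c i⟩

theorem not_analytic {E : Type} [AddCommGroup E] [Module F E] (b : Module.Basis ℕ F E)
    (h2 : ∀ c : F, c = 0 ∨ c = 1) {𝒜 : Set (Submodule F E)} (hi : 𝒜.Infinite) (hm : Mad 𝒜) :
    ¬ MeasureTheory.AnalyticSet (chi 𝒜) := fun ha => by
  refine no_mad h2 (hi.image (OrderIso.injective _).injOn) (hm.map b.repr) ?_
  have : (fun χ : (ℕ →₀ F) → Bool => χ ∘ b.repr) ⁻¹' chi 𝒜 =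
      (fun χ : E → Bool => χ ∘ b.repr.symm) '' chi 𝒜 :=
    (congrFun (image_eq_preimage_of_inverse (fun χ => funext fun x => by simp)
      fun χ => funext fun x => by simp) _).symm
  rw [chi_map, this]
  exact ha.image_of_continuous (continuous_pi fun _ => continuous_apply _)

end Pool.Agent.H34.VMad
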