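import Mathlib

/-! Counting closed walks with a repeated label (Cauchy-Schwarz argument). -/

namespace Pool.Agent.H34.WalkCS

open Finset

variable {U : Type} [Fintype U] [DecidableEq U]

def cons (u : U) (f : ℕ → U) : ℕ → U
  | 0 => u
  | i + 1 => f i

/-- Sum of a functional over all walks of length n from u to v, weighted by A. -/
def S (A : Matrix U U ℝ) : ℕ → U → U → ((ℕ → U) → ℝ) → ℝ
  | 0, u, v, Φ => if u = v then Φ (fun _ => u) else 0
  | n + 1, u, v, Φ => ∑ w, A u w * S A n w v (fun f => Φ (cons u f))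

def IsWalk (A : Matrix U U ℝ) (n : ℕ) (u v : U) (f : ℕ → U) : Prop :=
  f 0 = u ∧ f n = v ∧ ∀ i < n, A (f i) (f (i + 1)) ≠ 0

theorem S_mono (A : Matrix U U ℝ) (hA : ∀ u w, 0 ≤ A u w) :
    ∀ (n : ℕ) (u v : U) (Φ Ψ : (ℕ → U) → ℝ), (∀ f, IsWalk A n u v f → Φ f ≤ Ψ f) →
      S A n u v Φ ≤ S A n u v Ψ := by
  intro n
  induction n with
  | zero =>
    intro u v Φ Ψ h
    simp only [S]
    split_ifs with huv
    · exact h _ ⟨rfl, huv, fun i hi => absurd hi (Nat.not_lt_zero i)⟩
    · exact le_rfl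
  | succ n ih =>
    intro u v Φ Ψ h
    simp only [S]
    refine Finset.sum_le_sum fun w _ => ?_
    by_cases hw : A u w = 0
    · simp [hw]
    refine mul_le_mul_of_nonneg_left (ih w v _ _ fun f hf => h _ ⟨rfl, hf.2.1, ?_⟩) (hA u w)
    intro i hi
    cases i with
    | zero => simpa [cons, hf.1] using hw
    | succ i => exact hf.2.2 i (by omega)

theorem S_sum (A : Matrix U U ℝ) {ι : Type} (s : Finset ι) :
    ∀ (n : ℕ) (u v : U) (Φ : ι → (ℕ → U) → ℝ),
      S A n u v (fun f => ∑ a ∈ s, Φ a f) = ∑ a ∈ s, S A n u v (Φ a) := by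
  intro n
  induction n with
  | zero =>
    intro u v Φ
    simp only [S]
    split_ifs <;> simp
  | succ n ih =>
    intro u v Φ
    simp only [S]
    rw [Finset.sum_comm]
    refine Finset.sum_congr rfl fun w _ => ?_
    rw [ih w v (fun a f => Φ a (cons u f)), Finset.mul_sum]

theorem S_const (A : Matrix U U ℝ) (c : ℝ) :
    ∀ (n : ℕ) (u v : U), S A n u v (fun _ => c) = c * (A ^ n) u v := by
  intro n
  induction n with
  | zero =>
    intro u v
    simp only [S, pow_zero, Matrix.one_apply]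
    split_ifs <;> simp
  | succ n ih =>
    intro u v
    simp only [S, ih, pow_succ', Matrix.mul_apply, Finset.mul_sum]
    exact Finset.sum_congr rfl fun w _ => by ring

theorem S_one (A : Matrix U U ℝ) (d : U → ℝ) :
    ∀ (j t : ℕ) (u v : U), S A (j + t) u v (fun f => d (f j)) =
      ∑ y, (A ^ j) u y * d y * (A ^ t) y v := by
  intro j
  induction j with
  | zero =>
    intro t u v
    have h : S A (0 + t) u v (fun f => d (f 0)) = S A (0 + t) u v (fun _ => d u) := by
      rw [zero_add]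
      cases t with
      | zero => simp [S]
      | succ t => simp [S, cons]
    rw [h, S_const, zero_add]
    simp [Matrix.one_apply]
  | succ j ih =>
    intro t u v
    rw [show j + 1 + t = (j + t) + 1 by ring]
    simp only [S, cons, ih, pow_succ', Matrix.mul_apply, Finset.mul_sum, Finset.sum_mul]
    rw [Finset.sum_comm]
    exact Finset.sum_congr rfl fun y _ => Finset.sum_congr rfl fun w _ => by ring

theorem S_two (A : Matrix U U ℝ) (e : U → U → ℝ) :
    ∀ (i s t : ℕ) (u v : U), S A (i + (s + 1) + t) u v (fun f => e (f i) (f (i + (s + 1)))) =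
      ∑ x, ∑ y, (A ^ i) u x * (e x y * (A ^ (s + 1)) x y * (A ^ t) y v) := by
  intro i
  induction i with
  | zero =>
    intro s t u v
    have h : S A (0 + (s + 1) + t) u v (fun f => e (f 0) (f (0 + (s + 1)))) =
        S A (s + 1 + t) u v (fun f => e u (f (s + 1))) := by
      rw [zero_add, show s + 1 + t = (s + t) + 1 by ring]
      simp [S, cons]
    rw [h, S_one A (fun y => e u y)]
    simp only [pow_zero, Matrix.one_apply, ite_mul, one_mul, zero_mul]
    rw [Finset.sum_comm]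
    refine Finset.sum_congr rfl fun y _ => ?_
    rw [Finset.sum_ite_eq]
    simp only [Finset.mem_univ, if_true]
    ring
  | succ i ih =>
    intro s t u v
    rw [show i + 1 + (s + 1) + t = (i + (s + 1) + t) + 1 by ring,
      show i + 1 + (s + 1) = (i + (s + 1)) + 1 by ring]
    simp only [S, cons, ih]
    simp only [pow_succ' A i, Matrix.mul_apply, Finset.mul_sum, Finset.sum_mul]
    rw [Finset.sum_comm]
    refine Finset.sum_congr rfl fun x _ => ?_
    rw [Finset.sum_comm]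
    exact Finset.sum_congr rfl fun y _ => Finset.sum_congr rfl fun w _ => by ring

theorem pow_nonneg' (A : Matrix U U ℝ) (hA : ∀ u w, 0 ≤ A u w) :
    ∀ (n : ℕ) (u v : U), 0 ≤ (A ^ n) u v := by
  intro n
  induction n with
  | zero => intro u v; simp only [pow_zero, Matrix.one_apply]; split_ifs <;> norm_num
  | succ n ih =>
    intro u v
    rw [pow_succ', Matrix.mul_apply]
    exact Finset.sum_nonneg fun w _ => mul_nonneg (hA u w) (ih w v)

theorem pow_symm (A : Matrix U U ℝ) (hs : ∀ u w, A u w = A w u) (n : ℕ) (u v : U) :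
    (A ^ n) u v = (A ^ n) v u := by
  have h : A.transpose = A := by ext u w; exact hs w u
  have : (A ^ n).transpose = A ^ n := by rw [Matrix.transpose_pow, h]
  exact congrFun (congrFun this v) u

theorem pow_row (A : Matrix U U ℝ) (D : ℝ) (hr : ∀ u, ∑ w, A u w = D) :
    ∀ (n : ℕ) (u : U), ∑ v, (A ^ n) u v = D ^ n := by
  intro n
  induction n with
  | zero => intro u; simp [Matrix.one_apply]
  | succ n ih =>
    intro u
    simp only [pow_succ', Matrix.mul_apply]
    rw [Finset.sum_comm]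
    simp only [← Finset.mul_sum, ih, ← Finset.sum_mul, hr]

/-- H k = number of closed walks of length 2k. -/
def H (A : Matrix U U ℝ) (k : ℕ) : ℝ := ∑ x, ∑ z, ((A ^ k) x z) ^ 2

def B (A : Matrix U U ℝ) (e : U → U → ℝ) (s t : ℕ) : ℝ :=
  ∑ x, ∑ y, e x y * (A ^ s) x y * (A ^ t) y x

theorem B_symm (A : Matrix U U ℝ) (e : U → U → ℝ) (he : ∀ x y, e x y = e y x) (s t : ℕ) :
    B A e s t = B A e t s := by
  unfold B
  rw [Finset.sum_comm]
  exact Finset.sum_congr rfl fun x _ => Finset.sum_congr rfl fun y _ => by rw [he y x]; ring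

theorem H_eq (A : Matrix U U ℝ) (hs : ∀ u w, A u w = A w u) (k : ℕ) :
    ∑ u, (A ^ (2 * k)) u u = H A k := by
  unfold H
  refine Finset.sum_congr rfl fun u _ => ?_
  rw [two_mul, pow_add, Matrix.mul_apply]
  exact Finset.sum_congr rfl fun z _ => by rw [pow_symm A hs k z u]; ring

theorem B_sq_le (A : Matrix U U ℝ) (e : U → U → ℝ) (D : ℝ)
    (h01 : ∀ u w, A u w = 0 ∨ A u w = 1) (hs : ∀ u w, A u w = A w u)
    (hr : ∀ u, ∑ w, A u w = D) (he0 : ∀ x y, 0 ≤ e x y) (he1 : ∀ x y, e x y ≤ 1)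
    (hE : ∀ w y, ∑ x, A x w * e x y ≤ 1) (a b : ℕ) :
    (B A e (a + 1) (b + (a + b + 1))) ^ 2 ≤ H A (a + b) * (D * H A (a + b + 1)) := by
  have hA : ∀ u w, 0 ≤ A u w := fun u w => by rcases h01 u w with h | h <;> simp [h]
  have hAA : ∀ u w, A u w * A u w = A u w := fun u w => by
    rcases h01 u w with h | h <;> simp [h]
  have hp := pow_nonneg' A hA
  set n : U → U → U → ℝ := fun x w z => ∑ y, e x y * ((A ^ a) w y * (A ^ b) y z) with hn
  have hB : B A e (a + 1) (b + (a + b + 1)) =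
      ∑ τ : U × U × U, (A τ.1 τ.2.1 * n τ.1 τ.2.1 τ.2.2) *
        (A τ.1 τ.2.1 * (A ^ (a + b + 1)) τ.2.2 τ.1) := by
    unfold B
    rw [Fintype.sum_prod_type]
    refine Finset.sum_congr rfl fun x _ => ?_
    rw [Fintype.sum_prod_type]
    simp only [pow_succ' A a, pow_add A b, Matrix.mul_apply, hn, Finset.mul_sum, Finset.sum_mul]
    rw [Finset.sum_comm]
    have : ∀ z, ∑ y, ∑ w, e x y * (A x w * (A ^ a) w y) * ((A ^ b) y z * (A ^ (a + b + 1)) z x) =
        ∑ w, ∑ y, e x y * (A x w * (A ^ a) w y) * ((A ^ b) y z * (A ^ (a + b + 1)) z x) :=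
      fun z => Finset.sum_comm
    simp only [this]
    rw [Finset.sum_comm]
    refine Finset.sum_congr rfl fun w _ => Finset.sum_congr rfl fun z _ =>
      Finset.sum_congr rfl fun y _ => ?_
    calc _ = (A x w * A x w) * (e x y * (A ^ a) w y * (A ^ b) y z * (A ^ (a + b + 1)) z x) := by
          rw [hAA]; ring
      _ = _ := by ring
  have hab : ∀ w z, ∑ y, (A ^ a) w y * (A ^ b) y z = (A ^ (a + b)) w z := fun w z => by
    rw [pow_add, Matrix.mul_apply]
  have hn0 : ∀ x w z, 0 ≤ n x w z := fun x w z =>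
    Finset.sum_nonneg fun y _ => mul_nonneg (he0 x y) (mul_nonneg (hp _ _ _) (hp _ _ _))
  have hn1 : ∀ x w z, n x w z ≤ (A ^ (a + b)) w z := fun x w z => by
    rw [← hab]
    exact Finset.sum_le_sum fun y _ =>
      mul_le_of_le_one_left (mul_nonneg (hp _ _ _) (hp _ _ _)) (he1 x y)
  have hn2 : ∀ w z, ∑ x, A x w * n x w z ≤ (A ^ (a + b)) w z := fun w z => by
    rw [← hab]
    simp only [hn, Finset.mul_sum]
    rw [Finset.sum_comm]
    refine Finset.sum_le_sum fun y _ => ?_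
    calc ∑ x, A x w * (e x y * ((A ^ a) w y * (A ^ b) y z))
        = (∑ x, A x w * e x y) * ((A ^ a) w y * (A ^ b) y z) := by
          rw [Finset.sum_mul]; exact Finset.sum_congr rfl fun x _ => by ring
      _ ≤ _ := mul_le_of_le_one_left (mul_nonneg (hp _ _ _) (hp _ _ _)) (hE w y)
  have h1 : ∑ τ : U × U × U, (A τ.1 τ.2.1 * n τ.1 τ.2.1 τ.2.2) ^ 2 ≤ H A (a + b) := by
    rw [Fintype.sum_prod_type_right, Fintype.sum_prod_type]
    unfold H
    refine Finset.sum_le_sum fun w _ => Finset.sum_le_sum fun z _ => ?_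
    calc ∑ x, (A x w * n x w z) ^ 2 ≤ ∑ x, A x w * n x w z * (A ^ (a + b)) w z := by
          refine Finset.sum_le_sum fun x _ => ?_
          calc (A x w * n x w z) ^ 2 = (A x w * A x w) * n x w z * n x w z := by ring
            _ = A x w * n x w z * n x w z := by rw [hAA]
            _ ≤ _ := mul_le_mul_of_nonneg_left (hn1 x w z) (mul_nonneg (hA _ _) (hn0 _ _ _))
      _ = (∑ x, A x w * n x w z) * (A ^ (a + b)) w z := by rw [Finset.sum_mul]
      _ ≤ (A ^ (a + b)) w z * (A ^ (a + b)) w z :=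
          mul_le_mul_of_nonneg_right (hn2 w z) (hp _ _ _)
      _ = _ := by ring
  have h2 : ∑ τ : U × U × U, (A τ.1 τ.2.1 * (A ^ (a + b + 1)) τ.2.2 τ.1) ^ 2 =
      D * H A (a + b + 1) := by
    rw [Fintype.sum_prod_type]
    unfold H
    rw [Finset.mul_sum]
    refine Finset.sum_congr rfl fun x _ => ?_
    rw [Fintype.sum_prod_type, ← hr x, Finset.sum_mul]
    refine Finset.sum_congr rfl fun w _ => ?_
    rw [Finset.mul_sum]
    refine Finset.sum_congr rfl fun z _ => ?_
    rw [pow_symm A hs _ z x, mul_pow, sq (A x w), hAA]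
  rw [hB]
  refine (Finset.sum_mul_sq_le_sq_mul_sq _ _ _).trans ?_
  rw [h2]
  refine mul_le_mul_of_nonneg_right h1 ?_
  rw [← h2]
  exact Finset.sum_nonneg fun _ _ => sq_nonneg _

theorem H_nonneg (A : Matrix U U ℝ) (k : ℕ) : 0 ≤ H A k :=
  Finset.sum_nonneg fun _ _ => Finset.sum_nonneg fun _ _ => sq_nonneg _

/-- If every closed walk of length 2(k+1) has two e-related positions, the number of closed
walks drops by a bounded factor times the degree. -/
theorem H_step (A : Matrix U U ℝ) (e : U → U → ℝ) (D : ℝ)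
    (h01 : ∀ u w, A u w = 0 ∨ A u w = 1) (hs : ∀ u w, A u w = A w u)
    (hr : ∀ u, ∑ w, A u w = D) (he0 : ∀ x y, 0 ≤ e x y) (he1 : ∀ x y, e x y ≤ 1)
    (hes : ∀ x y, e x y = e y x)
    (hE : ∀ w y, ∑ x, A x w * e x y ≤ 1) (hD : 0 ≤ D) (k : ℕ)
    (hbad : ∀ u f, IsWalk A (2 * (k + 1)) u u f →
      ∃ i j, i < j ∧ j < 2 * (k + 1) ∧ e (f i) (f j) = 1) :
    H A (k + 1) ≤ (2 * (k + 1) : ℝ) ^ 4 * D * H A k := by
  have hA : ∀ u w, 0 ≤ A u w := fun u w => by rcases h01 u w with h | h <;> simp [h]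
  set n := 2 * (k + 1) with hn
  set P : Finset (ℕ × ℕ) := (range n ×ˢ range n).filter (fun p => p.1 < p.2) with hP
  set R : ℝ := Real.sqrt (H A k * (D * H A (k + 1))) with hR
  have hBR : ∀ s t, 1 ≤ s → s ≤ t → s + t = n → B A e s t ≤ R := by
    intro s t h1 h2 h3
    obtain ⟨a, rfl⟩ : ∃ a, s = a + 1 := ⟨s - 1, by omega⟩
    obtain ⟨b, hb⟩ : ∃ b, k = a + b := ⟨k - a, by omega⟩
    have ht : t = b + (a + b + 1) := by omega
    rw [hR, ht, hb]
    exact Real.le_sqrt_of_sq_le (B_sq_le A e D h01 hs hr he0 he1 hE a b)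
  have hBR' : ∀ s t, 1 ≤ s → 1 ≤ t → s + t = n → B A e s t ≤ R := by
    intro s t h1 h2 h3
    rcases le_total s t with h | h
    · exact hBR s t h1 h h3
    · rw [B_symm A e hes]; exact hBR t s h2 h (by omega)
  have h1 : ∀ u, (A ^ n) u u ≤ ∑ p ∈ P, S A n u u (fun f => e (f p.1) (f p.2)) := by
    intro u
    rw [← S_sum A P n u u (fun p f => e (f p.1) (f p.2)), ← one_mul ((A ^ n) u u), ← S_const]
    refine S_mono A hA n u u _ _ fun f hf => ?_
    obtain ⟨i, j, hij, hj, hf1⟩ := hbad u f hf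
    rw [← hf1]
    refine Finset.single_le_sum (f := fun p : ℕ × ℕ => e (f p.1) (f p.2))
      (fun p _ => he0 _ _) (a := (i, j)) ?_
    simp only [hP, Finset.mem_filter, Finset.mem_product, Finset.mem_range]
    omega
  have h2 : ∀ p ∈ P, ∑ u, S A n u u (fun f => e (f p.1) (f p.2)) ≤ R := by
    rintro ⟨i, j⟩ hp
    simp only [hP, Finset.mem_filter, Finset.mem_product, Finset.mem_range] at hp
    obtain ⟨s, rfl⟩ : ∃ s, j = i + (s + 1) := ⟨j - i - 1, by omega⟩
    obtain ⟨t, ht⟩ : ∃ t, n = i + (s + 1) + (t + 1) := ⟨n - (i + (s + 1)) - 1, by omega⟩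
    refine le_trans (le_of_eq ?_) (hBR' (s + 1) (t + 1 + i) (by omega) (by omega) (by omega))
    rw [ht]
    simp only [S_two]
    unfold B
    rw [Finset.sum_comm]
    refine Finset.sum_congr rfl fun x _ => ?_
    rw [Finset.sum_comm]
    refine Finset.sum_congr rfl fun y _ => ?_
    rw [pow_add A (t + 1) i, Matrix.mul_apply, Finset.mul_sum]
    exact Finset.sum_congr rfl fun u _ => by ring
  have hcard : (P.card : ℝ) ≤ (n : ℝ) ^ 2 := by
    have : P.card ≤ n ^ 2 := (Finset.card_filter_le _ _).trans (by simp [sq])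
    exact_mod_cast this
  have hR0 : 0 ≤ R := Real.sqrt_nonneg _
  have h3 : H A (k + 1) ≤ (n : ℝ) ^ 2 * R := by
    rw [← H_eq A hs]
    calc ∑ u, (A ^ n) u u ≤ ∑ u, ∑ p ∈ P, S A n u u (fun f => e (f p.1) (f p.2)) :=
          Finset.sum_le_sum fun u _ => h1 u
      _ = ∑ p ∈ P, ∑ u, S A n u u (fun f => e (f p.1) (f p.2)) := Finset.sum_comm
      _ ≤ ∑ _p ∈ P, R := Finset.sum_le_sum h2
      _ = P.card * R := by simp
      _ ≤ _ := mul_le_mul_of_nonneg_right hcard hR0
  have hR2 : R ^ 2 = H A k * (D * H A (k + 1)) :=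
    Real.sq_sqrt (mul_nonneg (H_nonneg A k) (mul_nonneg hD (H_nonneg A _)))
  have hnr : (n : ℝ) = 2 * (k + 1) := by rw [hn]; push_cast; ring
  rw [← hnr]
  rcases (H_nonneg A (k + 1)).eq_or_lt with h0 | h0
  · rw [← h0]; exact mul_nonneg (mul_nonneg (by positivity) hD) (H_nonneg A k)
  have h4 : H A (k + 1) ^ 2 ≤ ((n : ℝ) ^ 2 * R) ^ 2 := pow_le_pow_left₀ h0.le h3 2
  rw [mul_pow, hR2] at h4
  have h5 : H A (k + 1) * H A (k + 1) ≤ ((n : ℝ) ^ 4 * D * H A k) * H A (k + 1) := by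
    calc _ = H A (k + 1) ^ 2 := by ring
      _ ≤ _ := h4
      _ = _ := by ring
  exact le_of_mul_le_mul_right h5 h0

theorem H_one (A : Matrix U U ℝ) (D : ℝ) (h01 : ∀ u w, A u w = 0 ∨ A u w = 1)
    (hr : ∀ u, ∑ w, A u w = D) : H A 1 = Fintype.card U * D := by
  unfold H
  have : ∀ x, ∑ z, ((A ^ 1) x z) ^ 2 = D := fun x => by
    rw [← hr x]
    refine Finset.sum_congr rfl fun z _ => ?_
    rcases h01 x z with h | h <;> simp [h]
  rw [Finset.sum_congr rfl fun x _ => this x]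
  simp

theorem H_ge (A : Matrix U U ℝ) (D : ℝ) (hr : ∀ u, ∑ w, A u w = D) [Nonempty U] (k : ℕ) :
    D ^ (2 * k) ≤ H A k := by
  have hc : (0 : ℝ) < Fintype.card U := by exact_mod_cast Fintype.card_pos
  have h1 : ∀ x, D ^ (2 * k) ≤ Fintype.card U * ∑ z, ((A ^ k) x z) ^ 2 := fun x => by
    have := sq_sum_le_card_mul_sum_sq (s := (Finset.univ : Finset U)) (f := fun z => (A ^ k) x z)
    rw [pow_row A D hr, ← pow_mul, mul_comm k 2] at this
    simpa using this
  have h2 : (Fintype.card U : ℝ) * D ^ (2 * k) ≤ Fintype.card U * H A k := by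
    unfold H
    rw [Finset.mul_sum]
    calc _ = ∑ _x : U, D ^ (2 * k) := by simp
      _ ≤ _ := Finset.sum_le_sum fun x _ => h1 x
  exact le_of_mul_le_mul_left h2 hc

end Pool.Agent.H34.WalkCS
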