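import Mathlib

namespace Pool.Agent.H34.WarmDefs

/-- A homomorphism from the rooted tree `T^d` to `G`. The vertices of `T^d` are the words over
`Fin d`, the root is the empty word, the children of `l` are the words `l ++ [i]`, and the
distance of `l` from the root is its length. -/
def IsTreeHom {V : Type} (G : SimpleGraph V) {d : ℕ} (φ : List (Fin d) → V) : Prop :=
  ∀ (l : List (Fin d)) (i : Fin d), G.Adj (φ l) (φ (l ++ [i]))

/-- `φ` is cold: some vertex `a` is never the root value of a homomorphism agreeing with `φ`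
at distance `k ≥ 1` from the root. -/
def IsCold {V : Type} (G : SimpleGraph V) {d : ℕ} (φ : List (Fin d) → V) : Prop :=
  ∃ a : V, ∀ k : ℕ, 1 ≤ k → ¬ ∃ ψ : List (Fin d) → V, IsTreeHom G ψ ∧
    (∀ l : List (Fin d), l.length = k → ψ l = φ l) ∧ ψ [] = a

/-- `G` is `d`-warm: no homomorphism `T^(d-2) → G` is cold. -/
def IsWarm {V : Type} (G : SimpleGraph V) (d : ℕ) : Prop :=
  ∀ φ : List (Fin (d - 2)) → V, IsTreeHom G φ → ¬ IsCold G φ

/-- The warmth: the supremum of the `d ≥ 2` such that `G` is `d`-warm. -/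
noncomputable def warmth {V : Type} (G : SimpleGraph V) : EReal :=
  sSup {r : EReal | ∃ d : ℕ, 2 ≤ d ∧ IsWarm G d ∧ r = d}

/-- The geometric realization of the neighbourhood complex: probability vectors on `V` whose
support has a common neighbour. -/
def nbhdReal {V : Type} [Fintype V] (G : SimpleGraph V) : Set (V → ℝ) :=
  {x | (∀ v, 0 ≤ x v) ∧ ∑ v, x v = 1 ∧ ∃ c, ∀ v, x v ≠ 0 → G.Adj c v}

/-- `X` is `k`-connected: nonempty, with `π_i` trivial at every base point for `0 ≤ i ≤ k`. -/
def IsConn (X : Type) [TopologicalSpace X] (k : ℕ) : Prop :=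
  Nonempty X ∧ ∀ i ≤ k, ∀ x : X, Subsingleton (HomotopyGroup.Pi i X x)

/-- The connectivity of a nonempty space: the largest `k` with `X` `k`-connected, `-1` if there is
none and `+∞` if `X` is `k`-connected for all `k`. -/
noncomputable def conn (X : Type) [TopologicalSpace X] : EReal :=
  sSup ({-1} ∪ {r : EReal | ∃ k : ℕ, IsConn X k ∧ r = k})

end Pool.Agent.H34.WarmDefs
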