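import Mathlib
import Pool.Agent.H34.WarmDefs

namespace Pool.Agent.H34.Warm
open Pool.Agent.H34.WarmDefs
open scoped Topology

section cover
variable {V : Type} [Fintype V] [DecidableEq V] (G : SimpleGraph V) (σ : V → V → ZMod 2)

def cov : Set (V × ZMod 2 → ℝ) :=
  {x | (∀ p, 0 ≤ x p) ∧ ∑ p, x p = 1 ∧ (∃ c, ∀ p, x p ≠ 0 → G.Adj c p.1) ∧
    ∀ p q, x p ≠ 0 → x q ≠ 0 → p.2 + q.2 = σ p.1 q.1}

theorem sum_shift (x : V × ZMod 2 → ℝ) (g : ZMod 2) :
    ∑ p : V × ZMod 2, x (p.1, p.2 + g) = ∑ p, x p :=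
  Fintype.sum_equiv ((Equiv.refl V).prodCongr (Equiv.addRight g)) _ _ (fun _ => rfl)

theorem z2 : ∀ a b g : ZMod 2, a + g + (b + g) = a + b := by decide

instance : AddAction (ZMod 2) (cov G σ) where
  vadd g x := ⟨fun p => x.1 (p.1, p.2 + g), fun _ => x.2.1 _, (sum_shift _ g).trans x.2.2.1,
    x.2.2.2.1.imp fun _ hc p hp => hc (p.1, p.2 + g) hp,
    fun p q hp hq => (z2 _ _ g).symm.trans (x.2.2.2.2 _ _ hp hq)⟩
  zero_vadd x := Subtype.ext (funext fun p => by
    show x.1 (p.1, p.2 + 0) = x.1 p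
    simp)
  add_vadd g h x := Subtype.ext (funext fun p => by
    show x.1 (p.1, p.2 + (g + h)) = x.1 (p.1, p.2 + g + h)
    rw [add_assoc])

theorem vadd_val (g : ZMod 2) (x : cov G σ) (p : V × ZMod 2) :
    (g +ᵥ x).1 p = x.1 (p.1, p.2 + g) := rfl

theorem sum_split (x : V × ZMod 2 → ℝ) : ∑ v, (x (v, 0) + x (v, 1)) = ∑ p, x p := by
  rw [Fintype.sum_prod_type]
  refine Finset.sum_congr rfl fun v _ => ?_
  exact (Fin.sum_univ_two (fun a : ZMod 2 => x (v, a))).symm

def proj (x : cov G σ) : nbhdReal G :=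
  ⟨fun v => x.1 (v, 0) + x.1 (v, 1), fun _ => add_nonneg (x.2.1 _) (x.2.1 _),
    (sum_split _).trans x.2.2.1, by
      obtain ⟨c, hc⟩ := x.2.2.2.1
      refine ⟨c, fun v hv => ?_⟩
      by_cases h0 : x.1 (v, 0) = 0
      · exact hc (v, 1) (fun h1 => hv (by simp [h0, h1]))
      · exact hc (v, 0) h0⟩

theorem cont_coord (p : V × ZMod 2) : Continuous fun y : cov G σ => y.1 p :=
  (continuous_apply p).comp continuous_subtype_val

theorem continuous_proj : Continuous (proj G σ) := by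
  apply Continuous.subtype_mk
  exact continuous_pi fun v => (cont_coord G σ _).add (cont_coord G σ _)

theorem isCompact_cov : IsCompact (cov G σ) := by
  apply (isCompact_stdSimplex ℝ (V × ZMod 2)).of_isClosed_subset
  · have : cov G σ = stdSimplex ℝ (V × ZMod 2) ∩
        ((⋃ c, ⋂ p : V × ZMod 2, ⋂ _ : ¬ G.Adj c p.1, {x | x p = 0}) ∩
          ⋂ p : V × ZMod 2, ⋂ q : V × ZMod 2, ⋂ _ : p.2 + q.2 ≠ σ p.1 q.1,
            {x | x p * x q = 0}) := by
      ext x
      simp only [cov, stdSimplex, Set.mem_setOf_eq, Set.mem_inter_iff, Set.mem_iUnion,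
        Set.mem_iInter, and_assoc, mul_eq_zero]
      refine and_congr_right fun _ => and_congr_right fun _ => and_congr
        (exists_congr fun c => forall_congr' fun p => by tauto)
        (forall_congr' fun p => forall_congr' fun q => by tauto)
    rw [this]
    refine (isClosed_stdSimplex ℝ _).inter (IsClosed.inter ?_ ?_)
    · exact isClosed_iUnion_of_finite fun c => isClosed_iInter fun p => isClosed_iInter fun _ =>
        isClosed_eq (by fun_prop) continuous_const
    · exact isClosed_iInter fun p => isClosed_iInter fun q => isClosed_iInter fun _ =>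
        isClosed_eq (by fun_prop) continuous_const
  · intro x hx
    exact ⟨hx.1, hx.2.1⟩

theorem exists_ne_zero {ι : Type} [Fintype ι] (x : ι → ℝ) (h : ∑ p, x p = 1) : ∃ p, x p ≠ 0 := by
  by_contra hc
  push Not at hc
  simp [hc] at h

variable (h0 : ∀ u, σ u u = 0)
  (hadd : ∀ c u v w, G.Adj c u → G.Adj c v → G.Adj c w → σ u v + σ u w = σ v w)
include h0 hadd

theorem surj_proj : Function.Surjective (proj G σ) := by
  intro y
  obtain ⟨c, hc⟩ := y.2.2.2
  obtain ⟨u, hu⟩ := exists_ne_zero y.1 y.2.2.1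
  have key : ∀ v, (if (0 : ZMod 2) = σ u v then y.1 v else 0)
      + (if (1 : ZMod 2) = σ u v then y.1 v else 0) = y.1 v := by
    intro v
    have : ∀ a : ZMod 2, a = 0 ∨ a = 1 := by decide
    rcases this (σ u v) with h | h <;> simp [h]
  refine ⟨⟨fun p => if p.2 = σ u p.1 then y.1 p.1 else 0, fun p => ?_, ?_, ⟨c, fun p hp => ?_⟩,
    fun p q hp hq => ?_⟩, Subtype.ext (funext key)⟩
  · dsimp only
    split_ifs
    · exact y.2.1 _
    · exact le_rfl
  · rw [← sum_split]
    exact (Finset.sum_congr rfl fun v _ => key v).trans y.2.2.1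
  · apply hc
    intro h
    simp [h] at hp
  · have hp1 : p.2 = σ u p.1 := by by_contra h; simp [h] at hp
    have hq1 : q.2 = σ u q.1 := by by_contra h; simp [h] at hq
    have hp2 : y.1 p.1 ≠ 0 := by intro h; simp [h] at hp
    have hq2 : y.1 q.1 ≠ 0 := by intro h; simp [h] at hq
    rw [hp1, hq1]
    exact hadd c _ _ _ (hc u hu) (hc _ hp2) (hc _ hq2)

omit hadd in
theorem val_eq (x : cov G σ) (p q : V × ZMod 2) (hp : x.1 p ≠ 0) :
    x.1 q = if p.2 + q.2 = σ p.1 q.1 then (proj G σ x).1 q.1 else 0 := by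
  obtain ⟨v, a⟩ := q
  have h2 : ∀ a : ZMod 2, a = 0 ∨ a = 1 := by decide
  have h3 : ∀ a b : ZMod 2, a + 0 = b → a + 1 ≠ b := by decide
  have h4 : ∀ a b : ZMod 2, a + 1 = b → a + 0 ≠ b := by decide
  split_ifs with h
  · show x.1 (v, a) = x.1 (v, 0) + x.1 (v, 1)
    rcases h2 a with rfl | rfl
    · have : x.1 (v, 1) = 0 := by
        by_contra hh
        exact h3 _ _ h (x.2.2.2.2 p (v, 1) hp hh)
      simp [this]
    · have : x.1 (v, 0) = 0 := by
        by_contra hh
        exact h4 _ _ h (x.2.2.2.2 p (v, 0) hp hh)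
      simp [this]
  · by_contra hh
    exact h (x.2.2.2.2 p _ hp hh)

theorem isCov : IsCoveringMap (proj G σ) := by
  have : CompactSpace (cov G σ) := isCompact_iff_compactSpace.1 (isCompact_cov G σ)
  apply IsAddQuotientCoveringMap.isCoveringMap (G := ZMod 2)
  refine { (continuous_proj G σ).isClosedMap.isQuotientMap (continuous_proj G σ)
    (surj_proj G σ h0 hadd) with
    continuous_const_vadd := fun g => ?_, apply_eq_iff_mem_orbit := ?_, disjoint := ?_ }
  · apply Continuous.subtype_mk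
    exact continuous_pi fun v => cont_coord G σ _
  · intro x y
    constructor
    · intro hxy
      obtain ⟨p, hp⟩ := exists_ne_zero x.1 x.2.2.1
      have hy : ∃ b, y.1 (p.1, b) ≠ 0 := by
        by_contra hc
        push Not at hc
        have h1 := val_eq G σ h0 x p p hp
        rw [hxy] at h1
        have h2 : (proj G σ y).1 p.1 = 0 := by
          show y.1 (p.1, 0) + y.1 (p.1, 1) = 0
          simp [hc]
        rw [h2] at h1
        simp at h1
        exact hp h1
      obtain ⟨b, hb⟩ := hy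
      refine ⟨p.2 + b, Subtype.ext (funext fun q => ?_)⟩
      show y.1 (q.1, q.2 + (p.2 + b)) = x.1 q
      rw [val_eq G σ h0 x p q hp, val_eq G σ h0 y _ _ hb, hxy]
      have : ∀ a b c : ZMod 2, b + (c + (a + b)) = a + c := by decide
      simp only [this]
    · rintro ⟨g, rfl⟩
      apply Subtype.ext
      funext v
      show y.1 (v, 0 + g) + y.1 (v, 1 + g) = y.1 (v, 0) + y.1 (v, 1)
      have h2 : ∀ a : ZMod 2, a = 0 ∨ a = 1 := by decide
      rcases h2 g with rfl | rfl
      · simp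
      · have : (1 : ZMod 2) + 1 = 0 := by decide
        rw [this, zero_add, add_comm]
  · intro x
    obtain ⟨p, hp⟩ := exists_ne_zero x.1 x.2.2.1
    refine ⟨{y | y.1 p ≠ 0}, ?_, ?_⟩
    · apply IsOpen.mem_nhds _ hp
      exact isOpen_ne_fun (cont_coord G σ _) continuous_const
    · rintro g ⟨_, ⟨y, hy, rfl⟩, hy2⟩
      have := y.2.2.2.2 p (p.1, p.2 + g) hy hy2
      rw [h0] at this
      have h5 : ∀ a g : ZMod 2, a + (a + g) = 0 → g = 0 := by decide
      exact h5 _ _ this

omit hadd in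
theorem joined (hs : ∀ u v, σ u v = σ v u) (p q : V × ZMod 2) (c : V) (hp : G.Adj c p.1)
    (hq : G.Adj c q.1) (hpq : p.2 + q.2 = σ p.1 q.1) :
    JoinedIn (cov G σ) (Pi.single p 1) (Pi.single q 1) := by
  apply JoinedIn.of_segment_subset
  rintro x ⟨s, t, hs0, ht0, hst, rfl⟩
  have hsupp : ∀ r, (s • (Pi.single p 1 : V × ZMod 2 → ℝ)
      + t • (Pi.single q 1 : V × ZMod 2 → ℝ)) r ≠ 0 → r = p ∨ r = q := by
    intro r hr
    by_contra hc
    push Not at hc
    simp [hc.1, hc.2] at hr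
  have h5 : ∀ a : ZMod 2, a + a = 0 := by decide
  refine ⟨fun r => ?_, ?_, ⟨c, fun r hr => ?_⟩, fun r r' hr hr' => ?_⟩
  · simp only [Pi.add_apply, Pi.smul_apply, smul_eq_mul, Pi.single_apply]
    split_ifs <;> simp [hs0, ht0, add_nonneg]
  · simp [Finset.sum_add_distrib, ← Finset.mul_sum, hst]
  · rcases hsupp r hr with rfl | rfl <;> assumption
  · rcases hsupp r hr with rfl | rfl <;> rcases hsupp r' hr' with rfl | rfl
    · rw [h5, h0]
    · exact hpq
    · rw [add_comm, hs]; exact hpq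
    · rw [h5, h0]

theorem not_conn (hs : ∀ u v, σ u v = σ v u) (u v w c1 c2 c3 : V)
    (a1 : G.Adj c1 u) (a2 : G.Adj c1 v) (a3 : G.Adj c2 v) (a4 : G.Adj c2 w)
    (a5 : G.Adj c3 w) (a6 : G.Adj c3 u) (h : σ u v + σ v w + σ w u = 1) :
    ¬ IsConn (nbhdReal G) 1 := by
  intro hc
  have j1 := joined G σ h0 hs (u, 0) (v, σ u v) c1 a1 a2 (by simp)
  have j2 := joined G σ h0 hs (v, σ u v) (w, σ u v + σ v w) c2 a3 a4 (by
    have : ∀ a b : ZMod 2, a + (a + b) = b := by decide
    exact this _ _)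
  have j3 := joined G σ h0 hs (w, σ u v + σ v w) (u, 1) c3 a5 a6 (by
    have : ∀ a b : ZMod 2, a + b = 1 → a + 1 = b := by decide
    exact this _ _ h)
  have j := (j1.trans j2).trans j3
  obtain ⟨Γ⟩ := j.joined_subtype
  set e0 : cov G σ := ⟨_, j.source_mem⟩
  set e1 : cov G σ := ⟨_, j.target_mem⟩
  have hp : proj G σ e1 = proj G σ e0 := by
    apply Subtype.ext
    funext z
    show (Pi.single (u, 1) 1 : V × ZMod 2 → ℝ) (z, 0) + (Pi.single (u, 1) 1 : V × ZMod 2 → ℝ) (z, 1)
      = (Pi.single (u, 0) 1 : V × ZMod 2 → ℝ) (z, 0) + (Pi.single (u, 0) 1 : V × ZMod 2 → ℝ) (z, 1)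
    simp [Pi.single_apply]
  have hsub : Subsingleton (FundamentalGroup (nbhdReal G) (proj G σ e0)) :=
    have := hc.2 1 le_rfl (proj G σ e0)
    HomotopyGroup.pi1EquivFundamentalGroup.symm.subsingleton
  let γ : Path (proj G σ e0) (proj G σ e0) := (Γ.map (continuous_proj G σ)).cast rfl hp.symm
  have hh : γ.Homotopic (Path.refl _) := by
    have := hsub.elim (FundamentalGroup.fromPath (Path.Homotopic.Quotient.mk γ))
      (FundamentalGroup.fromPath (Path.Homotopic.Quotient.mk (Path.refl _)))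
    exact Path.Homotopic.Quotient.eq.1 this
  have h2 : (Γ.toContinuousMap).HomotopicRel (ContinuousMap.const _ e0) {0, 1} := by
    rw [(isCov G σ h0 hadd).homotopicRel_iff_comp ⟨0, by simp, by simp⟩]
    exact hh
  have h3 := h2.fst_eq_snd (x := 1) (by simp)
  have h4 : e1 = e0 := by simpa using h3
  have h5 := congrFun (congrArg Subtype.val h4) (u, 0)
  simp [e0, e1] at h5

end cover

section warm
variable {V : Type} (G : SimpleGraph V) {d : ℕ}

/-- values reachable at the root given agreement at depth `j` -/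
def reach : ℕ → (List (Fin d) → V) → Set V
  | 0, φ => {φ []}
  | j + 1, φ => {v | ∀ i, ∃ u ∈ reach j (fun m => φ (i :: m)), G.Adj v u}

theorem hom_shift {φ : List (Fin d) → V} (h : IsTreeHom G φ) (i : Fin d) :
    IsTreeHom G (fun m => φ (i :: m)) := fun l j => h (i :: l) j

theorem reach_spec (j : ℕ) : ∀ φ : List (Fin d) → V, IsTreeHom G φ → ∀ a ∈ reach G j φ,
    ∃ ψ : List (Fin d) → V, IsTreeHom G ψ ∧ (∀ l : List (Fin d), l.length = j → ψ l = φ l) ∧
      ψ [] = a := by
  induction j with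
  | zero =>
    intro φ h a ha
    exact ⟨φ, h, fun _ _ => rfl, (Set.mem_singleton_iff.1 ha).symm⟩
  | succ j ih =>
    intro φ h a ha
    have : ∀ i, ∃ ψ : List (Fin d) → V, IsTreeHom G ψ ∧
        (∀ l : List (Fin d), l.length = j → ψ l = φ (i :: l)) ∧ G.Adj a (ψ []) := by
      intro i
      obtain ⟨u, hu, hau⟩ := ha i
      obtain ⟨ψ, h1, h2, h3⟩ := ih _ (hom_shift G h i) u hu
      exact ⟨ψ, h1, h2, h3 ▸ hau⟩
    choose Ψ h1 h2 h3 using this
    refine ⟨fun l => match l with | [] => a | i :: m => Ψ i m, ?_, ?_, rfl⟩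
    · intro l i
      cases l with
      | nil => exact h3 i
      | cons k m => exact h1 k m i
    · intro l hl
      cases l with
      | nil => simp at hl
      | cons k m => exact h2 k m (by simpa using hl)

end warm

abbrev W := Fin 4 × Fin 4
abbrev R : SimpleGraph W := (⊤ : SimpleGraph (Fin 4)) □ (⊤ : SimpleGraph (Fin 4))

def adjB (p q : W) : Bool := (p.1 != q.1 && p.2 == q.2) || (p.2 != q.2 && p.1 == q.1)

theorem adj_iff (p q : W) : R.Adj p q ↔ adjB p q = true := by
  simp [SimpleGraph.boxProd_adj, adjB]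

instance : DecidableRel R.Adj := fun p q => decidable_of_iff _ (adj_iff p q).symm

theorem f1 : ∀ a b : W, 2 ≤ (Finset.univ.filter fun v => adjB v a && adjB v b).card := by
  decide +kernel
theorem f2 : ∀ a b : W, a ≠ b → 10 ≤ (Finset.univ.filter fun v => adjB v a || adjB v b).card := by
  decide +kernel
theorem f3 : ∀ a b c : W, a ≠ b → a ≠ c → b ≠ c →
    12 ≤ (Finset.univ.filter fun v => adjB v a || adjB v b || adjB v c).card := by
  decide +kernel
theorem f4 : ∀ a : W, 6 ≤ (Finset.univ.filter fun v => adjB v a).card := by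
  decide +kernel
theorem adjB_comm : ∀ a b : W, adjB a b = adjB b a := by decide +kernel

def nb (S : Set W) : Set W := {v | ∃ u ∈ S, R.Adj v u}

theorem inter_card (A B : Set W) : A.ncard + B.ncard ≤ (A ∩ B).ncard + 16 := by
  have h1 := Set.ncard_union_add_ncard_inter A B
  have h2 : (A ∪ B).ncard ≤ 16 := by
    have := Set.ncard_le_ncard (Set.subset_univ (A ∪ B)) (Set.toFinite _)
    simpa [Set.ncard_univ] using this
  omega

theorem le_of_sub (s : Finset W) (A : Set W) (h : ∀ v ∈ s, v ∈ A) : s.card ≤ A.ncard := by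
  rw [← Set.ncard_coe_finset]
  exact Set.ncard_le_ncard h (Set.toFinite _)

theorem n2 (S : Set W) (h : 2 ≤ S.ncard) : 10 ≤ (nb S).ncard := by
  obtain ⟨a, b, ha, hb, hab⟩ := (Set.one_lt_ncard_iff (Set.toFinite S)).1 h
  refine (f2 a b hab).trans (le_of_sub _ _ fun v hv => ?_)
  simp only [Finset.mem_filter, Finset.mem_univ, true_and, Bool.or_eq_true] at hv
  rcases hv with hv | hv
  · exact ⟨a, ha, (adj_iff _ _).2 hv⟩
  · exact ⟨b, hb, (adj_iff _ _).2 hv⟩

theorem n3 (S : Set W) (h : 3 ≤ S.ncard) : 12 ≤ (nb S).ncard := by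
  obtain ⟨a, b, c, ha, hb, hc, hab, hac, hbc⟩ := (Set.two_lt_ncard_iff (Set.toFinite S)).1 h
  refine (f3 a b c hab hac hbc).trans (le_of_sub _ _ fun v hv => ?_)
  simp only [Finset.mem_filter, Finset.mem_univ, true_and, Bool.or_eq_true] at hv
  rcases hv with (hv | hv) | hv
  · exact ⟨a, ha, (adj_iff _ _).2 hv⟩
  · exact ⟨b, hb, (adj_iff _ _).2 hv⟩
  · exact ⟨c, hc, (adj_iff _ _).2 hv⟩

theorem compl_card (A : Set W) : A.ncard + Aᶜ.ncard = 16 := by
  rw [Set.ncard_add_ncard_compl]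
  simp

theorem n8 (S : Set W) (h : 8 ≤ S.ncard) : 15 ≤ (nb S).ncard := by
  by_contra hc
  have h1 := compl_card (nb S)
  have h2 := n2 (nb S)ᶜ (by omega)
  have h3 : nb (nb S)ᶜ ⊆ Sᶜ := by
    rintro v ⟨u, hu, huv⟩ hv
    exact hu ⟨v, hv, huv.symm⟩
  have h4 := Set.ncard_le_ncard h3 (Set.toFinite _)
  have h5 := compl_card S
  omega

theorem n14 (S : Set W) (h : 14 ≤ S.ncard) (v : W) : v ∈ nb S := by
  by_contra hc
  have h1 := (f4 v).trans (le_of_sub _ Sᶜ fun u hu => by
    simp only [Finset.mem_filter, Finset.mem_univ, true_and] at hu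
    intro hS
    exact hc ⟨u, hS, ((adj_iff _ _).2 hu).symm⟩)
  have h5 := compl_card S
  omega

theorem reach_succ (j : ℕ) (φ : List (Fin 2) → W) : reach R (j + 1) φ =
    nb (reach R j fun m => φ (0 :: m)) ∩ nb (reach R j fun m => φ (1 :: m)) := by
  ext v
  simp [reach, nb, Fin.forall_fin_two]

theorem r1 (φ : List (Fin 2) → W) : 2 ≤ (reach R 1 φ).ncard := by
  refine (f1 (φ [0]) (φ [1])).trans (le_of_sub _ _ fun v hv => ?_)
  simp only [Finset.mem_filter, Finset.mem_univ, true_and, Bool.and_eq_true] at hv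
  rw [reach_succ]
  exact ⟨⟨_, rfl, (adj_iff _ _).2 hv.1⟩, ⟨_, rfl, (adj_iff _ _).2 hv.2⟩⟩

theorem r2 (φ : List (Fin 2) → W) : 4 ≤ (reach R 2 φ).ncard := by
  rw [reach_succ]
  have := inter_card (nb (reach R 1 fun m => φ (0 :: m))) (nb (reach R 1 fun m => φ (1 :: m)))
  have h1 := n2 _ (r1 fun m => φ (0 :: m))
  have h2 := n2 _ (r1 fun m => φ (1 :: m))
  omega

theorem r3 (φ : List (Fin 2) → W) : 8 ≤ (reach R 3 φ).ncard := by
  rw [reach_succ]
  have := inter_card (nb (reach R 2 fun m => φ (0 :: m))) (nb (reach R 2 fun m => φ (1 :: m)))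
  have h1 := n3 _ (le_trans (by norm_num) (r2 fun m => φ (0 :: m)))
  have h2 := n3 _ (le_trans (by norm_num) (r2 fun m => φ (1 :: m)))
  omega

theorem r4 (φ : List (Fin 2) → W) : 14 ≤ (reach R 4 φ).ncard := by
  rw [reach_succ]
  have := inter_card (nb (reach R 3 fun m => φ (0 :: m))) (nb (reach R 3 fun m => φ (1 :: m)))
  have h1 := n8 _ (r3 fun m => φ (0 :: m))
  have h2 := n8 _ (r3 fun m => φ (1 :: m))
  omega

theorem r5 (φ : List (Fin 2) → W) (v : W) : v ∈ reach R 5 φ := by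
  rw [reach_succ]
  exact ⟨n14 _ (r4 _) v, n14 _ (r4 _) v⟩

theorem warm4 : IsWarm R 4 := by
  rintro φ hφ ⟨a, ha⟩
  exact ha 5 (by norm_num) (reach_spec R 5 φ hφ a (r5 φ a))

def tab : List ℕ :=
  [0, 13104, 21840, 39312, 238, 52242, 43540, 26136, 3598, 49602, 41380, 24936, 57358, 7362,
    6820, 5736]

def sg (p q : W) : ZMod 2 :=
  if (tab.getD (4 * p.1.1 + p.2.1) 0).testBit (4 * q.1.1 + q.2.1) then 1 else 0

theorem s0 : ∀ u, sg u u = 0 := by decide +kernel
theorem s1 : ∀ u v, sg u v = sg v u := by decide +kernel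
theorem s2 : ∀ c u, adjB c u → ∀ v, adjB c v → ∀ w, adjB c w → sg u v + sg u w = sg v w := by
  decide +kernel

theorem not_conn1 : ¬ IsConn (nbhdReal R) 1 :=
  not_conn R sg s0
    (fun c u v w h1 h2 h3 => s2 c u ((adj_iff _ _).1 h1) v ((adj_iff _ _).1 h2) w
      ((adj_iff _ _).1 h3)) s1 (0, 0) (0, 1) (1, 0) (0, 2) (1, 1) (2, 0)
    (by decide) (by decide) (by decide) (by decide) (by decide) (by decide) (by decide +kernel)

theorem main : conn (nbhdReal R) + 3 < warmth R := by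
  have h1 : conn (nbhdReal R) ≤ 0 := by
    apply sSup_le
    rintro r (hr | ⟨k, hk, rfl⟩)
    · rw [Set.mem_singleton_iff.1 hr]
      exact EReal.coe_nonpos.2 (show (-1 : ℝ) ≤ 0 by norm_num)
    · have : k = 0 := by
        by_contra h0
        exact not_conn1 ⟨hk.1, fun i hi => hk.2 i (by omega)⟩
      simp [this]
  have h2 : ((4 : ℕ) : EReal) ≤ warmth R := le_sSup ⟨4, by norm_num, warm4, rfl⟩
  calc conn (nbhdReal R) + 3 ≤ 0 + 3 := by gcongr
    _ < ((4 : ℕ) : EReal) := by
      rw [zero_add]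
      exact_mod_cast (show ((3 : ℝ) : EReal) < ((4 : ℝ) : EReal) by
        exact_mod_cast (by norm_num : (3 : ℝ) < 4))
    _ ≤ warmth R := h2

end Pool.Agent.H34.Warm
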