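import Pool.Agent.H34.WeakPDefs

namespace Pool.Agent.H34.WeakP
open Cardinal

/-- Weak `P_{κ⁺}`-point. -/
def WeakPk (κ : Cardinal) (u : Ultrafilter ℕ) : Prop :=
  Free u ∧ ∀ D : Set (Ultrafilter ℕ), #D ≤ κ → (∀ v ∈ D, Free v ∧ v ≠ u) → u ∉ closure D

/-- The iterated product `v₀ ⊗ ⋯ ⊗ vₙ`, on tuples written as lists. -/
def prodL {K : Type} : List (Ultrafilter K) → Ultrafilter (List K)
  | [] => pure []
  | v :: l => v.bind fun x => (prodL l).map (x :: ·)

end Pool.Agent.H34.WeakP
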