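import Pool.Agent.H34.WeakPDefs

namespace Pool.Agent.H34.WeakP
open Set Filter Topology

theorem col (A : Set ℕ) (g μ : ℕ → ℕ) (h : ∀ x ∈ A, μ (g x) < μ x) :
    ∃ c : ℕ → Prop, ∀ x ∈ A, (c x ↔ ¬ c (g x)) :=
  ⟨(measure μ).wf.fix fun x r => ∀ q : x ∈ A, ¬ r (g x) (h x q), fun x q => by
    rw [WellFounded.fix_eq]; exact ⟨fun r => r q, fun r _ => r⟩⟩

theorem katetov {u : Ultrafilter ℕ} {f : ℕ → ℕ} (h : u.map f = u) : ∀ᶠ x in u, f x = x := by
  have k : ∀ c : ℕ → Prop, ¬ ∀ᶠ x in u, (c x ↔ ¬ c (f x)) := fun c q => by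
    have e : (∀ᶠ x in u, c (f x)) ↔ ∀ᶠ x in u, c x := by
      conv_rhs => rw [← h]
      rfl
    exact iff_not_self ((eventually_congr q).trans (Ultrafilter.eventually_not.trans e.not))
  by_contra c
  rcases Ultrafilter.eventually_or.1 ((Ultrafilter.eventually_not.2 c).mono
    fun x q => lt_or_gt_of_ne q) with q | q
  · obtain ⟨c, hc⟩ := col {x | f x < x} f id fun _ r => r
    exact k c (q.mono hc)
  · choose c hc using fun N => col {x | x ≤ N ∧ x < f x} f (N + 1 - ·) fun x r => by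
      have := r.1; have := r.2; omega
    exact k (fun x => ∀ᶠ N in hyperfilter ℕ, c N x) (q.mono fun x r =>
      (eventually_congr (((eventually_ge_atTop x).filter_mono Nat.hyperfilter_le_atTop).mono
        fun N e => hc N x ⟨e, r⟩)).trans Ultrafilter.eventually_not)

theorem mem_bind {u : Ultrafilter ℕ} {D : ℕ → Ultrafilter ℕ} {Z : Set ℕ} :
    Z ∈ u.bind D ↔ ∀ᶠ i in u, Z ∈ D i := Iff.rfl

theorem cl_iff {u : Ultrafilter ℕ} {D : Set (Ultrafilter ℕ)} :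
    u ∈ closure D ↔ ∀ Z ∈ u, ∃ v ∈ D, Z ∈ v :=
  ultrafilterBasis_is_basis.mem_closure_iff.trans ⟨fun h Z q => (h _ ⟨Z, rfl⟩ q).imp
    fun _ r => ⟨r.2, r.1⟩, by rintro h _ ⟨Z, rfl⟩ q; exact (h Z q).imp fun _ r => ⟨r.2, r.1⟩⟩

theorem bind_cl {u : Ultrafilter ℕ} (D : ℕ → Ultrafilter ℕ) {G : Set ℕ} (h : G ∈ u) :
    u.bind D ∈ closure (D '' G) :=
  cl_iff.2 fun _ q => ((mem_bind.1 q).and h).exists.elim fun i r => ⟨_, ⟨i, r.2, rfl⟩, r.1⟩

theorem map_bind {u : Ultrafilter ℕ} {D : ℕ → Ultrafilter ℕ} {π : ℕ → ℕ}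
    (h : ∀ᶠ i in u, (D i).map π = pure i) : (u.bind D).map π = u :=
  Ultrafilter.ext fun Z => eventually_congr (p := fun i => Z ∈ (D i).map π) (q := (· ∈ Z))
    (h.mono fun i q => by rw [q]; rfl)

theorem frolik {u u' : Ultrafilter ℕ} {D E : ℕ → Ultrafilter ℕ} (e : u.bind D = u'.bind E)
    {G G' : Set ℕ} (hG : G ∈ u) (hG' : G' ∈ u') : (∀ᶠ i in u, D i ∈ closure (E '' G')) ∨
      ∀ᶠ j in u', E j ∈ closure (D '' G) := by
  by_contra! c
  have : ∀ (D E : ℕ → Ultrafilter ℕ) (G : Set ℕ) i, ∃ A, (D i ∉ closure (E '' G) → A ∈ D i) ∧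
      ∀ j ∈ G, A ∉ E j := fun D E G i => by
    by_cases q : D i ∈ closure (E '' G)
    · exact ⟨∅, fun r => absurd q r, fun j _ => Ultrafilter.empty_notMem⟩
    · rw [cl_iff] at q
      push Not at q
      exact q.imp fun A r => ⟨fun _ => r.1, fun j s => r.2 _ ⟨j, s, rfl⟩⟩
  choose A A1 A2 using this D E G'
  choose B B1 B2 using this E D G
  have h1 : {n | ∃ i, n ∈ A i ∧ ∀ j ≤ i, n ∉ B j} ∈ u.bind D := (c.1.and hG).mono fun i q =>
    mem_of_superset (inter_mem (A1 i q.1) ((biInter_mem (finite_le_nat i)).2 fun j _ =>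
      Ultrafilter.compl_mem_iff_notMem.2 (B2 j i q.2))) fun n r => ⟨i, r.1, by simpa using r.2⟩
  have h2 : {n | ∃ j, n ∈ B j ∧ ∀ i ≤ j, n ∉ A i} ∈ u'.bind E := (c.2.and hG').mono fun i q =>
    mem_of_superset (inter_mem (B1 i q.1) ((biInter_mem (finite_le_nat i)).2 fun j _ =>
      Ultrafilter.compl_mem_iff_notMem.2 (A2 j i q.2))) fun n r => ⟨i, r.1, by simpa using r.2⟩
  obtain ⟨n, ⟨i, p, p'⟩, j, q, q'⟩ := Ultrafilter.nonempty_of_mem (inter_mem (e ▸ h1) h2)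
  exact (le_total i j).elim (fun r => q' i r p) fun r => p' j r q

theorem rudin {u u' : Ultrafilter ℕ} {D E : ℕ → Ultrafilter ℕ} (e : u.bind D = u'.bind E)
    {G G' : Set ℕ} (hG : G ∈ u) (hG' : G' ∈ u') {π π' : ℕ → ℕ} (h : ∀ i ∈ G, (D i).map π = pure i)
    (h' : ∀ j ∈ G', (E j).map π' = pure j) (hu : Free u) (hu' : WeakP u')
    (c : ∀ᶠ i in u, D i ∈ closure (E '' G')) : RK u' u ∧ ∃ i ∈ G, ∃ j ∈ G', D i = E j := by
  have h1 : ∀ v ∈ closure (E '' G'), G' ∈ v.map π' ∧ (v.map π').bind E = v := fun v q => by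
    refine ⟨by_contra fun r => ?_, Ultrafilter.coe_le_coe.1 fun Z hZ => by_contra fun r => ?_⟩
    · obtain ⟨_, ⟨j, s, rfl⟩, t⟩ := cl_iff.1 q _ (Ultrafilter.compl_mem_iff_notMem.2 r)
      exact (h' j s ▸ t : G'ᶜ ∈ (pure j : Ultrafilter ℕ)) s
    · obtain ⟨_, ⟨j, s, rfl⟩, t⟩ := cl_iff.1 q _ (inter_mem hZ
        (Ultrafilter.compl_mem_iff_notMem.2 (r : π' ⁻¹' {j | Z ∈ E j} ∉ v)))
      have t' : {j | Z ∈ E j}ᶜ ∈ (E j).map π' :=
        mem_of_superset (f := (E j : Filter ℕ)) t inter_subset_right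
      rw [h' j s] at t'
      exact t' (mem_of_superset t inter_subset_left)
  have h2 : u.bind (fun i => (D i).map π') = u' := (congrArg (Ultrafilter.map π') e).trans
    (map_bind (mem_of_superset hG' h'))
  by_cases q : ∀ᶠ i in u, Free ((D i).map π')
  · refine absurd (h2 ▸ bind_cl _ ((c.and q).and hG)) (hu'.2 _ ((to_countable _).image _) ?_)
    rintro _ ⟨i, r, rfl⟩
    refine ⟨r.1.2, fun s => hu i ?_⟩
    rw [← map_bind (mem_of_superset hG h), e, ← h i r.2, ← (h1 _ r.1.1).2, show (D i).map π' = u' from s]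
  have : ∀ i, ∃ j, ¬ Free ((D i).map π') → (D i).map π' = pure j := fun i => by
    by_cases r : Free ((D i).map π')
    · exact ⟨0, fun s => absurd r s⟩
    · exact (not_forall.1 r).imp fun _ s _ => not_not.1 s
  choose σ hσ using this
  rw [← Ultrafilter.eventually_not] at q
  refine ⟨⟨σ, h2 ▸ Ultrafilter.ext fun Z => eventually_congr (p := fun i => Z ∈ (D i).map π')
    (q := fun i => σ i ∈ Z) (q.mono fun i r => by rw [hσ i r]; rfl)⟩, ?_⟩
  obtain ⟨i, ⟨r, s⟩, t⟩ := ((c.and q).and hG).exists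
  have := h1 _ r
  rw [hσ i s] at this
  exact ⟨i, t, σ i, this.1, this.2.symm⟩

theorem snd_tens (u v : Ultrafilter ℕ) : (tens u v).map (fun n => n.unpair.2) = v :=
  Ultrafilter.ext fun Z => by
    change (∀ᶠ i in u, (fun n => (Nat.pair i n).unpair.2) ⁻¹' Z ∈ v) ↔ _
    simp

theorem Iso.refl (u : Ultrafilter ℕ) : Iso u u := ⟨⟨id, rfl⟩, id, rfl⟩

theorem RK.trans {u v w : Ultrafilter ℕ} : RK u v → RK v w → RK u w := by
  rintro ⟨f, rfl⟩ ⟨g, rfl⟩; exact ⟨f ∘ g, rfl⟩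

theorem RK.free {u v : Ultrafilter ℕ} (h : RK u v) (hu : Free u) : Free v := by
  rintro n rfl; obtain ⟨f, rfl⟩ := h; exact hu _ rfl

theorem decomp {p u w : Ultrafilter ℕ} (h : Iso p (tens u w)) : ∃ (E : ℕ → Ultrafilter ℕ) (π : ℕ → ℕ),
    p = u.bind E ∧ ∀ᶠ j in u, (E j).map π = pure j ∧ Iso (E j) w := by
  obtain ⟨⟨g, rfl⟩, f, e⟩ := h
  have k : ∀ᶠ j in u, ∀ᶠ n in w, f (g (Nat.pair j n)) = Nat.pair j n :=
    katetov (u := tens u w) (f := f ∘ g) e.symm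
  refine ⟨fun j => w.map (g ∘ Nat.pair j), fun n => (f n).unpair.1, rfl,
    k.mono fun j q => ⟨?_, ⟨_, rfl⟩, fun n => (f n).unpair.2, ?_⟩⟩
  · exact Ultrafilter.coe_le_coe.1 (le_pure_iff.2 (show ∀ᶠ n in w,
      (f (g (Nat.pair j n))).unpair.1 = j from q.mono fun n r => by simp [r]))
  · exact Ultrafilter.coe_injective ((Filter.map_congr (show ∀ᶠ n in w,
      (f (g (Nat.pair j n))).unpair.2 = id n from q.mono fun n r => by simp [r])).trans
        Filter.map_id).symm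

theorem prime {a u w : Ultrafilter ℕ} (ha : WeakP a) (hu : Free u) (hw : Free w) :
    ¬ Iso a (tens u w) := fun h => by
  obtain ⟨E, π, e, q⟩ := decomp h
  refine ha.2 _ ((to_countable _).image E) ?_ (e ▸ bind_cl E q)
  rintro _ ⟨j, r, rfl⟩
  exact ⟨r.2.2.free hw, fun s => hu j (by rw [← map_bind (q.mono fun _ r => r.1), ← e, ← s, r.1])⟩

theorem cancel {u u' v w : Ultrafilter ℕ} (hu : WeakP u) (hu' : WeakP u')
    (h : Iso (tens u v) (tens u' w)) : (RK u u' ∨ RK u' u) ∧ Iso v w := by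
  obtain ⟨D, π, d, p⟩ := decomp (Iso.refl (tens u v))
  obtain ⟨E, π', e, q⟩ := decomp h
  rcases frolik (d.symm.trans e) p q with c | c
  · obtain ⟨r, i, s, j, t, k⟩ := rudin (d.symm.trans e) p q (fun _ r => r.1) (fun _ r => r.1) hu.1 hu' c
    exact ⟨Or.inr r, s.2.2.trans (k ▸ t.2.1), t.2.2.trans (k ▸ s.2.1)⟩
  · obtain ⟨r, i, s, j, t, k⟩ := rudin (e.symm.trans d) q p (fun _ r => r.1) (fun _ r => r.1) hu'.1 hu c
    exact ⟨Or.inl r, t.2.2.trans (k ▸ s.2.1), s.2.2.trans (k ▸ t.2.1)⟩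

theorem free_prod : ∀ (l : List (Ultrafilter ℕ)) (a : Ultrafilter ℕ), (∀ b ∈ a :: l, Free b) →
    Free (prod a l)
  | [], a, h => h a List.mem_cons_self
  | b :: l, a, h => RK.free ⟨_, (snd_tens a _).symm⟩
    (free_prod l b fun c q => h c (List.mem_cons_of_mem _ q))

theorem main {A : Set (Ultrafilter ℕ)} (hA : ∀ u ∈ A, WeakP u)
    (hI : ∀ u ∈ A, ∀ v ∈ A, u ≠ v → ¬ RK u v) : ∀ (l m : List (Ultrafilter ℕ)) (a b : Ultrafilter ℕ),
      (∀ c ∈ a :: l, c ∈ A) → (∀ c ∈ b :: m, c ∈ A) → Iso (prod a l) (prod b m) → a :: l = b :: m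
  | [], [], a, b, p, q, h => by
    rw [by_contra fun c : a ≠ b => hI a (p a List.mem_cons_self) b (q b List.mem_cons_self) c h.1]
  | [], d :: m, a, b, p, q, h => absurd h (prime (hA a (p a List.mem_cons_self))
    (hA b (q b List.mem_cons_self)).1 (free_prod m d fun c r => (hA c (q c (List.mem_cons_of_mem _ r))).1))
  | c :: l, [], a, b, p, q, h => absurd ⟨h.2, h.1⟩ (prime (hA b (q b List.mem_cons_self))
    (hA a (p a List.mem_cons_self)).1 (free_prod l c fun c r => (hA c (p c (List.mem_cons_of_mem _ r))).1))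
  | c :: l, d :: m, a, b, p, q, h => by
    have ha := p a List.mem_cons_self
    have hb := q b List.mem_cons_self
    obtain ⟨r, s⟩ := cancel (hA a ha) (hA b hb) h
    rw [main hA hI l m c d (fun c r => p c (List.mem_cons_of_mem _ r))
      (fun c r => q c (List.mem_cons_of_mem _ r)) s, by_contra fun e : a ≠ b =>
        r.elim (hI a ha b hb e) (hI b hb a ha e.symm)]

end Pool.Agent.H34.WeakP
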