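import Mathlib

namespace Pool.Agent.H34.WeakP

/-- Rudin-Keisler preorder. -/
def RK (u v : Ultrafilter ℕ) : Prop := ∃ f : ℕ → ℕ, u = v.map f

/-- Isomorphism of ultrafilters. -/
def Iso (u v : Ultrafilter ℕ) : Prop := RK u v ∧ RK v u

/-- Nonprincipal. -/
def Free (u : Ultrafilter ℕ) : Prop := ∀ n, u ≠ pure n

/-- Weak P-point. -/
def WeakP (u : Ultrafilter ℕ) : Prop :=
  Free u ∧ ∀ D : Set (Ultrafilter ℕ), D.Countable → (∀ v ∈ D, Free v ∧ v ≠ u) → u ∉ closure D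

/-- Tensor product, moved to `ℕ` by the pairing bijection. -/
def tens (u v : Ultrafilter ℕ) : Ultrafilter ℕ := u.bind fun i => v.map (Nat.pair i)

/-- The product `a ⊗ (b₁ ⊗ (b₂ ⊗ ...))`. -/
def prod : Ultrafilter ℕ → List (Ultrafilter ℕ) → Ultrafilter ℕ
  | a, [] => a
  | a, b :: l => tens a (prod b l)

end Pool.Agent.H34.WeakP
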