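import Pool.Agent.H34.WeakP

namespace Pool.Agent.H34.WeakP
open Set Filter Topology
open Cardinal hiding univ

/-- The countable index set of Kunen's matrix. -/
abbrev Om : Type := Σ k : ℕ, Set (Fin k) → Set (Set (Fin k))

/-- Trace. -/
def tr (k : ℕ) (a : Set ℕ) : Set (Fin k) := Fin.val ⁻¹' a

theorem tr_ne {a b : Set ℕ} (h : a ≠ b) : ∀ᶠ k in atTop, tr k a ≠ tr k b := by
  obtain ⟨m, hm⟩ := not_forall.1 (mt Set.ext h)
  exact (eventually_gt_atTop m).mono fun k q e => hm (Set.ext_iff.1 e ⟨m, q⟩)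

theorem fin_lev (K : ℕ) : {w : Om | w.1 < K}.Finite :=
  ((finite_lt_nat K).biUnion fun k _ => finite_range (Sigma.mk k)).subset
    fun w q => mem_biUnion q ⟨w.2, rfl⟩

variable (e : ℕ ≃ Om)

/-- Kunen's matrix. -/
def X (β α : Set ℕ) (n : ℕ) : Set ℕ :=
  {m | tr (e m).1 α ∈ (e m).2 (tr _ β) ∧ ((e m).2 (tr _ β)).ncard ≤ n}

/-- Basic sets of a row. -/
def Row (β y : Set ℕ) : Prop := ∃ (σ : Finset (Set ℕ)) (n : ℕ), σ.card ≤ n ∧ y = ⋂ α ∈ σ, X e β α n

/-- Conditions avoiding the rows in `J`. -/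
inductive Cond : Set (Set ℕ) → Set ℕ → Prop
  | top (J) : Cond J univ
  | cons {J β y Y} : β ∉ J → Row e β y → Cond (insert β J) Y → Cond J (y ∩ Y)

/-- Independence modulo a filter. -/
def Ind (F : Filter ℕ) (J : Set (Set ℕ)) : Prop := ∀ Y, Cond e J Y → ∀ Z ∈ F, (Y ∩ Z).Nonempty

variable {e}

theorem X_fin (β : Set ℕ) {σ : Finset (Set ℕ)} {n : ℕ} (h : σ.card = n + 1) :
    (⋂ α ∈ σ, X e β α n).Finite := by
  obtain ⟨K, hK⟩ := eventually_atTop.1 ((eventually_all_finset σ).2 fun a _ =>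
    (eventually_all_finset σ).2 fun b _ => show ∀ᶠ k in atTop, a ≠ b → tr k a ≠ tr k b from
      eventually_imp_distrib_left.2 tr_ne)
  refine ((fin_lev K).preimage e.injective.injOn).subset fun m q => (not_le (a := K)).1 fun c => ?_
  simp only [mem_iInter] at q
  obtain ⟨a, ha⟩ := Finset.card_pos.1 (by omega : 0 < σ.card)
  have := (ncard_le_ncard (s := tr (e m).1 '' σ) (by rintro _ ⟨b, r, rfl⟩; exact (q b r).1)).trans
    (q a ha).2
  rw [InjOn.ncard_image fun a p b r s => by_contra fun t => hK _ c a p b r t s,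
    ncard_coe_finset] at this
  omega

theorem Cond.mono {J J' : Set (Set ℕ)} {Y : Set ℕ} (h : Cond e J' Y) (s : J ⊆ J') : Cond e J Y := by
  induction h generalizing J with
  | top => exact .top _
  | cons p q _ ih => exact .cons (fun c => p (s c)) q (ih (insert_subset_insert s))

theorem Ind.mono {F : Filter ℕ} {J J' : Set (Set ℕ)} (h : Ind e F J) (s : J ⊆ J') : Ind e F J' :=
  fun Y q => h Y (q.mono s)

theorem ind_cofinite (J : Set (Set ℕ)) : Ind e cofinite J := by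
  classical
  have : ∀ J Y, Cond e J Y → ∃ s : Finset (Set ℕ), (∀ β ∈ s, β ∉ J) ∧ ∀ᶠ k in atTop,
      ∃ f : Set (Fin k) → Set (Set (Fin k)), ∀ f', (∀ β ∈ s, f' (tr k β) = f (tr k β)) →
        e.symm ⟨k, f'⟩ ∈ Y := fun J Y h => by
    induction h with
    | top => exact ⟨∅, by simp, Eventually.of_forall fun k => ⟨fun _ => ∅, fun _ _ => trivial⟩⟩
    | @cons J β y Y p q _ ih =>
      obtain ⟨s, s1, s2⟩ := ih
      obtain ⟨σ, n, h1, rfl⟩ := q
      refine ⟨insert β s, Finset.forall_mem_insert _ _ _ |>.2 ⟨p, fun b r c => s1 b r (Or.inr c)⟩,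
        (s2.and ((eventually_all_finset s).2 fun b r => tr_ne (a := b) (b := β) fun c =>
          s1 b r (Or.inl c))).mono fun k ⟨⟨f, hf⟩, ne⟩ => ⟨Function.update f (tr k β) (tr k '' σ),
          fun f' r => ⟨mem_iInter₂.2 fun a ha => ?_, hf f' fun b t => ?_⟩⟩⟩
      · have := r β (Finset.mem_insert_self _ _)
        rw [Function.update_self] at this
        rw [X, mem_setOf_eq, e.apply_symm_apply]
        dsimp only
        rw [this]
        exact ⟨mem_image_of_mem _ ha, (ncard_image_le σ.finite_toSet).trans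
          (by rwa [ncard_coe_finset])⟩
      · rw [r b (Finset.mem_insert_of_mem t), Function.update_of_ne (ne b t)]
  intro Y h Z hZ
  obtain ⟨s, -, s2⟩ := this J Y h
  obtain ⟨K, hK⟩ := ((mem_cofinite.1 hZ).image fun m => (e m).1).bddAbove
  obtain ⟨k, ⟨f, hf⟩, c⟩ := (s2.and (eventually_gt_atTop K)).exists
  exact ⟨_, hf f fun _ _ => rfl, by_contra fun q => c.not_ge (hK ⟨_, q, by simp⟩)⟩

theorem Ind.row {F : Filter ℕ} {J : Set (Set ℕ)} (h : Ind e F J) {β y : Set ℕ} (p : β ∉ J)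
    (q : Row e β y) : Ind e (F ⊓ 𝓟 y) (insert β J) := fun Y r Z hZ =>
  (h _ (.cons p q r) _ (mem_inf_principal.1 hZ)).imp fun _ s => ⟨s.1.2, s.2 s.1.1⟩

theorem Ind.decide {F : Filter ℕ} {J : Set (Set ℕ)} (h : Ind e F J) (A : Set ℕ) :
    Ind e (F ⊓ 𝓟 A) J ∨ ∃ s : Set (Set ℕ), s.Finite ∧ Ind e (F ⊓ 𝓟 Aᶜ) (J ∪ s) := by
  have : ∀ J Y, Cond e J Y → ∃ s : Set (Set ℕ), s.Finite ∧ ∀ F, Ind e F J →
      Ind e (F ⊓ 𝓟 Y) (J ∪ s) := fun J Y q => by
    induction q with
    | top => exact ⟨∅, finite_empty, by simp⟩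
    | @cons J β y Y p q _ ih =>
      obtain ⟨s, s1, s2⟩ := ih
      refine ⟨insert β s, s1.insert β, fun F r => ?_⟩
      rw [← inf_principal, ← inf_assoc, union_insert, ← insert_union]
      exact s2 _ (r.row p q)
  refine or_iff_not_imp_left.2 fun c => ?_
  simp only [Ind, not_forall] at c
  obtain ⟨Y, p, Z, q, r⟩ := c
  obtain ⟨s, s1, s2⟩ := this J Y p
  refine ⟨s, s1, fun W a V b => s2 F h W a V (le_inf inf_le_left (le_principal_iff.2 ?_) b)⟩
  exact mem_inf_principal.2 (mem_of_superset (mem_inf_principal.1 q) fun m t u v => r ⟨m, u, t v⟩)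

/-- Tasks. -/
abbrev Task : Type := Bool × ((ℕ → Set ℕ) ⊕ (ℕ → ℕ))

/-- A task is done. -/
def Done (F : Bool → Filter ℕ) : Task → Prop
  | (b, .inl A) => Antitone A → (∃ n, (A n)ᶜ ∈ F b) ∨ ∃ B : Set ℕ → Set ℕ, (∀ α, B α ∈ F b) ∧
      ∀ n (σ : Finset (Set ℕ)), σ.card = n + 1 → ((⋂ α ∈ σ, B α) \ A n).Finite
  | (b, .inr f) => ∃ W, f ⁻¹' W ∈ F b ∧ Wᶜ ∈ F (!b)

theorem step (t : Task) (F : Bool → Filter ℕ) (J : Set (Set ℕ)) :
    ∃ (G : Bool → Filter ℕ) (N : Set (Set ℕ)), G ≤ F ∧ N.Finite ∧ ((∀ b, F b ≤ cofinite) →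
      J ≠ univ → (∀ b, Ind e (F b) J) → (∀ b, Ind e (G b) (J ∪ N)) ∧ Done G t) := by
  classical
  by_cases h : (∀ b, F b ≤ cofinite) ∧ J ≠ univ ∧ ∀ b, Ind e (F b) J
  swap
  · exact ⟨F, ∅, le_rfl, finite_empty, fun p q r => absurd ⟨p, q, r⟩ h⟩
  obtain ⟨h0, h1, h2⟩ := h
  obtain ⟨β, hβ⟩ := (ne_univ_iff_exists_notMem _).1 h1
  suffices ∃ (P : Bool → Filter ℕ) (N : Set (Set ℕ)), N.Finite ∧
      (∀ b, Ind e (F b ⊓ P b) (J ∪ N)) ∧ Done (fun b => F b ⊓ P b) t from
    this.elim fun P ⟨N, a, b⟩ => ⟨_, N, fun _ => inf_le_left, a, fun _ _ _ => b⟩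
  have up : ∀ (b : Bool) (P Q : Filter ℕ) N, Ind e (F b ⊓ P) (J ∪ N) → Ind e (F (!b) ⊓ Q) (J ∪ N) →
      ∀ c, Ind e (F c ⊓ if c = b then P else Q) (J ∪ N) := fun b P Q N p q c => by
    cases b <;> cases c <;> assumption
  have tp : ∀ b N, Ind e (F b ⊓ ⊤) (J ∪ N) := fun b N => by
    simpa using (h2 b).mono subset_union_left
  obtain ⟨b, A | f⟩ := t
  · by_cases c : ∀ n, Ind e (F b ⊓ 𝓟 (A n)) J
    · by_cases an : Antitone A
      swap
      · exact ⟨⊤, ∅, finite_empty, fun b => tp b _, fun q => absurd q an⟩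
      refine ⟨_, {β}, finite_singleton _, up b (⨅ α, 𝓟 (⋂ n, A n ∪ X e β α n)) ⊤ _ ?_ (tp _ _),
        fun _ => Or.inr ⟨fun α => ⋂ n, A n ∪ X e β α n, fun α => mem_inf_of_right (by
          rw [if_pos rfl]; exact mem_iInf_of_mem α (mem_principal_self _)), fun n σ q =>
          (X_fin (e := e) β q).subset fun m r => mem_iInter₂.2 fun α p =>
            (mem_iInter.1 (mem_iInter₂.1 r.1 α p) n).resolve_left r.2⟩⟩
      intro Y p Z q
      obtain ⟨U, u, V, v, rfl⟩ := q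
      rw [iInf_eq_iInf_finset, mem_iInf_of_directed (directed_of_isDirected_le
        fun _ _ => biInf_mono)] at v
      obtain ⟨σ, v⟩ := v
      rw [iInf_principal_finset] at v
      refine (c σ.card).row hβ ⟨σ, _, le_rfl, rfl⟩ Y (by rwa [union_singleton] at p) _
        (mem_inf_principal.2 (mem_inf_principal.2 (mem_of_superset u fun m a b c => ⟨a, v ?_⟩)))
      refine mem_iInter₂.2 fun α r => mem_iInter.2 fun n => (le_total n σ.card).imp
        (fun s => an s b) fun s => ?_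
      exact (mem_iInter₂.1 c α r).imp_right fun t => t.trans s
    · obtain ⟨n, c⟩ := not_forall.1 c
      obtain ⟨s, s1, s2⟩ := ((h2 b).decide (A n)).resolve_left c
      exact ⟨_, s, s1, up b _ ⊤ _ s2 (tp _ _), fun _ => Or.inl ⟨n, mem_inf_of_right (by simp)⟩⟩
  have r1 : ∀ α, Row e β (X e β α 1) := fun α => ⟨{α}, 1, by simp, by simp⟩
  rcases (h2 b).decide (f ⁻¹' X e β ∅ 1) with c | ⟨s, s1, c⟩
  · refine ⟨_, {β}, finite_singleton _, up b _ (𝓟 (X e β ∅ 1)ᶜ) _ (c.mono subset_union_left)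
      fun Y p Z q => (h2 (!b)).row hβ (r1 univ) Y (by rwa [union_singleton] at p) Z ?_,
      X e β ∅ 1, mem_inf_of_right (by simp), mem_inf_of_right (by simp)⟩
    have := (X_fin (e := e) β (σ := {∅, univ}) (n := 1)
      (Finset.card_pair empty_ne_univ)).compl_mem_cofinite
    exact mem_inf_principal.2 (mem_of_superset (inter_mem (mem_inf_principal.1 q) (h0 _ this))
      fun m r t => r.1 fun u => r.2 (by simp [t, u]))
  · exact ⟨_, insert β s, s1.insert β, up b _ (𝓟 (X e β ∅ 1)) _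
      (c.mono (union_subset_union_right _ (subset_insert _ _)))
      (((h2 (!b)).row hβ (r1 ∅)).mono (by rw [union_insert]; gcongr; exact subset_union_left)),
      (X e β ∅ 1)ᶜ, mem_inf_of_right (by simp), mem_inf_of_right (by simp)⟩

theorem recur : ∃ u : Bool → Ultrafilter ℕ, (∀ b, (u b : Filter ℕ) ≤ cofinite) ∧
    ∀ t, ∃ G : Bool → Filter ℕ, (∀ b, (u b : Filter ℕ) ≤ G b) ∧ Done G t := by
  obtain ⟨e⟩ : Nonempty (ℕ ≃ Om) := by
    haveI : Infinite Om := Infinite.of_injective (fun k => (⟨k, fun _ => ∅⟩ : Om))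
      fun _ _ q => congrArg Sigma.fst q
    exact nonempty_equiv_of_countable
  obtain ⟨r, wo, hr⟩ := Cardinal.ord_eq Task
  choose G N G1 N1 hG using step (e := e)
  let L : (D : Set Task) → (D → (Bool → Filter ℕ) × Set (Set ℕ)) → Bool → Filter ℕ :=
    fun D g b => cofinite ⊓ ⨅ y, (g y).1 b
  let g : Task → (Bool → Filter ℕ) × Set (Set ℕ) := wo.wf.fix fun t g =>
    (G t (L {y | r y t} fun y => g y y.2) (⋃ y : {y | r y t}, (g y y.2).2),
      N t (L {y | r y t} fun y => g y y.2) (⋃ y : {y | r y t}, (g y y.2).2))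
  have hg : ∀ t, g t = (G t (L {y | r y t} fun y => g y) (⋃ y : {y | r y t}, (g y).2),
      N t (L {y | r y t} fun y => g y) (⋃ y : {y | r y t}, (g y).2)) := fun t => wo.wf.fix_eq _ t
  have g1 : ∀ t, (g t).1 ≤ L {y | r y t} fun y => g y := fun t => by rw [hg t]; exact G1 _ _ _
  have lim : ∀ D : Set Task, (∀ t ∈ D, ∀ y, r y t → y ∈ D) → (∀ t ∈ D, ∀ b, Ind e ((g t).1 b)
      ((⋃ y : {y | r y t}, (g y).2) ∪ (g t).2)) → ∀ b, Ind e (L D (fun y => g y) b)
      (⋃ y : D, (g y).2) := fun D d1 d2 b => by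
    rcases isEmpty_or_nonempty D with c | c
    · simpa [L] using ind_cofinite _
    rintro Y p _ ⟨U, u, V, v, rfl⟩
    have m : ∀ x y, r x y → (g y).1 b ≤ (g x).1 b := fun x y q =>
      (g1 y b).trans (inf_le_right.trans (iInf_le (fun y : {x | r x y} => (g y).1 b) ⟨x, q⟩))
    obtain ⟨t, v⟩ := (mem_iInf_of_directed (fun x y => by
      rcases trichotomous_of r x.1 y.1 with q | q | q
      exacts [⟨y, m _ _ q, le_rfl⟩, ⟨y, (congrArg (fun z => (g z).1 b) q).ge, le_rfl⟩, ⟨x, le_rfl, m _ _ q⟩]) _).1 v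
    exact (d2 t t.2 b).mono (union_subset (iUnion_subset fun y => subset_iUnion
      (fun y : D => (g y).2) ⟨y, d1 _ t.2 _ y.2⟩) (subset_iUnion (fun y : D => (g y).2) t)) Y p _
      (inter_mem ((g1 t b).trans inf_le_left u) v)
  have all : ∀ t, (∀ b, Ind e ((g t).1 b) ((⋃ y : {y | r y t}, (g y).2) ∪ (g t).2)) ∧
      Done (g t).1 t := fun t => by
    induction t using wo.wf.induction with
    | h t ih =>
      rw [hg t]
      refine hG _ _ _ (fun _ => inf_le_left) (fun c => ?_)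
        (lim _ (fun _ p _ q => trans_of r q p) fun y q => (ih y q).1)
      have := mk_iUnion_le_sum_mk (f := fun y : {y | r y t} => (g y).2)
      rw [c] at this
      refine (this.trans (sum_le_sum _ (fun _ => ℵ₀) fun y => ?_)).not_gt ?_
      · rw [hg]; exact (N1 _ _ _).lt_aleph0.le
      · have := card_typein_lt t hr
        simp only [sum_const', mk_univ, mk_set, mk_nat, two_power_aleph0]
        exact mul_lt_of_lt aleph0_le_continuum (this.trans_eq (by simp)) aleph0_lt_continuum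
  have ne : ∀ b, (L univ (fun y => g y) b).NeBot := fun b => forall_mem_nonempty_iff_neBot.1
    fun Z q => by simpa using lim univ (fun _ _ _ _ => trivial) (fun t _ => (all t).1) b _ (.top _) Z q
  exact ⟨fun b => Ultrafilter.of (L univ (fun y => g y) b),
    fun b => (Ultrafilter.of_le _).trans inf_le_left, fun t => ⟨_, fun b =>
      (Ultrafilter.of_le _).trans (inf_le_right.trans
        (iInf_le (fun y : univ => (g y).1 b) ⟨t, trivial⟩)), (all t).2⟩⟩

theorem exists_weakP : ∃ u v, WeakP u ∧ WeakP v ∧ ¬ RK u v ∧ ¬ RK v u := by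
  obtain ⟨u, h1, h2⟩ := recur
  have fr : ∀ w : Ultrafilter ℕ, Free w → ∀ s : Set ℕ, s.Finite → s ∉ w := fun w p s q r =>
    (Ultrafilter.eq_pure_of_finite_mem q r).elim fun n a => p n a.2
  have wp : ∀ b, WeakP (u b) := fun b => by
    refine ⟨fun n q => ?_, fun D d1 d2 d3 => ?_⟩
    · simpa [q] using h1 b (finite_singleton n).compl_mem_cofinite
    obtain ⟨t, rfl⟩ := d1.exists_eq_range (closure_nonempty_iff.1 ⟨_, d3⟩)
    have : ∀ i, ∃ A ∈ u b, A ∉ t i := fun i => by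
      by_contra! q
      exact (d2 _ ⟨i, rfl⟩).2 (Ultrafilter.coe_le_coe.1 q)
    choose A A1 A2 using this
    obtain ⟨G, g1, g2⟩ := h2 (b, .inl fun n => ⋂ i ≤ n, A i)
    rcases g2 fun m n q => biInter_subset_biInter_left fun i (r : i ≤ m) => r.trans q with
      ⟨n, q⟩ | ⟨B, b1, b2⟩
    · exact Ultrafilter.compl_mem_iff_notMem.1 (g1 b q)
        ((biInter_mem (finite_le_nat n)).2 fun i _ => A1 i)
    obtain ⟨i, hi⟩ : ∃ i, {α | B α ∈ t i}.Infinite := by
      by_contra! q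
      haveI : Uncountable (Set ℕ) := aleph0_lt_mk_iff.1 (by simpa using aleph0_lt_continuum)
      refine not_countable_univ ((countable_iUnion fun i => (q i).countable).mono fun α _ => ?_)
      obtain ⟨_, ⟨i, rfl⟩, s⟩ := cl_iff.1 d3 _ (g1 b (b1 α))
      exact mem_iUnion.2 ⟨i, s⟩
    obtain ⟨σ, s1, s2⟩ := hi.exists_subset_card_eq (i + 1)
    exact fr _ (d2 _ ⟨i, rfl⟩).1 _ (b2 i σ s2) (inter_mem ((biInter_finset_mem σ).2 fun α q => s1 q)
      (Ultrafilter.compl_mem_iff_notMem.2 fun q => A2 i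
        (mem_of_superset q (biInter_subset_of_mem (le_refl i)))))
  have rk : ∀ b, ¬ RK (u (!b)) (u b) := fun b ⟨f, q⟩ => by
    obtain ⟨G, g1, W, w1, w2⟩ := h2 (b, .inr f)
    exact Ultrafilter.compl_mem_iff_notMem.1 (g1 _ w2) (q ▸ g1 b w1)
  exact ⟨_, _, wp true, wp false, rk false, rk true⟩

end Pool.Agent.H34.WeakP
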